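import Mathlib

open Filter Topology

namespace Pool.Agent.Helper152.Hilb

noncomputable section

/-- the Hilbert space of square summable complex sequences -/
abbrev E := lp (fun _ : ℕ => ℂ) 2

/-- absolutely bounded matrices, finite form -/
def MatBound (k : ℕ → ℕ → ℂ) (C : ℝ) : Prop :=
  0 ≤ C ∧ ∀ (x : ℕ → ℝ), (∀ n, 0 ≤ x n) → ∀ s t : Finset ℕ,
    ∑ m ∈ t, (∑ n ∈ s, ‖k m n‖ * x n) ^ 2 ≤ C ^ 2 * ∑ n ∈ s, (x n) ^ 2

theorem sum_sq_le (x : E) (s : Finset ℕ) : ∑ n ∈ s, ‖x n‖ ^ 2 ≤ ‖x‖ ^ 2 := by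
  have h := lp.sum_rpow_le_norm_rpow (p := 2) (by simp) x s
  simpa using h

theorem summable_sq (x : E) : Summable fun n => ‖x n‖ ^ 2 := by
  have h := (lp.memℓp x).summable (p := 2) (by simp)
  simpa using h

theorem norm_sq_eq (x : E) : ‖x‖ ^ 2 = ∑' n, ‖x n‖ ^ 2 := by
  have h := lp.norm_rpow_eq_tsum (p := 2) (by simp) x
  simpa using h

theorem memlp_of_sum {f : ℕ → ℂ} {C : ℝ} (h : ∀ t : Finset ℕ, ∑ m ∈ t, ‖f m‖ ^ 2 ≤ C) :
    Memℓp (E := fun _ : ℕ => ℂ) f 2 := by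
  apply memℓp_gen' (p := 2) (C := C)
  intro s
  simpa using h s

theorem norm_le_of_sum {x : E} {C : ℝ} (hC : 0 ≤ C) (h : ∀ t : Finset ℕ, ∑ m ∈ t, ‖x m‖ ^ 2 ≤ C ^ 2) :
    ‖x‖ ≤ C := by
  apply lp.norm_le_of_forall_sum_le (p := 2) (by simp) hC
  intro s
  simpa using h s

theorem MatBound.row {k : ℕ → ℕ → ℂ} {C : ℝ} (h : MatBound k C) (x : E) (m : ℕ) :
    Summable fun n => ‖k m n‖ * ‖x n‖ := by
  apply summable_of_sum_le (c := C * ‖x‖) (fun n => by positivity)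
  intro s
  have h1 := h.2 (fun n => ‖x n‖) (fun n => norm_nonneg _) s {m}
  simp only [Finset.sum_singleton] at h1
  have h2 : (∑ n ∈ s, ‖k m n‖ * ‖x n‖) ^ 2 ≤ (C * ‖x‖) ^ 2 := by
    refine h1.trans ?_
    rw [mul_pow]
    exact mul_le_mul_of_nonneg_left (sum_sq_le x s) (sq_nonneg _)
  have h3 : 0 ≤ C * ‖x‖ := mul_nonneg h.1 (norm_nonneg _)
  exact abs_le_of_sq_le_sq' h2 h3 |>.2

theorem MatBound.summ {k : ℕ → ℕ → ℂ} {C : ℝ} (h : MatBound k C) (x : E) (m : ℕ) :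
    Summable fun n => k m n * x n := by
  apply Summable.of_norm
  simpa [norm_mul] using h.row x m

theorem MatBound.sum_le {k : ℕ → ℕ → ℂ} {C : ℝ} (h : MatBound k C) (x : E) (t : Finset ℕ) :
    ∑ m ∈ t, ‖∑' n, k m n * x n‖ ^ 2 ≤ (C * ‖x‖) ^ 2 := by
  have hlim : Tendsto (fun N : ℕ => ∑ m ∈ t, ‖∑ n ∈ Finset.range N, k m n * x n‖ ^ 2) atTop
      (𝓝 (∑ m ∈ t, ‖∑' n, k m n * x n‖ ^ 2)) := by
    apply tendsto_finsetSum
    intro m _
    exact ((h.summ x m).hasSum.tendsto_sum_nat.norm).pow 2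
  apply le_of_tendsto' hlim
  intro N
  have h1 := h.2 (fun n => ‖x n‖) (fun n => norm_nonneg _) (Finset.range N) t
  calc ∑ m ∈ t, ‖∑ n ∈ Finset.range N, k m n * x n‖ ^ 2
      ≤ ∑ m ∈ t, (∑ n ∈ Finset.range N, ‖k m n‖ * ‖x n‖) ^ 2 := by
        apply Finset.sum_le_sum
        intro m _
        apply pow_le_pow_left₀ (norm_nonneg _)
        refine (norm_sum_le _ _).trans ?_
        apply Finset.sum_le_sum
        intro n _
        rw [norm_mul]
    _ ≤ C ^ 2 * ∑ n ∈ Finset.range N, ‖x n‖ ^ 2 := h1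
    _ ≤ C ^ 2 * ‖x‖ ^ 2 := mul_le_mul_of_nonneg_left (sum_sq_le x _) (sq_nonneg _)
    _ = (C * ‖x‖) ^ 2 := by ring

/-- the operator on `E` given by an absolutely bounded matrix -/
def matOp (k : ℕ → ℕ → ℂ) (C : ℝ) (h : MatBound k C) : E →L[ℂ] E :=
  LinearMap.mkContinuous
    { toFun := fun x => (⟨fun m => ∑' n, k m n * x n, memlp_of_sum (h.sum_le x)⟩ : E)
      map_add' := by
        intro x y
        ext m
        simp only [lp.coeFn_add, Pi.add_apply, mul_add]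
        exact (h.summ x m).tsum_add (h.summ y m)
      map_smul' := by
        intro c x
        ext m
        simp only [lp.coeFn_smul, Pi.smul_apply, smul_eq_mul, RingHom.id_apply]
        rw [← tsum_mul_left]
        congr 1
        ext n
        ring } C (by
    intro x
    apply norm_le_of_sum (mul_nonneg h.1 (norm_nonneg _))
    intro t
    exact h.sum_le x t)

theorem matOp_apply {k : ℕ → ℕ → ℂ} {C : ℝ} (h : MatBound k C) (x : E) (m : ℕ) :
    matOp k C h x m = ∑' n, k m n * x n := rfl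

theorem matOp_hasSum {k : ℕ → ℕ → ℂ} {C : ℝ} (h : MatBound k C) (x : E) (m : ℕ) :
    HasSum (fun n => k m n * x n) (matOp k C h x m) := (h.summ x m).hasSum

theorem matOp_norm_le {k : ℕ → ℕ → ℂ} {C : ℝ} (h : MatBound k C) : ‖matOp k C h‖ ≤ C :=
  LinearMap.mkContinuous_norm_le _ h.1 _

/-- Schur test in finite form -/
theorem schur {k : ℕ → ℕ → ℂ} {C : ℝ} (hC : 0 ≤ C) (p q : ℕ → ℝ) (hp : ∀ n, 0 < p n)
    (h1 : ∀ m (s : Finset ℕ), ∑ n ∈ s, ‖k m n‖ * p n ≤ C * q m)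
    (h2 : ∀ n (t : Finset ℕ), ∑ m ∈ t, ‖k m n‖ * q m ≤ C * p n) : MatBound k C := by
  refine ⟨hC, ?_⟩
  intro x hx s t
  have key : ∀ m, (∑ n ∈ s, ‖k m n‖ * x n) ^ 2 ≤
      (C * q m) * ∑ n ∈ s, ‖k m n‖ * x n ^ 2 / p n := by
    intro m
    have h3 := Finset.sum_sq_le_sum_mul_sum_of_sq_le_mul s
      (r := fun n => ‖k m n‖ * x n) (f := fun n => ‖k m n‖ * p n)
      (g := fun n => ‖k m n‖ * x n ^ 2 / p n)
      (fun n _ => mul_nonneg (norm_nonneg _) (hp n).le)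
      (fun n _ => by have := hp n; positivity)
      (fun n _ => by have := (hp n).ne'; apply le_of_eq; field_simp)
    refine h3.trans ?_
    apply mul_le_mul_of_nonneg_right (h1 m s)
    apply Finset.sum_nonneg
    intro n _
    have := hp n
    positivity
  calc ∑ m ∈ t, (∑ n ∈ s, ‖k m n‖ * x n) ^ 2
      ≤ ∑ m ∈ t, (C * q m) * ∑ n ∈ s, ‖k m n‖ * x n ^ 2 / p n :=
        Finset.sum_le_sum fun m _ => key m
    _ = ∑ n ∈ s, (C * (x n ^ 2 / p n)) * ∑ m ∈ t, ‖k m n‖ * q m := by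
        simp_rw [Finset.mul_sum]
        rw [Finset.sum_comm]
        apply Finset.sum_congr rfl
        intro n _
        apply Finset.sum_congr rfl
        intro m _
        ring
    _ ≤ ∑ n ∈ s, (C * (x n ^ 2 / p n)) * (C * p n) := by
        apply Finset.sum_le_sum
        intro n _
        apply mul_le_mul_of_nonneg_left (h2 n t)
        have := hp n
        positivity
    _ = C ^ 2 * ∑ n ∈ s, (x n) ^ 2 := by
        rw [Finset.mul_sum]
        apply Finset.sum_congr rfl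
        intro n _
        have := (hp n).ne'
        field_simp

theorem MatBound.mono {k k' : ℕ → ℕ → ℂ} {C : ℝ} (h : MatBound k C) (D : ℝ) (hD : 0 ≤ D)
    (hk : ∀ m n, ‖k' m n‖ ≤ D * ‖k m n‖) : MatBound k' (D * C) := by
  refine ⟨mul_nonneg hD h.1, ?_⟩
  intro x hx s t
  calc ∑ m ∈ t, (∑ n ∈ s, ‖k' m n‖ * x n) ^ 2
      ≤ ∑ m ∈ t, (D * ∑ n ∈ s, ‖k m n‖ * x n) ^ 2 := by
        apply Finset.sum_le_sum
        intro m _
        apply pow_le_pow_left₀
        · exact Finset.sum_nonneg fun n _ => mul_nonneg (norm_nonneg _) (hx n)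
        · rw [Finset.mul_sum]
          apply Finset.sum_le_sum
          intro n _
          rw [← mul_assoc]
          exact mul_le_mul_of_nonneg_right (hk m n) (hx n)
    _ = D ^ 2 * ∑ m ∈ t, (∑ n ∈ s, ‖k m n‖ * x n) ^ 2 := by
        rw [Finset.mul_sum]
        apply Finset.sum_congr rfl
        intro m _
        ring
    _ ≤ D ^ 2 * (C ^ 2 * ∑ n ∈ s, (x n) ^ 2) :=
        mul_le_mul_of_nonneg_left (h.2 x hx s t) (sq_nonneg _)
    _ = (D * C) ^ 2 * ∑ n ∈ s, (x n) ^ 2 := by ring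

/-- difference of matrix operators -/
theorem matOp_sub {k l : ℕ → ℕ → ℂ} {C D B : ℝ} (hk : MatBound k C) (hl : MatBound l D)
    (hb : MatBound (fun m n => k m n - l m n) B) :
    matOp k C hk - matOp l D hl = matOp (fun m n => k m n - l m n) B hb := by
  ext x m
  simp only [sub_apply, lp.coeFn_sub, Pi.sub_apply, matOp_apply, sub_mul]
  exact ((hk.summ x m).tsum_sub (hl.summ x m)).symm

/-- coordinates and adjoint: real transpose -/
theorem matOp_adjoint {k l : ℕ → ℕ → ℂ} {C D : ℝ} (hk : MatBound k C) (hl : MatBound l D)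
    (h : ∀ m n, l m n = (starRingEnd ℂ) (k n m)) :
    ContinuousLinearMap.adjoint (matOp k C hk) = matOp l D hl := by
  apply ContinuousLinearMap.ext
  intro y
  ext m
  have h1 : inner ℂ (lp.single 2 m (1 : ℂ)) (ContinuousLinearMap.adjoint (matOp k C hk) y)
      = (ContinuousLinearMap.adjoint (matOp k C hk) y) m := by
    rw [lp.inner_single_left]
    simp
  rw [← h1, ContinuousLinearMap.adjoint_inner_right, lp.inner_eq_tsum, matOp_apply]
  congr 1
  ext n
  rw [matOp_apply, tsum_eq_single m]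
  · rw [h]
    simp
    ring
  · intro j hj
    have hz : (lp.single (E := fun _ : ℕ => ℂ) 2 m (1 : ℂ) : E) j = 0 :=
      lp.single_apply_ne (E := fun _ : ℕ => ℂ) 2 m (1 : ℂ) hj
    rw [hz, mul_zero]

end

end Pool.Agent.Helper152.Hilb
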