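import Mathlib

open Filter Topology

namespace Pool.Agent.Helper152.Hilb

noncomputable section

/-- binomial type sequence -/
def vv (s : ℂ) (n : ℕ) : ℂ := ∏ k ∈ Finset.range n, (1 - s / ((k : ℂ) + 1))

theorem vv_zero (s : ℂ) : vv s 0 = 1 := by simp [vv]

theorem vv_succ (s : ℂ) (n : ℕ) : vv s (n + 1) = vv s n * (1 - s / ((n : ℂ) + 1)) := by
  simp [vv, Finset.prod_range_succ]

theorem natc_ne (n : ℕ) : ((n : ℂ) + 1) ≠ 0 := Nat.cast_add_one_ne_zero n

theorem fac_ne {s : ℂ} (hs : s.re < 1) (k : ℕ) : ((k : ℂ) + 1 - s) ≠ 0 := by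
  intro h
  have h1 := congrArg Complex.re h
  simp at h1
  have : (0 : ℝ) ≤ k := Nat.cast_nonneg k
  linarith

theorem one_sub_ne {s : ℂ} (hs : s.re < 1) (k : ℕ) : (1 - s / ((k : ℂ) + 1)) ≠ 0 := by
  have h1 := fac_ne hs k
  have h2 := natc_ne k
  have : (1 - s / ((k : ℂ) + 1)) = ((k : ℂ) + 1 - s) / ((k : ℂ) + 1) := by field_simp
  rw [this]
  exact div_ne_zero h1 h2

theorem vv_ne_zero {s : ℂ} (hs : s.re < 1) (n : ℕ) : vv s n ≠ 0 :=
  Finset.prod_ne_zero_iff.2 fun k _ => one_sub_ne hs k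

theorem prod_eq (s : ℂ) (n : ℕ) :
    ∏ j ∈ Finset.range n, ((1 - s) + (j : ℂ)) = (n.factorial : ℂ) * vv s n := by
  induction n with
  | zero => simp [vv]
  | succ n ih =>
    rw [Finset.prod_range_succ, ih, vv_succ, Nat.factorial_succ]
    have := natc_ne n
    push_cast
    field_simp
    ring

theorem gammaSeq_eq {s : ℂ} (hs : s.re < 1) {n : ℕ} (hn : n ≠ 0) :
    Complex.GammaSeq (1 - s) n * (vv s n * (n : ℂ) ^ s) = (n : ℂ) / ((n : ℂ) + 1 - s) := by
  have hn' : (n : ℂ) ≠ 0 := Nat.cast_ne_zero.2 hn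
  rw [Complex.GammaSeq, Finset.prod_range_succ, prod_eq]
  have h1 := fac_ne hs n
  have h2 := vv_ne_zero hs n
  have h3 : (n.factorial : ℂ) ≠ 0 := Nat.cast_ne_zero.2 n.factorial_ne_zero
  have h4 : (n : ℂ) ^ s ≠ 0 := by
    intro h
    rw [Complex.cpow_eq_zero_iff] at h
    exact hn' h.1
  rw [Complex.cpow_sub _ _ hn', Complex.cpow_one]
  have h5 : (1 - s + (n : ℂ)) ≠ 0 := by
    intro h
    apply h1
    rw [← h]
    ring
  have h6 : ((n : ℂ) + 1 - s) = (1 - s + (n : ℂ)) := by ring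
  rw [h6]
  field_simp

theorem gamma_ne {s : ℂ} (hs : s.re < 1) : Complex.Gamma (1 - s) ≠ 0 := by
  apply Complex.Gamma_ne_zero
  intro m h
  have h1 := congrArg Complex.re h
  simp at h1
  have : (0 : ℝ) ≤ m := Nat.cast_nonneg m
  linarith

theorem tendsto_aux (s : ℂ) : Tendsto (fun n : ℕ => (n : ℂ) / ((n : ℂ) + 1 - s)) atTop (𝓝 1) := by
  have h1 : Tendsto (fun n : ℕ => 1 + (1 - s) / (n : ℂ)) atTop (𝓝 (1 + 0)) := by
    apply tendsto_const_nhds.add
    exact tendsto_const_div_atTop_nhds_zero_nat (1 - s)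
  have h2 := h1.inv₀ (by simp)
  simp only [add_zero, inv_one] at h2
  apply h2.congr'
  filter_upwards [eventually_ne_atTop 0] with n hn
  have hn' : (n : ℂ) ≠ 0 := Nat.cast_ne_zero.2 hn
  have h3 : ((n : ℂ) + 1 - s) = (n : ℂ) * (1 + (1 - s) / (n : ℂ)) := by
    field_simp
    ring
  rw [h3]
  rw [← div_div, div_self hn', one_div]

theorem vv_tendsto {s : ℂ} (hs : s.re < 1) :
    Tendsto (fun n : ℕ => vv s n * (n : ℂ) ^ s) atTop (𝓝 (Complex.Gamma (1 - s))⁻¹) := by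
  have h1 := (Complex.GammaSeq_tendsto_Gamma (1 - s)).inv₀ (gamma_ne hs)
  have h2 := h1.mul (tendsto_aux s)
  rw [mul_one] at h2
  apply h2.congr'
  filter_upwards [eventually_ne_atTop 0,
    (Complex.GammaSeq_tendsto_Gamma (1 - s)).eventually_ne (gamma_ne hs)] with n hn hn2
  rw [← gammaSeq_eq hs hn]
  field_simp

theorem tendsto_one_sub (s : ℂ) : Tendsto (fun n : ℕ => 1 - s / ((n : ℂ) + 1)) atTop (𝓝 1) := by
  have h1 : Tendsto (fun n : ℕ => 1 - s / ((n : ℂ))) atTop (𝓝 (1 - 0)) := by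
    apply tendsto_const_nhds.sub
    exact tendsto_const_div_atTop_nhds_zero_nat s
  have h2 := (tendsto_add_atTop_iff_nat 1).2 h1
  simpa using h2

theorem vv_tendsto' {s : ℂ} (hs : s.re < 1) :
    Tendsto (fun n : ℕ => vv s n * ((n : ℂ) + 1) ^ s) atTop (𝓝 (Complex.Gamma (1 - s))⁻¹) := by
  have h1 := (tendsto_add_atTop_iff_nat 1).2 (vv_tendsto hs)
  have h2 := h1.div (tendsto_one_sub s) one_ne_zero
  rw [div_one] at h2
  apply h2.congr
  intro n
  simp only [Pi.div_apply]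
  rw [vv_succ]
  have h3 := one_sub_ne hs n
  push_cast
  rw [div_eq_iff h3]
  ring

theorem vv_norm_tendsto {s : ℂ} (hs : s.re < 1) :
    Tendsto (fun n : ℕ => ‖vv s n‖ * ((n : ℝ) + 1) ^ s.re) atTop
      (𝓝 ‖(Complex.Gamma (1 - s))⁻¹‖) := by
  have h1 := (vv_tendsto' hs).norm
  apply h1.congr
  intro n
  rw [norm_mul]
  congr 1
  have : ((n : ℂ) + 1) = (((n : ℝ) + 1 : ℝ) : ℂ) := by push_cast; rfl
  rw [this, Complex.norm_cpow_eq_rpow_re_of_pos (by positivity)]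

theorem pos_seq_bounds {f : ℕ → ℝ} {L : ℝ} (hf : ∀ n, 0 < f n) (hL : 0 < L)
    (h : Tendsto f atTop (𝓝 L)) : ∃ c C : ℝ, 0 < c ∧ 0 < C ∧ ∀ n, c ≤ f n ∧ f n ≤ C := by
  obtain ⟨C, hC⟩ := h.bddAbove_range
  obtain ⟨D, hD⟩ := (h.inv₀ hL.ne').bddAbove_range
  have hC' : ∀ n, f n ≤ C := fun n => hC ⟨n, rfl⟩
  have hD' : ∀ n, (f n)⁻¹ ≤ D := fun n => hD ⟨n, rfl⟩
  have hDpos : 0 < D := lt_of_lt_of_le (inv_pos.2 (hf 0)) (hD' 0)
  refine ⟨D⁻¹, C, inv_pos.2 hDpos, lt_of_lt_of_le (hf 0) (hC' 0), fun n => ⟨?_, hC' n⟩⟩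
  rw [inv_le_comm₀ hDpos (hf n)]
  exact hD' n

theorem vv_bounds {s : ℂ} (hs : s.re < 1) : ∃ c C : ℝ, 0 < c ∧ 0 < C ∧ ∀ n : ℕ,
    c * ((n : ℝ) + 1) ^ (-s.re) ≤ ‖vv s n‖ ∧ ‖vv s n‖ ≤ C * ((n : ℝ) + 1) ^ (-s.re) := by
  obtain ⟨c, C, hc, hC, h⟩ := pos_seq_bounds (f := fun n : ℕ => ‖vv s n‖ * ((n : ℝ) + 1) ^ s.re)
    (L := ‖(Complex.Gamma (1 - s))⁻¹‖)
    (fun n => mul_pos (norm_pos_iff.2 (vv_ne_zero hs n)) (by positivity))
    (norm_pos_iff.2 (inv_ne_zero (gamma_ne hs))) (vv_norm_tendsto hs)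
  refine ⟨c, C, hc, hC, fun n => ?_⟩
  obtain ⟨h1, h2⟩ := h n
  have hpos : (0 : ℝ) < ((n : ℝ) + 1) ^ s.re := by positivity
  rw [Real.rpow_neg (by positivity)]
  constructor
  · rw [← div_eq_mul_inv, div_le_iff₀ hpos]
    exact h1
  · rw [← div_eq_mul_inv, le_div_iff₀ hpos]
    exact h2

theorem summable_shift (p : ℝ) : (Summable fun n : ℕ => ((n : ℝ) + 1) ^ p) ↔ p < -1 := by
  rw [← Real.summable_nat_rpow, ← summable_nat_add_iff (f := fun n : ℕ => (n : ℝ) ^ p) 1]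
  simp

theorem vv_tendsto_zero {s : ℂ} (hs : s.re < 1) (hs0 : 0 < s.re) :
    Tendsto (fun n => vv s n) atTop (𝓝 0) := by
  obtain ⟨c, C, hc, hC, h⟩ := vv_bounds hs
  apply squeeze_zero_norm (fun n => (h n).2)
  have h1 : Tendsto (fun n : ℕ => ((n : ℝ) + 1) ^ (-s.re)) atTop (𝓝 0) := by
    have h2 := (tendsto_rpow_neg_atTop hs0).comp
      (tendsto_natCast_atTop_atTop.atTop_add (tendsto_const_nhds (x := (1 : ℝ))))
    exact h2
  simpa using h1.const_mul C

theorem vv_summable {s : ℂ} (hs : s.re < 1) (hs0 : 0 < s.re) (m : ℕ) :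
    Summable fun n : ℕ => vv s n / ((m : ℂ) + n + 1) := by
  obtain ⟨c, C, hc, hC, h⟩ := vv_bounds hs
  apply Summable.of_norm_bounded (g := fun n : ℕ => C * ((n : ℝ) + 1) ^ (-s.re - 1))
  · exact ((summable_shift _).2 (by linarith)).mul_left C
  · intro n
    rw [norm_div]
    have h1 : ‖((m : ℂ) + n + 1)‖ = (m : ℝ) + n + 1 := by
      have : ((m : ℂ) + n + 1) = (((m : ℝ) + n + 1 : ℝ) : ℂ) := by push_cast; rfl
      rw [this, Complex.norm_real, Real.norm_of_nonneg (by positivity)]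
    rw [h1, Real.rpow_sub_one (by positivity), ← mul_div_assoc]
    apply div_le_div₀ (by positivity) (h n).2 (by positivity)
    have : (0 : ℝ) ≤ m := Nat.cast_nonneg m
    linarith

theorem sum_zero {s : ℂ} (hs0 : s ≠ 0) (N : ℕ) :
    ∑ n ∈ Finset.range N, vv s n / (((0 : ℕ) : ℂ) + n + 1) = (1 - vv s N) / s := by
  induction N with
  | zero => simp [vv_zero]
  | succ N ih =>
    rw [Finset.sum_range_succ, ih, vv_succ]
    have := natc_ne N
    push_cast
    field_simp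
    ring

theorem sum_step (s : ℂ) (m N : ℕ) :
    ∑ n ∈ Finset.range N, (((m : ℂ) + 1 + s) * (vv s n / (((m + 1 : ℕ) : ℂ) + n + 1)) -
      ((m : ℂ) + 1) * (vv s n / ((m : ℂ) + n + 1))) = - (N * vv s N / ((m : ℂ) + 1 + N)) := by
  induction N with
  | zero => simp
  | succ N ih =>
    rw [Finset.sum_range_succ, ih, vv_succ]
    have h1 := natc_ne N
    have h2 : ((m : ℂ) + 1 + N) ≠ 0 := by
      have := natc_ne (m + N)
      push_cast at this
      intro h
      apply this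
      rw [← h]
      ring
    have h3 : ((m : ℂ) + 1 + ((N : ℂ) + 1)) ≠ 0 := by
      have := natc_ne (m + N + 1)
      push_cast at this
      intro h
      apply this
      rw [← h]
      ring
    have h4 : ((m : ℂ) + N + 1) ≠ 0 := by
      intro h
      apply h2
      rw [← h]
      ring
    have h5 : ((m : ℂ) + 1 + N + 1) ≠ 0 := by
      intro h
      apply h3
      rw [← h]
      ring
    push_cast
    field_simp
    ring

theorem vv_hasSum {s : ℂ} (hs : s.re < 1) (hs0 : 0 < s.re) (m : ℕ) :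
    HasSum (fun n : ℕ => vv s n / ((m : ℂ) + n + 1)) (1 / (s * vv (-s) m)) := by
  have hsne : s ≠ 0 := by
    intro h
    rw [h] at hs0
    simp at hs0
  induction m with
  | zero =>
    rw [(vv_summable hs hs0 0).hasSum_iff_tendsto_nat]
    simp only [sum_zero hsne]
    have h1 := (tendsto_const_nhds (x := (1 : ℂ))).sub (vv_tendsto_zero hs hs0)
    have h2 := h1.div_const s
    simpa [vv_zero] using h2
  | succ m ih =>
    rw [(vv_summable hs hs0 (m + 1)).hasSum_iff]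
    have h1 : ∑' n : ℕ, (((m : ℂ) + 1 + s) * (vv s n / (((m + 1 : ℕ) : ℂ) + n + 1)) -
      ((m : ℂ) + 1) * (vv s n / ((m : ℂ) + n + 1))) = 0 := by
      have hsum : Summable fun n : ℕ => (((m : ℂ) + 1 + s) * (vv s n / (((m + 1 : ℕ) : ℂ) + n + 1)) -
        ((m : ℂ) + 1) * (vv s n / ((m : ℂ) + n + 1))) :=
        ((vv_summable hs hs0 (m + 1)).mul_left _).sub ((vv_summable hs hs0 m).mul_left _)
      rw [← hsum.hasSum_iff, hsum.hasSum_iff_tendsto_nat]
      simp only [sum_step]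
      rw [← neg_zero]
      apply Tendsto.neg
      apply squeeze_zero_norm (a := fun N => ‖vv s N‖)
      · intro N
        rw [norm_div, norm_mul]
        have e1 : ‖((m : ℂ) + 1 + N)‖ = (m : ℝ) + 1 + N := by
          have : ((m : ℂ) + 1 + N) = (((m : ℝ) + 1 + N : ℝ) : ℂ) := by push_cast; rfl
          rw [this, Complex.norm_real, Real.norm_of_nonneg (by positivity)]
        rw [e1, Complex.norm_natCast, div_le_iff₀ (by positivity), mul_comm]
        apply mul_le_mul_of_nonneg_left _ (norm_nonneg _)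
        have : (0 : ℝ) ≤ m := Nat.cast_nonneg m
        linarith
      · simpa using (vv_tendsto_zero hs hs0).norm
    rw [((vv_summable hs hs0 (m + 1)).mul_left _).tsum_sub ((vv_summable hs hs0 m).mul_left _),
      tsum_mul_left, tsum_mul_left, ih.tsum_eq] at h1
    rw [vv_succ]
    have h2 := natc_ne m
    have h3 : vv (-s) m ≠ 0 := vv_ne_zero (by simp; linarith) m
    have h4 : ((m : ℂ) + 1 + s) ≠ 0 := by
      intro h
      have h5 := congrArg Complex.re h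
      simp at h5
      have : (0 : ℝ) ≤ m := Nat.cast_nonneg m
      linarith
    have h6 : (1 - -s / ((m : ℂ) + 1)) = ((m : ℂ) + 1 + s) / ((m : ℂ) + 1) := by
      field_simp
      ring
    rw [h6]
    rw [sub_eq_zero] at h1
    have h7 : ∑' n : ℕ, vv s n / (((m + 1 : ℕ) : ℂ) + n + 1) =
        (((m : ℂ) + 1) * (1 / (s * vv (-s) m))) / ((m : ℂ) + 1 + s) := by
      rw [← h1]
      field_simp
    rw [h7]
    field_simp

/-- partial Euler products -/
theorem vv_mul (s : ℂ) (n : ℕ) :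
    vv s n * vv (-s) n = ∏ j ∈ Finset.range n, (1 - s ^ 2 / ((j : ℂ) + 1) ^ 2) := by
  rw [vv, vv, ← Finset.prod_mul_distrib]
  apply Finset.prod_congr rfl
  intro k _
  have := natc_ne k
  field_simp
  ring

theorem sin_ne {s : ℂ} (hs : s.re < 1) (hs0 : 0 < s.re) : Complex.sin (Real.pi * s) ≠ 0 := by
  rw [Complex.sin_ne_zero_iff]
  intro k h
  have hpi : (Real.pi : ℂ) ≠ 0 := Complex.ofReal_ne_zero.2 Real.pi_ne_zero
  have h1 : s = k := by
    have h2 : (Real.pi : ℂ) * s = Real.pi * k := by rw [h]; ring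
    exact mul_left_cancel₀ hpi h2
  have h3 := congrArg Complex.re h1
  simp at h3
  rw [h3] at hs hs0
  have h4 : k < 1 := by exact_mod_cast hs
  have h5 : 0 < k := by exact_mod_cast hs0
  omega

theorem prod_tendsto {s : ℂ} (hs0 : s ≠ 0) :
    Tendsto (fun n => vv s n * vv (-s) n) atTop (𝓝 (Complex.sin (Real.pi * s) / (Real.pi * s))) := by
  have h1 := Complex.tendsto_euler_sin_prod s
  have h2 := h1.div_const ((Real.pi : ℂ) * s)
  apply h2.congr
  intro n
  have hpi : (Real.pi : ℂ) ≠ 0 := Complex.ofReal_ne_zero.2 Real.pi_ne_zero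
  rw [vv_mul]
  field_simp

theorem prod_diff_bound {s : ℂ} (hs : s.re < 1) (hs0 : 0 < s.re) : ∃ C : ℝ, 0 < C ∧ ∀ n : ℕ,
    ‖Complex.sin (Real.pi * s) / (Real.pi * s) - vv s n * vv (-s) n‖ ≤ C / ((n : ℝ) + 1) := by
  have hsne : s ≠ 0 := by
    intro h
    rw [h] at hs0
    simp at hs0
  obtain ⟨B, hB⟩ := (prod_tendsto hsne).norm.bddAbove_range
  have hB' : ∀ n, ‖vv s n * vv (-s) n‖ ≤ B := fun n => hB ⟨n, rfl⟩
  have hBpos : 0 < B := by
    have := hB' 0
    simp [vv_zero] at this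
    linarith
  have hsn : 0 < ‖s‖ := norm_pos_iff.2 hsne
  have step : ∀ n : ℕ, ‖vv s (n + 1) * vv (-s) (n + 1) - vv s n * vv (-s) n‖ ≤
      B * ‖s‖ ^ 2 * (2 * (1 / ((n : ℝ) + 1) - 1 / ((n : ℝ) + 2))) := by
    intro n
    have e1 : vv s (n + 1) * vv (-s) (n + 1) - vv s n * vv (-s) n =
        -(vv s n * vv (-s) n) * (s ^ 2 / ((n : ℂ) + 1) ^ 2) := by
      rw [vv_succ, vv_succ]
      have := natc_ne n
      field_simp
      ring
    rw [e1, norm_mul, norm_neg, norm_div, norm_pow, norm_pow]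
    have e2 : ‖((n : ℂ) + 1)‖ = (n : ℝ) + 1 := by
      have : ((n : ℂ) + 1) = (((n : ℝ) + 1 : ℝ) : ℂ) := by push_cast; rfl
      rw [this, Complex.norm_real, Real.norm_of_nonneg (by positivity)]
    rw [e2, mul_assoc]
    apply mul_le_mul (hB' n) _ (by positivity) hBpos.le
    have hn : (0 : ℝ) ≤ n := Nat.cast_nonneg n
    have e3 : (2 * (1 / ((n : ℝ) + 1) - 1 / ((n : ℝ) + 2))) = 2 / (((n : ℝ) + 1) * ((n : ℝ) + 2)) := by
      field_simp
      ring
    rw [e3, div_eq_mul_inv (‖s‖ ^ 2)]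
    apply mul_le_mul_of_nonneg_left _ (by positivity)
    rw [inv_eq_one_div, div_le_div_iff₀ (by positivity) (by positivity)]
    nlinarith
  have ind : ∀ n k : ℕ, ‖vv s (n + k) * vv (-s) (n + k) - vv s n * vv (-s) n‖ ≤
      B * ‖s‖ ^ 2 * (2 * (1 / ((n : ℝ) + 1) - 1 / ((n : ℝ) + k + 1))) := by
    intro n k
    induction k with
    | zero => simp
    | succ k ih =>
      have h1 := step (n + k)
      have h2 := norm_sub_le_norm_sub_add_norm_sub (vv s (n + k + 1) * vv (-s) (n + k + 1))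
        (vv s (n + k) * vv (-s) (n + k)) (vv s n * vv (-s) n)
      rw [← add_assoc]
      refine h2.trans ((add_le_add h1 ih).trans (le_of_eq ?_))
      push_cast
      ring
  refine ⟨B * ‖s‖ ^ 2 * 2, by positivity, fun n => ?_⟩
  have hlim : Tendsto (fun k => ‖vv s (n + k) * vv (-s) (n + k) - vv s n * vv (-s) n‖) atTop
      (𝓝 ‖Complex.sin (Real.pi * s) / (Real.pi * s) - vv s n * vv (-s) n‖) := by
    apply Tendsto.norm
    apply Tendsto.sub _ tendsto_const_nhds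
    have h1 := (tendsto_add_atTop_iff_nat n).2 (prod_tendsto hsne)
    simpa [add_comm] using h1
  apply le_of_tendsto' hlim
  intro k
  refine (ind n k).trans ?_
  have hk : (0 : ℝ) ≤ 1 / ((n : ℝ) + k + 1) := by positivity
  have hc : (0 : ℝ) ≤ B * ‖s‖ ^ 2 * 2 := by positivity
  have e : B * ‖s‖ ^ 2 * 2 / ((n : ℝ) + 1) = B * ‖s‖ ^ 2 * 2 * (1 / ((n : ℝ) + 1)) := by ring
  rw [e]
  nlinarith [mul_nonneg hc hk]

/-- the defect of the approximate eigenvector -/
theorem defect_bound {s : ℂ} (hs : s.re < 1) (hs0 : 0 < s.re) : ∃ C : ℝ, 0 < C ∧ ∀ n : ℕ,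
    ‖1 / (s * vv (-s) n) - Real.pi / Complex.sin (Real.pi * s) * vv s n‖ ≤
      C * (‖vv s n‖ / ((n : ℝ) + 1)) := by
  have hsne : s ≠ 0 := by
    intro h
    rw [h] at hs0
    simp at hs0
  have hpi : (Real.pi : ℂ) ≠ 0 := Complex.ofReal_ne_zero.2 Real.pi_ne_zero
  have hsin := sin_ne hs hs0
  obtain ⟨C, hC, h⟩ := prod_diff_bound hs hs0
  have hneg : (-s).re < 1 := by simp; linarith
  obtain ⟨c, C', hc, hC', hb⟩ := pos_seq_bounds (f := fun n => ‖vv s n * vv (-s) n‖)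
    (fun n => norm_pos_iff.2 (mul_ne_zero (vv_ne_zero hs n) (vv_ne_zero hneg n)))
    (norm_pos_iff.2 (div_ne_zero hsin (mul_ne_zero hpi hsne))) (prod_tendsto hsne).norm
  set K : ℂ := Complex.sin (Real.pi * s) / (Real.pi * s) with hK
  have hKne : K ≠ 0 := div_ne_zero hsin (mul_ne_zero hpi hsne)
  refine ⟨C / (c * ‖s‖ * ‖K‖), by
    have := norm_pos_iff.2 hsne
    have := norm_pos_iff.2 hKne
    positivity, fun n => ?_⟩
  have hv := vv_ne_zero hs n
  have hw := vv_ne_zero hneg n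
  have e1 : 1 / (s * vv (-s) n) - Real.pi / Complex.sin (Real.pi * s) * vv s n =
      vv s n * (K - vv s n * vv (-s) n) / (s * K * (vv s n * vv (-s) n)) := by
    have e2 : (Real.pi : ℂ) / Complex.sin (Real.pi * s) = 1 / (s * K) := by
      rw [hK]
      field_simp
    rw [e2]
    field_simp
  rw [e1, norm_div, norm_mul, norm_mul, norm_mul]
  have hsn : 0 < ‖s‖ := norm_pos_iff.2 hsne
  have hKn : 0 < ‖K‖ := norm_pos_iff.2 hKne
  have hvn : 0 ≤ ‖vv s n‖ := norm_nonneg _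
  calc ‖vv s n‖ * ‖K - vv s n * vv (-s) n‖ / (‖s‖ * ‖K‖ * ‖vv s n * vv (-s) n‖)
      ≤ ‖vv s n‖ * (C / ((n : ℝ) + 1)) / (‖s‖ * ‖K‖ * c) := by
        apply div_le_div₀ (by positivity)
        · exact mul_le_mul_of_nonneg_left (h n) hvn
        · positivity
        · exact mul_le_mul_of_nonneg_left (hb n).1 (by positivity)
    _ = C / (c * ‖s‖ * ‖K‖) * (‖vv s n‖ / ((n : ℝ) + 1)) := by
        field_simp

end

end Pool.Agent.Helper152.Hilb
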