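import Mathlib
import Pool.Agent.Helper152.HilbA
import Pool.Agent.Helper152.HilbB

open Filter Topology

namespace Pool.Agent.Helper152.Hilb

noncomputable section

/-- real binomial type sequence -/
def vr (s : ℝ) (n : ℕ) : ℝ := ∏ k ∈ Finset.range n, (1 - s / ((k : ℝ) + 1))

theorem vv_ofReal (s : ℝ) (n : ℕ) : vv (s : ℂ) n = ((vr s n : ℝ) : ℂ) := by
  rw [vv, vr]
  push_cast
  rfl

theorem vr_pos {s : ℝ} (hs : s < 1) (n : ℕ) : 0 < vr s n := by
  apply Finset.prod_pos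
  intro k _
  have hk : (0 : ℝ) ≤ k := Nat.cast_nonneg k
  rw [sub_pos, div_lt_one (by positivity)]
  linarith

theorem norm_vv_ofReal {s : ℝ} (hs : s < 1) (n : ℕ) : ‖vv (s : ℂ) n‖ = vr s n := by
  rw [vv_ofReal, Complex.norm_real, Real.norm_of_nonneg (vr_pos hs n).le]

theorem vr_hasSum {s : ℝ} (hs : s < 1) (hs0 : 0 < s) (m : ℕ) :
    HasSum (fun n : ℕ => vr s n / ((m : ℝ) + n + 1)) (1 / (s * vr (-s) m)) := by
  have h := vv_hasSum (s := (s : ℂ)) (by simpa using hs) (by simpa using hs0) m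
  have h2 := Complex.reCLM.hasSum h
  have e : (fun b : ℕ => Complex.reCLM (vv (s : ℂ) b / ((m : ℂ) + b + 1))) =
      fun n : ℕ => vr s n / ((m : ℝ) + n + 1) := by
    funext n
    have e1 : vv (s : ℂ) n / ((m : ℂ) + n + 1) = ((vr s n / ((m : ℝ) + n + 1) : ℝ) : ℂ) := by
      rw [vv_ofReal]; push_cast; rfl
    rw [e1, Complex.reCLM_apply, Complex.ofReal_re]
  have e2 : Complex.reCLM (1 / ((s : ℂ) * vv (-(s : ℂ)) m)) = 1 / (s * vr (-s) m) := by
    have e1 : (1 : ℂ) / ((s : ℂ) * vv (-(s : ℂ)) m) = ((1 / (s * vr (-s) m) : ℝ) : ℂ) := by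
      rw [← Complex.ofReal_neg, vv_ofReal]; push_cast; rfl
    rw [e1, Complex.reCLM_apply, Complex.ofReal_re]
  rw [e2] at h2
  exact (e ▸ h2)

theorem vr_sum_le {s : ℝ} (hs : s < 1) (hs0 : 0 < s) (m : ℕ) (t : Finset ℕ) :
    ∑ n ∈ t, vr s n / ((m : ℝ) + n + 1) ≤ 1 / (s * vr (-s) m) := by
  apply sum_le_hasSum t _ (vr_hasSum hs hs0 m)
  intro n _
  have := (vr_pos hs n).le
  positivity

theorem power_sum {s : ℝ} (hs : s < 1) (hs0 : 0 < s) : ∃ C : ℝ, 0 < C ∧ ∀ (m : ℕ) (t : Finset ℕ),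
    ∑ n ∈ t, ((n : ℝ) + 1) ^ (-s) / ((m : ℝ) + n + 1) ≤ C * ((m : ℝ) + 1) ^ (-s) := by
  obtain ⟨c, _, hc, _, h⟩ := vv_bounds (s := (s : ℂ)) (by simpa using hs)
  obtain ⟨d, _, hd, _, h'⟩ := vv_bounds (s := ((-s : ℝ) : ℂ)) (by simp; linarith)
  refine ⟨1 / (c * s * d), by positivity, fun m t => ?_⟩
  have h1 : ∀ n : ℕ, c * ((n : ℝ) + 1) ^ (-s) ≤ vr s n := by
    intro n
    have := (h n).1
    rwa [norm_vv_ofReal hs, Complex.ofReal_re] at this
  have h2 : d * ((m : ℝ) + 1) ^ s ≤ vr (-s) m := by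
    have := (h' m).1
    rwa [norm_vv_ofReal (by linarith), Complex.ofReal_re, neg_neg] at this
  have hM : (0 : ℝ) < ((m : ℝ) + 1) ^ s := by positivity
  calc ∑ n ∈ t, ((n : ℝ) + 1) ^ (-s) / ((m : ℝ) + n + 1)
      ≤ ∑ n ∈ t, (1 / c) * (vr s n / ((m : ℝ) + n + 1)) := by
        apply Finset.sum_le_sum
        intro n _
        rw [← mul_div_assoc]
        apply div_le_div_of_nonneg_right _ (by positivity)
        rw [one_div, ← div_eq_inv_mul, le_div_iff₀ hc, mul_comm]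
        exact h1 n
    _ = (1 / c) * ∑ n ∈ t, vr s n / ((m : ℝ) + n + 1) := by rw [Finset.mul_sum]
    _ ≤ (1 / c) * (1 / (s * vr (-s) m)) :=
        mul_le_mul_of_nonneg_left (vr_sum_le hs hs0 m t) (by positivity)
    _ ≤ (1 / c) * (1 / (s * (d * ((m : ℝ) + 1) ^ s))) := by
        apply mul_le_mul_of_nonneg_left _ (by positivity)
        apply one_div_le_one_div_of_le (by positivity)
        exact mul_le_mul_of_nonneg_left h2 hs0.le
    _ = 1 / (c * s * d) * ((m : ℝ) + 1) ^ (-s) := by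
        rw [Real.rpow_neg (by positivity)]
        field_simp

/-- logarithmic difference -/
def ll (m n : ℕ) : ℝ := Real.log ((m : ℝ) + 1) - Real.log ((n : ℝ) + 1)

theorem ll_symm (m n : ℕ) : ll m n = - ll n m := by simp [ll]

theorem exp_ll (c : ℝ) (m n : ℕ) :
    Real.exp (c * ll m n) = ((m : ℝ) + 1) ^ c * ((n : ℝ) + 1) ^ (-c) := by
  rw [Real.rpow_def_of_pos (by positivity), Real.rpow_def_of_pos (by positivity), ← Real.exp_add, ll]
  congr 1
  ring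

/-- symmetric majorant kernel -/
def kS (c : ℝ) (m n : ℕ) : ℂ := ((Real.exp (c / 2 * |ll m n|) / ((m : ℝ) + n + 1) : ℝ) : ℂ)

theorem kS_norm (c : ℝ) (m n : ℕ) : ‖kS c m n‖ = Real.exp (c / 2 * |ll m n|) / ((m : ℝ) + n + 1) := by
  rw [kS, Complex.norm_real, Real.norm_of_nonneg (by positivity)]

theorem kS_symm (c : ℝ) (m n : ℕ) : kS c m n = kS c n m := by
  rw [kS, kS, ll_symm, abs_neg]
  congr 2
  ring

theorem kS_row {c : ℝ} (hc0 : 0 ≤ c) (hc : c < 1) : ∃ C : ℝ, 0 ≤ C ∧ ∀ (m : ℕ) (t : Finset ℕ),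
    ∑ n ∈ t, ‖kS c m n‖ * ((n : ℝ) + 1) ^ (-(1 / 2) : ℝ) ≤ C * ((m : ℝ) + 1) ^ (-(1 / 2) : ℝ) := by
  obtain ⟨C1, hC1, h1⟩ := power_sum (s := 1 / 2 + c / 2) (by linarith) (by linarith)
  obtain ⟨C2, hC2, h2⟩ := power_sum (s := 1 / 2 - c / 2) (by linarith) (by linarith)
  refine ⟨C1 + C2, by positivity, fun m t => ?_⟩
  have key : ∀ n : ℕ, ‖kS c m n‖ * ((n : ℝ) + 1) ^ (-(1 / 2) : ℝ) ≤
      ((m : ℝ) + 1) ^ (c / 2) * (((n : ℝ) + 1) ^ (-(1 / 2 + c / 2)) / ((m : ℝ) + n + 1)) +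
      ((m : ℝ) + 1) ^ (-(c / 2)) * (((n : ℝ) + 1) ^ (-(1 / 2 - c / 2)) / ((m : ℝ) + n + 1)) := by
    intro n
    have e1 : Real.exp (c / 2 * |ll m n|) ≤ Real.exp (c / 2 * ll m n) +
        Real.exp (-(c / 2) * ll m n) := by
      rcases abs_cases (ll m n) with ⟨h, _⟩ | ⟨h, _⟩
      · rw [h]
        linarith [Real.exp_pos (-(c / 2) * ll m n)]
      · rw [h]
        have : c / 2 * -ll m n = -(c / 2) * ll m n := by ring
        rw [this]
        linarith [Real.exp_pos ((c / 2) * ll m n)]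
    rw [exp_ll, exp_ll, neg_neg] at e1
    rw [kS_norm]
    have hN : (0 : ℝ) < (n : ℝ) + 1 := by positivity
    have e2 : ((n : ℝ) + 1) ^ (-(1 / 2 + c / 2)) =
        ((n : ℝ) + 1) ^ (-(c / 2)) * ((n : ℝ) + 1) ^ (-(1 / 2) : ℝ) := by
      rw [← Real.rpow_add hN]; congr 1; ring
    have e3 : ((n : ℝ) + 1) ^ (-(1 / 2 - c / 2)) =
        ((n : ℝ) + 1) ^ ((c / 2)) * ((n : ℝ) + 1) ^ (-(1 / 2) : ℝ) := by
      rw [← Real.rpow_add hN]; congr 1; ring
    rw [e2, e3]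
    calc Real.exp (c / 2 * |ll m n|) / ((m : ℝ) + n + 1) * ((n : ℝ) + 1) ^ (-(1 / 2) : ℝ)
        ≤ (((m : ℝ) + 1) ^ (c / 2) * ((n : ℝ) + 1) ^ (-(c / 2)) +
          ((m : ℝ) + 1) ^ (-(c / 2)) * ((n : ℝ) + 1) ^ (c / 2)) / ((m : ℝ) + n + 1) *
          ((n : ℝ) + 1) ^ (-(1 / 2) : ℝ) := by
          apply mul_le_mul_of_nonneg_right _ (by positivity)
          exact div_le_div_of_nonneg_right e1 (by positivity)
      _ = _ := by ring
  have hM : (0 : ℝ) < (m : ℝ) + 1 := by positivity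
  calc ∑ n ∈ t, ‖kS c m n‖ * ((n : ℝ) + 1) ^ (-(1 / 2) : ℝ)
      ≤ ∑ n ∈ t, (((m : ℝ) + 1) ^ (c / 2) * (((n : ℝ) + 1) ^ (-(1 / 2 + c / 2)) / ((m : ℝ) + n + 1)) +
      ((m : ℝ) + 1) ^ (-(c / 2)) * (((n : ℝ) + 1) ^ (-(1 / 2 - c / 2)) / ((m : ℝ) + n + 1))) :=
        Finset.sum_le_sum fun n _ => key n
    _ = ((m : ℝ) + 1) ^ (c / 2) * ∑ n ∈ t, (((n : ℝ) + 1) ^ (-(1 / 2 + c / 2)) / ((m : ℝ) + n + 1)) +
      ((m : ℝ) + 1) ^ (-(c / 2)) * ∑ n ∈ t, (((n : ℝ) + 1) ^ (-(1 / 2 - c / 2)) / ((m : ℝ) + n + 1)) := by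
        rw [Finset.sum_add_distrib, Finset.mul_sum, Finset.mul_sum]
    _ ≤ ((m : ℝ) + 1) ^ (c / 2) * (C1 * ((m : ℝ) + 1) ^ (-(1 / 2 + c / 2))) +
      ((m : ℝ) + 1) ^ (-(c / 2)) * (C2 * ((m : ℝ) + 1) ^ (-(1 / 2 - c / 2))) := by
        apply add_le_add
        · exact mul_le_mul_of_nonneg_left (h1 m t) (by positivity)
        · exact mul_le_mul_of_nonneg_left (h2 m t) (by positivity)
    _ = (C1 + C2) * ((m : ℝ) + 1) ^ (-(1 / 2) : ℝ) := by
        have e4 : ((m : ℝ) + 1) ^ (c / 2) * ((m : ℝ) + 1) ^ (-(1 / 2 + c / 2)) =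
            ((m : ℝ) + 1) ^ (-(1 / 2) : ℝ) := by
          rw [← Real.rpow_add hM]; congr 1; ring
        have e5 : ((m : ℝ) + 1) ^ (-(c / 2)) * ((m : ℝ) + 1) ^ (-(1 / 2 - c / 2)) =
            ((m : ℝ) + 1) ^ (-(1 / 2) : ℝ) := by
          rw [← Real.rpow_add hM]; congr 1; ring
        calc _ = C1 * (((m : ℝ) + 1) ^ (c / 2) * ((m : ℝ) + 1) ^ (-(1 / 2 + c / 2))) +
            C2 * (((m : ℝ) + 1) ^ (-(c / 2)) * ((m : ℝ) + 1) ^ (-(1 / 2 - c / 2))) := by ring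
          _ = _ := by rw [e4, e5]; ring

theorem kS_bound {c : ℝ} (hc0 : 0 ≤ c) (hc : c < 1) : ∃ C : ℝ, MatBound (kS c) C := by
  obtain ⟨C, hC, h⟩ := kS_row hc0 hc
  refine ⟨C, schur hC (fun n => ((n : ℝ) + 1) ^ (-(1 / 2) : ℝ))
    (fun n => ((n : ℝ) + 1) ^ (-(1 / 2) : ℝ)) (fun n => by positivity) h ?_⟩
  intro n t
  have := h n t
  simp_rw [kS_symm c n] at this
  exact this

/-- weighted Hilbert kernel -/
def kA (a : ℝ) (m n : ℕ) : ℂ := ((Real.exp (a / 2 * ll m n) / ((m : ℝ) + n + 1) : ℝ) : ℂ)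

theorem kA_norm (a : ℝ) (m n : ℕ) : ‖kA a m n‖ = Real.exp (a / 2 * ll m n) / ((m : ℝ) + n + 1) := by
  rw [kA, Complex.norm_real, Real.norm_of_nonneg (by positivity)]

theorem kA_le {a c : ℝ} (h : |a| ≤ c) (m n : ℕ) : ‖kA a m n‖ ≤ 1 * ‖kS c m n‖ := by
  rw [kA_norm, kS_norm, one_mul]
  apply div_le_div_of_nonneg_right _ (by positivity)
  apply Real.exp_le_exp.2
  calc a / 2 * ll m n ≤ |a / 2 * ll m n| := le_abs_self _
    _ = |a| / 2 * |ll m n| := by rw [abs_mul, abs_div, abs_two]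
    _ ≤ c / 2 * |ll m n| := by
      apply mul_le_mul_of_nonneg_right _ (abs_nonneg _)
      linarith

theorem kA_bound {a : ℝ} (ha : |a| < 1) : ∃ C : ℝ, MatBound (kA a) C := by
  obtain ⟨C, h⟩ := kS_bound (abs_nonneg a) ha
  exact ⟨1 * C, h.mono 1 zero_le_one fun m n => kA_le le_rfl m n⟩

theorem exp_sub_le (x y B : ℝ) (hx : x ≤ B) (hy : y ≤ B) :
    |Real.exp x - Real.exp y| ≤ |x - y| * Real.exp B := by
  wlog h : y ≤ x generalizing x y with H
  · have := H y x hy hx (le_of_not_ge h)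
    rwa [abs_sub_comm, abs_sub_comm x y]
  · rw [abs_of_nonneg (by linarith [Real.exp_le_exp.2 h]), abs_of_nonneg (by linarith)]
    have h1 := Real.add_one_le_exp (y - x)
    have h2 : Real.exp x - Real.exp y = Real.exp x * (1 - Real.exp (y - x)) := by
      rw [mul_sub, mul_one, ← Real.exp_add]
      congr 2
      ring
    rw [h2]
    have h3 := Real.exp_le_exp.2 hx
    have h4 := Real.exp_pos x
    have h5 : 1 - Real.exp (y - x) ≤ x - y := by linarith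
    calc Real.exp x * (1 - Real.exp (y - x)) ≤ Real.exp x * (x - y) :=
          mul_le_mul_of_nonneg_left h5 h4.le
      _ ≤ Real.exp B * (x - y) := mul_le_mul_of_nonneg_right h3 (by linarith)
      _ = _ := mul_comm _ _

theorem kA_sub_le {a b c d : ℝ} (ha : |a| ≤ c) (hb : |b| ≤ c) (hcd : c < d) (m n : ℕ) :
    ‖kA a m n - kA b m n‖ ≤ (|a - b| / (d - c)) * ‖kS d m n‖ := by
  rw [kS_norm, kA, kA, ← Complex.ofReal_sub, Complex.norm_real, ← sub_div, Real.norm_eq_abs,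
    abs_div, abs_of_pos (show (0 : ℝ) < (m : ℝ) + n + 1 by positivity), ← mul_div_assoc]
  apply div_le_div_of_nonneg_right _ (by positivity)
  have hB : ∀ e : ℝ, |e| ≤ c → e / 2 * ll m n ≤ c / 2 * |ll m n| := by
    intro e he
    calc e / 2 * ll m n ≤ |e / 2 * ll m n| := le_abs_self _
      _ = |e| / 2 * |ll m n| := by rw [abs_mul, abs_div, abs_two]
      _ ≤ c / 2 * |ll m n| := by
        apply mul_le_mul_of_nonneg_right _ (abs_nonneg _)
        linarith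
  refine (exp_sub_le _ _ (c / 2 * |ll m n|) (hB a ha) (hB b hb)).trans ?_
  have h1 : |a / 2 * ll m n - b / 2 * ll m n| = |a - b| * (|ll m n| / 2) := by
    rw [← sub_mul, ← sub_div, abs_mul, abs_div, abs_two]
    ring
  rw [h1]
  have h2 : (d - c) * (|ll m n| / 2) ≤ Real.exp ((d - c) / 2 * |ll m n|) := by
    have := Real.add_one_le_exp ((d - c) / 2 * |ll m n|)
    linarith
  have hdc : 0 < d - c := by linarith
  have h3 : |ll m n| / 2 ≤ Real.exp ((d - c) / 2 * |ll m n|) / (d - c) := by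
    rw [le_div_iff₀ hdc]
    linarith
  calc |a - b| * (|ll m n| / 2) * Real.exp (c / 2 * |ll m n|)
      ≤ |a - b| * (Real.exp ((d - c) / 2 * |ll m n|) / (d - c)) * Real.exp (c / 2 * |ll m n|) := by
        apply mul_le_mul_of_nonneg_right _ (Real.exp_pos _).le
        exact mul_le_mul_of_nonneg_left h3 (abs_nonneg _)
    _ = |a - b| / (d - c) * (Real.exp ((d - c) / 2 * |ll m n|) * Real.exp (c / 2 * |ll m n|)) := by
        ring
    _ = |a - b| / (d - c) * Real.exp (d / 2 * |ll m n|) := by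
        rw [← Real.exp_add]
        congr 2
        ring

/-- the weighted Hilbert operator on `E`, conjugated to the unweighted space -/
def opA (a : ℝ) : E →L[ℂ] E :=
  open Classical in
  if h : |a| < 1 then matOp (kA a) _ (Classical.choose_spec (kA_bound h)) else 0

theorem opA_eq {a : ℝ} (h : |a| < 1) :
    opA a = matOp (kA a) _ (Classical.choose_spec (kA_bound h)) := by
  rw [opA, dif_pos h]

theorem opA_hasSum {a : ℝ} (h : |a| < 1) (x : E) (m : ℕ) :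
    HasSum (fun n => kA a m n * x n) (opA a x m) := by
  rw [opA_eq h]
  exact matOp_hasSum _ x m

theorem opA_lipschitz {c : ℝ} (hc0 : 0 ≤ c) (hc : c < 1) : ∃ K : ℝ, 0 ≤ K ∧ ∀ a b : ℝ, |a| ≤ c → |b| ≤ c →
    ‖opA a - opA b‖ ≤ K * |a - b| := by
  obtain ⟨C, hC⟩ := kS_bound (c := (c + 1) / 2) (by linarith) (by linarith)
  refine ⟨C / ((c + 1) / 2 - c), div_nonneg hC.1 (by linarith), fun a b ha hb => ?_⟩
  have hb2 : MatBound (fun m n => kA a m n - kA b m n) (|a - b| / ((c + 1) / 2 - c) * C) :=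
    hC.mono _ (div_nonneg (abs_nonneg _) (by linarith))
      (fun m n => kA_sub_le ha hb (by linarith) m n)
  rw [opA_eq (lt_of_le_of_lt ha hc), opA_eq (lt_of_le_of_lt hb hc), matOp_sub _ _ hb2]
  refine (matOp_norm_le hb2).trans (le_of_eq ?_)
  ring

theorem opA_continuousAt {a : ℝ} (ha : |a| < 1) : ContinuousAt opA a := by
  obtain ⟨K, hK, h⟩ := opA_lipschitz (c := (|a| + 1) / 2) (by positivity) (by linarith)
  rw [ContinuousAt, tendsto_iff_norm_sub_tendsto_zero]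
  have h1 : Tendsto (fun b : ℝ => K * |b - a|) (𝓝 a) (𝓝 0) := by
    have : Tendsto (fun b : ℝ => K * |b - a|) (𝓝 a) (𝓝 (K * |a - a|)) := by
      apply ContinuousAt.tendsto
      fun_prop
    simpa using this
  apply squeeze_zero' (Eventually.of_forall fun _ => norm_nonneg _) _ h1
  have h2 : ∀ᶠ b in 𝓝 a, |b| < (|a| + 1) / 2 := by
    have : ContinuousAt (fun b : ℝ => |b|) a := continuous_abs.continuousAt
    exact this.eventually_lt_const (by linarith)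
  filter_upwards [h2] with b hb
  exact h b a hb.le (by linarith [abs_nonneg a])

theorem kA_conj (a : ℝ) (m n : ℕ) : kA (-a) m n = (starRingEnd ℂ) (kA a n m) := by
  rw [kA, kA, Complex.conj_ofReal, ll_symm n m]
  congr 2
  · congr 1
    ring
  · ring

theorem opA_adjoint {a : ℝ} (ha : |a| < 1) : ContinuousLinearMap.adjoint (opA a) = opA (-a) := by
  rw [opA_eq ha, opA_eq (a := -a) (by rwa [abs_neg])]
  exact matOp_adjoint _ _ (fun m n => kA_conj a m n)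

/-- diagonal operator with entries `(n+1)^(-b)`, `b ≥ 0` -/
def dg (b : ℝ) (hb : 0 ≤ b) : E →L[ℂ] E :=
  have key : ∀ (x : E) (t : Finset ℕ),
      ∑ n ∈ t, ‖((((n : ℝ) + 1) ^ (-b) : ℝ) : ℂ) * x n‖ ^ 2 ≤ (1 * ‖x‖) ^ 2 := by
    intro x t
    rw [one_mul]
    refine le_trans (Finset.sum_le_sum fun n _ => ?_) (sum_sq_le x t)
    apply pow_le_pow_left₀ (norm_nonneg _)
    rw [norm_mul, Complex.norm_real, Real.norm_of_nonneg (by positivity)]
    have h1 : ((n : ℝ) + 1) ^ (-b) ≤ 1 := by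
      apply Real.rpow_le_one_of_one_le_of_nonpos
      · have : (0 : ℝ) ≤ n := Nat.cast_nonneg n
        linarith
      · linarith
    nlinarith [norm_nonneg (x n)]
  LinearMap.mkContinuous
    { toFun := fun x => (⟨fun n => ((((n : ℝ) + 1) ^ (-b) : ℝ) : ℂ) * x n,
        memlp_of_sum (key x)⟩ : E)
      map_add' := by
        intro x y
        ext m
        simp only [lp.coeFn_add, Pi.add_apply, mul_add]
      map_smul' := by
        intro c x
        ext m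
        simp only [lp.coeFn_smul, Pi.smul_apply, smul_eq_mul, RingHom.id_apply]
        ring } 1 (by
    intro x
    apply norm_le_of_sum (by positivity)
    intro t
    exact key x t)

theorem dg_apply (b : ℝ) (hb : 0 ≤ b) (x : E) (n : ℕ) :
    dg b hb x n = ((((n : ℝ) + 1) ^ (-b) : ℝ) : ℂ) * x n := rfl

theorem dg_injective (b : ℝ) (hb : 0 ≤ b) : Function.Injective (dg b hb) := by
  intro x y h
  ext n
  have h1 : dg b hb x n = dg b hb y n := by rw [h]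
  rw [dg_apply, dg_apply] at h1
  have h2 : ((((n : ℝ) + 1) ^ (-b) : ℝ) : ℂ) ≠ 0 := by
    rw [Complex.ofReal_ne_zero]
    positivity
  exact mul_left_cancel₀ h2 h1

theorem kA_shift (a b : ℝ) (m n : ℕ) : kA (a - 2 * b) m n * ((((n : ℝ) + 1) ^ (-b) : ℝ) : ℂ) =
    ((((m : ℝ) + 1) ^ (-b) : ℝ) : ℂ) * kA a m n := by
  rw [kA, kA, ← Complex.ofReal_mul, ← Complex.ofReal_mul]
  congr 1
  rw [exp_ll, exp_ll]
  have hM : (0 : ℝ) < (m : ℝ) + 1 := by positivity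
  have hN : (0 : ℝ) < (n : ℝ) + 1 := by positivity
  have e1 : ((m : ℝ) + 1) ^ ((a - 2 * b) / 2) = ((m : ℝ) + 1) ^ (a / 2) * ((m : ℝ) + 1) ^ (-b) := by
    rw [← Real.rpow_add hM]; congr 1; ring
  have e2 : ((n : ℝ) + 1) ^ (-((a - 2 * b) / 2)) * ((n : ℝ) + 1) ^ (-b) =
      ((n : ℝ) + 1) ^ (-(a / 2)) := by
    rw [← Real.rpow_add hN]; congr 1; ring
  rw [e1, ← e2]
  ring

theorem opA_dg {a b : ℝ} (hb : 0 ≤ b) (ha : |a| < 1) (hab : |a - 2 * b| < 1) (x : E) :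
    opA (a - 2 * b) (dg b hb x) = dg b hb (opA a x) := by
  ext m
  rw [dg_apply]
  have h1 := opA_hasSum hab (dg b hb x) m
  have h2 := (opA_hasSum ha x m).mul_left ((((m : ℝ) + 1) ^ (-b) : ℝ) : ℂ)
  have e : (fun n => kA (a - 2 * b) m n * (dg b hb x) n) =
      fun n => ((((m : ℝ) + 1) ^ (-b) : ℝ) : ℂ) * (kA a m n * x n) := by
    funext n
    rw [dg_apply, ← mul_assoc, kA_shift, mul_assoc]
  rw [e] at h1
  exact h1.unique h2

end

end Pool.Agent.Helper152.Hilb
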