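import Mathlib
import Pool.Agent.Helper152.HilbC

open Filter Topology

namespace Pool.Agent.Helper152.Hilb

noncomputable section

theorem kA_zero (m n : ℕ) : kA 0 m n = (((1 : ℝ) / ((m : ℝ) + n + 1) : ℝ) : ℂ) := by
  simp [kA]

theorem vr_zero (s : ℝ) : vr s 0 = 1 := by simp [vr]

theorem vr_succ (s : ℝ) (n : ℕ) : vr s (n + 1) = vr s n * (1 - s / ((n : ℝ) + 1)) := by
  simp [vr, Finset.prod_range_succ]

theorem vr_half_bound (n : ℕ) : 2 / Real.pi ≤ vr (1 / 2) n * vr (-(1 / 2)) n := by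
  have hanti : Antitone fun n : ℕ => vr (1 / 2) n * vr (-(1 / 2)) n := by
    apply antitone_nat_of_succ_le
    intro n
    rw [vr_succ, vr_succ]
    have h1 := vr_pos (s := 1 / 2) (by norm_num) n
    have h2 := vr_pos (s := -(1 / 2)) (by norm_num) n
    have h3 : (1 - 1 / 2 / ((n : ℝ) + 1)) * (1 - -(1 / 2) / ((n : ℝ) + 1)) ≤ 1 := by
      have : (0 : ℝ) < 1 / 2 / ((n : ℝ) + 1) := by positivity
      have e : -(1 / 2) / ((n : ℝ) + 1) = - (1 / 2 / ((n : ℝ) + 1)) := by ring
      rw [e]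
      nlinarith [sq_nonneg (1 / 2 / ((n : ℝ) + 1))]
    calc vr (1 / 2) n * (1 - 1 / 2 / ((n : ℝ) + 1)) * (vr (-(1 / 2)) n * (1 - -(1 / 2) / ((n : ℝ) + 1)))
        = (vr (1 / 2) n * vr (-(1 / 2)) n) * ((1 - 1 / 2 / ((n : ℝ) + 1)) * (1 - -(1 / 2) / ((n : ℝ) + 1))) := by ring
      _ ≤ (vr (1 / 2) n * vr (-(1 / 2)) n) * 1 :=
        mul_le_mul_of_nonneg_left h3 (mul_pos h1 h2).le
      _ = _ := mul_one _
  have hlim : Tendsto (fun n : ℕ => vr (1 / 2) n * vr (-(1 / 2)) n) atTop (𝓝 (2 / Real.pi)) := by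
    have h1 := prod_tendsto (s := ((1 / 2 : ℝ) : ℂ)) (by simp)
    have h2 := (Complex.continuous_re.tendsto _).comp h1
    have e1 : (Complex.sin (Real.pi * ((1 / 2 : ℝ) : ℂ)) / (Real.pi * ((1 / 2 : ℝ) : ℂ))).re = 2 / Real.pi := by
      have : (Complex.sin (Real.pi * ((1 / 2 : ℝ) : ℂ)) / (Real.pi * ((1 / 2 : ℝ) : ℂ))) =
          ((2 / Real.pi : ℝ) : ℂ) := by
        rw [← Complex.ofReal_mul, ← Complex.ofReal_sin, ← Complex.ofReal_div]
        congr 1
        have : Real.pi * (1 / 2) = Real.pi / 2 := by ring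
        rw [this, Real.sin_pi_div_two]
        have := Real.pi_ne_zero
        field_simp
      rw [this, Complex.ofReal_re]
    rw [e1] at h2
    apply h2.congr
    intro n
    simp only [Function.comp]
    rw [← Complex.ofReal_neg, vv_ofReal, vv_ofReal, ← Complex.ofReal_mul, Complex.ofReal_re]
  exact hanti.le_of_tendsto hlim n

theorem kA_zero_bound : MatBound (kA 0) Real.pi := by
  have hrow : ∀ (m : ℕ) (t : Finset ℕ), ∑ n ∈ t, ‖kA 0 m n‖ * vr (1 / 2) n ≤ Real.pi * vr (1 / 2) m := by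
    intro m t
    have h1 := vr_sum_le (s := 1 / 2) (by norm_num) (by norm_num) m t
    have e : ∑ n ∈ t, ‖kA 0 m n‖ * vr (1 / 2) n = ∑ n ∈ t, vr (1 / 2) n / ((m : ℝ) + n + 1) := by
      apply Finset.sum_congr rfl
      intro n _
      rw [kA_zero, Complex.norm_real, Real.norm_of_nonneg (by positivity)]
      ring
    rw [e]
    refine h1.trans ?_
    have h2 := vr_half_bound m
    have h3 := vr_pos (s := 1 / 2) (by norm_num) m
    have h4 := vr_pos (s := -(1 / 2)) (by norm_num) m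
    have hpi := Real.pi_pos
    rw [div_le_iff₀ (by positivity)]
    rw [div_le_iff₀ hpi] at h2
    nlinarith
  apply schur Real.pi_pos.le (fun n => vr (1 / 2) n) (fun n => vr (1 / 2) n)
    (fun n => vr_pos (by norm_num) n) hrow
  intro n t
  have h := hrow n t
  have e : ∀ m, kA 0 n m = kA 0 m n := by
    intro m
    rw [kA_zero, kA_zero]
    congr 3
    ring
  simp_rw [e] at h
  exact h

theorem opA_zero_norm : ‖opA 0‖ ≤ Real.pi := by
  have h0 : |(0 : ℝ)| < 1 := by simp
  have e : opA 0 = matOp (kA 0) _ kA_zero_bound := by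
    rw [opA_eq h0]
    ext x m
    rfl
  rw [e]
  exact matOp_norm_le _

theorem opA_zero_selfAdjoint : IsSelfAdjoint (opA 0) := by
  rw [ContinuousLinearMap.isSelfAdjoint_iff']
  rw [opA_adjoint (by simp)]
  simp

/-- truncation -/
def tr (x : E) (N : ℕ) : E := ∑ n ∈ Finset.range N, lp.single (E := fun _ : ℕ => ℂ) 2 n (x n)

theorem tr_tendsto (x : E) : Tendsto (tr x) atTop (𝓝 x) :=
  (lp.hasSum_single (E := fun _ : ℕ => ℂ) (p := 2) (by simp) x).tendsto_sum_nat

theorem tr_apply (x : E) (N n : ℕ) : tr x N n = if n < N then x n else 0 := by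
  rw [tr, lp.coeFn_sum, Finset.sum_apply]
  split_ifs with h
  · rw [Finset.sum_eq_single n]
    · exact lp.single_apply_self (E := fun _ : ℕ => ℂ) 2 n (x n)
    · intro b _ hb
      exact lp.single_apply_ne (E := fun _ : ℕ => ℂ) 2 b (x b) hb.symm
    · intro h'
      exact absurd (Finset.mem_range.2 h) h'
  · apply Finset.sum_eq_zero
    intro b hb
    apply lp.single_apply_ne (E := fun _ : ℕ => ℂ) 2 b (x b)
    intro h'
    rw [h'] at h
    exact h (Finset.mem_range.1 hb)

theorem inner_tr (x : E) (N : ℕ) : inner ℂ (opA 0 (tr x N)) (tr x N) =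
    ∑ m ∈ Finset.range N, ∑ n ∈ Finset.range N,
      (starRingEnd ℂ) (x n) * x m * (((1 : ℝ) / ((m : ℝ) + n + 1) : ℝ) : ℂ) := by
  conv_lhs => rw [show inner ℂ (opA 0 (tr x N)) (tr x N) =
    inner ℂ (opA 0 (tr x N)) (∑ n ∈ Finset.range N, lp.single (E := fun _ : ℕ => ℂ) 2 n (x n)) from rfl]
  rw [inner_sum]
  apply Finset.sum_congr rfl
  intro m hm
  rw [lp.inner_single_right]
  have h1 : opA 0 (tr x N) m = ∑ n ∈ Finset.range N, kA 0 m n * x n := by
    refine (opA_hasSum (by simp) (tr x N) m).unique ?_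
    have e : ∑ n ∈ Finset.range N, kA 0 m n * x n = ∑ n ∈ Finset.range N, kA 0 m n * tr x N n := by
      apply Finset.sum_congr rfl
      intro n hn
      rw [tr_apply, if_pos (Finset.mem_range.1 hn)]
    rw [e]
    apply hasSum_sum_of_ne_finset_zero
    intro n hn
    rw [tr_apply, if_neg (by simpa using hn), mul_zero]
  rw [h1]
  simp only [RCLike.inner_apply, map_sum, map_mul, Finset.mul_sum]
  apply Finset.sum_congr rfl
  intro n _
  rw [kA_zero, Complex.conj_ofReal]
  ring

theorem inner_tr_nonneg (x : E) (N : ℕ) : 0 ≤ (inner ℂ (opA 0 (tr x N)) (tr x N)).re := by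
  have key : inner ℂ (opA 0 (tr x N)) (tr x N) =
      ((∫ t in (0 : ℝ)..1, ‖∑ n ∈ Finset.range N, x n * ((t ^ n : ℝ) : ℂ)‖ ^ 2 : ℝ) : ℂ) := by
    rw [← intervalIntegral.integral_ofReal]
    have e1 : ∀ t : ℝ, ((‖∑ n ∈ Finset.range N, x n * ((t ^ n : ℝ) : ℂ)‖ ^ 2 : ℝ) : ℂ) =
        ∑ m ∈ Finset.range N, ∑ n ∈ Finset.range N,
          (starRingEnd ℂ) (x n) * x m * ((t ^ (m + n) : ℝ) : ℂ) := by
      intro t
      rw [Complex.ofReal_pow, ← Complex.mul_conj', map_sum, Finset.sum_mul_sum]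
      apply Finset.sum_congr rfl
      intro m _
      apply Finset.sum_congr rfl
      intro n _
      rw [map_mul, Complex.conj_ofReal, pow_add]
      push_cast
      ring
    simp_rw [e1]
    rw [intervalIntegral.integral_finsetSum, inner_tr]
    · apply Finset.sum_congr rfl
      intro m _
      rw [intervalIntegral.integral_finsetSum]
      · apply Finset.sum_congr rfl
        intro n _
        rw [intervalIntegral.integral_const_mul, intervalIntegral.integral_ofReal, integral_pow]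
        congr 2
        simp
      · intro n _
        apply Continuous.intervalIntegrable
        fun_prop
    · intro m _
      apply Continuous.intervalIntegrable
      fun_prop
  rw [key, Complex.ofReal_re]
  apply intervalIntegral.integral_nonneg (by norm_num)
  intro t _
  positivity

theorem opA_zero_pos : (opA 0).IsPositive := by
  rw [ContinuousLinearMap.isPositive_def']
  refine ⟨opA_zero_selfAdjoint, fun x => ?_⟩
  have h1 : Tendsto (fun N => (inner ℂ (opA 0 (tr x N)) (tr x N)).re) atTop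
      (𝓝 (inner ℂ (opA 0 x) x).re) := by
    apply (Complex.continuous_re.tendsto _).comp
    have h2 := tr_tendsto x
    exact (((opA 0).continuous.tendsto x).comp h2).inner h2
  exact ge_of_tendsto' h1 (inner_tr_nonneg x)

open ComplexOrder in
theorem spec_zero {l : ℂ} (hl : l ∈ spectrum ℂ (opA 0)) : ∃ t : ℝ, 0 ≤ t ∧ t ≤ Real.pi ∧ l = t := by
  have h0 : 0 ≤ opA 0 := (ContinuousLinearMap.nonneg_iff_isPositive _).2 opA_zero_pos
  have h1 : 0 ≤ l := spectrum_nonneg_of_nonneg h0 hl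
  have h2' := spectrum.norm_le_norm_mul_of_mem hl
  have h2'' : ‖(1 : E →L[ℂ] E)‖ ≤ 1 := ContinuousLinearMap.norm_id_le
  have h2 : ‖l‖ ≤ ‖opA 0‖ := h2'.trans (mul_le_of_le_one_right (norm_nonneg _) h2'')
  rw [Complex.le_def] at h1
  have h3 : l = (l.re : ℂ) := by
    apply Complex.ext
    · simp
    · simp only [Complex.ofReal_im]
      exact h1.2.symm
  refine ⟨l.re, h1.1, ?_, h3⟩
  exact (le_abs_self _).trans ((Complex.abs_re_le_norm l).trans (h2.trans opA_zero_norm))

end

end Pool.Agent.Helper152.Hilb
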