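import Mathlib
import Pool.Agent.Helper152.HilbD

open Filter Topology

namespace Pool.Agent.Helper152.Hilb

noncomputable section

theorem opA_star {a : ℝ} (ha : |a| < 1) (x : E) : opA a (star x) = star (opA a x) := by
  ext m
  have h1 := opA_hasSum ha (star x) m
  have h2 := (opA_hasSum ha x m).star
  have e : (fun n => kA a m n * (star x : E) n) = fun n => star (kA a m n * x n) := by
    funext n
    rw [star_mul', lp.star_apply, kA, RCLike.star_def, Complex.conj_ofReal]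
  rw [e] at h1
  rw [lp.star_apply]
  exact h1.unique h2

theorem inj_of_surj {a : ℝ} (ha : |a| < 1) {l : ℂ}
    (hs : ∀ b : E, ∃ y : E, opA a y - l • y = b) (x : E) (hx : opA (-a) x - l • x = 0) : x = 0 := by
  obtain ⟨y, hy⟩ := hs (star x)
  have h1 : inner ℂ (star x) (opA a y - l • y) = inner ℂ (opA (-a) (star x) - (starRingEnd ℂ l) • star x) y := by
    rw [inner_sub_right, inner_sub_left, ← opA_adjoint ha, ContinuousLinearMap.adjoint_inner_left,
      inner_smul_right, inner_smul_left, Complex.conj_conj]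
  have h2 : opA (-a) (star x) - (starRingEnd ℂ l) • star x = 0 := by
    rw [opA_star (by rwa [abs_neg])]
    have : star (opA (-a) x - l • x) = 0 := by rw [hx, star_zero]
    rw [star_sub, star_smul] at this
    exact this
  rw [hy, h2, inner_zero_left] at h1
  have h3 : star x = 0 := inner_self_eq_zero.1 h1
  exact star_eq_zero.1 h3

theorem mem_of_bound {f : ℕ → ℂ} {C p : ℝ} (hp : 1 < 2 * p)
    (h : ∀ n : ℕ, ‖f n‖ ≤ C * ((n : ℝ) + 1) ^ (-p)) : Memℓp (E := fun _ : ℕ => ℂ) f 2 := by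
  have hC : 0 ≤ C := by
    have := h 0
    simp at this
    exact (norm_nonneg _).trans this
  have hsum : Summable fun n : ℕ => C ^ 2 * ((n : ℝ) + 1) ^ (-(2 * p)) :=
    ((summable_shift _).2 (by linarith)).mul_left _
  apply memlp_of_sum (C := ∑' n : ℕ, C ^ 2 * ((n : ℝ) + 1) ^ (-(2 * p)))
  intro t
  refine le_trans (Finset.sum_le_sum fun n _ => ?_)
    (hsum.sum_le_tsum t (fun n _ => by positivity))
  calc ‖f n‖ ^ 2 ≤ (C * ((n : ℝ) + 1) ^ (-p)) ^ 2 := pow_le_pow_left₀ (norm_nonneg _) (h n) 2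
    _ = C ^ 2 * ((n : ℝ) + 1) ^ (-(2 * p)) := by
      rw [mul_pow, ← Real.rpow_natCast (((n : ℝ) + 1) ^ (-p)), ← Real.rpow_mul (by positivity)]
      congr 2
      push_cast
      ring

theorem isUnit_surj {T : E →L[ℂ] E} {l : ℂ} (h : l ∉ spectrum ℂ T) (b : E) :
    ∃ y : E, T y - l • y = b := by
  rw [spectrum.notMem_iff] at h
  obtain ⟨u, hu⟩ := h
  refine ⟨-(((u⁻¹ : (E →L[ℂ] E)ˣ) : E →L[ℂ] E) b), ?_⟩
  have h1 : (u : E →L[ℂ] E) (((u⁻¹ : (E →L[ℂ] E)ˣ) : E →L[ℂ] E) b) = b := by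
    have : ((u : E →L[ℂ] E) * ((u⁻¹ : (E →L[ℂ] E)ˣ) : E →L[ℂ] E)) b = b := by
      rw [Units.mul_inv]; rfl
    exact this
  rw [hu] at h1
  rw [sub_apply, Algebra.algebraMap_eq_smul_one, smul_apply, one_apply_eq_self] at h1
  rw [map_neg, smul_neg]
  calc _ = l • (((u⁻¹ : (E →L[ℂ] E)ˣ) : E →L[ℂ] E) b) - T (((u⁻¹ : (E →L[ℂ] E)ˣ) : E →L[ℂ] E) b) := by
        abel
    _ = b := h1

theorem rpow_sq (x p : ℝ) (hx : 0 ≤ x) : (x ^ p) ^ 2 = x ^ (2 * p) := by
  rw [← Real.rpow_natCast, ← Real.rpow_mul hx]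
  congr 1
  push_cast
  ring

/-- the weighted approximate eigenvector -/
def xv (α : ℝ) (s : ℂ) (n : ℕ) : ℂ := ((((n : ℝ) + 1) ^ (-(α / 2)) : ℝ) : ℂ) * vv s n

theorem xv_mem {α : ℝ} {s : ℂ} (hs : s.re < 1) (h : 1 < 2 * s.re + α) :
    Memℓp (E := fun _ : ℕ => ℂ) (xv α s) 2 := by
  obtain ⟨_, C, _, hC, hb⟩ := vv_bounds hs
  apply mem_of_bound (C := C) (p := s.re + α / 2) (by linarith)
  intro n
  rw [xv, norm_mul, Complex.norm_real, Real.norm_of_nonneg (by positivity)]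
  calc ((n : ℝ) + 1) ^ (-(α / 2)) * ‖vv s n‖ ≤ ((n : ℝ) + 1) ^ (-(α / 2)) * (C * ((n : ℝ) + 1) ^ (-s.re)) :=
        mul_le_mul_of_nonneg_left (hb n).2 (by positivity)
    _ = C * (((n : ℝ) + 1) ^ (-(α / 2)) * ((n : ℝ) + 1) ^ (-s.re)) := by ring
    _ = C * ((n : ℝ) + 1) ^ (-(s.re + α / 2)) := by
      rw [← Real.rpow_add (by positivity)]
      congr 2
      ring

theorem opA_neg_xv {α : ℝ} (hα : |α| < 1) {s : ℂ} (hs : s.re < 1) (hs0 : 0 < s.re)
    (hm : Memℓp (E := fun _ : ℕ => ℂ) (xv α s) 2) (m : ℕ) :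
    opA (-α) (⟨xv α s, hm⟩ : E) m = ((((m : ℝ) + 1) ^ (-(α / 2)) : ℝ) : ℂ) * (1 / (s * vv (-s) m)) := by
  have h1 := opA_hasSum (a := -α) (by rwa [abs_neg]) (⟨xv α s, hm⟩ : E) m
  have h2 := (vv_hasSum hs hs0 m).mul_left ((((m : ℝ) + 1) ^ (-(α / 2)) : ℝ) : ℂ)
  have e : (fun n => kA (-α) m n * (⟨xv α s, hm⟩ : E) n) =
      fun n : ℕ => ((((m : ℝ) + 1) ^ (-(α / 2)) : ℝ) : ℂ) * (vv s n / ((m : ℂ) + n + 1)) := by
    funext n
    change kA (-α) m n * xv α s n = _
    rw [xv, ← mul_assoc]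
    have h3 := kA_shift 0 (α / 2) m n
    have h4 : (0 - 2 * (α / 2)) = -α := by ring
    rw [h4, kA_zero] at h3
    rw [h3]
    push_cast
    ring
  rw [e] at h1
  exact h1.unique h2

theorem region_pos {α : ℝ} (h0 : 0 < α) (h1 : α < 1) (z : ℂ) (hz : -(α / 2) < z.re)
    (hz2 : z.re ≤ α / 2) : (Real.pi : ℂ) / Complex.cos (Real.pi * z) ∈ spectrum ℂ (opA α) := by
  by_contra hcon
  have hα : |α| < 1 := by rwa [abs_of_pos h0]
  set l : ℂ := (Real.pi : ℂ) / Complex.cos (Real.pi * z) with hl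
  set s : ℂ := 1 / 2 + z with hs
  have hsre : s.re = 1 / 2 + z.re := by simp [hs]
  have hs1 : s.re < 1 := by linarith
  have hs0 : 0 < s.re := by linarith
  have hsin : Complex.sin (Real.pi * s) = Complex.cos (Real.pi * z) := by
    have : (Real.pi : ℂ) * s = Real.pi * z + Real.pi / 2 := by rw [hs]; ring
    rw [this, Complex.sin_add_pi_div_two]
  have hsurj := isUnit_surj hcon
  have hxm := xv_mem (α := α) hs1 (by linarith)
  obtain ⟨C, hC, hdef⟩ := defect_bound hs1 hs0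
  rw [hsin, ← hl] at hdef
  obtain ⟨c, C', hc, hC', hvb⟩ := vv_bounds hs1
  -- the right-hand side
  set e : ℕ → ℂ := fun m => 1 / (s * vv (-s) m) - l * vv s m with he
  have hbm : Memℓp (E := fun _ : ℕ => ℂ) (fun m => ((((m : ℝ) + 1) ^ (α / 2) : ℝ) : ℂ) * e m) 2 := by
    apply mem_of_bound (C := C * C') (p := 1 + s.re - α / 2) (by linarith)
    intro n
    rw [norm_mul, Complex.norm_real, Real.norm_of_nonneg (by positivity)]
    have hN : (0 : ℝ) < (n : ℝ) + 1 := by positivity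
    calc ((n : ℝ) + 1) ^ (α / 2) * ‖e n‖
        ≤ ((n : ℝ) + 1) ^ (α / 2) * (C * ((C' * ((n : ℝ) + 1) ^ (-s.re)) / ((n : ℝ) + 1))) := by
          apply mul_le_mul_of_nonneg_left _ (by positivity)
          refine (hdef n).trans ?_
          apply mul_le_mul_of_nonneg_left _ hC.le
          exact div_le_div_of_nonneg_right (hvb n).2 (by positivity)
      _ = C * C' * (((n : ℝ) + 1) ^ (α / 2) * (((n : ℝ) + 1) ^ (-s.re) / ((n : ℝ) + 1))) := by ring
      _ = C * C' * ((n : ℝ) + 1) ^ (-(1 + s.re - α / 2)) := by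
        rw [← Real.rpow_sub_one hN.ne', ← Real.rpow_add hN]
        congr 2
        ring
  obtain ⟨y, hy⟩ := hsurj (⟨fun m => ((((m : ℝ) + 1) ^ (α / 2) : ℝ) : ℂ) * e m, hbm⟩ : E)
  have hα2 : |α - 2 * α| < 1 := by
    have : α - 2 * α = -α := by ring
    rwa [this, abs_neg]
  have h3 := opA_dg h0.le hα hα2 y
  have h4 : α - 2 * α = -α := by ring
  rw [h4] at h3
  set x : E := ⟨xv α s, hxm⟩ with hx
  have h5 : opA (-α) (dg α h0.le y) - l • dg α h0.le y = opA (-α) x - l • x := by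
    rw [h3, ← map_smul, ← map_sub, hy]
    ext m
    rw [dg_apply, lp.coeFn_sub, Pi.sub_apply, lp.coeFn_smul, Pi.smul_apply, hx,
      opA_neg_xv hα hs1 hs0 hxm m]
    change _ * (_ * e m) = _ - l • xv α s m
    rw [xv, smul_eq_mul, he]
    have hM : (0 : ℝ) < (m : ℝ) + 1 := by positivity
    have e1 : ((((m : ℝ) + 1) ^ (-α) : ℝ) : ℂ) * ((((m : ℝ) + 1) ^ (α / 2) : ℝ) : ℂ) =
        ((((m : ℝ) + 1) ^ (-(α / 2)) : ℝ) : ℂ) := by
      rw [← Complex.ofReal_mul, ← Real.rpow_add hM]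
      congr 2
      ring
    rw [← mul_assoc, e1]
    ring
  have h6 : x - dg α h0.le y = 0 := by
    apply inj_of_surj hα hsurj
    rw [map_sub, smul_sub]
    rw [show opA (-α) x - opA (-α) (dg α h0.le y) - (l • x - l • dg α h0.le y) =
      (opA (-α) x - l • x) - (opA (-α) (dg α h0.le y) - l • dg α h0.le y) by abel, h5, sub_self]
  have h7 : ∀ n : ℕ, ‖y n‖ = ((n : ℝ) + 1) ^ (α / 2) * ‖vv s n‖ := by
    intro n
    have h8 : x n = dg α h0.le y n := by rw [sub_eq_zero.1 h6]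
    rw [dg_apply, hx] at h8
    change xv α s n = _ at h8
    rw [xv] at h8
    have h9 := congrArg norm h8
    rw [norm_mul, norm_mul, Complex.norm_real, Complex.norm_real, Real.norm_of_nonneg (by positivity),
      Real.norm_of_nonneg (by positivity)] at h9
    have hN : (0 : ℝ) < (n : ℝ) + 1 := by positivity
    have e1 : ((n : ℝ) + 1) ^ α * ((n : ℝ) + 1) ^ (-α) = 1 := by
      rw [← Real.rpow_add hN]; simp
    have e2 : ((n : ℝ) + 1) ^ α * ((n : ℝ) + 1) ^ (-(α / 2)) = ((n : ℝ) + 1) ^ (α / 2) := by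
      rw [← Real.rpow_add hN]; congr 1; ring
    calc ‖y n‖ = (((n : ℝ) + 1) ^ α * ((n : ℝ) + 1) ^ (-α)) * ‖y n‖ := by rw [e1, one_mul]
      _ = ((n : ℝ) + 1) ^ α * (((n : ℝ) + 1) ^ (-α) * ‖y n‖) := by ring
      _ = ((n : ℝ) + 1) ^ α * (((n : ℝ) + 1) ^ (-(α / 2)) * ‖vv s n‖) := by rw [h9]
      _ = _ := by rw [← mul_assoc, e2]
  have h8 : Summable fun n : ℕ => ((n : ℝ) + 1) ^ (α - 2 * s.re) := by
    have h9 := (summable_sq y).mul_left (c⁻¹ ^ 2)
    apply Summable.of_nonneg_of_le (fun n => by positivity) _ h9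
    intro n
    rw [h7 n]
    have hN : (0 : ℝ) < (n : ℝ) + 1 := by positivity
    have e1 : ((n : ℝ) + 1) ^ (α - 2 * s.re) = (((n : ℝ) + 1) ^ (α / 2) * ((n : ℝ) + 1) ^ (-s.re)) ^ 2 := by
      rw [← Real.rpow_add hN, rpow_sq _ _ hN.le]
      congr 1
      ring
    rw [e1, ← mul_pow]
    apply pow_le_pow_left₀ (by positivity)
    have h10 := (hvb n).1
    have h11 : ((n : ℝ) + 1) ^ (-s.re) ≤ c⁻¹ * ‖vv s n‖ := by
      rw [← div_eq_inv_mul, le_div_iff₀ hc, mul_comm]
      exact h10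
    calc ((n : ℝ) + 1) ^ (α / 2) * ((n : ℝ) + 1) ^ (-s.re) ≤ ((n : ℝ) + 1) ^ (α / 2) * (c⁻¹ * ‖vv s n‖) :=
          mul_le_mul_of_nonneg_left h11 (by positivity)
      _ = _ := by ring
  rw [summable_shift] at h8
  linarith

theorem cos_ne {z : ℂ} (hz : |z.re| < 1 / 2) : Complex.cos (Real.pi * z) ≠ 0 := by
  have h1 := abs_lt.1 hz
  have h2 := sin_ne (s := 1 / 2 + z) (by simp; linarith) (by simp; linarith)
  have : (Real.pi : ℂ) * (1 / 2 + z) = Real.pi * z + Real.pi / 2 := by ring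
  rwa [this, Complex.sin_add_pi_div_two] at h2

theorem region_nonneg {α : ℝ} (h0 : 0 ≤ α) (h1 : α < 1) (z : ℂ) (hz : |z.re| ≤ α / 2) :
    (Real.pi : ℂ) / Complex.cos (Real.pi * z) ∈ spectrum ℂ (opA α) := by
  rcases h0.eq_or_lt with h | h
  · subst h
    have hz0 : z.re = 0 := by
      have : |z.re| = 0 := le_antisymm (by simpa using hz) (abs_nonneg _)
      exact abs_eq_zero.1 this
    by_contra hcon
    rw [spectrum.notMem_iff] at hcon
    have hopen : IsOpen {T : E →L[ℂ] E | IsUnit T} := Units.isOpen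
    have hcont : ContinuousAt (fun a : ℝ => algebraMap ℂ (E →L[ℂ] E)
        ((Real.pi : ℂ) / Complex.cos (Real.pi * z)) - opA a) 0 :=
      continuousAt_const.sub (opA_continuousAt (by simp))
    have h2 := hcont.eventually (hopen.mem_nhds hcon)
    rw [Metric.eventually_nhds_iff] at h2
    obtain ⟨ε, hε, h3⟩ := h2
    have hpos : 0 < min (ε / 2) (1 / 2) := by positivity
    have h4 := h3 (y := min (ε / 2) (1 / 2)) (by
      rw [Real.dist_eq, sub_zero, abs_of_pos hpos]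
      exact lt_of_le_of_lt (min_le_left _ _) (by linarith))
    have h5 := region_pos hpos (lt_of_le_of_lt (min_le_right _ _) (by norm_num)) z
      (by rw [hz0]; linarith) (by rw [hz0]; linarith)
    rw [spectrum.mem_iff] at h5
    exact h5 h4
  · by_cases h2 : -(α / 2) < z.re
    · exact region_pos h h1 z h2 (abs_le.1 hz).2
    · have h3 : z.re = -(α / 2) := le_antisymm (not_lt.1 h2) (abs_le.1 hz).1
      have h4 := region_pos h h1 (-z) (by simp; linarith) (by simp; linarith)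
      have e : (Real.pi : ℂ) * -z = -(Real.pi * z) := by ring
      rwa [e, Complex.cos_neg] at h4

theorem zero_mem {α : ℝ} (h0 : 0 ≤ α) (h1 : α < 1) : (0 : ℂ) ∈ spectrum ℂ (opA α) := by
  have hclosed : IsClosed (spectrum ℂ (opA α)) := spectrum.isClosed _
  have hlim : Tendsto (fun k : ℕ => (Real.pi : ℂ) / Complex.cos (Real.pi * ((k : ℂ) * Complex.I))) atTop
      (𝓝 0) := by
    rw [tendsto_zero_iff_norm_tendsto_zero]
    have e : ∀ k : ℕ, ‖(Real.pi : ℂ) / Complex.cos (Real.pi * ((k : ℂ) * Complex.I))‖ =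
        Real.pi / Real.cosh (Real.pi * k) := by
      intro k
      have : (Real.pi : ℂ) * ((k : ℂ) * Complex.I) = ((Real.pi * k : ℝ) : ℂ) * Complex.I := by
        push_cast; ring
      rw [this, Complex.cos_mul_I, ← Complex.ofReal_cosh, norm_div, Complex.norm_real, Complex.norm_real,
        Real.norm_of_nonneg Real.pi_pos.le, Real.norm_of_nonneg (Real.cosh_pos _).le]
    simp_rw [e]
    apply squeeze_zero' (g := fun k : ℕ => Real.pi / (k : ℝ))
    · apply Eventually.of_forall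
      intro k
      have := Real.cosh_pos (Real.pi * k)
      have := Real.pi_pos
      positivity
    · filter_upwards [eventually_gt_atTop 0] with k hk
      have hk' : (0 : ℝ) < k := Nat.cast_pos.2 hk
      apply div_le_div_of_nonneg_left Real.pi_pos.le hk'
      have h2 := Real.add_one_le_exp (Real.pi * k)
      have h3 := Real.exp_pos (-(Real.pi * k))
      have h4 := Real.pi_gt_three
      rw [Real.cosh_eq]
      nlinarith
    · exact tendsto_const_div_atTop_nhds_zero_nat _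
  apply hclosed.mem_of_tendsto hlim
  apply Eventually.of_forall
  intro k
  apply region_nonneg h0 h1
  simp
  linarith

end

end Pool.Agent.Helper152.Hilb
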