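import Mathlib

open Filter Topology MeasureTheory FourierTransform SchwartzMap
open scoped ContDiff

namespace Pool.Agent.Helper152.Hilb

noncomputable section

theorem fourier_flip {f g : ℝ → ℂ} (hf : Integrable f) (hg : Integrable g) :
    ∫ x, 𝓕 g x * f x = ∫ x, g x * 𝓕 f x := by
  have h := VectorFourier.integral_fourierIntegral_smul_eq_flip (L := innerₗ ℝ)
    (μ := (volume : Measure ℝ)) (ν := (volume : Measure ℝ)) (f := g) (g := f)
    Real.continuous_fourierChar continuous_inner hg hf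
  simpa [smul_eq_mul] using! h

theorem fourier_cont {f : ℝ → ℂ} (hf : Integrable f) : Continuous (𝓕 f) :=
  VectorFourier.fourierIntegral_continuous Real.continuous_fourierChar continuous_inner hf

theorem fourier_ae {f : ℝ → ℂ} (h1 : Integrable f) (h2 : MemLp f 2) :
    ∀ᵐ x, (𝓕 (h2.toLp f) : Lp ℂ 2 (volume : Measure ℝ)) x = 𝓕 f x := by
  apply ae_eq_of_integral_contDiff_smul_eq
  · exact (Lp.memLp _).locallyIntegrable one_le_two
  · exact (fourier_cont h1).locallyIntegrable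
  intro g g_smooth g_cpt
  have hg₁ : HasCompactSupport (Complex.ofRealCLM ∘ g) := g_cpt.comp_left rfl
  have hg₂ : ContDiff ℝ ∞ (Complex.ofRealCLM ∘ g) := by fun_prop
  set G : 𝓢(ℝ, ℂ) := hg₁.toSchwartzMap hg₂ with hG
  have hGg : ∀ x, G x = ((g x : ℝ) : ℂ) := fun x => rfl
  have e1 : ∫ x, g x • (𝓕 (h2.toLp f) : Lp ℂ 2 (volume : Measure ℝ)) x =
      (((𝓕 (h2.toLp f) : Lp ℂ 2 (volume : Measure ℝ)) : 𝓢'(ℝ, ℂ))) G := by
    rw [Lp.toTemperedDistribution_apply]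
    apply integral_congr_ae
    filter_upwards with x
    rw [hGg, Complex.real_smul, smul_eq_mul]
  rw [e1, ← Lp.fourier_toTemperedDistribution_eq, TemperedDistribution.fourier_apply,
    Lp.toTemperedDistribution_apply]
  have e2 : ∫ x, (𝓕 G) x • (h2.toLp f) x = ∫ x, 𝓕 (G : ℝ → ℂ) x * f x := by
    apply integral_congr_ae
    filter_upwards [h2.coeFn_toLp] with x hx
    rw [hx, smul_eq_mul]
    rfl
  rw [e2, fourier_flip h1 G.integrable]
  apply integral_congr_ae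
  filter_upwards with x
  rw [hGg, Complex.real_smul]

theorem plancherel {f : ℝ → ℂ} (h1 : Integrable f) (h2 : MemLp f 2) :
    MemLp (𝓕 f) 2 ∧ ∫ x, ‖𝓕 f x‖ ^ 2 = ∫ x, ‖f x‖ ^ 2 := by
  have h3 := fourier_ae h1 h2
  have h4 : MemLp (𝓕 f) 2 := (memLp_congr_ae h3).1 (Lp.memLp _)
  refine ⟨h4, ?_⟩
  have h5 : ‖(𝓕 (h2.toLp f) : Lp ℂ 2 (volume : Measure ℝ))‖ ^ 2 = ‖h2.toLp f‖ ^ 2 := by
    rw [Lp.norm_fourier_eq]
  have key : ∀ F : Lp ℂ 2 (volume : Measure ℝ), ‖F‖ ^ 2 = ∫ x, ‖F x‖ ^ 2 := by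
    intro F
    have h6 := L2.inner_def (𝕜 := ℂ) F F
    rw [inner_self_eq_norm_sq_to_K] at h6
    have h7 : ((‖F‖ ^ 2 : ℝ) : ℂ) = ((∫ x, ‖F x‖ ^ 2 : ℝ) : ℂ) := by
      rw [← integral_complex_ofReal]
      push_cast
      refine Eq.trans ?_ (h6.trans ?_)
      · rfl
      · apply integral_congr_ae
        filter_upwards with x
        rw [inner_self_eq_norm_sq_to_K]
        rfl
    exact_mod_cast h7
  rw [key, key] at h5
  have e1 : ∫ x, ‖(𝓕 (h2.toLp f) : Lp ℂ 2 (volume : Measure ℝ)) x‖ ^ 2 = ∫ x, ‖𝓕 f x‖ ^ 2 := by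
    apply integral_congr_ae
    filter_upwards [h3] with x hx
    rw [hx]
  have e2 : ∫ x, ‖(h2.toLp f) x‖ ^ 2 = ∫ x, ‖f x‖ ^ 2 := by
    apply integral_congr_ae
    filter_upwards [h2.coeFn_toLp] with x hx
    rw [hx]
  rw [e1, e2] at h5
  exact h5

end

end Pool.Agent.Helper152.Hilb
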