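import Mathlib
import Pool.Agent.Helper152.HilbF

open Filter Topology MeasureTheory FourierTransform
open scoped ContDiff Convolution

namespace Pool.Agent.Helper152.Hilb

noncomputable section

/-- exponential over hyperbolic cosine -/
def cc (w : ℂ) (u : ℝ) : ℂ := Complex.exp (w * u) / ((2 * Real.cosh (u / 2) : ℝ) : ℂ)

theorem cc_eq (w : ℂ) (u : ℝ) : |Real.sigmoid u * (1 - Real.sigmoid u)| •
    (((Real.sigmoid u : ℝ) : ℂ) ^ ((1 / 2 + w) - 1) * (1 - ((Real.sigmoid u : ℝ) : ℂ)) ^ ((1 / 2 - w) - 1)) =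
    cc w u := by
  set L : ℝ := Real.log (1 + Real.exp u) with hL
  have h1 : Real.sigmoid u = Real.exp (u - L) := by
    rw [Real.exp_sub, hL, Real.exp_log (by positivity), Real.sigmoid_def]
    rw [Real.exp_neg]
    field_simp
    ring
  have h2 : 1 - Real.sigmoid u = Real.exp (-L) := by
    rw [Real.exp_neg, hL, Real.exp_log (by positivity), Real.sigmoid_def, Real.exp_neg]
    field_simp
    ring
  have h3 : (1 - ((Real.sigmoid u : ℝ) : ℂ)) = ((Real.exp (-L) : ℝ) : ℂ) := by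
    rw [← h2]; push_cast; rfl
  rw [h3, h2, h1]
  have hc : ∀ (x : ℝ) (p : ℂ), ((Real.exp x : ℝ) : ℂ) ^ p = Complex.exp (x * p) := by
    intro x p
    rw [Complex.cpow_def_of_ne_zero (by rw [Complex.ofReal_ne_zero]; positivity),
      ← Complex.ofReal_log (Real.exp_pos x).le, Real.log_exp]
  rw [hc, hc, ← Complex.exp_add, abs_of_pos (by positivity), ← Real.exp_add, Complex.real_smul,
    Complex.ofReal_exp, ← Complex.exp_add, cc]
  have h4 : (2 * Real.cosh (u / 2) : ℝ) = Real.exp (L - u / 2) := by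
    rw [Real.exp_sub, hL, Real.exp_log (by positivity), Real.cosh_eq]
    rw [eq_div_iff (by positivity)]
    have e1 : Real.exp u = Real.exp (u / 2) * Real.exp (u / 2) := by
      rw [← Real.exp_add]; congr 1; ring
    have e2 : Real.exp (-(u / 2)) * Real.exp (u / 2) = 1 := by
      rw [← Real.exp_add]; simp
    rw [e1]
    linear_combination e2
  rw [h4, Complex.ofReal_exp, ← Complex.exp_sub]
  congr 1
  push_cast
  ring

theorem sig_deriv (x : ℝ) : HasDerivWithinAt Real.sigmoid (Real.sigmoid x * (1 - Real.sigmoid x))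
    Set.univ x := (Real.hasDerivAt_sigmoid x).hasDerivWithinAt

theorem sig_image : Real.sigmoid '' Set.univ = Set.Ioo 0 1 := by
  rw [Set.image_univ, Real.range_sigmoid]

theorem cc_integrable {w : ℂ} (hw : |w.re| < 1 / 2) : Integrable (cc w) := by
  have hw' := abs_lt.1 hw
  have h1 := Complex.betaIntegral_convergent (u := 1 / 2 + w) (v := 1 / 2 - w)
    (by simp; linarith) (by simp; linarith)
  rw [intervalIntegrable_iff_integrableOn_Ioo_of_le zero_le_one, ← sig_image,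
    integrableOn_image_iff_integrableOn_abs_deriv_smul MeasurableSet.univ
      (fun x _ => sig_deriv x) Real.sigmoid_injective.injOn, integrableOn_univ] at h1
  refine h1.congr ?_
  apply Eventually.of_forall
  intro u
  exact cc_eq w u

theorem cc_integral {w : ℂ} (hw : |w.re| < 1 / 2) : ∫ u, cc w u = Real.pi / Complex.cos (Real.pi * w) := by
  have hw' := abs_lt.1 hw
  have h1 : Complex.betaIntegral (1 / 2 + w) (1 / 2 - w) = ∫ u, cc w u := by
    rw [Complex.betaIntegral, intervalIntegral.integral_of_le zero_le_one, integral_Ioc_eq_integral_Ioo,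
      ← sig_image, integral_image_eq_integral_abs_deriv_smul MeasurableSet.univ
      (fun x _ => sig_deriv x) Real.sigmoid_injective.injOn, setIntegral_univ]
    apply integral_congr_ae
    apply Eventually.of_forall
    intro u
    exact cc_eq w u
  rw [← h1]
  have h2 := Complex.Gamma_mul_Gamma_eq_betaIntegral (s := 1 / 2 + w) (t := 1 / 2 - w)
    (by simp; linarith) (by simp; linarith)
  have h3 := Complex.Gamma_mul_Gamma_one_sub (1 / 2 + w)
  have e1 : (1 : ℂ) - (1 / 2 + w) = 1 / 2 - w := by ring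
  have e2 : (1 / 2 + w) + (1 / 2 - w) = 1 := by ring
  rw [e1] at h3
  rw [e2, Complex.Gamma_one, one_mul] at h2
  rw [← h2, h3]
  congr 1
  have : (Real.pi : ℂ) * (1 / 2 + w) = Real.pi * w + Real.pi / 2 := by ring
  rw [this, Complex.sin_add_pi_div_two]

theorem cc_fourier {a : ℝ} (ha : |a| < 1) (ξ : ℝ) :
    𝓕 (cc ((a / 2 : ℝ) : ℂ)) ξ = Real.pi / Complex.cos (Real.pi * (((a / 2 : ℝ) : ℂ) - 2 * Real.pi * ξ * Complex.I)) := by
  rw [Real.fourier_real_eq_integral_exp_smul, ← cc_integral (w := (((a / 2 : ℝ) : ℂ) - 2 * Real.pi * ξ * Complex.I))]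
  · apply integral_congr_ae
    apply Eventually.of_forall
    intro u
    simp only [cc, smul_eq_mul]
    rw [← mul_div_assoc, ← Complex.exp_add]
    congr 2
    push_cast
    ring
  · have : ((((a / 2 : ℝ) : ℂ) - 2 * Real.pi * ξ * Complex.I)).re = a / 2 := by
      simp
    rw [this, abs_div, abs_two]
    linarith

/-- lower bound for the symbol -/
theorem symbol_lower {a : ℝ} (ha : |a| < 1) {l : ℂ} (hl0 : l ≠ 0)
    (hl : ∀ z : ℂ, z.re = a / 2 → l ≠ Real.pi / Complex.cos (Real.pi * z)) :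
    ∃ δ : ℝ, 0 < δ ∧ ∀ ξ : ℝ, δ ≤ ‖𝓕 (cc ((a / 2 : ℝ) : ℂ)) ξ - l‖ := by
  have hint : Integrable (cc ((a / 2 : ℝ) : ℂ)) := cc_integrable (by
    rw [Complex.ofReal_re, abs_div, abs_two]; linarith)
  have hcont : Continuous fun ξ => ‖𝓕 (cc ((a / 2 : ℝ) : ℂ)) ξ - l‖ :=
    ((fourier_cont hint).sub continuous_const).norm
  have hlim : Tendsto (𝓕 (cc ((a / 2 : ℝ) : ℂ))) (cocompact ℝ) (𝓝 0) :=
    (Real.tendsto_integral_exp_smul_cocompact (cc ((a / 2 : ℝ) : ℂ))).congr
      (fun ξ => (Real.fourier_real_eq _ _).symm)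
  have hlim2 : Tendsto (fun ξ => ‖𝓕 (cc ((a / 2 : ℝ) : ℂ)) ξ - l‖) (cocompact ℝ) (𝓝 ‖0 - l‖) :=
    (hlim.sub tendsto_const_nhds).norm
  have hpos : 0 < ‖0 - l‖ := by simpa using hl0
  have h1 := hlim2.eventually (lt_mem_nhds (half_lt_self hpos))
  rw [Filter.eventually_iff, mem_cocompact] at h1
  obtain ⟨K, hK, hK2⟩ := h1
  have hne : ∀ ξ : ℝ, 0 < ‖𝓕 (cc ((a / 2 : ℝ) : ℂ)) ξ - l‖ := by
    intro ξ
    rw [norm_pos_iff, sub_ne_zero, cc_fourier ha]
    exact (hl _ (by simp)).symm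
  rcases K.eq_empty_or_nonempty with hemp | hne'
  · refine ⟨‖0 - l‖ / 2, by positivity, fun ξ => ?_⟩
    have : ξ ∈ Kᶜ := by rw [hemp]; simp
    exact (hK2 this).le
  · obtain ⟨x0, _, hx0⟩ := hK.exists_isMinOn hne' hcont.continuousOn
    refine ⟨min (‖0 - l‖ / 2) ‖𝓕 (cc ((a / 2 : ℝ) : ℂ)) x0 - l‖, lt_min (by positivity) (hne x0), fun ξ => ?_⟩
    by_cases hξ : ξ ∈ K
    · exact (min_le_right _ _).trans (hx0 hξ)
    · exact (min_le_left _ _).trans (hK2 hξ).le

/-- lower bound for the convolution operator -/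
theorem conv_lower {c g : ℝ → ℂ} (hc : Integrable c) {B : ℝ} (hcB : ∀ u, ‖c u‖ ≤ B) (hccont : Continuous c)
    (hg : Integrable g) (hg2 : MemLp g 2) {l : ℂ} {δ : ℝ} (hδ : 0 ≤ δ)
    (h : ∀ ξ : ℝ, δ ≤ ‖𝓕 c ξ - l‖) :
    MemLp (fun x => (c ⋆[ContinuousLinearMap.mul ℂ ℂ] g) x - l * g x) 2 ∧
    δ ^ 2 * ∫ x, ‖g x‖ ^ 2 ≤ ∫ x, ‖(c ⋆[ContinuousLinearMap.mul ℂ ℂ] g) x - l * g x‖ ^ 2 := by
  set G : ℝ → ℂ := fun x => (c ⋆[ContinuousLinearMap.mul ℂ ℂ] g) x - l * g x with hG
  have hconv : Integrable (c ⋆[ContinuousLinearMap.mul ℂ ℂ] g) :=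
    hc.integrable_convolution (ContinuousLinearMap.mul ℂ ℂ) hg
  have hbd : ∀ x, ‖(c ⋆[ContinuousLinearMap.mul ℂ ℂ] g) x‖ ≤ B * ∫ t, ‖g t‖ := by
    intro x
    rw [MeasureTheory.convolution_def]
    refine (norm_integral_le_integral_norm _).trans ?_
    have e1 : ∫ t, ‖g t‖ = ∫ t, ‖g (x - t)‖ := (integral_sub_left_eq_self (fun t => ‖g t‖) volume x).symm
    rw [e1, ← integral_const_mul]
    apply integral_mono_of_nonneg
    · exact Eventually.of_forall fun t => norm_nonneg _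
    · exact ((hg.comp_sub_left x).norm).const_mul B
    · apply Eventually.of_forall
      intro t
      simp only [ContinuousLinearMap.mul_apply', norm_mul]
      exact mul_le_mul_of_nonneg_right (hcB t) (norm_nonneg _)
  have hGint : Integrable G := hconv.sub (hg.const_mul l)
  have hconv2 : MemLp (c ⋆[ContinuousLinearMap.mul ℂ ℂ] g) 2 := by
    rw [memLp_two_iff_integrable_sq_norm hconv.aestronglyMeasurable]
    apply Integrable.mono' (g := fun x => (B * ∫ t, ‖g t‖) * ‖(c ⋆[ContinuousLinearMap.mul ℂ ℂ] g) x‖)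
      (hconv.norm.const_mul _)
    · exact (hconv.aestronglyMeasurable.norm.pow 2)
    · apply Eventually.of_forall
      intro x
      rw [Real.norm_of_nonneg (by positivity), pow_two]
      exact mul_le_mul_of_nonneg_right (hbd x) (norm_nonneg _)
  have hG2 : MemLp G 2 := hconv2.sub (hg2.const_mul l)
  refine ⟨hG2, ?_⟩
  obtain ⟨h1, h2⟩ := plancherel hg hg2
  obtain ⟨h3, h4⟩ := plancherel hGint hG2
  rw [← h2, ← h4, ← integral_const_mul]
  have hF : ∀ ξ, 𝓕 G ξ = (𝓕 c ξ - l) * 𝓕 g ξ := by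
    intro ξ
    have e1 := Real.fourier_mul_convolution_eq hc hg ξ
    have e2 : G = (c ⋆[ContinuousLinearMap.mul ℂ ℂ] g) + (-l) • g := by
      funext x
      simp [hG, sub_eq_add_neg]
    have e3 := VectorFourier.fourierIntegral_add (L := innerₗ ℝ) (μ := (volume : Measure ℝ))
      Real.continuous_fourierChar continuous_inner hconv (hg.smul (-l))
    rw [VectorFourier.fourierIntegral_const_smul] at e3
    have e4 : 𝓕 G ξ = 𝓕 (c ⋆[ContinuousLinearMap.mul ℂ ℂ] g) ξ + (-l) • 𝓕 g ξ := by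
      rw [e2]
      exact congrFun e3 ξ
    rw [e4, e1, smul_eq_mul]
    ring
  apply integral_mono
  · exact ((memLp_two_iff_integrable_sq_norm h1.1).1 h1).const_mul _
  · exact (memLp_two_iff_integrable_sq_norm h3.1).1 h3
  · intro ξ
    simp only [hF, norm_mul, mul_pow]
    apply mul_le_mul_of_nonneg_right _ (by positivity)
    exact pow_le_pow_left₀ hδ (h ξ) 2

end

end Pool.Agent.Helper152.Hilb
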