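import Mathlib
import Pool.Agent.Helper152.HilbE
import Pool.Agent.Helper152.HilbG

open Filter Topology MeasureTheory FourierTransform
open scoped ContDiff Convolution

namespace Pool.Agent.Helper152.Hilb

noncomputable section

/-- cells -/
def Ic (n : ℕ) : Set ℝ := Set.Ico (Real.log ((n : ℝ) + 1)) (Real.log ((n : ℝ) + 2))

theorem Ic_meas (n : ℕ) : MeasurableSet (Ic n) := measurableSet_Ico

theorem Ic_mem {n : ℕ} {u : ℝ} (h : u ∈ Ic n) : (n : ℝ) + 1 ≤ Real.exp u ∧ Real.exp u < (n : ℝ) + 2 := by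
  constructor
  · rw [← Real.log_le_iff_le_exp (by positivity)]
    exact h.1
  · rw [← Real.lt_log_iff_exp_lt (by positivity)]
    exact h.2

theorem Ic_iff {n : ℕ} {u : ℝ} : u ∈ Ic n ↔ (n : ℝ) + 1 ≤ Real.exp u ∧ Real.exp u < (n : ℝ) + 2 := by
  refine ⟨Ic_mem, fun h => ⟨?_, ?_⟩⟩
  · rw [Real.log_le_iff_le_exp (by positivity)]
    exact h.1
  · rw [Real.lt_log_iff_exp_lt (by positivity)]
    exact h.2

theorem Ic_union : (⋃ n, Ic n) = Set.Ici 0 := by
  ext u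
  simp only [Set.mem_iUnion, Set.mem_Ici]
  constructor
  · rintro ⟨n, hn⟩
    have := (Ic_mem hn).1
    have hn0 : (0 : ℝ) ≤ n := Nat.cast_nonneg n
    by_contra h
    have h2 := Real.exp_lt_exp.2 (not_le.1 h)
    rw [Real.exp_zero] at h2
    linarith
  · intro hu
    have h1 : 1 ≤ Real.exp u := Real.one_le_exp hu
    refine ⟨⌊Real.exp u⌋₊ - 1, ?_⟩
    rw [Ic_iff]
    have h2 : 1 ≤ ⌊Real.exp u⌋₊ := by
      rw [Nat.one_le_floor_iff]
      exact h1
    have h3 := Nat.floor_le (Real.exp_pos u).le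
    have h4 := Nat.lt_floor_add_one (Real.exp u)
    rw [Nat.cast_sub h2]
    push_cast
    constructor
    · linarith
    · linarith

theorem Ic_disj : Pairwise (Function.onFun Disjoint Ic) := by
  intro i j hij
  rw [Function.onFun, Set.disjoint_left]
  intro u hi hj
  obtain ⟨h1, h2⟩ := Ic_mem hi
  obtain ⟨h3, h4⟩ := Ic_mem hj
  have h5 : (i : ℝ) < j + 1 := by linarith
  have h6 : (j : ℝ) < i + 1 := by linarith
  have h7 : i < j + 1 := by exact_mod_cast h5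
  have h8 : j < i + 1 := by exact_mod_cast h6
  omega

theorem Ic_int (n : ℕ) : ∫ t in Ic n, Real.exp t = 1 := by
  have hle : Real.log ((n : ℝ) + 1) ≤ Real.log ((n : ℝ) + 2) :=
    Real.log_le_log (by positivity) (by linarith)
  rw [Ic, integral_Ico_eq_integral_Ioo, ← integral_Ioc_eq_integral_Ioo,
    ← intervalIntegral.integral_of_le hle, integral_exp, Real.exp_log (by positivity),
    Real.exp_log (by positivity)]
  ring

theorem Ic_bdd (n : ℕ) : volume (Ic n) < ⊤ := by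
  rw [Ic, Real.volume_Ico]
  exact ENNReal.ofReal_lt_top

theorem Ic_intOn {f : ℝ → ℂ} (hf : Continuous f) (n : ℕ) : IntegrableOn f (Ic n) := by
  apply (hf.integrableOn_Icc (a := Real.log ((n : ℝ) + 1)) (b := Real.log ((n : ℝ) + 2))).mono_set
  exact Set.Ico_subset_Icc_self

theorem Ic_intOnR {f : ℝ → ℝ} (hf : Continuous f) (n : ℕ) : IntegrableOn f (Ic n) := by
  apply (hf.integrableOn_Icc (a := Real.log ((n : ℝ) + 1)) (b := Real.log ((n : ℝ) + 2))).mono_set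
  exact Set.Ico_subset_Icc_self

/-- real kernel -/
def Kr (a u t : ℝ) : ℝ := Real.exp (a / 2 * (u - t)) / (Real.exp u + Real.exp t)

theorem cc_shift (a u t : ℝ) : cc ((a / 2 : ℝ) : ℂ) (u - t) * ((Real.exp (t / 2) : ℝ) : ℂ) =
    ((Real.exp (u / 2) * (Kr a u t * Real.exp t) : ℝ) : ℂ) := by
  have h1 : cc ((a / 2 : ℝ) : ℂ) (u - t) = ((Real.exp (a / 2 * (u - t)) / (2 * Real.cosh ((u - t) / 2)) : ℝ) : ℂ) := by
    rw [cc]
    push_cast
    rfl
  rw [h1, ← Complex.ofReal_mul]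
  congr 1
  have h2 : (2 * Real.cosh ((u - t) / 2)) * (Real.exp (u / 2) * Real.exp (t / 2)) = Real.exp u + Real.exp t := by
    rw [Real.cosh_eq]
    have e1 : Real.exp ((u - t) / 2) = Real.exp (u / 2) * Real.exp (-(t / 2)) := by
      rw [← Real.exp_add]; congr 1; ring
    have e2 : Real.exp (-((u - t) / 2)) = Real.exp (-(u / 2)) * Real.exp (t / 2) := by
      rw [← Real.exp_add]; congr 1; ring
    have e3 : Real.exp u = Real.exp (u / 2) * Real.exp (u / 2) := by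
      rw [← Real.exp_add]; congr 1; ring
    have e4 : Real.exp t = Real.exp (t / 2) * Real.exp (t / 2) := by
      rw [← Real.exp_add]; congr 1; ring
    have e5 : Real.exp (-(t / 2)) * Real.exp (t / 2) = 1 := by
      rw [← Real.exp_add]; simp
    have e6 : Real.exp (-(u / 2)) * Real.exp (u / 2) = 1 := by
      rw [← Real.exp_add]; simp
    rw [e1, e2, e3, e4]
    linear_combination (Real.exp (u / 2) * Real.exp (u / 2)) * e5 + (Real.exp (t / 2) * Real.exp (t / 2)) * e6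
  have h3 : 0 < Real.cosh ((u - t) / 2) := Real.cosh_pos _
  rw [Kr, ← h2]
  have e4 : Real.exp t = Real.exp (t / 2) * Real.exp (t / 2) := by
    rw [← Real.exp_add]; congr 1; ring
  rw [e4]
  have h4 := Real.exp_pos (u / 2)
  have h5 := Real.exp_pos (t / 2)
  field_simp

theorem Kr_neg {a : ℝ} (ha : 0 ≤ a) {u t : ℝ} {n : ℕ} (ht : t ∈ Ic n) :
    Kr a u t ≤ Real.exp (a / 2 * u) * ((n : ℝ) + 1) ^ (-(a / 2) - 1) := by
  have h1 := (Ic_mem ht).1
  have hN : (0 : ℝ) < (n : ℝ) + 1 := by positivity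
  have h2 : Real.exp (-(a / 2 * t)) ≤ ((n : ℝ) + 1) ^ (-(a / 2)) := by
    rw [Real.rpow_def_of_pos hN]
    apply Real.exp_le_exp.2
    have h3 : Real.log ((n : ℝ) + 1) ≤ t := ht.1
    nlinarith
  rw [Kr, Real.rpow_sub_one hN.ne']
  have e : Real.exp (a / 2 * (u - t)) = Real.exp (a / 2 * u) * Real.exp (-(a / 2 * t)) := by
    rw [← Real.exp_add]; congr 1; ring
  rw [e, ← mul_div_assoc]
  apply div_le_div₀ (by positivity) _ hN
  · linarith [Real.exp_pos u]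
  · exact mul_le_mul_of_nonneg_left h2 (Real.exp_pos _).le

theorem Kr_close {a : ℝ} (ha : 0 ≤ a) (ha1 : a < 1) {u t : ℝ} {m n : ℕ} (hu : u ∈ Ic m) (ht : t ∈ Ic n) :
    |Kr a u t - Real.exp (a / 2 * ll m n) / ((m : ℝ) + n + 1)| ≤
      5 * (((m : ℝ) + 1) ^ (a / 2 - 1) * ((n : ℝ) + 1) ^ (-(a / 2) - 1)) := by
  have hM : (0 : ℝ) < (m : ℝ) + 1 := by positivity
  have hN : (0 : ℝ) < (n : ℝ) + 1 := by positivity
  obtain ⟨hu1, hu2⟩ := Ic_mem hu
  obtain ⟨ht1, ht2⟩ := Ic_mem ht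
  have hlu : 0 ≤ u - Real.log ((m : ℝ) + 1) := by linarith [hu.1]
  have hlt : 0 ≤ t - Real.log ((n : ℝ) + 1) := by linarith [ht.1]
  have hlog : ∀ k : ℕ, Real.log ((k : ℝ) + 2) - Real.log ((k : ℝ) + 1) ≤ 1 / ((k : ℝ) + 1) := by
    intro k
    have hk : (0 : ℝ) < (k : ℝ) + 1 := by positivity
    rw [← Real.log_div (by positivity) (by positivity)]
    have h1 := Real.log_le_sub_one_of_pos (x := ((k : ℝ) + 2) / ((k : ℝ) + 1)) (by positivity)
    refine h1.trans (le_of_eq ?_)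
    field_simp
    ring
  have hlu2 : u - Real.log ((m : ℝ) + 1) ≤ 1 / ((m : ℝ) + 1) := by linarith [hlog m, hu.2]
  have hlt2 : t - Real.log ((n : ℝ) + 1) ≤ 1 / ((n : ℝ) + 1) := by linarith [hlog n, ht.2]
  -- the ratio
  set z : ℝ := a / 2 * ((u - Real.log ((m : ℝ) + 1)) - (t - Real.log ((n : ℝ) + 1))) with hz
  have hz1 : |z| ≤ (1 / ((m : ℝ) + 1) + 1 / ((n : ℝ) + 1)) / 2 := by
    rw [hz, abs_mul, abs_of_nonneg (by positivity : (0 : ℝ) ≤ a / 2)]
    have h1 : |(u - Real.log ((m : ℝ) + 1)) - (t - Real.log ((n : ℝ) + 1))| ≤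
        1 / ((m : ℝ) + 1) + 1 / ((n : ℝ) + 1) := by
      rw [abs_le]
      constructor <;> linarith [show (0 : ℝ) < 1 / ((m : ℝ) + 1) by positivity, show (0 : ℝ) < 1 / ((n : ℝ) + 1) by positivity]
    have h2 : (0 : ℝ) ≤ 1 / ((m : ℝ) + 1) + 1 / ((n : ℝ) + 1) := by positivity
    nlinarith [abs_nonneg ((u - Real.log ((m : ℝ) + 1)) - (t - Real.log ((n : ℝ) + 1)))]
  have hm1 : 1 / ((m : ℝ) + 1) ≤ 1 := by
    rw [div_le_one hM]
    linarith [show (0 : ℝ) ≤ m from Nat.cast_nonneg m]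
  have hn1 : 1 / ((n : ℝ) + 1) ≤ 1 := by
    rw [div_le_one hN]
    linarith [show (0 : ℝ) ≤ n from Nat.cast_nonneg n]
  have hz2 : |Real.exp z - 1| ≤ 1 / ((m : ℝ) + 1) + 1 / ((n : ℝ) + 1) := by
    have h1 := Real.abs_exp_sub_one_le (x := z) (by linarith)
    linarith
  have e1 : Real.exp (a / 2 * (u - t)) = Real.exp (a / 2 * ll m n) * Real.exp z := by
    rw [← Real.exp_add, hz, ll]
    congr 1
    ring
  rw [Kr, e1]
  set P := Real.exp (a / 2 * ll m n) with hP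
  set X := Real.exp u with hX
  set Y := Real.exp t with hY
  have hPpos : 0 < P := Real.exp_pos _
  have hXY : (m : ℝ) + 1 + ((n : ℝ) + 1) ≤ X + Y := by linarith
  have hXYpos : 0 < X + Y := by linarith
  have e2 : P * Real.exp z / (X + Y) - P / ((m : ℝ) + n + 1) =
      P * ((Real.exp z - 1) / (X + Y) - (X + Y - ((m : ℝ) + n + 1)) / ((X + Y) * ((m : ℝ) + n + 1))) := by
    field_simp
    ring
  rw [e2, abs_mul, abs_of_pos hPpos]
  have e3 : ((m : ℝ) + 1) ^ (a / 2 - 1) * ((n : ℝ) + 1) ^ (-(a / 2) - 1) = P / (((m : ℝ) + 1) * ((n : ℝ) + 1)) := by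
    rw [hP, exp_ll, Real.rpow_sub_one hM.ne', Real.rpow_sub_one hN.ne']
    field_simp
  rw [e3, mul_div_assoc', mul_comm 5 P, mul_div_assoc]
  apply mul_le_mul_of_nonneg_left _ hPpos.le
  refine (abs_sub _ _).trans ?_
  have h1 : |(Real.exp z - 1) / (X + Y)| ≤ 1 / (((m : ℝ) + 1) * ((n : ℝ) + 1)) := by
    rw [abs_div, abs_of_pos hXYpos, div_le_div_iff₀ hXYpos (by positivity)]
    have h2 : (1 / ((m : ℝ) + 1) + 1 / ((n : ℝ) + 1)) * (((m : ℝ) + 1) * ((n : ℝ) + 1)) = (m : ℝ) + 1 + ((n : ℝ) + 1) := by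
      field_simp
      ring
    calc |Real.exp z - 1| * (((m : ℝ) + 1) * ((n : ℝ) + 1)) ≤
        (1 / ((m : ℝ) + 1) + 1 / ((n : ℝ) + 1)) * (((m : ℝ) + 1) * ((n : ℝ) + 1)) :=
          mul_le_mul_of_nonneg_right hz2 (by positivity)
      _ = (m : ℝ) + 1 + ((n : ℝ) + 1) := h2
      _ ≤ 1 * (X + Y) := by linarith
  have h2 : |(X + Y - ((m : ℝ) + n + 1)) / ((X + Y) * ((m : ℝ) + n + 1))| ≤ 3 / (((m : ℝ) + 1) * ((n : ℝ) + 1)) := by
    have hmn : (0 : ℝ) < (m : ℝ) + n + 1 := by positivity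
    have hm0 : (0 : ℝ) ≤ m := Nat.cast_nonneg m
    have hn0 : (0 : ℝ) ≤ n := Nat.cast_nonneg n
    rw [abs_div, abs_of_pos (mul_pos hXYpos hmn), abs_of_nonneg (by linarith)]
    apply div_le_div₀ (by norm_num) (by linarith) (by positivity)
    nlinarith
  calc _ ≤ 1 / (((m : ℝ) + 1) * ((n : ℝ) + 1)) + 3 / (((m : ℝ) + 1) * ((n : ℝ) + 1)) := add_le_add h1 h2
    _ ≤ 5 / (((m : ℝ) + 1) * ((n : ℝ) + 1)) := by
      rw [← add_div]
      apply div_le_div_of_nonneg_right (by norm_num) (by positivity)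

end

end Pool.Agent.Helper152.Hilb
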