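import Mathlib
import Pool.Agent.Helper152.HilbH

open Filter Topology MeasureTheory FourierTransform
open scoped ContDiff Convolution

namespace Pool.Agent.Helper152.Hilb

noncomputable section

/-- building block -/
def pc (n : ℕ) (u : ℝ) : ℂ := (Ic n).indicator (fun t => ((Real.exp (t / 2) : ℝ) : ℂ)) u

/-- step function in logarithmic coordinates -/
def gg (x : ℕ → ℂ) (N : ℕ) (u : ℝ) : ℂ := ∑ n ∈ Finset.range N, x n * pc n u

theorem pc_mem {n : ℕ} {u : ℝ} (h : u ∈ Ic n) : pc n u = ((Real.exp (u / 2) : ℝ) : ℂ) := by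
  rw [pc, Set.indicator_of_mem h]

theorem pc_notMem {n : ℕ} {u : ℝ} (h : u ∉ Ic n) : pc n u = 0 := by
  rw [pc, Set.indicator_of_notMem h]

theorem pc_int (n : ℕ) : Integrable (pc n) := by
  have h : IntegrableOn (fun t : ℝ => ((Real.exp (t / 2) : ℝ) : ℂ)) (Ic n) :=
    Ic_intOn (by fun_prop) n
  exact (integrable_indicator_iff (Ic_meas n)).2 h

theorem memLp_two_of_bdd {f : ℝ → ℂ} (hf : Integrable f) {B : ℝ} (hB : ∀ x, ‖f x‖ ≤ B) : MemLp f 2 := by
  rw [memLp_two_iff_integrable_sq_norm hf.aestronglyMeasurable]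
  apply Integrable.mono' (g := fun x => B * ‖f x‖) (hf.norm.const_mul _)
  · exact (hf.aestronglyMeasurable.norm.pow 2)
  · apply Eventually.of_forall
    intro x
    rw [Real.norm_of_nonneg (by positivity), pow_two]
    exact mul_le_mul_of_nonneg_right (hB x) (norm_nonneg _)

theorem pc_memLp (n : ℕ) : MemLp (pc n) 2 := by
  apply memLp_two_of_bdd (pc_int n) (B := (n : ℝ) + 2)
  intro u
  by_cases h : u ∈ Ic n
  · obtain ⟨h1, h2⟩ := Ic_mem h
    rw [pc_mem h, Complex.norm_real, Real.norm_of_nonneg (Real.exp_pos _).le]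
    have h3 : Real.exp (u / 2) ≤ Real.exp u := by
      apply Real.exp_le_exp.2
      have : (0 : ℝ) ≤ u := by
        have h4 : Real.exp 0 ≤ Real.exp u := by
          rw [Real.exp_zero]
          have : (0 : ℝ) ≤ n := Nat.cast_nonneg n
          linarith
        exact Real.exp_le_exp.1 h4
      linarith
    linarith
  · rw [pc_notMem h, norm_zero]
    positivity

theorem gg_int (x : ℕ → ℂ) (N : ℕ) : Integrable (gg x N) :=
  integrable_finsetSum _ fun n _ => (pc_int n).const_mul (x n)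

theorem gg_memLp (x : ℕ → ℂ) (N : ℕ) : MemLp (gg x N) 2 :=
  memLp_finsetSum _ fun n _ => (pc_memLp n).const_mul (x n)

theorem gg_cell (x : ℕ → ℂ) (N : ℕ) {m : ℕ} {u : ℝ} (hu : u ∈ Ic m) :
    gg x N u = (if m < N then x m else 0) * ((Real.exp (u / 2) : ℝ) : ℂ) := by
  have hne : ∀ n, n ≠ m → pc n u = 0 := by
    intro n hn
    apply pc_notMem
    intro h
    exact Set.disjoint_left.1 (Ic_disj hn) h hu
  rw [gg]
  split_ifs with h
  · rw [Finset.sum_eq_single m, pc_mem hu]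
    · intro n _ hn
      rw [hne n hn, mul_zero]
    · intro h'
      exact absurd (Finset.mem_range.2 h) h'
  · rw [zero_mul]
    apply Finset.sum_eq_zero
    intro n hn
    rw [hne n, mul_zero]
    intro h'
    rw [h'] at hn
    exact h (Finset.mem_range.1 hn)

theorem gg_neg (x : ℕ → ℂ) (N : ℕ) {u : ℝ} (hu : u < 0) : gg x N u = 0 := by
  apply Finset.sum_eq_zero
  intro n _
  rw [pc_notMem, mul_zero]
  intro h
  have h1 : u ∈ ⋃ n, Ic n := Set.mem_iUnion.2 ⟨n, h⟩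
  rw [Ic_union] at h1
  exact absurd h1 (not_le.2 hu)

/-- inner integral -/
def ka (a : ℝ) (n : ℕ) (u : ℝ) : ℝ := ∫ t in Ic n, Kr a u t * Real.exp t

theorem Kr_cont (a u : ℝ) : Continuous fun t => Kr a u t * Real.exp t := by
  unfold Kr
  apply Continuous.mul _ Real.continuous_exp
  apply Continuous.div (by fun_prop) (by fun_prop)
  intro t
  positivity

theorem cc_cont (w : ℂ) : Continuous (cc w) := by
  unfold cc
  apply Continuous.div (by fun_prop) (by fun_prop)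
  intro t
  rw [Complex.ofReal_ne_zero]
  have := Real.cosh_pos (t / 2)
  positivity

theorem cc_bound {a : ℝ} (ha : |a| < 1) (u : ℝ) : ‖cc ((a / 2 : ℝ) : ℂ) u‖ ≤ 1 := by
  have h1 : cc ((a / 2 : ℝ) : ℂ) u = ((Real.exp (a / 2 * u) / (2 * Real.cosh (u / 2)) : ℝ) : ℂ) := by
    rw [cc]
    push_cast
    rfl
  have h2 := Real.cosh_pos (u / 2)
  rw [h1, Complex.norm_real, Real.norm_of_nonneg (by positivity), div_le_one (by positivity)]
  have h3 : a / 2 * u ≤ |u| / 2 := by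
    calc a / 2 * u ≤ |a / 2 * u| := le_abs_self _
      _ = |a| / 2 * |u| := by rw [abs_mul, abs_div, abs_two]
      _ ≤ |u| / 2 := by nlinarith [abs_nonneg u]
  refine (Real.exp_le_exp.2 h3).trans ?_
  rw [← Real.cosh_abs, abs_div, abs_two, Real.cosh_eq]
  linarith [Real.exp_pos (-(|u| / 2))]

theorem conv_gg (a : ℝ) (x : ℕ → ℂ) (N : ℕ) (u : ℝ) :
    ((cc ((a / 2 : ℝ) : ℂ)) ⋆[ContinuousLinearMap.mul ℂ ℂ] (gg x N)) u =
      ∑ n ∈ Finset.range N, x n * ((Real.exp (u / 2) * ka a n u : ℝ) : ℂ) := by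
  rw [convolution_eq_swap]
  simp only [ContinuousLinearMap.mul_apply']
  have e1 : ∀ t, cc ((a / 2 : ℝ) : ℂ) (u - t) * gg x N t =
      ∑ n ∈ Finset.range N, x n * (Ic n).indicator
        (fun t => ((Real.exp (u / 2) * (Kr a u t * Real.exp t) : ℝ) : ℂ)) t := by
    intro t
    rw [gg, Finset.mul_sum]
    apply Finset.sum_congr rfl
    intro n _
    by_cases h : t ∈ Ic n
    · rw [pc_mem h, Set.indicator_of_mem h, ← cc_shift]
      ring
    · rw [pc_notMem h, Set.indicator_of_notMem h]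
      ring
  simp_rw [e1]
  have hI : ∀ n, IntegrableOn (fun t => ((Real.exp (u / 2) * (Kr a u t * Real.exp t) : ℝ) : ℂ)) (Ic n) := by
    intro n
    apply Ic_intOn
    exact Complex.continuous_ofReal.comp (continuous_const.mul (Kr_cont a u))
  rw [integral_finsetSum]
  · apply Finset.sum_congr rfl
    intro n _
    rw [integral_const_mul, integral_indicator (Ic_meas n), integral_complex_ofReal,
      integral_const_mul, ka]
  · intro n _
    exact ((integrable_indicator_iff (Ic_meas n)).2 (hI n)).const_mul _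

theorem ka_neg {a : ℝ} (ha : 0 ≤ a) (n : ℕ) (u : ℝ) :
    |ka a n u| ≤ Real.exp (a / 2 * u) * ((n : ℝ) + 1) ^ (-(a / 2) - 1) := by
  have h0 : 0 ≤ ka a n u := by
    apply setIntegral_nonneg (Ic_meas n)
    intro t _
    unfold Kr
    positivity
  rw [abs_of_nonneg h0, ka]
  calc ∫ t in Ic n, Kr a u t * Real.exp t
      ≤ ∫ t in Ic n, (Real.exp (a / 2 * u) * ((n : ℝ) + 1) ^ (-(a / 2) - 1)) * Real.exp t := by
        apply setIntegral_mono_on (Ic_intOnR (Kr_cont a u) n) (Ic_intOnR (by fun_prop) n) (Ic_meas n)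
        intro t ht
        exact mul_le_mul_of_nonneg_right (Kr_neg ha ht) (Real.exp_pos _).le
    _ = _ := by rw [integral_const_mul, Ic_int, mul_one]

theorem ka_close {a : ℝ} (ha : 0 ≤ a) (ha1 : a < 1) {m n : ℕ} {u : ℝ} (hu : u ∈ Ic m) :
    |ka a n u - Real.exp (a / 2 * ll m n) / ((m : ℝ) + n + 1)| ≤
      5 * (((m : ℝ) + 1) ^ (a / 2 - 1) * ((n : ℝ) + 1) ^ (-(a / 2) - 1)) := by
  have e1 : ka a n u - Real.exp (a / 2 * ll m n) / ((m : ℝ) + n + 1) =
      ∫ t in Ic n, (Kr a u t - Real.exp (a / 2 * ll m n) / ((m : ℝ) + n + 1)) * Real.exp t := by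
    simp_rw [sub_mul]
    rw [integral_sub (Ic_intOnR (Kr_cont a u) n) (Ic_intOnR (by fun_prop) n), integral_const_mul,
      Ic_int, mul_one, ka]
  rw [e1, ← Real.norm_eq_abs]
  calc ‖∫ t in Ic n, (Kr a u t - Real.exp (a / 2 * ll m n) / ((m : ℝ) + n + 1)) * Real.exp t‖
      ≤ ∫ t in Ic n, ‖(Kr a u t - Real.exp (a / 2 * ll m n) / ((m : ℝ) + n + 1)) * Real.exp t‖ :=
        norm_integral_le_integral_norm _
    _ ≤ ∫ t in Ic n, (5 * (((m : ℝ) + 1) ^ (a / 2 - 1) * ((n : ℝ) + 1) ^ (-(a / 2) - 1))) * Real.exp t := by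
        apply setIntegral_mono_on _ (Ic_intOnR (by fun_prop) n) (Ic_meas n)
        · intro t ht
          rw [norm_mul, Real.norm_eq_abs, Real.norm_of_nonneg (Real.exp_pos _).le]
          exact mul_le_mul_of_nonneg_right (Kr_close ha ha1 hu ht) (Real.exp_pos _).le
        · apply Integrable.norm
          simp_rw [sub_mul]
          exact (Ic_intOnR (Kr_cont a u) n).sub (Ic_intOnR (by fun_prop) n)
    _ = _ := by rw [integral_const_mul, Ic_int, mul_one]

/-- weight functional -/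
def rho (a : ℝ) (x : ℕ → ℂ) (N : ℕ) : ℝ := ∑ n ∈ Finset.range N, ((n : ℝ) + 1) ^ (-(a / 2) - 1) * ‖x n‖

theorem rho_nonneg (a : ℝ) (x : ℕ → ℂ) (N : ℕ) : 0 ≤ rho a x N :=
  Finset.sum_nonneg fun n _ => by positivity

/-- the finite matrix action -/
def yy (a : ℝ) (l : ℂ) (x : ℕ → ℂ) (N m : ℕ) : ℂ :=
  (∑ n ∈ Finset.range N, kA a m n * x n) - l * (if m < N then x m else 0)

theorem G_neg {a : ℝ} (ha : 0 ≤ a) (l : ℂ) (x : ℕ → ℂ) (N : ℕ) {u : ℝ} (hu : u < 0) :
    ‖((cc ((a / 2 : ℝ) : ℂ)) ⋆[ContinuousLinearMap.mul ℂ ℂ] (gg x N)) u - l * gg x N u‖ ≤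
      Real.exp (u / 2) * rho a x N := by
  rw [gg_neg x N hu, mul_zero, sub_zero, conv_gg]
  refine (norm_sum_le _ _).trans ?_
  rw [rho, Finset.mul_sum]
  apply Finset.sum_le_sum
  intro n _
  rw [norm_mul, Complex.norm_real, Real.norm_eq_abs, abs_mul, abs_of_pos (Real.exp_pos _)]
  have h1 := ka_neg ha n u
  have h2 : Real.exp (a / 2 * u) ≤ 1 := by
    rw [Real.exp_le_one_iff]
    nlinarith
  have h3 : (0 : ℝ) ≤ ((n : ℝ) + 1) ^ (-(a / 2) - 1) := by positivity
  have h4 : |ka a n u| ≤ ((n : ℝ) + 1) ^ (-(a / 2) - 1) := h1.trans (by nlinarith)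
  calc ‖x n‖ * (Real.exp (u / 2) * |ka a n u|) ≤ ‖x n‖ * (Real.exp (u / 2) * ((n : ℝ) + 1) ^ (-(a / 2) - 1)) := by
        apply mul_le_mul_of_nonneg_left _ (norm_nonneg _)
        exact mul_le_mul_of_nonneg_left h4 (Real.exp_pos _).le
    _ = _ := by ring

theorem G_cell {a : ℝ} (ha : 0 ≤ a) (ha1 : a < 1) (l : ℂ) (x : ℕ → ℂ) (N : ℕ) {m : ℕ} {u : ℝ} (hu : u ∈ Ic m) :
    ‖((cc ((a / 2 : ℝ) : ℂ)) ⋆[ContinuousLinearMap.mul ℂ ℂ] (gg x N)) u - l * gg x N u‖ ≤
      Real.exp (u / 2) * (‖yy a l x N m‖ + 5 * ((m : ℝ) + 1) ^ (a / 2 - 1) * rho a x N) := by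
  rw [gg_cell x N hu, conv_gg]
  have e1 : ∑ n ∈ Finset.range N, x n * ((Real.exp (u / 2) * ka a n u : ℝ) : ℂ) -
      l * ((if m < N then x m else 0) * ((Real.exp (u / 2) : ℝ) : ℂ)) =
      ((Real.exp (u / 2) : ℝ) : ℂ) * (yy a l x N m +
        ∑ n ∈ Finset.range N, x n * ((ka a n u - Real.exp (a / 2 * ll m n) / ((m : ℝ) + n + 1) : ℝ) : ℂ)) := by
    rw [yy, mul_add, mul_sub, Finset.mul_sum, Finset.mul_sum]
    have e2 : ∑ n ∈ Finset.range N, x n * ((Real.exp (u / 2) * ka a n u : ℝ) : ℂ) =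
        ∑ n ∈ Finset.range N, ((Real.exp (u / 2) : ℝ) : ℂ) * (kA a m n * x n) +
        ∑ n ∈ Finset.range N, ((Real.exp (u / 2) : ℝ) : ℂ) * (x n *
          ((ka a n u - Real.exp (a / 2 * ll m n) / ((m : ℝ) + n + 1) : ℝ) : ℂ)) := by
      rw [← Finset.sum_add_distrib]
      apply Finset.sum_congr rfl
      intro n _
      rw [kA]
      push_cast
      ring
    rw [e2]
    ring
  rw [e1, norm_mul, Complex.norm_real, Real.norm_of_nonneg (Real.exp_pos _).le]
  apply mul_le_mul_of_nonneg_left _ (Real.exp_pos _).le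
  refine (norm_add_le _ _).trans ?_
  apply add_le_add le_rfl
  refine (norm_sum_le _ _).trans ?_
  rw [rho, Finset.mul_sum]
  apply Finset.sum_le_sum
  intro n _
  rw [norm_mul, Complex.norm_real, Real.norm_eq_abs]
  calc ‖x n‖ * |ka a n u - Real.exp (a / 2 * ll m n) / ((m : ℝ) + n + 1)| ≤
      ‖x n‖ * (5 * (((m : ℝ) + 1) ^ (a / 2 - 1) * ((n : ℝ) + 1) ^ (-(a / 2) - 1))) :=
        mul_le_mul_of_nonneg_left (ka_close ha ha1 hu) (norm_nonneg _)
    _ = _ := by ring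

end

end Pool.Agent.Helper152.Hilb
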