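import Mathlib
import Pool.Agent.Helper152.HilbI

open Filter Topology MeasureTheory FourierTransform
open scoped ContDiff Convolution

namespace Pool.Agent.Helper152.Hilb

noncomputable section

theorem cell_exp_sq (n : ℕ) : ∫ u in Ic n, Real.exp (u / 2) ^ 2 = 1 := by
  rw [← Ic_int n]
  congr 1
  funext u
  rw [pow_two, ← Real.exp_add]
  congr 1
  ring

theorem gg_sq_lower (x : ℕ → ℂ) (N : ℕ) : ∑ n ∈ Finset.range N, ‖x n‖ ^ 2 ≤ ∫ u, ‖gg x N u‖ ^ 2 := by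
  have hint : Integrable fun u => ‖gg x N u‖ ^ 2 :=
    (memLp_two_iff_integrable_sq_norm (gg_memLp x N).1).1 (gg_memLp x N)
  have h1 : ∫ u in (⋃ n, Ic n), ‖gg x N u‖ ^ 2 ≤ ∫ u, ‖gg x N u‖ ^ 2 :=
    setIntegral_le_integral hint (Eventually.of_forall fun u => by positivity)
  have h2 := hasSum_integral_iUnion (f := fun u => ‖gg x N u‖ ^ 2) Ic_meas Ic_disj hint.integrableOn
  have h3 : ∀ m, ∫ u in Ic m, ‖gg x N u‖ ^ 2 = ‖(if m < N then x m else 0)‖ ^ 2 := by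
    intro m
    have e : ∫ u in Ic m, ‖gg x N u‖ ^ 2 = ∫ u in Ic m, ‖(if m < N then x m else 0)‖ ^ 2 * Real.exp (u / 2) ^ 2 := by
      apply setIntegral_congr_fun (Ic_meas m)
      intro u hu
      simp only
      rw [gg_cell x N hu, norm_mul, Complex.norm_real, Real.norm_of_nonneg (Real.exp_pos _).le, mul_pow]
    rw [e, integral_const_mul, cell_exp_sq, mul_one]
  refine le_trans ?_ h1
  refine le_trans (le_of_eq ?_) (sum_le_hasSum (Finset.range N) (fun m _ => ?_) h2)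
  · apply Finset.sum_congr rfl
    intro m hm
    rw [h3, if_pos (Finset.mem_range.1 hm)]
  · rw [h3]
    positivity

theorem summable_w {a : ℝ} (ha1 : a < 1) : Summable fun m : ℕ => (((m : ℝ) + 1) ^ (a / 2 - 1)) ^ 2 := by
  have h := (summable_shift (2 * (a / 2 - 1))).2 (by linarith)
  apply h.congr
  intro m
  rw [rpow_sq _ _ (by positivity)]

theorem G_upper {a : ℝ} (ha : 0 ≤ a) (ha1 : a < 1) (l : ℂ) (x : ℕ → ℂ) (N : ℕ)
    (hG : MemLp (fun u => ((cc ((a / 2 : ℝ) : ℂ)) ⋆[ContinuousLinearMap.mul ℂ ℂ] (gg x N)) u - l * gg x N u) 2)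
    (hy : Summable fun m => ‖yy a l x N m‖ ^ 2) :
    ∫ u, ‖((cc ((a / 2 : ℝ) : ℂ)) ⋆[ContinuousLinearMap.mul ℂ ℂ] (gg x N)) u - l * gg x N u‖ ^ 2 ≤
      2 * ∑' m, ‖yy a l x N m‖ ^ 2 + (1 + 50 * ∑' m : ℕ, (((m : ℝ) + 1) ^ (a / 2 - 1)) ^ 2) * rho a x N ^ 2 := by
  set G : ℝ → ℂ := fun u => ((cc ((a / 2 : ℝ) : ℂ)) ⋆[ContinuousLinearMap.mul ℂ ℂ] (gg x N)) u - l * gg x N u with hGdef
  have hint : Integrable fun u => ‖G u‖ ^ 2 := (memLp_two_iff_integrable_sq_norm hG.1).1 hG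
  have hρ := rho_nonneg a x N
  have hsplit : ∫ u, ‖G u‖ ^ 2 = (∫ u in Set.Ici 0, ‖G u‖ ^ 2) + ∫ u in (Set.Ici 0)ᶜ, ‖G u‖ ^ 2 :=
    (integral_add_compl measurableSet_Ici hint).symm
  have hneg : ∫ u in (Set.Ici (0 : ℝ))ᶜ, ‖G u‖ ^ 2 ≤ rho a x N ^ 2 := by
    rw [Set.compl_Ici]
    have hI : IntegrableOn (fun u : ℝ => rho a x N ^ 2 * Real.exp u) (Set.Iio 0) := by
      apply Integrable.const_mul
      exact (integrableOn_exp_Iic 0).mono_set Set.Iio_subset_Iic_self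
    calc ∫ u in Set.Iio (0 : ℝ), ‖G u‖ ^ 2 ≤ ∫ u in Set.Iio (0 : ℝ), rho a x N ^ 2 * Real.exp u := by
          apply setIntegral_mono_on hint.integrableOn hI measurableSet_Iio
          intro u hu
          have h1 := G_neg ha l x N hu
          have h2 : ‖G u‖ ^ 2 ≤ (Real.exp (u / 2) * rho a x N) ^ 2 := pow_le_pow_left₀ (norm_nonneg _) h1 2
          refine h2.trans (le_of_eq ?_)
          rw [mul_pow, pow_two (Real.exp _), ← Real.exp_add, mul_comm]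
          congr 2
          ring
      _ = rho a x N ^ 2 := by
          rw [integral_const_mul, ← integral_Iic_eq_integral_Iio, integral_exp_Iic, Real.exp_zero, mul_one]
  have hpos : ∫ u in Set.Ici (0 : ℝ), ‖G u‖ ^ 2 ≤ 2 * ∑' m, ‖yy a l x N m‖ ^ 2 +
      (50 * ∑' m : ℕ, (((m : ℝ) + 1) ^ (a / 2 - 1)) ^ 2) * rho a x N ^ 2 := by
    rw [← Ic_union]
    have h2 := hasSum_integral_iUnion (f := fun u => ‖G u‖ ^ 2) Ic_meas Ic_disj hint.integrableOn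
    have h3 : HasSum (fun m : ℕ => 2 * ‖yy a l x N m‖ ^ 2 + (50 * (((m : ℝ) + 1) ^ (a / 2 - 1)) ^ 2) * rho a x N ^ 2)
        (2 * ∑' m, ‖yy a l x N m‖ ^ 2 + (50 * ∑' m : ℕ, (((m : ℝ) + 1) ^ (a / 2 - 1)) ^ 2) * rho a x N ^ 2) := by
      apply HasSum.add
      · exact hy.hasSum.mul_left 2
      · exact ((summable_w ha1).hasSum.mul_left 50).mul_right _
    apply hasSum_le _ h2 h3
    intro m
    set B : ℝ := ‖yy a l x N m‖ + 5 * ((m : ℝ) + 1) ^ (a / 2 - 1) * rho a x N with hB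
    have hB0 : 0 ≤ B := by positivity
    have h4 : ∫ u in Ic m, ‖G u‖ ^ 2 ≤ B ^ 2 := by
      calc ∫ u in Ic m, ‖G u‖ ^ 2 ≤ ∫ u in Ic m, B ^ 2 * Real.exp (u / 2) ^ 2 := by
            apply setIntegral_mono_on hint.integrableOn (Ic_intOnR (by fun_prop) m) (Ic_meas m)
            intro u hu
            have h1 := G_cell ha ha1 l x N hu
            have h2 : ‖G u‖ ^ 2 ≤ (Real.exp (u / 2) * B) ^ 2 := pow_le_pow_left₀ (norm_nonneg _) h1 2
            refine h2.trans (le_of_eq ?_)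
            ring
        _ = B ^ 2 := by rw [integral_const_mul, cell_exp_sq, mul_one]
    refine h4.trans ?_
    rw [hB]
    nlinarith [sq_nonneg (‖yy a l x N m‖ - 5 * ((m : ℝ) + 1) ^ (a / 2 - 1) * rho a x N)]
  rw [hsplit]
  linarith

theorem yy_eq {a : ℝ} (ha : |a| < 1) (l : ℂ) (x : E) (N m : ℕ) :
    yy a l x N m = (opA a (tr x N) - l • tr x N) m := by
  rw [lp.coeFn_sub, Pi.sub_apply, lp.coeFn_smul, Pi.smul_apply, smul_eq_mul, tr_apply, yy]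
  congr 1
  refine HasSum.unique ?_ (opA_hasSum ha (tr x N) m)
  have e : ∑ n ∈ Finset.range N, kA a m n * x n = ∑ n ∈ Finset.range N, kA a m n * tr x N n := by
    apply Finset.sum_congr rfl
    intro n hn
    rw [tr_apply, if_pos (Finset.mem_range.1 hn)]
  rw [e]
  apply hasSum_sum_of_ne_finset_zero
  intro n hn
  rw [tr_apply, if_neg (by simpa using hn), mul_zero]

/-- finite version of the main inequality -/
theorem main_ineq_tr {a : ℝ} (ha : 0 ≤ a) (ha1 : a < 1) {l : ℂ} (hl0 : l ≠ 0)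
    (hl : ∀ z : ℂ, z.re = a / 2 → l ≠ Real.pi / Complex.cos (Real.pi * z)) :
    ∃ δ C : ℝ, 0 < δ ∧ 0 ≤ C ∧ ∀ (x : E) (N : ℕ),
      δ * ∑ n ∈ Finset.range N, ‖x n‖ ^ 2 ≤ 2 * ‖opA a (tr x N) - l • tr x N‖ ^ 2 + C * rho a x N ^ 2 := by
  have ha' : |a| < 1 := by rwa [abs_of_nonneg ha]
  obtain ⟨δ, hδ, hsym⟩ := symbol_lower ha' hl0 hl
  refine ⟨δ ^ 2, 1 + 50 * ∑' m : ℕ, (((m : ℝ) + 1) ^ (a / 2 - 1)) ^ 2, by positivity, ?_, fun x N => ?_⟩
  · have : 0 ≤ ∑' m : ℕ, (((m : ℝ) + 1) ^ (a / 2 - 1)) ^ 2 := tsum_nonneg fun m => by positivity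
    positivity
  · have hint : Integrable (cc ((a / 2 : ℝ) : ℂ)) := cc_integrable (by
      rw [Complex.ofReal_re, abs_div, abs_two]; linarith)
    obtain ⟨h1, h2⟩ := conv_lower hint (cc_bound ha') (cc_cont _) (gg_int x N) (gg_memLp x N) hδ.le hsym
    have hy : Summable fun m => ‖yy a l x N m‖ ^ 2 := by
      simp_rw [yy_eq ha']
      exact summable_sq _
    have h3 := G_upper ha ha1 l x N h1 hy
    have h4 : ∑' m, ‖yy a l x N m‖ ^ 2 = ‖opA a (tr x N) - l • tr x N‖ ^ 2 := by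
      simp_rw [yy_eq ha']
      exact (norm_sq_eq _).symm
    rw [h4] at h3
    calc δ ^ 2 * ∑ n ∈ Finset.range N, ‖x n‖ ^ 2 ≤ δ ^ 2 * ∫ u, ‖gg x N u‖ ^ 2 :=
          mul_le_mul_of_nonneg_left (gg_sq_lower x N) (by positivity)
      _ ≤ _ := h2.trans h3

theorem rho_summable {a : ℝ} (ha : 0 ≤ a) (x : E) :
    Summable fun n : ℕ => ((n : ℝ) + 1) ^ (-(a / 2) - 1) * ‖x n‖ := by
  have h1 : Summable fun n : ℕ => (((n : ℝ) + 1) ^ (-(a / 2) - 1)) ^ 2 := by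
    have h := (summable_shift (2 * (-(a / 2) - 1))).2 (by linarith)
    apply h.congr
    intro m
    rw [rpow_sq _ _ (by positivity)]
  apply Summable.of_nonneg_of_le (fun n => by positivity) _ ((h1.add (summable_sq x)))
  intro n
  nlinarith [sq_nonneg (((n : ℝ) + 1) ^ (-(a / 2) - 1) - ‖x n‖), sq_nonneg (((n : ℝ) + 1) ^ (-(a / 2) - 1)),
    sq_nonneg (‖x n‖)]

theorem main_ineq {a : ℝ} (ha : 0 ≤ a) (ha1 : a < 1) {l : ℂ} (hl0 : l ≠ 0)
    (hl : ∀ z : ℂ, z.re = a / 2 → l ≠ Real.pi / Complex.cos (Real.pi * z)) :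
    ∃ δ C : ℝ, 0 < δ ∧ 0 ≤ C ∧ ∀ (x : E),
      δ * ‖x‖ ^ 2 ≤ 2 * ‖opA a x - l • x‖ ^ 2 + C * (∑' n : ℕ, ((n : ℝ) + 1) ^ (-(a / 2) - 1) * ‖x n‖) ^ 2 := by
  obtain ⟨δ, C, hδ, hC, h⟩ := main_ineq_tr ha ha1 hl0 hl
  refine ⟨δ, C, hδ, hC, fun x => ?_⟩
  have h1 : Tendsto (fun N => δ * ∑ n ∈ Finset.range N, ‖x n‖ ^ 2) atTop (𝓝 (δ * ‖x‖ ^ 2)) := by
    rw [norm_sq_eq]
    exact ((summable_sq x).hasSum.tendsto_sum_nat).const_mul δ
  have h2 : Tendsto (fun N => 2 * ‖opA a (tr x N) - l • tr x N‖ ^ 2 + C * rho a x N ^ 2) atTop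
      (𝓝 (2 * ‖opA a x - l • x‖ ^ 2 + C * (∑' n : ℕ, ((n : ℝ) + 1) ^ (-(a / 2) - 1) * ‖x n‖) ^ 2)) := by
    apply Tendsto.add
    · apply Tendsto.const_mul
      apply Tendsto.pow
      apply Tendsto.norm
      apply Tendsto.sub
      · exact ((opA a).continuous.tendsto x).comp (tr_tendsto x)
      · exact (tr_tendsto x).const_smul l
    · apply Tendsto.const_mul
      apply Tendsto.pow
      exact (rho_summable ha x).hasSum.tendsto_sum_nat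
  exact le_of_tendsto_of_tendsto' h1 h2 (h x)

end

end Pool.Agent.Helper152.Hilb
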