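import Mathlib
import Pool.Agent.Helper152.HilbJ

open Filter Topology MeasureTheory

namespace Pool.Agent.Helper152.Hilb

noncomputable section

/-- tail estimate -/
theorem rho_tail {a : ℝ} (ha : 0 ≤ a) {ε : ℝ} (hε : 0 < ε) : ∃ M : ℕ, ∀ x : E,
    (∑' n : ℕ, ((n : ℝ) + 1) ^ (-(a / 2) - 1) * ‖x n‖) ≤ rho a x M + ε * ‖x‖ := by
  have h1 : Summable fun n : ℕ => (((n : ℝ) + 1) ^ (-(a / 2) - 1)) ^ 2 := by
    have h := (summable_shift (2 * (-(a / 2) - 1))).2 (by linarith)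
    apply h.congr
    intro m
    rw [rpow_sq _ _ (by positivity)]
  have h2 := h1.hasSum.tendsto_sum_nat
  set S := ∑' n : ℕ, (((n : ℝ) + 1) ^ (-(a / 2) - 1)) ^ 2 with hS
  have h3 : ∀ᶠ M in atTop, S - ε ^ 2 < ∑ n ∈ Finset.range M, (((n : ℝ) + 1) ^ (-(a / 2) - 1)) ^ 2 :=
    h2.eventually (lt_mem_nhds (by linarith [pow_pos hε 2]))
  obtain ⟨M, hM⟩ := h3.exists
  refine ⟨M, fun x => ?_⟩
  apply le_of_tendsto (rho_summable ha x).hasSum.tendsto_sum_nat
  filter_upwards [eventually_ge_atTop M] with N hN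
  have hsplit : ∀ f : ℕ → ℝ, ∑ n ∈ Finset.range N, f n = ∑ n ∈ Finset.range M, f n + ∑ n ∈ Finset.Ico M N, f n := by
    intro f
    rw [Finset.range_eq_Ico, Finset.range_eq_Ico, Finset.sum_Ico_consecutive f (Nat.zero_le M) hN]
  rw [hsplit, rho]
  apply add_le_add le_rfl
  have h4 := Finset.sum_mul_sq_le_sq_mul_sq (Finset.Ico M N) (fun n : ℕ => ((n : ℝ) + 1) ^ (-(a / 2) - 1))
    (fun n => ‖x n‖)
  have h5 : ∑ n ∈ Finset.Ico M N, (((n : ℝ) + 1) ^ (-(a / 2) - 1)) ^ 2 ≤ ε ^ 2 := by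
    have h6 := h1.sum_le_tsum (Finset.range N) (fun n _ => by positivity)
    rw [hsplit] at h6
    linarith
  have h6 := sum_sq_le x (Finset.Ico M N)
  have h7 : (∑ n ∈ Finset.Ico M N, ((n : ℝ) + 1) ^ (-(a / 2) - 1) * ‖x n‖) ^ 2 ≤ (ε * ‖x‖) ^ 2 := by
    refine h4.trans ?_
    rw [mul_pow]
    apply mul_le_mul h5 h6 (Finset.sum_nonneg fun n _ => by positivity) (by positivity)
  exact (abs_le_of_sq_le_sq' h7 (by positivity)).2

/-- restriction to the first coordinates -/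
def rs (M : ℕ) (x : E) : Fin M → ℂ := fun i => x i

theorem rho_le_rs {a : ℝ} (M : ℕ) : ∃ K : ℝ, 0 ≤ K ∧ ∀ x : E, rho a x M ≤ K * ‖rs M x‖ := by
  refine ⟨∑ n ∈ Finset.range M, ((n : ℝ) + 1) ^ (-(a / 2) - 1), Finset.sum_nonneg fun n _ => by positivity,
    fun x => ?_⟩
  rw [rho, Finset.sum_mul]
  apply Finset.sum_le_sum
  intro n hn
  apply mul_le_mul_of_nonneg_left _ (by positivity)
  exact norm_le_pi_norm (rs M x) ⟨n, Finset.mem_range.1 hn⟩

theorem bounded_below {a : ℝ} (ha : 0 ≤ a) (ha1 : a < 1) {l : ℂ} (hl0 : l ≠ 0)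
    (hl : ∀ z : ℂ, z.re = a / 2 → l ≠ Real.pi / Complex.cos (Real.pi * z))
    (hinj : ∀ x : E, opA a x - l • x = 0 → x = 0) :
    ∃ c : ℝ, 0 < c ∧ ∀ x : E, c * ‖x‖ ≤ ‖opA a x - l • x‖ := by
  obtain ⟨δ, C, hδ, hC, h⟩ := main_ineq ha ha1 hl0 hl
  -- absorb the tail
  obtain ⟨M, hM⟩ := rho_tail ha (ε := Real.sqrt (δ / (4 * (C + 1)))) (by positivity)
  obtain ⟨K, hK, hKx⟩ := rho_le_rs (a := a) M
  set T : E →L[ℂ] E := opA a - l • (1 : E →L[ℂ] E) with hT
  have hTx : ∀ x, T x = opA a x - l • x := fun x => by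
    simp [hT]
  have key : ∀ x : E, δ / 2 * ‖x‖ ^ 2 ≤ 2 * ‖T x‖ ^ 2 + 2 * C * K ^ 2 * ‖rs M x‖ ^ 2 := by
    intro x
    have h1 := h x
    have h2 := hM x
    have h3 := hKx x
    rw [hTx]
    set R := ∑' n : ℕ, ((n : ℝ) + 1) ^ (-(a / 2) - 1) * ‖x n‖ with hR
    have hR0 : 0 ≤ R := tsum_nonneg fun n => by positivity
    have h4 : R ≤ K * ‖rs M x‖ + Real.sqrt (δ / (4 * (C + 1))) * ‖x‖ := by linarith
    have h5 : R ^ 2 ≤ 2 * (K * ‖rs M x‖) ^ 2 + 2 * (δ / (4 * (C + 1))) * ‖x‖ ^ 2 := by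
      have h6 : R ^ 2 ≤ (K * ‖rs M x‖ + Real.sqrt (δ / (4 * (C + 1))) * ‖x‖) ^ 2 :=
        pow_le_pow_left₀ hR0 h4 2
      have h7 : Real.sqrt (δ / (4 * (C + 1))) ^ 2 = δ / (4 * (C + 1)) := Real.sq_sqrt (by positivity)
      have h8 : (K * ‖rs M x‖ + Real.sqrt (δ / (4 * (C + 1))) * ‖x‖) ^ 2 ≤
          2 * (K * ‖rs M x‖) ^ 2 + 2 * (Real.sqrt (δ / (4 * (C + 1))) * ‖x‖) ^ 2 := by
        nlinarith [sq_nonneg (K * ‖rs M x‖ - Real.sqrt (δ / (4 * (C + 1))) * ‖x‖)]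
      rw [mul_pow (Real.sqrt _), h7] at h8
      linarith
    have h9 : C * (2 * (δ / (4 * (C + 1))) * ‖x‖ ^ 2) ≤ δ / 2 * ‖x‖ ^ 2 := by
      have : C * (2 * (δ / (4 * (C + 1)))) ≤ δ / 2 := by
        rw [show C * (2 * (δ / (4 * (C + 1)))) = (δ / 2) * (C / (C + 1)) by field_simp; ring]
        have : C / (C + 1) ≤ 1 := by
          rw [div_le_one (by positivity)]
          linarith
        nlinarith
      nlinarith [sq_nonneg ‖x‖]
    have h10 := mul_le_mul_of_nonneg_left h5 hC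
    nlinarith
  by_contra hcon
  push Not at hcon
  -- unit vectors with small image
  have hseq : ∀ k : ℕ, ∃ y : E, ‖y‖ = 1 ∧ ‖T y‖ < 1 / ((k : ℝ) + 1) := by
    intro k
    obtain ⟨x, hx⟩ := hcon (1 / ((k : ℝ) + 1)) (by positivity)
    rw [← hTx] at hx
    have hx0 : 0 < ‖x‖ := by
      rcases (norm_nonneg x).eq_or_lt with h0 | h0
      · rw [← h0, mul_zero] at hx
        exact absurd hx (not_lt.2 (norm_nonneg _))
      · exact h0
    refine ⟨((‖x‖⁻¹ : ℝ) : ℂ) • x, ?_, ?_⟩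
    · rw [norm_smul, Complex.norm_real, norm_inv, norm_norm, inv_mul_cancel₀ hx0.ne']
    · rw [map_smul, norm_smul, Complex.norm_real, norm_inv, norm_norm, inv_mul_lt_iff₀ hx0, mul_comm]
      exact hx
  choose y hy1 hy2 using hseq
  have hbd : ∀ k, rs M (y k) ∈ Metric.closedBall (0 : Fin M → ℂ) 1 := by
    intro k
    rw [mem_closedBall_zero_iff, pi_norm_le_iff_of_nonneg zero_le_one]
    intro i
    have h1 := lp.norm_apply_le_norm (p := 2) (by norm_num) (y k) i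
    rw [hy1 k] at h1
    exact h1
  obtain ⟨v, _, φ, hφ, hv⟩ := (isCompact_closedBall (0 : Fin M → ℂ) 1).tendsto_subseq hbd
  have hT0 : Tendsto (fun k => ‖T (y (φ k))‖) atTop (𝓝 0) := by
    apply squeeze_zero (fun k => norm_nonneg _) (fun k => (hy2 (φ k)).le)
    exact tendsto_one_div_add_atTop_nhds_zero_nat.comp hφ.tendsto_atTop
  have hcauchy : CauchySeq (fun k => y (φ k)) := by
    rw [cauchySeq_iff_tendsto_dist_atTop_0]
    have hrs := (cauchySeq_iff_tendsto_dist_atTop_0.1 hv.cauchySeq)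
    have hfst : Tendsto (fun p : ℕ × ℕ => ‖T (y (φ p.1))‖) atTop (𝓝 0) := by
      rw [← prod_atTop_atTop_eq]
      exact hT0.comp tendsto_fst
    have hsnd : Tendsto (fun p : ℕ × ℕ => ‖T (y (φ p.2))‖) atTop (𝓝 0) := by
      rw [← prod_atTop_atTop_eq]
      exact hT0.comp tendsto_snd
    have hlim : Tendsto (fun p : ℕ × ℕ => Real.sqrt ((2 / δ) * (2 * (‖T (y (φ p.1))‖ + ‖T (y (φ p.2))‖) ^ 2 +
        2 * C * K ^ 2 * (dist (rs M (y (φ p.1))) (rs M (y (φ p.2)))) ^ 2))) atTop (𝓝 0) := by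
      have h1 := (((hfst.add hsnd).pow 2).const_mul 2).add ((hrs.pow 2).const_mul (2 * C * K ^ 2))
      have h2 := (h1.const_mul (2 / δ)).sqrt
      simpa using h2
    apply squeeze_zero (fun p => dist_nonneg) _ hlim
    intro p
    apply Real.le_sqrt_of_sq_le
    have h1 := key (y (φ p.1) - y (φ p.2))
    have h2 : ‖T (y (φ p.1) - y (φ p.2))‖ ≤ ‖T (y (φ p.1))‖ + ‖T (y (φ p.2))‖ := by
      rw [map_sub]
      exact norm_sub_le _ _
    have h3 : ‖rs M (y (φ p.1) - y (φ p.2))‖ = dist (rs M (y (φ p.1))) (rs M (y (φ p.2))) := by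
      rw [dist_eq_norm]
      rfl
    rw [dist_eq_norm]
    have h4 : ‖T (y (φ p.1) - y (φ p.2))‖ ^ 2 ≤ (‖T (y (φ p.1))‖ + ‖T (y (φ p.2))‖) ^ 2 :=
      pow_le_pow_left₀ (norm_nonneg _) h2 2
    rw [h3] at h1
    have h5 : ‖y (φ p.1) - y (φ p.2)‖ ^ 2 = (2 / δ) * (δ / 2 * ‖y (φ p.1) - y (φ p.2)‖ ^ 2) := by
      field_simp
    rw [h5]
    apply mul_le_mul_of_nonneg_left _ (by positivity)
    linarith
  obtain ⟨z, hz⟩ := cauchySeq_tendsto_of_complete hcauchy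
  have hz1 : ‖z‖ = 1 := by
    have h1 := hz.norm
    simp only [hy1] at h1
    exact (tendsto_nhds_unique h1 tendsto_const_nhds)
  have hz2 : T z = 0 := by
    have h1 := ((T.continuous.tendsto z).comp hz).norm
    have h2 := tendsto_nhds_unique h1 hT0
    exact norm_eq_zero.1 h2
  have h3 := hinj z (by rw [← hTx]; exact hz2)
  rw [h3, norm_zero] at hz1
  exact zero_ne_one hz1

theorem isUnit_of_close {T U : E →L[ℂ] E} (hU : IsUnit U) {c : ℝ} (hc : 0 < c)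
    (hT : ∀ x, c * ‖x‖ ≤ ‖T x‖) (h : ‖T - U‖ < c / 2) : IsUnit T := by
  obtain ⟨u, rfl⟩ := hU
  have hlow : ∀ x, c / 2 * ‖x‖ ≤ ‖(u : E →L[ℂ] E) x‖ := by
    intro x
    have h1 := hT x
    have h2 : ‖(T - (u : E →L[ℂ] E)) x‖ ≤ c / 2 * ‖x‖ :=
      ((T - (u : E →L[ℂ] E)).le_opNorm x).trans (mul_le_mul_of_nonneg_right h.le (norm_nonneg _))
    have h3 : T x = (T - (u : E →L[ℂ] E)) x + (u : E →L[ℂ] E) x := by simp
    have h4 := norm_add_le ((T - (u : E →L[ℂ] E)) x) ((u : E →L[ℂ] E) x)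
    rw [← h3] at h4
    linarith
  have hinv : ‖((u⁻¹ : (E →L[ℂ] E)ˣ) : E →L[ℂ] E)‖ ≤ 2 / c := by
    apply ContinuousLinearMap.opNorm_le_bound _ (by positivity)
    intro x
    have h1 := hlow (((u⁻¹ : (E →L[ℂ] E)ˣ) : E →L[ℂ] E) x)
    have h2 : (u : E →L[ℂ] E) (((u⁻¹ : (E →L[ℂ] E)ˣ) : E →L[ℂ] E) x) = x := by
      have : ((u : E →L[ℂ] E) * ((u⁻¹ : (E →L[ℂ] E)ˣ) : E →L[ℂ] E)) x = x := by
        rw [Units.mul_inv]; rfl
      exact this
    rw [h2] at h1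
    rw [div_mul_eq_mul_div, le_div_iff₀ hc]
    linarith
  have hnt : Nontrivial (E →L[ℂ] E) := by
    refine ⟨0, 1, fun h0 => ?_⟩
    have h1 : (0 : E →L[ℂ] E) (lp.single (E := fun _ : ℕ => ℂ) 2 0 (1 : ℂ)) =
        (1 : E →L[ℂ] E) (lp.single (E := fun _ : ℕ => ℂ) 2 0 (1 : ℂ)) := by rw [h0]
    have h2 := congrArg (fun x : E => x 0) h1
    simp at h2
  have hpos : 0 < ‖((u⁻¹ : (E →L[ℂ] E)ˣ) : E →L[ℂ] E)‖ := norm_pos_iff.2 (Units.ne_zero _)
  have h5 : ‖T - (u : E →L[ℂ] E)‖ < ‖((u⁻¹ : (E →L[ℂ] E)ˣ) : E →L[ℂ] E)‖⁻¹ := by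
    refine h.trans_le ?_
    rw [le_inv_comm₀ (by positivity) hpos]
    refine hinv.trans (le_of_eq ?_)
    field_simp
  exact ⟨Units.ofNearby u T h5, rfl⟩

/-- the closed region -/
def Reg (α : ℝ) : Set ℂ := {0} ∪ {l | ∃ z : ℂ, |z.re| ≤ |α| / 2 ∧ l = Real.pi / Complex.cos (Real.pi * z)}

theorem interval_mem_Reg (α : ℝ) {t : ℝ} (h0 : 0 ≤ t) (hpi : t ≤ Real.pi) : (t : ℂ) ∈ Reg α := by
  rcases h0.eq_or_lt with h | h
  · left
    simp [← h]
  · right
    have h1 : 1 ≤ Real.pi / t := by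
      rw [le_div_iff₀ h]
      linarith
    have h2 := Real.cosh_arcosh h1
    refine ⟨(((Real.arcosh (Real.pi / t) / Real.pi : ℝ)) : ℂ) * Complex.I, ?_, ?_⟩
    · simp
      positivity
    · have hpi0 : (Real.pi : ℂ) ≠ 0 := Complex.ofReal_ne_zero.2 Real.pi_ne_zero
      have h3 : (Real.pi : ℂ) * ((((Real.arcosh (Real.pi / t) / Real.pi : ℝ)) : ℂ) * Complex.I) =
          ((Real.arcosh (Real.pi / t) : ℝ) : ℂ) * Complex.I := by
        push_cast
        field_simp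
      rw [h3, Complex.cos_mul_I, ← Complex.ofReal_cosh, h2]
      push_cast
      have ht : (t : ℂ) ≠ 0 := Complex.ofReal_ne_zero.2 h.ne'
      field_simp

theorem notMem_zero {α : ℝ} {l : ℂ} (hl : l ∉ Reg α) : l ∉ spectrum ℂ (opA 0) := by
  intro h
  obtain ⟨t, h0, hpi, rfl⟩ := spec_zero h
  exact hl (interval_mem_Reg α h0 hpi)

theorem isUnit_inj {T : E →L[ℂ] E} {l : ℂ} (h : l ∉ spectrum ℂ T) (x : E) (hx : T x - l • x = 0) : x = 0 := by
  rw [spectrum.notMem_iff] at h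
  obtain ⟨u, hu⟩ := h
  have h1 : (u : E →L[ℂ] E) x = 0 := by
    rw [hu, sub_apply, Algebra.algebraMap_eq_smul_one, smul_apply, one_apply_eq_self]
    rw [← neg_eq_zero, neg_sub]
    exact hx
  have h2 : ((u⁻¹ : (E →L[ℂ] E)ˣ) : E →L[ℂ] E) ((u : E →L[ℂ] E) x) = x := by
    have : (((u⁻¹ : (E →L[ℂ] E)ˣ) : E →L[ℂ] E) * (u : E →L[ℂ] E)) x = x := by
      rw [Units.inv_mul]; rfl
    exact this
  rw [h1, map_zero] at h2
  exact h2.symm

theorem outside {α : ℝ} (h0 : 0 ≤ α) (h1 : α < 1) {l : ℂ} (hl : l ∉ Reg α) : l ∉ spectrum ℂ (opA α) := by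
  have hl0 : l ≠ 0 := fun h => hl (Or.inl h)
  have hcurve : ∀ a ∈ Set.Icc 0 α, ∀ z : ℂ, z.re = a / 2 → l ≠ Real.pi / Complex.cos (Real.pi * z) := by
    intro a ha z hz h
    apply hl
    right
    refine ⟨z, ?_, h⟩
    rw [hz, abs_of_nonneg (by linarith [ha.1]), abs_of_nonneg h0]
    linarith [ha.2]
  have hzero := notMem_zero hl
  have hinj : ∀ a ∈ Set.Icc 0 α, ∀ x : E, opA a x - l • x = 0 → x = 0 := by
    intro a ha x hx
    have hb : 0 ≤ a / 2 := by linarith [ha.1]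
    have ha' : |a| < 1 := by rw [abs_of_nonneg ha.1]; linarith [ha.2]
    have h2 := opA_dg hb ha' (by
      have : a - 2 * (a / 2) = 0 := by ring
      rw [this, abs_zero]; norm_num) x
    have h3 : a - 2 * (a / 2) = 0 := by ring
    rw [h3] at h2
    have h4 : opA 0 (dg (a / 2) hb x) - l • dg (a / 2) hb x = 0 := by
      rw [h2, ← map_smul, ← map_sub, hx, map_zero]
    have h5 := isUnit_inj hzero _ h4
    exact dg_injective _ hb (by rw [h5, map_zero])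
  set F : ℝ → (E →L[ℂ] E) := fun a => algebraMap ℂ (E →L[ℂ] E) l - opA a with hF
  have hFx : ∀ a x, ‖F a x‖ = ‖opA a x - l • x‖ := by
    intro a x
    rw [hF]
    simp only
    rw [sub_apply, Algebra.algebraMap_eq_smul_one, smul_apply, one_apply_eq_self, norm_sub_rev]
  have hFcont : ∀ a ∈ Set.Icc 0 α, ContinuousAt F a := by
    intro a ha
    exact continuousAt_const.sub (opA_continuousAt (by rw [abs_of_nonneg ha.1]; linarith [ha.2]))
  set s : Set ℝ := {a | IsUnit (F a)} with hs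
  have hsub : Set.Icc 0 α ⊆ s := by
    apply IsClosed.Icc_subset_of_forall_mem_nhdsWithin
    · apply IsSeqClosed.isClosed
      intro u a hu hua
      have haI : a ∈ Set.Icc 0 α := isClosed_Icc.mem_of_tendsto hua (Eventually.of_forall fun k => (hu k).2)
      refine ⟨?_, haI⟩
      obtain ⟨c, hc, hlow⟩ := bounded_below haI.1 (by linarith [haI.2]) hl0 (hcurve a haI) (hinj a haI)
      have h2 : Tendsto (fun k => ‖F a - F (u k)‖) atTop (𝓝 0) := by
        have h3 := (hFcont a haI).tendsto.comp hua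
        have h4 := (tendsto_const_nhds (x := F a)).sub h3
        have h5 := h4.norm
        simpa using h5
      obtain ⟨k, hk⟩ := (h2.eventually (gt_mem_nhds (show (0 : ℝ) < c / 2 by positivity))).exists
      exact isUnit_of_close (hu k).1 hc (fun x => by rw [hFx]; exact hlow x) hk
    · exact spectrum.notMem_iff.1 hzero
    · intro x hx
      have hxI : x ∈ Set.Icc 0 α := ⟨hx.2.1, hx.2.2.le⟩
      have hopen : IsOpen {T : E →L[ℂ] E | IsUnit T} := Units.isOpen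
      have h2 := (hFcont x hxI).preimage_mem_nhds (hopen.mem_nhds hx.1)
      exact nhdsWithin_le_nhds h2
  rw [spectrum.notMem_iff]
  exact hsub ⟨h0, le_rfl⟩

theorem spectrum_nonneg {α : ℝ} (h0 : 0 ≤ α) (h1 : α < 1) : spectrum ℂ (opA α) = Reg α := by
  apply Set.Subset.antisymm
  · intro l hl
    by_contra h
    exact outside h0 h1 h hl
  · rintro l (h | ⟨z, hz, rfl⟩)
    · rw [Set.mem_singleton_iff] at h
      rw [h]
      exact zero_mem h0 h1
    · rw [abs_of_nonneg h0] at hz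
      exact region_nonneg h0 h1 z hz

theorem Reg_star (α : ℝ) : star (Reg α) = Reg α := by
  have hsub : ∀ l ∈ Reg α, star l ∈ Reg α := by
    rintro l (h | ⟨z, hz, rfl⟩)
    · left
      rw [Set.mem_singleton_iff] at h ⊢
      rw [h, star_zero]
    · right
      refine ⟨(starRingEnd ℂ) z, by simpa using hz, ?_⟩
      rw [RCLike.star_def, map_div₀, Complex.conj_ofReal, ← Complex.cos_conj, map_mul, Complex.conj_ofReal]
  ext l
  rw [Set.mem_star]
  constructor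
  · intro h
    have := hsub _ h
    rwa [star_star] at this
  · exact hsub l

theorem spectrum_opA {α : ℝ} (h : |α| < 1) : spectrum ℂ (opA α) = Reg α := by
  rcases le_total 0 α with h0 | h0
  · exact spectrum_nonneg h0 (by rwa [abs_of_nonneg h0] at h)
  · have h1 : 0 ≤ -α := by linarith
    have h2 : -α < 1 := by rwa [abs_of_nonpos h0] at h
    have h3 := spectrum_nonneg h1 h2
    have h4 := opA_adjoint (a := -α) (by rwa [abs_neg])
    rw [neg_neg] at h4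
    rw [← h4, ← ContinuousLinearMap.star_eq_adjoint, spectrum.map_star, h3, Reg_star]
    simp [Reg]

end

end Pool.Agent.Helper152.Hilb
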