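import Mathlib

set_option autoImplicit false
open MeasureTheory
open scoped ENNReal

namespace Pool.Agent.Helper152.Lar

/-- the coarse weight -/
noncomputable def w (φ : ℝ → ℂ) (y : ℝ) : ℝ≥0∞ := ∑' i : ℕ, ‖φ ((2:ℝ) ^ (i + 1) * y)‖ₑ ^ 2

theorem measurable_w {φ : ℝ → ℂ} (hm : Measurable φ) : Measurable (w φ) := by
  unfold w
  exact Measurable.tsum fun i => by fun_prop

theorem w_eq_zero {φ : ℝ → ℂ} {y : ℝ} : w φ y = 0 ↔ ∀ i : ℕ, φ ((2:ℝ) ^ (i + 1) * y) = 0 := by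
  unfold w
  rw [ENNReal.tsum_eq_zero]
  simp

theorem w_succ (φ : ℝ → ℂ) (y : ℝ) : w φ y = ‖φ (2 * y)‖ₑ ^ 2 + w φ (2 * y) := by
  unfold w
  rw [tsum_eq_zero_add' ENNReal.summable]
  congr 1
  · norm_num
  · refine tsum_congr fun i => ?_
    have : (2:ℝ) ^ (i + 1 + 1) * y = (2:ℝ) ^ (i + 1) * (2 * y) := by ring
    rw [this]

/-- null sets are preserved by affine maps -/
theorem ae_affine {P : ℝ → Prop} (h : ∀ᵐ x : ℝ, P x) (a d : ℝ) (ha : a ≠ 0) :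
    ∀ᵐ x : ℝ, P (a * x + d) := by
  rw [ae_iff] at h ⊢
  have h1 : volume ((fun x => x + d) ⁻¹' {x | ¬ P x}) = 0 := by
    rw [measure_preimage_add_right]; exact h
  have h2 := Real.volume_preimage_mul_left ha ((fun x => x + d) ⁻¹' {x | ¬ P x})
  rw [h1, mul_zero] at h2
  exact h2

theorem ae_orbit {P : ℝ → Prop} (h : ∀ᵐ x : ℝ, P x) :
    ∀ᵐ x : ℝ, ∀ a b c : ℤ, P ((2:ℝ) ^ a * x + b * (2:ℝ) ^ c) := by
  rw [ae_all_iff]; intro a
  rw [ae_all_iff]; intro b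
  rw [ae_all_iff]; intro c
  exact ae_affine h _ _ (by positivity)

/-- orbit predicate -/
def Orb (Q : ℝ → Prop) (x : ℝ) : Prop := ∀ a b c : ℤ, Q ((2:ℝ) ^ a * x + b * (2:ℝ) ^ c)

theorem Orb.self {Q : ℝ → Prop} {x : ℝ} (h : Orb Q x) : Q x := by
  have := h 0 0 0
  simpa using this

theorem combine (u v : ℤ) (m n : ℤ) : ∃ b c : ℤ, (u:ℝ) * (2:ℝ) ^ m + v * (2:ℝ) ^ n = b * (2:ℝ) ^ c := by
  rcases le_total m n with h | h
  · refine ⟨u + v * 2 ^ (n - m).toNat, m, ?_⟩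
    have : (2:ℝ) ^ n = (2:ℝ) ^ (n - m).toNat * (2:ℝ) ^ m := by
      rw [← zpow_natCast, ← zpow_add₀ (by norm_num), Int.toNat_of_nonneg (by omega)]
      congr 1; omega
    rw [this]; push_cast; ring
  · refine ⟨u * 2 ^ (m - n).toNat + v, n, ?_⟩
    have : (2:ℝ) ^ m = (2:ℝ) ^ (m - n).toNat * (2:ℝ) ^ n := by
      rw [← zpow_natCast, ← zpow_add₀ (by norm_num), Int.toNat_of_nonneg (by omega)]
      congr 1; omega
    rw [this]; push_cast; ring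

theorem Orb.move {Q : ℝ → Prop} {x : ℝ} (h : Orb Q x) (m k l : ℤ) :
    Orb Q ((2:ℝ) ^ m * x + k * (2:ℝ) ^ l) := by
  intro a b c
  obtain ⟨b', c', hb⟩ := combine k b (a + l) c
  have := h (a + m) b' c'
  rw [← hb] at this
  convert this using 1
  rw [zpow_add₀ (by norm_num), zpow_add₀ (by norm_num)]
  ring

theorem Orb.mul {Q : ℝ → Prop} {x : ℝ} (h : Orb Q x) (m : ℤ) : Orb Q ((2:ℝ) ^ m * x) := by
  have := h.move m 0 0
  simpa using this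

theorem Orb.add {Q : ℝ → Prop} {x : ℝ} (h : Orb Q x) (k : ℤ) : Orb Q (x + k) := by
  have := h.move 0 k 0
  simpa using this

theorem ae_Orb {Q : ℝ → Prop} (h : ∀ᵐ x : ℝ, Q x) : ∀ᵐ x : ℝ, Orb Q x := ae_orbit h

theorem measurableSet_Orb {Q : ℝ → Prop} (h : MeasurableSet {x | Q x}) : MeasurableSet {x | Orb Q x} := by
  have : {x | Orb Q x} = ⋂ (a : ℤ) (b : ℤ) (c : ℤ), (fun x : ℝ => (2:ℝ) ^ a * x + b * (2:ℝ) ^ c) ⁻¹' {x | Q x} := by
    ext x; simp [Orb]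
  rw [this]
  refine MeasurableSet.iInter fun a => MeasurableSet.iInter fun b => MeasurableSet.iInter fun c => ?_
  exact (by fun_prop : Measurable fun x : ℝ => (2:ℝ) ^ a * x + b * (2:ℝ) ^ c) h

end Pool.Agent.Helper152.Lar
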