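import Mathlib

set_option autoImplicit false
open MeasureTheory
open scoped ENNReal

namespace Pool.Agent.Helper152.LarC

section aux

variable {Ω : Type*} [MeasurableSpace Ω]

/-- measurability of a countably valued map -/
private def CM {β : Type*} (h : Ω → β) : Prop := ∀ b, Measurable fun ω => h ω = b

private theorem CM.bind {β : Type*} [Countable β] {h : Ω → β} (hh : CM h) {Q : β → Ω → Prop}
    (hQ : ∀ b, Measurable fun ω => Q b ω) : Measurable fun ω => Q (h ω) ω := by
  have h1 : (fun ω => Q (h ω) ω) = fun ω => ∃ b, h ω = b ∧ Q b ω := by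
    funext ω
    apply propext
    exact ⟨fun hq => ⟨_, rfl, hq⟩, fun ⟨b, hb, hq⟩ => hb ▸ hq⟩
  rw [h1]
  exact Measurable.exists fun b => (hh b).and (hQ b)

private theorem CM.comp {β γ : Type*} [Countable β] {h : Ω → β} (hh : CM h) {F : β → Ω → γ}
    (hF : ∀ b, CM (F b)) : CM (fun ω => F (h ω) ω) := fun c =>
  CM.bind (Q := fun b ω => F b ω = c) hh fun b => hF b c

private theorem CM.const {β : Type*} (b : β) : CM (fun _ : Ω => b) := fun _ => measurable_const

private theorem CM.sInf {Q : ℕ → Ω → Prop} (hQ : ∀ b, Measurable (Q b)) :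
    CM (fun ω => sInf {b | Q b ω}) := by
  intro a
  have h1 : (fun ω => InfSet.sInf {b | Q b ω} = a) = fun ω =>
      (Q a ω ∧ ∀ b, b < a → ¬ Q b ω) ∨ (a = 0 ∧ ∀ b, ¬ Q b ω) := by
    funext ω
    apply propext
    constructor
    · intro h
      by_cases hne : ({b | Q b ω} : Set ℕ).Nonempty
      · left
        have h2 := Nat.sInf_mem hne
        rw [h] at h2
        refine ⟨h2, fun b hb hq => ?_⟩
        have := Nat.sInf_le (show b ∈ {b | Q b ω} from hq)
        omega
      · right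
        rw [Set.not_nonempty_iff_eq_empty] at hne
        refine ⟨?_, fun b hb => ?_⟩
        · rw [← h, hne, Nat.sInf_empty]
        · have : b ∈ ({b | Q b ω} : Set ℕ) := hb
          rw [hne] at this
          exact this
    · rintro (⟨h1, h2⟩ | ⟨h1, h2⟩)
      · apply le_antisymm
        · exact Nat.sInf_le h1
        · by_contra hlt
          have hlt := not_le.mp hlt
          have hmem := Nat.sInf_mem (⟨a, h1⟩ : ({b | Q b ω} : Set ℕ).Nonempty)
          exact h2 _ hlt hmem
      · have : ({b | Q b ω} : Set ℕ) = ∅ := by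
          ext b; simpa using h2 b
        rw [this, h1, Nat.sInf_empty]
  rw [h1]
  exact ((hQ a).and (Measurable.forall fun b => measurable_const.imp (hQ b).not)).or
    (measurable_const.and (Measurable.forall fun b => (hQ b).not))

/-- a list is good if it extends to an injection that lies in `t` -/
private def GoodL (t : ℕ → Finset ℕ) (l : List ℕ) : Prop :=
  ∃ F : ℕ → ℕ, Function.Injective F ∧ (∀ i, F i ∈ t i) ∧ ∀ i, i < l.length → F i = l.getD i 0

private theorem goodL_iff (t : ℕ → Finset ℕ) (l : List ℕ) : GoodL t l ↔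
    ∀ s : Finset ℕ, s.card ≤
      (s.biUnion fun i => (t i).filter fun a => i < l.length → a = l.getD i 0).card := by
  rw [Finset.all_card_le_biUnion_card_iff_exists_injective]
  constructor
  · rintro ⟨F, h1, h2, h3⟩
    exact ⟨F, h1, fun i => Finset.mem_filter.mpr ⟨h2 i, h3 i⟩⟩
  · rintro ⟨F, h1, h2⟩
    exact ⟨F, h1, fun i => (Finset.mem_filter.mp (h2 i)).1, fun i => (Finset.mem_filter.mp (h2 i)).2⟩

private theorem goodL_meas {t : Ω → ℕ → Finset ℕ} (ht : ∀ i, CM fun ω => t ω i) (l : List ℕ) :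
    Measurable fun ω => GoodL (t ω) l := by
  classical
  simp only [goodL_iff]
  refine Measurable.forall fun s => ?_
  have h1 : CM (fun ω => s.biUnion
      fun i => ((t ω i).filter fun a => i < l.length → a = l.getD i 0)) := by
    induction s using Finset.induction_on with
    | empty => simpa using CM.const (∅ : Finset ℕ)
    | insert a s _ ih =>
      simp only [Finset.biUnion_insert]
      refine CM.comp (F := fun b ω => ((t ω a).filter fun a_1 => a < l.length → a_1 = l.getD a 0) ∪ b)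
        ih fun b => ?_
      refine CM.comp (F := fun c ω => (c.filter fun a_1 => a < l.length → a_1 = l.getD a 0) ∪ b)
        (ht a) fun c => ?_
      exact CM.const _
  exact CM.bind (Q := fun (b : Finset ℕ) _ => s.card ≤ b.card) h1 fun b => measurable_const

/-- the prefixes of the selected injection -/
private noncomputable def Pl (t : ℕ → Finset ℕ) : ℕ → List ℕ
  | 0 => []
  | n + 1 => Pl t n ++ [sInf {a | GoodL t (Pl t n ++ [a])}]

private theorem Pl_length (t : ℕ → Finset ℕ) (n : ℕ) : (Pl t n).length = n := by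
  induction n with
  | zero => rfl
  | succ n ih => simp [Pl, ih]

/-- the selected injection -/
private noncomputable def fsel (t : ℕ → Finset ℕ) (n : ℕ) : ℕ :=
  sInf {a | GoodL t (Pl t n ++ [a])}

private theorem Pl_getD (t : ℕ → Finset ℕ) (n i : ℕ) (h : i < n) : (Pl t n).getD i 0 = fsel t i := by
  induction n with
  | zero => omega
  | succ n ih =>
    rcases Nat.lt_or_ge i n with h1 | h1
    · rw [Pl, List.getD_append _ _ _ _ (by rw [Pl_length]; exact h1)]
      exact ih h1
    · have : i = n := by omega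
      subst this
      rw [Pl, List.getD_append_right _ _ _ _ (by rw [Pl_length])]
      simp [Pl_length, fsel]

private theorem Pl_good (t : ℕ → Finset ℕ) (h0 : GoodL t []) (n : ℕ) : GoodL t (Pl t n) := by
  induction n with
  | zero => exact h0
  | succ n ih =>
    obtain ⟨F, h1, h2, h3⟩ := ih
    have hne : ({a | GoodL t (Pl t n ++ [a])} : Set ℕ).Nonempty := by
      refine ⟨F n, F, h1, h2, fun i hi => ?_⟩
      rw [List.length_append, Pl_length] at hi
      simp only [List.length_cons, List.length_nil, zero_add] at hi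
      rcases Nat.lt_or_ge i n with hin | hin
      · rw [List.getD_append _ _ _ _ (by rw [Pl_length]; exact hin)]
        exact h3 i (by rw [Pl_length]; exact hin)
      · have : i = n := by omega
        subst this
        rw [List.getD_append_right _ _ _ _ (by rw [Pl_length])]
        simp [Pl_length]
    exact Nat.sInf_mem hne

private theorem fsel_mem (t : ℕ → Finset ℕ) (h0 : GoodL t []) (n : ℕ) : fsel t n ∈ t n := by
  obtain ⟨F, _, h2, h3⟩ := Pl_good t h0 (n + 1)
  have := h3 n (by rw [Pl_length]; omega)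
  rw [Pl_getD t (n + 1) n (by omega)] at this
  rw [← this]; exact h2 n

private theorem fsel_inj (t : ℕ → Finset ℕ) (h0 : GoodL t []) : Function.Injective (fsel t) := by
  intro i j hij
  obtain ⟨F, h1, _, h3⟩ := Pl_good t h0 (i + j + 1)
  have e1 := h3 i (by rw [Pl_length]; omega)
  have e2 := h3 j (by rw [Pl_length]; omega)
  rw [Pl_getD t (i + j + 1) i (by omega)] at e1
  rw [Pl_getD t (i + j + 1) j (by omega)] at e2
  exact h1 (by rw [e1, e2, hij])

private theorem Pl_meas {t : Ω → ℕ → Finset ℕ} (ht : ∀ i, CM fun ω => t ω i) (n : ℕ) :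
    CM (fun ω => Pl (t ω) n) := by
  induction n with
  | zero => exact CM.const _
  | succ n ih =>
    refine CM.comp (F := fun l ω => l ++ [sInf {a | GoodL (t ω) (l ++ [a])}]) ih fun l => ?_
    refine CM.comp (F := fun c _ => l ++ [c]) (CM.sInf (Q := fun a ω => GoodL (t ω) (l ++ [a]))
      fun b => goodL_meas ht _) fun c => CM.const _

private theorem fsel_meas {t : Ω → ℕ → Finset ℕ} (ht : ∀ i, CM fun ω => t ω i) (n : ℕ) :
    CM (fun ω => fsel (t ω) n) := by
  refine CM.comp (F := fun l ω => sInf {a | GoodL (t ω) (l ++ [a])}) (Pl_meas ht n) fun l => ?_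
  exact CM.sInf (Q := fun a ω => GoodL (t ω) (l ++ [a])) fun b => goodL_meas ht _

end aux

/-- Step 1: measurable injection inside the support when all row sums are 1 and column sums are at most 1. -/
theorem inj {Ω : Type*} [MeasurableSpace Ω] (p : Ω → ℕ → ℕ → ℝ≥0∞)
    (hp : ∀ i j, Measurable fun ω => p ω i j)
    (hrow : ∀ ω i, ∑' j, p ω i j = 1) (hcol : ∀ ω j, ∑' i, p ω i j ≤ 1) :
    ∃ f : Ω → ℕ → ℕ, (∀ i j, MeasurableSet {ω | f ω i = j}) ∧
      (∀ ω, Function.Injective (f ω)) ∧ (∀ ω i, p ω i (f ω i) ≠ 0) := by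
  classical
  obtain ⟨ε, hε, hεs⟩ := ENNReal.exists_pos_sum_of_countable' (one_ne_zero (α := ℝ≥0∞)) ℕ
  let n : Ω → ℕ → ℕ := fun ω i => sInf {m | 1 ≤ ∑ j ∈ Finset.range m, p ω i j + ε i}
  let t : Ω → ℕ → Finset ℕ := fun ω i => (Finset.range (n ω i)).filter fun j => p ω i j ≠ 0
  have hn : ∀ ω i, 1 ≤ ∑ j ∈ Finset.range (n ω i), p ω i j + ε i := by
    intro ω i
    have hne : ({m | 1 ≤ ∑ j ∈ Finset.range m, p ω i j + ε i} : Set ℕ).Nonempty := by
      have h1 := (ENNReal.tendsto_nat_tsum (p ω i)).add_const (ε i)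
      rw [hrow] at h1
      have h2 : (1 : ℝ≥0∞) < 1 + ε i := by
        exact ENNReal.lt_add_right ENNReal.one_ne_top (hε i).ne'
      obtain ⟨m, hm⟩ := (h1.eventually (lt_mem_nhds h2)).exists
      exact ⟨m, hm.le⟩
    exact Nat.sInf_mem hne
  have hnm : ∀ i, CM (fun ω => n ω i) := by
    intro i
    refine CM.sInf (Q := fun m ω => 1 ≤ ∑ j ∈ Finset.range m, p ω i j + ε i) fun m => ?_
    have hm : Measurable fun ω => ∑ j ∈ Finset.range m, p ω i j + ε i :=
      (Finset.measurable_sum _ fun j _ => hp i j).add_const _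
    exact measurableSet_setOfPred.mp (measurableSet_le measurable_const hm)
  have htm : ∀ i, CM (fun ω => t ω i) := by
    intro i
    refine CM.comp (F := fun m ω => (Finset.range m).filter fun j => p ω i j ≠ 0) (hnm i)
      fun m => ?_
    intro T
    have h1 : (fun ω => (Finset.range m).filter (fun j => p ω i j ≠ 0) = T) = fun ω =>
        ∀ j, (j < m ∧ p ω i j ≠ 0) ↔ j ∈ T := by
      funext ω
      apply propext
      rw [Finset.ext_iff]
      simp only [Finset.mem_filter, Finset.mem_range]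
    rw [h1]
    have h2 : ∀ j, Measurable fun ω => p ω i j ≠ 0 := fun j =>
      (measurableSet_setOfPred.mp (measurableSet_eq_fun (hp i j) measurable_const)).not
    exact Measurable.forall fun j => (measurable_const.and (h2 j)).iff measurable_const
  have hgood : ∀ ω, GoodL (t ω) [] := by
    intro ω
    have hall : ∀ s : Finset ℕ, s.card ≤ (s.biUnion (t ω)).card := by
      intro s
      have h1 : (s.card : ℝ≥0∞) ≤ ∑ i ∈ s, (∑ j ∈ Finset.range (n ω i), p ω i j + ε i) := by
        calc (s.card : ℝ≥0∞) = ∑ i ∈ s, 1 := by simp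
          _ ≤ _ := Finset.sum_le_sum fun i _ => hn ω i
      have h2 : ∀ i ∈ s, ∑ j ∈ Finset.range (n ω i), p ω i j ≤ ∑ j ∈ s.biUnion (t ω), p ω i j := by
        intro i hi
        have h3 : ∑ j ∈ t ω i, p ω i j = ∑ j ∈ Finset.range (n ω i), p ω i j :=
          Finset.sum_filter_ne_zero _
        rw [← h3]
        exact Finset.sum_le_sum_of_subset (Finset.subset_biUnion_of_mem (t ω) hi)
      have h4 : ∑ i ∈ s, ∑ j ∈ s.biUnion (t ω), p ω i j ≤ ((s.biUnion (t ω)).card : ℝ≥0∞) := by
        rw [Finset.sum_comm]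
        calc ∑ j ∈ s.biUnion (t ω), ∑ i ∈ s, p ω i j ≤ ∑ j ∈ s.biUnion (t ω), 1 :=
              Finset.sum_le_sum fun j _ => (ENNReal.sum_le_tsum s).trans (hcol ω j)
          _ = _ := by simp
      have h5 : ∑ i ∈ s, ε i < 1 := lt_of_le_of_lt (ENNReal.sum_le_tsum s) hεs
      have h6 : (s.card : ℝ≥0∞) < ((s.biUnion (t ω)).card : ℝ≥0∞) + 1 := by
        rw [Finset.sum_add_distrib] at h1
        calc (s.card : ℝ≥0∞) ≤ _ := h1
          _ ≤ ((s.biUnion (t ω)).card : ℝ≥0∞) + ∑ i ∈ s, ε i :=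
              add_le_add ((Finset.sum_le_sum h2).trans h4) le_rfl
          _ < _ := ENNReal.add_lt_add_left (ENNReal.natCast_ne_top _) h5
      have h7 : s.card < (s.biUnion (t ω)).card + 1 := by exact_mod_cast h6
      omega
    obtain ⟨F, h1, h2⟩ := (Finset.all_card_le_biUnion_card_iff_exists_injective _).mp hall
    exact ⟨F, h1, h2, fun i hi => by simp at hi⟩
  refine ⟨fun ω => fsel (t ω), fun i j => ?_, fun ω => fsel_inj _ (hgood ω), fun ω i => ?_⟩
  · exact measurableSet_setOfPred.mpr (fsel_meas htm i j)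
  · have := fsel_mem (t ω) (hgood ω) i
    exact (Finset.mem_filter.mp this).2

private theorem half {Ω : Type*} [MeasurableSpace Ω] (p : Ω → ℕ → ℕ → ℝ≥0∞)
    (hp : ∀ i j, Measurable fun ω => p ω i j)
    (hrow : ∀ ω i, ∑' j, p ω i j = 0 ∨ ∑' j, p ω i j = 1) (hcol : ∀ ω j, ∑' i, p ω i j ≤ 1) :
    ∃ f : Ω → ℕ → ℕ, (∀ i j, Measurable fun ω => f ω i = j) ∧
      (∀ ω i i', ∑' j, p ω i j ≠ 0 → ∑' j, p ω i' j ≠ 0 → f ω i = f ω i' → i = i') ∧
      (∀ ω i, ∑' j, p ω i j ≠ 0 → p ω i (f ω i) ≠ 0) := by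
  classical
  let q : Ω → ℕ → ℕ → ℝ≥0∞ := fun ω i m =>
    if m % 2 = 0 then p ω i (m / 2) else if m / 2 = i ∧ ∑' j, p ω i j = 0 then 1 else 0
  have hq0 : ∀ ω i k, q ω i (2 * k) = p ω i k := by
    intro ω i k
    simp only [q]
    rw [if_pos (by omega)]
    congr 1; omega
  have hq1 : ∀ ω i k, q ω i (2 * k + 1) = if k = i ∧ ∑' j, p ω i j = 0 then 1 else 0 := by
    intro ω i k
    simp only [q]
    rw [if_neg (by omega)]
    have : (2 * k + 1) / 2 = k := by omega
    rw [this]
  have hrs : ∀ i, Measurable fun ω => ∑' j, p ω i j := fun i => Measurable.tsum (hp i)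
  have hrs0 : ∀ i, MeasurableSet {ω | ∑' j, p ω i j = 0} := fun i =>
    measurableSet_eq_fun (hrs i) measurable_const
  have hqm : ∀ i j, Measurable fun ω => q ω i j := by
    intro i j
    simp only [q]
    split_ifs with h
    · exact hp i _
    · by_cases hi : j / 2 = i
      · simp only [hi, true_and]
        exact Measurable.ite (hrs0 i) measurable_const measurable_const
      · simp only [hi, false_and, if_false]
        exact measurable_const
  have hqrow : ∀ ω i, ∑' j, q ω i j = 1 := by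
    intro ω i
    rw [← tsum_even_add_odd ENNReal.summable ENNReal.summable]
    simp only [hq0, hq1]
    rcases hrow ω i with h | h
    · rw [h]
      simp only [and_true]
      rw [tsum_eq_single i (fun k hk => by rw [if_neg hk])]
      simp
    · rw [h]
      simp
  have hqcol : ∀ ω j, ∑' i, q ω i j ≤ 1 := by
    intro ω j
    rcases Nat.even_or_odd' j with ⟨k, hk | hk⟩
    · rw [hk]; simp only [hq0]; exact hcol ω k
    · rw [hk]; simp only [hq1]
      rw [tsum_eq_single k (fun i hi => by rw [if_neg (fun h => hi h.1.symm)])]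
      split_ifs <;> simp
  obtain ⟨F, hFm, hFi, hF0⟩ := inj q hqm hqrow hqcol
  have hact : ∀ ω i, ∑' j, p ω i j ≠ 0 → F ω i = 2 * (F ω i / 2) ∧ p ω i (F ω i / 2) ≠ 0 := by
    intro ω i hi
    have h1 := hF0 ω i
    rcases Nat.even_or_odd' (F ω i) with ⟨k, hk | hk⟩
    · rw [hk, hq0] at h1
      have h2 : F ω i / 2 = k := by omega
      rw [h2]
      exact ⟨hk, h1⟩
    · rw [hk, hq1, if_neg (fun h => hi h.2)] at h1
      exact absurd rfl h1
  refine ⟨fun ω i => F ω i / 2, ?_, ?_, ?_⟩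
  · intro i j
    have h1 : (fun ω => F ω i / 2 = j) = fun ω => F ω i = 2 * j ∨ F ω i = 2 * j + 1 := by
      funext ω
      apply propext
      omega
    rw [h1]
    exact (measurableSet_setOfPred.mp (hFm i _)).or (measurableSet_setOfPred.mp (hFm i _))
  · intro ω i i' hi hi' h
    apply hFi ω
    rw [(hact ω i hi).1, (hact ω i' hi').1]
    simp only at h
    rw [h]
  · intro ω i hi
    exact (hact ω i hi).2

/-- measurable infinite Birkhoff theorem. -/
theorem birkhoff_nat {Ω : Type*} [MeasurableSpace Ω] (p : Ω → ℕ → ℕ → ℝ≥0∞)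
    (hp : ∀ i j, Measurable fun ω => p ω i j)
    (hrow : ∀ ω i, ∑' j, p ω i j = 0 ∨ ∑' j, p ω i j = 1)
    (hcol : ∀ ω j, ∑' i, p ω i j = 0 ∨ ∑' i, p ω i j = 1) :
    ∃ M : ℕ → ℕ → Set Ω, (∀ i j, MeasurableSet (M i j)) ∧
      (∀ ω i j, ω ∈ M i j → p ω i j ≠ 0) ∧
      (∀ ω i, (∃ j, p ω i j ≠ 0) → ∃! j, ω ∈ M i j) ∧
      (∀ ω j, (∃ i, p ω i j ≠ 0) → ∃! i, ω ∈ M i j) := by
  classical
  have hrow1 : ∀ ω i, ∑' j, p ω i j ≤ 1 := fun ω i => by
    rcases hrow ω i with h | h <;> rw [h]
    exact zero_le_one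
  have hcol1 : ∀ ω j, ∑' i, p ω i j ≤ 1 := fun ω j => by
    rcases hcol ω j with h | h <;> rw [h]
    exact zero_le_one
  obtain ⟨f, hfm, hfi, hf0⟩ := half p hp hrow hcol1
  obtain ⟨g, hgm, hgi, hg0⟩ := half (fun ω j i => p ω i j) (fun j i => hp i j) hcol hrow1
  -- active rows and columns
  let R : Ω → ℕ → Prop := fun ω i => ∑' j, p ω i j ≠ 0
  let C : Ω → ℕ → Prop := fun ω j => ∑' i, p ω i j ≠ 0
  have hRex : ∀ ω i j, p ω i j ≠ 0 → R ω i := fun ω i j h hz =>
    h (ENNReal.tsum_eq_zero.mp hz j)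
  have hCex : ∀ ω i j, p ω i j ≠ 0 → C ω j := fun ω i j h hz =>
    h (ENNReal.tsum_eq_zero.mp hz i)
  have hRm : ∀ i, Measurable fun ω => R ω i := fun i =>
    (measurableSet_setOfPred.mp (measurableSet_eq_fun (Measurable.tsum (hp i))
      measurable_const)).not
  have hCm : ∀ j, Measurable fun ω => C ω j := fun j =>
    (measurableSet_setOfPred.mp (measurableSet_eq_fun (Measurable.tsum fun i => hp i j)
      measurable_const)).not
  have hfi' : ∀ ω i i', R ω i → R ω i' → f ω i = f ω i' → i = i' := hfi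
  have hf0' : ∀ ω i, R ω i → p ω i (f ω i) ≠ 0 := hf0
  have hgi' : ∀ ω j j', C ω j → C ω j' → g ω j = g ω j' → j = j' := hgi
  have hg0' : ∀ ω j, C ω j → p ω (g ω j) j ≠ 0 := hg0
  let D : ℕ → Ω → ℕ → Prop := fun n => Nat.rec
    (fun ω i => R ω i ∧ ∀ j, C ω j → g ω j ≠ i)
    (fun _ D ω i => ∃ i', D ω i' ∧ g ω (f ω i') = i) n
  have hD0 : ∀ ω i, D 0 ω i ↔ (R ω i ∧ ∀ j, C ω j → g ω j ≠ i) := fun _ _ => Iff.rfl
  have hDs : ∀ n ω i, D (n + 1) ω i ↔ ∃ i', D n ω i' ∧ g ω (f ω i') = i := fun _ _ _ => Iff.rfl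
  have hDR : ∀ n ω i, D n ω i → R ω i := by
    intro n
    induction n with
    | zero => intro ω i h; exact h.1
    | succ n ih =>
      intro ω i h
      obtain ⟨i', h1, h2⟩ := (hDs n ω i).mp h
      have h3 := hf0' ω i' (ih ω i' h1)
      have h4 := hCex ω i' _ h3
      have h5 := hg0' ω _ h4
      rw [h2] at h5
      exact hRex ω i _ h5
  have hDm : ∀ n i, Measurable fun ω => D n ω i := by
    intro n
    induction n with
    | zero =>
      intro i
      exact (hRm i).and (Measurable.forall fun j => (hCm j).imp (hgm j i).not)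
    | succ n ih =>
      intro i
      have h1 : (fun ω => D (n + 1) ω i) = fun ω => ∃ i', D n ω i' ∧ ∃ j, f ω i' = j ∧ g ω j = i := by
        funext ω
        apply propext
        rw [hDs]
        constructor
        · rintro ⟨i', h1, h2⟩
          exact ⟨i', h1, _, rfl, h2⟩
        · rintro ⟨i', h1, j, h2, h3⟩
          exact ⟨i', h1, by rw [h2, h3]⟩
      rw [h1]
      exact Measurable.exists fun i' => (ih i').and
        (Measurable.exists fun j => (hfm i' j).and (hgm j i))
  let U : Ω → ℕ → Prop := fun ω i => ∃ n, D n ω i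
  have hUm : ∀ i, Measurable fun ω => U ω i := fun i => Measurable.exists fun n => hDm n i
  have hUR : ∀ ω i, U ω i → R ω i := fun ω i ⟨n, h⟩ => hDR n ω i h
  have hUstep : ∀ ω i, U ω i → U ω (g ω (f ω i)) := fun ω i ⟨n, h⟩ => ⟨n + 1, i, h, rfl⟩
  let M : ℕ → ℕ → Set Ω := fun i j =>
    {ω | (U ω i ∧ f ω i = j) ∨ (R ω i ∧ ¬ U ω i ∧ C ω j ∧ g ω j = i)}
  have hMmem : ∀ i j ω, ω ∈ M i j ↔ (U ω i ∧ f ω i = j) ∨ (R ω i ∧ ¬ U ω i ∧ C ω j ∧ g ω j = i) :=
    fun _ _ _ => Iff.rfl
  refine ⟨M, ?_, ?_, ?_, ?_⟩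
  · intro i j
    exact measurableSet_setOfPred.mpr (((hUm i).and (hfm i j)).or
      ((hRm i).and ((hUm i).not.and ((hCm j).and (hgm j i)))))
  · intro ω i j h
    rw [hMmem] at h
    rcases h with ⟨h1, h2⟩ | ⟨_, _, h3, h4⟩
    · rw [← h2]; exact hf0' ω i (hUR ω i h1)
    · have := hg0' ω j h3
      rw [h4] at this; exact this
  · rintro ω i ⟨j0, hj0⟩
    have hRi := hRex ω i j0 hj0
    rcases Classical.em (U ω i) with hU | hU
    · refine ⟨f ω i, Or.inl ⟨hU, rfl⟩, fun j hj => ?_⟩
      have hj := (hMmem _ _ _).mp hj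
      rcases hj with ⟨_, h2⟩ | ⟨_, h2, _⟩
      · exact h2.symm
      · exact absurd hU h2
    · have h0 : ¬ D 0 ω i := fun h => hU ⟨0, h⟩
      rw [hD0] at h0
      have h1 : ∃ j, C ω j ∧ g ω j = i := by
        by_contra hcon
        apply h0
        refine ⟨hRi, fun j hj hgj => hcon ⟨j, hj, hgj⟩⟩
      obtain ⟨j, hCj, hgj⟩ := h1
      refine ⟨j, Or.inr ⟨hRi, hU, hCj, hgj⟩, fun j' hj' => ?_⟩
      have hj' := (hMmem _ _ _).mp hj'
      rcases hj' with ⟨h2, _⟩ | ⟨_, _, h3, h4⟩
      · exact absurd h2 hU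
      · exact hgi' ω j' j h3 hCj (by rw [h4, hgj])
  · rintro ω j ⟨i1, hi1⟩
    have hCj := hCex ω i1 j hi1
    have hgj := hg0' ω j hCj
    have hRg := hRex ω _ _ hgj
    rcases Classical.em (U ω (g ω j)) with hU | hU
    · obtain ⟨n, hn⟩ := hU
      rcases n with _ | n
      · exact absurd rfl (hn.2 j hCj)
      · obtain ⟨i', h1, h2⟩ := (hDs n ω _).mp hn
        have hRi' := hDR n ω i' h1
        have hCf := hCex ω i' _ (hf0' ω i' hRi')
        have hfj : f ω i' = j := hgi' ω _ _ hCf hCj h2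
        refine ⟨i', Or.inl ⟨⟨n, h1⟩, hfj⟩, fun i'' hi'' => ?_⟩
        have hi'' := (hMmem _ _ _).mp hi''
        rcases hi'' with ⟨h3, h4⟩ | ⟨_, h3, _, h5⟩
        · exact hfi' ω i'' i' (hUR ω _ h3) hRi' (by rw [h4, hfj])
        · rw [← h5] at h3
          exact absurd ⟨n + 1, hn⟩ h3
    · refine ⟨g ω j, Or.inr ⟨hRg, hU, hCj, rfl⟩, fun i'' hi'' => ?_⟩
      have hi'' := (hMmem _ _ _).mp hi''
      rcases hi'' with ⟨h3, h4⟩ | ⟨_, _, _, h5⟩
      · have := hUstep ω i'' h3
        rw [h4] at this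
        exact absurd this hU
      · exact h5.symm

/-- the same for encodable index types. -/
theorem birkhoff {Ω I J : Type*} [MeasurableSpace Ω] [Encodable I] [Encodable J]
    (p : Ω → I → J → ℝ≥0∞)
    (hp : ∀ i j, Measurable fun ω => p ω i j)
    (hrow : ∀ ω i, ∑' j, p ω i j = 0 ∨ ∑' j, p ω i j = 1)
    (hcol : ∀ ω j, ∑' i, p ω i j = 0 ∨ ∑' i, p ω i j = 1) :
    ∃ M : I → J → Set Ω, (∀ i j, MeasurableSet (M i j)) ∧
      (∀ ω i j, ω ∈ M i j → p ω i j ≠ 0) ∧
      (∀ ω i, (∃ j, p ω i j ≠ 0) → ∃! j, ω ∈ M i j) ∧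
      (∀ ω j, (∃ i, p ω i j ≠ 0) → ∃! i, ω ∈ M i j) := by
  classical
  let p' : Ω → ℕ → ℕ → ℝ≥0∞ := fun ω m n =>
    (Encodable.decode₂ I m).elim 0 fun i => (Encodable.decode₂ J n).elim 0 fun j => p ω i j
  have hpe : ∀ ω i j, p' ω (Encodable.encode i) (Encodable.encode j) = p ω i j := by
    intro ω i j
    simp [p']
  have hpnone1 : ∀ ω m n, Encodable.decode₂ I m = none → p' ω m n = 0 := by
    intro ω m n h
    simp [p', h]
  have hpnone2 : ∀ ω m n, Encodable.decode₂ J n = none → p' ω m n = 0 := by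
    intro ω m n h
    cases hd : Encodable.decode₂ I m <;> simp [p', h, hd]
  have hsome1 : ∀ ω m n, p' ω m n ≠ 0 → ∃ i : I, Encodable.encode i = m := by
    intro ω m n h
    cases hd : Encodable.decode₂ I m with
    | none => exact absurd (hpnone1 ω m n hd) h
    | some i => exact ⟨i, Encodable.decode₂_eq_some.mp hd⟩
  have hsome2 : ∀ ω m n, p' ω m n ≠ 0 → ∃ j : J, Encodable.encode j = n := by
    intro ω m n h
    cases hd : Encodable.decode₂ J n with
    | none => exact absurd (hpnone2 ω m n hd) h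
    | some j => exact ⟨j, Encodable.decode₂_eq_some.mp hd⟩
  have hrs : ∀ ω i, ∑' n, p' ω (Encodable.encode i) n = ∑' j, p ω i j := by
    intro ω i
    rw [← Function.Injective.tsum_eq (g := (Encodable.encode : J → ℕ)) Encodable.encode_injective]
    · exact tsum_congr fun j => hpe ω i j
    · intro n hn
      obtain ⟨j, hj⟩ := hsome2 ω _ n hn
      exact ⟨j, hj⟩
  have hcs : ∀ ω j, ∑' m, p' ω m (Encodable.encode j) = ∑' i, p ω i j := by
    intro ω j
    rw [← Function.Injective.tsum_eq (g := (Encodable.encode : I → ℕ)) Encodable.encode_injective]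
    · exact tsum_congr fun i => hpe ω i j
    · intro m hm
      obtain ⟨i, hi⟩ := hsome1 ω m _ hm
      exact ⟨i, hi⟩
  have hp'm : ∀ m n, Measurable fun ω => p' ω m n := by
    intro m n
    simp only [p']
    cases Encodable.decode₂ I m with
    | none => exact measurable_const
    | some i =>
      cases Encodable.decode₂ J n with
      | none => exact measurable_const
      | some j => exact hp i j
  have hrow' : ∀ ω m, ∑' n, p' ω m n = 0 ∨ ∑' n, p' ω m n = 1 := by
    intro ω m
    cases hd : Encodable.decode₂ I m with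
    | none => left; rw [ENNReal.tsum_eq_zero]; exact fun n => hpnone1 ω m n hd
    | some i =>
      rw [← Encodable.decode₂_eq_some.mp hd, hrs]
      exact hrow ω i
  have hcol' : ∀ ω n, ∑' m, p' ω m n = 0 ∨ ∑' m, p' ω m n = 1 := by
    intro ω n
    cases hd : Encodable.decode₂ J n with
    | none => left; rw [ENNReal.tsum_eq_zero]; exact fun m => hpnone2 ω m n hd
    | some j =>
      rw [← Encodable.decode₂_eq_some.mp hd, hcs]
      exact hcol ω j
  obtain ⟨M', h1, h2, h3, h4⟩ := birkhoff_nat p' hp'm hrow' hcol'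
  refine ⟨fun i j => M' (Encodable.encode i) (Encodable.encode j), fun i j => h1 _ _,
    fun ω i j h => ?_, ?_, ?_⟩
  · have := h2 ω _ _ h
    rwa [hpe] at this
  · rintro ω i ⟨j, hj⟩
    obtain ⟨n, hn, hun⟩ := h3 ω (Encodable.encode i) ⟨Encodable.encode j, by rw [hpe]; exact hj⟩
    obtain ⟨j', rfl⟩ := hsome2 ω _ n (h2 ω _ _ hn)
    exact ⟨j', hn, fun j'' hj'' => Encodable.encode_injective (hun _ hj'')⟩
  · rintro ω j ⟨i, hi⟩
    obtain ⟨m, hm, hum⟩ := h4 ω (Encodable.encode j) ⟨Encodable.encode i, by rw [hpe]; exact hi⟩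
    obtain ⟨i', rfl⟩ := hsome1 ω m _ (h2 ω _ _ hm)
    exact ⟨i', hm, fun i'' hi'' => Encodable.encode_injective (hum _ hi'')⟩

end Pool.Agent.Helper152.LarC
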