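import Mathlib

set_option autoImplicit false
open MeasureTheory
open scoped ENNReal

namespace Pool.Agent.Helper152.LarB

lemma enorm_add_sq_le (a b : ℂ) : ‖a + b‖ₑ ^ 2 ≤ 2 * (‖a‖ₑ ^ 2 + ‖b‖ₑ ^ 2) := by
  rw [← ofReal_norm, ← ofReal_norm, ← ofReal_norm, ← ENNReal.ofReal_pow (norm_nonneg _),
    ← ENNReal.ofReal_pow (norm_nonneg _), ← ENNReal.ofReal_pow (norm_nonneg _),
    ← ENNReal.ofReal_add (by positivity) (by positivity)]
  rw [show (2:ℝ≥0∞) = ENNReal.ofReal 2 by simp, ← ENNReal.ofReal_mul (by norm_num)]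
  apply ENNReal.ofReal_le_ofReal
  have := norm_add_le a b
  nlinarith [norm_nonneg (a+b), norm_nonneg a, norm_nonneg b, sq_nonneg (‖a‖-‖b‖)]

/-- Parseval for indicator functions -/
theorem total (F : ℤ → ℤ → ℝ → ℂ) (hF : ∀ j k, MemLp (F j k) 2 volume)
    (ho : ∀ j k j' k' : ℤ, ∫ ξ, F j k ξ * (starRingEnd ℂ) (F j' k' ξ) =
        if j = j' ∧ k = k' then (1:ℂ) else 0)
    (hc : ∀ g : ℝ → ℂ, MemLp g 2 volume →
        (∀ j k : ℤ, ∫ ξ, g ξ * (starRingEnd ℂ) (F j k ξ) = 0) → g =ᵐ[volume] 0)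
    (A : Set ℝ) (hA : MeasurableSet A) (hAf : volume A ≠ ∞) :
    ∑' j : ℤ, ∑' k : ℤ, ‖∫ x in A, F j k x‖ₑ ^ 2 = volume A := by
  let e : ℤ × ℤ → Lp ℂ 2 (volume : Measure ℝ) := fun p => (hF p.1 p.2).toLp (F p.1 p.2)
  have hinner : ∀ (p : ℤ × ℤ) (g : Lp ℂ 2 (volume : Measure ℝ)),
      inner ℂ (e p) g = ∫ ξ, g ξ * (starRingEnd ℂ) (F p.1 p.2 ξ) := by
    intro p g
    rw [MeasureTheory.L2.inner_def]
    apply integral_congr_ae
    filter_upwards [(hF p.1 p.2).coeFn_toLp] with x hx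
    have : (e p : ℝ → ℂ) x = F p.1 p.2 x := hx
    rw [this, RCLike.inner_apply]
  have horth : Orthonormal ℂ e := by
    rw [orthonormal_iff_ite]
    intro i j
    rw [hinner]
    have : ∫ ξ, (e j) ξ * (starRingEnd ℂ) (F i.1 i.2 ξ) = ∫ ξ, F j.1 j.2 ξ * (starRingEnd ℂ) (F i.1 i.2 ξ) := by
      apply integral_congr_ae
      filter_upwards [(hF j.1 j.2).coeFn_toLp] with x hx
      have : (e j : ℝ → ℂ) x = F j.1 j.2 x := hx
      rw [this]
    rw [this, ho]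
    by_cases hij : i = j
    · subst hij; simp
    · rw [if_neg hij, if_neg]
      rintro ⟨h1, h2⟩
      exact hij (Prod.ext h1.symm h2.symm)
  have hbot : (Submodule.span ℂ (Set.range e))ᗮ = ⊥ := by
    rw [Submodule.eq_bot_iff]
    intro g hg
    have h1 : ∀ p, inner ℂ (e p) g = 0 := fun p =>
      (Submodule.mem_orthogonal _ _).mp hg _ (Submodule.subset_span ⟨p, rfl⟩)
    have h2 := hc g (Lp.memLp g) (fun j k => by
      have := h1 (j, k)
      rw [hinner (j, k) g] at this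
      exact this)
    exact (Lp.eq_zero_iff_ae_eq_zero).mpr h2
  let b := HilbertBasis.mkOfOrthogonalEqBot horth hbot
  have hb : ∀ i, b i = e i := fun i => by simp [b]
  set f := indicatorConstLp 2 hA hAf (1:ℂ) with hf
  have hsum := b.hasSum_inner_mul_inner f f
  have hfe : ∀ i : ℤ × ℤ, inner ℂ f (b i) = ∫ x in A, F i.1 i.2 x := by
    intro i
    rw [hb, hf, L2.inner_indicatorConstLp_one]
    apply setIntegral_congr_ae hA
    filter_upwards [(hF i.1 i.2).coeFn_toLp] with x hx _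
    exact hx
  have hff : inner ℂ f f = (((volume A).toReal : ℝ) : ℂ) := by
    have h1 : inner ℂ (indicatorConstLp 2 hA hAf (1:ℂ)) f = ∫ x in A, f x := L2.inner_indicatorConstLp_one hA hAf f
    have h2 : ∫ x in A, f x = ∫ x in A, (1:ℂ) := by
      apply setIntegral_congr_ae hA
      exact indicatorConstLp_coeFn_mem
    rw [← hf] at h1
    rw [h1, h2, setIntegral_const]
    simp [Measure.real]
  have hterm : ∀ i : ℤ × ℤ, inner ℂ f (b i) * inner ℂ (b i) f = ((‖∫ x in A, F i.1 i.2 x‖ ^ 2 : ℝ) : ℂ) := by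
    intro i
    rw [← inner_conj_symm (b i) f, hfe i, Complex.mul_conj']
    push_cast; rfl
  simp only [hterm, hff] at hsum
  have hsum2 : HasSum (fun i : ℤ × ℤ => ‖∫ x in A, F i.1 i.2 x‖ ^ 2) (volume A).toReal := by
    exact_mod_cast hsum
  have h3 : ∑' i : ℤ × ℤ, ‖∫ x in A, F i.1 i.2 x‖ₑ ^ 2 = volume A := by
    have h4 : ∀ i : ℤ × ℤ, ‖∫ x in A, F i.1 i.2 x‖ₑ ^ 2 = ENNReal.ofReal (‖∫ x in A, F i.1 i.2 x‖ ^ 2) := by
      intro i
      rw [← ofReal_norm, ENNReal.ofReal_pow (norm_nonneg _)]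
    simp only [h4]
    rw [← ENNReal.ofReal_tsum_of_nonneg (fun i => by positivity) hsum2.summable, hsum2.tsum_eq,
      ENNReal.ofReal_toReal hAf]
  rw [← h3, ENNReal.tsum_prod']

lemma norm_exp_aux (k : ℤ) (y : ℝ) :
    ‖Complex.exp (-(2 * (Real.pi : ℂ) * Complex.I * (k : ℂ) * (y : ℂ)))‖ = 1 := by
  have : (-(2 * (Real.pi : ℂ) * Complex.I * (k : ℂ) * (y : ℂ))) = ((-(2 * Real.pi * k * y) : ℝ) : ℂ) * Complex.I := by
    push_cast; ring
  rw [this, Complex.norm_exp_ofReal_mul_I]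

/-- square integrability of the dilates -/
lemma memLp_dil (φ : ℝ → ℂ) (hm : Measurable φ) (hφ : MemLp φ 2 volume) {a : ℝ} (ha : a ≠ 0) :
    MemLp (fun x => φ (a * x)) 2 volume := by
  have hm' : Measurable (fun x => φ (a * x)) := hm.comp (measurable_const_mul a)
  rw [memLp_two_iff_integrable_sq_norm hm'.aestronglyMeasurable]
  have := (memLp_two_iff_integrable_sq_norm hm.aestronglyMeasurable).mp hφ
  exact this.comp_mul_left' ha

lemma memLp_F (φ : ℝ → ℂ) (hm : Measurable φ) (hφ : MemLp φ 2 volume) {a : ℝ} (ha : a ≠ 0) (s : ℝ) (k : ℤ) :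
    MemLp (fun ξ => (s : ℂ) * Complex.exp (-(2 * (Real.pi : ℂ) * Complex.I * (k : ℂ) * ((a * ξ : ℝ) : ℂ))) *
      φ (a * ξ)) 2 volume := by
  have h1 := (memLp_dil φ hm hφ ha).const_mul (s : ℂ)
  refine h1.congr_norm ?_ ?_
  · apply Measurable.aestronglyMeasurable
    apply Measurable.mul
    · apply Measurable.const_mul
      apply Complex.continuous_exp.measurable.comp
      fun_prop
    · exact hm.comp (measurable_const_mul a)
  · refine Filter.Eventually.of_forall fun ξ => ?_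
    rw [norm_mul, norm_mul, norm_mul, norm_exp_aux, mul_one]

/-- exact formula for sets in a short interval -/
theorem fact1 (φ : ℝ → ℂ) (F : ℤ → ℤ → ℝ → ℂ) (hm : Measurable φ) (hφ : MemLp φ 2 volume)
    (hF : ∀ (j k : ℤ) (ξ : ℝ), F j k ξ =
        ((Real.sqrt ((2:ℝ) ^ (-j)) : ℝ) : ℂ) *
          Complex.exp (-(2 * (Real.pi : ℂ) * Complex.I * (k : ℂ) * ((((2:ℝ) ^ (-j)) * ξ : ℝ) : ℂ))) *
          φ (((2:ℝ) ^ (-j)) * ξ))
    (j : ℤ) (c : ℝ) (A : Set ℝ) (hA : MeasurableSet A) (hAc : A ⊆ Set.Ioc c (c + (2:ℝ) ^ j)) :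
    ∑' k : ℤ, ‖∫ x in A, F j k x‖ₑ ^ 2 = ∫⁻ x in A, ‖φ ((2:ℝ) ^ (-j) * x)‖ₑ ^ 2 := by
  have hT : 0 < (2:ℝ) ^ j := by positivity
  set T : ℝ := (2:ℝ) ^ j with hTdef
  have haT : (2:ℝ) ^ (-j) = T⁻¹ := by rw [zpow_neg]
  set g : ℝ → ℂ := A.indicator (fun x => φ (T⁻¹ * x)) with hg
  have hdil := memLp_dil φ hm hφ (inv_ne_zero hT.ne')
  have hgL : MemLp g 2 volume := hdil.indicator hA
  have hs := hasSum_sq_fourierCoeffOn (a := c) (b := c + T) (by linarith) (hgL.restrict _)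
  have hk : ∀ k : ℤ, ‖∫ x in A, F j k x‖ ^ 2 = T * ‖fourierCoeffOn (show c < c + T by linarith) g k‖ ^ 2 := by
    intro k
    rw [fourierCoeffOn_eq_integral, intervalIntegral.integral_of_le (by linarith)]
    have h1 : ∫ x in Set.Ioc c (c + T), fourier (-k) (x : AddCircle (c + T - c)) • g x
        = ∫ x in A, fourier (-k) (x : AddCircle (c + T - c)) • φ (T⁻¹ * x) := by
      have h2 : (fun x : ℝ => fourier (-k) (x : AddCircle (c + T - c)) • g x)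
          = A.indicator (fun x : ℝ => fourier (-k) (x : AddCircle (c + T - c)) • φ (T⁻¹ * x)) := by
        ext x
        by_cases hx : x ∈ A
        · simp [hg, hx]
        · simp [hg, hx]
      rw [h2, setIntegral_indicator hA, Set.inter_eq_self_of_subset_right hAc]
    rw [h1]
    have h3 : ∫ x in A, F j k x = ((Real.sqrt T⁻¹ : ℝ) : ℂ) * ∫ x in A, fourier (-k) (x : AddCircle (c + T - c)) • φ (T⁻¹ * x) := by
      rw [← integral_const_mul]
      apply integral_congr_ae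
      refine Filter.Eventually.of_forall fun x => ?_
      simp only
      rw [hF, haT, fourier_coe_apply, smul_eq_mul, mul_assoc]
      congr 3
      rw [add_sub_cancel_left]
      push_cast
      field_simp
    rw [h3, norm_mul, norm_smul, Complex.norm_real, Real.norm_eq_abs, Real.norm_eq_abs,
      abs_of_nonneg (Real.sqrt_nonneg _), abs_of_pos (by rw [add_sub_cancel_left]; positivity), add_sub_cancel_left,
      mul_pow, mul_pow, Real.sq_sqrt (by positivity)]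
    field_simp
  have h5 : HasSum (fun k : ℤ => ‖∫ x in A, F j k x‖ ^ 2) (∫ x in A, ‖φ (T⁻¹ * x)‖ ^ 2) := by
    have h6 := hs.mul_left T
    simp only [← hk] at h6
    rw [add_sub_cancel_left, smul_eq_mul, ← mul_assoc, mul_inv_cancel₀ hT.ne', one_mul,
      intervalIntegral.integral_of_le (by linarith)] at h6
    have h7 : (fun x => ‖g x‖ ^ 2) = A.indicator (fun x => ‖φ (T⁻¹ * x)‖ ^ 2) := by
      ext x
      by_cases hx : x ∈ A
      · simp [hg, hx]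
      · simp [hg, hx]
    rw [h7, setIntegral_indicator hA, Set.inter_eq_self_of_subset_right hAc] at h6
    exact h6
  have hint : Integrable (fun x => ‖φ (T⁻¹ * x)‖ ^ 2) (volume.restrict A) :=
    ((memLp_two_iff_integrable_sq_norm hdil.1).mp hdil).integrableOn
  have h8 : ∀ z : ℂ, ‖z‖ₑ ^ 2 = ENNReal.ofReal (‖z‖ ^ 2) := by
    intro z
    rw [← ofReal_norm, ENNReal.ofReal_pow (norm_nonneg _)]
  simp only [h8]
  rw [← ENNReal.ofReal_tsum_of_nonneg (fun i => by positivity) h5.summable, h5.tsum_eq,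
    ofReal_integral_eq_lintegral_ofReal hint (Filter.Eventually.of_forall fun x => by positivity), haT]


/-- doubling bound -/
theorem fact2 (φ : ℝ → ℂ) (F : ℤ → ℤ → ℝ → ℂ) (hm : Measurable φ) (hφ : MemLp φ 2 volume)
    (hF : ∀ (j k : ℤ) (ξ : ℝ), F j k ξ =
        ((Real.sqrt ((2:ℝ) ^ (-j)) : ℝ) : ℂ) *
          Complex.exp (-(2 * (Real.pi : ℂ) * Complex.I * (k : ℂ) * ((((2:ℝ) ^ (-j)) * ξ : ℝ) : ℂ))) *
          φ (((2:ℝ) ^ (-j)) * ξ))
    (hFL : ∀ j k, MemLp (F j k) 2 volume) (j : ℤ) (n : ℕ) :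
    ∀ (c : ℝ) (A : Set ℝ), MeasurableSet A → A ⊆ Set.Ioc c (c + 2 ^ n * (2:ℝ) ^ j) →
    ∑' k : ℤ, ‖∫ x in A, F j k x‖ₑ ^ 2 ≤ 2 ^ n * ∫⁻ x in A, ‖φ ((2:ℝ) ^ (-j) * x)‖ₑ ^ 2 := by
  induction n with
  | zero =>
    intro c A hA hAc
    rw [pow_zero, one_mul] at hAc ⊢
    exact (fact1 φ F hm hφ hF j c A hA hAc).le
  | succ n ih =>
    intro c A hA hAc
    set m : ℝ := c + 2 ^ n * (2:ℝ) ^ j with hmdef
    have hpos : 0 < 2 ^ n * (2:ℝ) ^ j := by positivity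
    set A1 : Set ℝ := A ∩ Set.Ioc c m with hA1
    set A2 : Set ℝ := A ∩ Set.Ioc m (m + 2 ^ n * (2:ℝ) ^ j) with hA2
    have hA1m : MeasurableSet A1 := hA.inter measurableSet_Ioc
    have hA2m : MeasurableSet A2 := hA.inter measurableSet_Ioc
    have hAeq : A = A1 ∪ A2 := by
      ext x
      constructor
      · intro hx
        have h1 := hAc hx
        rw [Set.mem_Ioc, pow_succ] at h1
        by_cases hxm : x ≤ m
        · exact Or.inl ⟨hx, h1.1, hxm⟩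
        · refine Or.inr ⟨hx, lt_of_not_ge hxm, ?_⟩
          rw [hmdef]; nlinarith [h1.2]
      · rintro (h | h) <;> exact h.1
    have hdisj : Disjoint A1 A2 := by
      rw [Set.disjoint_left]
      rintro x ⟨_, h1⟩ ⟨_, h2⟩
      exact absurd h1.2 (not_le.mpr h2.1)
    have hint : ∀ (k : ℤ) (B : Set ℝ), B ⊆ Set.Ioc c (c + 2 ^ (n + 1) * (2:ℝ) ^ j) → IntegrableOn (F j k) B := by
      intro k B hB
      have hfin : volume B < ∞ := (measure_mono hB).trans_lt measure_Ioc_lt_top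
      have : IsFiniteMeasure (volume.restrict B) := ⟨by rw [Measure.restrict_apply_univ]; exact hfin⟩
      exact ((hFL j k).restrict B).integrable (by norm_num)
    have h1 := ih c A1 hA1m (fun x hx => hx.2)
    have h2 := ih m A2 hA2m (fun x hx => hx.2)
    have hsub1 : A1 ⊆ Set.Ioc c (c + 2 ^ (n + 1) * (2:ℝ) ^ j) := fun x hx => hAc hx.1
    have hsub2 : A2 ⊆ Set.Ioc c (c + 2 ^ (n + 1) * (2:ℝ) ^ j) := fun x hx => hAc hx.1
    calc ∑' k : ℤ, ‖∫ x in A, F j k x‖ₑ ^ 2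
        = ∑' k : ℤ, ‖(∫ x in A1, F j k x) + ∫ x in A2, F j k x‖ₑ ^ 2 := by
          congr 1; ext k
          rw [hAeq, setIntegral_union hdisj hA2m (hint k A1 hsub1) (hint k A2 hsub2)]
      _ ≤ ∑' k : ℤ, 2 * (‖∫ x in A1, F j k x‖ₑ ^ 2 + ‖∫ x in A2, F j k x‖ₑ ^ 2) :=
          ENNReal.tsum_le_tsum fun k => enorm_add_sq_le _ _
      _ = 2 * (∑' k : ℤ, ‖∫ x in A1, F j k x‖ₑ ^ 2 + ∑' k : ℤ, ‖∫ x in A2, F j k x‖ₑ ^ 2) := by
          rw [ENNReal.tsum_mul_left, ENNReal.tsum_add]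
      _ ≤ 2 * ((2 ^ n * ∫⁻ x in A1, ‖φ ((2:ℝ) ^ (-j) * x)‖ₑ ^ 2) + 2 ^ n * ∫⁻ x in A2, ‖φ ((2:ℝ) ^ (-j) * x)‖ₑ ^ 2) :=
          mul_le_mul' le_rfl (add_le_add h1 h2)
      _ = 2 ^ (n + 1) * ∫⁻ x in A, ‖φ ((2:ℝ) ^ (-j) * x)‖ₑ ^ 2 := by
          have h9 : ∫⁻ x in A, ‖φ ((2:ℝ) ^ (-j) * x)‖ₑ ^ 2 = (∫⁻ x in A1, ‖φ ((2:ℝ) ^ (-j) * x)‖ₑ ^ 2) +
              ∫⁻ x in A2, ‖φ ((2:ℝ) ^ (-j) * x)‖ₑ ^ 2 := by
            conv_lhs => rw [hAeq]
            exact lintegral_union hA2m hdisj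
          rw [h9, pow_succ]; ring

lemma ae_of_intervals {ℓ : ℝ} (hℓ : 0 < ℓ) (P : ℝ → Prop)
    (h : ∀ c : ℝ, ∀ᵐ x ∂(volume.restrict (Set.Ioc c (c + ℓ))), P x) : ∀ᵐ x : ℝ, P x := by
  have h1 : (⋃ n : ℤ, Set.Ioc (n • ℓ) ((n + 1) • ℓ)) = Set.univ := iUnion_Ioc_zsmul hℓ
  rw [← Measure.restrict_univ (μ := (volume : Measure ℝ)), ← h1, ae_restrict_iUnion_iff]
  intro n
  have := h (n • ℓ)
  rwa [show n • ℓ + ℓ = (n + 1) • ℓ by rw [add_zsmul, one_zsmul]] at this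

lemma ae_le_of_sets {ℓ c : ℝ} (f g : ℝ → ℝ≥0∞) (hf : Measurable f)
    (h : ∀ A : Set ℝ, MeasurableSet A → A ⊆ Set.Ioc c (c + ℓ) → ∫⁻ x in A, f x ≤ ∫⁻ x in A, g x) :
    ∀ᵐ x ∂(volume.restrict (Set.Ioc c (c + ℓ))), f x ≤ g x := by
  apply ae_le_of_forall_setLIntegral_le_of_sigmaFinite hf
  intro s hs _
  rw [Measure.restrict_restrict hs]
  exact h _ (hs.inter measurableSet_Ioc) Set.inter_subset_right

lemma lintegral_dil {a : ℝ} (ha : 0 < a) (f : ℝ → ℝ≥0∞) (hf : Measurable f) :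
    ENNReal.ofReal a * ∫⁻ x, f (a * x) = ∫⁻ x, f x := by
  conv_rhs => rw [← Real.smul_map_volume_mul_left ha.ne']
  rw [lintegral_smul_measure, lintegral_map hf (measurable_const_mul a), abs_of_pos ha, smul_eq_mul]

/-- dyadic shells -/
def Sh (l : ℤ) : Set ℝ := {x | (2:ℝ) ^ l ≤ |x| ∧ |x| < (2:ℝ) ^ (l + 1)}

lemma Sh_meas (l : ℤ) : MeasurableSet (Sh l) := by
  apply MeasurableSet.inter
  · exact measurableSet_le measurable_const measurable_norm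
  · exact measurableSet_lt measurable_norm measurable_const

lemma Sh_disj {l l' : ℤ} (h : l < l') : Disjoint (Sh l) (Sh l') := by
  rw [Set.disjoint_left]
  rintro x ⟨_, h1⟩ ⟨h2, _⟩
  have h3 : (2:ℝ) ^ (l + 1) ≤ (2:ℝ) ^ l' := zpow_le_zpow_right₀ (by norm_num) (by omega)
  linarith

lemma Sh_dil (l j : ℤ) (x : ℝ) : (2:ℝ) ^ (-j) * x ∈ Sh (l - j) ↔ x ∈ Sh l := by
  have h0 : (0:ℝ) < 2 ^ (-j) := by positivity
  simp only [Sh, Set.mem_ofPred_eq, abs_mul, abs_of_pos h0]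
  rw [show l - j = -j + l by ring, show -j + l + 1 = -j + (l + 1) by ring, zpow_add₀ (by norm_num), zpow_add₀ (by norm_num)]
  rw [mul_le_mul_iff_right₀ h0, mul_lt_mul_iff_right₀ h0]

lemma K_finite (φ : ℝ → ℂ) (hm : Measurable φ) (hφ : MemLp φ 2 volume) :
    ∀ᵐ x : ℝ, ∑' j : ℤ, ENNReal.ofReal ((2:ℝ) ^ (-j)) * ‖φ ((2:ℝ) ^ (-j) * x)‖ₑ ^ 2 < ∞ := by
  have hmeas : ∀ j : ℤ, Measurable (fun x : ℝ => ENNReal.ofReal ((2:ℝ) ^ (-j)) * ‖φ ((2:ℝ) ^ (-j) * x)‖ₑ ^ 2) := by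
    intro j
    exact ((hm.comp (measurable_const_mul _)).enorm.pow_const 2).const_mul _
  have hφm : Measurable (fun x => ‖φ x‖ₑ ^ 2) := hm.enorm.pow_const 2
  have hfin : ∫⁻ x, ‖φ x‖ₑ ^ 2 < ∞ := by
    have h1 := ((memLp_two_iff_integrable_sq_norm hm.aestronglyMeasurable).mp hφ).lintegral_lt_top
    have h2 : (fun x => ‖φ x‖ₑ ^ 2) = fun x => ENNReal.ofReal (‖φ x‖ ^ 2) := by
      ext x
      rw [← ofReal_norm, ENNReal.ofReal_pow (norm_nonneg _)]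
    rw [h2]; exact h1
  have hl : ∀ l : ℤ, ∀ᵐ x : ℝ, x ∈ Sh l → ∑' j : ℤ, ENNReal.ofReal ((2:ℝ) ^ (-j)) * ‖φ ((2:ℝ) ^ (-j) * x)‖ₑ ^ 2 < ∞ := by
    intro l
    rw [← ae_restrict_iff' (Sh_meas l)]
    apply ae_lt_top (Measurable.tsum hmeas)
    rw [lintegral_tsum (fun j => (hmeas j).aemeasurable)]
    have h2 : ∀ j : ℤ, ∫⁻ x in Sh l, ENNReal.ofReal ((2:ℝ) ^ (-j)) * ‖φ ((2:ℝ) ^ (-j) * x)‖ₑ ^ 2
        = ∫⁻ x in Sh (l - j), ‖φ x‖ₑ ^ 2 := by
      intro j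
      have h7 : Measurable (fun x : ℝ => ‖φ ((2:ℝ) ^ (-j) * x)‖ₑ ^ 2) := (hm.comp (measurable_const_mul _)).enorm.pow_const 2
      rw [lintegral_const_mul _ h7]
      rw [← lintegral_indicator (Sh_meas l), ← lintegral_indicator (Sh_meas (l - j))]
      rw [← lintegral_dil (a := (2:ℝ) ^ (-j)) (by positivity) _ (hφm.indicator (Sh_meas (l - j)))]
      congr 2
      ext x
      by_cases hx : x ∈ Sh l
      · rw [Set.indicator_of_mem hx, Set.indicator_of_mem ((Sh_dil l j x).mpr hx)]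
      · rw [Set.indicator_of_notMem hx, Set.indicator_of_notMem (fun h => hx ((Sh_dil l j x).mp h))]
    simp only [h2]
    rw [← lintegral_iUnion (fun j => Sh_meas (l - j))]
    · exact ((setLIntegral_le_lintegral _ _).trans_lt hfin).ne
    · intro i j hij
      rcases lt_or_gt_of_ne hij with h | h
      · exact (Sh_disj (show l - j < l - i by omega)).symm
      · exact Sh_disj (show l - i < l - j by omega)
  have h0 : ∀ᵐ x : ℝ, x ≠ 0 := by
    have : volume ({0} : Set ℝ) = 0 := measure_singleton 0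
    exact compl_mem_ae_iff.mpr this
  filter_upwards [ae_all_iff.mpr hl, h0] with x hx hx0
  obtain ⟨n, hn⟩ := exists_mem_Ico_zpow (abs_pos.mpr hx0) (show (1:ℝ) < 2 by norm_num)
  exact hx n ⟨hn.1, hn.2⟩

/-- Calderon condition from orthonormality and completeness. -/
theorem calderon
    (φ : ℝ → ℂ) (F : ℤ → ℤ → ℝ → ℂ) (hm : Measurable φ) (hφ : MemLp φ 2 volume)
    (hF : ∀ (j k : ℤ) (ξ : ℝ), F j k ξ =
        ((Real.sqrt ((2:ℝ) ^ (-j)) : ℝ) : ℂ) *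
          Complex.exp (-(2 * (Real.pi : ℂ) * Complex.I * (k : ℂ) * ((((2:ℝ) ^ (-j)) * ξ : ℝ) : ℂ))) *
          φ (((2:ℝ) ^ (-j)) * ξ))
    (ho : ∀ j k j' k' : ℤ, ∫ ξ, F j k ξ * (starRingEnd ℂ) (F j' k' ξ) =
        if j = j' ∧ k = k' then (1:ℂ) else 0)
    (hc : ∀ g : ℝ → ℂ, MemLp g 2 volume →
        (∀ j k : ℤ, ∫ ξ, g ξ * (starRingEnd ℂ) (F j k ξ) = 0) → g =ᵐ[volume] 0) :
    ∀ᵐ x : ℝ, ∑' j : ℤ, ‖φ ((2:ℝ) ^ j * x)‖ₑ ^ 2 = 1 := by
  have hFL : ∀ j k, MemLp (F j k) 2 volume := by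
    intro j k
    have h1 := memLp_F φ hm hφ (a := (2:ℝ) ^ (-j)) (by positivity) (Real.sqrt ((2:ℝ) ^ (-j))) k
    have h2 : F j k = (fun ξ => ((Real.sqrt ((2:ℝ) ^ (-j)) : ℝ) : ℂ) *
          Complex.exp (-(2 * (Real.pi : ℂ) * Complex.I * (k : ℂ) * ((((2:ℝ) ^ (-j)) * ξ : ℝ) : ℂ))) *
          φ (((2:ℝ) ^ (-j)) * ξ)) := by
      ext ξ; exact hF j k ξ
    rw [h2]; exact h1
  have htot := fun (A : Set ℝ) (hA : MeasurableSet A) (hAf : volume A ≠ ∞) => total F hFL ho hc A hA hAf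
  have hφj : ∀ j : ℤ, Measurable (fun x : ℝ => ‖φ ((2:ℝ) ^ (-j) * x)‖ₑ ^ 2) := fun j =>
    (hm.comp (measurable_const_mul _)).enorm.pow_const 2
  have hsubfin : ∀ (c ℓ : ℝ) (A : Set ℝ), A ⊆ Set.Ioc c (c + ℓ) → volume A ≠ ∞ := fun c ℓ A hA =>
    ((measure_mono hA).trans_lt measure_Ioc_lt_top).ne
  -- upper bound
  have hup : ∀ S : Finset ℤ, ∀ᵐ x : ℝ, ∑ j ∈ S, ‖φ ((2:ℝ) ^ (-j) * x)‖ₑ ^ 2 ≤ 1 := by
    intro S
    obtain ⟨M, hM⟩ : ∃ M : ℤ, ∀ j ∈ S, M ≤ j := by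
      obtain ⟨M, hM⟩ := S.bddBelow
      exact ⟨M, fun j hj => hM hj⟩
    apply ae_of_intervals (ℓ := (2:ℝ) ^ M) (by positivity)
    intro c
    apply ae_le_of_sets _ (fun _ => 1)
    · exact Finset.measurable_sum _ (fun j _ => hφj j)
    · intro A hA hAc
      rw [lintegral_finsetSum _ (fun j _ => hφj j), setLIntegral_const, one_mul, ← htot A hA (hsubfin _ _ A hAc)]
      calc ∑ j ∈ S, ∫⁻ x in A, ‖φ ((2:ℝ) ^ (-j) * x)‖ₑ ^ 2
          = ∑ j ∈ S, ∑' k : ℤ, ‖∫ x in A, F j k x‖ₑ ^ 2 := by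
            apply Finset.sum_congr rfl
            intro j hj
            rw [fact1 φ F hm hφ hF j c A hA]
            refine hAc.trans (Set.Ioc_subset_Ioc_right ?_)
            have : (2:ℝ) ^ M ≤ (2:ℝ) ^ j := zpow_le_zpow_right₀ (by norm_num) (hM j hj)
            linarith
        _ ≤ _ := ENNReal.sum_le_tsum _
  -- lower bound
  have hlow : ∀ N : ℕ, ∀ᵐ x : ℝ, 1 ≤ ∑' j : ℤ, ‖φ ((2:ℝ) ^ (-j) * x)‖ₑ ^ 2 + ENNReal.ofReal ((2:ℝ) ^ (-(N:ℤ))) *
      ∑' j : ℤ, ENNReal.ofReal ((2:ℝ) ^ (-j)) * ‖φ ((2:ℝ) ^ (-j) * x)‖ₑ ^ 2 := by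
    intro N
    apply ae_of_intervals (ℓ := (2:ℝ) ^ (-(N:ℤ))) (by positivity)
    intro c
    apply ae_le_of_sets (fun _ => 1)
    · exact measurable_const
    · intro A hA hAc
      rw [setLIntegral_const, one_mul, ← htot A hA (hsubfin _ _ A hAc)]
      rw [lintegral_add_left (Measurable.tsum hφj), lintegral_const_mul _ (Measurable.tsum fun j => (hφj j).const_mul _),
        lintegral_tsum (fun j => (hφj j).aemeasurable), lintegral_tsum (fun j => ((hφj j).const_mul _).aemeasurable),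
        ← ENNReal.tsum_mul_left, ← ENNReal.tsum_add]
      apply ENNReal.tsum_le_tsum
      intro j
      rw [lintegral_const_mul _ (hφj j)]
      by_cases hj : -(N:ℤ) ≤ j
      · rw [fact1 φ F hm hφ hF j c A hA]
        · exact le_self_add
        · refine hAc.trans (Set.Ioc_subset_Ioc_right ?_)
          have : (2:ℝ) ^ (-(N:ℤ)) ≤ (2:ℝ) ^ j := zpow_le_zpow_right₀ (by norm_num) hj
          linarith
      · obtain ⟨n, hn⟩ := Int.eq_ofNat_of_zero_le (show 0 ≤ -(N:ℤ) - j by omega)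
        have h1 : (2:ℝ) ^ n * (2:ℝ) ^ j = (2:ℝ) ^ (-(N:ℤ)) := by
          rw [← zpow_natCast, ← zpow_add₀ (by norm_num)]
          congr 1; omega
        have h2 := fact2 φ F hm hφ hF hFL j n c A hA (by rw [h1]; exact hAc)
        refine h2.trans ?_
        have h3 : (2:ℝ≥0∞) ^ n = ENNReal.ofReal ((2:ℝ) ^ (-(N:ℤ))) * ENNReal.ofReal ((2:ℝ) ^ (-j)) := by
          rw [← ENNReal.ofReal_mul (by positivity), ← zpow_add₀ (by norm_num), show -(N:ℤ) + -j = (n:ℤ) by omega,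
            zpow_natCast, ENNReal.ofReal_pow (by norm_num)]
          simp
        rw [h3, mul_assoc]
        exact le_add_self
  filter_upwards [ae_all_iff.mpr hup, ae_all_iff.mpr hlow, K_finite φ hm hφ] with x h1 h2 h3
  have hre : ∑' j : ℤ, ‖φ ((2:ℝ) ^ j * x)‖ₑ ^ 2 = ∑' j : ℤ, ‖φ ((2:ℝ) ^ (-j) * x)‖ₑ ^ 2 :=
    ((Equiv.neg ℤ).tsum_eq (fun j : ℤ => ‖φ ((2:ℝ) ^ j * x)‖ₑ ^ 2)).symm
  rw [hre]
  apply le_antisymm
  · rw [ENNReal.tsum_eq_iSup_sum]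
    exact iSup_le h1
  · set K := ∑' j : ℤ, ENNReal.ofReal ((2:ℝ) ^ (-j)) * ‖φ ((2:ℝ) ^ (-j) * x)‖ₑ ^ 2 with hK
    set G := ∑' j : ℤ, ‖φ ((2:ℝ) ^ (-j) * x)‖ₑ ^ 2 with hG
    have ht : Filter.Tendsto (fun N : ℕ => G + ENNReal.ofReal ((2:ℝ) ^ (-(N:ℤ))) * K) Filter.atTop (nhds (G + 0 * K)) := by
      apply Filter.Tendsto.const_add
      apply ENNReal.Tendsto.mul_const _ (Or.inr h3.ne)
      have h4 : Filter.Tendsto (fun N : ℕ => (2:ℝ) ^ (-(N:ℤ))) Filter.atTop (nhds 0) := by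
        have h5 : (fun N : ℕ => (2:ℝ) ^ (-(N:ℤ))) = fun N : ℕ => ((1:ℝ) / 2) ^ N := by
          ext N; rw [zpow_neg, zpow_natCast, one_div, inv_pow]
        rw [h5]
        exact tendsto_pow_atTop_nhds_zero_of_lt_one (by norm_num) (by norm_num)
      have h6 := ENNReal.tendsto_ofReal h4
      rwa [ENNReal.ofReal_zero] at h6
    rw [zero_mul, add_zero] at ht
    exact ge_of_tendsto' ht h2

end Pool.Agent.Helper152.LarB
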