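import Mathlib

set_option autoImplicit false
open MeasureTheory
open scoped ENNReal

namespace Pool.Agent.Helper152.LarA

section aux
open Filter Topology


lemma restrict_shift (n : ℤ) (f : ℝ → ℝ≥0∞) :
    ∫⁻ x in Set.Ico (n:ℝ) (n+1), f x = ∫⁻ x in Set.Ico (0:ℝ) 1, f (x + n) := by
  have hmp := measurePreserving_add_right volume (n:ℝ)
  have hemb : MeasurableEmbedding (fun x : ℝ => x + n) := measurableEmbedding_addRight (n:ℝ)
  have h := hmp.setLIntegral_comp_preimage_emb hemb f (Set.Ico (n:ℝ) (n+1))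
  rw [← h]
  congr 2
  ext x
  simp only [Set.mem_preimage, Set.mem_Ico]
  constructor <;> rintro ⟨h1, h2⟩ <;> constructor <;> linarith

lemma restrict_shift' (n : ℤ) (f : ℝ → ℂ) :
    ∫ x in Set.Ico (n:ℝ) (n+1), f x = ∫ x in Set.Ico (0:ℝ) 1, f (x + n) := by
  have hmp := measurePreserving_add_right volume (n:ℝ)
  have hemb : MeasurableEmbedding (fun x : ℝ => x + n) := measurableEmbedding_addRight (n:ℝ)
  have h := hmp.setIntegral_preimage_emb hemb f (Set.Ico (n:ℝ) (n+1))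
  rw [← h]
  congr 2
  ext x
  simp only [Set.mem_preimage, Set.mem_Ico]
  constructor <;> rintro ⟨h1, h2⟩ <;> constructor <;> linarith

lemma per_lintegral (f : ℝ → ℝ≥0∞) :
    ∫⁻ x, f x = ∑' n : ℤ, ∫⁻ x in Set.Ico (0:ℝ) 1, f (x + n) := by
  have h1 : ∫⁻ x, f x = ∫⁻ x in ⋃ n : ℤ, Set.Ico (n:ℝ) (n+1), f x := by
    rw [iUnion_Ico_intCast]; simp
  rw [h1, lintegral_iUnion (fun n => measurableSet_Ico) (Set.pairwise_disjoint_Ico_intCast ℝ)]
  exact tsum_congr fun n => restrict_shift n f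

lemma per_integral (h : ℝ → ℂ) (hi : Integrable h) :
    (∀ᵐ x ∂(volume.restrict (Set.Ico (0:ℝ) 1)), Summable fun n : ℤ => ‖h (x + n)‖) ∧
    Integrable (fun x => ∑' n : ℤ, h (x + n)) (volume.restrict (Set.Ico (0:ℝ) 1)) ∧
    ∫ x, h x = ∫ x in Set.Ico (0:ℝ) 1, ∑' n : ℤ, h (x + n) := by
  have hmeas : ∀ n : ℤ, AEStronglyMeasurable (fun x : ℝ => h (x + n))
      (volume.restrict (Set.Ico (0:ℝ) 1)) := fun n =>
    (hi.1.comp_measurePreserving (measurePreserving_add_right volume (n:ℝ))).restrict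
  have hfin : ∑' n : ℤ, ∫⁻ x in Set.Ico (0:ℝ) 1, ‖h (x + n)‖ₑ ≠ ∞ := by
    rw [← per_lintegral (fun x => ‖h x‖ₑ)]
    exact hi.2.ne
  have hsum : ∀ᵐ x ∂(volume.restrict (Set.Ico (0:ℝ) 1)), Summable fun n : ℤ => ‖h (x + n)‖ := by
    rw [← lintegral_tsum (fun n => (hmeas n).enorm)] at hfin
    have := ae_lt_top' (AEMeasurable.tsum fun n => (hmeas n).enorm) hfin
    filter_upwards [this] with x hx
    have h2 : Summable fun n : ℤ => ‖h (x + n)‖₊ := ENNReal.tsum_coe_ne_top_iff_summable.1 hx.ne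
    exact NNReal.summable_coe.2 h2
  refine ⟨hsum, ⟨?_, ?_⟩, ?_⟩
  · refine aestronglyMeasurable_of_tendsto_ae (u := (atTop : Filter (Finset ℤ)))
      (f := fun s x => ∑ n ∈ s, h (x + n)) ?_ ?_
    · intro s
      exact Finset.aestronglyMeasurable_fun_sum s (fun n _ => hmeas n)
    · filter_upwards [hsum] with x hx
      exact hx.of_norm.hasSum
  · refine lt_of_le_of_lt ?_ (lt_top_iff_ne_top.mpr hfin)
    rw [← lintegral_tsum (fun n => (hmeas n).enorm)]
    refine lintegral_mono_ae ?_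
    filter_upwards [hsum] with x hx
    exact enorm_tsum_le_tsum_enorm
  · rw [integral_tsum hmeas hfin]
    have h1 : ∫ x, h x = ∫ x in ⋃ n : ℤ, Set.Ico (n:ℝ) (n+1), h x := by
      rw [iUnion_Ico_intCast]; simp
    rw [h1, integral_iUnion (fun n => measurableSet_Ico) (Set.pairwise_disjoint_Ico_intCast ℝ)
      hi.integrableOn]
    exact tsum_congr fun n => restrict_shift' n h



lemma vanish_cont (h : ℝ → ℂ) (hi : Integrable h)
    (hF : ∀ k : ℤ, ∫ x, h x * Complex.exp (2 * (Real.pi:ℂ) * Complex.I * (k:ℂ) * (x:ℂ)) = 0)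
    (G : C(AddCircle (1:ℝ), ℂ)) : ∫ x, h x * G (x : AddCircle (1:ℝ)) = 0 := by
  have hint : ∀ G : C(AddCircle (1:ℝ), ℂ), Integrable (fun x : ℝ => h x * G (x : AddCircle (1:ℝ))) := by
    intro G
    refine hi.mul_bdd (c := ‖G‖) ?_ ?_
    · exact (G.continuous.comp (AddCircle.continuous_mk' _)).aestronglyMeasurable
    · exact Eventually.of_forall fun x => G.norm_coe_le_norm _
  let T : C(AddCircle (1:ℝ), ℂ) →ₗ[ℂ] ℂ :=
    { toFun := fun G => ∫ x, h x * G (x : AddCircle (1:ℝ))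
      map_add' := by
        intro G1 G2
        rw [← integral_add (hint G1) (hint G2)]
        refine integral_congr_ae (Eventually.of_forall fun x => ?_)
        simp only [ContinuousMap.add_apply]
        ring
      map_smul' := by
        intro c G1
        simp only [RingHom.id_apply, smul_eq_mul]
        rw [← integral_const_mul]
        refine integral_congr_ae (Eventually.of_forall fun x => ?_)
        simp only [ContinuousMap.smul_apply, smul_eq_mul]
        ring }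
  have hTb : ∀ G, ‖T G‖ ≤ (∫ x, ‖h x‖) * ‖G‖ := by
    intro G
    show ‖∫ x, h x * G (x : AddCircle (1:ℝ))‖ ≤ _
    refine (norm_integral_le_integral_norm _).trans ?_
    rw [← integral_mul_const]
    refine integral_mono (hint G).norm (hi.norm.mul_const _) fun x => ?_
    simp only [norm_mul]
    exact mul_le_mul_of_nonneg_left (G.norm_coe_le_norm _) (norm_nonneg _)
  let T' : C(AddCircle (1:ℝ), ℂ) →L[ℂ] ℂ := T.mkContinuous _ hTb
  have hclosed : IsClosed (T'.ker : Set C(AddCircle (1:ℝ), ℂ)) := T'.isClosed_ker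
  have hspan : Submodule.span ℂ (Set.range (@fourier (1:ℝ))) ≤ T'.ker := by
    rw [Submodule.span_le]
    rintro _ ⟨k, rfl⟩
    show T' (fourier k) = 0
    show ∫ x, h x * fourier k (x : AddCircle (1:ℝ)) = 0
    rw [← hF k]
    refine integral_congr_ae (Eventually.of_forall fun x => ?_)
    simp only
    rw [fourier_coe_apply]
    congr 2
    push_cast
    ring
  have htop : (Submodule.span ℂ (Set.range (@fourier (1:ℝ)))).topologicalClosure ≤ T'.ker :=
    Submodule.topologicalClosure_minimal _ hspan hclosed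
  have : Fact (0 < (1:ℝ)) := ⟨one_pos⟩
  rw [span_fourier_closure_eq_top] at htop
  have : G ∈ T'.ker := htop trivial
  exact this

lemma mk_add_int (x : ℝ) (n : ℤ) : ((x + n : ℝ) : AddCircle (1:ℝ)) = (x : AddCircle (1:ℝ)) := by
  have := AddCircle.coe_add_period (1:ℝ)
  rw [AddCircle.coe_add]
  have h : ((n : ℝ) : AddCircle (1:ℝ)) = 0 := by
    rw [AddCircle.coe_eq_zero_iff]
    exact ⟨n, by simp⟩
  rw [h, add_zero]

lemma vanish (h : ℝ → ℂ) (hi : Integrable h)
    (hF : ∀ k : ℤ, ∫ x, h x * Complex.exp (2 * (Real.pi:ℂ) * Complex.I * (k:ℂ) * (x:ℂ)) = 0) :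
    ∀ᵐ x : ℝ, x ∈ Set.Ico (0:ℝ) 1 → ∑' n : ℤ, h (x + n) = 0 := by
  have : Fact (0 < (1:ℝ)) := ⟨one_pos⟩
  obtain ⟨hs, hH, -⟩ := per_integral h hi
  have hU : ∀ᵐ x : ℝ, x ∈ Set.Ioo (0:ℝ) 1 → ∑' n : ℤ, h (x + n) = 0 := by
    refine IsOpen.ae_eq_zero_of_integral_contDiff_smul_eq_zero isOpen_Ioo ?_ ?_
    · have : IntegrableOn (fun x => ∑' n : ℤ, h (x + n)) (Set.Ioo (0:ℝ) 1) :=
        IntegrableOn.mono_set hH Set.Ioo_subset_Ico_self
      exact this.locallyIntegrableOn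
    · intro g hg hgc hgs
      have hg0 : ∀ x, x ∉ Set.Ioo (0:ℝ) 1 → g x = 0 := fun x hx =>
        image_eq_zero_of_notMem_tsupport fun h => hx (hgs h)
      let G : C(AddCircle (1:ℝ), ℂ) :=
        ⟨AddCircle.liftIco 1 0 (fun x => (g x : ℂ)), AddCircle.liftIco_zero_continuous
          (by simp [hg0 0 (by simp), hg0 1 (by simp)])
          (Complex.continuous_ofReal.comp hg.continuous).continuousOn⟩
      have hG : ∀ x ∈ Set.Ico (0:ℝ) 1, ∀ n : ℤ, G ((x + n : ℝ) : AddCircle (1:ℝ)) = g x := by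
        intro x hx n
        rw [mk_add_int]
        show AddCircle.liftIco 1 0 (fun x => (g x : ℂ)) (x : AddCircle (1:ℝ)) = g x
        rw [AddCircle.liftIco_zero_coe_apply hx]
      have hint : Integrable (fun x : ℝ => h x * G (x : AddCircle (1:ℝ))) := by
        refine hi.mul_bdd (c := ‖G‖) ?_ ?_
        · exact (G.continuous.comp (AddCircle.continuous_mk' _)).aestronglyMeasurable
        · exact Eventually.of_forall fun x => G.norm_coe_le_norm _
      obtain ⟨-, -, h3⟩ := per_integral _ hint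
      rw [vanish_cont h hi hF G] at h3
      have h4 : ∫ x, g x • ∑' n : ℤ, h (x + n) =
          ∫ x in Set.Ico (0:ℝ) 1, g x • ∑' n : ℤ, h (x + n) := by
        rw [setIntegral_eq_integral_of_forall_compl_eq_zero]
        intro x hx
        rw [hg0 x fun h => hx ⟨h.1.le, h.2⟩, zero_smul]
      rw [h4, h3]
      refine setIntegral_congr_fun measurableSet_Ico fun x hx => ?_
      rw [Complex.real_smul, ← tsum_mul_left]
      refine tsum_congr fun n => ?_
      rw [hG x hx n]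
      ring
  have h0 : ∀ᵐ x : ℝ, x ≠ 0 := by
    simp [ae_iff]
  filter_upwards [hU, h0] with x hx hx0 hxm
  exact hx ⟨lt_of_le_of_ne hxm.1 hx0.symm, hxm.2⟩



lemma ae_periodic (P : ℝ → Prop) (hP : ∀ (x : ℝ) (m : ℤ), P (x + m) → P x)
    (h : ∀ᵐ x : ℝ, x ∈ Set.Ico (0:ℝ) 1 → P x) : ∀ᵐ x : ℝ, P x := by
  have h1 : ∀ m : ℤ, ∀ᵐ x : ℝ, x + m ∈ Set.Ico (0:ℝ) 1 → P (x + m) := fun m =>
    (measurePreserving_add_right volume (m:ℝ)).quasiMeasurePreserving.ae h
  filter_upwards [ae_all_iff.mpr h1] with x hx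
  refine hP x (-⌊x⌋) (hx (-⌊x⌋) ?_)
  push_cast
  constructor
  · linarith [Int.floor_le x]
  · linarith [Int.lt_floor_add_one x]

section main
variable (φ : ℝ → ℂ) (F : ℤ → ℤ → ℝ → ℂ) (hm : Measurable φ) (hφ : MemLp φ 2 volume)
    (hF : ∀ (j k : ℤ) (ξ : ℝ), F j k ξ =
        ((Real.sqrt ((2:ℝ) ^ (-j)) : ℝ) : ℂ) *
          Complex.exp (-(2 * (Real.pi : ℂ) * Complex.I * (k : ℂ) * ((((2:ℝ) ^ (-j)) * ξ : ℝ) : ℂ))) *
          φ (((2:ℝ) ^ (-j)) * ξ))
    (ho : ∀ j k j' k' : ℤ, ∫ ξ, F j k ξ * (starRingEnd ℂ) (F j' k' ξ) =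
        if j = j' ∧ k = k' then (1:ℂ) else 0)

include hF in
lemma F0 (k : ℤ) (x : ℝ) : F 0 k x = Complex.exp (-(2 * (Real.pi : ℂ) * Complex.I * (k : ℂ) * x)) * φ x := by
  rw [hF]
  simp

include hF ho in
lemma coef0 (k : ℤ) : ∫ x, (φ x * (starRingEnd ℂ) (φ x)) *
    Complex.exp (2 * (Real.pi:ℂ) * Complex.I * (k:ℂ) * (x:ℂ)) = if k = 0 then 1 else 0 := by
  have h := ho 0 (-k) 0 0
  have h2 : (if (0:ℤ) = 0 ∧ -k = 0 then (1:ℂ) else 0) = if k = 0 then 1 else 0 := by simp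
  rw [h2] at h
  rw [← h]
  refine integral_congr_ae (Eventually.of_forall fun x => ?_)
  simp only
  rw [F0 φ F hF, F0 φ F hF]
  simp only [Int.cast_neg, Int.cast_zero, mul_zero, zero_mul, neg_zero, Complex.exp_zero, one_mul]
  have : -(2 * (Real.pi:ℂ) * Complex.I * -(k:ℂ) * x) = 2 * (Real.pi:ℂ) * Complex.I * (k:ℂ) * x := by ring
  rw [this]
  ring

include hF ho in
lemma coefi (i : ℕ) (hi : 1 ≤ i) (k : ℤ) : ∫ x, (φ ((2:ℝ)^i * x) * (starRingEnd ℂ) (φ x)) *
    Complex.exp (2 * (Real.pi:ℂ) * Complex.I * (k:ℂ) * (x:ℂ)) = 0 := by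
  have h := ho (-(i:ℤ)) 0 0 k
  have h2 : ¬ (-(i:ℤ) = 0 ∧ (0:ℤ) = k) := by
    rintro ⟨h1, -⟩
    omega
  rw [if_neg h2] at h
  have hs : ((Real.sqrt ((2:ℝ) ^ i) : ℝ) : ℂ) ≠ 0 := by
    have : 0 < Real.sqrt ((2:ℝ) ^ i) := Real.sqrt_pos.mpr (by positivity)
    exact_mod_cast this.ne'
  have h3 : ∫ x, F (-(i:ℤ)) 0 x * (starRingEnd ℂ) (F 0 k x) =
      ((Real.sqrt ((2:ℝ) ^ i) : ℝ) : ℂ) * ∫ x, (φ ((2:ℝ)^i * x) * (starRingEnd ℂ) (φ x)) *
    Complex.exp (2 * (Real.pi:ℂ) * Complex.I * (k:ℂ) * (x:ℂ)) := by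
    rw [← integral_const_mul]
    refine integral_congr_ae (Eventually.of_forall fun x => ?_)
    simp only
    rw [F0 φ F hF, hF]
    simp only [neg_neg, zpow_natCast, Int.cast_zero, mul_zero, zero_mul, neg_zero,
      Complex.exp_zero, mul_one, map_mul]
    have : (starRingEnd ℂ) (Complex.exp (-(2 * (Real.pi:ℂ) * Complex.I * (k:ℂ) * x))) =
        Complex.exp (2 * (Real.pi:ℂ) * Complex.I * (k:ℂ) * x) := by
      rw [← Complex.exp_conj]
      congr 1
      simp only [map_neg, map_mul, Complex.conj_I, Complex.conj_ofReal, map_ofNat, map_intCast]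
      ring
    rw [this]
    ring
  rw [h3] at h
  exact (mul_eq_zero.mp h).resolve_left hs

include hm hφ in
lemma int0 : Integrable (fun x => φ x * (starRingEnd ℂ) (φ x)) := by
  have h1 := hφ.integrable_norm_pow (by norm_num)
  refine ⟨(hm.mul (by fun_prop)).aestronglyMeasurable, ?_⟩
  have h2 := h1.2
  refine lt_of_le_of_lt (le_of_eq ?_) h2
  refine lintegral_congr fun x => ?_
  rw [← ofReal_norm, ← ofReal_norm]
  congr 1
  simp [sq]

include hm hφ in
lemma inti (i : ℕ) : Integrable (fun x => φ ((2:ℝ)^i * x) * (starRingEnd ℂ) (φ x)) := by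
  have h2 : MemLp (fun x => φ ((2:ℝ)^i * x)) 2 volume := by
    have hmm : Measurable (fun x => φ ((2:ℝ)^i * x)) := hm.comp (measurable_const_mul ((2:ℝ)^i))
    rw [memLp_two_iff_integrable_sq_norm hmm.aestronglyMeasurable]
    have h1 := (memLp_two_iff_integrable_sq_norm hφ.1).mp hφ
    exact h1.comp_mul_left' (by positivity)
  have h3 : MemLp (fun x => (starRingEnd ℂ) (φ x)) 2 volume := by
    have := hφ.star
    exact this
  exact h2.integrable_mul h3

include hm hφ hF ho in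
theorem fibre' :
    (∀ᵐ x : ℝ, ∑' n : ℤ, ‖φ (x + n)‖ₑ ^ 2 = 1) ∧
    (∀ i : ℕ, 1 ≤ i → ∀ᵐ x : ℝ, ∑' n : ℤ, φ ((2:ℝ) ^ i * (x + n)) * (starRingEnd ℂ) (φ (x + n)) = 0) := by
  constructor
  · refine ae_periodic _ ?_ ?_
    · intro x m h
      rw [← h, ← (Equiv.addLeft m).tsum_eq]
      refine tsum_congr fun n => ?_
      simp only [Equiv.coe_addLeft]
      push_cast
      ring_nf
    · set h1 : ℝ → ℂ := fun x => φ x * (starRingEnd ℂ) (φ x) - (Set.Ico (0:ℝ) 1).indicator 1 x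
        with hh1
      have hii : Integrable ((Set.Ico (0:ℝ) 1).indicator (1 : ℝ → ℂ)) := by
        rw [integrable_indicator_iff measurableSet_Ico]
        exact integrableOn_const (by simp) (by simp)
      have hi1 : Integrable h1 := (int0 φ hm hφ).sub hii
      have hexp : ∀ (k : ℤ), Continuous fun x : ℝ =>
          Complex.exp (2 * (Real.pi:ℂ) * Complex.I * (k:ℂ) * (x:ℂ)) := fun k => by fun_prop
      have hexpb : ∀ (k : ℤ) (x : ℝ),
          ‖Complex.exp (2 * (Real.pi:ℂ) * Complex.I * (k:ℂ) * (x:ℂ))‖ ≤ 1 := by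
        intro k x
        rw [Complex.norm_exp]
        simp
      have hcoef : ∀ k : ℤ, ∫ x, h1 x *
          Complex.exp (2 * (Real.pi:ℂ) * Complex.I * (k:ℂ) * (x:ℂ)) = 0 := by
        intro k
        have e1 : ∀ x, h1 x * Complex.exp (2 * (Real.pi:ℂ) * Complex.I * (k:ℂ) * (x:ℂ)) =
            (φ x * (starRingEnd ℂ) (φ x)) *
              Complex.exp (2 * (Real.pi:ℂ) * Complex.I * (k:ℂ) * (x:ℂ)) -
            (Set.Ico (0:ℝ) 1).indicator 1 x *
              Complex.exp (2 * (Real.pi:ℂ) * Complex.I * (k:ℂ) * (x:ℂ)) := by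
          intro x
          rw [hh1]; ring
        simp_rw [e1]
        rw [integral_sub, coef0 φ F hF ho]
        · have e2 : ∀ x : ℝ, (Set.Ico (0:ℝ) 1).indicator (1 : ℝ → ℂ) x *
              Complex.exp (2 * (Real.pi:ℂ) * Complex.I * (k:ℂ) * (x:ℂ)) =
              (Set.Ico (0:ℝ) 1).indicator (fun x : ℝ =>
                Complex.exp (2 * (Real.pi:ℂ) * Complex.I * (k:ℂ) * (x:ℂ))) x := by
            intro x
            by_cases hx : x ∈ Set.Ico (0:ℝ) 1
            · rw [Set.indicator_of_mem hx, Set.indicator_of_mem hx]; simp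
            · rw [Set.indicator_of_notMem hx, Set.indicator_of_notMem hx]; simp
          simp_rw [e2]
          rw [integral_indicator measurableSet_Ico, integral_Ico_eq_integral_Ioc,
            ← intervalIntegral.integral_of_le zero_le_one]
          by_cases hk : k = 0
          · simp [hk]
          · rw [if_neg hk]
            have hc : (2 * (Real.pi:ℂ) * Complex.I * (k:ℂ)) ≠ 0 := by
              have := Real.pi_ne_zero
              simp [hk, this]
            rw [integral_exp_mul_complex hc]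
            have : Complex.exp (2 * (Real.pi:ℂ) * Complex.I * (k:ℂ) * ((1:ℝ):ℂ)) = 1 := by
              rw [Complex.exp_eq_one_iff]
              exact ⟨k, by push_cast; ring⟩
            rw [this]
            simp
        · exact (int0 φ hm hφ).mul_bdd (c := 1) (hexp k).aestronglyMeasurable
            (Eventually.of_forall fun x => hexpb k x)
        · exact hii.mul_bdd (c := 1) (hexp k).aestronglyMeasurable
            (Eventually.of_forall fun x => hexpb k x)
      have hv := vanish h1 hi1 hcoef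
      obtain ⟨hs, -, -⟩ := per_integral _ (int0 φ hm hφ)
      rw [ae_restrict_iff' measurableSet_Ico] at hs
      filter_upwards [hv, hs] with x hx hsx hxm
      have hx1 := hx hxm
      have hs1 := hsx hxm
      have hind : ∀ n : ℤ, (Set.Ico (0:ℝ) 1).indicator (1 : ℝ → ℂ) (x + n) =
          if n = 0 then 1 else 0 := by
        intro n
        by_cases hn : n = 0
        · subst hn
          rw [if_pos rfl, Set.indicator_of_mem (by simpa using hxm)]
          rfl
        · rw [if_neg hn, Set.indicator_of_notMem]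
          rintro ⟨h1, h2⟩
          have h3 := hxm.1
          have h4 := hxm.2
          have h5 : (-1:ℝ) < n := by linarith
          have h6 : (n:ℝ) < 1 := by linarith
          have h7 : (-1:ℤ) < n := by exact_mod_cast h5
          have h8 : n < 1 := by exact_mod_cast h6
          omega
      have hsC : Summable fun n : ℤ => φ (x + n) * (starRingEnd ℂ) (φ (x + n)) := hs1.of_norm
      have hsI : Summable fun n : ℤ => (Set.Ico (0:ℝ) 1).indicator (1 : ℝ → ℂ) (x + n) := by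
        simp_rw [hind]
        exact (hasSum_ite_eq 0 (1:ℂ)).summable
      have h9 : ∑' n : ℤ, φ (x + n) * (starRingEnd ℂ) (φ (x + n)) = 1 := by
        have h10 : ∑' n : ℤ, h1 (x + n) = (∑' n : ℤ, φ (x + n) * (starRingEnd ℂ) (φ (x + n))) -
            ∑' n : ℤ, (Set.Ico (0:ℝ) 1).indicator (1 : ℝ → ℂ) (x + n) := hsC.tsum_sub hsI
        rw [hx1] at h10
        simp_rw [hind] at h10
        rw [tsum_ite_eq] at h10
        exact (sub_eq_zero.mp h10.symm)
      have h11 : ∀ n : ℤ, φ (x + n) * (starRingEnd ℂ) (φ (x + n)) = ((‖φ (x + n)‖ ^ 2 : ℝ) : ℂ) := by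
        intro n
        rw [Complex.mul_conj, Complex.normSq_eq_norm_sq]
      simp_rw [h11] at h9
      rw [← Complex.ofReal_tsum] at h9
      have h12 : ∑' n : ℤ, ‖φ (x + n)‖ ^ 2 = 1 := by exact_mod_cast h9
      have hs2 : Summable fun n : ℤ => ‖φ (x + n)‖ ^ 2 := by
        refine hs1.congr fun n => ?_
        rw [norm_mul, RCLike.norm_conj, sq]
      have h13 : ∀ n : ℤ, ‖φ (x + n)‖ₑ ^ 2 = ENNReal.ofReal (‖φ (x + n)‖ ^ 2) := by
        intro n
        rw [← ofReal_norm, ENNReal.ofReal_pow (norm_nonneg _)]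
      simp_rw [h13]
      rw [← ENNReal.ofReal_tsum_of_nonneg (fun n => by positivity) hs2, h12, ENNReal.ofReal_one]
  · intro i hi
    refine ae_periodic _ ?_ (vanish _ (inti φ hm hφ i) (coefi φ F hF ho i hi))
    intro x m h
    rw [← h, ← (Equiv.addLeft m).tsum_eq]
    refine tsum_congr fun n => ?_
    simp only [Equiv.coe_addLeft]
    push_cast
    ring_nf

include hm hφ hF ho in
theorem span_lemma'
    (B : Set ℝ) (hB : MeasurableSet B) (hper : ∀ x : ℝ, x ∈ B ↔ x + 1 ∈ B) :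
    (∫⁻ x in B, ‖φ x‖ₑ ^ 2 = volume (B ∩ Set.Ioc 0 1)) ∧
    (∀ i : ℕ, 1 ≤ i → ∫ x in B, φ ((2:ℝ) ^ i * x) * (starRingEnd ℂ) (φ x) = 0) := by
  obtain ⟨h1, h2⟩ := fibre' φ F hm hφ hF ho
  have hpn : ∀ (n : ℤ) (x : ℝ), x + n ∈ B ↔ x ∈ B := by
    intro n x
    induction n using Int.induction_on with
    | zero => simp
    | succ n ih =>
      rw [← ih, hper (x + (n:ℤ))]
      push_cast
      ring_nf
    | pred n ih =>
      rw [← ih, hper (x + ((-(n:ℤ) - 1 : ℤ) : ℝ))]
      push_cast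
      ring_nf
  constructor
  · rw [← lintegral_indicator hB, per_lintegral, ← lintegral_tsum]
    · have e1 : ∫⁻ x in Set.Ico (0:ℝ) 1, ∑' n : ℤ, B.indicator (fun x => ‖φ x‖ₑ ^ 2) (x + n) =
          ∫⁻ x in Set.Ico (0:ℝ) 1, B.indicator 1 x := by
        refine lintegral_congr_ae ?_
        refine ae_restrict_of_ae ?_
        filter_upwards [h1] with x hx
        by_cases hxB : x ∈ B
        · rw [Set.indicator_of_mem hxB, Pi.one_apply, ← hx]
          refine tsum_congr fun n => ?_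
          rw [Set.indicator_of_mem ((hpn n x).mpr hxB)]
        · rw [Set.indicator_of_notMem hxB, ENNReal.tsum_eq_zero]
          intro n
          rw [Set.indicator_of_notMem (fun h => hxB ((hpn n x).mp h))]
      rw [e1, lintegral_indicator_one hB, Measure.restrict_apply hB]
      refine measure_congr ?_
      exact (ae_eq_refl B).inter Ico_ae_eq_Ioc
    · intro n
      refine Measurable.aemeasurable ?_
      have : Measurable (B.indicator (fun x => ‖φ x‖ₑ ^ 2)) := (hm.enorm.pow_const 2).indicator hB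
      exact this.comp (measurable_add_const _)
  · intro i hi
    rw [← integral_indicator hB]
    obtain ⟨-, -, h3⟩ := per_integral _ ((inti φ hm hφ i).indicator hB)
    rw [h3]
    rw [← integral_zero ℝ ℂ (μ := volume.restrict (Set.Ico (0:ℝ) 1))]
    refine integral_congr_ae (ae_restrict_of_ae ?_)
    filter_upwards [h2 i hi] with x hx
    by_cases hxB : x ∈ B
    · rw [← hx]
      refine tsum_congr fun n => ?_
      rw [Set.indicator_of_mem ((hpn n x).mpr hxB)]
    · rw [← tsum_zero (α := ℂ) (β := ℤ)]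
      refine tsum_congr fun n => ?_
      rw [Set.indicator_of_notMem (fun h => hxB ((hpn n x).mp h))]

end main


end aux

/-- span lemma: for a 1-periodic set `B`, `1_B φ` lies in the closed span of the `F 0 k`. -/
theorem span_lemma
    (φ : ℝ → ℂ) (F : ℤ → ℤ → ℝ → ℂ) (hm : Measurable φ) (hφ : MemLp φ 2 volume)
    (hF : ∀ (j k : ℤ) (ξ : ℝ), F j k ξ =
        ((Real.sqrt ((2:ℝ) ^ (-j)) : ℝ) : ℂ) *
          Complex.exp (-(2 * (Real.pi : ℂ) * Complex.I * (k : ℂ) * ((((2:ℝ) ^ (-j)) * ξ : ℝ) : ℂ))) *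
          φ (((2:ℝ) ^ (-j)) * ξ))
    (ho : ∀ j k j' k' : ℤ, ∫ ξ, F j k ξ * (starRingEnd ℂ) (F j' k' ξ) =
        if j = j' ∧ k = k' then (1:ℂ) else 0)
    (B : Set ℝ) (hB : MeasurableSet B) (hper : ∀ x : ℝ, x ∈ B ↔ x + 1 ∈ B) :
    (∫⁻ x in B, ‖φ x‖ₑ ^ 2 = volume (B ∩ Set.Ioc 0 1)) ∧
    (∀ i : ℕ, 1 ≤ i → ∫ x in B, φ ((2:ℝ) ^ i * x) * (starRingEnd ℂ) (φ x) = 0) :=
  span_lemma' φ F hm hφ hF ho B hB hper

/-- fibre orthonormality. -/
theorem fibre
    (φ : ℝ → ℂ) (F : ℤ → ℤ → ℝ → ℂ) (hm : Measurable φ) (hφ : MemLp φ 2 volume)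
    (hF : ∀ (j k : ℤ) (ξ : ℝ), F j k ξ =
        ((Real.sqrt ((2:ℝ) ^ (-j)) : ℝ) : ℂ) *
          Complex.exp (-(2 * (Real.pi : ℂ) * Complex.I * (k : ℂ) * ((((2:ℝ) ^ (-j)) * ξ : ℝ) : ℂ))) *
          φ (((2:ℝ) ^ (-j)) * ξ))
    (ho : ∀ j k j' k' : ℤ, ∫ ξ, F j k ξ * (starRingEnd ℂ) (F j' k' ξ) =
        if j = j' ∧ k = k' then (1:ℂ) else 0) :
    (∀ᵐ x : ℝ, ∑' n : ℤ, ‖φ (x + n)‖ₑ ^ 2 = 1) ∧
    (∀ i : ℕ, 1 ≤ i → ∀ᵐ x : ℝ, ∑' n : ℤ, φ ((2:ℝ) ^ i * (x + n)) * (starRingEnd ℂ) (φ (x + n)) = 0) :=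
  fibre' φ F hm hφ hF ho

end Pool.Agent.Helper152.LarA
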