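import Mathlib

set_option autoImplicit false
open MeasureTheory
open scoped ENNReal

namespace Pool.Agent.Helper152.LarE

theorem hit_ae (P : UnitAddCircle → Prop) (h : ∀ᵐ t : UnitAddCircle, P t) :
    ∀ᵐ x : ℝ, P (x : UnitAddCircle) := by
  rw [← Measure.restrict_univ (μ := (volume : Measure ℝ)), ← iUnion_Ioc_intCast ℝ,
    ae_restrict_iUnion_iff]
  intro n
  exact (UnitAddCircle.measurePreserving_mk (n : ℝ)).quasiMeasurePreserving.ae h

/-- almost every point is moved into a 1-periodic set of positive measure by some 2^i. -/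
theorem hit (Z : Set ℝ) (hZ : MeasurableSet Z) (hper : ∀ x ∈ Z, ∀ n : ℤ, x + n ∈ Z)
    (hpos : volume Z ≠ 0) : ∀ᵐ x : ℝ, ∃ i : ℕ, (2:ℝ) ^ i * x ∈ Z := by
  obtain ⟨S, hS⟩ : ∃ S : Set UnitAddCircle,
      S = {t | ((AddCircle.measurableEquivIco (1 : ℝ) 0 t : ℝ)) ∈ Z} := ⟨_, rfl⟩
  have hSm : MeasurableSet S := by
    rw [hS]
    exact (measurable_subtype_coe.comp (AddCircle.measurableEquivIco (1 : ℝ) 0).measurable) hZ
  have hSZ : ∀ x : ℝ, (x : UnitAddCircle) ∈ S ↔ x ∈ Z := by
    intro x
    have h1 : ((AddCircle.measurableEquivIco (1 : ℝ) 0 (x : UnitAddCircle) : ℝ)) = Int.fract x := by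
      have := AddCircle.coe_equivIco_mk_apply (1 : ℝ) x
      rw [div_one, mul_one] at this
      exact this
    rw [hS, Set.mem_ofPred_eq, h1]
    constructor
    · intro h
      have := hper _ h ⌊x⌋
      rwa [Int.fract_add_floor] at this
    · intro h
      have := hper _ h (-⌊x⌋)
      push_cast at this
      rwa [← sub_eq_add_neg] at this
  obtain ⟨N, hN⟩ : ∃ N : Set UnitAddCircle, N = ⋂ i : ℕ, {t | (2 ^ i : ℕ) • t ∉ S} := ⟨_, rfl⟩
  have hNm : MeasurableSet N := by
    rw [hN]
    refine MeasurableSet.iInter fun i => ?_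
    exact ((continuous_nsmul (2 ^ i)).measurable hSm).compl
  have hNi : N ⊆ (fun y : UnitAddCircle => (2 : ℕ) • y) ⁻¹' N := by
    intro t ht
    rw [hN] at ht ⊢
    rw [Set.mem_preimage]
    rw [Set.mem_iInter] at ht ⊢
    intro i
    have := ht (i + 1)
    rw [Set.mem_ofPred_eq] at this ⊢
    rwa [pow_succ, mul_smul] at this
  have herg : Ergodic (fun y : UnitAddCircle => (2 : ℕ) • y) := AddCircle.ergodic_nsmul one_lt_two
  rcases herg.ae_empty_or_univ_of_ae_le_preimage hNm.nullMeasurableSet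
    (Filter.Eventually.of_forall hNi) with h | h
  · have h1 : ∀ᵐ t : UnitAddCircle, t ∉ N := by
      rw [← measure_eq_zero_iff_ae_notMem]
      rw [measure_congr h]; simp
    filter_upwards [hit_ae _ h1] with x hx
    rw [hN, Set.mem_iInter] at hx
    push Not at hx
    obtain ⟨i, hi⟩ := hx
    rw [Set.mem_ofPred_eq, not_not] at hi
    refine ⟨i, (hSZ _).1 ?_⟩
    have : (((2 : ℝ) ^ i * x : ℝ) : UnitAddCircle) = (2 ^ i : ℕ) • (x : UnitAddCircle) := by
      rw [← AddCircle.coe_nsmul, nsmul_eq_mul]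
      push_cast
      rfl
    rw [this]
    exact hi
  · exfalso
    apply hpos
    rw [measure_eq_zero_iff_ae_notMem]
    have h1 : ∀ᵐ t : UnitAddCircle, t ∉ S := by
      filter_upwards [h] with t ht htS
      have h2 : t ∈ N := by
        have : N t = Set.univ t := ht
        have h3 : Set.univ t := trivial
        rw [← this] at h3
        exact h3
      rw [hN, Set.mem_iInter] at h2
      have := h2 0
      rw [Set.mem_ofPred_eq, pow_zero, one_smul] at this
      exact this htS
    filter_upwards [hit_ae _ h1] with x hx hxZ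
    exact hx ((hSZ x).2 hxZ)

end Pool.Agent.Helper152.LarE
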