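import Pool.Agent.Helper152.LarBase

set_option autoImplicit false
open MeasureTheory
open scoped ENNReal

namespace Pool.Agent.Helper152.LarF

open Pool.Agent.Helper152.Lar (w)

theorem w_eq (φ : ℝ → ℂ) (x : ℝ) : w φ x = ‖φ (2 * x)‖ₑ ^ 2 + w φ (2 * x) := by
  unfold w
  rw [tsum_eq_zero_add' ENNReal.summable]
  congr 1
  · simp
  · refine tsum_congr fun i => ?_
    congr 3
    ring

theorem w_ne_of_phi {φ : ℝ → ℂ} {x : ℝ} (i : ℕ) (h : φ ((2:ℝ) ^ (i + 1) * x) ≠ 0) :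
    w φ x ≠ 0 := by
  intro h0
  unfold w at h0
  rw [ENNReal.tsum_eq_zero] at h0
  have := h0 i
  simp at this
  exact h this

/-- one point per coset -/
def E (φ : ℝ → ℂ) : Set ℝ :=
  {x | w φ x ≠ 0 ∧ ∀ n : ℤ, n ≠ 0 → w φ (x + n) ≠ 0 → |x| < |x + n|}

structure P (φ : ℝ → ℂ) (x : ℝ) : Prop where
  a1 : ∑' n : ℤ, ‖φ (x + n)‖ₑ ^ 2 = 1
  a2 : ∑' j : ℤ, ‖φ ((2:ℝ) ^ j * x)‖ₑ ^ 2 = 1
  d1 : ∑' n : ℤ, w φ (x + n) = 1
  r : ∀ n : ℤ, w φ x ≠ 0 → w φ (x + n) ≠ 0 →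
      (φ (2 * x) = 0 ↔ φ (2 * (x + n)) = 0) ∧ (w φ (2 * x) = 0 ↔ w φ (2 * (x + n)) = 0)
  nd : ∀ n : ℤ, 2 * x ≠ n

def Good (φ : ℝ → ℂ) (x : ℝ) : Prop := ∀ a : ℤ, ∀ q : ℚ, P φ ((2:ℝ) ^ a * x + q)

theorem ae_good {φ : ℝ → ℂ} (h : ∀ᵐ x : ℝ, P φ x) : ∀ᵐ x : ℝ, Good φ x := by
  unfold Good
  rw [ae_all_iff]; intro a
  rw [ae_all_iff]; intro q
  have h2 : (2:ℝ) ^ a ≠ 0 := zpow_ne_zero a two_ne_zero
  have h3 : Measure.QuasiMeasurePreserving (fun x : ℝ => (2:ℝ) ^ a * x) volume volume := by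
    refine ⟨measurable_const_mul _, ?_⟩
    rw [Real.map_volume_mul_left h2]
    exact Measure.smul_absolutelyContinuous
  have h4 : Measure.QuasiMeasurePreserving (fun x : ℝ => x + (q:ℝ)) volume volume :=
    (measurePreserving_add_right volume (q:ℝ)).quasiMeasurePreserving
  exact (h4.comp h3).ae h

theorem Good.p {φ : ℝ → ℂ} {x : ℝ} (h : Good φ x) : P φ x := by
  have := h 0 0
  simpa using this

theorem Good.add {φ : ℝ → ℂ} {x : ℝ} (h : Good φ x) (n : ℤ) : Good φ (x + n) := by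
  intro a q
  have := h a ((2:ℚ) ^ a * n + q)
  convert this using 1
  push_cast
  ring

theorem Good.mul {φ : ℝ → ℂ} {x : ℝ} (h : Good φ x) (m : ℤ) : Good φ ((2:ℝ) ^ m * x) := by
  intro a q
  have := h (a + m) q
  convert this using 1
  rw [zpow_add₀ (two_ne_zero)]
  ring

theorem Good.half {φ : ℝ → ℂ} {x : ℝ} (h : Good φ x) : Good φ (x / 2) := by
  have := h.mul (-1)
  convert this using 1
  rw [zpow_neg_one]
  ring

theorem abs_eq_imp {x : ℝ} {n m : ℤ} (h : |x + n| = |x + m|) : n = m ∨ 2 * x = ((-(n + m) : ℤ) : ℝ) := by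
  rcases abs_eq_abs.1 h with h | h
  · left
    have : (n:ℝ) = m := by linarith
    exact_mod_cast this
  · right
    push_cast
    linarith

theorem E_unique {φ : ℝ → ℂ} {x : ℝ} {n m : ℤ} (hn : x + n ∈ E φ) (hm : x + m ∈ E φ) : n = m := by
  by_contra hne
  have h1 := hn.2 (m - n) (sub_ne_zero.2 (Ne.symm hne)) (by
    have : x + n + ((m - n : ℤ) : ℝ) = x + m := by push_cast; ring
    rw [this]; exact hm.1)
  have h2 := hm.2 (n - m) (sub_ne_zero.2 hne) (by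
    have : x + m + ((n - m : ℤ) : ℝ) = x + n := by push_cast; ring
    rw [this]; exact hn.1)
  have e1 : x + n + ((m - n : ℤ) : ℝ) = x + m := by push_cast; ring
  have e2 : x + m + ((n - m : ℤ) : ℝ) = x + n := by push_cast; ring
  rw [e1] at h1
  rw [e2] at h2
  exact lt_asymm h1 h2

theorem finite_le (x B : ℝ) : {n : ℤ | |x + n| ≤ B}.Finite := by
  refine (Set.finite_Icc (⌊-B - x⌋) (⌈B - x⌉)).subset ?_
  intro n hn
  have hn' : |x + n| ≤ B := hn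
  have h := abs_le.1 hn'
  constructor
  · have h1 : (⌊-B - x⌋ : ℝ) ≤ -B - x := Int.floor_le _
    have h2 : (⌊-B - x⌋ : ℝ) ≤ n := by linarith [h.1]
    exact_mod_cast h2
  · have h1 : B - x ≤ (⌈B - x⌉ : ℝ) := Int.le_ceil _
    have h2 : (n:ℝ) ≤ (⌈B - x⌉ : ℝ) := by linarith [h.2]
    exact_mod_cast h2

theorem E_exists {φ : ℝ → ℂ} {x : ℝ} (h : P φ x) : ∃ n : ℤ, x + n ∈ E φ := by
  have h0 : ∃ n : ℤ, w φ (x + n) ≠ 0 := by
    by_contra hcon
    push Not at hcon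
    have := h.d1
    rw [ENNReal.tsum_eq_zero.2 hcon] at this
    exact zero_ne_one this
  obtain ⟨n0, hn0⟩ := h0
  have hfin : {n : ℤ | w φ (x + n) ≠ 0 ∧ |x + n| ≤ |x + n0|}.Finite :=
    (finite_le x (|x + n0|)).subset fun n hn => hn.2
  obtain ⟨n, hn, hmin⟩ := Set.exists_min_image _ (fun n : ℤ => |x + n|) hfin ⟨n0, hn0, le_rfl⟩
  refine ⟨n, hn.1, ?_⟩
  intro k hk hwk
  have e : x + n + (k:ℝ) = x + ((n + k : ℤ) : ℝ) := by push_cast; ring
  rw [e] at hwk ⊢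
  have hle : |x + n| ≤ |x + ((n + k : ℤ) : ℝ)| := by
    by_cases hc : |x + ((n + k : ℤ) : ℝ)| ≤ |x + n0|
    · exact hmin (n + k) ⟨hwk, hc⟩
    · push Not at hc
      exact hn.2.trans hc.le
  refine lt_of_le_of_ne hle fun heq => ?_
  rcases abs_eq_imp heq with h1 | h1
  · omega
  · exact h.nd _ h1

/-- (i) -/
theorem E_half {φ : ℝ → ℂ} {x : ℝ} (h : Good φ x) (hx : x ∈ E φ) : x / 2 ∈ E φ := by
  have e2 : 2 * (x / 2) = x := by ring
  have hw : w φ (x / 2) ≠ 0 := by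
    rw [w_eq, e2]
    intro h0
    exact hx.1 (add_eq_zero.1 h0).2
  refine ⟨hw, ?_⟩
  intro n hn hwn
  have hne : |x / 2| ≠ |x / 2 + n| := by
    intro heq
    have h1 : |x / 2 + ((0 : ℤ) : ℝ)| = |x / 2 + n| := by simpa using heq
    rcases abs_eq_imp h1 with h1 | h1
    · exact hn h1.symm
    · exact h.half.p.nd _ h1
  by_contra hcon
  have hlt : |x / 2 + n| < |x / 2| := lt_of_le_of_ne (not_lt.1 hcon) hne.symm
  have hr := (h.half.p.r n hw hwn).2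
  rw [e2] at hr
  have h3 : 2 * (x / 2 + n) = x + ((2 * n : ℤ) : ℝ) := by push_cast; ring
  rw [h3] at hr
  have h4 : w φ (x + ((2 * n : ℤ) : ℝ)) ≠ 0 := fun h0 => hx.1 (hr.2 h0)
  have h5 := hx.2 (2 * n) (by omega) h4
  have h6 : |x + ((2 * n : ℤ) : ℝ)| = 2 * |x / 2 + n| := by
    rw [← h3, abs_mul, abs_two]
  have h7 : |x| = 2 * |x / 2| := by
    rw [← abs_two (α := ℝ), ← abs_mul, abs_two, e2]
  rw [h6, h7] at h5
  linarith

/-- W -/
def W (φ : ℝ → ℂ) : Set ℝ := {x | x / 2 ∈ E φ ∧ x ∉ E φ}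

/-- (ii) -/
theorem W_unique {φ : ℝ → ℂ} {y : ℝ} (h : Good φ y) : ∃! k : ℤ, y - (k : ℝ) ∈ W φ := by
  obtain ⟨n0, h0⟩ := E_exists h.p
  obtain ⟨n1, h1⟩ := E_exists h.half.p
  obtain ⟨n2, h2⟩ := E_exists (h.add 1).half.p
  have c1 : ∀ k : ℤ, (y + ((2 * k : ℤ) : ℝ)) / 2 = y / 2 + k := by
    intro k; push_cast; ring
  have c2 : ∀ k : ℤ, (y + ((2 * k + 1 : ℤ) : ℝ)) / 2 = (y + ((1 : ℤ) : ℝ)) / 2 + k := by
    intro k; push_cast; ring
  have key : ∀ n : ℤ, (y + n) / 2 ∈ E φ ↔ n = 2 * n1 ∨ n = 2 * n2 + 1 := by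
    intro n
    constructor
    · intro hn
      rcases Int.even_or_odd' n with ⟨k, rfl | rfl⟩
      · rw [c1] at hn
        left; rw [E_unique hn h1]
      · rw [c2] at hn
        right; rw [E_unique hn h2]
    · rintro (rfl | rfl)
      · rw [c1]; exact h1
      · rw [c2]; exact h2
  have k0 : n0 = 2 * n1 ∨ n0 = 2 * n2 + 1 := (key n0).1 (E_half (h.add n0) h0)
  have kE : ∀ n : ℤ, y + n ∈ E φ ↔ n = n0 := by
    intro n
    constructor
    · intro hn; exact E_unique hn h0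
    · rintro rfl; exact h0
  have kW : ∀ n : ℤ, y + n ∈ W φ ↔ (n = 2 * n1 ∨ n = 2 * n2 + 1) ∧ n ≠ n0 := by
    intro n
    unfold W
    rw [Set.mem_ofPred_eq, key, kE]
  have kW' : ∀ k : ℤ, y - (k:ℝ) ∈ W φ ↔ (-k = 2 * n1 ∨ -k = 2 * n2 + 1) ∧ -k ≠ n0 := by
    intro k
    have : y - (k:ℝ) = y + ((-k : ℤ) : ℝ) := by push_cast; ring
    rw [this, kW]
  rcases k0 with k0 | k0
  · refine ⟨-(2 * n2 + 1), (kW' _).2 (by omega), ?_⟩
    intro k hk
    have := (kW' k).1 hk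
    omega
  · refine ⟨-(2 * n1), (kW' _).2 (by omega), ?_⟩
    intro k hk
    have := (kW' k).1 hk
    omega

theorem tsum_even_odd (f : ℤ → ℝ≥0∞) :
    ∑' n : ℤ, f n = ∑' n : ℤ, f (2 * n) + ∑' n : ℤ, f (2 * n + 1) := by
  have hinj1 : Function.Injective (fun n : ℤ => 2 * n) := fun a b h => by
    simp only at h; omega
  have hinj2 : Function.Injective (fun n : ℤ => 2 * n + 1) := fun a b h => by
    simp only at h; omega
  have h1 : ∑' n : ℤ, f (2 * n) = ∑' x : Set.range (fun n : ℤ => 2 * n), f x :=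
    (tsum_range (g := fun n : ℤ => 2 * n) f hinj1).symm
  have h2 : ∑' n : ℤ, f (2 * n + 1) = ∑' x : Set.range (fun n : ℤ => 2 * n + 1), f x :=
    (tsum_range (g := fun n : ℤ => 2 * n + 1) f hinj2).symm
  rw [h1, h2]
  have hd : Disjoint (Set.range (fun n : ℤ => 2 * n)) (Set.range (fun n : ℤ => 2 * n + 1)) := by
    rw [Set.disjoint_left]
    rintro _ ⟨a, rfl⟩ ⟨b, hb⟩
    simp only at hb; omega
  have hu : Set.range (fun n : ℤ => 2 * n) ∪ Set.range (fun n : ℤ => 2 * n + 1) = Set.univ := by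
    ext n
    simp only [Set.mem_union, Set.mem_range, Set.mem_univ, iff_true]
    rcases Int.even_or_odd' n with ⟨k, h | h⟩
    · left; exact ⟨k, h.symm⟩
    · right; exact ⟨k, h.symm⟩
  have h3 := ENNReal.summable.tsum_union_disjoint (f := f) hd ENNReal.summable
  rw [hu] at h3
  rw [← h3]
  exact (tsum_univ f).symm

/-- (iii) -/
theorem W_support {φ : ℝ → ℂ} {x : ℝ} (h : Good φ x) (hx : x ∈ W φ) : φ x ≠ 0 := by
  intro hφ
  obtain ⟨hx1, hx2⟩ := hx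
  obtain ⟨n0, h0⟩ := E_exists h.p
  have hh := E_half (h.add n0) h0
  rcases Int.even_or_odd' n0 with ⟨k, rfl | rfl⟩
  · have c1 : (x + ((2 * k : ℤ) : ℝ)) / 2 = x / 2 + k := by push_cast; ring
    rw [c1] at hh
    have h1 : x / 2 + ((0 : ℤ) : ℝ) ∈ E φ := by simpa using hx1
    have := E_unique hh h1
    subst this
    apply hx2
    simpa using h0
  · have e2 : 2 * (x / 2) = x := by ring
    have hev : ∀ n : ℤ, φ (x + ((2 * n : ℤ) : ℝ)) = 0 := by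
      intro n
      have h3 : 2 * (x / 2 + n) = x + ((2 * n : ℤ) : ℝ) := by push_cast; ring
      by_cases hw : w φ (x / 2 + n) = 0
      · rw [w_eq, h3] at hw
        have := (add_eq_zero.1 hw).1
        simpa using this
      · have hr := (h.half.p.r n hx1.1 hw).1
        rw [e2, h3] at hr
        exact hr.1 hφ
    have hA := h.p.a1
    rw [tsum_even_odd] at hA
    have hz : ∑' n : ℤ, ‖φ (x + ((2 * n : ℤ) : ℝ))‖ₑ ^ 2 = 0 := by
      rw [ENNReal.tsum_eq_zero]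
      intro n
      rw [hev n]; simp
    rw [hz, zero_add] at hA
    set z : ℝ := (x + ((2 * k + 1 : ℤ) : ℝ)) / 2 with hzdef
    have hz2 : 2 * z = x + ((2 * k + 1 : ℤ) : ℝ) := by rw [hzdef]; ring
    have hB : ∑' n : ℤ, ‖φ (2 * (z + n))‖ₑ ^ 2 = 1 := by
      rw [← hA, ← (Equiv.addRight k).tsum_eq (fun n : ℤ => ‖φ (x + ((2 * n + 1 : ℤ) : ℝ))‖ₑ ^ 2)]
      refine tsum_congr fun n => ?_
      congr 3
      simp only [Equiv.coe_addRight]
      rw [mul_add, hz2]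
      push_cast
      ring
    have hD := ((h.add (2 * k + 1)).half.p).d1
    rw [← hzdef] at hD
    have hC : ∑' n : ℤ, w φ (z + n) = ∑' n : ℤ, ‖φ (2 * (z + n))‖ₑ ^ 2 +
        ∑' n : ℤ, w φ (2 * (z + n)) := by
      rw [← ENNReal.tsum_add]
      exact tsum_congr fun n => w_eq φ (z + n)
    rw [hC, hB] at hD
    have hE : ∑' n : ℤ, w φ (2 * (z + n)) = 0 := by
      have h1 : (1 : ℝ≥0∞) + ∑' n : ℤ, w φ (2 * (z + n)) = 1 + 0 := by rw [hD, add_zero]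
      exact (ENNReal.add_right_inj ENNReal.one_ne_top).1 h1
    have h5 := ENNReal.tsum_eq_zero.1 hE 0
    simp only [Int.cast_zero, add_zero] at h5
    rw [hz2] at h5
    exact h0.1 h5

theorem measurable_w {φ : ℝ → ℂ} (hm : Measurable φ) : Measurable (w φ) := by
  unfold w
  refine Measurable.tsum fun i => ?_
  exact ((hm.comp (measurable_const_mul _)).enorm).pow_const 2

theorem measurableSet_E {φ : ℝ → ℂ} (hm : Measurable φ) : MeasurableSet (E φ) := by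
  have hw := measurable_w hm
  have : E φ = {x | w φ x ≠ 0} ∩ ⋂ n : ℤ, {x | n ≠ 0 → w φ (x + n) ≠ 0 → |x| < |x + n|} := by
    ext x; simp [E]
  rw [this]
  refine MeasurableSet.inter (hw (measurableSet_singleton 0).compl) (MeasurableSet.iInter fun n => ?_)
  by_cases hn : n = 0
  · simp [hn]
  · have h2 : {x : ℝ | n ≠ 0 → w φ (x + n) ≠ 0 → |x| < |x + n|} =
        (fun x : ℝ => w φ (x + n)) ⁻¹' {0} ∪ {x : ℝ | |x| < |x + n|} := by
      ext x
      simp only [Set.mem_ofPred_eq, Set.mem_union, Set.mem_preimage, Set.mem_singleton_iff]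
      constructor
      · intro h
        by_cases hc : w φ (x + n) = 0
        · exact Or.inl hc
        · exact Or.inr (h hn hc)
      · rintro (h | h) _ h3
        · exact absurd h h3
        · exact h
    rw [h2]
    refine MeasurableSet.union ?_ ?_
    · exact (hw.comp (measurable_add_const _)) (measurableSet_singleton 0)
    · exact measurableSet_lt continuous_abs.measurable
        (continuous_abs.comp (continuous_add_const (n:ℝ))).measurable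

theorem measurableSet_W {φ : ℝ → ℂ} (hm : Measurable φ) : MeasurableSet (W φ) := by
  have : W φ = (fun x : ℝ => x / 2) ⁻¹' (E φ) ∩ (E φ)ᶜ := by
    ext x; simp [W]
  rw [this]
  exact ((measurable_id.div_const 2) (measurableSet_E hm)).inter (measurableSet_E hm).compl

open Pointwise in
theorem volume_E_le {φ : ℝ → ℂ} (hm : Measurable φ) : volume (E φ) ≤ 1 := by
  have hF := isAddFundamentalDomain_Ioc (one_pos : (0:ℝ) < 1) 0 volume
  rw [hF.measure_eq_tsum]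
  have hmE := measurableSet_E hm
  have hdisj : Pairwise (Function.onFun Disjoint fun g : AddSubgroup.zmultiples (1:ℝ) =>
      (g +ᵥ E φ) ∩ Set.Ioc (0:ℝ) (0 + 1)) := by
    intro g g' hg
    simp only [Function.onFun]
    refine Disjoint.mono Set.inter_subset_left Set.inter_subset_left ?_
    rw [Set.disjoint_left]
    intro x hx hx'
    apply hg
    obtain ⟨n, hn⟩ := AddSubgroup.mem_zmultiples_iff.1 g.2
    obtain ⟨n', hn'⟩ := AddSubgroup.mem_zmultiples_iff.1 g'.2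
    rw [Set.mem_vadd_set_iff_neg_vadd_mem] at hx hx'
    have e1 : (-g +ᵥ x : ℝ) = x + ((-n : ℤ) : ℝ) := by
      have : ((-g : AddSubgroup.zmultiples (1:ℝ)) : ℝ) = -(n:ℝ) := by
        rw [AddSubgroup.coe_neg, ← hn]; simp
      rw [AddSubgroup.vadd_def, vadd_eq_add, this]
      push_cast; ring
    have e2 : (-g' +ᵥ x : ℝ) = x + ((-n' : ℤ) : ℝ) := by
      have : ((-g' : AddSubgroup.zmultiples (1:ℝ)) : ℝ) = -(n':ℝ) := by
        rw [AddSubgroup.coe_neg, ← hn']; simp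
      rw [AddSubgroup.vadd_def, vadd_eq_add, this]
      push_cast; ring
    rw [e1] at hx
    rw [e2] at hx'
    have h3 := E_unique hx hx'
    have h4 : n = n' := by omega
    apply Subtype.ext
    rw [← hn, ← hn', h4]
  have hmeas : ∀ g : AddSubgroup.zmultiples (1:ℝ),
      MeasurableSet ((g +ᵥ E φ) ∩ Set.Ioc (0:ℝ) (0 + 1)) := fun g =>
    (hmE.const_vadd g).inter measurableSet_Ioc
  rw [← measure_iUnion hdisj hmeas]
  calc volume (⋃ g : AddSubgroup.zmultiples (1:ℝ), (g +ᵥ E φ) ∩ Set.Ioc (0:ℝ) (0 + 1))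
      ≤ volume (Set.Ioc (0:ℝ) (0 + 1)) := measure_mono (Set.iUnion_subset fun g =>
        Set.inter_subset_right)
    _ = 1 := by simp

theorem ae_exists_not_mem {φ : ℝ → ℂ} (hm : Measurable φ) :
    ∀ᵐ x : ℝ, ∃ m : ℤ, (2:ℝ) ^ m * x ∉ E φ := by
  rw [ae_iff]
  push Not
  have hle : ∀ k : ℕ, volume {x : ℝ | ∀ m : ℤ, (2:ℝ) ^ m * x ∈ E φ} ≤ ((2:ℝ≥0∞)⁻¹) ^ k := by
    intro k
    calc volume {x : ℝ | ∀ m : ℤ, (2:ℝ) ^ m * x ∈ E φ}
        ≤ volume ((fun x : ℝ => (2:ℝ) ^ k * x) ⁻¹' (E φ)) := measure_mono fun x hx => by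
          have := hx (k : ℤ)
          simpa using this
      _ = ENNReal.ofReal |((2:ℝ) ^ k)⁻¹| * volume (E φ) :=
          Real.volume_preimage_mul_left (pow_ne_zero k two_ne_zero) _
      _ ≤ ENNReal.ofReal |((2:ℝ) ^ k)⁻¹| * 1 := by gcongr; exact volume_E_le hm
      _ = ((2:ℝ≥0∞)⁻¹) ^ k := by
          rw [mul_one, abs_of_pos (by positivity), ← inv_pow, ENNReal.ofReal_pow (by positivity),
            ENNReal.ofReal_inv_of_pos two_pos]
          simp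
  have hlim : Filter.Tendsto (fun k : ℕ => ((2:ℝ≥0∞)⁻¹) ^ k) Filter.atTop (nhds 0) :=
    ENNReal.tendsto_pow_atTop_nhds_zero_of_lt_one (by simp)
  exact le_antisymm (ge_of_tendsto' hlim hle) bot_le

/-- (iv) -/
theorem W_dil {φ : ℝ → ℂ} {y : ℝ} (h : Good φ y) (hy : ∃ m : ℤ, (2:ℝ) ^ m * y ∉ E φ) :
    ∃! j : ℤ, ((2:ℝ) ^ (-j)) * y ∈ W φ := by
  have hhalf : ∀ m : ℤ, (2:ℝ) ^ m * y / 2 = (2:ℝ) ^ (m - 1) * y := by
    intro m
    rw [zpow_sub_one₀ two_ne_zero]; ring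
  have hdown : ∀ m : ℤ, (2:ℝ) ^ m * y ∈ E φ → (2:ℝ) ^ (m - 1) * y ∈ E φ := by
    intro m hm
    rw [← hhalf]
    exact E_half (h.mul m) hm
  have hdown' : ∀ (k : ℕ) (m : ℤ), (2:ℝ) ^ m * y ∈ E φ → (2:ℝ) ^ (m - k) * y ∈ E φ := by
    intro k
    induction k with
    | zero => intro m hm; simpa using hm
    | succ k ih =>
      intro m hm
      have := hdown _ (ih m hm)
      have e : m - ((k + 1 : ℕ) : ℤ) = m - k - 1 := by push_cast; ring
      rw [e]; exact this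
  have hle : ∀ m m' : ℤ, m' ≤ m → (2:ℝ) ^ m * y ∈ E φ → (2:ℝ) ^ m' * y ∈ E φ := by
    intro m m' hmm hm
    obtain ⟨k, hk⟩ := Int.eq_ofNat_of_zero_le (sub_nonneg.2 hmm)
    have := hdown' k m hm
    have e : m - (k : ℤ) = m' := by omega
    rwa [e] at this
  -- nonempty
  have hne : ∃ m : ℤ, (2:ℝ) ^ m * y ∈ E φ := by
    have h0 : ∃ l : ℤ, φ ((2:ℝ) ^ l * y) ≠ 0 := by
      by_contra hcon
      push Not at hcon
      have := h.p.a2
      have hz : ∑' j : ℤ, ‖φ ((2:ℝ) ^ j * y)‖ₑ ^ 2 = 0 := by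
        rw [ENNReal.tsum_eq_zero]
        intro j
        rw [hcon j]; simp
      rw [hz] at this
      exact zero_ne_one this
    obtain ⟨l, hl⟩ := h0
    obtain ⟨N, hN⟩ : ∃ N : ℕ, |y| < (2:ℝ) ^ N := by
      exact pow_unbounded_of_one_lt |y| one_lt_two
    -- m = min (l - 1) (- N - 1)
    refine ⟨min (l - 1) (-(N:ℤ) - 1), ?_⟩
    set m : ℤ := min (l - 1) (-(N:ℤ) - 1) with hmdef
    have hm1 : m ≤ l - 1 := min_le_left _ _
    have hm2 : m ≤ -(N:ℤ) - 1 := min_le_right _ _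
    have hsmall : |(2:ℝ) ^ m * y| < 1 / 2 := by
      have h1 : (2:ℝ) ^ m ≤ (2:ℝ) ^ (-(N:ℤ) - 1) := zpow_le_zpow_right₀ (by norm_num) hm2
      have h2 : (2:ℝ) ^ (-(N:ℤ) - 1) = ((2:ℝ) ^ N)⁻¹ / 2 := by
        rw [zpow_sub_one₀ two_ne_zero, zpow_neg, zpow_natCast]; ring
      have h3 : (0:ℝ) < (2:ℝ) ^ m := zpow_pos two_pos m
      rw [abs_mul, abs_of_pos h3]
      have h4 : (0:ℝ) < (2:ℝ) ^ N := by positivity
      calc (2:ℝ) ^ m * |y| ≤ (((2:ℝ) ^ N)⁻¹ / 2) * |y| := by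
            rw [← h2]; exact mul_le_mul_of_nonneg_right h1 (abs_nonneg y)
        _ < (((2:ℝ) ^ N)⁻¹ / 2) * (2:ℝ) ^ N := by
            exact mul_lt_mul_of_pos_left hN (by positivity)
        _ = 1 / 2 := by field_simp
    refine ⟨?_, ?_⟩
    · obtain ⟨k, hk⟩ := Int.eq_ofNat_of_zero_le (sub_nonneg.2 hm1)
      refine w_ne_of_phi k ?_
      have e : (2:ℝ) ^ (k + 1) * ((2:ℝ) ^ m * y) = (2:ℝ) ^ l * y := by
        have : l = ((k + 1 : ℕ) : ℤ) + m := by push_cast; omega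
        rw [this, zpow_add₀ two_ne_zero, zpow_natCast]; ring
      rw [e]; exact hl
    · intro n hn _
      have h1 : (1:ℝ) ≤ |(n:ℝ)| := by
        have := Int.one_le_abs hn
        have h2 : ((1:ℤ):ℝ) ≤ ((|n| : ℤ) : ℝ) := by exact_mod_cast this
        simpa using h2
      have h2 : |(n:ℝ)| ≤ |(2:ℝ) ^ m * y + n| + |(2:ℝ) ^ m * y| := by
        have : (n:ℝ) = ((2:ℝ) ^ m * y + n) - ((2:ℝ) ^ m * y) := by ring
        calc |(n:ℝ)| = |((2:ℝ) ^ m * y + n) - ((2:ℝ) ^ m * y)| := by rw [← this]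
          _ ≤ _ := abs_sub _ _
      linarith
  obtain ⟨m0, hm0⟩ := hne
  obtain ⟨m1, hm1⟩ := hy
  -- the maximum
  have hbdd : ∀ z : ℤ, (2:ℝ) ^ z * y ∈ E φ → z ≤ m1 := by
    intro z hz
    by_contra hcon
    exact hm1 (hle z m1 (by omega) hz)
  obtain ⟨J, hJ, hJmax⟩ := Int.exists_greatest_of_bdd (P := fun z : ℤ => (2:ℝ) ^ z * y ∈ E φ)
    ⟨m1, hbdd⟩ ⟨m0, hm0⟩
  have hS : ∀ m : ℤ, (2:ℝ) ^ m * y ∈ E φ ↔ m ≤ J :=
    fun m => ⟨hJmax m, fun hm => hle J m hm hJ⟩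
  have hW : ∀ m : ℤ, (2:ℝ) ^ m * y ∈ W φ ↔ m = J + 1 := by
    intro m
    unfold W
    rw [Set.mem_ofPred_eq, hhalf, hS, hS]
    omega
  refine ⟨-(J + 1), (hW _).2 (by omega), ?_⟩
  intro j hj
  have := (hW _).1 hj
  omega

/-- the case of constant dimension one. -/
theorem mra_case (φ : ℝ → ℂ) (hm : Measurable φ)
    (A1 : ∀ᵐ x : ℝ, ∑' n : ℤ, ‖φ (x + n)‖ₑ ^ 2 = 1)
    (A2 : ∀ᵐ x : ℝ, ∑' j : ℤ, ‖φ ((2:ℝ) ^ j * x)‖ₑ ^ 2 = 1)
    (D1 : ∀ᵐ x : ℝ, ∑' n : ℤ, w φ (x + n) = 1)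
    (R : ∀ᵐ x : ℝ, ∀ n : ℤ, w φ x ≠ 0 → w φ (x + n) ≠ 0 →
      (φ (2 * x) = 0 ↔ φ (2 * (x + n)) = 0) ∧ (w φ (2 * x) = 0 ↔ w φ (2 * (x + n)) = 0)) :
    ∃ W : Set ℝ, MeasurableSet W ∧
        (∀ᵐ x : ℝ ∂volume, ∃! k : ℤ, x - (k : ℝ) ∈ W) ∧
        (∀ᵐ x : ℝ ∂volume, ∃! j : ℤ, ((2:ℝ) ^ (-j)) * x ∈ W) ∧
        (∀ᵐ ξ : ℝ ∂volume, ξ ∈ W → φ ξ ≠ 0) := by
  have hnd : ∀ᵐ x : ℝ, ∀ n : ℤ, 2 * x ≠ n := by
    rw [ae_all_iff]
    intro n
    have : ∀ᵐ x : ℝ, x ≠ (n:ℝ) / 2 := by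
      simp [ae_iff]
    filter_upwards [this] with x hx h
    apply hx
    rw [← h]; ring
  have hP : ∀ᵐ x : ℝ, P φ x := by
    filter_upwards [A1, A2, D1, R, hnd] with x h1 h2 h3 h4 h5
    exact ⟨h1, h2, h3, h4, h5⟩
  have hG := ae_good hP
  refine ⟨W φ, measurableSet_W hm, ?_, ?_, ?_⟩
  · filter_upwards [hG] with x hx
    exact W_unique hx
  · filter_upwards [hG, ae_exists_not_mem hm] with x hx hx2
    exact W_dil hx hx2
  · filter_upwards [hG] with x hx hxW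
    exact W_support hx hxW

end Pool.Agent.Helper152.LarF
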