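import Pool.Agent.Helper152.LarBase

set_option autoImplicit false
open MeasureTheory
open scoped ENNReal

namespace Pool.Agent.Helper152.LarD

open Pool.Agent.Helper152.Lar (w)


/-- the Hilbert space l2(Z) -/
noncomputable abbrev HZ := lp (fun _ : ℤ => ℂ) 2


theorem esq (z : ℂ) : ‖z‖ₑ ^ 2 = ENNReal.ofReal (‖z‖ ^ 2) := by
  rw [← ofReal_norm, ENNReal.ofReal_pow (norm_nonneg _)]

theorem tsum_esq (f : HZ) : ∑' n, ‖f n‖ₑ ^ 2 = ENNReal.ofReal (‖f‖ ^ 2) := by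
  have h1 : HasSum (fun n => ‖f n‖ ^ 2) (‖f‖ ^ 2) := by
    have := lp.hasSum_norm (p := 2) (by norm_num) f
    simpa using this
  simp_rw [esq]
  rw [← ENNReal.ofReal_tsum_of_nonneg (fun n => sq_nonneg _) h1.summable, h1.tsum_eq]

theorem inner_delta (f : HZ) (n : ℤ) :
    ‖(inner ℂ (f) ((lp.single 2 n (1:ℂ) : HZ)))‖ ^ 2 = ‖f n‖ ^ 2 := by
  rw [lp.inner_single_right]
  simp

theorem norm_delta (n : ℤ) : ‖(lp.single 2 n (1:ℂ) : HZ)‖ = 1 := by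
  rw [lp.norm_single (by norm_num)]
  simp

/-- Bessel for an enlarged family -/
theorem bessel2 {ι κ : Type*} [Fintype κ] (v : ι → HZ) (k : κ → HZ) (hv : Orthonormal ℂ v)
    (hk : Orthonormal ℂ k) (hvk : ∀ i c, (inner ℂ (v i) (k c)) = 0) (n : ℤ) :
    ∑' i, ‖v i n‖ₑ ^ 2 + ∑ c, ‖k c n‖ₑ ^ 2 ≤ 1 := by
  have hon : Orthonormal ℂ (Sum.elim v k) := by
    constructor
    · rintro (i | c)
      · exact hv.1 i
      · exact hk.1 c
    · rintro (i | c) (i' | c') hne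
      · exact hv.2 (fun h => hne (by rw [h]))
      · exact hvk i c'
      · exact inner_eq_zero_symm.mp (hvk i' c)
      · exact hk.2 (fun h => hne (by rw [h]))
  have hfin : ∀ s : Finset ι, ∑ i ∈ s, ‖v i n‖ₑ ^ 2 + ∑ c, ‖k c n‖ₑ ^ 2 ≤ 1 := by
    intro s
    have h1 := hon.sum_inner_products_le (x := (lp.single 2 n (1:ℂ) : HZ))
      (s := s.disjSum Finset.univ)
    rw [Finset.sum_disjSum] at h1
    simp only [Sum.elim_inl, Sum.elim_inr, inner_delta, norm_delta] at h1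
    simp_rw [esq]
    rw [← ENNReal.ofReal_sum_of_nonneg (fun i _ => sq_nonneg _),
      ← ENNReal.ofReal_sum_of_nonneg (fun i _ => sq_nonneg _),
      ← ENNReal.ofReal_add (Finset.sum_nonneg fun i _ => sq_nonneg _)
        (Finset.sum_nonneg fun i _ => sq_nonneg _)]
    rw [ENNReal.ofReal_le_one]
    linarith
  have hc : ∑ c, ‖k c n‖ₑ ^ 2 ≤ 1 := by
    have := hfin ∅
    simpa using this
  have hle : ∑' i, ‖v i n‖ₑ ^ 2 ≤ 1 - ∑ c, ‖k c n‖ₑ ^ 2 := by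
    rw [ENNReal.tsum_eq_iSup_sum]
    apply iSup_le
    intro s
    exact ENNReal.le_sub_of_add_le_right (ne_top_of_le_ne_top ENNReal.one_ne_top hc) (hfin s)
  calc ∑' i, ‖v i n‖ₑ ^ 2 + ∑ c, ‖k c n‖ₑ ^ 2
      ≤ (1 - ∑ c, ‖k c n‖ₑ ^ 2) + ∑ c, ‖k c n‖ₑ ^ 2 := add_le_add hle (le_refl _)
    _ = 1 := tsub_add_cancel_of_le hc

theorem complete_case {ι : Type*} (v : ι → HZ) (hv : Orthonormal ℂ v)
    (hK : (Submodule.span ℂ (Set.range v))ᗮ = ⊥) (n : ℤ) :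
    ∑' i, ‖v i n‖ₑ ^ 2 = 1 := by
  have h1 := (HilbertBasis.mkOfOrthogonalEqBot hv hK).hasSum_inner_mul_inner
    (lp.single 2 n (1:ℂ) : HZ) (lp.single 2 n (1:ℂ) : HZ)
  simp only [HilbertBasis.coe_mkOfOrthogonalEqBot] at h1
  have h2 : HasSum (fun i => ‖v i n‖ ^ 2) 1 := by
    have h3 := Complex.hasSum_re h1
    have e1 : ((inner ℂ ((lp.single 2 n (1:ℂ) : HZ)) ((lp.single 2 n (1:ℂ) : HZ)))).re = 1 := by
      rw [inner_self_eq_norm_sq_to_K, norm_delta]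
      simp
    rw [e1] at h3
    convert! h3 using 1
    funext i
    have e2 := inner_mul_symm_re_eq_norm (𝕜 := ℂ) (lp.single 2 n (1:ℂ) : HZ) (v i)
    have e3 : ((inner ℂ ((lp.single 2 n (1:ℂ) : HZ)) (v i)) * (inner ℂ (v i) ((lp.single 2 n (1:ℂ) : HZ)))).re =
      ‖(inner ℂ ((lp.single 2 n (1:ℂ) : HZ)) (v i)) * (inner ℂ (v i) ((lp.single 2 n (1:ℂ) : HZ)))‖ := e2
    rw [e3, norm_mul, norm_inner_symm (𝕜 := ℂ) (lp.single 2 n (1:ℂ) : HZ) (v i), ← sq, inner_delta]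
  simp_rw [esq]
  rw [← ENNReal.ofReal_tsum_of_nonneg (fun n => sq_nonneg _) h2.summable, h2.tsum_eq,
    ENNReal.ofReal_one]

theorem orth_iff {ι : Type*} (v : ι → HZ) (k : HZ) :
    k ∈ (Submodule.span ℂ (Set.range v))ᗮ ↔ ∀ i, (inner ℂ (v i) (k)) = 0 := by
  rw [Submodule.mem_orthogonal]
  constructor
  · intro h i
    exact h _ (Submodule.subset_span ⟨i, rfl⟩)
  · intro h x hx
    induction hx using Submodule.span_induction with
    | mem x hx => obtain ⟨i, rfl⟩ := hx; exact h i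
    | zero => exact inner_zero_left _
    | add x y _ _ hx hy => rw [inner_add_left, hx, hy, add_zero]
    | smul a x _ hx => rw [inner_smul_left, hx, mul_zero]

theorem unit_bound {ι : Type*} (v : ι → HZ) (hv : Orthonormal ℂ v) (W : ℤ → ℝ≥0∞)
    (hW : ∀ n, ∑' i, ‖v i n‖ₑ ^ 2 + W n = 1) {κ : Type*} [Fintype κ] (k : κ → HZ)
    (hk : Orthonormal ℂ k) (hvk : ∀ i c, (inner ℂ (v i) (k c)) = 0) (n : ℤ) :
    ∑ c, ‖k c n‖ₑ ^ 2 ≤ W n := by
  have h1 := bessel2 v k hv hk hvk n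
  rw [← hW n] at h1
  have h2 : ∑' i, ‖v i n‖ₑ ^ 2 ≠ ⊤ := by
    apply ne_top_of_le_ne_top ENNReal.one_ne_top
    rw [← hW n]
    exact le_self_add
  exact (ENNReal.add_le_add_iff_left h2).mp h1

theorem unit_bound1 {ι : Type*} (v : ι → HZ) (hv : Orthonormal ℂ v) (W : ℤ → ℝ≥0∞)
    (hW : ∀ n, ∑' i, ‖v i n‖ₑ ^ 2 + W n = 1) (k : HZ)
    (hk : ‖k‖ = 1) (hvk : ∀ i, (inner ℂ (v i) (k)) = 0) (n : ℤ) :
    ‖k n‖ₑ ^ 2 ≤ W n := by
  have hon : Orthonormal ℂ (fun _ : Unit => k) := by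
    constructor
    · intro _; exact hk
    · intro a b hab; exact absurd (Subsingleton.elim a b) hab
  have := unit_bound v hv W hW (fun _ : Unit => k) hon (fun i _ => hvk i) n
  simpa using this

theorem abs_rank {ι : Type*} (v : ι → HZ) (hv : Orthonormal ℂ v) (W W2 : ℤ → ℝ≥0∞)
    (hW : ∀ n, ∑' i, ‖v i n‖ₑ ^ 2 + W n = 1) (u : HZ) (hu : ‖u‖ ≤ 1) (huv : ∀ i, (inner ℂ (v i) (u)) = 0)
    (hW2 : ∀ n, W n = ‖u n‖ₑ ^ 2 + W2 n) :
    (∑' n, W n = 0 ∨ 1 ≤ ∑' n, W n) ∧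
    (∑' n, W n = 1 → ∀ n n', W n ≠ 0 → W n' ≠ 0 →
      (u n = 0 ↔ u n' = 0) ∧ (W2 n = 0 ↔ W2 n' = 0)) := by
  have hcase : ∑' n, W n = 0 ∨ ∃ k : HZ, ‖k‖ = 1 ∧ ∀ i, (inner ℂ (v i) (k)) = 0 := by
    by_cases hK : (Submodule.span ℂ (Set.range v))ᗮ = ⊥
    · left
      rw [ENNReal.tsum_eq_zero]
      intro n
      have h1 := complete_case v hv hK n
      have h2 := hW n
      rw [h1] at h2
      have h3 : (1:ℝ≥0∞) + W n = 1 + 0 := by rw [h2, add_zero]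
      exact (ENNReal.add_right_inj ENNReal.one_ne_top).mp h3
    · right
      obtain ⟨k, hk, hk0⟩ := Submodule.exists_mem_ne_zero_of_ne_bot hK
      rw [orth_iff] at hk
      refine ⟨((‖k‖⁻¹ : ℝ) : ℂ) • k, ?_, ?_⟩
      · rw [norm_smul, Complex.norm_real, norm_inv, norm_norm, inv_mul_cancel₀ (norm_ne_zero_iff.mpr hk0)]
      · intro i
        rw [inner_smul_right, hk i, mul_zero]
  have hsum1 : ∀ k : HZ, ‖k‖ = 1 → ∑' n, ‖k n‖ₑ ^ 2 = 1 := by
    intro k hk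
    rw [tsum_esq, hk, one_pow, ENNReal.ofReal_one]
  refine ⟨?_, ?_⟩
  · rcases hcase with h | ⟨k, hk1, hkv⟩
    · exact Or.inl h
    · right
      rw [← hsum1 k hk1]
      exact ENNReal.tsum_le_tsum (fun n => unit_bound1 v hv W hW k hk1 hkv n)
  · intro htot
    rcases hcase with h | ⟨k, hk1, hkv⟩
    · rw [h] at htot
      exact absurd htot (by norm_num)
    -- equality termwise
    have hle : ∀ n, ‖k n‖ₑ ^ 2 ≤ W n := fun n => unit_bound1 v hv W hW k hk1 hkv n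
    have hWtop : ∀ n, W n ≠ ⊤ := by
      intro n
      apply ne_top_of_le_ne_top ENNReal.one_ne_top
      rw [← hW n]
      exact le_add_self
    have heq : ∀ n, ‖k n‖ₑ ^ 2 = W n := by
      intro n
      by_contra hne
      have hlt : ‖k n‖ₑ ^ 2 < W n := lt_of_le_of_ne (hle n) hne
      have := ENNReal.tsum_lt_tsum (by rw [hsum1 k hk1]; exact ENNReal.one_ne_top) hle hlt
      rw [hsum1 k hk1, htot] at this
      exact lt_irrefl _ this
    -- u is a multiple of k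
    set α : ℂ := (inner ℂ (k) (u)) with hα
    have hukk : u = α • k := by
      by_contra hne
      have hd0 : u - α • k ≠ 0 := sub_ne_zero.mpr hne
      set d : HZ := u - α • k with hd
      have hkd : (inner ℂ (k) (d)) = 0 := by
        rw [hd, inner_sub_right, inner_smul_right, inner_self_eq_norm_sq_to_K, hk1]
        simp [hα]
      have hvd : ∀ i, (inner ℂ (v i) (d)) = 0 := by
        intro i
        rw [hd, inner_sub_right, inner_smul_right, huv i, hkv i]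
        simp
      set k' : HZ := ((‖d‖⁻¹ : ℝ) : ℂ) • d with hk'
      have hk'1 : ‖k'‖ = 1 := by
        rw [hk', norm_smul, Complex.norm_real, norm_inv, norm_norm,
          inv_mul_cancel₀ (norm_ne_zero_iff.mpr hd0)]
      have hkk' : (inner ℂ (k) (k')) = 0 := by rw [hk', inner_smul_right, hkd, mul_zero]
      have hvk' : ∀ i, (inner ℂ (v i) (k')) = 0 := by
        intro i
        rw [hk', inner_smul_right, hvd i, mul_zero]
      have hon : Orthonormal ℂ (fun b : Bool => if b then k else k') := by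
        constructor
        · rintro (b | b)
          · simpa using hk'1
          · simpa using hk1
        · rintro (a | a) (b | b) hab
          · exact absurd rfl hab
          · simpa using inner_eq_zero_symm.mp hkk'
          · simpa using hkk'
          · exact absurd rfl hab
      have hb : ∀ n, ‖k n‖ₑ ^ 2 + ‖k' n‖ₑ ^ 2 ≤ W n := by
        intro n
        have hvb : ∀ i (b : Bool), (inner ℂ (v i) (if b then k else k')) = 0 := by
          intro i b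
          cases b
          · simpa using hvk' i
          · simpa using hkv i
        have := unit_bound v hv W hW (fun b : Bool => if b then k else k') hon hvb n
        simpa using this
      have h2 : ∑' n, (‖k n‖ₑ ^ 2 + ‖k' n‖ₑ ^ 2) ≤ ∑' n, W n := ENNReal.tsum_le_tsum hb
      rw [ENNReal.tsum_add, hsum1 k hk1, hsum1 k' hk'1, htot] at h2
      norm_num at h2
    have hun : ∀ n, u n = α * k n := by
      intro n
      conv_lhs => rw [hukk]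
      simp
    have hαW : ∀ n, ‖α‖ₑ ^ 2 * W n + W2 n = W n := by
      intro n
      rw [← heq n, ← mul_pow, ← enorm_mul, ← hun n, heq n]
      exact (hW2 n).symm
    have hα1 : ∀ n, W n ≠ 0 → (W2 n = 0 ↔ ‖α‖ₑ ^ 2 = 1) := by
      intro n hn
      have h1 := hαW n
      constructor
      · intro h
        rw [h, add_zero] at h1
        have h2 : ‖α‖ₑ ^ 2 * W n = 1 * W n := by rw [h1, one_mul]
        exact (ENNReal.mul_left_inj hn (hWtop n)).mp h2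
      · intro h
        rw [h, one_mul] at h1
        have h2 : W n + W2 n = W n + 0 := by rw [h1, add_zero]
        exact (ENNReal.add_right_inj (hWtop n)).mp h2
    have hα0 : ∀ n, W n ≠ 0 → (u n = 0 ↔ α = 0) := by
      intro n hn
      have hkn : k n ≠ 0 := by
        intro h
        apply hn
        rw [← heq n, h]
        simp
      rw [hun n, mul_eq_zero]
      constructor
      · rintro (h | h)
        · exact h
        · exact absurd h hkn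
      · exact Or.inl
    intro n n' hn hn'
    exact ⟨(hα0 n hn).trans (hα0 n' hn').symm, (hα1 n hn).trans (hα1 n' hn').symm⟩

/-- the vectors -/
noncomputable def vf (φ : ℝ → ℂ) (x : ℝ) (j : ℕ) (r : ℤ) : ℤ → ℂ :=
  fun n => if n % 2 ^ j = r then φ ((x + n) / 2 ^ j) else 0

theorem class_inj (j : ℕ) (r : ℤ) : Function.Injective (fun m : ℤ => r + 2 ^ j * m) := by
  intro a b hab
  have h1 : (2:ℤ) ^ j * a = 2 ^ j * b := add_left_cancel hab
  exact mul_left_cancel₀ (by positivity) h1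

theorem tsum_class {M : Type*} [AddCommMonoid M] [TopologicalSpace M] (j : ℕ) (r : ℤ)
    (F : ℤ → M) (hF : ∀ n, n % 2 ^ j ≠ r → F n = 0) :
    ∑' n, F n = ∑' m : ℤ, F (r + 2 ^ j * m) := by
  refine ((class_inj j r).tsum_eq ?_).symm
  intro n hn
  rw [Function.mem_support] at hn
  have h1 : n % 2 ^ j = r := by
    by_contra h
    exact hn (hF n h)
  refine ⟨n / 2 ^ j, ?_⟩
  have := Int.emod_add_mul_ediv n (2 ^ j)
  simp only
  linarith

theorem class_emod (j : ℕ) (r : ℤ) (hr0 : 0 ≤ r) (hr : r < 2 ^ j) (m : ℤ) :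
    (r + 2 ^ j * m) % 2 ^ j = r := by
  rw [Int.add_mul_emod_self_left]
  exact Int.emod_eq_of_lt hr0 hr

theorem class_arg (x : ℝ) (j : ℕ) (r m : ℤ) :
    (x + ((r + 2 ^ j * m : ℤ) : ℝ)) / 2 ^ j = (x + r) / 2 ^ j + m := by
  push_cast
  field_simp
  ring

theorem vf_norm (φ : ℝ → ℂ) (x : ℝ)
    (h1 : ∀ (j : ℕ) (r : ℤ), ∑' m : ℤ, ‖φ ((x + r) / 2 ^ j + m)‖ₑ ^ 2 = 1)
    (j : ℕ) (r : ℤ) (hr0 : 0 ≤ r) (hr : r < 2 ^ j) :
    ∑' n, ‖vf φ x j r n‖ₑ ^ 2 = 1 := by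
  rw [tsum_class j r (fun n => ‖vf φ x j r n‖ₑ ^ 2)
    (by intro n hn; simp [vf, hn]), ← h1 j r]
  congr 1
  funext m
  unfold vf
  rw [if_pos (class_emod j r hr0 hr m), class_arg]

theorem memlp_of (f : ℤ → ℂ) (h : ∑' n, ‖f n‖ₑ ^ 2 ≠ ⊤) : Memℓp f 2 := by
  apply memℓp_gen
  have h1 := ENNReal.summable_toReal h
  convert! h1 using 1
  funext n
  rw [esq, ENNReal.toReal_ofReal (sq_nonneg _)]
  norm_num

/-- sums against the vectors vanish -/
theorem sum_vf (φ : ℝ → ℂ) (x : ℝ)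
    (hc : ∀ (j : ℕ) (r : ℤ) (i : ℕ), 1 ≤ i →
      ∑' m : ℤ, φ ((2:ℝ) ^ i * ((x + r) / 2 ^ j + m)) * (starRingEnd ℂ) (φ ((x + r) / 2 ^ j + m)) = 0)
    (j : ℕ) (r : ℤ) (hr0 : 0 ≤ r) (hr : r < 2 ^ j) (g : ℤ → ℂ) (i : ℕ) (hi : 1 ≤ i)
    (hg : ∀ n, n % 2 ^ j = r → g n = φ ((2:ℝ) ^ i * ((x + n) / 2 ^ j))) :
    ∑' n, g n * (starRingEnd ℂ) (vf φ x j r n) = 0 := by
  rw [tsum_class j r (fun n => g n * (starRingEnd ℂ) (vf φ x j r n))
    (by intro n hn; simp [vf, hn]), ← hc j r i hi]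
  congr 1
  funext m
  have h1 := class_emod j r hr0 hr m
  unfold vf
  rw [if_pos h1, hg _ h1, class_arg]

theorem fib_sum (φ : ℝ → ℂ) (x : ℝ) (n : ℤ) :
    ∑' i : (Σ j : ℕ, Fin (2 ^ j)), ‖vf φ x i.1 ((i.2 : ℕ) : ℤ) n‖ₑ ^ 2 =
      ∑' j : ℕ, ‖φ ((x + n) / 2 ^ j)‖ₑ ^ 2 := by
  rw [ENNReal.tsum_sigma (fun (j : ℕ) (r : Fin (2 ^ j)) => ‖vf φ x j ((r : ℕ) : ℤ) n‖ₑ ^ 2)]
  congr 1
  funext j
  rw [tsum_fintype]
  have hpos : (0:ℤ) < 2 ^ j := by positivity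
  have h1 : 0 ≤ n % 2 ^ j := Int.emod_nonneg _ hpos.ne'
  have h2 : n % 2 ^ j < 2 ^ j := Int.emod_lt_of_pos _ hpos
  have h3 : (n % 2 ^ j).toNat < 2 ^ j := by
    zify
    rw [Int.toNat_of_nonneg h1]
    exact h2
  rw [Finset.sum_eq_single (⟨(n % 2 ^ j).toNat, h3⟩ : Fin (2 ^ j))]
  · simp only [vf]
    rw [if_pos (Int.toNat_of_nonneg h1).symm]
  · intro r _ hr
    simp only [vf]
    rw [if_neg]
    · simp
    · intro h
      apply hr
      apply Fin.ext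
      simp only
      rw [h, Int.toNat_natCast]
  · intro h
    exact absurd (Finset.mem_univ _) h

theorem split_z (φ : ℝ → ℂ) (y : ℝ) :
    ∑' j : ℤ, ‖φ ((2:ℝ) ^ j * y)‖ₑ ^ 2 = ∑' j : ℕ, ‖φ (y / 2 ^ j)‖ₑ ^ 2 + w φ y := by
  have h0 : ∑' j : ℤ, ‖φ ((2:ℝ) ^ j * y)‖ₑ ^ 2 = ∑' j : ℤ, ‖φ ((2:ℝ) ^ (-j) * y)‖ₑ ^ 2 :=
    ((Equiv.neg ℤ).tsum_eq (fun j : ℤ => ‖φ ((2:ℝ) ^ j * y)‖ₑ ^ 2)).symm
  rw [h0]
  have h1 : HasSum (fun n : ℕ => ‖φ ((2:ℝ) ^ (-(n:ℤ)) * y)‖ₑ ^ 2) (∑' j : ℕ, ‖φ (y / 2 ^ j)‖ₑ ^ 2) := by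
    have : (fun n : ℕ => ‖φ ((2:ℝ) ^ (-(n:ℤ)) * y)‖ₑ ^ 2) = fun j : ℕ => ‖φ (y / 2 ^ j)‖ₑ ^ 2 := by
      funext n
      rw [zpow_neg, zpow_natCast, mul_comm, ← div_eq_mul_inv]
    rw [this]
    exact ENNReal.summable.hasSum
  have h2 : HasSum (fun n : ℕ => ‖φ ((2:ℝ) ^ (-(-((n:ℤ) + 1))) * y)‖ₑ ^ 2) (w φ y) := by
    have : (fun n : ℕ => ‖φ ((2:ℝ) ^ (-(-((n:ℤ) + 1))) * y)‖ₑ ^ 2) =
        fun i : ℕ => ‖φ ((2:ℝ) ^ (i + 1) * y)‖ₑ ^ 2 := by
      funext n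
      rw [neg_neg]
      congr 3
    rw [this]
    exact ENNReal.summable.hasSum
  exact (HasSum.of_nat_of_neg_add_one (f := fun j : ℤ => ‖φ ((2:ℝ) ^ (-j) * y)‖ₑ ^ 2) h1 h2).tsum_eq

theorem w_shift (φ : ℝ → ℂ) (y : ℝ) : w φ y = ‖φ (2 * y)‖ₑ ^ 2 + w φ (2 * y) := by
  unfold w
  have h := tsum_eq_zero_add' (f := fun i : ℕ => ‖φ ((2:ℝ) ^ (i + 1) * y)‖ₑ ^ 2)
    ENNReal.summable
  rw [h]
  congr 1
  · norm_num
  · congr 1
    funext i
    congr 3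
    ring

/-- fibre linear algebra in l2(Z): the weight is the diagonal of a projection. -/
theorem rank_one (φ : ℝ → ℂ) (x : ℝ)
    (h1 : ∀ (j : ℕ) (r : ℤ), ∑' m : ℤ, ‖φ ((x + r) / 2 ^ j + m)‖ₑ ^ 2 = 1)
    (h1' : ∑' n : ℤ, ‖φ (2 * (x + n))‖ₑ ^ 2 ≤ 1)
    (hc : ∀ (j : ℕ) (r : ℤ) (i : ℕ), 1 ≤ i →
      ∑' m : ℤ, φ ((2:ℝ) ^ i * ((x + r) / 2 ^ j + m)) * (starRingEnd ℂ) (φ ((x + r) / 2 ^ j + m)) = 0)
    (h2 : ∀ n : ℤ, ∑' j : ℤ, ‖φ ((2:ℝ) ^ j * (x + n))‖ₑ ^ 2 = 1) :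
    (∑' n : ℤ, w φ (x + n) = 0 ∨ 1 ≤ ∑' n : ℤ, w φ (x + n)) ∧
    (∑' n : ℤ, w φ (x + n) = 1 → ∀ n n' : ℤ, w φ (x + n) ≠ 0 → w φ (x + n') ≠ 0 →
      (φ (2 * (x + n)) = 0 ↔ φ (2 * (x + n')) = 0) ∧
      (w φ (2 * (x + n)) = 0 ↔ w φ (2 * (x + n')) = 0)) := by
  have hr0 : ∀ i : (Σ j : ℕ, Fin (2 ^ j)), (0:ℤ) ≤ ((i.2 : ℕ) : ℤ) := fun i => Int.natCast_nonneg _
  have hr : ∀ i : (Σ j : ℕ, Fin (2 ^ j)), ((i.2 : ℕ) : ℤ) < 2 ^ i.1 := fun i => by
    have := i.2.2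
    exact_mod_cast this
  have hvnorm : ∀ i : (Σ j : ℕ, Fin (2 ^ j)), ∑' n, ‖vf φ x i.1 ((i.2 : ℕ) : ℤ) n‖ₑ ^ 2 = 1 :=
    fun i => vf_norm φ x h1 i.1 _ (hr0 i) (hr i)
  let v : (Σ j : ℕ, Fin (2 ^ j)) → HZ := fun i =>
    ⟨vf φ x i.1 ((i.2 : ℕ) : ℤ), memlp_of _ (by rw [hvnorm i]; exact ENNReal.one_ne_top)⟩
  have hvn : ∀ i n, v i n = vf φ x i.1 ((i.2 : ℕ) : ℤ) n := fun _ _ => rfl
  have hlt : ∀ i i' : (Σ j : ℕ, Fin (2 ^ j)), i.1 < i'.1 → (inner ℂ (v i') (v i)) = 0 := by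
    intro i i' hlt
    have hdvd : (2:ℤ) ^ i.1 ∣ 2 ^ i'.1 := pow_dvd_pow 2 hlt.le
    rw [lp.inner_eq_tsum]
    by_cases hcl : ((i'.2:ℕ):ℤ) % 2 ^ i.1 = ((i.2:ℕ):ℤ)
    · have := sum_vf φ x hc i'.1 _ (hr0 i') (hr i') (fun n => v i n) (i'.1 - i.1) (by omega) (by
        intro n hn
        simp only [hvn]
        unfold vf
        rw [if_pos]
        · congr 1
          have e1 : (2:ℝ) ^ i'.1 = 2 ^ (i'.1 - i.1) * 2 ^ i.1 := by
            rw [← pow_add, Nat.sub_add_cancel hlt.le]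
          rw [e1]
          field_simp
        · rw [← hcl, ← hn, Int.emod_emod_of_dvd _ hdvd])
      simpa [RCLike.inner_apply, hvn] using this
    · have hz : ∀ n, (inner ℂ (v i' n) (v i n)) = 0 := by
        intro n
        rw [hvn, hvn]
        unfold vf
        by_cases h1 : n % 2^i'.1 = ((i'.2:ℕ):ℤ)
        · have h2 : n % 2^i.1 ≠ ((i.2:ℕ):ℤ) := by
            intro h2
            apply hcl
            rw [← h2, ← h1, Int.emod_emod_of_dvd _ hdvd]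
          rw [if_neg h2, inner_zero_right]
        · rw [if_neg h1, inner_zero_left]
      simp_rw [hz]
      exact tsum_zero
  have hon : Orthonormal ℂ v := by
    constructor
    · intro i
      have e1 := tsum_esq (v i)
      have e2 : ∑' n, ‖v i n‖ₑ ^ 2 = 1 := hvnorm i
      rw [e2] at e1
      have e3 : ‖v i‖ ^ 2 = 1 := by
        have := congrArg ENNReal.toReal e1
        rw [ENNReal.toReal_ofReal (sq_nonneg _)] at this
        simpa using this.symm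
      have e4 : 0 ≤ ‖v i‖ := norm_nonneg _
      nlinarith
    · intro i i' hne
      rcases lt_trichotomy i.1 i'.1 with h | h | h
      · exact inner_eq_zero_symm.mp (hlt i i' h)
      · obtain ⟨j, r⟩ := i
        obtain ⟨j', r'⟩ := i'
        simp only at h
        subst h
        have hrr : r ≠ r' := fun h => hne (by rw [h])
        rw [lp.inner_eq_tsum]
        have hz : ∀ n, (inner ℂ (v ⟨j, r⟩ n) (v ⟨j, r'⟩ n)) = 0 := by
          intro n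
          rw [hvn, hvn]
          unfold vf
          simp only
          by_cases h1 : n % 2^j = ((r:ℕ):ℤ)
          · have h2 : n % 2^j ≠ ((r':ℕ):ℤ) := by
              intro h2
              apply hrr
              apply Fin.ext
              rw [h1] at h2
              exact_mod_cast h2
            rw [if_neg h2, inner_zero_right]
          · rw [if_neg h1, inner_zero_left]
        simp_rw [hz]
        exact tsum_zero
      · exact hlt i' i h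
  let u : HZ := ⟨fun n : ℤ => φ (2 * (x + n)),
    memlp_of _ (ne_top_of_le_ne_top ENNReal.one_ne_top h1')⟩
  have hun : ∀ n, u n = φ (2 * (x + n)) := fun _ => rfl
  have huv : ∀ i, (inner ℂ (v i) (u)) = 0 := by
    intro i
    rw [lp.inner_eq_tsum]
    have := sum_vf φ x hc i.1 _ (hr0 i) (hr i) (fun n => u n) (i.1 + 1) (by omega) (by
      intro n hn
      simp only [hun]
      congr 1
      rw [pow_succ]
      field_simp)
    simpa [RCLike.inner_apply, hvn] using this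
  have hu1 : ‖u‖ ≤ 1 := by
    have e1 := tsum_esq u
    have e2 : ∑' n, ‖u n‖ₑ ^ 2 ≤ 1 := h1'
    rw [e1, ENNReal.ofReal_le_one] at e2
    have e4 : 0 ≤ ‖u‖ := norm_nonneg _
    nlinarith
  have hW : ∀ n : ℤ, ∑' i, ‖v i n‖ₑ ^ 2 + w φ (x + n) = 1 := by
    intro n
    have e1 : ∑' i, ‖v i n‖ₑ ^ 2 = ∑' j : ℕ, ‖φ ((x + n) / 2 ^ j)‖ₑ ^ 2 := fib_sum φ x n
    rw [e1, ← split_z, h2 n]
  have hW2 : ∀ n : ℤ, w φ (x + n) = ‖u n‖ₑ ^ 2 + w φ (2 * (x + n)) := fun n => w_shift φ _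
  exact abs_rank v hon (fun n => w φ (x + n)) (fun n => w φ (2 * (x + n))) hW u hu1 huv hW2

end Pool.Agent.Helper152.LarD
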