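import Pool.Agent.Helper152.LarH
import Pool.Agent.Helper152.LarFib
import Pool.Agent.Helper152.LarCal
import Pool.Agent.Helper152.LarRank
import Pool.Agent.Helper152.LarHit
import Pool.Agent.Helper152.LarMra

set_option autoImplicit false
open MeasureTheory
open scoped ENNReal

namespace Pool.Agent.Helper152.Lar

theorem int_D (φ : ℝ → ℂ) (hm : Measurable φ)
    (A1 : ∀ᵐ x : ℝ, ∑' n : ℤ, ‖φ (x + n)‖ₑ ^ 2 = 1) :
    ∫⁻ x in Set.Ico (0:ℝ) 1, ∑' n : ℤ, w φ (x + n) = 1 := by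
  have h0 : ∫⁻ x, ‖φ x‖ₑ ^ 2 = 1 := by
    rw [LarA.per_lintegral, ← lintegral_tsum (fun n => by fun_prop)]
    have : ∫⁻ x in Set.Ico (0:ℝ) 1, ∑' n : ℤ, ‖φ (x + n)‖ₑ ^ 2 = ∫⁻ x in Set.Ico (0:ℝ) 1, 1 :=
      lintegral_congr_ae (ae_restrict_of_ae A1)
    rw [this]; simp
  have hw : ∀ n : ℤ, AEMeasurable (fun x : ℝ => w φ (x + n)) (volume.restrict (Set.Ico (0:ℝ) 1)) :=
    fun n => ((measurable_w hm).comp (by fun_prop : Measurable fun x : ℝ => x + n)).aemeasurable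
  rw [lintegral_tsum hw, ← LarA.per_lintegral (w φ)]
  have h2 : ∫⁻ x, w φ x = ∑' i : ℕ, ∫⁻ y, ‖φ ((2:ℝ) ^ (i + 1) * y)‖ₑ ^ 2 := by
    unfold w
    rw [lintegral_tsum (fun i => by fun_prop)]
  rw [h2]
  have h1 : ∀ i : ℕ, ∫⁻ y, ‖φ ((2:ℝ) ^ (i + 1) * y)‖ₑ ^ 2 = (2⁻¹ : ℝ≥0∞) ^ (i + 1) := by
    intro i
    have := LarB.lintegral_dil (a := (2:ℝ) ^ (i + 1)) (by positivity) (fun x => ‖φ x‖ₑ ^ 2) (by fun_prop)
    rw [h0] at this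
    have h3 : ENNReal.ofReal ((2:ℝ) ^ (i + 1)) = (2:ℝ≥0∞) ^ (i + 1) := by
      rw [ENNReal.ofReal_pow (by norm_num)]
      norm_num
    rw [h3] at this
    rw [← ENNReal.inv_pow]
    exact ENNReal.eq_inv_of_mul_eq_one_left (by rw [mul_comm]; exact this)
  simp_rw [h1]
  simp_rw [pow_succ']
  rw [ENNReal.tsum_mul_left, ENNReal.tsum_geometric]
  rw [ENNReal.one_sub_inv_two, inv_inv]
  exact ENNReal.inv_mul_cancel (by norm_num) (by norm_num)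

theorem D_periodic (φ : ℝ → ℂ) (x : ℝ) (m : ℤ) :
    ∑' n : ℤ, w φ (x + m + n) = ∑' n : ℤ, w φ (x + n) := by
  rw [← (Equiv.addLeft m).tsum_eq (fun n : ℤ => w φ (x + n))]
  refine tsum_congr fun n => ?_
  simp only [Equiv.coe_addLeft]
  push_cast
  rw [add_assoc]

theorem D_zero (φ : ℝ → ℂ) (x : ℝ) : ∑' n : ℤ, w φ (x + n) = 0 ↔ x ∈ Zs φ := by
  rw [ENNReal.tsum_eq_zero]; rfl

theorem core (φ : ℝ → ℂ) (hm : Measurable φ)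
    (A1 : ∀ᵐ x : ℝ, ∑' n : ℤ, ‖φ (x + n)‖ₑ ^ 2 = 1)
    (C : ∀ i : ℕ, 1 ≤ i → ∀ᵐ x : ℝ, ∑' n : ℤ, φ ((2:ℝ) ^ i * (x + n)) * (starRingEnd ℂ) (φ (x + n)) = 0)
    (A2 : ∀ᵐ x : ℝ, ∑' j : ℤ, ‖φ ((2:ℝ) ^ j * x)‖ₑ ^ 2 = 1) :
    ∃ W : Set ℝ, MeasurableSet W ∧
        (∀ᵐ x : ℝ ∂volume, ∃! k : ℤ, x - (k : ℝ) ∈ W) ∧
        (∀ᵐ x : ℝ ∂volume, ∃! j : ℤ, ((2:ℝ) ^ (-j)) * x ∈ W) ∧
        (∀ᵐ ξ : ℝ ∂volume, ξ ∈ W → φ ξ ≠ 0) := by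
  by_cases hZ : volume (Zs φ) = 0
  swap
  · exact non_mra φ hm A1 A2 (LarE.hit (Zs φ) (measurableSet_Zs φ hm)
      (fun x hx n => (Zs_add φ n).2 hx) hZ)
  have C' : ∀ᵐ x : ℝ, ∀ i : ℕ, 1 ≤ i →
      ∑' n : ℤ, φ ((2:ℝ) ^ i * (x + n)) * (starRingEnd ℂ) (φ (x + n)) = 0 := by
    rw [ae_all_iff]
    intro i
    by_cases hi : 1 ≤ i
    · filter_upwards [C i hi] with x hx _ using hx
    · exact Filter.Eventually.of_forall fun x h => absurd h hi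
  have hO := ae_Orb (A1.and (C'.and A2))
  have key : ∀ᵐ x : ℝ, (∑' n : ℤ, w φ (x + n) = 0 ∨ 1 ≤ ∑' n : ℤ, w φ (x + n)) ∧
      (∑' n : ℤ, w φ (x + n) = 1 → ∀ n n' : ℤ, w φ (x + n) ≠ 0 → w φ (x + n') ≠ 0 →
      (φ (2 * (x + n)) = 0 ↔ φ (2 * (x + n')) = 0) ∧
      (w φ (2 * (x + n)) = 0 ↔ w φ (2 * (x + n')) = 0)) := by
    filter_upwards [hO] with x hx
    have e : ∀ (j : ℕ) (r : ℤ), (2:ℝ) ^ (-(j:ℤ)) * x + r * (2:ℝ) ^ (-(j:ℤ)) = (x + r) / 2 ^ j := by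
      intro j r
      rw [zpow_neg, zpow_natCast]
      ring
    refine LarD.rank_one φ x ?_ ?_ ?_ ?_
    · intro j r
      have := (hx (-(j:ℤ)) r (-(j:ℤ))).1
      rw [e] at this
      exact this
    · have h1 := (hx 1 0 0).1
      have e1 : (2:ℝ) ^ (1:ℤ) * x + ((0:ℤ):ℝ) * (2:ℝ) ^ (0:ℤ) = 2 * x := by simp
      rw [e1] at h1
      rw [← h1]
      have hinj : Function.Injective (fun n : ℤ => 2 * n) := fun a b h => by
        simp only at h; omega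
      have h2 := ENNReal.tsum_comp_le_tsum_of_injective hinj (fun m : ℤ => ‖φ (2 * x + m)‖ₑ ^ 2)
      refine le_trans (le_of_eq ?_) h2
      refine tsum_congr fun n => ?_
      have : 2 * (x + (n:ℝ)) = 2 * x + ((2 * n : ℤ) : ℝ) := by push_cast; ring
      rw [this]
    · intro j r i hi
      have := (hx (-(j:ℤ)) r (-(j:ℤ))).2.1 i hi
      rw [e] at this
      exact this
    · intro n
      have := (hx 0 n 0).2.2
      have e2 : (2:ℝ) ^ (0:ℤ) * x + (n:ℝ) * (2:ℝ) ^ (0:ℤ) = x + n := by simp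
      rw [e2] at this
      exact this
  have hge : ∀ᵐ x : ℝ, 1 ≤ ∑' n : ℤ, w φ (x + n) := by
    have hZ' : ∀ᵐ x : ℝ, x ∉ Zs φ := by
      rw [ae_iff]; simpa using hZ
    filter_upwards [key, hZ'] with x hx hz
    rcases hx.1 with h | h
    · exact absurd ((D_zero φ x).1 h) hz
    · exact h
  have hmD : Measurable fun x : ℝ => ∑' n : ℤ, w φ (x + n) :=
    Measurable.tsum fun n => (measurable_w hm).comp (by fun_prop : Measurable fun x : ℝ => x + n)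
  have h1 : (fun _ : ℝ => (1:ℝ≥0∞)) =ᵐ[volume.restrict (Set.Ico (0:ℝ) 1)]
      fun x => ∑' n : ℤ, w φ (x + n) := by
    refine ae_eq_of_ae_le_of_lintegral_le (ae_restrict_of_ae hge) ?_ hmD.aemeasurable ?_
    · simp
    · rw [int_D φ hm A1]; simp
  have D1 : ∀ᵐ x : ℝ, ∑' n : ℤ, w φ (x + n) = 1 := by
    refine LarA.ae_periodic _ (fun x m h => ?_) ?_
    · rw [D_periodic] at h; exact h
    · have := (ae_restrict_iff' measurableSet_Ico).1 h1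
      filter_upwards [this] with x hx hx'
      exact (hx hx').symm
  refine LarF.mra_case φ hm A1 A2 D1 ?_
  filter_upwards [key, D1] with x hx hd n h0 hn
  have := hx.2 hd 0 n
  simp only [Int.cast_zero, add_zero] at this
  exact this h0 hn

theorem main (φ : ℝ → ℂ) (F : ℤ → ℤ → ℝ → ℂ) (hφ : MemLp φ 2 volume)
    (hF : ∀ (j k : ℤ) (ξ : ℝ), F j k ξ =
        ((Real.sqrt ((2:ℝ) ^ (-j)) : ℝ) : ℂ) *
          Complex.exp (-(2 * (Real.pi : ℂ) * Complex.I * (k : ℂ) * ((((2:ℝ) ^ (-j)) * ξ : ℝ) : ℂ))) *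
          φ (((2:ℝ) ^ (-j)) * ξ))
    (ho : ∀ j k j' k' : ℤ, ∫ ξ, F j k ξ * (starRingEnd ℂ) (F j' k' ξ) =
        if j = j' ∧ k = k' then (1:ℂ) else 0)
    (hc : ∀ g : ℝ → ℂ, MemLp g 2 volume →
        (∀ j k : ℤ, ∫ ξ, g ξ * (starRingEnd ℂ) (F j k ξ) = 0) → g =ᵐ[volume] 0) :
    ∃ W : Set ℝ, MeasurableSet W ∧
        (∀ᵐ x : ℝ ∂volume, ∃! k : ℤ, x - (k : ℝ) ∈ W) ∧
        (∀ᵐ x : ℝ ∂volume, ∃! j : ℤ, ((2:ℝ) ^ (-j)) * x ∈ W) ∧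
        (∀ᵐ ξ : ℝ ∂volume, ξ ∈ W → φ ξ ≠ 0) := by
  obtain ⟨φ', hm', hφφ'⟩ : ∃ φ' : ℝ → ℂ, Measurable φ' ∧ φ =ᵐ[volume] φ' :=
    ⟨hφ.1.mk φ, hφ.1.stronglyMeasurable_mk.measurable, hφ.1.ae_eq_mk⟩
  have hφ' : MemLp φ' 2 volume := hφ.ae_eq hφφ'
  obtain ⟨F', hF'⟩ : ∃ F' : ℤ → ℤ → ℝ → ℂ, ∀ (j k : ℤ) (ξ : ℝ), F' j k ξ =
        ((Real.sqrt ((2:ℝ) ^ (-j)) : ℝ) : ℂ) *
          Complex.exp (-(2 * (Real.pi : ℂ) * Complex.I * (k : ℂ) * ((((2:ℝ) ^ (-j)) * ξ : ℝ) : ℂ))) *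
          φ' (((2:ℝ) ^ (-j)) * ξ) := ⟨_, fun _ _ _ => rfl⟩
  have hFF : ∀ j k : ℤ, F j k =ᵐ[volume] F' j k := by
    intro j k
    have h1 := ae_affine (P := fun x => φ x = φ' x) hφφ' ((2:ℝ) ^ (-j)) 0 (by positivity)
    filter_upwards [h1] with x hx
    rw [add_zero] at hx
    rw [hF, hF', hx]
  have ho' : ∀ j k j' k' : ℤ, ∫ ξ, F' j k ξ * (starRingEnd ℂ) (F' j' k' ξ) =
        if j = j' ∧ k = k' then (1:ℂ) else 0 := by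
    intro j k j' k'
    rw [← ho j k j' k']
    apply integral_congr_ae
    filter_upwards [hFF j k, hFF j' k'] with x h1 h2
    rw [h1, h2]
  have hc' : ∀ g : ℝ → ℂ, MemLp g 2 volume →
        (∀ j k : ℤ, ∫ ξ, g ξ * (starRingEnd ℂ) (F' j k ξ) = 0) → g =ᵐ[volume] 0 := by
    intro g hg h
    refine hc g hg fun j k => ?_
    rw [← h j k]
    apply integral_congr_ae
    filter_upwards [hFF j k] with x h1
    rw [h1]
  have hfib := LarA.fibre φ' F' hm' hφ' hF' ho'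
  have hcal := LarB.calderon φ' F' hm' hφ' hF' ho' hc'
  obtain ⟨W, hW, h1, h2, h3⟩ := core φ' hm' hfib.1 hfib.2 hcal
  refine ⟨W, hW, h1, h2, ?_⟩
  filter_upwards [h3, hφφ'] with x hx hxx hxW
  rw [hxx]; exact hx hxW

end Pool.Agent.Helper152.Lar
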