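import Pool.Agent.Helper152.LarBase
import Pool.Agent.Helper152.LarBirk

set_option autoImplicit false
open MeasureTheory
open scoped ENNReal

namespace Pool.Agent.Helper152.Lar

variable (φ : ℝ → ℂ)

/-- the zero set of the dimension function -/
def Zs : Set ℝ := {x | ∀ n : ℤ, w φ (x + n) = 0}

theorem Zs_add {x : ℝ} (n : ℤ) : x + n ∈ Zs φ ↔ x ∈ Zs φ := by
  constructor
  · intro h m
    have := h (m - n)
    push_cast at this
    convert this using 2; ring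
  · intro h m
    have := h (n + m)
    push_cast at this
    convert this using 2; ring

theorem Zs_zero {x : ℝ} (hx : x ∈ Zs φ) (i : ℕ) (hi : 1 ≤ i) : φ ((2:ℝ) ^ i * x) = 0 := by
  have := hx 0
  rw [Int.cast_zero, add_zero, w_eq_zero] at this
  obtain ⟨j, rfl⟩ := Nat.exists_eq_add_of_le hi
  rw [add_comm 1 j]
  exact this j

/-- pointwise good properties -/
def Q (x : ℝ) : Prop :=
  (∑' n : ℤ, ‖φ (x + n)‖ₑ ^ 2 = 1) ∧ (∑' j : ℤ, ‖φ ((2:ℝ) ^ j * x)‖ₑ ^ 2 = 1) ∧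
    (∃ i : ℕ, (2:ℝ) ^ i * x ∈ Zs φ)

/-- base points of blocks -/
def Base : Set ℝ := {ξ | 0 ≤ ξ ∧ ξ < 1 ∧ ξ ∈ Zs φ ∧ Orb (Q φ) ξ}

/-- active rows -/
def Act (x : ℝ) : Prop := ∀ j : ℕ, 1 ≤ j → x / 2 ^ j ∉ Zs φ

open Classical in
/-- block weights -/
noncomputable def pw (ξ : ℝ) (k : ℤ) (q : ℕ × ℤ) : ℝ≥0∞ :=
  if ξ ∈ Base φ ∧ Act φ (ξ + k) ∧ q.2 = k % 2 ^ q.1 then ‖φ ((ξ + k) / 2 ^ q.1)‖ₑ ^ 2 else 0

theorem measurableSet_Zs (hm : Measurable φ) : MeasurableSet (Zs φ) := by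
  have : Zs φ = ⋂ n : ℤ, (fun x : ℝ => w φ (x + n)) ⁻¹' {0} := by
    ext x; simp [Zs]
  rw [this]
  refine MeasurableSet.iInter fun n => ?_
  exact ((measurable_w hm).comp (by fun_prop)) (measurableSet_singleton _)

theorem measurableSet_Q (hm : Measurable φ) : MeasurableSet {x | Q φ x} := by
  have h1 : MeasurableSet {x : ℝ | ∑' n : ℤ, ‖φ (x + n)‖ₑ ^ 2 = 1} := by
    have : Measurable fun x : ℝ => ∑' n : ℤ, ‖φ (x + n)‖ₑ ^ 2 :=
      Measurable.tsum fun i => by fun_prop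
    exact this (measurableSet_singleton _)
  have h2 : MeasurableSet {x : ℝ | ∑' j : ℤ, ‖φ ((2:ℝ) ^ j * x)‖ₑ ^ 2 = 1} := by
    have : Measurable fun x : ℝ => ∑' j : ℤ, ‖φ ((2:ℝ) ^ j * x)‖ₑ ^ 2 :=
      Measurable.tsum fun i => by fun_prop
    exact this (measurableSet_singleton _)
  have h3 : MeasurableSet {x : ℝ | ∃ i : ℕ, (2:ℝ) ^ i * x ∈ Zs φ} := by
    have : {x : ℝ | ∃ i : ℕ, (2:ℝ) ^ i * x ∈ Zs φ} = ⋃ i : ℕ, (fun x : ℝ => (2:ℝ) ^ i * x) ⁻¹' Zs φ := by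
      ext x; simp
    rw [this]
    refine MeasurableSet.iUnion fun i => ?_
    exact (by fun_prop : Measurable fun x : ℝ => (2:ℝ) ^ i * x) (measurableSet_Zs φ hm)
  exact (h1.inter (h2.inter h3))

theorem measurableSet_Base (hm : Measurable φ) : MeasurableSet (Base φ) := by
  have : Base φ = Set.Ico 0 1 ∩ (Zs φ ∩ {x | Orb (Q φ) x}) := by
    ext x; simp only [Base, Set.mem_ofPred_eq, Set.mem_inter_iff, Set.mem_Ico]; tauto
  rw [this]
  exact measurableSet_Ico.inter ((measurableSet_Zs φ hm).inter (measurableSet_Orb (measurableSet_Q φ hm)))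

theorem measurableSet_Act (hm : Measurable φ) : MeasurableSet {x | Act φ x} := by
  have : {x | Act φ x} = ⋂ j : ℕ, ⋂ _ : 1 ≤ j, (fun x : ℝ => x / 2 ^ j) ⁻¹' (Zs φ)ᶜ := by
    ext x; simp [Act]
  rw [this]
  refine MeasurableSet.iInter fun j => MeasurableSet.iInter fun _ => ?_
  exact (by fun_prop : Measurable fun x : ℝ => x / 2 ^ j) (measurableSet_Zs φ hm).compl

theorem measurable_pw (hm : Measurable φ) (k : ℤ) (q : ℕ × ℤ) : Measurable fun ξ => pw φ ξ k q := by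
  classical
  unfold pw
  refine Measurable.ite ?_ (by fun_prop) measurable_const
  have h1 := measurableSet_Base φ hm
  have h2 : MeasurableSet ((fun ξ : ℝ => ξ + k) ⁻¹' {x | Act φ x}) :=
    (by fun_prop : Measurable fun ξ : ℝ => ξ + k) (measurableSet_Act φ hm)
  by_cases hq : q.2 = k % 2 ^ q.1
  · convert h1.inter h2 using 1
    ext x; simp [hq]
  · convert MeasurableSet.empty using 1
    ext x; simp [hq]

theorem tsum_neg_nat {x : ℝ} (hx : x ∈ Zs φ) :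
    ∑' j : ℕ, ‖φ (x / 2 ^ j)‖ₑ ^ 2 = ∑' j : ℤ, ‖φ ((2:ℝ) ^ j * x)‖ₑ ^ 2 := by
  have hinj : Function.Injective (fun j : ℕ => -(j:ℤ)) := by
    intro a b h; simpa using h
  rw [← hinj.tsum_eq (f := fun j : ℤ => ‖φ ((2:ℝ) ^ j * x)‖ₑ ^ 2)]
  · refine tsum_congr fun j => ?_
    rw [zpow_neg, zpow_natCast, div_eq_inv_mul]
  · intro j hj
    rw [Function.mem_support] at hj
    by_contra hc
    apply hj
    have hj0 : 0 < j := by
      by_contra h0
      exact hc ⟨(-j).toNat, by simp only; omega⟩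
    have := Zs_zero φ hx j.toNat (by omega)
    have h2 : (2:ℝ) ^ j.toNat = (2:ℝ) ^ j := by
      rw [← zpow_natCast, Int.toNat_of_nonneg hj0.le]
    rw [h2] at this
    simp [this]

theorem row_sum {ξ : ℝ} {k : ℤ} (hb : ξ ∈ Base φ) (ha : Act φ (ξ + k)) :
    ∑' q, pw φ ξ k q = 1 := by
  rw [ENNReal.tsum_prod' (f := fun q => pw φ ξ k q)]
  have h1 : ∀ j : ℕ, ∑' r : ℤ, pw φ ξ k (j, r) = ‖φ ((ξ + k) / 2 ^ j)‖ₑ ^ 2 := by
    intro j
    have : ∀ r : ℤ, pw φ ξ k (j, r) = if r = k % 2 ^ j then ‖φ ((ξ + k) / 2 ^ j)‖ₑ ^ 2 else 0 := by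
      intro r
      unfold pw
      simp [hb, ha]
    simp_rw [this]
    rw [tsum_ite_eq]
  simp_rw [h1]
  have hz : ξ + k ∈ Zs φ := (Zs_add φ k).mpr hb.2.2.1
  rw [tsum_neg_nat φ hz]
  exact (hb.2.2.2.add k).self.2.1

theorem row_cases (ξ : ℝ) (k : ℤ) : ∑' q, pw φ ξ k q = 0 ∨ ∑' q, pw φ ξ k q = 1 := by
  by_cases hb : ξ ∈ Base φ
  · by_cases ha : Act φ (ξ + k)
    · exact Or.inr (row_sum φ hb ha)
    · left
      rw [ENNReal.tsum_eq_zero]
      intro q; unfold pw; simp [ha]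
  · left
    rw [ENNReal.tsum_eq_zero]
    intro q; unfold pw; simp [hb]

theorem col_sum {ξ : ℝ} (hb : ξ ∈ Base φ) (j : ℕ) (r : ℤ) (h0 : 0 ≤ r) (h1 : r < 2 ^ j)
    (hact : ∀ i : ℕ, 1 ≤ i → i ≤ j → (ξ + r) / 2 ^ i ∉ Zs φ) : ∑' k, pw φ ξ k (j, r) = 1 := by
  have hinj : Function.Injective (fun m : ℤ => r + 2 ^ j * m) := by
    intro a b h
    have h2 : (2:ℤ) ^ j ≠ 0 := by positivity
    have : (2:ℤ) ^ j * a = 2 ^ j * b := by simpa using h
    exact mul_left_cancel₀ h2 this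
  rw [← hinj.tsum_eq (f := fun k : ℤ => pw φ ξ k (j, r))]
  · have hval : ∀ m : ℤ, pw φ ξ (r + 2 ^ j * m) (j, r) = ‖φ ((ξ + r) / 2 ^ j + m)‖ₑ ^ 2 := by
      intro m
      have hx : (ξ + ((r + 2 ^ j * m : ℤ) : ℝ)) / 2 ^ j = (ξ + r) / 2 ^ j + m := by
        push_cast; field_simp; ring
      have hmod : r = (r + 2 ^ j * m) % 2 ^ j := by
        rw [Int.add_mul_emod_self_left, Int.emod_eq_of_lt h0 h1]
      by_cases ha : Act φ (ξ + ((r + 2 ^ j * m : ℤ) : ℝ))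
      · unfold pw
        rw [if_pos ⟨hb, ha, hmod⟩, hx]
      · unfold pw
        rw [if_neg (fun h => ha h.2.1)]
        unfold Act at ha
        push Not at ha
        obtain ⟨i, hi1, hi2⟩ := ha
        have hij : j < i := by
          by_contra hle
          push Not at hle
          apply hact i hi1 hle
          have : (ξ + r) / 2 ^ i = (ξ + ((r + 2 ^ j * m : ℤ) : ℝ)) / 2 ^ i + ((-(2 ^ (j - i) * m) : ℤ) : ℝ) := by
            have h2 : (2:ℝ) ^ j = 2 ^ (j - i) * 2 ^ i := by rw [← pow_add]; congr 1; omega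
            push_cast
            rw [h2]
            field_simp
            ring
          rw [this, Zs_add]
          exact hi2
        have h3 := Zs_zero φ hi2 (i - j) (by omega)
        have h4 : (2:ℝ) ^ (i - j) * ((ξ + ((r + 2 ^ j * m : ℤ) : ℝ)) / 2 ^ i) = (ξ + r) / 2 ^ j + m := by
          rw [← hx]
          have h2 : (2:ℝ) ^ i = 2 ^ (i - j) * 2 ^ j := by rw [← pow_add]; congr 1; omega
          rw [h2]
          field_simp
        rw [h4] at h3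
        simp [h3]
    simp only [hval]
    have := (hb.2.2.2.move (-j) r (-j)).self.1
    convert this using 5
    rw [zpow_neg, zpow_natCast]
    ring_nf
  · intro k hk
    rw [Function.mem_support] at hk
    by_contra hc
    apply hk
    unfold pw
    rw [if_neg]
    rintro ⟨-, -, h⟩
    apply hc
    refine ⟨k / 2 ^ j, ?_⟩
    simp only at h ⊢
    rw [h]
    exact Int.emod_add_mul_ediv k (2 ^ j)

theorem col_zero {ξ : ℝ} (j : ℕ) (r : ℤ)
    (h : ¬ (ξ ∈ Base φ ∧ 0 ≤ r ∧ r < 2 ^ j ∧ ∀ i : ℕ, 1 ≤ i → i ≤ j → (ξ + r) / 2 ^ i ∉ Zs φ)) :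
    ∑' k, pw φ ξ k (j, r) = 0 := by
  rw [ENNReal.tsum_eq_zero]
  intro k
  unfold pw
  rw [if_neg]
  rintro ⟨hb, ha, hr⟩
  simp only at hr
  apply h
  refine ⟨hb, ?_, ?_, ?_⟩
  · rw [hr]; exact Int.emod_nonneg _ (by positivity)
  · rw [hr]; exact Int.emod_lt_of_pos _ (by positivity)
  · intro i hi1 hi2 hz
    apply ha i hi1
    have h2 : (2:ℝ) ^ j = 2 ^ (j - i) * 2 ^ i := by rw [← pow_add]; congr 1; omega
    have hk : (k:ℝ) = r + 2 ^ j * ((k / 2 ^ j : ℤ) : ℝ) := by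
      have := Int.emod_add_mul_ediv k (2 ^ j)
      rw [← hr] at this
      have h3 := congrArg (fun z : ℤ => (z:ℝ)) this
      push_cast at h3
      exact h3.symm
    have : (ξ + k) / 2 ^ i = (ξ + r) / 2 ^ i + ((2 ^ (j - i) * (k / 2 ^ j) : ℤ) : ℝ) := by
      rw [hk, h2]
      push_cast
      field_simp
      ring
    rw [this, Zs_add]
    exact hz

theorem col_cases (ξ : ℝ) (q : ℕ × ℤ) : ∑' k, pw φ ξ k q = 0 ∨ ∑' k, pw φ ξ k q = 1 := by
  obtain ⟨j, r⟩ := q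
  by_cases h : ξ ∈ Base φ ∧ 0 ≤ r ∧ r < 2 ^ j ∧ ∀ i : ℕ, 1 ≤ i → i ≤ j → (ξ + r) / 2 ^ i ∉ Zs φ
  · exact Or.inr (col_sum φ h.1 j r h.2.1 h.2.2.1 h.2.2.2)
  · exact Or.inl (col_zero φ j r h)

end Pool.Agent.Helper152.Lar
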