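import Pool.Agent.Helper152.LarG

set_option autoImplicit false
open MeasureTheory
open scoped ENNReal

namespace Pool.Agent.Helper152.Lar

variable (φ : ℝ → ℂ)

/-- the block description of the wavelet set -/
def WS (M : ℤ → ℕ × ℤ → Set ℝ) : Set ℝ :=
  {v | ∃ j : ℕ, Int.fract ((2:ℝ) ^ j * v) ∈ M ⌊(2:ℝ) ^ j * v⌋ (j, ⌊(2:ℝ) ^ j * v⌋ % 2 ^ j)}

theorem measurableSet_WS {M : ℤ → ℕ × ℤ → Set ℝ} (hM : ∀ i j, MeasurableSet (M i j)) :
    MeasurableSet (WS M) := by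
  have : WS M = ⋃ j : ℕ, ⋃ k : ℤ, ((fun v : ℝ => ⌊(2:ℝ) ^ j * v⌋) ⁻¹' {k}) ∩
      ((fun v : ℝ => Int.fract ((2:ℝ) ^ j * v)) ⁻¹' (M k (j, k % 2 ^ j))) := by
    ext v
    simp only [WS, Set.mem_ofPred_eq, Set.mem_iUnion, Set.mem_inter_iff, Set.mem_preimage,
      Set.mem_singleton_iff]
    constructor
    · rintro ⟨j, h⟩
      exact ⟨j, _, rfl, h⟩
    · rintro ⟨j, k, rfl, h⟩
      exact ⟨j, h⟩
  rw [this]
  refine MeasurableSet.iUnion fun j => MeasurableSet.iUnion fun k => ?_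
  have h1 : Measurable fun v : ℝ => (2:ℝ) ^ j * v := by fun_prop
  exact ((Int.measurable_floor.comp h1) (measurableSet_singleton k)).inter
    ((measurable_fract.comp h1) (hM _ _))

theorem pw_ne {ξ : ℝ} {k : ℤ} {q : ℕ × ℤ} (h : pw φ ξ k q ≠ 0) :
    ξ ∈ Base φ ∧ Act φ (ξ + k) ∧ q.2 = k % 2 ^ q.1 ∧ φ ((ξ + k) / 2 ^ q.1) ≠ 0 := by
  classical
  unfold pw at h
  by_cases hc : ξ ∈ Base φ ∧ Act φ (ξ + k) ∧ q.2 = k % 2 ^ q.1
  · rw [if_pos hc] at h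
    refine ⟨hc.1, hc.2.1, hc.2.2, ?_⟩
    intro h0
    apply h
    simp [h0]
  · exact absurd (if_neg hc) h

/-- what membership in `WS M` gives -/
theorem mem_WS {M : ℤ → ℕ × ℤ → Set ℝ} (hs : ∀ ω i j, ω ∈ M i j → pw φ ω i j ≠ 0) {v : ℝ} {j : ℕ}
    (h : Int.fract ((2:ℝ) ^ j * v) ∈ M ⌊(2:ℝ) ^ j * v⌋ (j, ⌊(2:ℝ) ^ j * v⌋ % 2 ^ j)) :
    (2:ℝ) ^ j * v ∈ Zs φ ∧ (∀ i : ℕ, 1 ≤ i → (2:ℝ) ^ j * v / 2 ^ i ∉ Zs φ) ∧ φ v ≠ 0 := by
  obtain ⟨h1, h2, -, h4⟩ := pw_ne φ (hs _ _ _ h)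
  have hx : Int.fract ((2:ℝ) ^ j * v) + ⌊(2:ℝ) ^ j * v⌋ = (2:ℝ) ^ j * v := Int.fract_add_floor _
  refine ⟨?_, ?_, ?_⟩
  · have := (Zs_add φ ⌊(2:ℝ) ^ j * v⌋).mpr h1.2.2.1
    rwa [hx] at this
  · intro i hi
    have := h2 i hi
    rwa [hx] at this
  · rw [hx] at h4
    simp only at h4
    have : (2:ℝ) ^ j * v / 2 ^ j = v := by field_simp
    rwa [this] at h4

theorem base_of {y : ℝ} (hy : Orb (Q φ) y) (hz : y ∈ Zs φ) : Int.fract y ∈ Base φ := by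
  refine ⟨Int.fract_nonneg _, Int.fract_lt_one _, ?_, ?_⟩
  · have : Int.fract y = y + ((-⌊y⌋ : ℤ) : ℝ) := by
      rw [Int.cast_neg]; rw [Int.fract]; ring
    rw [this, Zs_add]; exact hz
  · have : Int.fract y = y + ((-⌊y⌋ : ℤ) : ℝ) := by
      rw [Int.cast_neg]; rw [Int.fract]; ring
    rw [this]; exact hy.add _

/-- translation tiling -/
theorem tile_trans {M : ℤ → ℕ × ℤ → Set ℝ} (hs : ∀ ω i j, ω ∈ M i j → pw φ ω i j ≠ 0)
    (hc : ∀ ω j, (∃ i, pw φ ω i j ≠ 0) → ∃! i, ω ∈ M i j)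
    {y : ℝ} (hy : Orb (Q φ) y) : ∃! n : ℤ, y - (n:ℝ) ∈ WS M := by
  classical
  have hex : ∃ i : ℕ, (2:ℝ) ^ i * y ∈ Zs φ := hy.self.2.2
  set i := Nat.find hex with hi
  have hi1 : (2:ℝ) ^ i * y ∈ Zs φ := Nat.find_spec hex
  have hi2 : ∀ m, m < i → (2:ℝ) ^ m * y ∉ Zs φ := fun m hm => Nat.find_min hex hm
  have hyi : Orb (Q φ) ((2:ℝ) ^ i * y) := by
    have := hy.mul (i:ℤ); rwa [zpow_natCast] at this
  set ξ := Int.fract ((2:ℝ) ^ i * y) with hξ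
  set k₀ := ⌊(2:ℝ) ^ i * y⌋ with hk0
  have hx : ξ + k₀ = (2:ℝ) ^ i * y := Int.fract_add_floor _
  have hb : ξ ∈ Base φ := base_of φ hyi hi1
  set r := k₀ % 2 ^ i with hr
  have hcol : ∑' k, pw φ ξ k (i, r) = 1 := by
    refine col_sum φ hb i r (Int.emod_nonneg _ (by positivity)) (Int.emod_lt_of_pos _ (by positivity)) ?_
    intro l hl1 hl2 hz
    apply hi2 (i - l) (by omega)
    have h2 : (2:ℝ) ^ i = 2 ^ (i - l) * 2 ^ l := by rw [← pow_add]; congr 1; omega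
    have hk : (k₀:ℝ) = r + 2 ^ i * ((k₀ / 2 ^ i : ℤ) : ℝ) := by
      have h3 := congrArg (fun z : ℤ => (z:ℝ)) (Int.emod_add_mul_ediv k₀ (2 ^ i))
      push_cast at h3
      exact h3.symm
    have : (2:ℝ) ^ (i - l) * y = (ξ + r) / 2 ^ l + ((2 ^ (i - l) * (k₀ / 2 ^ i) : ℤ) : ℝ) := by
      have h5 : ξ + (r + 2 ^ i * ((k₀ / 2 ^ i : ℤ) : ℝ)) = (2:ℝ) ^ i * y := by rw [← hk]; exact hx
      have h6 : (2:ℝ) ^ (i - l) * y = ((2:ℝ) ^ i * y) / 2 ^ l := by rw [h2]; field_simp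
      rw [h6, ← h5]
      push_cast
      rw [h2]
      field_simp
      ring
    rw [this, Zs_add]
    exact hz
  have hne : ∃ k, pw φ ξ k (i, r) ≠ 0 := by
    by_contra h
    push Not at h
    rw [ENNReal.tsum_eq_zero.mpr h] at hcol
    exact zero_ne_one hcol
  obtain ⟨k, hk, huniq⟩ := hc ξ (i, r) hne
  simp only at hk huniq
  have hkmod : r = k % 2 ^ i := (pw_ne φ (hs _ _ _ hk)).2.2.1
  have hdiv : (2:ℤ) ^ i ∣ k₀ - k := by
    apply Int.dvd_of_emod_eq_zero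
    rw [Int.sub_emod, ← hkmod, ← hr]
    simp [hr]
  obtain ⟨n, hn⟩ := hdiv
  have hnk : (k:ℝ) = k₀ - 2 ^ i * n := by
    have h3 := congrArg (fun z : ℤ => (z:ℝ)) hn
    push_cast at h3
    linarith
  have key : ∀ n' : ℤ, (2:ℝ) ^ i * (y - n') = ξ + ((k₀ - 2 ^ i * n' : ℤ) : ℝ) := by
    intro n'
    push_cast
    rw [mul_sub, ← hx]
    ring
  have hfl : ∀ n' : ℤ, ⌊(2:ℝ) ^ i * (y - n')⌋ = k₀ - 2 ^ i * n' := by
    intro n'
    rw [key, Int.floor_add_intCast, Int.floor_eq_zero_iff.mpr ⟨hb.1, hb.2.1⟩, zero_add]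
  have hfr : ∀ n' : ℤ, Int.fract ((2:ℝ) ^ i * (y - n')) = ξ := by
    intro n'
    rw [key, Int.fract_add_intCast, Int.fract_eq_self.mpr ⟨hb.1, hb.2.1⟩]
  refine ⟨n, ⟨i, ?_⟩, ?_⟩
  · rw [hfr, hfl]
    have : k₀ - 2 ^ i * n = k := by omega
    rw [this, ← hkmod]
    exact hk
  · rintro n' ⟨j, hj⟩
    obtain ⟨h1, h2, -⟩ := mem_WS φ hs hj
    have hji : j = i := by
      have e1 : (2:ℝ) ^ j * y ∈ Zs φ := by
        have : (2:ℝ) ^ j * y = (2:ℝ) ^ j * (y - n') + ((2 ^ j * n' : ℤ) : ℝ) := by push_cast; ring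
        rw [this, Zs_add]; exact h1
      have e2 : ∀ m, m < j → (2:ℝ) ^ m * y ∉ Zs φ := by
        intro m hm hz
        apply h2 (j - m) (by omega)
        have h3 : (2:ℝ) ^ j = 2 ^ m * 2 ^ (j - m) := by rw [← pow_add]; congr 1; omega
        have : (2:ℝ) ^ j * (y - n') / 2 ^ (j - m) = (2:ℝ) ^ m * y + ((-(2 ^ m * n') : ℤ) : ℝ) := by
          rw [h3]; push_cast; field_simp
          ring
        rw [this, Zs_add]; exact hz
      apply le_antisymm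
      · by_contra hlt
        push Not at hlt
        exact e2 i hlt hi1
      · exact Nat.find_min' hex e1
    rw [hji, hfr, hfl] at hj
    have hmod : (k₀ - 2 ^ i * n') % 2 ^ i = r := by
      rw [Int.sub_mul_emod_self_left]
    rw [hmod] at hj
    have := huniq _ hj
    have h3 : (2:ℤ) ^ i * n' = 2 ^ i * n := by omega
    exact mul_left_cancel₀ (by positivity) h3

/-- dilation tiling -/
theorem tile_dil {M : ℤ → ℕ × ℤ → Set ℝ} (hs : ∀ ω i j, ω ∈ M i j → pw φ ω i j ≠ 0)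
    (hr : ∀ ω i, (∃ j, pw φ ω i j ≠ 0) → ∃! j, ω ∈ M i j)
    {y : ℝ} (hy : Orb (Q φ) y) : ∃! j : ℤ, (2:ℝ) ^ (-j) * y ∈ WS M := by
  classical
  -- the smallest level
  have hm : ∃ m : ℤ, φ ((2:ℝ) ^ m * y) ≠ 0 := by
    by_contra h
    push Not at h
    have := hy.self.2.1
    simp [h] at this
  obtain ⟨m, hm⟩ := hm
  have hbd : ∀ l : ℤ, (2:ℝ) ^ l * y ∈ Zs φ → m ≤ l := by
    intro l hl
    by_contra hlt
    push Not at hlt
    apply hm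
    have := Zs_zero φ hl (m - l).toNat (by omega)
    rwa [← zpow_natCast, Int.toNat_of_nonneg (by omega), ← mul_assoc, ← zpow_add₀ (by norm_num),
      sub_add_cancel] at this
  obtain ⟨i₀, hi₀⟩ := hy.self.2.2
  obtain ⟨l, hl1, hl2⟩ := Int.exists_least_of_bdd (P := fun l : ℤ => (2:ℝ) ^ l * y ∈ Zs φ)
    ⟨m, hbd⟩ ⟨i₀, by simpa using hi₀⟩
  have hyl : Orb (Q φ) ((2:ℝ) ^ l * y) := hy.mul l
  set x := (2:ℝ) ^ l * y with hxdef
  have hb : Int.fract x ∈ Base φ := base_of φ hyl hl1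
  have hx : Int.fract x + ⌊x⌋ = x := Int.fract_add_floor _
  have hdivx : ∀ i : ℕ, x / 2 ^ i = (2:ℝ) ^ (l - i) * y := by
    intro i
    rw [hxdef, zpow_sub₀ (by norm_num), zpow_natCast]; ring
  have hact : Act φ (Int.fract x + ⌊x⌋) := by
    intro i hi hz
    rw [hx, hdivx] at hz
    have := hl2 _ hz
    omega
  have hrow := row_sum φ hb hact
  have hne : ∃ q, pw φ (Int.fract x) ⌊x⌋ q ≠ 0 := by
    by_contra h
    push Not at h
    rw [ENNReal.tsum_eq_zero.mpr h] at hrow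
    exact zero_ne_one hrow
  obtain ⟨⟨j, r⟩, hj, huniq⟩ := hr _ _ hne
  simp only at hj huniq
  have hrk : r = ⌊x⌋ % 2 ^ j := (pw_ne φ (hs _ _ _ hj)).2.2.1
  refine ⟨j - l, ⟨j, ?_⟩, ?_⟩
  · have : (2:ℝ) ^ j * ((2:ℝ) ^ (-((j:ℤ) - l)) * y) = x := by
      rw [← zpow_natCast, ← mul_assoc, ← zpow_add₀ (by norm_num), hxdef]
      congr 2; ring
    rw [this, ← hrk]
    exact hj
  · rintro J ⟨j', hj'⟩
    obtain ⟨h1, h2, -⟩ := mem_WS φ hs hj'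
    have e : (2:ℝ) ^ j' * ((2:ℝ) ^ (-J) * y) = (2:ℝ) ^ ((j':ℤ) - J) * y := by
      rw [← zpow_natCast, ← mul_assoc, ← zpow_add₀ (by norm_num)]
      congr 2
    rw [e] at h1 h2 hj'
    have hle : l ≤ (j':ℤ) - J := hl2 _ h1
    have heq : (j':ℤ) - J = l := by
      by_contra hne'
      have hlt : l < (j':ℤ) - J := lt_of_le_of_ne hle (Ne.symm hne')
      apply h2 ((j':ℤ) - J - l).toNat (by omega)
      have : (2:ℝ) ^ ((j':ℤ) - J) * y / 2 ^ ((j':ℤ) - J - l).toNat = x := by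
        rw [← zpow_natCast, Int.toNat_of_nonneg (by omega), hxdef]
        rw [show ((j':ℤ) - J) = l + ((j':ℤ) - J - l) by ring, zpow_add₀ (by norm_num)]
        rw [show l + ((j':ℤ) - J - l) - l = (j':ℤ) - J - l by ring]
        field_simp
      rw [this]
      exact hl1
    rw [heq, ← hxdef] at hj'
    have := huniq _ hj'
    have hjj : j' = j := congrArg Prod.fst this
    subst hjj
    omega

/-- the case where the dimension function vanishes on a set of positive measure -/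
theorem non_mra (hm : Measurable φ)
    (A1 : ∀ᵐ x : ℝ, ∑' n : ℤ, ‖φ (x + n)‖ₑ ^ 2 = 1)
    (A2 : ∀ᵐ x : ℝ, ∑' j : ℤ, ‖φ ((2:ℝ) ^ j * x)‖ₑ ^ 2 = 1)
    (H : ∀ᵐ x : ℝ, ∃ i : ℕ, (2:ℝ) ^ i * x ∈ Zs φ) :
    ∃ W : Set ℝ, MeasurableSet W ∧
        (∀ᵐ x : ℝ ∂volume, ∃! k : ℤ, x - (k : ℝ) ∈ W) ∧
        (∀ᵐ x : ℝ ∂volume, ∃! j : ℤ, ((2:ℝ) ^ (-j)) * x ∈ W) ∧
        (∀ᵐ ξ : ℝ ∂volume, ξ ∈ W → φ ξ ≠ 0) := by
  obtain ⟨M, hM, hs, hr, hc⟩ := Pool.Agent.Helper152.LarC.birkhoff (pw φ) (measurable_pw φ hm) (row_cases φ) (col_cases φ)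
  have hO : ∀ᵐ x : ℝ, Orb (Q φ) x := by
    apply ae_Orb
    filter_upwards [A1, A2, H] with x h1 h2 h3
    exact ⟨h1, h2, h3⟩
  refine ⟨WS M, measurableSet_WS hM, ?_, ?_, ?_⟩
  · filter_upwards [hO] with y hy
    exact tile_trans φ hs hc hy
  · filter_upwards [hO] with y hy
    exact tile_dil φ hs hr hy
  · refine Filter.Eventually.of_forall ?_
    rintro v ⟨j, hj⟩
    exact (mem_WS φ hs hj).2.2

end Pool.Agent.Helper152.Lar
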