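import Mathlib

open Finset

namespace Pool.Agent.Helper152.Sam

/-- `v` maps the finite `l^{p'}` space on `A` into the finite `l^r` space on `J` with norm at most one -/
def WBound (r s : ℝ) {A J : Type} [Fintype A] [Fintype J] (v : J → A → ℝ) : Prop :=
  ∀ x : A → ℝ, ∑ j, |∑ a, v j a * x a| ^ r ≤ (∑ a, |x a| ^ s) ^ (r / s)

/-- comparison of two families of nonnegative vectors -/
def PBound (ρ : ℝ) {A I L : Type} [Fintype A] [Fintype I] [Fintype L] (F : I → A → ℝ)
    (G : L → A → ℝ) : Prop :=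
  ∀ X : A → ℝ, (∀ a, 0 ≤ X a) → ∑ i, (∑ a, F i a * X a) ^ ρ ≤ ∑ l, (∑ a, G l a * X a) ^ ρ

theorem lp_sum_le {K B : Type} [Fintype B] (s : ℝ) (hs : 1 ≤ s) (S : Finset K)
    (g : K → B → ℝ) (hg : ∀ k b, 0 ≤ g k b) :
    (∑ b, (∑ k ∈ S, g k b) ^ s) ^ (1 / s) ≤ ∑ k ∈ S, (∑ b, (g k b) ^ s) ^ (1 / s) := by
  classical
  induction S using Finset.induction_on with
  | empty =>
    have h0 : s ≠ 0 := by positivity
    simp [h0]
  | insert k S hk ih =>
    simp only [Finset.sum_insert hk]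
    calc (∑ b, (g k b + ∑ k' ∈ S, g k' b) ^ s) ^ (1 / s)
        ≤ (∑ b, (g k b) ^ s) ^ (1 / s) + (∑ b, (∑ k' ∈ S, g k' b) ^ s) ^ (1 / s) :=
          Real.Lp_add_le_of_nonneg _ hs (fun b _ => hg k b)
            (fun b _ => Finset.sum_nonneg fun k' _ => hg k' b)
      _ ≤ _ := by gcongr

theorem WBound.tensor {r s : ℝ} (hs : 1 ≤ s) (hsr : s ≤ r) {A J A' J' : Type} [Fintype A]
    [Fintype J] [Fintype A'] [Fintype J'] {v : J → A → ℝ} {v' : J' → A' → ℝ}
    (h : WBound r s v) (h' : WBound r s v') :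
    WBound r s (fun (j : J × J') (a : A × A') => v j.1 a.1 * v' j.2 a.2) := by
  intro x
  have hs0 : 0 < s := by linarith
  have hr0 : 0 < r := by linarith
  have hrs : 1 ≤ r / s := by rw [le_div_iff₀ hs0]; linarith
  set G : A → J' → ℝ := fun a j' => ∑ a', v' j' a' * x (a, a') with hG
  have e1 : ∀ j : J × J', ∑ a : A × A', v j.1 a.1 * v' j.2 a.2 * x a
      = ∑ a, v j.1 a * G a j.2 := by
    intro j
    rw [Fintype.sum_prod_type]
    refine Finset.sum_congr rfl fun a _ => ?_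
    rw [hG, Finset.mul_sum]
    refine Finset.sum_congr rfl fun a' _ => ?_
    ring
  simp_rw [e1]
  rw [Fintype.sum_prod_type_right]
  have e2 : ∀ j' : J', ∑ j, |∑ a, v j a * G a j'| ^ r ≤ (∑ a, |G a j'| ^ s) ^ (r / s) :=
    fun j' => h fun a => G a j'
  refine (Finset.sum_le_sum fun j' _ => e2 j').trans ?_
  have e3 := lp_sum_le (r / s) hrs (Finset.univ : Finset A) (fun a (j' : J') => |G a j'| ^ s)
    (fun a j' => by positivity)
  have e4 : ∀ a, (∑ j', (|G a j'| ^ s) ^ (r / s)) ^ (1 / (r / s)) ≤ ∑ a', |x (a, a')| ^ s := by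
    intro a
    have h1 : ∀ j', (|G a j'| ^ s) ^ (r / s) = |G a j'| ^ r := by
      intro j'
      rw [← Real.rpow_mul (abs_nonneg _)]
      congr 1
      field_simp
    simp_rw [h1]
    have h2 := h' fun a' => x (a, a')
    calc (∑ j', |G a j'| ^ r) ^ (1 / (r / s))
        ≤ ((∑ a', |x (a, a')| ^ s) ^ (r / s)) ^ (1 / (r / s)) := by
          apply Real.rpow_le_rpow _ h2 (by positivity)
          positivity
      _ = ∑ a', |x (a, a')| ^ s := by
          rw [← Real.rpow_mul (by positivity)]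
          rw [mul_one_div_cancel (by positivity), Real.rpow_one]
  have e5 : (∑ b, (∑ a, |G a b| ^ s) ^ (r / s)) ^ (1 / (r / s)) ≤ ∑ a : A × A', |x a| ^ s := by
    refine e3.trans ?_
    rw [Fintype.sum_prod_type]
    exact Finset.sum_le_sum fun a _ => e4 a
  calc (∑ b, (∑ a, |G a b| ^ s) ^ (r / s))
      = ((∑ b, (∑ a, |G a b| ^ s) ^ (r / s)) ^ (1 / (r / s))) ^ (r / s) := by
        rw [← Real.rpow_mul (by positivity)]
        rw [one_div_mul_cancel (by positivity), Real.rpow_one]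
    _ ≤ _ := by
        apply Real.rpow_le_rpow (by positivity) e5 (by positivity)

theorem PBound.tensor {ρ : ℝ} {A I L A' I' L' : Type} [Fintype A] [Fintype I] [Fintype L]
    [Fintype A'] [Fintype I'] [Fintype L'] {F : I → A → ℝ} {G : L → A → ℝ} {F' : I' → A' → ℝ}
    {G' : L' → A' → ℝ} (h : PBound ρ F G) (h' : PBound ρ F' G') (hG : ∀ l a, 0 ≤ G l a)
    (hF' : ∀ i a, 0 ≤ F' i a) :
    PBound ρ (fun (i : I × I') (a : A × A') => F i.1 a.1 * F' i.2 a.2)
      (fun (l : L × L') (a : A × A') => G l.1 a.1 * G' l.2 a.2) := by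
  intro X hX
  have e1 : ∀ i : I × I', ∑ a : A × A', F i.1 a.1 * F' i.2 a.2 * X a
      = ∑ a, F i.1 a * (∑ a', F' i.2 a' * X (a, a')) := by
    intro i
    rw [Fintype.sum_prod_type]
    refine Finset.sum_congr rfl fun a _ => ?_
    rw [Finset.mul_sum]
    refine Finset.sum_congr rfl fun a' _ => ?_
    ring
  have e2 : ∀ (l : L) (i : I'), ∑ a, G l a * (∑ a', F' i a' * X (a, a'))
      = ∑ a', F' i a' * (∑ a, G l a * X (a, a')) := by
    intro l i
    simp_rw [Finset.mul_sum]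
    rw [Finset.sum_comm]
    refine Finset.sum_congr rfl fun a' _ => Finset.sum_congr rfl fun a _ => ?_
    ring
  have e3 : ∀ l : L × L', ∑ a : A × A', G l.1 a.1 * G' l.2 a.2 * X a
      = ∑ a', G' l.2 a' * (∑ a, G l.1 a * X (a, a')) := by
    intro l
    rw [Fintype.sum_prod_type_right]
    refine Finset.sum_congr rfl fun a _ => ?_
    rw [Finset.mul_sum]
    refine Finset.sum_congr rfl fun a' _ => ?_
    ring
  simp_rw [e1, e3]
  rw [Fintype.sum_prod_type_right, Fintype.sum_prod_type]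
  calc ∑ y, ∑ x, (∑ a, F x a * ∑ a', F' y a' * X (a, a')) ^ ρ
      ≤ ∑ y, ∑ l, (∑ a, G l a * ∑ a', F' y a' * X (a, a')) ^ ρ := by
        refine Finset.sum_le_sum fun y _ => ?_
        exact h (fun a => ∑ a', F' y a' * X (a, a'))
          fun a => Finset.sum_nonneg fun a' _ => mul_nonneg (hF' _ _) (hX _)
    _ = ∑ l, ∑ y, (∑ a', F' y a' * (∑ a, G l a * X (a, a'))) ^ ρ := by
        rw [Finset.sum_comm]
        simp_rw [e2]
    _ ≤ ∑ l, ∑ l', (∑ a', G' l' a' * (∑ a, G l a * X (a, a'))) ^ ρ := by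
        refine Finset.sum_le_sum fun l _ => ?_
        exact h' (fun a' => ∑ a, G l a * X (a, a'))
          fun a' => Finset.sum_nonneg fun a _ => mul_nonneg (hG _ _) (hX _)

end Pool.Agent.Helper152.Sam
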