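import Mathlib
import Pool.Agent.Helper152.SamA

open Finset

namespace Pool.Agent.Helper152.Sam

/-- the data of one finite configuration -/
def Good (r s E Γ : ℝ) (m : ℕ) : Prop :=
  ∃ (A I J L : Type) (_ : Fintype A) (_ : Fintype I) (_ : Fintype J) (_ : Fintype L)
    (_ : Nonempty A) (_ : Nonempty I)
    (v : J → A → ℝ) (f : I → A → ℝ) (G : L → A → ℝ),
    (∀ i a, 0 ≤ f i a) ∧ (∀ l a, 0 ≤ G l a) ∧ WBound r s v ∧
    PBound (r / 2) (fun i a => f i a ^ 2) (fun l a => G l a ^ 2) ∧ Fintype.card I = m ∧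
    ∑ i, ∑ j, |∑ a, f i a * v j a| ^ r = E ∧ ∑ l, (∑ a, G l a ^ s) ^ (r / s) = Γ

theorem Good.mul {r s E Γ E' Γ' : ℝ} {m m' : ℕ} (hs : 1 ≤ s) (hsr : s ≤ r)
    (h : Good r s E Γ m) (h' : Good r s E' Γ' m') :
    Good r s (E * E') (Γ * Γ') (m * m') := by
  obtain ⟨A, I, J, L, _, _, _, _, _, _, v, f, G, hf, hG, hW, hP, hc, hE, hΓ⟩ := h
  obtain ⟨A', I', J', L', _, _, _, _, _, _, v', f', G', hf', hG', hW', hP', hc', hE', hΓ'⟩ := h'
  refine ⟨A × A', I × I', J × J', L × L', inferInstance, inferInstance, inferInstance,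
    inferInstance, inferInstance, inferInstance,
    fun j a => v j.1 a.1 * v' j.2 a.2, fun i a => f i.1 a.1 * f' i.2 a.2,
    fun l a => G l.1 a.1 * G' l.2 a.2, ?_, ?_, ?_, ?_, ?_, ?_, ?_⟩
  · intro i a; exact mul_nonneg (hf _ _) (hf' _ _)
  · intro l a; exact mul_nonneg (hG _ _) (hG' _ _)
  · exact hW.tensor hs hsr hW'
  · have := hP.tensor hP' (fun l a => by positivity) (fun i a => by positivity)
    simpa [mul_pow] using this
  · rw [Fintype.card_prod, hc, hc']
  · have e1 : ∀ (i : I × I') (j : J × J'),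
        |∑ a : A × A', f i.1 a.1 * f' i.2 a.2 * (v j.1 a.1 * v' j.2 a.2)| ^ r
        = |∑ a, f i.1 a * v j.1 a| ^ r * |∑ a, f' i.2 a * v' j.2 a| ^ r := by
      intro i j
      rw [← Real.mul_rpow (abs_nonneg _) (abs_nonneg _), ← abs_mul]
      congr 2
      rw [Fintype.sum_prod_type, Finset.sum_mul_sum]
      refine Finset.sum_congr rfl fun a _ => Finset.sum_congr rfl fun a' _ => ?_
      ring
    simp_rw [e1]
    rw [← hE, ← hE', Fintype.sum_prod_type, Finset.sum_mul_sum]
    refine Finset.sum_congr rfl fun i _ => Finset.sum_congr rfl fun i' _ => ?_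
    rw [Fintype.sum_prod_type, Finset.sum_mul_sum]
  · have hs0 : 0 < s := by linarith
    have e1 : ∀ l : L × L', (∑ a : A × A', (G l.1 a.1 * G' l.2 a.2) ^ s) ^ (r / s)
        = (∑ a, G l.1 a ^ s) ^ (r / s) * (∑ a, G' l.2 a ^ s) ^ (r / s) := by
      intro l
      rw [← Real.mul_rpow (Finset.sum_nonneg fun a _ => Real.rpow_nonneg (hG _ _) _)
        (Finset.sum_nonneg fun a _ => Real.rpow_nonneg (hG' _ _) _)]
      congr 1
      rw [Fintype.sum_prod_type, Finset.sum_mul_sum]
      refine Finset.sum_congr rfl fun a _ => Finset.sum_congr rfl fun a' _ => ?_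
      rw [Real.mul_rpow (hG _ _) (hG' _ _)]
    simp_rw [e1]
    rw [← hΓ, ← hΓ', Fintype.sum_prod_type, Finset.sum_mul_sum]

theorem Good.one {r s : ℝ} (hs : 0 < s) : Good r s 1 1 1 := by
  refine ⟨Unit, Unit, Unit, Unit, inferInstance, inferInstance, inferInstance, inferInstance,
    inferInstance, inferInstance, fun _ _ => 1, fun _ _ => 1, fun _ _ => 1, ?_, ?_, ?_, ?_, ?_,
    ?_, ?_⟩
  · intro _ _; norm_num
  · intro _ _; norm_num
  · intro x
    simp only [Finset.univ_unique, Finset.sum_singleton, one_mul]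
    rw [← Real.rpow_mul (abs_nonneg _)]
    rw [mul_div_cancel₀ _ hs.ne']
  · intro x hx
    simp
  · simp
  · simp
  · simp

theorem Good.pow {r s E Γ : ℝ} {m : ℕ} (hs : 1 ≤ s) (hsr : s ≤ r)
    (h : Good r s E Γ m) (k : ℕ) : Good r s (E ^ k) (Γ ^ k) (m ^ k) := by
  induction k with
  | zero => simpa using Good.one (by linarith)
  | succ k ih =>
    rw [pow_succ, pow_succ, pow_succ]
    exact ih.mul hs hsr h

/-! ### random signs -/

/-- the sign attached to a boolean -/
def sg (b : Bool) : ℝ := if b then 1 else -1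

theorem sg_sq (b : Bool) : sg b * sg b = 1 := by cases b <;> simp [sg]

theorem sg_not (b : Bool) : sg (!b) = - sg b := by cases b <;> simp [sg]

theorem abs_sg (b : Bool) : |sg b| = 1 := by cases b <;> simp [sg]

theorem sum_sg_mul {A : Type} [Fintype A] [DecidableEq A] {a b : A} (hab : a ≠ b) :
    ∑ e : A → Bool, sg (e a) * sg (e b) = 0 := by
  refine Finset.sum_involution (fun e _ => Function.update e a (!(e a))) ?_ ?_ ?_ ?_
  · intro e _
    rw [Function.update_self, Function.update_of_ne hab.symm, sg_not]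
    ring
  · intro e _ _ h
    have := congrFun h a
    rw [Function.update_self] at this
    cases h' : e a <;> simp [h'] at this
  · intro e _; exact Finset.mem_univ _
  · intro e _
    simp

theorem sum_sg_sq {A : Type} [Fintype A] [DecidableEq A] (y : A → ℝ) :
    ∑ e : A → Bool, (∑ a, sg (e a) * y a) ^ 2 = 2 ^ Fintype.card A * ∑ a, y a ^ 2 := by
  have h1 : ∀ e : A → Bool, (∑ a, sg (e a) * y a) ^ 2
      = ∑ a, ∑ b, y a * y b * (sg (e a) * sg (e b)) := by
    intro e
    rw [sq, Finset.sum_mul_sum]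
    refine Finset.sum_congr rfl fun a _ => Finset.sum_congr rfl fun b _ => ?_
    ring
  simp_rw [h1]
  rw [Finset.sum_comm, Finset.mul_sum]
  refine Finset.sum_congr rfl fun a _ => ?_
  rw [Finset.sum_comm]
  rw [Finset.sum_eq_single a]
  · rw [← Finset.mul_sum]
    have : ∀ e : A → Bool, sg (e a) * sg (e a) = 1 := fun e => sg_sq _
    simp_rw [this]
    simp
    ring
  · intro b _ hb
    rw [← Finset.mul_sum, sum_sg_mul hb.symm, mul_zero]
  · intro h; exact absurd (Finset.mem_univ _) h

theorem khin_lower {r : ℝ} (hr : 2 ≤ r) {A : Type} [Fintype A] [DecidableEq A] (y : A → ℝ) :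
    2 ^ Fintype.card A * (∑ a, y a ^ 2) ^ (r / 2) ≤
      ∑ e : A → Bool, |∑ a, sg (e a) * y a| ^ r := by
  set N : ℝ := 2 ^ Fintype.card A with hN
  have hN0 : 0 < N := by positivity
  have hcard : (Fintype.card (A → Bool) : ℝ) = N := by
    simp [hN]
  have h := Real.rpow_arith_mean_le_arith_mean_rpow (Finset.univ : Finset (A → Bool))
    (fun _ => N⁻¹) (fun e => (∑ a, sg (e a) * y a) ^ 2) (fun _ _ => by positivity)
    (by simp only [Finset.sum_const, Finset.card_univ, nsmul_eq_mul]; rw [hcard]; field_simp)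
    (fun _ _ => by positivity) (p := r / 2) (by linarith)
  rw [← Finset.mul_sum, ← Finset.mul_sum, sum_sg_sq, ← hN] at h
  have h2 : ∀ e : A → Bool, ((∑ a, sg (e a) * y a) ^ 2) ^ (r / 2)
      = |∑ a, sg (e a) * y a| ^ r := by
    intro e
    rw [← sq_abs, ← Real.rpow_natCast, ← Real.rpow_mul (abs_nonneg _)]
    congr 1
    push_cast
    ring
  simp_rw [h2] at h
  have h3 : N⁻¹ * (N * ∑ a, y a ^ 2) = ∑ a, y a ^ 2 := by field_simp
  rw [h3] at h
  calc N * (∑ a, y a ^ 2) ^ (r / 2)
      ≤ N * (N⁻¹ * ∑ i : A → Bool, |∑ a, sg (i a) * y a| ^ r) := by gcongr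
    _ = _ := by field_simp

theorem abs_rpow_le_exp {r : ℝ} (hr : 0 < r) (z : ℝ) : |z| ^ r ≤ r ^ r * Real.exp |z| := by
  have h1 : |z| / r ≤ Real.exp (|z| / r) := by
    have := Real.add_one_le_exp (|z| / r)
    linarith
  have h2 : (|z| / r) ^ r ≤ Real.exp (|z| / r) ^ r :=
    Real.rpow_le_rpow (by positivity) h1 hr.le
  rw [← Real.exp_mul, div_mul_cancel₀ _ hr.ne', Real.div_rpow (abs_nonneg _) hr.le] at h2
  have h3 : 0 < r ^ r := by positivity
  rw [div_le_iff₀ h3] at h2
  linarith

theorem khin_upper {r : ℝ} (hr : 0 < r) {A : Type} [Fintype A] [DecidableEq A] (y : A → ℝ) :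
    ∑ e : A → Bool, |∑ a, sg (e a) * y a| ^ r ≤
      (r ^ r * (2 * Real.exp (1 / 2))) * (2 ^ Fintype.card A * (∑ a, y a ^ 2) ^ (r / 2)) := by
  set S : ℝ := ∑ a, y a ^ 2 with hS
  have hS0 : 0 ≤ S := Finset.sum_nonneg fun a _ => sq_nonneg _
  rcases hS0.eq_or_lt with h0 | hpos
  · have hy : ∀ a, y a = 0 := by
      intro a
      have h1 : ∀ b ∈ (Finset.univ : Finset A), 0 ≤ y b ^ 2 := fun b _ => sq_nonneg _
      have h2 := (Finset.sum_eq_zero_iff_of_nonneg h1).1 (hS ▸ h0.symm) a (Finset.mem_univ _)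
      exact pow_eq_zero_iff (two_ne_zero) |>.1 h2
    simp only [hy, mul_zero, Finset.sum_const_zero, abs_zero]
    rw [Real.zero_rpow hr.ne']
    simp only [Finset.sum_const_zero]
    positivity
  · set t : ℝ := Real.sqrt S with ht
    have ht0 : 0 < t := Real.sqrt_pos.2 hpos
    have ht2 : t ^ 2 = S := Real.sq_sqrt hS0
    set z : A → ℝ := fun a => y a / t with hz
    have hzS : ∑ a, z a ^ 2 = 1 := by
      simp only [hz, div_pow]
      rw [← Finset.sum_div, ← hS, ht2, div_self hpos.ne']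
    have hexp : ∀ c : ℝ, c = 1 ∨ c = -1 →
        ∑ e : A → Bool, Real.exp (c * ∑ a, sg (e a) * z a) ≤
          2 ^ Fintype.card A * Real.exp (1 / 2) := by
      intro c hc
      have h1 : ∀ e : A → Bool, Real.exp (c * ∑ a, sg (e a) * z a)
          = ∏ a, Real.exp (sg (e a) * (c * z a)) := by
        intro e
        rw [← Real.exp_sum, Finset.mul_sum]
        congr 1
        refine Finset.sum_congr rfl fun a _ => ?_
        ring
      simp_rw [h1]
      have h2 : ∑ e : A → Bool, ∏ a, Real.exp (sg (e a) * (c * z a))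
          = ∏ a, ∑ b : Bool, Real.exp (sg b * (c * z a)) := by
        rw [Finset.prod_univ_sum]
        rw [Fintype.piFinset_univ]
      rw [h2]
      have h3 : ∀ a, ∑ b : Bool, Real.exp (sg b * (c * z a)) = 2 * Real.cosh (c * z a) := by
        intro a
        rw [Fintype.sum_bool, Real.cosh_eq]
        simp [sg]
        ring
      simp_rw [h3]
      have h4 : ∀ a, 2 * Real.cosh (c * z a) ≤ 2 * Real.exp (z a ^ 2 / 2) := by
        intro a
        have := Real.cosh_le_exp_half_sq (c * z a)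
        have hc2 : c ^ 2 = 1 := by rcases hc with h | h <;> simp [h]
        rw [mul_pow, hc2, one_mul] at this
        linarith
      calc ∏ a, 2 * Real.cosh (c * z a) ≤ ∏ a, 2 * Real.exp (z a ^ 2 / 2) := by
            apply Finset.prod_le_prod
            · intro a _
              have := Real.cosh_pos (c * z a)
              positivity
            · intro a _; exact h4 a
        _ = 2 ^ Fintype.card A * Real.exp (1 / 2) := by
            rw [Finset.prod_mul_distrib, Finset.prod_const, Finset.card_univ, ← Real.exp_sum,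
              ← Finset.sum_div, hzS]
    have hb : ∀ e : A → Bool, |∑ a, sg (e a) * z a| ^ r ≤
        r ^ r * (Real.exp (1 * ∑ a, sg (e a) * z a) + Real.exp ((-1) * ∑ a, sg (e a) * z a)) := by
      intro e
      refine (abs_rpow_le_exp hr _).trans ?_
      have hrr : 0 ≤ r ^ r := by positivity
      apply mul_le_mul_of_nonneg_left _ hrr
      rw [one_mul]
      rcases abs_cases (∑ a, sg (e a) * z a) with ⟨h, _⟩ | ⟨h, _⟩
      · rw [h]
        have := Real.exp_pos ((-1) * ∑ a, sg (e a) * z a)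
        linarith
      · rw [h]
        have := Real.exp_pos (∑ a, sg (e a) * z a)
        have h' : -(∑ a, sg (e a) * z a) = (-1) * ∑ a, sg (e a) * z a := by ring
        rw [h']
        linarith
    have hsum : ∑ e : A → Bool, |∑ a, sg (e a) * z a| ^ r ≤
        (r ^ r * (2 * Real.exp (1 / 2))) * 2 ^ Fintype.card A := by
      refine (Finset.sum_le_sum fun e _ => hb e).trans ?_
      rw [← Finset.mul_sum, Finset.sum_add_distrib]
      have h1 := hexp 1 (Or.inl rfl)
      have h2 := hexp (-1) (Or.inr rfl)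
      have hrr : 0 ≤ r ^ r := by positivity
      nlinarith [mul_le_mul_of_nonneg_left (add_le_add h1 h2) hrr]
    have hyz : ∀ e : A → Bool, |∑ a, sg (e a) * y a| ^ r = t ^ r * |∑ a, sg (e a) * z a| ^ r := by
      intro e
      rw [← Real.mul_rpow ht0.le (abs_nonneg _)]
      have habs : t * |∑ a, sg (e a) * z a| = |t * ∑ a, sg (e a) * z a| := by
        rw [abs_mul, abs_of_pos ht0]
      rw [habs]
      congr 2
      rw [Finset.mul_sum]
      refine Finset.sum_congr rfl fun a _ => ?_
      simp only [hz]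
      field_simp
    simp_rw [hyz]
    rw [← Finset.mul_sum]
    have htr : t ^ r = S ^ (r / 2) := by
      rw [ht, Real.sqrt_eq_rpow, ← Real.rpow_mul hS0]
      congr 1
      ring
    rw [htr]
    have : 0 ≤ S ^ (r / 2) := by positivity
    nlinarith [mul_le_mul_of_nonneg_left hsum this]

end Pool.Agent.Helper152.Sam
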