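import Mathlib

open MeasureTheory intervalIntegral Real

namespace Pool.Agent.Helper152.Sam

theorem cont_abs_rpow {r : ℝ} (hr : 0 ≤ r) : Continuous fun y : ℝ => |y| ^ r :=
  continuous_abs.rpow_const fun _ => Or.inr hr

theorem deriv_abs_rpow_mul {r : ℝ} (hr : 1 < r) (y : ℝ) :
    HasDerivAt (fun y : ℝ => |y| ^ r * y) ((r + 1) * |y| ^ r) y := by
  have h := (hasDerivAt_abs_rpow y hr).mul (hasDerivAt_id' y)
  have e : r * |y| ^ (r - 2) * y * y + |y| ^ r * 1 = (r + 1) * |y| ^ r := by
    have h2 : |y| ^ (r - 2) * (y * y) = |y| ^ r := by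
      rcases eq_or_ne y 0 with h0 | h0
      · subst h0
        simp [show r ≠ 0 by linarith]
      · have hy : 0 < |y| := abs_pos.2 h0
        have : y * y = |y| ^ (2 : ℝ) := by
          rw [Real.rpow_two, sq_abs]; ring
        rw [this, ← Real.rpow_add hy]
        congr 1
        ring
    calc r * |y| ^ (r - 2) * y * y + |y| ^ r * 1 = r * (|y| ^ (r - 2) * (y * y)) + |y| ^ r := by ring
      _ = _ := by rw [h2]; ring
  rw [← e]
  exact h

/-- moments of `|cos|^r` -/
noncomputable def Ic (r : ℝ) (m : ℕ) : ℝ := ∫ t in (-π)..π, |cos t| ^ r * cos t ^ m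

theorem Ic_two {r : ℝ} (hr : 1 < r) : (r + 2) * Ic r 2 = (r + 1) * Ic r 0 := by
  have hd : ∀ t : ℝ, HasDerivAt (fun t : ℝ => (|cos t| ^ r * cos t) * sin t)
      (((r + 1) * |cos t| ^ r * (-sin t)) * sin t + (|cos t| ^ r * cos t) * cos t) t := by
    intro t
    have h1 : HasDerivAt (fun t : ℝ => |cos t| ^ r * cos t) ((r + 1) * |cos t| ^ r * (-sin t)) t :=
      (deriv_abs_rpow_mul hr (cos t)).comp t (Real.hasDerivAt_cos t)
    exact h1.mul (Real.hasDerivAt_sin t)
  have hc : Continuous fun t : ℝ => |cos t| ^ r :=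
    (cont_abs_rpow (by linarith)).comp Real.continuous_cos
  have hI := intervalIntegral.integral_eq_sub_of_hasDerivAt (a := -π) (b := π)
    (fun t _ => hd t) (Continuous.intervalIntegrable (by fun_prop) _ _)
  simp only [sin_neg, sin_pi, neg_zero, mul_zero, sub_zero] at hI
  have h2 : ∀ t : ℝ, ((r + 1) * |cos t| ^ r * (-sin t)) * sin t + (|cos t| ^ r * cos t) * cos t
      = (r + 2) * (|cos t| ^ r * cos t ^ 2) - (r + 1) * (|cos t| ^ r * cos t ^ 0) := by
    intro t
    have := Real.sin_sq_add_cos_sq t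
    have h3 : sin t * sin t = 1 - cos t ^ 2 := by linear_combination this
    have : ((r + 1) * |cos t| ^ r * (-sin t)) * sin t = -((r + 1) * |cos t| ^ r * (sin t * sin t)) := by
      ring
    rw [this, h3]
    ring
  simp_rw [h2] at hI
  rw [intervalIntegral.integral_sub, intervalIntegral.integral_const_mul,
    intervalIntegral.integral_const_mul] at hI
  · unfold Ic; linarith
  · exact Continuous.intervalIntegrable (by fun_prop) _ _
  · exact Continuous.intervalIntegrable (by fun_prop) _ _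

theorem Ic_four {r : ℝ} (hr : 1 < r) : (r + 4) * Ic r 4 = (r + 3) * Ic r 2 := by
  have hd : ∀ t : ℝ, HasDerivAt (fun t : ℝ => ((|cos t| ^ r * cos t) * cos t ^ 2) * sin t)
      ((((r + 1) * |cos t| ^ r * (-sin t)) * cos t ^ 2 +
        (|cos t| ^ r * cos t) * (2 * cos t * (-sin t))) * sin t
        + ((|cos t| ^ r * cos t) * cos t ^ 2) * cos t) t := by
    intro t
    have h1 : HasDerivAt (fun t : ℝ => |cos t| ^ r * cos t) ((r + 1) * |cos t| ^ r * (-sin t)) t :=
      (deriv_abs_rpow_mul hr (cos t)).comp t (Real.hasDerivAt_cos t)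
    have h2 : HasDerivAt (fun t : ℝ => cos t ^ 2) (2 * cos t * (-sin t)) t := by
      have := (Real.hasDerivAt_cos t).fun_pow 2
      simpa using this
    exact (h1.mul h2).mul (Real.hasDerivAt_sin t)
  have hc : Continuous fun t : ℝ => |cos t| ^ r :=
    (cont_abs_rpow (by linarith)).comp Real.continuous_cos
  have hI := intervalIntegral.integral_eq_sub_of_hasDerivAt (a := -π) (b := π)
    (fun t _ => hd t) (Continuous.intervalIntegrable (by fun_prop) _ _)
  simp only [sin_neg, sin_pi, neg_zero, mul_zero, sub_zero] at hI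
  have h2 : ∀ t : ℝ, (((r + 1) * |cos t| ^ r * (-sin t)) * cos t ^ 2 +
        (|cos t| ^ r * cos t) * (2 * cos t * (-sin t))) * sin t
        + ((|cos t| ^ r * cos t) * cos t ^ 2) * cos t
      = (r + 4) * (|cos t| ^ r * cos t ^ 4) - (r + 3) * (|cos t| ^ r * cos t ^ 2) := by
    intro t
    have := Real.sin_sq_add_cos_sq t
    have h3 : sin t * sin t = 1 - cos t ^ 2 := by linear_combination this
    have : (((r + 1) * |cos t| ^ r * (-sin t)) * cos t ^ 2 +
        (|cos t| ^ r * cos t) * (2 * cos t * (-sin t))) * sin t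
        = -((r + 3) * |cos t| ^ r * cos t ^ 2 * (sin t * sin t)) := by
      ring
    rw [this, h3]
    ring
  simp_rw [h2] at hI
  rw [intervalIntegral.integral_sub, intervalIntegral.integral_const_mul,
    intervalIntegral.integral_const_mul] at hI
  · unfold Ic; linarith
  · exact Continuous.intervalIntegrable (by fun_prop) _ _
  · exact Continuous.intervalIntegrable (by fun_prop) _ _

theorem Ic_zero_pos {r : ℝ} (hr : 0 ≤ r) : 0 < Ic r 0 := by
  unfold Ic
  have hc : Continuous fun t : ℝ => |cos t| ^ r :=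
    (cont_abs_rpow hr).comp Real.continuous_cos
  apply intervalIntegral.integral_pos (by linarith [Real.pi_pos]) (by fun_prop)
  · intro x _; positivity
  · refine ⟨0, ⟨by linarith [Real.pi_pos], by linarith [Real.pi_pos]⟩, ?_⟩
    simp

theorem int_cos2 {r : ℝ} (hr : 1 < r) :
    ∫ t in (-π)..π, |cos t| ^ r * cos (2 * t) = r / (r + 2) * Ic r 0 := by
  have hc : Continuous fun t : ℝ => |cos t| ^ r :=
    (cont_abs_rpow (by linarith)).comp Real.continuous_cos
  have h2 : ∀ t : ℝ, |cos t| ^ r * cos (2 * t)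
      = 2 * (|cos t| ^ r * cos t ^ 2) - |cos t| ^ r * cos t ^ 0 := by
    intro t
    rw [Real.cos_two_mul]; ring
  simp_rw [h2]
  rw [intervalIntegral.integral_sub, intervalIntegral.integral_const_mul]
  · have h3 := Ic_two hr
    have h4 : Ic r 2 = (r + 1) / (r + 2) * Ic r 0 := by
      field_simp; linarith
    change 2 * Ic r 2 - Ic r 0 = _
    rw [h4]
    field_simp
    ring
  · exact Continuous.intervalIntegrable (by fun_prop) _ _
  · exact Continuous.intervalIntegrable (by fun_prop) _ _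

theorem int_cos4 {r : ℝ} (hr : 1 < r) :
    ∫ t in (-π)..π, |cos t| ^ r * cos (4 * t) =
      r * (r - 2) / ((r + 2) * (r + 4)) * Ic r 0 := by
  have hc : Continuous fun t : ℝ => |cos t| ^ r :=
    (cont_abs_rpow (by linarith)).comp Real.continuous_cos
  have h2 : ∀ t : ℝ, |cos t| ^ r * cos (4 * t)
      = (8 * (|cos t| ^ r * cos t ^ 4) - 8 * (|cos t| ^ r * cos t ^ 2))
        + |cos t| ^ r * cos t ^ 0 := by
    intro t
    rw [show 4 * t = 2 * (2 * t) by ring, Real.cos_two_mul, Real.cos_two_mul]; ring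
  simp_rw [h2]
  rw [intervalIntegral.integral_add, intervalIntegral.integral_sub,
    intervalIntegral.integral_const_mul, intervalIntegral.integral_const_mul]
  · have h3 := Ic_two hr
    have h5 := Ic_four hr
    have h4 : Ic r 2 = (r + 1) / (r + 2) * Ic r 0 := by
      field_simp; linarith
    have h6 : Ic r 4 = (r + 3) / (r + 4) * ((r + 1) / (r + 2) * Ic r 0) := by
      rw [← h4]
      field_simp; linarith
    change 8 * Ic r 4 - 8 * Ic r 2 + Ic r 0 = _
    rw [h6, h4]
    field_simp
    ring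
  · exact Continuous.intervalIntegrable (by fun_prop) _ _
  · exact Continuous.intervalIntegrable (by fun_prop) _ _
  · exact Continuous.intervalIntegrable (by fun_prop) _ _
  · exact Continuous.intervalIntegrable (by fun_prop) _ _

theorem int_odd {f : ℝ → ℝ} (h : ∀ t, f (-t) = - f t) : ∫ t in (-π)..π, f t = 0 := by
  have h1 : ∫ t in (-π)..π, f (-t) = ∫ t in (-π)..π, f t := by
    rw [intervalIntegral.integral_comp_neg]; simp
  simp_rw [h] at h1
  rw [intervalIntegral.integral_neg] at h1
  linarith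

/-- trigonometric polynomials of degree at most two in the double angle -/
noncomputable def Tr (A0 A1 B1 A2 B2 : ℝ) (t : ℝ) : ℝ :=
  A0 + A1 * cos (2 * t) + B1 * sin (2 * t) + A2 * cos (4 * t) + B2 * sin (4 * t)

theorem Tr_continuous (A0 A1 B1 A2 B2 : ℝ) : Continuous (Tr A0 A1 B1 A2 B2) := by
  unfold Tr; fun_prop

theorem Tr_periodic (A0 A1 B1 A2 B2 : ℝ) : Function.Periodic (Tr A0 A1 B1 A2 B2) (2 * π) := by
  intro t
  unfold Tr
  have h1 : 2 * (t + 2 * π) = 2 * t + (2 : ℕ) * (2 * π) := by push_cast; ring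
  have h2 : 4 * (t + 2 * π) = 4 * t + (4 : ℕ) * (2 * π) := by push_cast; ring
  rw [h1, h2, Real.cos_add_nat_mul_two_pi, Real.sin_add_nat_mul_two_pi,
    Real.cos_add_nat_mul_two_pi, Real.sin_add_nat_mul_two_pi]

theorem Tr_bound (A0 A1 B1 A2 B2 t : ℝ) :
    |Tr A0 A1 B1 A2 B2 t| ≤ |A0| + |A1| + |B1| + |A2| + |B2| := by
  unfold Tr
  have h : ∀ a c : ℝ, |c| ≤ 1 → |a * c| ≤ |a| := by
    intro a c hc
    rw [abs_mul]
    exact mul_le_of_le_one_right (abs_nonneg _) hc
  have h1 := h A1 _ (Real.abs_cos_le_one (2 * t))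
  have h2 := h B1 _ (Real.abs_sin_le_one (2 * t))
  have h3 := h A2 _ (Real.abs_cos_le_one (4 * t))
  have h4 := h B2 _ (Real.abs_sin_le_one (4 * t))
  have a1 := abs_add_le (A0 + A1 * cos (2 * t) + B1 * sin (2 * t) + A2 * cos (4 * t))
    (B2 * sin (4 * t))
  have a2 := abs_add_le (A0 + A1 * cos (2 * t) + B1 * sin (2 * t)) (A2 * cos (4 * t))
  have a3 := abs_add_le (A0 + A1 * cos (2 * t)) (B1 * sin (2 * t))
  have a4 := abs_add_le A0 (A1 * cos (2 * t))
  linarith

/-- rotation-invariant kernels act diagonally on trigonometric polynomials -/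
theorem funk {r : ℝ} (hr : 1 < r) (A0 A1 B1 A2 B2 θ : ℝ) :
    ∫ t in (-π)..π, |cos (t - θ)| ^ r * Tr A0 A1 B1 A2 B2 t =
      Ic r 0 * Tr A0 (r / (r + 2) * A1) (r / (r + 2) * B1)
        (r * (r - 2) / ((r + 2) * (r + 4)) * A2) (r * (r - 2) / ((r + 2) * (r + 4)) * B2) θ := by
  have hc : Continuous fun t : ℝ => |cos t| ^ r :=
    (cont_abs_rpow (by linarith)).comp Real.continuous_cos
  set H : ℝ → ℝ := fun t => |cos t| ^ r * Tr A0 A1 B1 A2 B2 (t + θ) with hH
  have hper : Function.Periodic H (2 * π) := by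
    intro t
    simp only [hH]
    rw [Real.cos_add_two_pi, show t + 2 * π + θ = (t + θ) + 2 * π by ring, Tr_periodic]
  have e1 : ∫ t in (-π)..π, |cos (t - θ)| ^ r * Tr A0 A1 B1 A2 B2 t = ∫ t in (-π)..π, H t := by
    have h1 : ∀ t, |cos (t - θ)| ^ r * Tr A0 A1 B1 A2 B2 t = H (t - θ) := by
      intro t; simp only [hH, sub_add_cancel]
    simp_rw [h1]
    rw [intervalIntegral.integral_comp_sub_right]
    have h2 := hper.intervalIntegral_add_eq (-π - θ) (-π)
    rw [show -π - θ + 2 * π = π - θ by ring, show -π + 2 * π = π by ring] at h2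
    exact h2
  rw [e1]
  set a1 := ∫ t in (-π)..π, |cos t| ^ r * cos (2 * t) with ha1
  set a2 := ∫ t in (-π)..π, |cos t| ^ r * cos (4 * t) with ha2
  have hs2 : ∫ t in (-π)..π, |cos t| ^ r * sin (2 * t) = 0 := by
    apply int_odd
    intro t
    rw [Real.cos_neg, show 2 * -t = -(2 * t) by ring, Real.sin_neg]; ring
  have hs4 : ∫ t in (-π)..π, |cos t| ^ r * sin (4 * t) = 0 := by
    apply int_odd
    intro t
    rw [Real.cos_neg, show 4 * -t = -(4 * t) by ring, Real.sin_neg]; ring
  have e2 : ∀ t, H t = A0 * (|cos t| ^ r * cos t ^ 0)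
      + (A1 * cos (2 * θ) + B1 * sin (2 * θ)) * (|cos t| ^ r * cos (2 * t))
      + (-A1 * sin (2 * θ) + B1 * cos (2 * θ)) * (|cos t| ^ r * sin (2 * t))
      + (A2 * cos (4 * θ) + B2 * sin (4 * θ)) * (|cos t| ^ r * cos (4 * t))
      + (-A2 * sin (4 * θ) + B2 * cos (4 * θ)) * (|cos t| ^ r * sin (4 * t)) := by
    intro t
    simp only [hH, Tr]
    rw [show 2 * (t + θ) = 2 * t + 2 * θ by ring, show 4 * (t + θ) = 4 * t + 4 * θ by ring,
      Real.cos_add, Real.cos_add, Real.sin_add, Real.sin_add]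
    ring
  have c0 : IntervalIntegrable (fun t => A0 * (|cos t| ^ r * cos t ^ 0)) volume (-π) π :=
    Continuous.intervalIntegrable (by fun_prop) _ _
  have c1 : IntervalIntegrable (fun t => (A1 * cos (2 * θ) + B1 * sin (2 * θ)) *
      (|cos t| ^ r * cos (2 * t))) volume (-π) π :=
    Continuous.intervalIntegrable (by fun_prop) _ _
  have c2 : IntervalIntegrable (fun t => (-A1 * sin (2 * θ) + B1 * cos (2 * θ)) *
      (|cos t| ^ r * sin (2 * t))) volume (-π) π :=
    Continuous.intervalIntegrable (by fun_prop) _ _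
  have c3 : IntervalIntegrable (fun t => (A2 * cos (4 * θ) + B2 * sin (4 * θ)) *
      (|cos t| ^ r * cos (4 * t))) volume (-π) π :=
    Continuous.intervalIntegrable (by fun_prop) _ _
  have c4 : IntervalIntegrable (fun t => (-A2 * sin (4 * θ) + B2 * cos (4 * θ)) *
      (|cos t| ^ r * sin (4 * t))) volume (-π) π :=
    Continuous.intervalIntegrable (by fun_prop) _ _
  simp_rw [e2]
  rw [intervalIntegral.integral_add (((c0.add c1).add c2).add c3) c4,
    intervalIntegral.integral_add ((c0.add c1).add c2) c3,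
    intervalIntegral.integral_add (c0.add c1) c2,
    intervalIntegral.integral_add c0 c1,
    intervalIntegral.integral_const_mul, intervalIntegral.integral_const_mul,
    intervalIntegral.integral_const_mul, intervalIntegral.integral_const_mul,
    intervalIntegral.integral_const_mul, hs2, hs4, int_cos2 hr, int_cos4 hr]
  change A0 * Ic r 0 + _ + _ + _ + _ = _
  unfold Tr
  ring

end Pool.Agent.Helper152.Sam
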