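import Mathlib
import Pool.Agent.Helper152.SamC

open MeasureTheory intervalIntegral Real

namespace Pool.Agent.Helper152.Sam

theorem riemann {r : ℝ} (hr : 0 ≤ r) {w : ℝ → ℝ} (hw : Continuous w) {η : ℝ} (hη : 0 < η) :
    ∃ n : ℕ, 0 < n ∧ ∀ θ : ℝ,
      |∑ j : Fin n, (2 * π / n) * (|cos ((-π + 2 * π / n * j) - θ)| ^ r * w (-π + 2 * π / n * j))
        - ∫ t in (-π)..π, |cos (t - θ)| ^ r * w t| ≤ η := by
  have hpi := Real.pi_pos
  obtain ⟨W, hW⟩ := isCompact_Icc.exists_bound_of_continuousOn (s := Set.Icc (-π) π)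
    (f := w) hw.continuousOn
  have hW0 : 0 ≤ W := by
    have := hW 0 ⟨by linarith, by linarith⟩
    exact (norm_nonneg _).trans this
  set η' : ℝ := η / (2 * π * (W + 1)) with hη'
  have hη'0 : 0 < η' := by positivity
  have u1 : UniformContinuousOn (fun y : ℝ => |y| ^ r) (Set.Icc (-1) 1) :=
    isCompact_Icc.uniformContinuousOn_of_continuous (cont_abs_rpow hr).continuousOn
  have u2 : UniformContinuousOn w (Set.Icc (-π) π) :=
    isCompact_Icc.uniformContinuousOn_of_continuous hw.continuousOn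
  obtain ⟨δ1, hδ1, h1⟩ := Metric.uniformContinuousOn_iff.1 u1 η' hη'0
  obtain ⟨δ2, hδ2, h2⟩ := Metric.uniformContinuousOn_iff.1 u2 η' hη'0
  obtain ⟨n, hn⟩ := exists_nat_gt (2 * π / min δ1 δ2)
  have hmin : 0 < min δ1 δ2 := lt_min hδ1 hδ2
  have hn0' : (0 : ℝ) < n := lt_of_le_of_lt (by positivity) hn
  have hn0 : 0 < n := by exact_mod_cast hn0'
  have hstep : 2 * π / n < min δ1 δ2 := by
    rw [div_lt_iff₀ hn0']
    rw [div_lt_iff₀ hmin] at hn
    linarith
  refine ⟨n, hn0, fun θ => ?_⟩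
  set h : ℝ := 2 * π / n with hh
  have hh0 : 0 < h := by positivity
  have hnh : n * h = 2 * π := by rw [hh]; field_simp
  set T : ℕ → ℝ := fun j => -π + h * j with hT
  set Φ : ℝ → ℝ := fun t => |cos (t - θ)| ^ r * w t with hΦ
  have hΦc : Continuous Φ := by
    have : Continuous fun t : ℝ => |cos (t - θ)| ^ r :=
      (cont_abs_rpow hr).comp (Real.continuous_cos.comp (continuous_id.sub continuous_const))
    exact this.mul hw
  have hsum : ∑ j ∈ Finset.range n, ∫ t in (T j)..(T (j + 1)), Φ t = ∫ t in (-π)..π, Φ t := by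
    rw [intervalIntegral.sum_integral_adjacent_intervals]
    · simp only [hT]
      congr 1
      · simp
      · rw [mul_comm, hnh]; ring
    · intro k _
      exact hΦc.intervalIntegrable _ _
  have hcell : ∀ j ∈ Finset.range n, |h * Φ (T j) - ∫ t in (T j)..(T (j + 1)), Φ t|
      ≤ h * ((W + 1) * η') := by
    intro j hj
    have hjn : (j : ℝ) + 1 ≤ n := by exact_mod_cast Finset.mem_range.1 hj
    have hTj : T j ∈ Set.Icc (-π) π := by
      refine ⟨?_, ?_⟩
      · simp only [hT]; nlinarith [(Nat.cast_nonneg j : (0 : ℝ) ≤ j)]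
      · simp only [hT]; nlinarith
    have hlen : T (j + 1) - T j = h := by simp only [hT]; push_cast; ring
    have e1 : h * Φ (T j) = ∫ t in (T j)..(T (j + 1)), Φ (T j) := by
      rw [intervalIntegral.integral_const, hlen, smul_eq_mul]
    rw [e1, ← intervalIntegral.integral_sub (Continuous.intervalIntegrable (by fun_prop) _ _)
      (hΦc.intervalIntegrable _ _)]
    have hb : ∀ t ∈ Set.uIoc (T j) (T (j + 1)), ‖Φ (T j) - Φ t‖ ≤ (W + 1) * η' := by
      intro t ht
      rw [Set.uIoc_of_le (by linarith)] at ht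
      have ht1 : t ∈ Set.Icc (-π) π := by
        refine ⟨by linarith [hTj.1, ht.1], ht.2.trans ?_⟩
        simp only [hT]; push_cast; nlinarith
      have hdist : |T j - t| < min δ1 δ2 := by
        rw [abs_sub_comm, abs_of_pos (by linarith [ht.1])]
        linarith [ht.2]
      have hcos : |cos (T j - θ) - cos (t - θ)| < δ1 := by
        have := Real.abs_cos_sub_cos_le (T j - θ) (t - θ)
        rw [show T j - θ - (t - θ) = T j - t by ring] at this
        exact this.trans_lt (hdist.trans_le (min_le_left _ _))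
      have b1 := h1 (cos (T j - θ)) ⟨Real.neg_one_le_cos _, Real.cos_le_one _⟩
        (cos (t - θ)) ⟨Real.neg_one_le_cos _, Real.cos_le_one _⟩ (by rw [Real.dist_eq]; exact hcos)
      have b2 := h2 (T j) hTj t ht1 (by
        rw [Real.dist_eq]; exact hdist.trans_le (min_le_right _ _))
      rw [Real.dist_eq] at b1 b2
      have b3 : |cos (t - θ)| ^ r ≤ 1 := Real.rpow_le_one (abs_nonneg _) (Real.abs_cos_le_one _) hr
      have b4 : 0 ≤ |cos (t - θ)| ^ r := by positivity
      have b5 : |w (T j)| ≤ W := hW _ hTj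
      rw [Real.norm_eq_abs]
      have e2 : Φ (T j) - Φ t = (|cos (T j - θ)| ^ r - |cos (t - θ)| ^ r) * w (T j)
          + |cos (t - θ)| ^ r * (w (T j) - w t) := by
        simp only [hΦ]; ring
      rw [e2]
      refine (abs_add_le _ _).trans ?_
      rw [abs_mul, abs_mul, abs_of_nonneg b4]
      have c1 : |(|cos (T j - θ)| ^ r - |cos (t - θ)| ^ r)| * |w (T j)| ≤ η' * W :=
        mul_le_mul b1.le b5 (abs_nonneg _) hη'0.le
      have c2 : |cos (t - θ)| ^ r * |w (T j) - w t| ≤ 1 * η' :=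
        mul_le_mul b3 b2.le (abs_nonneg _) zero_le_one
      linarith
    have := intervalIntegral.norm_integral_le_of_norm_le_const hb
    rw [Real.norm_eq_abs, hlen, abs_of_pos hh0] at this
    linarith
  rw [← hsum, Finset.sum_range, ← Finset.sum_sub_distrib]
  refine (Finset.abs_sum_le_sum_abs _ _).trans ?_
  have : ∀ i : Fin n, |h * (|cos ((-π + h * i) - θ)| ^ r * w (-π + h * i))
      - ∫ t in (T i)..(T (i + 1)), Φ t| ≤ h * ((W + 1) * η') := fun i =>
    hcell i (Finset.mem_range.2 i.2)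
  refine (Finset.sum_le_sum fun i _ => this i).trans ?_
  rw [Finset.sum_const, Finset.card_univ, Fintype.card_fin, nsmul_eq_mul, ← mul_assoc, hnh, hη']
  have : 0 < W + 1 := by linarith
  rw [le_iff_eq_or_lt]; left
  field_simp

theorem represent {r : ℝ} (hr : 2 < r) (A0 A1 B1 A2 B2 : ℝ) :
    ∃ κ0 : ℝ, 0 < κ0 ∧ ∀ κ : ℝ, 0 ≤ κ → κ ≤ κ0 → ∀ η : ℝ, 0 < η →
      ∃ (m : ℕ) (v : Fin m → ℝ × ℝ), ∀ θ : ℝ,
        |∑ j, |cos θ * (v j).1 + sin θ * (v j).2| ^ r - (1 + κ * Tr A0 A1 B1 A2 B2 θ)| ≤ η := by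
  set l1 : ℝ := r / (r + 2) with hl1
  set l2 : ℝ := r * (r - 2) / ((r + 2) * (r + 4)) with hl2
  have hr2 : 0 < r - 2 := by linarith
  have hr0 : 0 < r := by linarith
  have hl1p : 0 < l1 := by positivity
  have hl2p : 0 < l2 := by positivity
  set C : ℝ := |A0| + |A1 / l1| + |B1 / l1| + |A2 / l2| + |B2 / l2| with hC
  have hC0 : 0 ≤ C := by positivity
  refine ⟨1 / (C + 1), by positivity, fun κ hκ hκ1 η hη => ?_⟩
  set I := Ic r 0 with hI
  have hIp : 0 < I := Ic_zero_pos (by linarith)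
  set w : ℝ → ℝ := fun t => (1 + κ * Tr A0 (A1 / l1) (B1 / l1) (A2 / l2) (B2 / l2) t) / I with hw
  have hwc : Continuous w := by
    have := Tr_continuous A0 (A1 / l1) (B1 / l1) (A2 / l2) (B2 / l2)
    fun_prop
  have hw0 : ∀ t, 0 ≤ w t := by
    intro t
    have h1 := Tr_bound A0 (A1 / l1) (B1 / l1) (A2 / l2) (B2 / l2) t
    rw [← hC] at h1
    have h2 : κ * C ≤ 1 := by
      rw [le_div_iff₀ (by positivity)] at hκ1
      nlinarith
    have h3 : -(κ * C) ≤ κ * Tr A0 (A1 / l1) (B1 / l1) (A2 / l2) (B2 / l2) t := by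
      have := mul_le_mul_of_nonneg_left (abs_le.1 h1).1 hκ
      linarith
    simp only [hw]
    apply div_nonneg _ hIp.le
    linarith
  obtain ⟨n, hn, hR⟩ := riemann (r := r) (by linarith) hwc hη
  refine ⟨n, fun j => (((2 * π / n) * w (-π + 2 * π / n * j)) ^ (1 / r) * cos (-π + 2 * π / n * j),
    ((2 * π / n) * w (-π + 2 * π / n * j)) ^ (1 / r) * sin (-π + 2 * π / n * j)), fun θ => ?_⟩
  have hint : ∫ t in (-π)..π, |cos (t - θ)| ^ r * w t = 1 + κ * Tr A0 A1 B1 A2 B2 θ := by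
    have h1 : ∀ t, |cos (t - θ)| ^ r * w t = I⁻¹ * (|cos (t - θ)| ^ r *
        Tr (1 + κ * A0) (κ * (A1 / l1)) (κ * (B1 / l1)) (κ * (A2 / l2)) (κ * (B2 / l2)) t) := by
      intro t
      simp only [hw, Tr]
      field_simp
      ring
    simp_rw [h1]
    rw [intervalIntegral.integral_const_mul, funk (by linarith)]
    rw [← hl1, ← hl2, ← hI, ← mul_assoc, inv_mul_cancel₀ hIp.ne', one_mul]
    unfold Tr
    field_simp
    ring
  have hR' := hR θ
  rw [hint] at hR'
  convert hR' using 3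
  refine Finset.sum_congr rfl fun j _ => ?_
  set t := -π + 2 * π / n * (j : ℝ) with ht
  have hq : 0 ≤ (2 * π / n) * w t := mul_nonneg (by positivity) (hw0 t)
  have e1 : cos θ * (((2 * π / n) * w t) ^ (1 / r) * cos t) + sin θ * (((2 * π / n) * w t) ^ (1 / r)
      * sin t) = ((2 * π / n) * w t) ^ (1 / r) * cos (t - θ) := by
    rw [Real.cos_sub]; ring
  rw [e1, abs_mul, abs_of_nonneg (Real.rpow_nonneg hq _),
    Real.mul_rpow (Real.rpow_nonneg hq _) (abs_nonneg _), ← Real.rpow_mul hq,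
    one_div_mul_cancel hr0.ne', Real.rpow_one]
  ring

end Pool.Agent.Helper152.Sam
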