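import Mathlib
import Pool.Agent.Helper152.SamD

open Asymptotics Filter Topology Real

namespace Pool.Agent.Helper152.Sam


theorem ring_choose_two (a : ℝ) : Ring.choose a 2 = a * (a - 1) / 2 := by
  rw [Ring.choose_eq_smul]
  simp only [descPochhammer_succ_right, descPochhammer_zero, Polynomial.smeval_mul, Polynomial.smeval_sub, Polynomial.smeval_X, Polynomial.smeval_natCast, Polynomial.smeval_one]
  simp [Nat.factorial]
  ring

theorem ring_choose_three (a : ℝ) : Ring.choose a 3 = a * (a - 1) * (a - 2) / 6 := by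
  rw [Ring.choose_eq_smul]
  simp only [descPochhammer_succ_right, descPochhammer_zero, Polynomial.smeval_mul, Polynomial.smeval_sub, Polynomial.smeval_X, Polynomial.smeval_natCast, Polynomial.smeval_one]
  simp [Nat.factorial]
  ring

theorem expand4 (a : ℝ) : ∃ C δ : ℝ, 0 < C ∧ 0 < δ ∧ ∀ y : ℝ, |y| < δ →
    |(1 + y) ^ a - (1 + a * y + a * (a - 1) / 2 * y ^ 2 + a * (a - 1) * (a - 2) / 6 * y ^ 3)|
      ≤ C * y ^ 4 := by
  have h := (Real.one_add_rpow_hasFPowerSeriesAt_zero (a := a)).isBigO_sub_partialSum_pow 4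
  simp only [zero_add] at h
  obtain ⟨C, hC⟩ := h.bound
  obtain ⟨δ, hδ, hb⟩ := Metric.eventually_nhds_iff.1 hC
  refine ⟨|C| + 1, δ, by positivity, hδ, fun y hy => ?_⟩
  have h1 := hb (show dist y 0 < δ by simpa using hy)
  have h2 : (binomialSeries ℝ a).partialSum 4 y =
      1 + a * y + a * (a - 1) / 2 * y ^ 2 + a * (a - 1) * (a - 2) / 6 * y ^ 3 := by
    simp only [FormalMultilinearSeries.partialSum, Finset.sum_range_succ, Finset.sum_range_zero,
      binomialSeries_apply]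
    simp [ring_choose_two, ring_choose_three]
    ring
  rw [h2] at h1
  rw [Real.norm_eq_abs] at h1
  refine h1.trans ?_
  have h3 : ‖‖y‖ ^ 4‖ = y ^ 4 := by
    rw [Real.norm_eq_abs, Real.norm_eq_abs]
    rw [abs_of_nonneg (by positivity)]
    exact Even.pow_abs (by decide) y
  rw [h3]
  have : 0 ≤ y ^ 4 := by positivity
  nlinarith [le_abs_self C]


theorem Dfun_deriv {t : ℝ} (ht : 0 < t) :
    HasDerivAt (fun t : ℝ => 2 * log t + 1 / (6 * t ^ 2) + 2 - 8 / 3 * t + t ^ 2 / 2)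
      ((t - 1) ^ 3 * (3 * t + 1) / (3 * t ^ 3)) t := by
  have h1 : HasDerivAt (fun t : ℝ => 2 * log t) (2 * t⁻¹) t :=
    (Real.hasDerivAt_log ht.ne').const_mul 2
  have h2 : HasDerivAt (fun t : ℝ => 6 * t ^ 2) (6 * (2 * t)) t := by
    have := (hasDerivAt_pow 2 t).const_mul 6
    simpa using this
  have h3 : HasDerivAt (fun t : ℝ => 1 / (6 * t ^ 2)) (-(6 * (2 * t)) / (6 * t ^ 2) ^ 2) t := by
    have := (hasDerivAt_const t (1 : ℝ)).fun_div h2 (by positivity)
    have e : -(6 * (2 * t)) / (6 * t ^ 2) ^ 2 = (0 * (6 * t ^ 2) - 1 * (6 * (2 * t))) / (6 * t ^ 2) ^ 2 := by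
      ring
    rw [e]
    exact this
  have h4 : HasDerivAt (fun t : ℝ => 8 / 3 * t) (8 / 3) t := by
    simpa using (hasDerivAt_id t).const_mul (8 / 3 : ℝ)
  have h5 : HasDerivAt (fun t : ℝ => t ^ 2 / 2) (2 * t / 2) t := by
    have := (hasDerivAt_pow 2 t).div_const 2
    simpa using this
  have h := (((h1.fun_add h3).add_const 2).fun_sub h4).fun_add h5
  have e : (t - 1) ^ 3 * (3 * t + 1) / (3 * t ^ 3) =
      2 * t⁻¹ + -(6 * (2 * t)) / (6 * t ^ 2) ^ 2 - 8 / 3 + 2 * t / 2 := by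
    field_simp
    ring
  rw [e]
  exact h

theorem Dfun_nonneg {t : ℝ} (ht : 0 < t) :
    0 ≤ 2 * log t + 1 / (6 * t ^ 2) + 2 - 8 / 3 * t + t ^ 2 / 2 := by
  set D : ℝ → ℝ := fun t => 2 * log t + 1 / (6 * t ^ 2) + 2 - 8 / 3 * t + t ^ 2 / 2 with hD
  have hD1 : D 1 = 0 := by simp only [hD, Real.log_one]; norm_num
  change 0 ≤ D t
  rcases le_total t 1 with h | h
  · have hanti : AntitoneOn D (Set.Ioc 0 1) := by
      apply antitoneOn_of_deriv_nonpos (convex_Ioc 0 1)
      · intro x hx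
        exact (Dfun_deriv hx.1).continuousAt.continuousWithinAt
      · intro x hx
        rw [interior_Ioc] at hx
        exact (Dfun_deriv hx.1).differentiableAt.differentiableWithinAt
      · intro x hx
        rw [interior_Ioc] at hx
        rw [(Dfun_deriv hx.1).deriv]
        apply div_nonpos_of_nonpos_of_nonneg
        · apply mul_nonpos_of_nonpos_of_nonneg
          · exact Odd.pow_nonpos (by decide) (by linarith [hx.2])
          · linarith [hx.1]
        · have := hx.1; positivity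
    have := hanti ⟨ht, h⟩ ⟨zero_lt_one, le_rfl⟩ h
    rw [hD1] at this
    exact this
  · have hmono : MonotoneOn D (Set.Ici 1) := by
      apply monotoneOn_of_deriv_nonneg (convex_Ici 1)
      · intro x hx
        exact (Dfun_deriv (lt_of_lt_of_le zero_lt_one hx)).continuousAt.continuousWithinAt
      · intro x hx
        rw [interior_Ici] at hx
        exact (Dfun_deriv (lt_trans zero_lt_one hx)).differentiableAt.differentiableWithinAt
      · intro x hx
        rw [interior_Ici] at hx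
        have hx0 : 0 < x := lt_trans zero_lt_one hx
        have hx1 : 0 < x - 1 := by linarith [show (1 : ℝ) < x from hx]
        rw [(Dfun_deriv hx0).deriv]
        positivity
    have := hmono (Set.mem_Ici.2 le_rfl) (Set.mem_Ici.2 h) h
    rw [hD1] at this
    exact this

theorem log_quartic (t : ℝ) :
    -1 / 6 - 2 * t ^ 2 + 8 / 3 * |t| ^ 3 - 1 / 2 * t ^ 4 ≤ t ^ 2 * log (t ^ 2) := by
  rcases eq_or_ne t 0 with h | h
  · subst h; norm_num
  · have h0 : 0 < |t| := abs_pos.2 h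
    have h1 := Dfun_nonneg h0
    have h2 : log (t ^ 2) = 2 * log |t| := by
      rw [← sq_abs, Real.log_pow]; norm_num
    rw [h2]
    have h3 : t ^ 2 = |t| ^ 2 := (sq_abs t).symm
    have h4 : t ^ 4 = |t| ^ 4 := (Even.pow_abs (by decide) t).symm
    rw [h3, h4]
    have h5 : 0 ≤ |t| ^ 2 * (2 * log |t| + 1 / (6 * |t| ^ 2) + 2 - 8 / 3 * |t| + |t| ^ 2 / 2) :=
      mul_nonneg (by positivity) h1
    have h6 : |t| ^ 2 * (2 * log |t| + 1 / (6 * |t| ^ 2) + 2 - 8 / 3 * |t| + |t| ^ 2 / 2)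
        = |t| ^ 2 * (2 * log |t|) + 1 / 6 + 2 * |t| ^ 2 - 8 / 3 * |t| ^ 3 + 1 / 2 * |t| ^ 4 := by
      field_simp
    rw [h6] at h5
    linarith

/-- binary entropy with the sign changed, in terms of the two masses -/
noncomputable def hh (a b : ℝ) : ℝ := a * log a + b * log b

/-- the value at the unit vector `(c, x)` of the quartic form used for the positive operator -/
noncomputable def Psi (τ c x : ℝ) : ℝ :=
  -τ / 6 - 2 * x ^ 2 + 8 / 3 * (x ^ 3 * c) / √τ - x ^ 4 / (2 * τ) + x ^ 2 * (log τ - 1)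

theorem xlogx_ge {y : ℝ} (hy : 0 ≤ y) : y - 1 ≤ y * log y := by
  rcases hy.eq_or_lt with h | h
  · rw [← h]; norm_num
  · have := Real.one_sub_inv_le_log_of_pos h
    have h2 := mul_le_mul_of_nonneg_left this hy
    rw [mul_sub, mul_inv_cancel₀ h.ne', mul_one] at h2
    exact h2

theorem Psi_le {τ c x : ℝ} (hτ : 0 < τ) (h : c ^ 2 + x ^ 2 = 1) :
    Psi τ c x ≤ hh (c ^ 2) (x ^ 2) := by
  set w : ℝ := √τ with hw
  have hw0 : 0 < w := Real.sqrt_pos.2 hτ
  have hw2 : w ^ 2 = τ := Real.sq_sqrt hτ.le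
  have h1 := log_quartic (x / w)
  have h2 := xlogx_ge (sq_nonneg c)
  have hc1 : |c| ≤ 1 := by
    rw [← sq_le_one_iff_abs_le_one]; nlinarith [sq_nonneg x]
  have hx3 : x ^ 3 * c ≤ |x| ^ 3 := by
    calc x ^ 3 * c ≤ |x ^ 3 * c| := le_abs_self _
      _ = |x| ^ 3 * |c| := by rw [abs_mul, abs_pow]
      _ ≤ |x| ^ 3 * 1 := by gcongr
      _ = _ := mul_one _
  -- main part
  have h3 : τ * (-1 / 6 - 2 * (x / w) ^ 2 + 8 / 3 * |x / w| ^ 3 - 1 / 2 * (x / w) ^ 4)
      ≤ x ^ 2 * log (x ^ 2) - x ^ 2 * log τ := by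
    have h4 := mul_le_mul_of_nonneg_left h1 hτ.le
    refine h4.trans (le_of_eq ?_)
    rcases eq_or_ne x 0 with h0 | h0
    · subst h0; simp
    · rw [div_pow, hw2, Real.log_div (by positivity) hτ.ne']
      field_simp
  have h5 : τ * (-1 / 6 - 2 * (x / w) ^ 2 + 8 / 3 * |x / w| ^ 3 - 1 / 2 * (x / w) ^ 4)
      = -τ / 6 - 2 * x ^ 2 + 8 / 3 * |x| ^ 3 / w - x ^ 4 / (2 * τ) := by
    rw [abs_div, abs_of_pos hw0, div_pow, div_pow, div_pow]
    have hw4 : w ^ 4 = τ ^ 2 := by rw [← hw2]; ring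
    have hw3 : w ^ 3 = τ * w := by rw [← hw2]; ring
    rw [hw2, hw4, hw3]
    field_simp
  rw [h5] at h3
  have h6 : 8 / 3 * (x ^ 3 * c) / w ≤ 8 / 3 * |x| ^ 3 / w := by
    gcongr
  unfold Psi hh
  rw [← hw]
  have h7 : x ^ 2 * (log τ - 1) = x ^ 2 * log τ - x ^ 2 := by ring
  rw [h7]
  nlinarith

end Pool.Agent.Helper152.Sam
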