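import Mathlib
import Pool.Agent.Helper152.SamE

open Real

namespace Pool.Agent.Helper152.Sam

theorem kineq {ρ η : ℝ} (hρ : 1 < ρ) (hη0 : 0 < η) (hη : 2 - ρ < η) (hη1 : η < 1) :
    ∃ s0 τ0 : ℝ, 0 < s0 ∧ 0 < τ0 ∧ s0 ≤ 1 / 8 ∧ τ0 ≤ 1 / 2 ∧ ∀ s τ u : ℝ, 0 < s → s < s0 →
      0 < τ → τ < τ0 → -(2 * τ * s) ≤ u → u ≤ s →
      (1 - η * s) * (1 - u) ^ ρ + (3 - η * s) * (1 + u) ^ ρ ≤
        (3 - 2 * (η * s)) + (1 + 2 * u) ^ ρ := by
  obtain ⟨C, δ, hC, hδ, hexp⟩ := expand4 ρ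
  set β : ℝ := ρ * (ρ - 1) with hβ
  have hβ0 : 0 < β := mul_pos (by linarith) (by linarith)
  set m : ℝ := min η (η + ρ - 2) with hm
  have hm0 : 0 < m := lt_min hη0 (by linarith)
  have hmη : m ≤ η := min_le_left _ _
  have hm2 : m ≤ η + ρ - 2 := min_le_right _ _
  refine ⟨min (min (1 / 8) (δ / 2)) (β * m / (20 * C)),
    min (min (1 / 2) (η / (4 * (|ρ - 2| + 1)))) (β * η / (160 * C)), ?_, ?_, ?_, ?_, ?_⟩
  · apply lt_min (lt_min (by norm_num) (by positivity)) (by positivity)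
  · apply lt_min (lt_min (by norm_num) (by positivity)) (by positivity)
  · exact (min_le_left _ _).trans (min_le_left _ _)
  · exact (min_le_left _ _).trans (min_le_left _ _)
  intro s τ u hs hs0 hτ hτ0 hu1 hu2
  have a1 : s < 1 / 8 := hs0.trans_le ((min_le_left _ _).trans (min_le_left _ _))
  have a2 : s < δ / 2 := hs0.trans_le ((min_le_left _ _).trans (min_le_right _ _))
  have a3 : s < β * m / (20 * C) := hs0.trans_le (min_le_right _ _)
  have b1 : τ < 1 / 2 := hτ0.trans_le ((min_le_left _ _).trans (min_le_left _ _))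
  have b2 : τ < η / (4 * (|ρ - 2| + 1)) := hτ0.trans_le ((min_le_left _ _).trans (min_le_right _ _))
  have b3 : τ < β * η / (160 * C) := hτ0.trans_le (min_le_right _ _)
  rw [lt_div_iff₀ (by positivity)] at a3 b2 b3
  have hts : 2 * τ * s ≤ s := by nlinarith
  have hu3 : |u| ≤ s := abs_le.2 ⟨by linarith, hu2⟩
  have e1 := hexp u (by linarith)
  have e2 := hexp (-u) (by rw [abs_neg]; linarith)
  have e3 := hexp (2 * u) (by rw [abs_mul, abs_two]; linarith)
  rw [abs_le] at e1 e2 e3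
  have e1' := e1.2
  have e2' := e2.2
  have e3' := e3.1
  rw [show (1 : ℝ) + -u = 1 - u by ring] at e2'
  have hηs : η * s < 1 := by nlinarith
  have hηs0 : 0 < η * s := by positivity
  have f1 := mul_le_mul_of_nonneg_left e1' (show 0 ≤ 3 - η * s by linarith)
  have f2 := mul_le_mul_of_nonneg_left e2' (show 0 ≤ 1 - η * s by linarith)
  -- the main estimate
  have hmain : 0 ≤ β * (η * s + (ρ - 2) * u) - 20 * C * u ^ 2 := by
    rcases le_total 0 u with h | h
    · have g1 : m * s ≤ η * s + (ρ - 2) * u := by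
        rcases le_total 2 ρ with h2 | h2
        · nlinarith [mul_nonneg (sub_nonneg.2 h2) h]
        · nlinarith [mul_nonneg (sub_nonneg.2 h2) (sub_nonneg.2 hu2)]
      have g2 : u ^ 2 ≤ s ^ 2 := by nlinarith
      have g3 : 20 * C * u ^ 2 ≤ 20 * C * s ^ 2 := by
        apply mul_le_mul_of_nonneg_left g2 (by positivity)
      have g4 : β * (m * s) ≤ β * (η * s + (ρ - 2) * u) := mul_le_mul_of_nonneg_left g1 hβ0.le
      nlinarith
    · have g0 : -u ≤ 2 * τ * s := by linarith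
      have g1 : -(|ρ - 2| * (2 * τ * s)) ≤ (ρ - 2) * u := by
        have : |(ρ - 2) * u| ≤ |ρ - 2| * (2 * τ * s) := by
          rw [abs_mul]
          apply mul_le_mul_of_nonneg_left _ (abs_nonneg _)
          rw [abs_of_nonpos h]; exact g0
        exact (abs_le.1 this).1
      have g2 : η / 2 * s ≤ η * s + (ρ - 2) * u := by
        have : |ρ - 2| * (2 * τ * s) ≤ η / 2 * s := by
          have : |ρ - 2| * (2 * τ) ≤ η / 2 := by nlinarith [abs_nonneg (ρ - 2)]
          nlinarith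
        linarith
      have g3 : u ^ 2 ≤ (2 * τ * s) ^ 2 := by nlinarith
      have g4 : β * (η / 2 * s) ≤ β * (η * s + (ρ - 2) * u) := mul_le_mul_of_nonneg_left g2 hβ0.le
      have g5 : 20 * C * u ^ 2 ≤ 20 * C * (2 * τ * s) ^ 2 := by
        apply mul_le_mul_of_nonneg_left g3 (by positivity)
      have g6 : 20 * C * (2 * τ * s) ^ 2 ≤ β * (η / 2 * s) := by
        have h7 : τ * s ≤ 1 := by nlinarith
        have h8 : 20 * C * (2 * τ * s) ^ 2 = (80 * (C * τ) * s) * (τ * s) := by ring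
        rw [h8]
        have h9 : (80 * (C * τ) * s) * (τ * s) ≤ (80 * (C * τ) * s) * 1 := by
          apply mul_le_mul_of_nonneg_left h7 (by positivity)
        have h10 : 80 * (C * τ) ≤ β * (η / 2) := by linarith
        nlinarith
      linarith
  have hu2nn : 0 ≤ u ^ 2 := sq_nonneg u
  have hfin := mul_nonneg hu2nn hmain
  have hu4 : 0 ≤ u ^ 4 := by positivity
  have hCe : 0 ≤ C * u ^ 4 * (2 * (η * s)) := by positivity
  simp only [hβ] at hfin
  linarith [f1, f2, e3', hfin, hCe]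

theorem pcert {ρ η : ℝ} (hρ : 1 < ρ) (hη0 : 0 < η) (hη : 2 - ρ < η) (hη1 : η < 1) :
    ∃ s0 τ0 : ℝ, 0 < s0 ∧ 0 < τ0 ∧ s0 ≤ 1 / 8 ∧ τ0 ≤ 1 / 2 ∧ ∀ s τ X Y : ℝ, 0 < s → s < s0 →
      0 < τ → τ < τ0 → 0 ≤ X → 0 ≤ Y →
      (1 - η * s) * (X * (1 - τ * (1 - s)) + Y * (τ * (1 - s))) ^ ρ +
        (3 - η * s) * (X * (1 - τ * (1 + s)) + Y * (τ * (1 + s))) ^ ρ ≤
        (3 - 2 * (η * s)) * (X * (1 - τ) + Y * τ) ^ ρ +
          (X * (1 - τ * (1 + 2 * s)) + Y * (τ * (1 + 2 * s))) ^ ρ := by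
  obtain ⟨s0, τ0, hs0, hτ0, hs08, hτ02, hK⟩ := kineq hρ hη0 hη hη1
  refine ⟨s0, τ0, hs0, hτ0, hs08, hτ02, ?_⟩
  intro s τ X Y hs hs1 hτ hτ1 hX hY
  set y : ℝ := X * (1 - τ) + Y * τ with hy
  set d : ℝ := (Y - X) * τ * s with hd
  have e1 : X * (1 - τ * (1 - s)) + Y * (τ * (1 - s)) = y - d := by rw [hy, hd]; ring
  have e2 : X * (1 - τ * (1 + s)) + Y * (τ * (1 + s)) = y + d := by rw [hy, hd]; ring
  have e3 : X * (1 - τ * (1 + 2 * s)) + Y * (τ * (1 + 2 * s)) = y + 2 * d := by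
    rw [hy, hd]; ring
  rw [e1, e2, e3]
  have hτ12 : τ < 1 / 2 := hτ1.trans_le hτ02
  have hs18 : s < 1 / 8 := hs1.trans_le hs08
  have hy0 : 0 ≤ y := by
    rw [hy]
    have : 0 ≤ X * (1 - τ) := mul_nonneg hX (by linarith)
    positivity
  rcases hy0.eq_or_lt with h0 | hpos
  · have hX0 : X * (1 - τ) = 0 := by
      have h1 : 0 ≤ X * (1 - τ) := mul_nonneg hX (by linarith)
      have h2 : 0 ≤ Y * τ := by positivity
      linarith
    have hY0 : Y * τ = 0 := by linarith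
    have hX1 : X = 0 := by
      rcases mul_eq_zero.1 hX0 with h | h
      · exact h
      · linarith
    have hY1 : Y = 0 := by
      rcases mul_eq_zero.1 hY0 with h | h
      · exact h
      · linarith
    have hd0 : d = 0 := by rw [hd, hX1, hY1]; ring
    rw [← h0, hd0]
    simp [show ρ ≠ 0 by linarith]
  · have hu1 : -(2 * τ * s) ≤ d / y := by
      rw [le_div_iff₀ hpos, hd, hy]
      have h1 : 0 ≤ τ * s := by positivity
      have h2 : 0 ≤ X * (1 - 2 * τ) := mul_nonneg hX (by linarith)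
      have h3 : 0 ≤ Y * (1 + 2 * τ) := by positivity
      nlinarith [mul_nonneg h1 h2, mul_nonneg h1 h3]
    have hu2 : d / y ≤ s := by
      rw [div_le_iff₀ hpos, hd, hy]
      nlinarith [mul_nonneg hs.le hX]
    have hts : 2 * τ * s ≤ s := by nlinarith
    have h := hK s τ (d / y) hs hs1 hτ hτ1 hu1 hu2
    have c1 : y - d = y * (1 - d / y) := by field_simp
    have c2 : y + d = y * (1 + d / y) := by field_simp
    have c3 : y + 2 * d = y * (1 + 2 * (d / y)) := by field_simp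
    rw [c1, c2, c3, Real.mul_rpow hy0 (by linarith), Real.mul_rpow hy0 (by linarith),
      Real.mul_rpow hy0 (by linarith)]
    have hyr : 0 ≤ y ^ ρ := by positivity
    have := mul_le_mul_of_nonneg_left h hyr
    linarith

end Pool.Agent.Helper152.Sam
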