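import Mathlib
import Pool.Agent.Helper152.SamF

open Real

namespace Pool.Agent.Helper152.Sam

/-- the quartic minorant of `Z log Z` in the variable `Z` -/
noncomputable def qh (Z : ℝ) : ℝ := -1 / 6 - 2 * Z + 8 / 3 * (Z * √Z) - Z ^ 2 / 2

theorem mul_sqrt_eq {Z : ℝ} (hZ : 0 ≤ Z) : Z * √Z = Z ^ (3 / 2 : ℝ) := by
  rcases hZ.eq_or_lt with h | h
  · rw [← h]; simp
  · rw [Real.sqrt_eq_rpow]
    nth_rewrite 1 [← Real.rpow_one Z]
    rw [← Real.rpow_add h]
    norm_num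

theorem one_add_mul_log_le {y : ℝ} (hy : 0 ≤ y) :
    (1 + y) * log (1 + y) ≤ y + y ^ 2 / 2 - y ^ 3 / 6 + y ^ 4 / 3 := by
  have h1 : log (1 + y) ≤ y - y ^ 2 / 2 + y ^ 3 / 3 := by
    set f : ℝ → ℝ := fun t => t - t ^ 2 / 2 + t ^ 3 / 3 - log (1 + t) with hf
    have hd : ∀ t : ℝ, 0 ≤ t → HasDerivAt f (1 - t + t ^ 2 - (1 + t)⁻¹) t := by
      intro t ht
      have e1 : HasDerivAt (fun t : ℝ => t ^ 2 / 2) (2 * t / 2) t := by
        have := (hasDerivAt_pow 2 t).div_const 2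
        simpa using this
      have e2 : HasDerivAt (fun t : ℝ => t ^ 3 / 3) (3 * t ^ 2 / 3) t := by
        have := (hasDerivAt_pow 3 t).div_const 3
        simpa using this
      have e3 : HasDerivAt (fun t : ℝ => log (1 + t)) ((1 + t)⁻¹) t := by
        have h0 : HasDerivAt (fun t : ℝ => 1 + t) 1 t := (hasDerivAt_id' t).const_add 1
        have := h0.log (by linarith : (1 : ℝ) + t ≠ 0)
        simpa using this
      have := (((hasDerivAt_id' t).fun_sub e1).fun_add e2).fun_sub e3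
      have e4 : 1 - t + t ^ 2 - (1 + t)⁻¹ = 1 - 2 * t / 2 + 3 * t ^ 2 / 3 - (1 + t)⁻¹ := by ring
      rw [e4]
      exact this
    have hmono : MonotoneOn f (Set.Ici 0) := by
      apply monotoneOn_of_deriv_nonneg (convex_Ici 0)
      · intro x hx; exact (hd x hx).continuousAt.continuousWithinAt
      · intro x hx
        rw [interior_Ici] at hx
        exact (hd x (le_of_lt hx)).differentiableAt.differentiableWithinAt
      · intro x hx
        rw [interior_Ici] at hx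
        have hx0 : 0 < x := hx
        rw [(hd x hx0.le).deriv]
        have : 1 - x + x ^ 2 - (1 + x)⁻¹ = x ^ 3 / (1 + x) := by
          field_simp; ring
        rw [this]; positivity
    have := hmono (Set.mem_Ici.2 le_rfl) (Set.mem_Ici.2 hy) hy
    simp only [hf] at this
    norm_num at this
    linarith
  have h2 := mul_le_mul_of_nonneg_left h1 (by linarith : 0 ≤ 1 + y)
  nlinarith

theorem gap_s {η : ℝ} (hη0 : 0 < η) (hη1 : η < 1) : ∃ s1 : ℝ, 0 < s1 ∧ ∀ s, 0 < s → s < s1 →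
    0 < (1 - η * s) * qh (1 - s) + (3 - η * s) * qh (1 + s) - (1 + 2 * s) * log (1 + 2 * s) := by
  obtain ⟨C, δ, hC, hδ, hexp⟩ := expand4 (3 / 2)
  refine ⟨min (min (1 / 2) δ) ((1 - η) / (16 * C + 8)), ?_, ?_⟩
  · apply lt_min (lt_min (by norm_num) hδ)
    apply div_pos (by linarith) (by positivity)
  intro s hs hs1
  have a1 : s < 1 / 2 := hs1.trans_le ((min_le_left _ _).trans (min_le_left _ _))
  have a2 : s < δ := hs1.trans_le ((min_le_left _ _).trans (min_le_right _ _))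
  have a3 : s < (1 - η) / (16 * C + 8) := hs1.trans_le (min_le_right _ _)
  rw [lt_div_iff₀ (by positivity)] at a3
  have e1 := (abs_le.1 (hexp s (by rw [abs_of_pos hs]; exact a2))).1
  have e2 := (abs_le.1 (hexp (-s) (by rw [abs_neg, abs_of_pos hs]; exact a2))).1
  rw [show (1 : ℝ) + -s = 1 - s by ring] at e2
  rw [← mul_sqrt_eq (by linarith)] at e1 e2
  have e3 := one_add_mul_log_le (show 0 ≤ 2 * s by linarith)
  have q1 : s + s ^ 2 / 2 - s ^ 3 / 6 - 8 / 3 * C * s ^ 4 ≤ qh (1 + s) := by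
    unfold qh; nlinarith
  have q2 : -s + s ^ 2 / 2 + s ^ 3 / 6 - 8 / 3 * C * s ^ 4 ≤ qh (1 - s) := by
    unfold qh; nlinarith
  have hηs : η * s < 1 := by nlinarith
  have hηs0 : 0 < η * s := by positivity
  have f1 := mul_le_mul_of_nonneg_left q1 (show 0 ≤ 3 - η * s by linarith)
  have f2 := mul_le_mul_of_nonneg_left q2 (show 0 ≤ 1 - η * s by linarith)
  have hs3 : 0 < s ^ 3 := by positivity
  have hkey : 0 < s ^ 3 * ((1 - η) - (16 * C + 8) * s) := by
    apply mul_pos hs3; linarith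
  have hx1 : 0 ≤ C * s ^ 4 * (η * s) := by positivity
  have hx2 : 0 ≤ C * s ^ 4 := by positivity
  have hx3 : 0 ≤ s ^ 4 := by positivity
  nlinarith [f1, f2, e3, hkey, hx1, hx2, hx3]

theorem Psi_row {τ Z : ℝ} (hτ : 0 < τ) (hZ : 0 ≤ Z) :
    Psi τ (√(1 - τ * Z)) (√(τ * Z)) =
      τ * (qh Z - Z + Z * log τ - 8 / 3 * (Z * √Z) * (1 - √(1 - τ * Z))) := by
  set w : ℝ := √τ with hw
  have hw0 : 0 < w := Real.sqrt_pos.2 hτ
  have hw2 : w ^ 2 = τ := Real.sq_sqrt hτ.le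
  set z : ℝ := √Z with hz
  have hz2 : z ^ 2 = Z := Real.sq_sqrt hZ
  have hx : √(τ * Z) = w * z := Real.sqrt_mul hτ.le Z
  unfold Psi qh
  rw [← hw, ← hz, hx]
  set c := √(1 - τ * Z) with hc
  have h1 : 8 / 3 * ((w * z) ^ 3 * c) / w = 8 / 3 * (w ^ 2 * (z ^ 2 * z) * c) := by
    field_simp
  have h2 : (w * z) ^ 4 / (2 * τ) = w ^ 2 * (z ^ 2) ^ 2 / 2 := by
    rw [← hw2]; field_simp
  rw [h1, h2, mul_pow, hw2, hz2]
  ring

theorem hh_le {τ Z : ℝ} (hτ : 0 < τ) (hZ : 0 < Z) (h : τ * Z < 1) :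
    hh (1 - τ * Z) (τ * Z) ≤ τ * (Z * log τ + Z * log Z - Z + τ * Z ^ 2) := by
  unfold hh
  rw [Real.log_mul hτ.ne' hZ.ne']
  have h1 : log (1 - τ * Z) ≤ -(τ * Z) := by
    have := Real.log_le_sub_one_of_pos (show 0 < 1 - τ * Z by linarith)
    linarith
  have h2 := mul_le_mul_of_nonneg_left h1 (show 0 ≤ 1 - τ * Z by linarith)
  nlinarith

theorem one_sub_sqrt_le {y : ℝ} (h0 : 0 ≤ y) (h1 : y ≤ 1) : 1 - √(1 - y) ≤ y := by
  have : 1 - y ≤ √(1 - y) := by
    apply Real.le_sqrt_of_sq_le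
    nlinarith
  linarith

theorem gap_tau {η s : ℝ} (hη0 : 0 < η) (hη1 : η < 1) (hs : 0 < s) (hs1 : s < 1 / 2)
    (hG : 0 < (1 - η * s) * qh (1 - s) + (3 - η * s) * qh (1 + s)
      - (1 + 2 * s) * log (1 + 2 * s)) :
    ∃ τ1 : ℝ, 0 < τ1 ∧ ∀ τ, 0 < τ → τ < τ1 →
      (3 - 2 * (η * s)) * hh (1 - τ * 1) (τ * 1) + hh (1 - τ * (1 + 2 * s)) (τ * (1 + 2 * s)) <
      (1 - η * s) * Psi τ (√(1 - τ * (1 - s))) (√(τ * (1 - s))) +
        (3 - η * s) * Psi τ (√(1 - τ * (1 + s))) (√(τ * (1 + s))) := by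
  set G := (1 - η * s) * qh (1 - s) + (3 - η * s) * qh (1 + s)
      - (1 + 2 * s) * log (1 + 2 * s) with hGdef
  refine ⟨min (1 / 4) (G / 80), lt_min (by norm_num) (by positivity), ?_⟩
  intro τ hτ hτ1
  have t1 : τ < 1 / 4 := hτ1.trans_le (min_le_left _ _)
  have t2 : τ < G / 80 := hτ1.trans_le (min_le_right _ _)
  rw [Psi_row hτ (by linarith), Psi_row hτ (by linarith)]
  have k1 := hh_le hτ one_pos (by linarith)
  have k2 := hh_le (Z := 1 + 2 * s) hτ (by linarith) (by nlinarith)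
  rw [Real.log_one] at k1
  have hηs : η * s < 1 := by nlinarith
  have hηs0 : 0 < η * s := by positivity
  have m1 := one_sub_sqrt_le (y := τ * (1 - s)) (by nlinarith) (by nlinarith)
  have m2 := one_sub_sqrt_le (y := τ * (1 + s)) (by nlinarith) (by nlinarith)
  have sq1 : √(1 - s) ≤ 1 := by
    apply Real.sqrt_le_one.2; linarith
  have sq2 : √(1 + s) ≤ 2 := by
    rw [Real.sqrt_le_left (by norm_num)]; linarith
  have sn1 := Real.sqrt_nonneg (1 - s)
  have sn2 := Real.sqrt_nonneg (1 + s)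
  set r1 := √(1 - s)
  set r2 := √(1 + s)
  have n1 : 8 / 3 * ((1 - s) * r1) * (1 - √(1 - τ * (1 - s))) ≤ 8 / 3 * (1 * 1) * (τ * 1) := by
    apply mul_le_mul
    · apply mul_le_mul_of_nonneg_left _ (by norm_num)
      exact mul_le_mul (by linarith) sq1 sn1 (by norm_num)
    · refine m1.trans ?_
      apply mul_le_mul_of_nonneg_left _ hτ.le; linarith
    · have : √(1 - τ * (1 - s)) ≤ 1 := by
        apply Real.sqrt_le_one.2; nlinarith
      linarith
    · norm_num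
  have n2 : 8 / 3 * ((1 + s) * r2) * (1 - √(1 - τ * (1 + s))) ≤ 8 / 3 * (2 * 2) * (τ * 2) := by
    apply mul_le_mul
    · apply mul_le_mul_of_nonneg_left _ (by norm_num)
      exact mul_le_mul (by linarith) sq2 sn2 (by norm_num)
    · refine m2.trans ?_
      apply mul_le_mul_of_nonneg_left _ hτ.le; linarith
    · have : √(1 - τ * (1 + s)) ≤ 1 := by
        apply Real.sqrt_le_one.2; nlinarith
      linarith
    · norm_num
  set P1 := 8 / 3 * ((1 - s) * r1) * (1 - √(1 - τ * (1 - s)))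
  set P2 := 8 / 3 * ((1 + s) * r2) * (1 - √(1 - τ * (1 + s)))
  have g1 := mul_le_mul_of_nonneg_left k1 (show 0 ≤ 3 - 2 * (η * s) by linarith)
  have p1 : (1 - η * s) * P1 ≤ 8 / 3 * τ := by
    have : (1 - η * s) * P1 ≤ (1 - η * s) * (8 / 3 * (1 * 1) * (τ * 1)) :=
      mul_le_mul_of_nonneg_left n1 (by linarith)
    nlinarith
  have p2 : (3 - η * s) * P2 ≤ 64 * τ := by
    have : (3 - η * s) * P2 ≤ (3 - η * s) * (8 / 3 * (2 * 2) * (τ * 2)) :=
      mul_le_mul_of_nonneg_left n2 (by linarith)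
    nlinarith
  have hfin : 0 < τ * (G - (1 - η * s) * P1 - (3 - η * s) * P2 - (3 - 2 * (η * s)) * τ
      - τ * (1 + 2 * s) ^ 2) := by
    apply mul_pos hτ
    have : (3 - 2 * (η * s)) * τ ≤ 3 * τ := by nlinarith
    have : τ * (1 + 2 * s) ^ 2 ≤ τ * 4 := by
      apply mul_le_mul_of_nonneg_left _ hτ.le
      nlinarith
    linarith
  have hexpand : τ * (G - (1 - η * s) * P1 - (3 - η * s) * P2 - (3 - 2 * (η * s)) * τ
      - τ * (1 + 2 * s) ^ 2) =
      (1 - η * s) * (τ * (qh (1 - s) - (1 - s) + (1 - s) * log τ - P1)) +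
        (3 - η * s) * (τ * (qh (1 + s) - (1 + s) + (1 + s) * log τ - P2))
      - (3 - 2 * (η * s)) * (τ * (1 * log τ + 1 * 0 - 1 + τ * 1 ^ 2))
      - τ * ((1 + 2 * s) * log τ + (1 + 2 * s) * log (1 + 2 * s) - (1 + 2 * s)
        + τ * (1 + 2 * s) ^ 2) := by
    rw [hGdef]; ring
  linarith

end Pool.Agent.Helper152.Sam
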