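import Mathlib
import Pool.Agent.Helper152.SamB
import Pool.Agent.Helper152.SamG

open Real Filter Topology

namespace Pool.Agent.Helper152.Sam

theorem ent_aux {F h q : ℝ} (hF : 0 ≤ F) (hq : 1 ≤ q) :
    exp ((q - 1) * h) * (F + (q - 1) * (F * log F - F * h)) ≤ F ^ q := by
  rcases hF.eq_or_lt with h0 | h0
  · rw [← h0, Real.zero_rpow (by linarith)]; simp
  · have h1 : F ^ q = exp ((q - 1) * h) * (F * exp ((q - 1) * (log F - h))) := by
      rw [Real.rpow_def_of_pos h0]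
      have : F = exp (log F) := (Real.exp_log h0).symm
      nth_rewrite 2 [this]
      rw [← Real.exp_add, ← Real.exp_add]
      congr 1
      ring
    rw [h1]
    apply mul_le_mul_of_nonneg_left _ (Real.exp_pos _).le
    have h2 := Real.add_one_le_exp ((q - 1) * (log F - h))
    have h3 := mul_le_mul_of_nonneg_left h2 hF
    linarith

theorem ent_lower {a b q : ℝ} (ha : 0 ≤ a) (hb : 0 ≤ b) (hab : a + b = 1) (hq : 1 ≤ q) :
    exp ((q - 1) * hh a b) ≤ a ^ q + b ^ q := by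
  have h1 := ent_aux (h := hh a b) ha hq
  have h2 := ent_aux (h := hh a b) hb hq
  have h3 : exp ((q - 1) * hh a b) = exp ((q - 1) * hh a b) *
      (a + (q - 1) * (a * log a - a * hh a b)) + exp ((q - 1) * hh a b) *
      (b + (q - 1) * (b * log b - b * hh a b)) := by
    rw [← mul_add]
    have : a + (q - 1) * (a * log a - a * hh a b) + (b + (q - 1) * (b * log b - b * hh a b))
        = (a + b) + (q - 1) * (hh a b - (a + b) * hh a b) := by
      unfold hh; ring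
    rw [this, hab]
    ring
  rw [h3]
  linarith

theorem M_lower {a b q ρ : ℝ} (ha : 0 ≤ a) (hb : 0 ≤ b) (hab : a + b = 1) (hq : 1 ≤ q)
    (hρ : 0 ≤ ρ) : 1 + (ρ - ρ / q) * hh a b ≤ (a ^ q + b ^ q) ^ (ρ / q) := by
  have h1 := ent_lower ha hb hab hq
  have hq0 : 0 < q := by linarith
  have h2 : exp ((q - 1) * hh a b) ^ (ρ / q) ≤ (a ^ q + b ^ q) ^ (ρ / q) :=
    Real.rpow_le_rpow (Real.exp_pos _).le h1 (by positivity)
  rw [← Real.exp_mul] at h2
  have h3 : (q - 1) * hh a b * (ρ / q) = (ρ - ρ / q) * hh a b := by field_simp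
  rw [h3] at h2
  have h4 := Real.add_one_le_exp ((ρ - ρ / q) * hh a b)
  linarith

theorem m_deriv {a b ρ : ℝ} (ha : 0 < a) (hb : 0 < b) (hab : a + b = 1) :
    HasDerivAt (fun q : ℝ => (a ^ q + b ^ q) ^ (ρ / q)) (ρ * hh a b) 1 := by
  have h1 : HasDerivAt (fun q : ℝ => a ^ q) (a ^ (1 : ℝ) * log a) 1 :=
    (Real.hasStrictDerivAt_const_rpow ha 1).hasDerivAt
  have h2 : HasDerivAt (fun q : ℝ => b ^ q) (b ^ (1 : ℝ) * log b) 1 :=
    (Real.hasStrictDerivAt_const_rpow hb 1).hasDerivAt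
  have h3 : HasDerivAt (fun q : ℝ => ρ / q) (-ρ) 1 := by
    have := (hasDerivAt_const (1 : ℝ) ρ).fun_div (hasDerivAt_id' (1 : ℝ)) one_ne_zero
    simpa using this
  have h4 := (h1.fun_add h2).rpow h3 (by simp only [Real.rpow_one]; rw [hab]; exact one_pos)
  convert h4 using 1
  simp only [Real.rpow_one, hab, Real.one_rpow, Real.log_one, hh]
  ring

theorem eventually_gt_of_deriv_pos {f : ℝ → ℝ} {d x : ℝ} (h : HasDerivAt f d x) (hd : 0 < d) :
    ∀ᶠ y in 𝓝[>] x, f x < f y := by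
  have h1 := (hasDerivWithinAt_iff_tendsto_slope' (s := Set.Ioi x) (by simp)).1
    (h.hasDerivWithinAt (s := Set.Ioi x))
  have h2 := h1.eventually (lt_mem_nhds hd)
  filter_upwards [h2, self_mem_nhdsWithin] with y hy hxy
  rw [slope_def_field] at hy
  have hxy' : 0 < y - x := sub_pos.2 hxy
  have := mul_pos hy hxy'
  rw [div_mul_cancel₀ _ hxy'.ne'] at this
  linarith

theorem Psi_eq_Tr (τ θ : ℝ) : Psi τ (cos θ) (sin θ) =
    Tr (-τ / 6 + (log τ - 3) / 2 - 3 / (16 * τ)) (-(log τ - 3) / 2 + 1 / (4 * τ))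
      (2 / (3 * √τ)) (-1 / (16 * τ)) (-1 / (3 * √τ)) θ := by
  unfold Psi Tr
  rw [show 4 * θ = 2 * (2 * θ) by ring, Real.cos_two_mul (2 * θ), Real.sin_two_mul (2 * θ),
    Real.cos_two_mul, Real.sin_two_mul]
  have h := Real.sin_sq_add_cos_sq θ
  have h2 : cos θ ^ 2 = 1 - sin θ ^ 2 := by linarith
  have h3 : cos θ ^ 4 = (1 - sin θ ^ 2) ^ 2 := by rw [← h2]; ring
  have h4 : cos θ ^ 3 = cos θ * (1 - sin θ ^ 2) := by rw [← h2]; ring
  ring_nf
  rw [h3, h4, h2]
  ring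

end Pool.Agent.Helper152.Sam
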