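import Mathlib
import Pool.Agent.Helper152.SamH

open Real Filter Topology

namespace Pool.Agent.Helper152.Sam

theorem polar (x y : ℝ) : ∃ R θ : ℝ, 0 ≤ R ∧ x = R * cos θ ∧ y = R * sin θ := by
  refine ⟨‖(⟨x, y⟩ : ℂ)‖, Complex.arg ⟨x, y⟩, norm_nonneg _, ?_, ?_⟩
  · rw [Complex.norm_mul_cos_arg]
  · rw [Complex.norm_mul_sin_arg]

/-- passing from the unit circle to the whole plane -/
theorem wbound_of_circle {r s : ℝ} (hr : 0 < r) (hs : 0 < s) {m : ℕ} (v : Fin m → ℝ × ℝ)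
    (h : ∀ θ : ℝ, ∑ j, |cos θ * (v j).1 + sin θ * (v j).2| ^ r ≤
      ((cos θ ^ 2) ^ (s / 2) + (sin θ ^ 2) ^ (s / 2)) ^ (r / s)) :
    WBound r s (fun (j : Fin m) (a : Fin 2) => if a = 0 then (v j).1 else (v j).2) := by
  intro x
  obtain ⟨R, θ, hR, hx, hy⟩ := polar (x 0) (x 1)
  simp only [Fin.sum_univ_two, if_true, Fin.isValue, one_ne_zero, if_false]
  have e1 : ∀ j, |(v j).1 * x 0 + (v j).2 * x 1| ^ r
      = R ^ r * |cos θ * (v j).1 + sin θ * (v j).2| ^ r := by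
    intro j
    rw [hx, hy, ← Real.mul_rpow hR (abs_nonneg _)]
    congr 1
    rw [show (v j).1 * (R * cos θ) + (v j).2 * (R * sin θ)
      = R * (cos θ * (v j).1 + sin θ * (v j).2) by ring, abs_mul, abs_of_nonneg hR]
  simp_rw [e1]
  rw [← Finset.mul_sum]
  have e2 : ∀ c : ℝ, |R * c| ^ s = R ^ s * (c ^ 2) ^ (s / 2) := by
    intro c
    rw [abs_mul, abs_of_nonneg hR, Real.mul_rpow hR (abs_nonneg _)]
    congr 1
    rw [← sq_abs, ← Real.rpow_natCast, ← Real.rpow_mul (abs_nonneg _)]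
    congr 1
    push_cast; ring
  rw [hx, hy, e2, e2, ← mul_add, Real.mul_rpow (by positivity) (by positivity),
    ← Real.rpow_mul hR]
  have e3 : s * (r / s) = r := by field_simp
  rw [e3]
  exact mul_le_mul_of_nonneg_left (h θ) (by positivity)

theorem single {r : ℝ} (hr : 2 < r) : ∃ s E Γ : ℝ, 2 < s ∧ s < r ∧ 0 < Γ ∧ Γ < E ∧
    Good r s E Γ 2 := by
  set ρ : ℝ := r / 2 with hρdef
  have hρ : 1 < ρ := by rw [hρdef]; linarith
  obtain ⟨η, hη0, hη, hη1⟩ : ∃ η : ℝ, 0 < η ∧ 2 - ρ < η ∧ η < 1 := by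
    obtain ⟨η, h1, h2⟩ := exists_between (show max 0 (2 - ρ) < 1 from
      max_lt one_pos (by linarith))
    exact ⟨η, (le_max_left _ _).trans_lt h1, (le_max_right _ _).trans_lt h1, h2⟩
  obtain ⟨s0, τ0, hs0, hτ0, hs08, hτ02, hcert⟩ := pcert hρ hη0 hη hη1
  obtain ⟨s1, hs1, hgap⟩ := gap_s hη0 hη1
  -- choose s
  obtain ⟨t, ht, htm⟩ := exists_between (lt_min hs0 hs1)
  have ht0 : t < s0 := htm.trans_le (min_le_left _ _)
  have ht1 : t < s1 := htm.trans_le (min_le_right _ _)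
  have ht8 : t < 1 / 8 := ht0.trans_le hs08
  obtain ⟨τ1, hτ1, hgt⟩ := gap_tau hη0 hη1 ht (by linarith) (hgap t ht ht1)
  obtain ⟨τ, hτ, hτm⟩ := exists_between (lt_min hτ0 hτ1)
  have hτa : τ < τ0 := hτm.trans_le (min_le_left _ _)
  have hτb : τ < τ1 := hτm.trans_le (min_le_right _ _)
  have hτ12 : τ < 1 / 2 := hτa.trans_le hτ02
  have hG := hgt τ hτ hτb
  rw [mul_one] at hG
  have hηt : η * t < 1 := by nlinarith
  have hηt0 : 0 < η * t := by positivity
  -- the four mass distributions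
  set pa : ℝ := τ * (1 - t) with hpa
  set pb : ℝ := τ * (1 + t) with hpb
  set pc : ℝ := τ * (1 + 2 * t) with hpc
  have hpa0 : 0 < pa := mul_pos hτ (by linarith)
  have hpb0 : 0 < pb := mul_pos hτ (by linarith)
  have hpc0 : 0 < pc := mul_pos hτ (by linarith)
  have hpa1 : pa < 1 := by rw [hpa]; nlinarith
  have hpb1 : pb < 1 := by rw [hpb]; nlinarith
  have hpc1 : pc < 1 := by rw [hpc]; nlinarith
  set Ψa := Psi τ (√(1 - pa)) (√pa) with hΨa
  set Ψb := Psi τ (√(1 - pb)) (√pb) with hΨb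
  set c1 : ℝ := 1 - η * t with hc1
  set c2 : ℝ := 3 - η * t with hc2
  set c3 : ℝ := 3 - 2 * (η * t) with hc3
  have hc1p : 0 < c1 := by linarith
  have hc2p : 0 < c2 := by linarith
  have hc3p : 0 < c3 := by linarith
  set gap := c1 * Ψa + c2 * Ψb - (c3 * hh (1 - τ) τ + hh (1 - pc) pc) with hgapdef
  have hgap0 : 0 < gap := by linarith
  set e1 : ℝ := gap / 8 with he1
  have he10 : 0 < e1 := by positivity
  obtain ⟨κ0, hκ0, hrep⟩ := represent hr (-τ / 6 + (log τ - 3) / 2 - 3 / (16 * τ) - e1)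
    (-(log τ - 3) / 2 + 1 / (4 * τ)) (2 / (3 * √τ)) (-1 / (16 * τ)) (-1 / (3 * √τ))
  have hTr : ∀ θ, Tr (-τ / 6 + (log τ - 3) / 2 - 3 / (16 * τ) - e1)
      (-(log τ - 3) / 2 + 1 / (4 * τ)) (2 / (3 * √τ)) (-1 / (16 * τ)) (-1 / (3 * √τ)) θ
      = Psi τ (cos θ) (sin θ) - e1 := by
    intro θ
    rw [Psi_eq_Tr]; unfold Tr; ring
  -- the function of q
  set Δ : ℝ → ℝ := fun q => c1 * (1 + (ρ - ρ / q) * (Ψa - e1)) + c2 * (1 + (ρ - ρ / q) * (Ψb - e1))
    - (c3 * ((1 - τ) ^ q + τ ^ q) ^ (ρ / q) + ((1 - pc) ^ q + pc ^ q) ^ (ρ / q)) with hΔ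
  have hκd : HasDerivAt (fun q : ℝ => ρ - ρ / q) ρ 1 := by
    have := (hasDerivAt_const (1 : ℝ) ρ).fun_sub
      ((hasDerivAt_const (1 : ℝ) ρ).fun_div (hasDerivAt_id' (1 : ℝ)) one_ne_zero)
    simpa using this
  have hΔd : HasDerivAt Δ (c1 * (ρ * (Ψa - e1)) + c2 * (ρ * (Ψb - e1))
      - (c3 * (ρ * hh (1 - τ) τ) + ρ * hh (1 - pc) pc)) 1 := by
    have d1 := ((hκd.mul_const (Ψa - e1)).const_add 1).const_mul c1
    have d2 := ((hκd.mul_const (Ψb - e1)).const_add 1).const_mul c2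
    have d3 := (m_deriv (a := 1 - τ) (b := τ) (ρ := ρ) (by linarith) hτ (by ring)).const_mul c3
    have d4 := m_deriv (a := 1 - pc) (b := pc) (ρ := ρ) (by linarith) hpc0 (by ring)
    exact (d1.fun_add d2).fun_sub (d3.fun_add d4)
  have hΔ1 : Δ 1 = 0 := by
    simp only [hΔ, Real.rpow_one, div_one, sub_self, zero_mul, add_zero, mul_one,
      sub_add_cancel, Real.one_rpow]
    rw [hc1, hc2, hc3]; ring
  have hΔpos : 0 < c1 * (ρ * (Ψa - e1)) + c2 * (ρ * (Ψb - e1))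
      - (c3 * (ρ * hh (1 - τ) τ) + ρ * hh (1 - pc) pc) := by
    have : c1 * (ρ * (Ψa - e1)) + c2 * (ρ * (Ψb - e1))
      - (c3 * (ρ * hh (1 - τ) τ) + ρ * hh (1 - pc) pc) = ρ * (gap - (c1 + c2) * e1) := by
      rw [hgapdef]; ring
    rw [this]
    apply mul_pos (by linarith)
    have : c1 + c2 ≤ 4 := by rw [hc1, hc2]; linarith
    have : (c1 + c2) * e1 ≤ 4 * e1 := mul_le_mul_of_nonneg_right this he10.le
    rw [he1] at this ⊢
    linarith
  have ev1 := eventually_gt_of_deriv_pos hΔd hΔpos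
  rw [hΔ1] at ev1
  have ev2 : ∀ᶠ q : ℝ in 𝓝[>] 1, ρ - ρ / q < κ0 := by
    have hc : ContinuousAt (fun q : ℝ => ρ - ρ / q) 1 := hκd.continuousAt
    have := hc.tendsto.mono_left (nhdsWithin_le_nhds (s := Set.Ioi 1))
    apply this.eventually (gt_mem_nhds _)
    simpa using hκ0
  have ev3 : ∀ᶠ q : ℝ in 𝓝[>] 1, q < ρ :=
    (gt_mem_nhds hρ).filter_mono nhdsWithin_le_nhds
  obtain ⟨q, ⟨hq1, hq2⟩, hq3, hq4⟩ := ((ev1.and ev2).and (ev3.and self_mem_nhdsWithin)).exists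
  have hq : 1 < q := hq4
  have hq0 : 0 < q := by linarith
  set κ : ℝ := ρ - ρ / q with hκ
  have hκp : 0 < κ := by
    rw [hκ, sub_pos, div_lt_iff₀ hq0]
    nlinarith
  set η' : ℝ := min (κ * e1) (Δ q / 8) with hη'
  have hη'0 : 0 < η' := lt_min (by positivity) (by positivity)
  obtain ⟨m, v, hv⟩ := hrep κ hκp.le hq2.le η' hη'0
  simp_rw [hTr] at hv
  -- the norm bound
  have hrs : r / (2 * q) = ρ / q := by rw [hρdef]; field_simp
  have hW : WBound r (2 * q) (fun (j : Fin m) (a : Fin 2) => if a = 0 then (v j).1 else (v j).2) := by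
    apply wbound_of_circle (by linarith) (by linarith)
    intro θ
    have h1 := (abs_le.1 (hv θ)).2
    have hcs : cos θ ^ 2 + sin θ ^ 2 = 1 := by linarith [Real.sin_sq_add_cos_sq θ]
    have h2 := Psi_le hτ hcs
    have h3 := M_lower (sq_nonneg (cos θ)) (sq_nonneg (sin θ)) hcs hq.le (show 0 ≤ ρ by linarith)
    rw [← hκ] at h3
    have h4 : η' ≤ κ * e1 := min_le_left _ _
    have h5 := mul_le_mul_of_nonneg_left h2 hκp.le
    rw [show 2 * q / 2 = q by ring, hrs]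
    linarith
  -- values at the two rows
  have hval : ∀ p : ℝ, 0 < p → p < 1 →
      1 + κ * (Psi τ (√(1 - p)) (√p) - e1) - η' ≤
        ∑ j, |√(1 - p) * (v j).1 + √p * (v j).2| ^ r := by
    intro p hp hp1
    have h1 := (abs_le.1 (hv (arcsin (√p)))).1
    have hs : sin (arcsin (√p)) = √p :=
      Real.sin_arcsin (by linarith [Real.sqrt_nonneg p]) (Real.sqrt_le_one.2 hp1.le)
    have hcz : cos (arcsin (√p)) = √(1 - p) := by
      rw [Real.cos_arcsin, Real.sq_sqrt hp.le]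
    rw [hs, hcz] at h1
    linarith
  have hr0 : 0 < r := by linarith
  have h2q0 : 0 < 2 * q := by linarith
  -- rows and comparison vectors
  set f : Fin 2 → Fin 2 → ℝ := fun i a => (if i = 0 then c1 else c2) ^ (1 / r) *
    √(if a = 0 then 1 - (if i = 0 then pa else pb) else (if i = 0 then pa else pb)) with hf
  set g : Fin 2 → Fin 2 → ℝ := fun i a => (if i = 0 then c3 else 1) ^ (1 / r) *
    √(if a = 0 then 1 - (if i = 0 then τ else pc) else (if i = 0 then τ else pc)) with hg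
  have hpow : ∀ c : ℝ, 0 < c → ∀ y : ℝ, 0 ≤ y → (c ^ (1 / r) * y) ^ r = c * y ^ r := by
    intro c hc y hy
    rw [Real.mul_rpow (by positivity) hy, ← Real.rpow_mul hc.le, one_div_mul_cancel hr0.ne',
      Real.rpow_one]
  have hpow2 : ∀ c : ℝ, 0 < c → ∀ X Y a b : ℝ, 0 ≤ X → 0 ≤ Y → 0 ≤ a → 0 ≤ b →
      ((c ^ (1 / r) * √a) ^ 2 * X + (c ^ (1 / r) * √b) ^ 2 * Y) ^ (r / 2) = c * (X * a + Y * b) ^ ρ := by
    intro c hc X Y a b hX hY ha hb
    have h1 : (c ^ (1 / r) * √a) ^ 2 * X + (c ^ (1 / r) * √b) ^ 2 * Y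
        = (c ^ (1 / r)) ^ 2 * (X * a + Y * b) := by
      rw [mul_pow, mul_pow, Real.sq_sqrt ha, Real.sq_sqrt hb]; ring
    rw [h1, Real.mul_rpow (by positivity) (by positivity), ← Real.rpow_natCast,
      ← Real.rpow_mul hc.le, ← Real.rpow_mul hc.le]
    congr 1
    have : 1 / r * ((2 : ℕ) : ℝ) * (r / 2) = 1 := by push_cast; field_simp
    rw [this, Real.rpow_one]
  have hpow3 : ∀ c : ℝ, 0 < c → ∀ a b : ℝ, 0 < a → 0 < b →
      ((c ^ (1 / r) * √a) ^ (2 * q) + (c ^ (1 / r) * √b) ^ (2 * q)) ^ (r / (2 * q))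
        = c * (a ^ q + b ^ q) ^ (ρ / q) := by
    intro c hc a b ha hb
    have h1 : ∀ a : ℝ, 0 < a → (c ^ (1 / r) * √a) ^ (2 * q) = (c ^ (1 / r)) ^ (2 * q) * a ^ q := by
      intro a ha
      rw [Real.mul_rpow (by positivity) (by positivity)]
      congr 1
      rw [Real.sqrt_eq_rpow, ← Real.rpow_mul ha.le]
      congr 1
      field_simp
    rw [h1 a ha, h1 b hb, ← mul_add, Real.mul_rpow (by positivity) (by positivity),
      ← Real.rpow_mul hc.le, ← Real.rpow_mul hc.le, hrs]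
    congr 1
    have : 1 / r * (2 * q) * (ρ / q) = 1 := by rw [hρdef]; field_simp
    rw [this, Real.rpow_one]
  have hEval : ∀ c p : ℝ, 0 < c →
      ∑ j : Fin m, |c ^ (1 / r) * √(1 - p) * (v j).1 + c ^ (1 / r) * √p * (v j).2| ^ r
        = c * ∑ j, |√(1 - p) * (v j).1 + √p * (v j).2| ^ r := by
    intro c p hc
    rw [Finset.mul_sum]
    refine Finset.sum_congr rfl fun j _ => ?_
    rw [show c ^ (1 / r) * √(1 - p) * (v j).1 + c ^ (1 / r) * √p * (v j).2
      = c ^ (1 / r) * (√(1 - p) * (v j).1 + √p * (v j).2) by ring, abs_mul,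
      abs_of_nonneg (by positivity : 0 ≤ c ^ (1 / r)), hpow c hc _ (abs_nonneg _)]
  refine ⟨2 * q, ∑ i, ∑ j, |∑ a, f i a * (if a = 0 then (v j).1 else (v j).2)| ^ r,
    ∑ l, (∑ a, g l a ^ (2 * q)) ^ (r / (2 * q)), by linarith, by rw [hρdef] at hq3; linarith,
    ?_, ?_, ?_⟩
  · -- positivity of Γ
    simp only [Fin.sum_univ_two, hg, if_true, Fin.isValue, one_ne_zero, if_false]
    rw [hpow3 c3 hc3p _ _ (by linarith) hτ, hpow3 1 one_pos _ _ (by linarith) hpc0]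
    have : 0 < 1 - τ := by linarith
    have : 0 < 1 - pc := by linarith
    positivity
  · -- the gap
    simp only [Fin.sum_univ_two, hg, hf, if_true, Fin.isValue, one_ne_zero, if_false]
    rw [hpow3 c3 hc3p _ _ (by linarith) hτ, hpow3 1 one_pos _ _ (by linarith) hpc0,
      hEval c1 pa hc1p, hEval c2 pb hc2p]
    have v1 := mul_le_mul_of_nonneg_left (hval pa hpa0 hpa1) hc1p.le
    have v2 := mul_le_mul_of_nonneg_left (hval pb hpb0 hpb1) hc2p.le
    have h4 : η' ≤ Δ q / 8 := min_le_right _ _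
    have h5 : (c1 + c2) * η' ≤ 4 * η' := by
      apply mul_le_mul_of_nonneg_right _ hη'0.le
      rw [hc1, hc2]; linarith
    have h6 : Δ q = c1 * (1 + κ * (Ψa - e1)) + c2 * (1 + κ * (Ψb - e1))
      - (c3 * ((1 - τ) ^ q + τ ^ q) ^ (ρ / q) + ((1 - pc) ^ q + pc ^ q) ^ (ρ / q)) := rfl
    linarith
  · refine ⟨Fin 2, Fin 2, Fin m, Fin 2, inferInstance, inferInstance, inferInstance,
      inferInstance, inferInstance, inferInstance,
      fun (j : Fin m) (a : Fin 2) => if a = 0 then (v j).1 else (v j).2, f, g, ?_, ?_, hW, ?_,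
      by simp, rfl, rfl⟩
    · intro i a; simp only [hf]; split_ifs <;> positivity
    · intro i a; simp only [hg]; split_ifs <;> positivity
    · intro X hX
      simp only [Fin.sum_univ_two, hg, hf, if_true, Fin.isValue, one_ne_zero, if_false]
      rw [hpow2 c1 hc1p _ _ _ _ (hX 0) (hX 1) (by linarith) hpa0.le,
        hpow2 c2 hc2p _ _ _ _ (hX 0) (hX 1) (by linarith) hpb0.le,
        hpow2 c3 hc3p _ _ _ _ (hX 0) (hX 1) (by linarith) hτ.le,
        hpow2 1 one_pos _ _ _ _ (hX 0) (hX 1) (by linarith) hpc0.le]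
      have := hcert t τ (X 0) (X 1) ht ht0 hτ hτa (hX 0) (hX 1)
      linarith

end Pool.Agent.Helper152.Sam
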