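import Mathlib

open MeasureTheory
open scoped ENNReal

namespace Pool.Agent.Helper152.Sam

/-- Lebesgue measure on `[0,1]` -/
noncomputable def mu : Measure ℝ := volume.restrict (Set.Icc 0 1)

instance : IsProbabilityMeasure mu :=
  ⟨by rw [mu, Measure.restrict_apply MeasurableSet.univ, Set.univ_inter, Real.volume_Icc]; simp⟩

/-- a measurable partition of the unit interval into `card R` pieces of equal measure -/
structure Cell (R : Type) [Fintype R] where
  /-- the index of the piece containing a point -/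
  toFun : ℝ → R
  meas : ∀ s : Set R, MeasurableSet (toFun ⁻¹' s)
  vol : ∀ ρ : R, mu (toFun ⁻¹' {ρ}) = (Fintype.card R : ℝ≥0∞)⁻¹

theorem exists_cell (R : Type) [Fintype R] [Nonempty R] : Nonempty (Cell R) := by
  classical
  set N := Fintype.card R with hN
  have hN0 : 0 < N := Fintype.card_pos
  have hN0' : (0 : ℝ) < N := by exact_mod_cast hN0
  set e : R ≃ Fin N := Fintype.equivFin R
  set c : ℝ → R := fun t => e.symm ⟨⌊(N : ℝ) * t⌋₊ % N, Nat.mod_lt _ hN0⟩ with hc
  have hmeas : ∀ s : Set R, MeasurableSet (c ⁻¹' s) := by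
    intro s
    have h1 : c ⁻¹' s = (fun t : ℝ => ⌊(N : ℝ) * t⌋₊) ⁻¹'
        {n : ℕ | e.symm ⟨n % N, Nat.mod_lt _ hN0⟩ ∈ s} := by
      ext t; simp [hc]
    rw [h1]
    apply MeasurableSet.preimage (by trivial)
    exact Nat.measurable_floor.comp (measurable_const.mul measurable_id)
  refine ⟨⟨c, hmeas, ?_⟩⟩
  intro ρ
  have hmu : mu = volume.restrict (Set.Ico (0 : ℝ) 1) := by
    rw [mu]; exact (Measure.restrict_congr_set Ico_ae_eq_Icc).symm
  rw [hmu, Measure.restrict_apply (hmeas _)]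
  set j : ℕ := (e ρ : ℕ) with hj
  have hjN : j < N := (e ρ).2
  have hset : c ⁻¹' {ρ} ∩ Set.Ico (0 : ℝ) 1 = Set.Ico ((j : ℝ) / N) ((j + 1 : ℝ) / N) := by
    ext t
    simp only [Set.mem_inter_iff, Set.mem_preimage, Set.mem_singleton_iff, Set.mem_Ico]
    constructor
    · rintro ⟨h1, h2, h3⟩
      have h4 : ⌊(N : ℝ) * t⌋₊ < N := by
        rw [Nat.floor_lt (by positivity)]
        nlinarith
      have h5 : ⌊(N : ℝ) * t⌋₊ = j := by
        have := congrArg e h1
        simp only [hc, Equiv.apply_symm_apply] at this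
        have h6 := congrArg Fin.val this
        simp only at h6
        rw [Nat.mod_eq_of_lt h4] at h6
        exact h6
      have h6 := (Nat.floor_eq_iff (by positivity)).1 h5
      constructor
      · rw [div_le_iff₀ hN0']; linarith [h6.1]
      · rw [lt_div_iff₀ hN0']; linarith [h6.2]
    · rintro ⟨h1, h2⟩
      rw [div_le_iff₀ hN0'] at h1
      rw [lt_div_iff₀ hN0'] at h2
      have hj1 : ((j : ℝ) + 1) ≤ N := by exact_mod_cast hjN
      have hjn : (0 : ℝ) ≤ j := Nat.cast_nonneg _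
      have ht0 : 0 ≤ t := by
        by_contra h
        push Not at h
        nlinarith
      have ht1 : t < 1 := by
        by_contra h
        push Not at h
        nlinarith
      refine ⟨?_, ht0, ht1⟩
      have h5 : ⌊(N : ℝ) * t⌋₊ = j := by
        rw [Nat.floor_eq_iff (by positivity)]
        constructor <;> linarith
      simp only [hc]
      rw [Equiv.symm_apply_eq]
      apply Fin.ext
      simp only [h5]
      rw [Nat.mod_eq_of_lt hjN]
  rw [hset, Real.volume_Ico]
  have : ((j + 1 : ℝ) / N) - (j : ℝ) / N = (N : ℝ)⁻¹ := by field_simp; ring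
  rw [this, ENNReal.ofReal_inv_of_pos hN0', ENNReal.ofReal_natCast]

variable {R : Type} [Fintype R]

theorem Cell.measurable_comp (c : Cell R) (z : R → ℝ) : Measurable fun t => z (c.toFun t) := by
  intro s _
  exact c.meas (z ⁻¹' s)

theorem Cell.memLp (c : Cell R) (z : R → ℝ) (p : ℝ≥0∞) : MemLp (fun t => z (c.toFun t)) p mu := by
  apply MemLp.of_bound (c.measurable_comp z).aestronglyMeasurable (∑ ρ, |z ρ|)
  filter_upwards with t
  exact Finset.single_le_sum (f := fun ρ => |z ρ|) (fun ρ _ => abs_nonneg _) (Finset.mem_univ _)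

theorem Cell.integral (c : Cell R) (z : R → ℝ) :
    ∫ t, z (c.toFun t) ∂mu = (Fintype.card R : ℝ)⁻¹ * ∑ ρ, z ρ := by
  classical
  have h1 : ∀ t, z (c.toFun t) = ∑ ρ, (c.toFun ⁻¹' {ρ}).indicator (fun _ => z ρ) t := by
    intro t
    rw [Finset.sum_eq_single (c.toFun t)]
    · simp
    · intro b _ hb
      rw [Set.indicator_of_notMem]
      simp only [Set.mem_preimage, Set.mem_singleton_iff]
      exact fun h => hb h.symm
    · intro h; exact absurd (Finset.mem_univ _) h
  simp_rw [h1]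
  rw [integral_finsetSum]
  · rw [Finset.mul_sum]
    refine Finset.sum_congr rfl fun ρ _ => ?_
    rw [integral_indicator_const _ (c.meas {ρ}), Measure.real, c.vol ρ, smul_eq_mul]
    simp
  · intro ρ _
    exact (integrable_const _).indicator (c.meas {ρ})

/-- the step function with given values -/
noncomputable def Cell.st (c : Cell R) (p : ℝ≥0∞) : (R → ℝ) →ₗ[ℝ] Lp ℝ p mu where
  toFun z := (c.memLp z p).toLp _
  map_add' z z' := by
    rw [← MemLp.toLp_add]
    rfl
  map_smul' a z := by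
    rw [RingHom.id_apply, ← MemLp.toLp_const_smul]
    rfl

theorem Cell.coeFn_st (c : Cell R) (p : ℝ≥0∞) (z : R → ℝ) :
    (c.st p z : ℝ → ℝ) =ᵐ[mu] fun t => z (c.toFun t) :=
  MemLp.coeFn_toLp (c.memLp z p)

theorem Cell.norm_st (c : Cell R) {p : ℝ} (hp : 0 < p) (z : R → ℝ) :
    ‖c.st (ENNReal.ofReal p) z‖ = ((Fintype.card R : ℝ)⁻¹ * ∑ ρ, |z ρ| ^ p) ^ (1 / p) := by
  have h0 : ENNReal.ofReal p ≠ 0 := by rw [Ne, ENNReal.ofReal_eq_zero, not_le]; exact hp
  change ‖(c.memLp z _).toLp _‖ = _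
  rw [Lp.norm_toLp, (c.memLp z _).eLpNorm_eq_integral_rpow_norm h0 ENNReal.ofReal_ne_top,
    ENNReal.toReal_ofReal hp.le, ENNReal.toReal_ofReal (by positivity), one_div]
  congr 1
  exact c.integral fun ρ => |z ρ| ^ p

theorem norm_Lp_eq {p : ℝ} (hp : 0 < p) (f : Lp ℝ (ENNReal.ofReal p) mu) :
    ‖f‖ = (∫ t, ‖f t‖ ^ p ∂mu) ^ (1 / p) := by
  have h0 : ENNReal.ofReal p ≠ 0 := by rw [Ne, ENNReal.ofReal_eq_zero, not_le]; exact hp
  rw [Lp.norm_def, (Lp.memLp f).eLpNorm_eq_integral_rpow_norm h0 ENNReal.ofReal_ne_top,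
    ENNReal.toReal_ofReal hp.le, ENNReal.toReal_ofReal (by positivity), one_div]

theorem Lp_integrable {p : ℝ≥0∞} [Fact (1 ≤ p)] (f : Lp ℝ p mu) : Integrable f mu :=
  (Lp.memLp f).integrable Fact.out

theorem Cell.integrable_mul (c : Cell R) {p : ℝ≥0∞} [Fact (1 ≤ p)] (f : Lp ℝ p mu)
    (g : R → ℝ) : Integrable (fun t => f t * g (c.toFun t)) mu :=
  (Lp_integrable f).mul_bdd (c := ∑ ρ, |g ρ|) (c.measurable_comp g).aestronglyMeasurable
    (Filter.Eventually.of_forall fun _ => Finset.single_le_sum (f := fun ρ => |g ρ|)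
      (fun _ _ => abs_nonneg _) (Finset.mem_univ _))

/-- integration against a step function -/
noncomputable def Cell.fn (c : Cell R) {p s : ℝ} (h : p.HolderConjugate s)
    [Fact (1 ≤ ENNReal.ofReal p)] (g : R → ℝ) :
    Lp ℝ (ENNReal.ofReal p) mu →L[ℝ] ℝ :=
  LinearMap.mkContinuous
    { toFun := fun f => ∫ t, f t * g (c.toFun t) ∂mu
      map_add' := by
        intro f f'
        rw [← integral_add (c.integrable_mul f g) (c.integrable_mul f' g)]
        apply integral_congr_ae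
        filter_upwards [Lp.coeFn_add f f'] with t ht
        rw [ht, Pi.add_apply]; ring
      map_smul' := by
        intro a f
        rw [RingHom.id_apply, smul_eq_mul, ← integral_const_mul]
        apply integral_congr_ae
        filter_upwards [Lp.coeFn_smul a f] with t ht
        rw [ht, Pi.smul_apply, smul_eq_mul]; ring }
    (((Fintype.card R : ℝ)⁻¹ * ∑ ρ, |g ρ| ^ s) ^ (1 / s)) (by
      intro f
      change ‖∫ t, f t * g (c.toFun t) ∂mu‖ ≤ _
      refine (norm_integral_le_integral_norm _).trans ?_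
      have h1 := integral_mul_norm_le_Lp_mul_Lq h (Lp.memLp f) (c.memLp g (ENNReal.ofReal s))
      rw [← norm_Lp_eq h.pos f] at h1
      have h2 : ∫ t, ‖g (c.toFun t)‖ ^ s ∂mu = (Fintype.card R : ℝ)⁻¹ * ∑ ρ, |g ρ| ^ s :=
        c.integral fun ρ => |g ρ| ^ s
      rw [h2] at h1
      simp_rw [norm_mul]
      linarith [h1, mul_comm ‖f‖ (((Fintype.card R : ℝ)⁻¹ * ∑ ρ, |g ρ| ^ s) ^ (1 / s))])

theorem Cell.fn_apply (c : Cell R) {p s : ℝ} (h : p.HolderConjugate s)
    [Fact (1 ≤ ENNReal.ofReal p)] (g : R → ℝ) (f : Lp ℝ (ENNReal.ofReal p) mu) :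
    c.fn h g f = ∫ t, f t * g (c.toFun t) ∂mu := rfl

theorem Cell.norm_fn_le (c : Cell R) {p s : ℝ} (h : p.HolderConjugate s)
    [Fact (1 ≤ ENNReal.ofReal p)] (g : R → ℝ) :
    ‖c.fn h g‖ ≤ ((Fintype.card R : ℝ)⁻¹ * ∑ ρ, |g ρ| ^ s) ^ (1 / s) := by
  apply LinearMap.mkContinuous_norm_le
  positivity

/-- the integral over one piece -/
noncomputable def Cell.co (c : Cell R) {p s : ℝ} (h : p.HolderConjugate s)
    [Fact (1 ≤ ENNReal.ofReal p)] [DecidableEq R] (a : R) :
    Lp ℝ (ENNReal.ofReal p) mu →L[ℝ] ℝ := c.fn h (Pi.single a 1)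

theorem Cell.fn_eq_sum (c : Cell R) {p s : ℝ} (h : p.HolderConjugate s)
    [Fact (1 ≤ ENNReal.ofReal p)] [DecidableEq R] (g : R → ℝ)
    (f : Lp ℝ (ENNReal.ofReal p) mu) : c.fn h g f = ∑ a, g a * c.co h a f := by
  unfold Cell.co
  simp_rw [Cell.fn_apply, ← integral_const_mul]
  rw [← integral_finsetSum]
  · apply integral_congr_ae
    filter_upwards with t
    rw [Finset.sum_eq_single (c.toFun t)]
    · simp; ring
    · intro b _ hb
      rw [Pi.single_eq_of_ne hb.symm]; ring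
    · intro h; exact absurd (Finset.mem_univ _) h
  · intro a _
    exact (c.integrable_mul f _).const_mul _

theorem Cell.co_st (c : Cell R) {p s : ℝ} (h : p.HolderConjugate s)
    [Fact (1 ≤ ENNReal.ofReal p)] [DecidableEq R] (a : R) (z : R → ℝ) :
    c.co h a (c.st _ z) = (Fintype.card R : ℝ)⁻¹ * z a := by
  unfold Cell.co
  rw [Cell.fn_apply]
  have h1 : ∫ t, (c.st (ENNReal.ofReal p) z) t * (Pi.single a 1 : R → ℝ) (c.toFun t) ∂mu =
      ∫ t, (fun ρ => z ρ * (Pi.single a 1 : R → ℝ) ρ) (c.toFun t) ∂mu := by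
    apply integral_congr_ae
    filter_upwards [c.coeFn_st (ENNReal.ofReal p) z] with t ht
    rw [ht]
  rw [h1, c.integral (fun ρ => z ρ * (Pi.single a 1 : R → ℝ) ρ)]
  congr 1
  rw [Finset.sum_eq_single a]
  · simp
  · intro b _ hb
    rw [Pi.single_eq_of_ne hb]; ring
  · intro h; exact absurd (Finset.mem_univ _) h

end Pool.Agent.Helper152.Sam
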