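import Mathlib
import Pool.Agent.Helper152.SamB
import Pool.Agent.Helper152.SamJ

open MeasureTheory
open scoped ENNReal

namespace Pool.Agent.Helper152.Sam

variable {A R : Type} [Fintype A] [Fintype R] [DecidableEq A]

/-- the finite rank operator with the given matrix -/
noncomputable def opK (c : Cell A) (d : Cell R) {p s : ℝ} (h : p.HolderConjugate s)
    [Fact (1 ≤ ENNReal.ofReal p)] (q : ℝ≥0∞) [Fact (1 ≤ q)] (K : R → A → ℝ) :
    Lp ℝ (ENNReal.ofReal p) mu →L[ℝ] Lp ℝ q mu :=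
  (LinearMap.toContinuousLinearMap (d.st q)).comp
    (ContinuousLinearMap.pi fun ρ => ∑ a, K ρ a • c.co h a)

theorem opK_apply (c : Cell A) (d : Cell R) {p s : ℝ} (h : p.HolderConjugate s)
    [Fact (1 ≤ ENNReal.ofReal p)] (q : ℝ≥0∞) [Fact (1 ≤ q)] (K : R → A → ℝ)
    (f : Lp ℝ (ENNReal.ofReal p) mu) :
    opK c d h q K f = d.st q (fun ρ => ∑ a, K ρ a * c.co h a f) := by
  simp only [opK, ContinuousLinearMap.comp_apply, LinearMap.coe_toContinuousLinearMap']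
  congr 1
  funext ρ
  simp

theorem Cell.st_mono (d : Cell R) (q : ℝ≥0∞) {z z' : R → ℝ} (h : ∀ ρ, z ρ ≤ z' ρ) :
    d.st q z ≤ d.st q z' := by
  rw [← Lp.coeFn_le]
  filter_upwards [d.coeFn_st q z, d.coeFn_st q z'] with t h1 h2
  rw [h1, h2]
  exact h _

theorem Cell.co_nonneg (c : Cell A) {p s : ℝ} (h : p.HolderConjugate s)
    [Fact (1 ≤ ENNReal.ofReal p)] {f : Lp ℝ (ENNReal.ofReal p) mu} (hf : 0 ≤ f) (a : A) :
    0 ≤ c.co h a f := by
  unfold Cell.co
  rw [Cell.fn_apply]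
  apply integral_nonneg_of_ae
  rw [← Lp.coeFn_nonneg] at hf
  filter_upwards [hf] with t ht
  apply mul_nonneg ht
  rcases eq_or_ne (c.toFun t) a with h1 | h1
  · rw [h1]; simp
  · rw [Pi.single_eq_of_ne h1]

/-- restriction of a function to a union of pieces -/
noncomputable def Cell.cut (c : Cell A) {p : ℝ≥0∞} (S : Set A) (f : Lp ℝ p mu) : Lp ℝ p mu :=
  ((Lp.memLp f).indicator (c.meas S)).toLp ((c.toFun ⁻¹' S).indicator (fun t => f t))

theorem Cell.coeFn_cut (c : Cell A) {p : ℝ≥0∞} (S : Set A) (f : Lp ℝ p mu) :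
    (c.cut S f : ℝ → ℝ) =ᵐ[mu] (c.toFun ⁻¹' S).indicator (fun t => f t) := by
  unfold Cell.cut
  exact MemLp.coeFn_toLp _

theorem Cell.cut_nonneg (c : Cell A) {p : ℝ≥0∞} (S : Set A) {f : Lp ℝ p mu} (hf : 0 ≤ f) :
    0 ≤ c.cut S f := by
  rw [← Lp.coeFn_nonneg] at hf ⊢
  filter_upwards [hf, c.coeFn_cut S f] with t h1 h2
  rw [h2]
  by_cases hm : t ∈ c.toFun ⁻¹' S
  · rw [Set.indicator_of_mem hm]; exact h1
  · rw [Set.indicator_of_notMem hm]; exact le_rfl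

theorem Cell.cut_add (c : Cell A) {p : ℝ≥0∞} (S : Set A) (f : Lp ℝ p mu) :
    c.cut S f + c.cut Sᶜ f = f := by
  apply Lp.ext
  filter_upwards [c.coeFn_cut S f, c.coeFn_cut Sᶜ f, Lp.coeFn_add (c.cut S f) (c.cut Sᶜ f)]
    with t h1 h2 h3
  rw [h3, Pi.add_apply, h1, h2]
  by_cases hm : c.toFun t ∈ S
  · rw [Set.indicator_of_mem (by exact hm), Set.indicator_of_notMem (by
      simp only [Set.preimage_compl, Set.mem_compl_iff, Set.mem_preimage, not_not]; exact hm),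
      add_zero]
  · rw [Set.indicator_of_notMem (by exact hm), Set.indicator_of_mem (by
      simp only [Set.preimage_compl, Set.mem_compl_iff, Set.mem_preimage]; exact hm), zero_add]

theorem Cell.co_cut (c : Cell A) {p s : ℝ} (h : p.HolderConjugate s)
    [Fact (1 ≤ ENNReal.ofReal p)] (S : Set A) [DecidablePred (· ∈ S)]
    (f : Lp ℝ (ENNReal.ofReal p) mu) (a : A) :
    c.co h a (c.cut S f) = if a ∈ S then c.co h a f else 0 := by
  unfold Cell.co
  rw [Cell.fn_apply, Cell.fn_apply]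
  split_ifs with ha
  · apply integral_congr_ae
    filter_upwards [c.coeFn_cut S f] with t ht
    rw [ht]
    rcases eq_or_ne (c.toFun t) a with h1 | h1
    · rw [Set.indicator_of_mem (by rw [Set.mem_preimage, h1]; exact ha)]
    · rw [Pi.single_eq_of_ne h1]; simp
  · rw [← integral_zero ℝ ℝ]
    apply integral_congr_ae
    filter_upwards [c.coeFn_cut S f] with t ht
    rw [ht]
    rcases eq_or_ne (c.toFun t) a with h1 | h1
    · rw [Set.indicator_of_notMem (by rw [Set.mem_preimage, h1]; exact ha)]; simp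
    · rw [Pi.single_eq_of_ne h1]; simp

/-- any operator above `± opK K` is above `opK |K|` -/
theorem opK_abs_le (c : Cell A) (d : Cell R) {p s : ℝ} (h : p.HolderConjugate s)
    [Fact (1 ≤ ENNReal.ofReal p)] (q : ℝ≥0∞) [Fact (1 ≤ q)] (K : R → A → ℝ)
    (N : Lp ℝ (ENNReal.ofReal p) mu →L[ℝ] Lp ℝ q mu)
    (h1 : ∀ f, 0 ≤ f → opK c d h q K f ≤ N f) (h2 : ∀ f, 0 ≤ f → -(opK c d h q K f) ≤ N f)
    {f : Lp ℝ (ENNReal.ofReal p) mu} (hf : 0 ≤ f) :
    opK c d h q (fun ρ a => |K ρ a|) f ≤ N f := by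
  classical
  have key : ∀ ρ : R, ∀ᵐ t ∂mu, d.toFun t = ρ → ∑ a, |K ρ a| * c.co h a f ≤ (N f : ℝ → ℝ) t := by
    intro ρ
    set S : Set A := {a | 0 ≤ K ρ a} with hS
    have e1 := h1 _ (c.cut_nonneg S hf)
    have e2 := h2 _ (c.cut_nonneg Sᶜ hf)
    have e3 : opK c d h q K (c.cut S f) - opK c d h q K (c.cut Sᶜ f) ≤ N f := by
      have : N f = N (c.cut S f) + N (c.cut Sᶜ f) := by rw [← map_add, c.cut_add]
      rw [this, sub_eq_add_neg]
      exact add_le_add e1 e2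
    rw [opK_apply, opK_apply, ← map_sub, ← Lp.coeFn_le] at e3
    filter_upwards [e3, d.coeFn_st q ((fun ρ => ∑ a, K ρ a * c.co h a (c.cut S f)) -
      fun ρ => ∑ a, K ρ a * c.co h a (c.cut Sᶜ f))] with t ht1 ht2 htρ
    rw [ht2] at ht1
    refine le_trans (le_of_eq ?_) ht1
    rw [htρ, Pi.sub_apply, ← Finset.sum_sub_distrib]
    refine Finset.sum_congr rfl fun a _ => ?_
    rw [c.co_cut, c.co_cut]
    by_cases ha : a ∈ S
    · have ha' : 0 ≤ K ρ a := ha
      rw [if_pos ha, if_neg (by simpa using ha), abs_of_nonneg ha']; ring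
    · have ha' : K ρ a < 0 := by
        rw [hS, Set.mem_ofPred_eq, not_le] at ha; exact ha
      rw [if_neg ha, if_pos (by simpa using ha), abs_of_neg ha']; ring
  rw [opK_apply, ← Lp.coeFn_le]
  filter_upwards [ae_all_iff.2 key, d.coeFn_st q (fun ρ => ∑ a, |K ρ a| * c.co h a f)]
    with t ht1 ht2
  rw [ht2]
  exact ht1 (d.toFun t) rfl

theorem opK_le_abs (c : Cell A) (d : Cell R) {p s : ℝ} (h : p.HolderConjugate s)
    [Fact (1 ≤ ENNReal.ofReal p)] (q : ℝ≥0∞) [Fact (1 ≤ q)] {K K' : R → A → ℝ}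
    (hK : ∀ ρ a, K ρ a ≤ K' ρ a) {f : Lp ℝ (ENNReal.ofReal p) mu} (hf : 0 ≤ f) :
    opK c d h q K f ≤ opK c d h q K' f := by
  rw [opK_apply, opK_apply]
  apply d.st_mono
  intro ρ
  refine Finset.sum_le_sum fun a _ => ?_
  exact mul_le_mul_of_nonneg_right (hK ρ a) (c.co_nonneg h hf a)

theorem norm_opK (c : Cell A) (d : Cell R) {p s q : ℝ} (h : p.HolderConjugate s) (hq : 0 < q)
    [Fact (1 ≤ ENNReal.ofReal p)] [Fact (1 ≤ ENNReal.ofReal q)] (K : R → A → ℝ)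
    (f : Lp ℝ (ENNReal.ofReal p) mu) :
    ‖opK c d h (ENNReal.ofReal q) K f‖ =
      ((Fintype.card R : ℝ)⁻¹ * ∑ ρ, |∑ a, K ρ a * c.co h a f| ^ q) ^ (1 / q) := by
  rw [opK_apply, d.norm_st hq]

end Pool.Agent.Helper152.Sam
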