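import Pool.Agent.Helper152.WavDefs

set_option autoImplicit false
open MeasureTheory Filter Topology
open scoped ENNReal

namespace Pool.Agent.Helper152.WavRow

open Pool.Agent.Helper152.Wav
open Pool.Agent.Helper152.Lar (w)







theorem wf_tsum {M : Type*} [AddCommMonoid M] [TopologicalSpace M] (F : ℤ → M) (k₀ : ℤ) (j : ℕ)
    (hF : ∀ q, ¬ (2:ℤ) ^ j ∣ q - k₀ → F q = 0) : ∑' m : ℤ, F (k₀ + 2 ^ j * m) = ∑' q, F q := by
  have hinj : Function.Injective (fun m : ℤ => k₀ + 2 ^ j * m) := by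
    intro m m' h
    have h1 : (2:ℤ) ^ j * m = 2 ^ j * m' := by simpa using h
    exact mul_left_cancel₀ (by positivity) h1
  refine hinj.tsum_eq ?_
  intro q hq
  by_contra hcon
  apply hq
  apply hF
  rintro ⟨m, hm⟩
  exact hcon ⟨m, by simp only; linarith⟩

/-- column of `k₀` -/
noncomputable def VV (a : ℤ → ℕ → ℂ) (k₀ : ℤ) (j : ℕ) (q : ℤ) : ℂ :=
  if (2:ℤ) ^ j ∣ q - k₀ then a q j else 0

theorem VV_at (a : ℤ → ℕ → ℂ) (k₀ : ℤ) (j : ℕ) (m : ℤ) : VV a k₀ j (k₀ + 2 ^ j * m) = a (k₀ + 2 ^ j * m) j := by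
  unfold VV
  rw [if_pos]
  simp

theorem VV_not (a : ℤ → ℕ → ℂ) (k₀ : ℤ) (j : ℕ) (q : ℤ) (h : ¬ (2:ℤ) ^ j ∣ q - k₀) : VV a k₀ j q = 0 :=
  if_neg h

theorem wf_bessel {E : Type*} [NormedAddCommGroup E] [InnerProductSpace ℂ E] {v : ℕ → E} (hv : Orthonormal ℂ v)
    (x : E) (s : Finset ℕ) :
    ‖x - ∑ i ∈ s, inner ℂ (v i) x • v i‖ ^ 2 = ‖x‖ ^ 2 - ∑ i ∈ s, ‖inner ℂ (v i) x‖ ^ 2 := by
  have h₂ :
    (∑ i ∈ s, ∑ j ∈ s, inner ℂ (v i) x * inner ℂ x (v j) * inner ℂ (v j) (v i)) =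
      (∑ k ∈ s, inner ℂ (v k) x * inner ℂ x (v k) : ℂ) := by
    exact hv.inner_left_right_finset
  have h₃ : ∀ z : ℂ, RCLike.re (z * (starRingEnd ℂ) z) = ‖z‖ ^ 2 := by
    intro z
    simp only [RCLike.mul_conj]
    norm_cast
  rw [@norm_sub_sq ℂ, sub_add]
  simp only [@InnerProductSpace.norm_sq_eq_re_inner ℂ E, inner_sum, sum_inner]
  simp only [inner_smul_right, two_mul, inner_smul_left, inner_conj_symm, ← mul_assoc, h₂,
    add_sub_cancel_right, sub_right_inj]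
  simp only [map_sum, ← inner_conj_symm x, ← h₃]

variable {P : ℤ → Prop} {N : ℕ → ℤ → Prop} {a : ℤ → ℕ → ℂ}

theorem wf_row_tendsto (h : Blk P N a) {k : ℤ} (hk : P k) :
    Tendsto (fun n => ∑ j ∈ Finset.range n, ‖a k j‖ ^ 2) atTop (𝓝 1) := by
  have h1 := ENNReal.tendsto_nat_tsum (fun j => ‖a k j‖ₑ ^ 2)
  rw [h.row k hk] at h1
  have h2 := (ENNReal.tendsto_toReal ENNReal.one_ne_top).comp h1
  rw [ENNReal.toReal_one] at h2
  refine h2.congr fun n => ?_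
  simp only [Function.comp_apply]
  rw [ENNReal.toReal_sum (fun j _ => by simp)]
  refine Finset.sum_congr rfl fun j _ => ?_
  rw [ENNReal.toReal_pow, toReal_enorm]

theorem wf_rowOrth_aux (h : Blk P N a) (k₀ k : ℤ) (i : ℕ) (hk₀ : P k₀)
    (hi : (2:ℤ) ^ i ∣ k - k₀) (hi' : ¬ (2:ℤ) ^ (i + 1) ∣ k - k₀) : ss a k₀ k (i + 1) = 0 := by
  have hne : k ≠ k₀ := by
    rintro rfl
    exact hi' (by simp)
  -- summability
  have hcolE : ∀ j, ∑' q : ℤ, ‖VV a k₀ j q‖ₑ ^ 2 = 1 := by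
    intro j
    rw [← h.col j k₀ (h.node k₀ j hk₀), ← wf_tsum (fun q => ‖VV a k₀ j q‖ₑ ^ 2) k₀ j]
    · refine tsum_congr fun m => ?_
      rw [VV_at]
    · intro q hq
      rw [VV_not a k₀ j q hq]
      simp
  have hconv : ∀ z : ℂ, (‖z‖ₑ ^ 2).toReal = ‖z‖ ^ ((2 : ℝ≥0∞).toReal) := by
    intro z
    rw [ENNReal.toReal_pow, toReal_enorm]
    simp
  have hmem : ∀ j, Memℓp (VV a k₀ j) 2 := by
    intro j
    refine memℓp_gen ?_
    have h1 : ∑' q : ℤ, ‖VV a k₀ j q‖ₑ ^ 2 ≠ ⊤ := by rw [hcolE]; simp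
    refine (ENNReal.summable_toReal h1).congr fun q => ?_
    exact hconv _
  let V : ℕ → lp (fun _ : ℤ => ℂ) 2 := fun j => ⟨VV a k₀ j, hmem j⟩
  have hVn : ∀ j, ‖V j‖ = 1 := by
    intro j
    have h1 := lp.norm_rpow_eq_tsum (p := 2) (by simp) (V j)
    have h2 : ∑' q, ‖V j q‖ ^ ((2 : ℝ≥0∞).toReal) = 1 := by
      have h3 : ∑' q, (‖VV a k₀ j q‖ₑ ^ 2).toReal = 1 := by
        rw [← ENNReal.tsum_toReal_eq (fun q => by simp), hcolE]; simp
      rw [← h3]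
      exact tsum_congr fun q => (hconv _).symm
    rw [h2] at h1
    have h4 : ‖V j‖ ^ 2 = 1 := by
      rw [← h1]; simp
    have h5 := norm_nonneg (V j)
    nlinarith
  have hVo' : ∀ i j, i < j → inner ℂ (V i) (V j) = 0 := by
    intro i j hij
    rw [lp.inner_eq_tsum]
    have h1 : ∀ q, inner ℂ (V i q) (V j q) = VV a k₀ j q * (starRingEnd ℂ) (VV a k₀ i q) := by
      intro q
      rw [RCLike.inner_apply]
    simp only [h1]
    rw [← wf_tsum (fun q => VV a k₀ j q * (starRingEnd ℂ) (VV a k₀ i q)) k₀ j]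
    · have h2 : ∀ m : ℤ, VV a k₀ j (k₀ + 2 ^ j * m) * (starRingEnd ℂ) (VV a k₀ i (k₀ + 2 ^ j * m)) =
          (starRingEnd ℂ) (a (k₀ + 2 ^ j * m) i * (starRingEnd ℂ) (a (k₀ + 2 ^ j * m) j)) := by
        intro m
        rw [VV_at]
        have h3 : VV a k₀ i (k₀ + 2 ^ j * m) = a (k₀ + 2 ^ j * m) i := by
          unfold VV
          rw [if_pos]
          rw [add_sub_cancel_left]
          exact Dvd.dvd.mul_right (pow_dvd_pow 2 hij.le) m
        rw [h3, map_mul, Complex.conj_conj, mul_comm]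
      rw [tsum_congr h2, ← Complex.conj_tsum, h.orth i j k₀ hij, map_zero]
    · intro q hq
      rw [VV_not a k₀ j q hq, zero_mul]
  have hV : Orthonormal ℂ V := by
    refine ⟨hVn, ?_⟩
    intro i j hij
    rcases lt_or_gt_of_ne hij with h1 | h1
    · exact hVo' i j h1
    · rw [← inner_conj_symm, hVo' j i h1, map_zero]
  let e : lp (fun _ : ℤ => ℂ) 2 := lp.single 2 k₀ (1 : ℂ)
  have hVk : ∀ j, VV a k₀ j k₀ = a k₀ j := by
    intro j
    have := VV_at a k₀ j 0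
    simpa using this
  have hine : ∀ j, inner ℂ (V j) e = (starRingEnd ℂ) (a k₀ j) := by
    intro j
    rw [lp.inner_single_right]
    rw [RCLike.inner_apply, one_mul]
    show (starRingEnd ℂ) (VV a k₀ j k₀) = _
    rw [hVk]
  have hen : ‖e‖ ^ 2 = 1 := by
    have : ‖e‖ = ‖(1:ℂ)‖ := lp.norm_single (by norm_num) _ _
    rw [this]; simp
  have hkey : ∀ n, i + 1 ≤ n → ‖ss a k₀ k (i + 1)‖ ^ 2 ≤ 1 - ∑ j ∈ Finset.range n, ‖a k₀ j‖ ^ 2 := by
    intro n hn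
    have h1 := wf_bessel hV e (Finset.range n)
    rw [hen] at h1
    have h2 : ∑ j ∈ Finset.range n, ‖inner ℂ (V j) e‖ ^ 2 = ∑ j ∈ Finset.range n, ‖a k₀ j‖ ^ 2 := by
      refine Finset.sum_congr rfl fun j _ => ?_
      rw [hine, RCLike.norm_conj]
    rw [h2] at h1
    rw [← h1]
    have h3 := lp.norm_apply_le_norm (p := 2) (by norm_num) (e - ∑ i ∈ Finset.range n, inner ℂ (V i) e • V i) k
    have h4 : (e - ∑ i ∈ Finset.range n, inner ℂ (V i) e • V i : lp (fun _ : ℤ => ℂ) 2) k = - ss a k₀ k (i + 1) := by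
      rw [lp.coeFn_sub, Pi.sub_apply]
      have h5 : (e : ∀ _ : ℤ, ℂ) k = 0 := by
        simp only [e]
        rw [lp.coeFn_single]
        exact Pi.single_eq_of_ne hne _
      have h6 : ((∑ i ∈ Finset.range n, inner ℂ (V i) e • V i : lp (fun _ : ℤ => ℂ) 2) : ∀ _ : ℤ, ℂ) k =
          ∑ j ∈ Finset.range n, (starRingEnd ℂ) (a k₀ j) * VV a k₀ j k := by
        rw [lp.coeFn_sum, Finset.sum_apply]
        refine Finset.sum_congr rfl fun j _ => ?_
        rw [hine]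
        rfl
      rw [h5, h6, zero_sub]
      congr 1
      unfold ss
      rw [← Finset.sum_subset (Finset.range_subset_range.2 hn)]
      · refine Finset.sum_congr rfl fun j hj => ?_
        rw [Finset.mem_range] at hj
        congr 1
        unfold VV
        rw [if_pos]
        exact (pow_dvd_pow 2 (by omega)).trans hi
      · intro j _ hj
        rw [Finset.mem_range, not_lt] at hj
        have : VV a k₀ j k = 0 := VV_not a k₀ j k fun hd => hi' ((pow_dvd_pow 2 hj).trans hd)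
        rw [this, mul_zero]
    rw [h4, norm_neg] at h3
    exact pow_le_pow_left₀ (norm_nonneg _) h3 2
  have hlim : Tendsto (fun n => 1 - ∑ j ∈ Finset.range n, ‖a k₀ j‖ ^ 2) atTop (𝓝 0) := by
    have := (wf_row_tendsto h hk₀).const_sub 1
    simpa using this
  have h7 : ‖ss a k₀ k (i + 1)‖ ^ 2 ≤ 0 :=
    ge_of_tendsto hlim (by filter_upwards [eventually_ge_atTop (i + 1)] with n hn using hkey n hn)
  have h8 : ‖ss a k₀ k (i + 1)‖ = 0 := by
    have := norm_nonneg (ss a k₀ k (i + 1))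
    nlinarith
  exact norm_eq_zero.1 h8

theorem rowOrth {P : ℤ → Prop} {N : ℕ → ℤ → Prop} {a : ℤ → ℕ → ℂ} (h : Blk P N a) (k₀ k : ℤ) (i : ℕ)
    (hi : (2:ℤ) ^ i ∣ k - k₀) (hi' : ¬ (2:ℤ) ^ (i + 1) ∣ k - k₀) : ss a k₀ k (i + 1) = 0 := by
  by_cases hk₀ : P k₀
  · exact wf_rowOrth_aux h k₀ k i hk₀ hi hi'
  · unfold ss
    refine Finset.sum_eq_zero fun l _ => ?_
    rw [h.zero k₀ l hk₀]; simp

theorem mv_zero {P : ℤ → Prop} {N : ℕ → ℤ → Prop} {a : ℤ → ℕ → ℂ} (h : Blk P N a) (k₀ : ℤ) (θ : ℝ)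
    (hk₀ : P k₀) (k : ℤ) (j : ℕ) (hk : ¬ P k) : mv θ k₀ a k j = 0 := by
  have hne : k ≠ k₀ := by rintro rfl; exact hk hk₀
  have h1 : a k j = 0 := h.zero k j hk
  have h2 : ss a k₀ k j = 0 := by
    unfold ss
    refine Finset.sum_eq_zero fun l _ => ?_
    rw [h.zero k l hk]; simp
  unfold mv
  rw [if_neg hne, if_neg hne, h1, h2]
  simp



theorem wf_sg_succ (a : ℤ → ℕ → ℂ) (k₀ : ℤ) (j : ℕ) : sg a k₀ (j + 1) = sg a k₀ j + ‖a k₀ j‖ ^ 2 :=
  Finset.sum_range_succ _ _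

theorem wf_ss_succ (a : ℤ → ℕ → ℂ) (k₀ k : ℤ) (j : ℕ) :
    ss a k₀ k (j + 1) = ss a k₀ k j + (starRingEnd ℂ) (a k₀ j) * a k j :=
  Finset.sum_range_succ _ _

theorem wf_sg_nonneg (a : ℤ → ℕ → ℂ) (k₀ : ℤ) (j : ℕ) : 0 ≤ sg a k₀ j :=
  Finset.sum_nonneg fun _ _ => by positivity

theorem wf_ss_self (a : ℤ → ℕ → ℂ) (k₀ : ℤ) (j : ℕ) : ss a k₀ k₀ j = ((sg a k₀ j : ℝ) : ℂ) := by
  unfold ss sg
  push_cast
  refine Finset.sum_congr rfl fun l _ => ?_
  rw [mul_comm, Complex.mul_conj, Complex.normSq_eq_norm_sq]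
  push_cast
  rfl

theorem wf_ss_zero (a : ℤ → ℕ → ℂ) (k₀ k : ℤ) (j : ℕ) (h : sg a k₀ j = 0) : ss a k₀ k j = 0 := by
  unfold ss
  refine Finset.sum_eq_zero fun l hl => ?_
  have h1 : ‖a k₀ l‖ ^ 2 = 0 := (Finset.sum_eq_zero_iff_of_nonneg (fun _ _ => by positivity)).1 h l hl
  have h2 : a k₀ l = 0 := by
    rw [← norm_eq_zero]; exact pow_eq_zero_iff (two_ne_zero) |>.1 h1
  rw [h2]; simp

theorem wf_alg (A A' θ : ℝ) (x b s : ℂ) (hA : 0 < A) (hθ : 0 ≤ θ) (hA' : A' = A + θ * ‖b‖ ^ 2) :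
    ‖((Real.sqrt (A / A') : ℝ) : ℂ) * x - ((θ / Real.sqrt (A * A') : ℝ) : ℂ) * b * s‖ ^ 2 =
      ‖x‖ ^ 2 - (θ * ‖s + (starRingEnd ℂ) b * x‖ ^ 2 / A' - θ * ‖s‖ ^ 2 / A) := by
  have hA'0 : 0 < A' := by rw [hA']; positivity
  set p := Real.sqrt (A / A') with hp
  set r := θ / Real.sqrt (A * A') with hr
  have hp2 : p ^ 2 = A / A' := Real.sq_sqrt (by positivity)
  have hr2 : r ^ 2 = θ ^ 2 / (A * A') := by
    rw [hr, div_pow, Real.sq_sqrt (by positivity)]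
  have hpr : p * r = θ / A' := by
    rw [hp, hr, Real.sqrt_div hA.le, Real.sqrt_mul hA.le]
    have h1 : 0 < Real.sqrt A := Real.sqrt_pos.2 hA
    have h2 : 0 < Real.sqrt A' := Real.sqrt_pos.2 hA'0
    have h3 : Real.sqrt A' * Real.sqrt A' = A' := Real.mul_self_sqrt hA'0.le
    rw [div_mul_div_comm]
    rw [div_eq_div_iff (by positivity) hA'0.ne']
    calc Real.sqrt A * θ * A' = Real.sqrt A * θ * (Real.sqrt A' * Real.sqrt A') := by rw [h3]
      _ = _ := by ring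
  have e1 : ‖(p : ℂ) * x - (r : ℂ) * b * s‖ ^ 2 = p ^ 2 * ‖x‖ ^ 2 + r ^ 2 * (‖b‖ ^ 2 * ‖s‖ ^ 2) -
      2 * (p * r) * (x.re * (b.re * s.re - b.im * s.im) + x.im * (b.re * s.im + b.im * s.re)) := by
    simp only [← Complex.normSq_eq_norm_sq, Complex.normSq_apply]
    simp only [Complex.sub_re, Complex.sub_im, Complex.mul_re, Complex.mul_im, Complex.ofReal_re,
      Complex.ofReal_im]
    ring
  have e2 : ‖s + (starRingEnd ℂ) b * x‖ ^ 2 = ‖s‖ ^ 2 + ‖b‖ ^ 2 * ‖x‖ ^ 2 +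
      2 * (x.re * (b.re * s.re - b.im * s.im) + x.im * (b.re * s.im + b.im * s.re)) := by
    simp only [← Complex.normSq_eq_norm_sq, Complex.normSq_apply]
    simp only [Complex.add_re, Complex.add_im, Complex.mul_re, Complex.mul_im, Complex.conj_re,
      Complex.conj_im]
    ring
  rw [e1, e2, hp2, hr2, hpr]
  generalize (x.re * (b.re * s.re - b.im * s.im) + x.im * (b.re * s.im + b.im * s.re)) = R
  field_simp
  rw [hA']
  ring


theorem wf_step0 (k₀ : ℤ) (θ : ℝ) (h0 : 0 ≤ θ) (h1 : θ ≤ 1) (j : ℕ) :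
    ‖mv θ k₀ a k₀ j‖ ^ 2 = sg a k₀ (j + 1) / (1 - θ + θ * sg a k₀ (j + 1)) -
      sg a k₀ j / (1 - θ + θ * sg a k₀ j) := by
  have hS := wf_sg_nonneg a k₀ j
  have hS' := wf_sg_succ a k₀ j
  have hb : 0 ≤ ‖a k₀ j‖ ^ 2 := by positivity
  unfold mv
  rw [if_pos (by simp)]
  by_cases hθ : θ < 1
  · rw [if_pos hθ, if_pos rfl]
    have hA : 0 < 1 - θ + θ * sg a k₀ j := by
      have : 0 ≤ θ * sg a k₀ j := mul_nonneg h0 hS
      linarith
    have hA' : 0 < 1 - θ + θ * sg a k₀ (j + 1) := by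
      have : 0 ≤ θ * sg a k₀ (j + 1) := mul_nonneg h0 (by linarith)
      linarith
    rw [norm_mul, mul_pow, Complex.norm_real, Real.norm_eq_abs, sq_abs, div_pow, Real.sq_sqrt (by linarith),
      Real.sq_sqrt (by positivity)]
    rw [hS'] at hA' ⊢
    field_simp
    ring
  · have hθ1 : θ = 1 := le_antisymm h1 (not_lt.1 hθ)
    rw [if_neg hθ, hθ1]
    simp only [sub_self, zero_add, one_mul]
    by_cases hs1 : sg a k₀ (j + 1) = 0
    · rw [if_pos hs1]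
      have h2 : sg a k₀ j = 0 := by linarith
      have h3 : ‖a k₀ j‖ ^ 2 = 0 := by linarith
      rw [h3, hs1, h2]; simp
    · rw [if_neg hs1]
      by_cases hs : sg a k₀ j = 0
      · rw [if_pos hs, if_pos trivial, hs]
        have h3 : ‖a k₀ j‖ ≠ 0 := by
          intro h4
          rw [hs, h4] at hS'
          apply hs1
          rw [hS']; simp
        rw [norm_div, Complex.norm_real, norm_norm, div_self h3, div_self hs1]
        simp
      · rw [if_neg hs, wf_ss_self]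
        have hpos : 0 < sg a k₀ j := lt_of_le_of_ne hS (Ne.symm hs)
        have hpos' : 0 < sg a k₀ (j + 1) := by linarith
        have h4 : Real.sqrt (sg a k₀ j / sg a k₀ (j + 1)) = 1 / Real.sqrt (sg a k₀ j * sg a k₀ (j + 1)) * sg a k₀ j := by
          rw [Real.sqrt_div hS, Real.sqrt_mul hS]
          have h5 : 0 < Real.sqrt (sg a k₀ j) := Real.sqrt_pos.2 hpos
          have h6 : 0 < Real.sqrt (sg a k₀ (j + 1)) := Real.sqrt_pos.2 hpos'
          have h7 : Real.sqrt (sg a k₀ j) * Real.sqrt (sg a k₀ j) = sg a k₀ j := Real.mul_self_sqrt hS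
          rw [one_div_mul_eq_div, div_eq_div_iff h6.ne' (by positivity)]
          calc Real.sqrt (sg a k₀ j) * (Real.sqrt (sg a k₀ j) * Real.sqrt (sg a k₀ (j + 1)))
              = (Real.sqrt (sg a k₀ j) * Real.sqrt (sg a k₀ j)) * Real.sqrt (sg a k₀ (j + 1)) := by ring
            _ = _ := by rw [h7]
        have h8 : ((Real.sqrt (sg a k₀ j / sg a k₀ (j + 1)) : ℝ) : ℂ) * a k₀ j -
            ((1 / Real.sqrt (sg a k₀ j * sg a k₀ (j + 1)) : ℝ) : ℂ) * a k₀ j * ((sg a k₀ j : ℝ) : ℂ) = 0 := by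
          rw [h4]
          push_cast
          ring
        rw [h8, div_self hs, div_self hs1]
        simp

theorem wf_step (k₀ k : ℤ) (hne : k ≠ k₀) (θ : ℝ) (h0 : 0 ≤ θ) (h1 : θ ≤ 1) (j : ℕ) (hd : (2:ℤ) ^ j ∣ k - k₀) :
    ‖mv θ k₀ a k j‖ ^ 2 = ‖a k j‖ ^ 2 - (θ * ‖ss a k₀ k (j + 1)‖ ^ 2 / (1 - θ + θ * sg a k₀ (j + 1)) -
      θ * ‖ss a k₀ k j‖ ^ 2 / (1 - θ + θ * sg a k₀ j)) := by
  have hS := wf_sg_nonneg a k₀ j
  have hS' := wf_sg_succ a k₀ j
  have hb : 0 ≤ ‖a k₀ j‖ ^ 2 := by positivity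
  rw [wf_ss_succ]
  unfold mv
  rw [if_pos hd]
  by_cases hθ : θ < 1
  · rw [if_pos hθ, if_neg hne]
    have hA : 0 < 1 - θ + θ * sg a k₀ j := by
      have : 0 ≤ θ * sg a k₀ j := mul_nonneg h0 hS
      linarith
    exact wf_alg _ _ θ _ _ _ hA h0 (by rw [hS']; ring)
  · have hθ1 : θ = 1 := le_antisymm h1 (not_lt.1 hθ)
    rw [if_neg hθ, hθ1]
    simp only [sub_self, zero_add, one_mul]
    by_cases hs1 : sg a k₀ (j + 1) = 0
    · rw [if_pos hs1]
      have h2 : sg a k₀ j = 0 := by linarith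
      rw [hs1, h2]; simp
    · rw [if_neg hs1]
      by_cases hs : sg a k₀ j = 0
      · rw [if_pos hs, if_neg hne, wf_ss_zero a k₀ k j hs, hs]
        rw [hs, zero_add] at hS'
        rw [hS'] at hs1 ⊢
        rw [zero_add, norm_mul, RCLike.norm_conj, mul_pow, norm_zero, mul_div_cancel_left₀ _ hs1]
        simp
      · rw [if_neg hs]
        have hpos : 0 < sg a k₀ j := lt_of_le_of_ne hS (Ne.symm hs)
        have := wf_alg (sg a k₀ j) (sg a k₀ (j + 1)) 1 (a k j) (a k₀ j) (ss a k₀ k j) hpos zero_le_one (by rw [hS']; ring)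
        simp only [one_mul] at this
        exact this

theorem wf_enorm_sum (f : ℕ → ℂ) (n : ℕ) :
    ∑ j ∈ Finset.range n, ‖f j‖ₑ ^ 2 = ENNReal.ofReal (∑ j ∈ Finset.range n, ‖f j‖ ^ 2) := by
  rw [ENNReal.ofReal_sum_of_nonneg (fun _ _ => by positivity)]
  refine Finset.sum_congr rfl fun j _ => ?_
  rw [ENNReal.ofReal_pow (norm_nonneg _), ofReal_norm]

theorem mv_row {P : ℤ → Prop} {N : ℕ → ℤ → Prop} {a : ℤ → ℕ → ℂ} (h : Blk P N a) (k₀ : ℤ) (θ : ℝ)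
    (h0 : 0 ≤ θ) (h1 : θ ≤ 1) (hk₀ : P k₀) (k : ℤ) (hk : P k) :
    ∑' j : ℕ, ‖mv θ k₀ a k j‖ₑ ^ 2 = 1 := by
  by_cases hne : k = k₀
  · subst hne
    have hsum : ∀ n, ∑ j ∈ Finset.range n, ‖mv θ k a k j‖ ^ 2 = sg a k n / (1 - θ + θ * sg a k n) := by
      intro n
      simp only [wf_step0 k θ h0 h1]
      rw [Finset.sum_range_sub (fun j => sg a k j / (1 - θ + θ * sg a k j))]
      have : sg a k 0 = 0 := by simp [sg]
      rw [this]; simp
    have hlim : Tendsto (fun n => sg a k n) atTop (𝓝 1) := wf_row_tendsto h hk₀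
    have hlim2 : Tendsto (fun n => sg a k n / (1 - θ + θ * sg a k n)) atTop (𝓝 (1 / (1 - θ + θ * 1))) := by
      refine hlim.div ?_ ?_
      · exact tendsto_const_nhds.add (hlim.const_mul θ)
      · rw [mul_one]; simp
    have hlim3 : Tendsto (fun n => ∑ j ∈ Finset.range n, ‖mv θ k a k j‖ₑ ^ 2) atTop (𝓝 (ENNReal.ofReal 1)) := by
      simp only [wf_enorm_sum, hsum]
      have e : (1 : ℝ) / (1 - θ + θ * 1) = 1 := by
        rw [mul_one]; simp
      rw [e] at hlim2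
      exact (ENNReal.continuous_ofReal.tendsto 1).comp hlim2
    have := tendsto_nhds_unique (ENNReal.tendsto_nat_tsum (fun j => ‖mv θ k a k j‖ₑ ^ 2)) hlim3
    rw [this]; simp
  · -- the largest power
    have hex : ∃ n : ℕ, ¬ (2:ℤ) ^ n ∣ k - k₀ := by
      refine ⟨(k - k₀).natAbs, fun hd => ?_⟩
      have h2 := Int.natAbs_dvd_natAbs.2 hd
      rw [Int.natAbs_pow] at h2
      have h3 : (k - k₀).natAbs ≠ 0 := by
        rw [Int.natAbs_ne_zero, sub_ne_zero]; exact hne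
      have h4 := Nat.le_of_dvd (Nat.pos_of_ne_zero h3) h2
      have h5 : (k - k₀).natAbs < 2 ^ (k - k₀).natAbs := Nat.lt_two_pow_self
      have h6 : Int.natAbs 2 = 2 := rfl
      rw [h6] at h4
      omega
    classical
    obtain ⟨i, hi⟩ : ∃ i, Nat.find hex = i + 1 := by
      refine ⟨Nat.find hex - 1, ?_⟩
      have : Nat.find hex ≠ 0 := by
        intro h2
        have h3 := Nat.find_spec hex
        rw [h2] at h3
        simp at h3
      omega
    have hi' : ¬ (2:ℤ) ^ (i + 1) ∣ k - k₀ := by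
      have := Nat.find_spec hex
      rwa [hi] at this
    have hid : ∀ j ≤ i, (2:ℤ) ^ j ∣ k - k₀ := by
      intro j hj
      by_contra hcon
      have := Nat.find_min' hex hcon
      omega
    have hsum : ∀ n ≤ i + 1, ∑ j ∈ Finset.range n, ‖mv θ k₀ a k j‖ ^ 2 = ∑ j ∈ Finset.range n, ‖a k j‖ ^ 2 -
        θ * ‖ss a k₀ k n‖ ^ 2 / (1 - θ + θ * sg a k₀ n) := by
      intro n
      induction n with
      | zero => intro _; simp [ss]
      | succ n ih =>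
        intro hn
        rw [Finset.sum_range_succ, Finset.sum_range_succ, ih (by omega), wf_step k₀ k hne θ h0 h1 n (hid n (by omega))]
        ring
    have hsum1 : ∑ j ∈ Finset.range (i + 1), ‖mv θ k₀ a k j‖ₑ ^ 2 = ∑ j ∈ Finset.range (i + 1), ‖a k j‖ₑ ^ 2 := by
      rw [wf_enorm_sum, wf_enorm_sum, hsum (i + 1) le_rfl, rowOrth h k₀ k i (hid i le_rfl) hi']
      simp
    have htail : ∀ j, mv θ k₀ a k (j + (i + 1)) = a k (j + (i + 1)) := by
      intro j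
      unfold mv
      rw [if_neg]
      intro hd
      exact hi' ((pow_dvd_pow 2 (by omega)).trans hd)
    rw [← h.row k hk, ← (ENNReal.summable (f := fun j => ‖mv θ k₀ a k (j + (i + 1))‖ₑ ^ 2)).sum_add_tsum_nat_add' (f := fun j => ‖mv θ k₀ a k j‖ₑ ^ 2) (k := i + 1),
      ← (ENNReal.summable (f := fun j => ‖a k (j + (i + 1))‖ₑ ^ 2)).sum_add_tsum_nat_add' (f := fun j => ‖a k j‖ₑ ^ 2) (k := i + 1), hsum1]
    simp only [htail]


end Pool.Agent.Helper152.WavRow
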