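import Pool.Agent.Helper152.WavDefs
import Pool.Agent.Helper152.WavRow

set_option autoImplicit false
open MeasureTheory Filter Topology
open scoped ENNReal

namespace Pool.Agent.Helper152.WavCol

open Pool.Agent.Helper152.Wav
open Pool.Agent.Helper152.Lar (w)
open Pool.Agent.Helper152.WavRow (rowOrth)





lemma enorm_sq_ofReal {E : Type*} [NormedAddCommGroup E] (x : E) :
    ‖x‖ₑ ^ 2 = ENNReal.ofReal (‖x‖ ^ 2) := by
  rw [← ofReal_norm, ENNReal.ofReal_pow (norm_nonneg _)]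

lemma memlp_of (f : ℤ → ℂ) (h : ∑' n, ‖f n‖ₑ ^ 2 ≠ ∞) : Memℓp (E := fun _ : ℤ => ℂ) f 2 := by
  apply memℓp_gen
  have h2 : ∀ n, ‖f n‖ₑ ^ 2 = ((‖f n‖₊ ^ 2 : NNReal) : ℝ≥0∞) := by
    intro n; simp [enorm_eq_nnnorm]
  simp_rw [h2] at h
  have h3 := ENNReal.tsum_coe_ne_top_iff_summable.1 h
  have h4 := NNReal.summable_coe.2 h3
  simpa using h4

lemma enorm_lp (f : lp (fun _ : ℤ => ℂ) 2) : ‖f‖ₑ ^ 2 = ∑' n, ‖f n‖ₑ ^ 2 := by
  have h := lp.norm_rpow_eq_tsum (p := 2) (by norm_num) f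
  have h2 : ‖f‖ ^ 2 = ∑' n, ‖f n‖ ^ 2 := by simpa using h
  have hs : Summable fun n => ‖f n‖ ^ 2 := by
    have := (lp.memℓp f).summable (by norm_num)
    simpa using this
  rw [enorm_sq_ofReal, h2, ENNReal.ofReal_tsum_of_nonneg (fun n => by positivity) hs]
  exact tsum_congr fun n => (enorm_sq_ofReal _).symm

lemma tsum_prog {M : Type*} [AddCommMonoid M] [TopologicalSpace M] (f : ℤ → M) (j : ℕ) (r : ℤ)
    (h : ∀ q, ¬ (2:ℤ) ^ j ∣ q - r → f q = 0) : ∑' m : ℤ, f (r + 2 ^ j * m) = ∑' q, f q := by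
  have hinj : Function.Injective (fun m : ℤ => r + (2:ℤ) ^ j * m) := by
    intro a b hab
    have : (2:ℤ) ^ j * a = 2 ^ j * b := by simpa using hab
    exact mul_left_cancel₀ (by positivity) this
  refine hinj.tsum_eq ?_
  intro q hq
  by_contra hcon
  apply hq
  apply h
  rintro ⟨m, hm⟩
  exact hcon ⟨m, by simp only; linarith⟩

/-- the column vector -/
def vcol (a : ℤ → ℕ → ℂ) (k₀ : ℤ) (j : ℕ) (q : ℤ) : ℂ := if (2:ℤ) ^ j ∣ q - k₀ then a q j else 0

lemma sg_succ (a : ℤ → ℕ → ℂ) (k₀ : ℤ) (j : ℕ) : sg a k₀ (j + 1) = sg a k₀ j + ‖a k₀ j‖ ^ 2 := by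
  unfold sg; rw [Finset.sum_range_succ]

lemma sg_nonneg (a : ℤ → ℕ → ℂ) (k₀ : ℤ) (j : ℕ) : 0 ≤ sg a k₀ j :=
  Finset.sum_nonneg fun _ _ => by positivity

lemma sg_mono (a : ℤ → ℕ → ℂ) (k₀ : ℤ) {i j : ℕ} (h : i ≤ j) : sg a k₀ i ≤ sg a k₀ j :=
  Finset.sum_le_sum_of_subset_of_nonneg (Finset.range_mono h) fun _ _ _ => by positivity

lemma ss_self (a : ℤ → ℕ → ℂ) (k₀ : ℤ) (j : ℕ) : ss a k₀ k₀ j = ((sg a k₀ j : ℝ) : ℂ) := by
  unfold ss sg
  push_cast
  refine Finset.sum_congr rfl fun l _ => ?_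
  rw [mul_comm, Complex.mul_conj, Complex.normSq_eq_norm_sq]
  push_cast; rfl

lemma L1 {x y v S : ℝ} (hx : 0 < x) (hy : 0 < y) (h : x ^ 2 = v ^ 2 + (1 - v ^ 2) * S) :
    x / y + -((1 - v ^ 2) / (x * y)) * S = v ^ 2 / (x * y) := by
  field_simp
  linarith

lemma L2 {x y v S B : ℝ} (hx : 0 < x) (hy : 0 < y) (h : x ^ 2 = v ^ 2 + (1 - v ^ 2) * S)
    (h' : y ^ 2 = x ^ 2 + (1 - v ^ 2) * B) :
    (x / y) ^ 2 + 2 * (x / y) * ((v - v ^ 2) / (x * y)) * B +
      B * ((-((1 - v ^ 2) / (x * y))) ^ 2 * S +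
        2 * (-((1 - v ^ 2) / (x * y))) * ((v - v ^ 2) / (x * y)) * S +
        ((v - v ^ 2) / (x * y)) ^ 2) = 1 := by
  have hS : (1 - v ^ 2) * S = x ^ 2 - v ^ 2 := by linarith
  have e : (x / y) ^ 2 + 2 * (x / y) * ((v - v ^ 2) / (x * y)) * B +
      B * ((-((1 - v ^ 2) / (x * y))) ^ 2 * S +
        2 * (-((1 - v ^ 2) / (x * y))) * ((v - v ^ 2) / (x * y)) * S +
        ((v - v ^ 2) / (x * y)) ^ 2) =
      (x ^ 4 + 2 * (v - v ^ 2) * B * x ^ 2 + B * ((1 - v ^ 2) * ((1 - v ^ 2) * S) -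
        2 * (v - v ^ 2) * ((1 - v ^ 2) * S) + (v - v ^ 2) ^ 2)) / (x ^ 2 * y ^ 2) := by
    field_simp
    ring
  rw [e, hS, div_eq_one_iff_eq (by positivity), h']
  ring

/-- real coefficients -/
lemma coeffs (θ : ℝ) (h0 : 0 ≤ θ) (h1 : θ ≤ 1) (S B : ℕ → ℝ) (hS : ∀ j, S (j + 1) = S j + B j)
    (hS0 : ∀ j, 0 ≤ S j) (hB0 : ∀ j, 0 ≤ B j) : ∃ c p q : ℕ → ℝ,
    (∀ j, c j ^ 2 + 2 * c j * q j * B j +
      B j * (p j ^ 2 * S j + 2 * p j * q j * S j + q j ^ 2) = 1) ∧
    (∀ i j, i < j → B i = 0 ∨ (c i + p i * S i) * (p j + q j) +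
      q i * (c j + p j * S j + q j) = 0) ∧
    (θ < 1 → ∀ j, c j = √((1 - θ + θ * S j) / (1 - θ + θ * S (j + 1))) ∧
      p j = -(θ / √((1 - θ + θ * S j) * (1 - θ + θ * S (j + 1)))) ∧
      c j + p j * S j + q j = √(1 - θ) / √((1 - θ + θ * S j) * (1 - θ + θ * S (j + 1)))) ∧
    (¬ θ < 1 → ∀ j, (S (j + 1) = 0 → c j = 1 ∧ p j = 0 ∧ q j = 0) ∧
      (S (j + 1) ≠ 0 → S j = 0 → c j = 0 ∧ p j = 0 ∧ q j = 1 / √(B j)) ∧
      (S (j + 1) ≠ 0 → S j ≠ 0 → c j = √(S j / S (j + 1)) ∧ p j = -(1 / √(S j * S (j + 1))) ∧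
        q j = 0)) := by
  classical
  by_cases hθ : θ < 1
  · have hu : 0 < 1 - θ := by linarith
    have hA : ∀ j, 0 < 1 - θ + θ * S j := fun j => by
      have := mul_nonneg h0 (hS0 j); linarith
    set v := √(1 - θ) with hv
    have hv2 : v ^ 2 = 1 - θ := Real.sq_sqrt hu.le
    have hθv : θ = 1 - v ^ 2 := by rw [hv2]; ring
    let x : ℕ → ℝ := fun j => √(1 - θ + θ * S j)
    have hx : ∀ j, 0 < x j := fun j => Real.sqrt_pos.2 (hA j)
    have hx2 : ∀ j, x j ^ 2 = v ^ 2 + (1 - v ^ 2) * S j := by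
      intro j
      simp only [x]
      rw [Real.sq_sqrt (hA j).le, ← hθv, hv2]
    have hx3 : ∀ j, x (j + 1) ^ 2 = x j ^ 2 + (1 - v ^ 2) * B j := by
      intro j
      rw [hx2, hx2, hS]; ring
    refine ⟨fun j => x j / x (j + 1), fun j => -((1 - v ^ 2) / (x j * x (j + 1))),
      fun j => (v - v ^ 2) / (x j * x (j + 1)), ?_, ?_, ?_, ?_⟩
    · intro j
      exact L2 (hx j) (hx (j + 1)) (hx2 j) (hx3 j)
    · intro i j _
      right
      simp only
      rw [L1 (hx i) (hx (i + 1)) (hx2 i), L1 (hx j) (hx (j + 1)) (hx2 j)]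
      have := (hx i).ne'
      have := (hx (i + 1)).ne'
      have := (hx j).ne'
      have := (hx (j + 1)).ne'
      field_simp
      ring
    · intro _ j
      refine ⟨?_, ?_, ?_⟩
      · rw [Real.sqrt_div (hA j).le]
      · rw [Real.sqrt_mul (hA j).le, ← hθv]
      · simp only
        rw [L1 (hx j) (hx (j + 1)) (hx2 j), Real.sqrt_mul (hA j).le, ← add_div]
        congr 1
        ring
    · exact fun h => absurd hθ h
  · have hSpos : ∀ j, S j ≠ 0 → 0 < S j := fun j hj => lt_of_le_of_ne (hS0 j) (Ne.symm hj)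
    have hmono : ∀ i j, i ≤ j → S i ≤ S j := by
      intro i j hij
      induction hij with
      | refl => exact le_rfl
      | step _ ih => rw [hS]; linarith [hB0 ‹ℕ›]
    let c : ℕ → ℝ := fun j => if S (j + 1) = 0 then 1 else if S j = 0 then 0 else √(S j / S (j + 1))
    let p : ℕ → ℝ := fun j => if S (j + 1) = 0 then 0 else if S j = 0 then 0 else
      -(1 / √(S j * S (j + 1)))
    let q : ℕ → ℝ := fun j => if S (j + 1) = 0 then 0 else if S j = 0 then 1 / √(B j) else 0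
    have c1 : ∀ j, S (j + 1) = 0 → c j = 1 ∧ p j = 0 ∧ q j = 0 := by
      intro j hj; simp [c, p, q, hj]
    have c2 : ∀ j, S (j + 1) ≠ 0 → S j = 0 → c j = 0 ∧ p j = 0 ∧ q j = 1 / √(B j) := by
      intro j hj hj'; simp [c, p, q, hj, hj']
    have c3 : ∀ j, S (j + 1) ≠ 0 → S j ≠ 0 → c j = √(S j / S (j + 1)) ∧
        p j = -(1 / √(S j * S (j + 1))) ∧ q j = 0 := by
      intro j hj hj'; simp [c, p, q, hj, hj']
    have c4 : ∀ j, S (j + 1) ≠ 0 → S j ≠ 0 → c j + p j * S j = 0 := by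
      intro j hj hj'
      obtain ⟨e1, e2, -⟩ := c3 j hj hj'
      rw [e1, e2, Real.sqrt_div (hS0 j), Real.sqrt_mul (hS0 j)]
      have h2 : 0 < √(S j) := Real.sqrt_pos.2 (hSpos j hj')
      have h3 : 0 < √(S (j + 1)) := Real.sqrt_pos.2 (hSpos _ hj)
      have h4 : √(S j) ^ 2 = S j := Real.sq_sqrt (hS0 j)
      field_simp
      linarith
    refine ⟨c, p, q, ?_, ?_, fun h => absurd h hθ, fun _ j => ⟨c1 j, c2 j, c3 j⟩⟩
    · intro j
      by_cases hj : S (j + 1) = 0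
      · obtain ⟨e1, e2, e3⟩ := c1 j hj
        rw [e1, e2, e3]; ring
      · by_cases hj' : S j = 0
        · obtain ⟨e1, e2, e3⟩ := c2 j hj hj'
          rw [e1, e2, e3]
          have hB : 0 < B j := by
            have := hSpos _ hj
            rw [hS, hj'] at this
            linarith
          have h4 : √(B j) ^ 2 = B j := Real.sq_sqrt hB.le
          have h5 : 0 < √(B j) := Real.sqrt_pos.2 hB
          rw [div_pow, h4, one_pow]
          field_simp
          ring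
        · have h6 := c4 j hj hj'
          obtain ⟨e1, e2, e3⟩ := c3 j hj hj'
          rw [e3]
          have h7 : c j = -(p j * S j) := by linarith
          have h8 : p j ^ 2 = 1 / (S j * S (j + 1)) := by
            rw [e2, neg_sq, div_pow, one_pow, Real.sq_sqrt (mul_nonneg (hS0 _) (hS0 _))]
          have e : c j ^ 2 + 2 * c j * 0 * B j + B j * (p j ^ 2 * S j + 2 * p j * 0 * S j + 0 ^ 2) =
              p j ^ 2 * (S j * (S j + B j)) := by
            rw [h7]; ring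
          rw [e, h8, ← hS]
          have := hSpos _ hj
          have := hSpos _ hj'
          field_simp
    · intro i j hij
      by_cases hi : S (i + 1) = 0
      · left
        have h2 := hS i
        rw [hi] at h2
        linarith [hS0 i, hB0 i]
      · right
        have hSi : 0 < S (i + 1) := hSpos _ hi
        have hj' : S j ≠ 0 := (lt_of_lt_of_le hSi (hmono _ _ hij)).ne'
        have hj : S (j + 1) ≠ 0 := (lt_of_lt_of_le hSi (hmono _ _ (by omega))).ne'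
        have h6 := c4 j hj hj'
        obtain ⟨-, -, e3⟩ := c3 j hj hj'
        rw [e3, h6]
        by_cases hi' : S i = 0
        · obtain ⟨f1, f2, f3⟩ := c2 i hi hi'
          rw [f1, f2]; ring
        · obtain ⟨-, -, f3⟩ := c3 i hi hi'
          rw [c4 i hi hi', f3]; ring

section
variable {P : ℤ → Prop} {N : ℕ → ℤ → Prop} {a : ℤ → ℕ → ℂ} (h : Blk P N a) (k₀ : ℤ) (hk₀ : P k₀)
include h hk₀

lemma vcol_norm (j : ℕ) : ∑' q, ‖vcol a k₀ j q‖ₑ ^ 2 = 1 := by
  rw [← tsum_prog (fun q => ‖vcol a k₀ j q‖ₑ ^ 2) j k₀ (fun q hq => by simp [vcol, hq])]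
  have h1 := h.col j k₀ (h.node k₀ j hk₀)
  simpa [vcol] using h1

lemma ssum (j : ℕ) (q : ℤ) : ∑ l ∈ Finset.range j, (starRingEnd ℂ) (a k₀ l) * vcol a k₀ l q =
    if (2:ℤ) ^ j ∣ q - k₀ then ss a k₀ q j else 0 := by
  by_cases hq : (2:ℤ) ^ j ∣ q - k₀
  · rw [if_pos hq]
    unfold ss
    refine Finset.sum_congr rfl fun l hl => ?_
    have hlj : l ≤ j := (Finset.mem_range.1 hl).le
    rw [vcol, if_pos ((pow_dvd_pow 2 hlj).trans hq)]
  · rw [if_neg hq]
    -- the maximal exponent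
    have hex : ∃ i, i < j ∧ (2:ℤ) ^ i ∣ q - k₀ ∧ ¬ (2:ℤ) ^ (i + 1) ∣ q - k₀ := by
      classical
      have hn : ∃ n, ¬ (2:ℤ) ^ n ∣ q - k₀ := ⟨j, hq⟩
      have h1 := Nat.find_spec hn
      have h2 : Nat.find hn ≤ j := Nat.find_min' hn hq
      have h3 : Nat.find hn ≠ 0 := by
        intro h0
        rw [h0] at h1
        simp at h1
      refine ⟨Nat.find hn - 1, by omega, ?_, ?_⟩
      · exact not_not.1 (Nat.find_min hn (by omega))
      · have : Nat.find hn - 1 + 1 = Nat.find hn := by omega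
        rw [this]; exact h1
    obtain ⟨i, hij, hi, hi'⟩ := hex
    rw [← rowOrth h k₀ q i hi hi']
    unfold ss
    rw [← Finset.sum_subset (Finset.range_mono (show i + 1 ≤ j by omega))]
    · refine Finset.sum_congr rfl fun l hl => ?_
      have hlj : l ≤ i := by have := Finset.mem_range.1 hl; omega
      rw [vcol, if_pos ((pow_dvd_pow 2 hlj).trans hi)]
    · intro l _ hl
      have hlj : i + 1 ≤ l := by
        by_contra hcon
        exact hl (Finset.mem_range.2 (by omega))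
      rw [vcol, if_neg (fun hd => hi' ((pow_dvd_pow 2 hlj).trans hd)), mul_zero]

/-- coefficients of the new columns -/
lemma exists_W (θ : ℝ) (h0 : 0 ≤ θ) (h1 : θ ≤ 1) : ∃ W : ℕ → lp (fun _ : ℤ => ℂ) 2,
    (∀ j q, W j q = if (2:ℤ) ^ j ∣ q - k₀ then mv θ k₀ a q j else 0) ∧ Orthonormal ℂ W ∧
    (∀ (i : ℕ) (f : lp (fun _ : ℤ => ℂ) 2), f k₀ = 0 →
      (∀ l ≤ i, ∑' q, vcol a k₀ l q * (starRingEnd ℂ) (f q) = 0) → inner ℂ f (W i) = 0) := by
  classical
  let V : ℕ → lp (fun _ : ℤ => ℂ) 2 := fun j =>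
    ⟨vcol a k₀ j, memlp_of _ (by rw [vcol_norm h k₀ hk₀]; simp)⟩
  let b : ℕ → ℂ := fun j => a k₀ j
  let S : ℕ → ℝ := fun j => sg a k₀ j
  have hSs : ∀ j, S (j + 1) = S j + ‖b j‖ ^ 2 := fun j => sg_succ a k₀ j
  have hS0 : ∀ j, 0 ≤ S j := fun j => sg_nonneg a k₀ j
  have hV1 : ∀ j, ‖V j‖ = 1 := by
    intro p
    have h3 := enorm_lp (V p)
    have h4 : ∑' n, ‖V p n‖ₑ ^ 2 = 1 := vcol_norm h k₀ hk₀ p
    rw [h4, enorm_sq_ofReal] at h3
    have h5 : ‖V p‖ ^ 2 = 1 := by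
      have := congrArg ENNReal.toReal h3
      rwa [ENNReal.toReal_ofReal (by positivity), ENNReal.toReal_one] at this
    exact (pow_eq_one_iff_of_nonneg (norm_nonneg _) two_ne_zero).1 h5
  have hVlt : ∀ i j, i < j → inner ℂ (V j) (V i) = 0 := by
    intro i j hij
    rw [lp.inner_eq_tsum]
    have e : ∀ q : ℤ, inner ℂ (V j q) (V i q) = vcol a k₀ i q * (starRingEnd ℂ) (vcol a k₀ j q) := by
      intro q; rw [RCLike.inner_apply]
    simp_rw [e]
    rw [← tsum_prog _ j k₀ (fun q hq => by simp [vcol, hq]), ← h.orth i j k₀ hij]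
    refine tsum_congr fun m => ?_
    rw [vcol, vcol, if_pos, if_pos]
    · exact ⟨m, by ring⟩
    · exact (pow_dvd_pow 2 hij.le).trans ⟨m, by ring⟩
  have hVV : ∀ i j, inner ℂ (V i) (V j) = if i = j then (1:ℂ) else 0 := by
    intro i j
    rcases lt_trichotomy i j with hij | hij | hij
    · rw [if_neg hij.ne]; exact inner_eq_zero_symm.1 (hVlt i j hij)
    · rw [if_pos hij, hij, inner_self_eq_norm_sq_to_K, hV1]; simp
    · rw [if_neg hij.ne']; exact hVlt j i hij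
  let e : lp (fun _ : ℤ => ℂ) 2 := lp.single 2 k₀ (1:ℂ)
  have hef : ∀ f : lp (fun _ : ℤ => ℂ) 2, inner ℂ e f = f k₀ := by
    intro f
    rw [lp.inner_single_left, RCLike.inner_apply, map_one, mul_one]
  have hfe : ∀ f : lp (fun _ : ℤ => ℂ) 2, inner ℂ f e = (starRingEnd ℂ) (f k₀) := by
    intro f
    rw [← inner_conj_symm, hef]
  let s : ℕ → lp (fun _ : ℤ => ℂ) 2 := fun j =>
    ∑ l ∈ Finset.range j, (starRingEnd ℂ) (b l) • V l
  have hsq : ∀ j q, s j q = if (2:ℤ) ^ j ∣ q - k₀ then ss a k₀ q j else 0 := by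
    intro j q
    rw [← ssum h k₀ hk₀ j q]
    simp only [s]
    rw [lp.coeFn_sum, Finset.sum_apply]
    refine Finset.sum_congr rfl fun l _ => ?_
    rw [lp.coeFn_smul]; rfl
  have hVs : ∀ l j, inner ℂ (V l) (s j) = if l < j then (starRingEnd ℂ) (b l) else 0 := by
    intro l j
    simp only [s]
    rw [inner_sum]
    simp_rw [inner_smul_right, hVV]
    simp
  have hsV : ∀ l j, inner ℂ (s j) (V l) = if l < j then b l else 0 := by
    intro l j
    rw [← inner_conj_symm, hVs]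
    split_ifs <;> simp
  have hVk : ∀ j, V j k₀ = b j := by
    intro j
    show vcol a k₀ j k₀ = _
    simp [vcol, b]
  have hsk : ∀ j, s j k₀ = ((S j : ℝ) : ℂ) := by
    intro j
    rw [hsq, if_pos (by simp), ss_self]
  have hss : ∀ i j, i ≤ j → inner ℂ (s i) (s j) = ((S i : ℝ) : ℂ) := by
    intro i j hij
    conv_lhs => rw [show s i = ∑ l ∈ Finset.range i, (starRingEnd ℂ) (b l) • V l from rfl]
    rw [sum_inner]
    simp_rw [inner_smul_left, hVs]
    simp only [S, sg]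
    push_cast
    refine Finset.sum_congr rfl fun l hl => ?_
    rw [if_pos (lt_of_lt_of_le (Finset.mem_range.1 hl) hij), Complex.conj_conj, Complex.mul_conj,
      Complex.normSq_eq_norm_sq]
    push_cast; rfl
  obtain ⟨c, p, q, hcB, hcA, hcl, hcg⟩ := coeffs θ h0 h1 S (fun j => ‖b j‖ ^ 2) hSs hS0
    (fun j => by positivity)
  let W : ℕ → lp (fun _ : ℤ => ℂ) 2 := fun j =>
    ((c j : ℝ) : ℂ) • V j + (((p j : ℝ) : ℂ) * b j) • s j + (((q j : ℝ) : ℂ) * b j) • e
  have hWin : ∀ (f : lp (fun _ : ℤ => ℂ) 2) (j : ℕ), inner ℂ f (W j) =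
      ((c j : ℝ) : ℂ) * inner ℂ f (V j) + (((p j : ℝ) : ℂ) * b j) * inner ℂ f (s j) +
        (((q j : ℝ) : ℂ) * b j) * inner ℂ f e := by
    intro f j
    simp only [W]
    rw [inner_add_right, inner_add_right, inner_smul_right, inner_smul_right, inner_smul_right]
  have hWinl : ∀ (f : lp (fun _ : ℤ => ℂ) 2) (j : ℕ), inner ℂ (W j) f =
      ((c j : ℝ) : ℂ) * inner ℂ (V j) f +
        (((p j : ℝ) : ℂ) * (starRingEnd ℂ) (b j)) * inner ℂ (s j) f +
        (((q j : ℝ) : ℂ) * (starRingEnd ℂ) (b j)) * inner ℂ e f := by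
    intro f j
    simp only [W]
    rw [inner_add_left, inner_add_left, inner_smul_left, inner_smul_left, inner_smul_left]
    simp only [map_mul, Complex.conj_ofReal]
  have hVe : ∀ j, inner ℂ (V j) e = (starRingEnd ℂ) (b j) := by
    intro j; rw [hfe, hVk]
  have hse : ∀ j, inner ℂ (s j) e = ((S j : ℝ) : ℂ) := by
    intro j; rw [hfe, hsk, Complex.conj_ofReal]
  have hee : inner ℂ e e = (1:ℂ) := by
    rw [hef]
    simp [e]
  have hbb : ∀ j, (starRingEnd ℂ) (b j) * b j = ((‖b j‖ ^ 2 : ℝ) : ℂ) := by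
    intro j
    rw [mul_comm, Complex.mul_conj, Complex.normSq_eq_norm_sq]
  have hlt : ∀ i j, i < j → inner ℂ (W i) (W j) = 0 := by
    intro i j hij
    rw [hWin, hWinl, hWinl, hWinl, hVV, hVs, hVe, hsV, hss i j hij.le, hse, hef, hVk, hef, hsk, hee,
      if_neg hij.ne, if_pos hij, if_neg (by omega)]
    have e1 : ((c j : ℝ) : ℂ) * (((c i : ℝ) : ℂ) * 0 +
        ((p i : ℝ) : ℂ) * (starRingEnd ℂ) (b i) * 0 +
        ((q i : ℝ) : ℂ) * (starRingEnd ℂ) (b i) * b j) +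
        ((p j : ℝ) : ℂ) * b j * (((c i : ℝ) : ℂ) * (starRingEnd ℂ) (b i) +
          ((p i : ℝ) : ℂ) * (starRingEnd ℂ) (b i) * ((S i : ℝ) : ℂ) +
          ((q i : ℝ) : ℂ) * (starRingEnd ℂ) (b i) * ((S j : ℝ) : ℂ)) +
        ((q j : ℝ) : ℂ) * b j * (((c i : ℝ) : ℂ) * (starRingEnd ℂ) (b i) +
          ((p i : ℝ) : ℂ) * (starRingEnd ℂ) (b i) * ((S i : ℝ) : ℂ) +
          ((q i : ℝ) : ℂ) * (starRingEnd ℂ) (b i) * 1) =
        (starRingEnd ℂ) (b i) * b j * (((c i + p i * S i) * (p j + q j) +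
          q i * (c j + p j * S j + q j) : ℝ) : ℂ) := by
      push_cast; ring
    rw [e1]
    rcases hcA i j hij with hB | hR
    · have : b i = 0 := by
        have h5 : ‖b i‖ ^ 2 = 0 := hB
        exact norm_eq_zero.1 (pow_eq_zero_iff two_ne_zero |>.1 h5)
      rw [this]; simp
    · rw [hR]; simp
  refine ⟨W, ?_, ⟨?_, ?_⟩, ?_⟩
  · intro j t
    have hWt : W j t = ((c j : ℝ) : ℂ) * (if (2:ℤ) ^ j ∣ t - k₀ then a t j else 0) +
        (((p j : ℝ) : ℂ) * b j) * (if (2:ℤ) ^ j ∣ t - k₀ then ss a k₀ t j else 0) +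
        (((q j : ℝ) : ℂ) * b j) * (if t = k₀ then 1 else 0) := by
      simp only [W]
      rw [lp.coeFn_add, lp.coeFn_add, Pi.add_apply, Pi.add_apply, lp.coeFn_smul, lp.coeFn_smul,
        lp.coeFn_smul, Pi.smul_apply, Pi.smul_apply, Pi.smul_apply, hsq]
      simp only [smul_eq_mul]
      congr 2
      simp only [e]
      rw [lp.single_apply]
      by_cases ht : t = k₀
      · subst ht; simp
      · simp [ht]
    rw [hWt]
    by_cases hd : (2:ℤ) ^ j ∣ t - k₀
    · rw [if_pos hd, if_pos hd, if_pos hd, mv, if_pos hd]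
      by_cases hθ : θ < 1
      · rw [if_pos hθ]
        obtain ⟨e1, e2, e3⟩ := hcl hθ j
        by_cases ht : t = k₀
        · rw [if_pos ht, if_pos ht]
          subst ht
          rw [ss_self]
          simp only [S] at e1 e2 e3
          rw [← e3]
          simp only [b]
          push_cast
          ring
        · rw [if_neg ht, if_neg ht]
          simp only [S] at e1 e2 e3
          rw [e1, e2]
          simp only [b]
          push_cast
          ring
      · rw [if_neg hθ]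
        obtain ⟨g1, g2, g3⟩ := hcg hθ j
        simp only [S] at g1 g2 g3
        by_cases hj : sg a k₀ (j + 1) = 0
        · rw [if_pos hj]
          obtain ⟨e1, e2, e3⟩ := g1 hj
          rw [e1, e2, e3]; simp
        · rw [if_neg hj]
          by_cases hj' : sg a k₀ j = 0
          · rw [if_pos hj']
            obtain ⟨e1, e2, e3⟩ := g2 hj hj'
            rw [e1, e2, e3, Real.sqrt_sq (norm_nonneg _)]
            split_ifs
            · simp only [b]
              push_cast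
              ring
            · simp
          · rw [if_neg hj']
            obtain ⟨e1, e2, e3⟩ := g3 hj hj'
            rw [e1, e2, e3]
            simp only [b]
            push_cast
            ring
    · rw [if_neg hd, if_neg hd, if_neg hd, if_neg]
      · simp
      · rintro rfl
        simp at hd
  · intro j
    have h5 : inner ℂ (W j) (W j) = (1:ℂ) := by
      rw [hWin, hWinl, hWinl, hWinl, hVV, hVs, hVe, hsV, hss j j le_rfl, hse, hef, hVk, hef, hsk,
        hee, if_pos rfl, if_neg (by omega), if_neg (by omega)]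
      have e1 : ((c j : ℝ) : ℂ) * (((c j : ℝ) : ℂ) * 1 +
          ((p j : ℝ) : ℂ) * (starRingEnd ℂ) (b j) * 0 +
          ((q j : ℝ) : ℂ) * (starRingEnd ℂ) (b j) * b j) +
          ((p j : ℝ) : ℂ) * b j * (((c j : ℝ) : ℂ) * 0 +
            ((p j : ℝ) : ℂ) * (starRingEnd ℂ) (b j) * ((S j : ℝ) : ℂ) +
            ((q j : ℝ) : ℂ) * (starRingEnd ℂ) (b j) * ((S j : ℝ) : ℂ)) +
          ((q j : ℝ) : ℂ) * b j * (((c j : ℝ) : ℂ) * (starRingEnd ℂ) (b j) +
            ((p j : ℝ) : ℂ) * (starRingEnd ℂ) (b j) * ((S j : ℝ) : ℂ) +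
            ((q j : ℝ) : ℂ) * (starRingEnd ℂ) (b j) * 1) =
          ((c j : ℝ) : ℂ) ^ 2 + 2 * ((c j : ℝ) : ℂ) * ((q j : ℝ) : ℂ) *
            ((starRingEnd ℂ) (b j) * b j) +
            ((starRingEnd ℂ) (b j) * b j) * (((p j : ℝ) : ℂ) ^ 2 * ((S j : ℝ) : ℂ) +
              2 * ((p j : ℝ) : ℂ) * ((q j : ℝ) : ℂ) * ((S j : ℝ) : ℂ) + ((q j : ℝ) : ℂ) ^ 2) := by
        ring
      rw [e1, hbb]
      have h6 := hcB j
      have h7 := congrArg (fun x : ℝ => (x : ℂ)) h6
      push_cast at h7 ⊢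
      exact h7
    have h6 : ‖W j‖ ^ 2 = 1 := by
      have h8 := inner_self_eq_norm_sq (𝕜 := ℂ) (W j)
      rw [h5] at h8
      simpa using h8.symm
    exact (pow_eq_one_iff_of_nonneg (norm_nonneg _) two_ne_zero).1 h6
  · intro i j hij
    show inner ℂ (W i) (W j) = 0
    rcases lt_or_gt_of_ne hij with hl | hl
    · exact hlt i j hl
    · exact inner_eq_zero_symm.1 (hlt j i hl)
  · intro i f hfk hfl
    have hfV : ∀ l ≤ i, inner ℂ f (V l) = 0 := by
      intro l hl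
      rw [lp.inner_eq_tsum, ← hfl l hl]
      refine tsum_congr fun t => ?_
      rw [RCLike.inner_apply]
    have hfs : inner ℂ f (s i) = 0 := by
      simp only [s]
      rw [inner_sum]
      refine Finset.sum_eq_zero fun l hl => ?_
      rw [inner_smul_right, hfV l (Finset.mem_range.1 hl).le, mul_zero]
    rw [hWin, hfV i le_rfl, hfs, hfe, hfk]
    simp

end

theorem mv_col {P : ℤ → Prop} {N : ℕ → ℤ → Prop} {a : ℤ → ℕ → ℂ} (h : Blk P N a) (k₀ : ℤ) (θ : ℝ)
    (h0 : 0 ≤ θ) (h1 : θ ≤ 1) (hk₀ : P k₀) (j : ℕ) (r : ℤ) (hN : N j r) :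
    ∑' m : ℤ, ‖mv θ k₀ a (r + 2 ^ j * m) j‖ₑ ^ 2 = 1 := by
  by_cases hr : (2:ℤ) ^ j ∣ r - k₀
  · obtain ⟨W, hW, hO, -⟩ := exists_W h k₀ hk₀ θ h0 h1
    have h2 := enorm_lp (W j)
    rw [enorm_sq_ofReal, hO.1 j] at h2
    have h3 : ∑' m : ℤ, ‖W j (r + 2 ^ j * m)‖ₑ ^ 2 = ∑' q, ‖W j q‖ₑ ^ 2 := by
      refine tsum_prog (fun q => ‖W j q‖ₑ ^ 2) j r (fun q hq => ?_)
      rw [hW, if_neg, enorm_zero]; · norm_num
      intro hd
      apply hq
      have e : q - r = (q - k₀) - (r - k₀) := by ring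
      rw [e]; exact dvd_sub hd hr
    have h4 : ∀ m : ℤ, W j (r + 2 ^ j * m) = mv θ k₀ a (r + 2 ^ j * m) j := by
      intro m
      rw [hW, if_pos]
      have e : r + 2 ^ j * m - k₀ = (r - k₀) + 2 ^ j * m := by ring
      rw [e]; exact dvd_add hr ⟨m, rfl⟩
    simp_rw [h4] at h3
    rw [h3, ← h2]; simp
  · rw [← h.col j r hN]
    refine tsum_congr fun m => ?_
    rw [mv, if_neg]
    intro hd
    apply hr
    have e : r - k₀ = (r + 2 ^ j * m - k₀) - 2 ^ j * m := by ring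
    rw [e]; exact dvd_sub hd ⟨m, rfl⟩

theorem mv_orth {P : ℤ → Prop} {N : ℕ → ℤ → Prop} {a : ℤ → ℕ → ℂ} (h : Blk P N a) (k₀ : ℤ) (θ : ℝ)
    (h0 : 0 ≤ θ) (h1 : θ ≤ 1) (hk₀ : P k₀) (i j : ℕ) (r : ℤ) (hij : i < j) :
    ∑' m : ℤ, mv θ k₀ a (r + 2 ^ j * m) i * (starRingEnd ℂ) (mv θ k₀ a (r + 2 ^ j * m) j) = 0 := by
  have hdvd : ∀ (l : ℕ), l ≤ j → ∀ m : ℤ, (2:ℤ) ^ l ∣ r + 2 ^ j * m - k₀ ↔ (2:ℤ) ^ l ∣ r - k₀ := by
    intro l hl m
    have e : r + 2 ^ j * m - k₀ = (r - k₀) + 2 ^ j * m := by ring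
    rw [e]
    exact dvd_add_left ((pow_dvd_pow 2 hl).trans ⟨m, rfl⟩)
  obtain ⟨W, hW, hO, hWf⟩ := exists_W h k₀ hk₀ θ h0 h1
  by_cases hi : (2:ℤ) ^ i ∣ r - k₀
  · have hWi : ∀ m : ℤ, W i (r + 2 ^ j * m) = mv θ k₀ a (r + 2 ^ j * m) i := by
      intro m
      rw [hW, if_pos ((hdvd i hij.le m).2 hi)]
    by_cases hj : (2:ℤ) ^ j ∣ r - k₀
    · have h2 : inner ℂ (W j) (W i) = 0 := hO.2 hij.ne'
      rw [lp.inner_eq_tsum] at h2
      have e : ∀ q : ℤ, inner ℂ (W j q) (W i q) = W i q * (starRingEnd ℂ) (W j q) := by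
        intro q; rw [RCLike.inner_apply]
      simp_rw [e] at h2
      rw [← tsum_prog (fun q => W i q * (starRingEnd ℂ) (W j q)) j r] at h2
      · rw [← h2]
        refine tsum_congr fun m => ?_
        rw [hWi, hW j, if_pos ((hdvd j le_rfl m).2 hj)]
      · intro q hq
        rw [hW j, if_neg, map_zero, mul_zero]
        intro hd
        apply hq
        have e : q - r = (q - k₀) - (r - k₀) := by ring
        rw [e]; exact dvd_sub hd hj
    · have hmvj : ∀ m : ℤ, mv θ k₀ a (r + 2 ^ j * m) j = a (r + 2 ^ j * m) j := by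
        intro m
        rw [mv, if_neg (fun hd => hj ((hdvd j le_rfl m).1 hd))]
      by_cases hN : N j r
      · -- the unchanged column as a vector
        have hc : ∑' q, ‖vcol a r j q‖ₑ ^ 2 = 1 := by
          rw [← tsum_prog (fun q => ‖vcol a r j q‖ₑ ^ 2) j r (fun q hq => by simp [vcol, hq])]
          simpa [vcol] using h.col j r hN
        let f : lp (fun _ : ℤ => ℂ) 2 := ⟨vcol a r j, memlp_of _ (by rw [hc]; simp)⟩
        have hfk : f k₀ = 0 := by
          show vcol a r j k₀ = 0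
          rw [vcol, if_neg]
          intro hd
          apply hj
          rw [← dvd_neg]; simpa using hd
        have hfl : ∀ l ≤ i, ∑' q, vcol a k₀ l q * (starRingEnd ℂ) (f q) = 0 := by
          intro l hl
          rw [← tsum_prog (fun q => vcol a k₀ l q * (starRingEnd ℂ) (f q)) j r]
          · rw [← h.orth l j r (lt_of_le_of_lt hl hij)]
            refine tsum_congr fun m => ?_
            show vcol a k₀ l (r + 2 ^ j * m) * (starRingEnd ℂ) (vcol a r j (r + 2 ^ j * m)) = _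
            rw [vcol, if_pos ((hdvd l (hl.trans hij.le) m).2 ((pow_dvd_pow 2 hl).trans hi)), vcol,
              if_pos ⟨m, by ring⟩]
          · intro q hq
            show vcol a k₀ l q * (starRingEnd ℂ) (vcol a r j q) = 0
            rw [vcol.eq_def a r, if_neg hq, map_zero, mul_zero]
        have h2 := hWf i f hfk hfl
        rw [lp.inner_eq_tsum] at h2
        have e : ∀ q : ℤ, inner ℂ (f q) (W i q) = W i q * (starRingEnd ℂ) (vcol a r j q) := by
          intro q; rw [RCLike.inner_apply]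
        simp_rw [e] at h2
        rw [← tsum_prog (fun q => W i q * (starRingEnd ℂ) (vcol a r j q)) j r] at h2
        · rw [← h2]
          refine tsum_congr fun m => ?_
          rw [hWi, hmvj, vcol, if_pos ⟨m, by ring⟩]
        · intro q hq
          rw [vcol, if_neg hq, map_zero, mul_zero]
      · have hz : ∀ m : ℤ, a (r + 2 ^ j * m) j = 0 := by
          intro m
          apply h.zero
          intro hP
          exact hN ((h.per j r m).1 (h.node _ j hP))
        have : ∀ m : ℤ, mv θ k₀ a (r + 2 ^ j * m) i *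
            (starRingEnd ℂ) (mv θ k₀ a (r + 2 ^ j * m) j) = 0 := by
          intro m
          rw [hmvj, hz, map_zero, mul_zero]
        simp_rw [this]; simp
  · rw [← h.orth i j r hij]
    refine tsum_congr fun m => ?_
    rw [mv, if_neg (fun hd => hi ((hdvd i hij.le m).1 hd)), mv, if_neg]
    intro hd
    exact hi ((hdvd i hij.le m).1 ((pow_dvd_pow 2 hij.le).trans hd))

end Pool.Agent.Helper152.WavCol
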