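import Pool.Agent.Helper152.WavDefs

set_option autoImplicit false
open MeasureTheory Filter Topology
open scoped ENNReal

namespace Pool.Agent.Helper152.WavMv

open Pool.Agent.Helper152.Wav
open Pool.Agent.Helper152.Lar (w)





theorem sg_nonneg (a : ℤ → ℕ → ℂ) (k₀ : ℤ) (j : ℕ) : 0 ≤ sg a k₀ j :=
  Finset.sum_nonneg fun _ _ => sq_nonneg _

theorem sg_succ (a : ℤ → ℕ → ℂ) (k₀ : ℤ) (j : ℕ) :
    sg a k₀ (j + 1) = sg a k₀ j + ‖a k₀ j‖ ^ 2 := Finset.sum_range_succ _ _

theorem sg_zero_iff {a : ℤ → ℕ → ℂ} {k₀ : ℤ} {j : ℕ} (h : sg a k₀ j = 0) :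
    ∀ l < j, a k₀ l = 0 := by
  intro l hl
  have h1 := (Finset.sum_eq_zero_iff_of_nonneg (fun _ _ => sq_nonneg _)).1 h l
    (Finset.mem_range.2 hl)
  exact norm_eq_zero.1 (pow_eq_zero_iff (by norm_num) |>.1 h1)

theorem ss_zero {a : ℤ → ℕ → ℂ} {k₀ : ℤ} {j : ℕ} (h : ∀ l < j, a k₀ l = 0) (k : ℤ) :
    ss a k₀ k j = 0 := by
  refine Finset.sum_eq_zero fun l hl => ?_
  rw [h l (Finset.mem_range.1 hl)]
  simp

theorem ss_self (a : ℤ → ℕ → ℂ) (k₀ : ℤ) (j : ℕ) : ss a k₀ k₀ j = ((sg a k₀ j : ℝ) : ℂ) := by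
  unfold ss sg
  rw [Complex.ofReal_sum]
  refine Finset.sum_congr rfl fun l _ => ?_
  rw [mul_comm, Complex.mul_conj, Complex.normSq_eq_norm_sq]

/-- nothing happens if the row is zero -/
theorem mv_inactive (θ : ℝ) (k₀ : ℤ) (a : ℤ → ℕ → ℂ) (h : ∀ j, a k₀ j = 0) : mv θ k₀ a = a := by
  have h1 : ∀ j, sg a k₀ j = 0 := fun j => Finset.sum_eq_zero fun l _ => by rw [h l]; simp
  have h2 : ∀ k j, ss a k₀ k j = 0 := fun k j => ss_zero (fun l _ => h l) k
  funext k j
  unfold mv
  split_ifs with c1 c2 c3 c4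
  · rw [c3, h j, mul_zero]
  · rw [h1, h1, mul_zero, add_zero, div_self (by linarith), Real.sqrt_one, h2, mul_zero, sub_zero,
      Complex.ofReal_one, one_mul]
  · rfl
  · exact absurd (h1 _) c4
  · exact absurd (h1 _) c4
  · exact absurd (h1 _) c4
  · rfl

theorem mv_start (k₀ : ℤ) (a : ℤ → ℕ → ℂ) : mv 0 k₀ a = a := by
  funext k j
  unfold mv
  by_cases c1 : (2:ℤ) ^ j ∣ k - k₀
  · rw [if_pos c1, if_pos (zero_lt_one)]
    by_cases c2 : k = k₀
    · rw [if_pos c2, c2]
      simp
    · rw [if_neg c2]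
      simp
  · rw [if_neg c1]

theorem mv_cont (k₀ : ℤ) (a : ℤ → ℕ → ℂ) (k : ℤ) (j : ℕ) :
    ContinuousOn (fun θ => mv θ k₀ a k j) (Set.Icc 0 1) := by
  by_cases c1 : (2:ℤ) ^ j ∣ k - k₀
  swap
  · have : (fun θ => mv θ k₀ a k j) = fun _ => a k j := by
      funext θ
      unfold mv
      rw [if_neg c1]
    rw [this]
    exact continuousOn_const
  have hSn := sg_nonneg a k₀ j
  have hSs := sg_succ a k₀ j
  have hself := ss_self a k₀ j
  have hz1 := sg_zero_iff (a := a) (k₀ := k₀) (j := j)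
  have hz2 := fun h => ss_zero (a := a) (k₀ := k₀) (j := j) h k
  have hform : ∀ θ, mv θ k₀ a k j = if θ < 1 then
      (if k = k₀ then
        ((Real.sqrt (1 - θ) / Real.sqrt ((1 - θ + θ * sg a k₀ j) * (1 - θ + θ * sg a k₀ (j + 1))) : ℝ) : ℂ)
          * a k₀ j
      else
        ((Real.sqrt ((1 - θ + θ * sg a k₀ j) / (1 - θ + θ * sg a k₀ (j + 1))) : ℝ) : ℂ) * a k j -
        ((θ / Real.sqrt ((1 - θ + θ * sg a k₀ j) * (1 - θ + θ * sg a k₀ (j + 1))) : ℝ) : ℂ)
          * a k₀ j * ss a k₀ k j)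
    else
      (if sg a k₀ (j + 1) = 0 then a k j
      else if sg a k₀ j = 0 then (if k = k₀ then a k₀ j / ((‖a k₀ j‖ : ℝ) : ℂ) else 0)
      else ((Real.sqrt (sg a k₀ j / sg a k₀ (j + 1)) : ℝ) : ℂ) * a k j -
        ((1 / Real.sqrt (sg a k₀ j * sg a k₀ (j + 1)) : ℝ) : ℂ) * a k₀ j * ss a k₀ k j) := by
    intro θ
    unfold mv
    rw [if_pos c1]
  simp only [hform]
  clear hform
  generalize sg a k₀ (j + 1) = S' at hSs ⊢
  generalize hSdef : sg a k₀ j = S at hSn hSs hself hz1 hz2 ⊢
  obtain ⟨b, hb⟩ : ∃ b, b = a k₀ j := ⟨_, rfl⟩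
  rw [← hb] at hSs ⊢
  have hbn : 0 ≤ ‖b‖ ^ 2 := sq_nonneg _
  by_cases hS' : S' = 0
  · -- everything is constant
    have hS0 : S = 0 := by linarith
    have hb0 : b = 0 := by
      have : ‖b‖ ^ 2 = 0 := by linarith
      exact norm_eq_zero.1 (pow_eq_zero_iff (by norm_num) |>.1 this)
    have hss := hz2 (hz1 hS0)
    refine ContinuousOn.congr (f := fun _ => a k j) continuousOn_const fun θ hθ => ?_
    simp only
    by_cases c2 : θ < 1
    · rw [if_pos c2]
      by_cases c3 : k = k₀
      · rw [if_pos c3, hb0, mul_zero, c3, ← hb, hb0]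
      · rw [if_neg c3, hS0, hS', mul_zero, add_zero, div_self (by linarith), Real.sqrt_one, hss]
        simp
    · rw [if_neg c2, if_pos hS']
  · have hS'pos : 0 < S' := lt_of_le_of_ne (by linarith) (Ne.symm hS')
    have hA' : ∀ θ ∈ Set.Icc (0:ℝ) 1, 0 < 1 - θ + θ * S' := by
      intro θ hθ
      rcases hθ.2.lt_or_eq with h | h
      · have := mul_nonneg hθ.1 hS'pos.le
        linarith
      · rw [h]; linarith
    by_cases hS0 : S = 0
    · have hss := hz2 (hz1 hS0)
      by_cases c3 : k = k₀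
      · refine ContinuousOn.congr (f := fun θ : ℝ => ((1 / Real.sqrt (1 - θ + θ * S') : ℝ) : ℂ) * b)
          ?_ fun θ hθ => ?_
        · refine ContinuousOn.mul ?_ continuousOn_const
          refine Complex.continuous_ofReal.comp_continuousOn ?_
          refine continuousOn_const.div (Continuous.continuousOn (by fun_prop)) fun θ hθ => ?_
          exact (Real.sqrt_pos.2 (hA' θ hθ)).ne'
        · simp only
          by_cases c2 : θ < 1
          · rw [if_pos c2, if_pos c3, hS0, mul_zero, add_zero,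
              Real.sqrt_mul (by linarith : 0 ≤ 1 - θ)]
            have h1 : Real.sqrt (1 - θ) ≠ 0 := (Real.sqrt_pos.2 (by linarith)).ne'
            have h2 : Real.sqrt (1 - θ + θ * S') ≠ 0 := (Real.sqrt_pos.2 (hA' θ hθ)).ne'
            congr 2
            field_simp
          · have h1 : θ = 1 := le_antisymm hθ.2 (not_lt.1 c2)
            rw [if_neg c2, if_neg hS', if_pos hS0, if_pos c3, h1]
            have h2 : (1 : ℝ) - 1 + 1 * S' = ‖b‖ ^ 2 := by linarith
            rw [h2, Real.sqrt_sq (norm_nonneg _)]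
            push_cast
            ring
      · refine ContinuousOn.congr
          (f := fun θ : ℝ => ((Real.sqrt ((1 - θ) / (1 - θ + θ * S')) : ℝ) : ℂ) * a k j)
          ?_ fun θ hθ => ?_
        · refine ContinuousOn.mul ?_ continuousOn_const
          refine Complex.continuous_ofReal.comp_continuousOn ?_
          refine Real.continuous_sqrt.comp_continuousOn ?_
          refine ContinuousOn.div (Continuous.continuousOn (by fun_prop))
            (Continuous.continuousOn (by fun_prop)) fun θ hθ => ?_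
          exact (hA' θ hθ).ne'
        · simp only
          by_cases c2 : θ < 1
          · rw [if_pos c2, if_neg c3, hS0, mul_zero, add_zero, hss, mul_zero, sub_zero]
          · have h1 : θ = 1 := le_antisymm hθ.2 (not_lt.1 c2)
            rw [if_neg c2, if_neg hS', if_pos hS0, if_neg c3, h1]
            simp
    · have hSpos : 0 < S := lt_of_le_of_ne hSn (Ne.symm hS0)
      have hA : ∀ θ ∈ Set.Icc (0:ℝ) 1, 0 < 1 - θ + θ * S := by
        intro θ hθ
        rcases hθ.2.lt_or_eq with h | h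
        · have := mul_nonneg hθ.1 hSpos.le
          linarith
        · rw [h]; linarith
      by_cases c3 : k = k₀
      · refine ContinuousOn.congr (f := fun θ : ℝ => ((Real.sqrt (1 - θ) /
          Real.sqrt ((1 - θ + θ * S) * (1 - θ + θ * S')) : ℝ) : ℂ) * b) ?_ fun θ hθ => ?_
        · refine ContinuousOn.mul ?_ continuousOn_const
          refine Complex.continuous_ofReal.comp_continuousOn ?_
          refine ContinuousOn.div (Continuous.continuousOn (by fun_prop))
            (Continuous.continuousOn (by fun_prop)) fun θ hθ => ?_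
          exact (Real.sqrt_pos.2 (mul_pos (hA θ hθ) (hA' θ hθ))).ne'
        · simp only
          by_cases c2 : θ < 1
          · rw [if_pos c2, if_pos c3]
          · have h1 : θ = 1 := le_antisymm hθ.2 (not_lt.1 c2)
            rw [if_neg c2, if_neg hS', if_neg hS0, h1, c3, hself, ← hb]
            have h2 : Real.sqrt (S / S') = S / Real.sqrt (S * S') := by
              rw [Real.sqrt_div hSn, Real.sqrt_mul hSn]
              have e1 : Real.sqrt S ≠ 0 := (Real.sqrt_pos.2 hSpos).ne'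
              have e2 : Real.sqrt S' ≠ 0 := (Real.sqrt_pos.2 hS'pos).ne'
              rw [div_eq_div_iff e2 (mul_ne_zero e1 e2)]
              have e3 := Real.mul_self_sqrt hSn
              calc Real.sqrt S * (Real.sqrt S * Real.sqrt S') =
                    (Real.sqrt S * Real.sqrt S) * Real.sqrt S' := by ring
                _ = S * Real.sqrt S' := by rw [e3]
            rw [h2]
            simp
            ring
      · refine ContinuousOn.congr (f := fun θ : ℝ =>
          ((Real.sqrt ((1 - θ + θ * S) / (1 - θ + θ * S')) : ℝ) : ℂ) * a k j -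
          ((θ / Real.sqrt ((1 - θ + θ * S) * (1 - θ + θ * S')) : ℝ) : ℂ) * b * ss a k₀ k j)
          ?_ fun θ hθ => ?_
        · refine ContinuousOn.sub (ContinuousOn.mul ?_ continuousOn_const)
            (ContinuousOn.mul (ContinuousOn.mul ?_ continuousOn_const) continuousOn_const)
          · refine Complex.continuous_ofReal.comp_continuousOn ?_
            refine Real.continuous_sqrt.comp_continuousOn ?_
            refine ContinuousOn.div (Continuous.continuousOn (by fun_prop))
              (Continuous.continuousOn (by fun_prop)) fun θ hθ => ?_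
            exact (hA' θ hθ).ne'
          · refine Complex.continuous_ofReal.comp_continuousOn ?_
            refine ContinuousOn.div (Continuous.continuousOn (by fun_prop))
              (Continuous.continuousOn (by fun_prop)) fun θ hθ => ?_
            exact (Real.sqrt_pos.2 (mul_pos (hA θ hθ) (hA' θ hθ))).ne'
        · simp only
          by_cases c2 : θ < 1
          · rw [if_pos c2, if_neg c3]
          · have h1 : θ = 1 := le_antisymm hθ.2 (not_lt.1 c2)
            rw [if_neg c2, if_neg hS', if_neg hS0, h1]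
            simp

theorem mv_measurable {Ω : Type*} [MeasurableSpace Ω] (a : Ω → ℤ → ℕ → ℂ)
    (ha : ∀ k j, Measurable fun ω => a ω k j) (θ : ℝ) (k₀ : ℤ) (k : ℤ) (j : ℕ) :
    Measurable fun ω => mv θ k₀ (a ω) k j := by
  have hsg : ∀ j, Measurable fun ω => sg (a ω) k₀ j := by
    intro j
    unfold sg
    exact Finset.measurable_sum _ fun l _ => ((ha k₀ l).norm).pow_const 2
  have hss : Measurable fun ω => ss (a ω) k₀ k j := by
    unfold ss
    refine Finset.measurable_sum _ fun l _ => ?_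
    exact (Complex.continuous_conj.measurable.comp (ha k₀ l)).mul (ha k l)
  have h1 := hsg j
  have h2 := hsg (j + 1)
  have h3 := ha k₀ j
  have h4 := ha k j
  unfold mv
  by_cases c1 : (2:ℤ) ^ j ∣ k - k₀
  · simp only [if_pos c1]
    by_cases c2 : θ < 1
    · simp only [if_pos c2]
      by_cases c3 : k = k₀
      · simp only [if_pos c3]
        fun_prop
      · simp only [if_neg c3]
        fun_prop
    · simp only [if_neg c2]
      refine Measurable.ite (measurableSet_eq_fun h2 measurable_const) h4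
        (Measurable.ite (measurableSet_eq_fun h1 measurable_const) ?_ ?_)
      · by_cases c3 : k = k₀
        · simp only [if_pos c3]
          fun_prop
        · simp only [if_neg c3]
          fun_prop
      · fun_prop
  · simp only [if_neg c1]
    exact h4

/-- clamp to the unit interval -/
noncomputable def cl (x : ℝ) : ℝ := max 0 (min x 1)

theorem cl_mem (x : ℝ) : cl x ∈ Set.Icc (0:ℝ) 1 :=
  ⟨le_max_left _ _, max_le zero_le_one (min_le_right _ _)⟩

theorem cl_cont : Continuous cl := by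
  unfold cl
  fun_prop

theorem cl_of_le {x : ℝ} (h : x ≤ 0) : cl x = 0 :=
  max_eq_left ((min_le_left _ _).trans h)

theorem cl_of_ge {x : ℝ} (h : 1 ≤ x) : cl x = 1 := by
  unfold cl
  rw [min_eq_right h, max_eq_right zero_le_one]

theorem cl_of_mem {x : ℝ} (h : 0 ≤ x) (h' : x ≤ 1) : cl x = x := by
  unfold cl
  rw [min_eq_left h', max_eq_right h]

/-- glued function -/
noncomputable def CC (g : ℕ → ℝ → ℂ) (N : ℕ) (τ : ℝ) : ℂ :=
  g 0 (cl τ) + ∑ n ∈ Finset.range N, (g (n + 1) (cl (τ - (n + 1))) - g (n + 1) 0)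

theorem CC_succ (g : ℕ → ℝ → ℂ) (N : ℕ) (τ : ℝ) :
    CC g (N + 1) τ = CC g N τ + (g (N + 1) (cl (τ - (N + 1))) - g (N + 1) 0) := by
  unfold CC
  rw [Finset.sum_range_succ, add_assoc]

theorem CC_cont (g : ℕ → ℝ → ℂ) (hc : ∀ n, ContinuousOn (g n) (Set.Icc 0 1)) (N : ℕ) :
    Continuous (CC g N) := by
  have h1 : ∀ n, ∀ c : ℝ, Continuous fun τ : ℝ => g n (cl (τ - c)) := by
    intro n c
    exact (hc n).comp_continuous (cl_cont.comp (continuous_id.sub continuous_const))
      fun τ => cl_mem _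
  unfold CC
  refine Continuous.add ?_ (continuous_finsetSum _ fun n _ => (h1 _ _).sub continuous_const)
  have h2 := h1 0 0
  simpa using h2

theorem CC_ge (g : ℕ → ℝ → ℂ) (hg : ∀ n, g n 1 = g (n + 1) 0) (N : ℕ) :
    ∀ τ : ℝ, (N : ℝ) + 1 ≤ τ → CC g N τ = g N 1 := by
  induction N with
  | zero =>
    intro τ h
    unfold CC
    rw [cl_of_ge (by simpa using h)]
    simp
  | succ N ih =>
    intro τ h
    push_cast at h
    rw [CC_succ, ih τ (by linarith), cl_of_ge (by linarith), hg N]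
    ring

theorem CC_eq (g : ℕ → ℝ → ℂ) (hg : ∀ n, g n 1 = g (n + 1) 0) (N : ℕ) :
    ∀ τ : ℝ, 0 ≤ τ → τ < N + 1 → CC g N τ = g ⌊τ⌋₊ (Int.fract τ) := by
  induction N with
  | zero =>
    intro τ h0 h1
    have h2 : ⌊τ⌋₊ = 0 := Nat.floor_eq_zero.2 (by simpa using h1)
    have h3 : Int.fract τ = τ := Int.fract_eq_self.2 ⟨h0, by simpa using h1⟩
    rw [h2, h3]
    unfold CC
    rw [cl_of_mem h0 (by simpa using h1.le)]
    simp
  | succ N ih =>
    intro τ h0 h1
    push_cast at h1
    rw [CC_succ]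
    rcases lt_or_ge τ (N + 1) with h2 | h2
    · rw [ih τ h0 h2, cl_of_le (by linarith)]
      ring
    · rw [CC_ge g hg N τ h2, hg N]
      have h3 : ⌊τ⌋₊ = N + 1 := by
        rw [Nat.floor_eq_iff h0]
        push_cast
        exact ⟨h2, h1⟩
      have h4 : Int.fract τ = τ - (N + 1) := by
        have h5 : ⌊τ⌋ = (N : ℤ) + 1 := by
          rw [Int.floor_eq_iff]
          push_cast
          exact ⟨h2, h1⟩
        unfold Int.fract
        rw [h5]
        push_cast
        ring
      rw [h3, h4, cl_of_mem (by linarith) (by linarith)]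
      ring

/-- gluing countably many pieces, eventually constant -/
theorem glue (g : ℕ → ℝ → ℂ) (L : ℂ) (hc : ∀ n, ContinuousOn (g n) (Set.Icc 0 1))
    (hg : ∀ n, g n 1 = g (n + 1) 0) (n₀ : ℕ) (hL : ∀ n, n₀ ≤ n → ∀ θ ∈ Set.Icc (0:ℝ) 1, g n θ = L) :
    ContinuousOn (fun t : ℝ => if t < 1 then g ⌊t / (1 - t)⌋₊ (Int.fract (t / (1 - t))) else L)
      (Set.Icc 0 1) := by
  have hfr : ∀ τ : ℝ, Int.fract τ ∈ Set.Icc (0:ℝ) 1 := fun τ =>
    ⟨Int.fract_nonneg τ, (Int.fract_lt_one τ).le⟩
  have hCL : ∀ τ : ℝ, (n₀ : ℝ) + 1 ≤ τ → CC g n₀ τ = L := by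
    intro τ h
    rw [CC_ge g hg n₀ τ h]
    exact hL n₀ le_rfl 1 ⟨zero_le_one, le_rfl⟩
  have hF : ∀ τ : ℝ, 0 ≤ τ → g ⌊τ⌋₊ (Int.fract τ) = CC g n₀ τ := by
    intro τ h0
    rcases lt_or_ge τ (n₀ + 1) with h | h
    · exact (CC_eq g hg n₀ τ h0 h).symm
    · rw [hCL τ h]
      refine hL _ ?_ _ (hfr τ)
      have : n₀ + 1 ≤ ⌊τ⌋₊ := Nat.le_floor (by push_cast; exact h)
      omega
  obtain ⟨δ, hδ⟩ : ∃ δ : ℝ, δ = 1 / (n₀ + 2) := ⟨_, rfl⟩
  have hn2 : (0 : ℝ) < n₀ + 2 := by positivity
  have hδ0 : 0 < δ := by rw [hδ]; positivity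
  have hδ1 : δ * (n₀ + 2) = 1 := by rw [hδ]; field_simp
  have hcont : Continuous fun t : ℝ => CC g n₀ (t / max (1 - t) δ) := by
    refine (CC_cont g hc n₀).comp (continuous_id.div (by fun_prop) fun t => ?_)
    exact (lt_of_lt_of_le hδ0 (le_max_right _ _)).ne'
  refine hcont.continuousOn.congr fun t ht => ?_
  simp only
  by_cases h1 : t < 1
  · rw [if_pos h1, hF _ (div_nonneg ht.1 (by linarith))]
    rcases le_total δ (1 - t) with h2 | h2
    · rw [max_eq_left h2]
    · rw [max_eq_right h2]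
      have h3 : (n₀ : ℝ) + 1 ≤ t / δ := by
        rw [le_div_iff₀ hδ0]
        nlinarith
      have h4 : t / δ ≤ t / (1 - t) := div_le_div_of_nonneg_left ht.1 (by linarith) h2
      rw [hCL _ h3, hCL _ (h3.trans h4)]
  · rw [if_neg h1]
    have h2 : t = 1 := le_antisymm ht.2 (not_lt.1 h1)
    rw [h2, sub_self, max_eq_right hδ0.le, hCL]
    rw [le_div_iff₀ hδ0]
    nlinarith

end Pool.Agent.Helper152.WavMv
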