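import Pool.Agent.Helper152.WavRow
import Pool.Agent.Helper152.WavCol
import Pool.Agent.Helper152.WavMv

set_option autoImplicit false
open MeasureTheory Filter Topology
open scoped ENNReal

namespace Pool.Agent.Helper152.WavBlk

open Pool.Agent.Helper152.Wav

theorem mv_blk {P : ℤ → Prop} {N : ℕ → ℤ → Prop} {a : ℤ → ℕ → ℂ} (h : Blk P N a) (k₀ : ℤ) (θ : ℝ)
    (h0 : 0 ≤ θ) (h1 : θ ≤ 1) : Blk P N (mv θ k₀ a) := by
  by_cases hk : P k₀
  · exact ⟨fun k j hk' => WavRow.mv_zero h k₀ θ hk k j hk', h.node, h.per,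
      fun k hk' => WavRow.mv_row h k₀ θ h0 h1 hk k hk',
      fun j r hN => WavCol.mv_col h k₀ θ h0 h1 hk j r hN,
      fun i j r hij => WavCol.mv_orth h k₀ θ h0 h1 hk i j r hij⟩
  · rw [WavMv.mv_inactive θ k₀ a (fun j => h.zero k₀ j hk)]
    exact h

end Pool.Agent.Helper152.WavBlk
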