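import Pool.Agent.Helper152.WavDefs

set_option autoImplicit false
open MeasureTheory
open scoped ENNReal

namespace Pool.Agent.Helper152.WavCompl

open Pool.Agent.Helper152.Wav
open Pool.Agent.Helper152.Lar (w)



lemma enorm_sq_ofReal {E : Type*} [NormedAddCommGroup E] (x : E) :
    ‖x‖ₑ ^ 2 = ENNReal.ofReal (‖x‖ ^ 2) := by
  rw [← ofReal_norm, ENNReal.ofReal_pow (norm_nonneg _)]

lemma memlp_of (f : ℤ → ℂ) (h : ∑' n, ‖f n‖ₑ ^ 2 ≠ ∞) : Memℓp (E := fun _ : ℤ => ℂ) f 2 := by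
  apply memℓp_gen
  have h2 : ∀ n, ‖f n‖ₑ ^ 2 = ((‖f n‖₊ ^ 2 : NNReal) : ℝ≥0∞) := by
    intro n; simp [enorm_eq_nnnorm]
  simp_rw [h2] at h
  have h3 := ENNReal.tsum_coe_ne_top_iff_summable.1 h
  have h4 := NNReal.summable_coe.2 h3
  simpa using h4

lemma enorm_lp (f : lp (fun _ : ℤ => ℂ) 2) : ‖f‖ₑ ^ 2 = ∑' n, ‖f n‖ₑ ^ 2 := by
  have h := lp.norm_rpow_eq_tsum (p := 2) (by norm_num) f
  have h2 : ‖f‖ ^ 2 = ∑' n, ‖f n‖ ^ 2 := by simpa using h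
  have hs : Summable fun n => ‖f n‖ ^ 2 := by
    have := (lp.memℓp f).summable (by norm_num)
    simpa using this
  rw [enorm_sq_ofReal, h2, ENNReal.ofReal_tsum_of_nonneg (fun n => by positivity) hs]
  exact tsum_congr fun n => (enorm_sq_ofReal _).symm

lemma tsum_dvd {M : Type*} [AddCommMonoid M] [TopologicalSpace M] (f : ℤ → M) (p : ℕ)
    (h : ∀ n, ¬ (2:ℤ) ^ p ∣ n → f n = 0) : ∑' n, f n = ∑' m : ℤ, f ((2:ℤ) ^ p * m) := by
  have hinj : Function.Injective (fun m : ℤ => (2:ℤ) ^ p * m) := by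
    intro a b hab
    exact mul_left_cancel₀ (by positivity) hab
  refine (hinj.tsum_eq ?_).symm
  intro n hn
  by_contra hcon
  apply hn
  apply h
  rintro ⟨m, rfl⟩
  exact hcon ⟨m, rfl⟩

/-- (K) if g is orthogonal to all levels on the fibres through ξ then |g ξ|^2 is at most
w(2^J ξ) times the norm squared of g on ξ + 2^(-J) Z. -/
theorem key (φ g : ℝ → ℂ) (ξ : ℝ) (J : ℤ)
    (h1 : ∀ j : ℤ, ∑' n : ℤ, ‖φ ((2:ℝ) ^ j * ξ + n)‖ₑ ^ 2 = 1)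
    (hc : ∀ (j : ℤ) (i : ℕ), 1 ≤ i →
      ∑' n : ℤ, φ ((2:ℝ) ^ i * ((2:ℝ) ^ j * ξ + n)) * (starRingEnd ℂ) (φ ((2:ℝ) ^ j * ξ + n)) = 0)
    (h2 : ∑' j : ℤ, ‖φ ((2:ℝ) ^ j * ξ)‖ₑ ^ 2 = 1)
    (hg : ∀ j : ℤ, ∑' n : ℤ, g ((2:ℝ) ^ (-j) * ((2:ℝ) ^ j * ξ + n)) *
      (starRingEnd ℂ) (φ ((2:ℝ) ^ j * ξ + n)) = 0)
    (hfin : ∑' n : ℤ, ‖g (ξ + (2:ℝ) ^ (-J) * n)‖ₑ ^ 2 ≠ ∞) :
    ‖g ξ‖ₑ ^ 2 ≤ w φ ((2:ℝ) ^ J * ξ) * ∑' n : ℤ, ‖g (ξ + (2:ℝ) ^ (-J) * n)‖ₑ ^ 2 := by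
  classical
  have two_ne : (2:ℝ) ≠ 0 := by norm_num
  by_cases hγ0 : ∑' n : ℤ, ‖g (ξ + (2:ℝ) ^ (-J) * n)‖ₑ ^ 2 = 0
  · have h3 := ENNReal.tsum_eq_zero.1 hγ0 0
    simp only [Int.cast_zero, mul_zero, add_zero] at h3
    rw [h3]; exact bot_le
  let vf : ℕ → ℤ → ℂ := fun p n =>
    if (2:ℤ) ^ p ∣ n then φ ((2:ℝ) ^ (J - p) * (ξ + (2:ℝ) ^ (-J) * n)) else 0
  have hvf0 : ∀ p n, ¬ (2:ℤ) ^ p ∣ n → vf p n = 0 := fun p n h => if_neg h
  have hpow : ∀ p : ℕ, (2:ℝ) ^ (J - p) * (2:ℝ) ^ (-J) * (2:ℝ) ^ p = 1 := by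
    intro p
    rw [← zpow_natCast, ← zpow_add₀ two_ne, ← zpow_add₀ two_ne]
    have : J - p + -J + p = 0 := by ring
    rw [this, zpow_zero]
  have hpt : ∀ (p : ℕ) (m : ℤ), vf p ((2:ℤ) ^ p * m) = φ ((2:ℝ) ^ (J - p) * ξ + m) := by
    intro p m
    simp only [vf]
    rw [if_pos (Dvd.intro m rfl)]
    congr 1
    push_cast
    have := hpow p
    calc (2:ℝ) ^ (J - p) * (ξ + (2:ℝ) ^ (-J) * (2 ^ p * m))
        = (2:ℝ) ^ (J - p) * ξ + ((2:ℝ) ^ (J - p) * (2:ℝ) ^ (-J) * (2:ℝ) ^ p) * m := by ring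
      _ = _ := by rw [this, one_mul]
  have hvn : ∀ p, ∑' n, ‖vf p n‖ₑ ^ 2 = 1 := by
    intro p
    rw [tsum_dvd (fun n => ‖vf p n‖ₑ ^ 2) p (fun n hn => by simp [hvf0 p n hn])]
    simp_rw [hpt]
    exact h1 (J - p)
  let V : ℕ → lp (fun _ : ℤ => ℂ) 2 := fun p => ⟨vf p, memlp_of _ (by rw [hvn]; simp)⟩
  let Γ : lp (fun _ : ℤ => ℂ) 2 := ⟨fun n => g (ξ + (2:ℝ) ^ (-J) * n), memlp_of _ hfin⟩
  have hVn : ∀ p, ‖V p‖ = 1 := by
    intro p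
    have h3 := enorm_lp (V p)
    have h4 : ∑' n, ‖V p n‖ₑ ^ 2 = 1 := hvn p
    rw [h4, enorm_sq_ofReal] at h3
    have h5 : ‖V p‖ ^ 2 = 1 := by
      have := congrArg ENNReal.toReal h3
      rwa [ENNReal.toReal_ofReal (by positivity), ENNReal.toReal_one] at this
    exact (pow_eq_one_iff_of_nonneg (norm_nonneg _) two_ne_zero).1 h5
  have hΓn : ‖Γ‖ₑ ^ 2 = ∑' n : ℤ, ‖g (ξ + (2:ℝ) ^ (-J) * n)‖ₑ ^ 2 := enorm_lp Γ
  have hΓ0 : ‖Γ‖ ≠ 0 := by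
    intro h0
    apply hγ0
    rw [← hΓn, enorm_sq_ofReal, h0]; simp
  have hVV : ∀ p p' : ℕ, p < p' → inner ℂ (V p') (V p) = 0 := by
    intro p p' hpp
    rw [lp.inner_eq_tsum]
    have e : ∀ n : ℤ, inner ℂ (V p' n) (V p n) = vf p n * (starRingEnd ℂ) (vf p' n) := by
      intro n; rw [RCLike.inner_apply]
    simp_rw [e]
    rw [tsum_dvd _ p' (fun n hn => by simp [hvf0 p' n hn])]
    rw [← hc (J - p') (p' - p) (by omega)]
    refine tsum_congr fun m => ?_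
    rw [hpt]
    congr 1
    have e2 : (2:ℤ) ^ p' * m = (2:ℤ) ^ p * ((2:ℤ) ^ (p' - p) * m) := by
      rw [← mul_assoc, ← pow_add]; congr 2; omega
    rw [e2, hpt]
    congr 1
    push_cast
    rw [mul_add, ← mul_assoc]
    congr 2
    rw [← zpow_natCast, ← zpow_add₀ two_ne]
    congr 1
    push_cast [Nat.cast_sub hpp.le]
    ring
  have hVΓ : ∀ p : ℕ, inner ℂ (V p) Γ = 0 := by
    intro p
    rw [lp.inner_eq_tsum]
    have e : ∀ n : ℤ, inner ℂ (V p n) (Γ n) =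
        g (ξ + (2:ℝ) ^ (-J) * n) * (starRingEnd ℂ) (vf p n) := by
      intro n; rw [RCLike.inner_apply]
    simp_rw [e]
    rw [tsum_dvd _ p (fun n hn => by simp [hvf0 p n hn])]
    rw [← hg (J - p)]
    refine tsum_congr fun m => ?_
    rw [hpt]
    congr 2
    have hp := hpow p
    have hq : (2:ℝ) ^ (-(J - (p:ℤ))) * (2:ℝ) ^ (J - (p:ℤ)) = 1 := by
      rw [← zpow_add₀ two_ne]; simp
    have hr : (2:ℝ) ^ (-(J - (p:ℤ))) = (2:ℝ) ^ (-J) * (2:ℝ) ^ p := by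
      rw [← zpow_natCast, ← zpow_add₀ two_ne]; congr 1; ring
    push_cast
    rw [mul_add, ← mul_assoc ((2:ℝ) ^ (-(J - (p:ℤ)))), hq, one_mul, hr]
    ring
  let O : Option ℕ → lp (fun _ : ℤ => ℂ) 2 := fun o => o.elim (((‖Γ‖⁻¹ : ℝ) : ℂ) • Γ) V
  have hO : Orthonormal ℂ O := by
    constructor
    · intro o
      cases o with
      | none =>
        show ‖((‖Γ‖⁻¹ : ℝ) : ℂ) • Γ‖ = 1
        rw [norm_smul, Complex.norm_real, norm_inv, norm_norm, inv_mul_cancel₀ hΓ0]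
      | some p => exact hVn p
    · intro a b hab
      cases a with
      | none =>
        cases b with
        | none => exact absurd rfl hab
        | some p =>
          show inner ℂ (((‖Γ‖⁻¹ : ℝ) : ℂ) • Γ) (V p) = 0
          rw [inner_smul_left, inner_eq_zero_symm.1 (hVΓ p), mul_zero]
      | some q =>
        cases b with
        | none =>
          show inner ℂ (V q) (((‖Γ‖⁻¹ : ℝ) : ℂ) • Γ) = 0
          rw [inner_smul_right, hVΓ q, mul_zero]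
        | some p =>
          show inner ℂ (V q) (V p) = 0
          rcases lt_trichotomy p q with h | h | h
          · exact hVV p q h
          · exact absurd (by rw [h]) hab
          · exact inner_eq_zero_symm.1 (hVV q p h)
  let e0 : lp (fun _ : ℤ => ℂ) 2 := lp.single 2 0 (1:ℂ)
  have he0 : ‖e0‖ = 1 := by
    have := lp.norm_single (E := fun _ : ℤ => ℂ) (p := 2) (by norm_num) (0:ℤ) (1:ℂ)
    rw [this]; simp
  have hin : ∀ f : lp (fun _ : ℤ => ℂ) 2, ‖inner ℂ f e0‖ = ‖f 0‖ := by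
    intro f
    rw [lp.inner_single_right, RCLike.inner_apply, one_mul, RCLike.norm_conj]
  have hbes : ∀ N : ℕ, ‖g ξ‖ ^ 2 / ‖Γ‖ ^ 2 +
      ∑ p ∈ Finset.range N, ‖φ ((2:ℝ) ^ (J - (p:ℤ)) * ξ)‖ ^ 2 ≤ 1 := by
    intro N
    have h3 := hO.sum_inner_products_le (s := Finset.insertNone (Finset.range N)) e0
    rw [Finset.sum_insertNone, he0, one_pow] at h3
    refine le_trans (le_of_eq ?_) h3
    congr 1
    · rw [hin]
      show _ = ‖(((‖Γ‖⁻¹ : ℝ) : ℂ) • Γ) 0‖ ^ 2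
      rw [lp.coeFn_smul, Pi.smul_apply, norm_smul, Complex.norm_real, norm_inv, norm_norm, mul_pow]
      have : Γ 0 = g ξ := by
        show g (ξ + (2:ℝ) ^ (-J) * ((0:ℤ) : ℝ)) = g ξ
        simp
      rw [this]
      field_simp
    · refine Finset.sum_congr rfl fun p _ => ?_
      rw [hin]
      show _ = ‖vf p 0‖ ^ 2
      have := hpt p 0
      rw [mul_zero] at this
      rw [this]; simp
  set a : ℝ≥0∞ := ENNReal.ofReal (‖g ξ‖ ^ 2 / ‖Γ‖ ^ 2) with ha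
  have hbe : ∀ N : ℕ, a + ∑ p ∈ Finset.range N, ‖φ ((2:ℝ) ^ (J - (p:ℤ)) * ξ)‖ₑ ^ 2 ≤ 1 := by
    intro N
    have h3 := ENNReal.ofReal_le_ofReal (hbes N)
    rw [ENNReal.ofReal_add (by positivity) (Finset.sum_nonneg fun i _ => by positivity),
      ENNReal.ofReal_sum_of_nonneg (fun i _ => by positivity), ENNReal.ofReal_one] at h3
    simpa only [enorm_sq_ofReal] using h3
  have hlim : a + ∑' p : ℕ, ‖φ ((2:ℝ) ^ (J - (p:ℤ)) * ξ)‖ₑ ^ 2 ≤ 1 :=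
    le_of_tendsto' (tendsto_const_nhds.add (ENNReal.tendsto_nat_tsum _)) hbe
  have hsplit : (1:ℝ≥0∞) = w φ ((2:ℝ) ^ J * ξ) +
      ∑' p : ℕ, ‖φ ((2:ℝ) ^ (J - (p:ℤ)) * ξ)‖ₑ ^ 2 := by
    rw [← h2, ← (Equiv.addLeft J).tsum_eq, ← (Equiv.neg ℤ).tsum_eq,
      tsum_of_nat_of_neg_add_one ENNReal.summable ENNReal.summable, add_comm]
    congr 1
    unfold w
    refine tsum_congr fun i => ?_
    simp only [Equiv.neg_apply, Equiv.coe_addLeft, neg_neg]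
    congr 3
    rw [← mul_assoc, ← zpow_natCast, ← zpow_add₀ two_ne]
    congr 2
    push_cast
    ring
  have hPfin : ∑' p : ℕ, ‖φ ((2:ℝ) ^ (J - (p:ℤ)) * ξ)‖ₑ ^ 2 ≠ ∞ := by
    intro h3
    rw [h3] at hlim
    simp at hlim
  have haw : a ≤ w φ ((2:ℝ) ^ J * ξ) := by
    rw [hsplit] at hlim
    exact (ENNReal.add_le_add_iff_right hPfin).1 hlim
  have hga : ‖g ξ‖ₑ ^ 2 = a * ‖Γ‖ₑ ^ 2 := by
    rw [ha, enorm_sq_ofReal, enorm_sq_ofReal, ← ENNReal.ofReal_mul (by positivity)]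
    congr 1
    field_simp
  rw [hga, hΓn]
  exact mul_le_mul_left haw _


section aux
open Filter Topology

lemma restrict_shift (n : ℤ) (f : ℝ → ℝ≥0∞) :
    ∫⁻ x in Set.Ico (n:ℝ) (n+1), f x = ∫⁻ x in Set.Ico (0:ℝ) 1, f (x + n) := by
  have hmp := measurePreserving_add_right volume (n:ℝ)
  have hemb : MeasurableEmbedding (fun x : ℝ => x + n) := measurableEmbedding_addRight (n:ℝ)
  have h := hmp.setLIntegral_comp_preimage_emb hemb f (Set.Ico (n:ℝ) (n+1))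
  rw [← h]
  congr 2
  ext x
  simp only [Set.mem_preimage, Set.mem_Ico]
  constructor <;> rintro ⟨h1, h2⟩ <;> constructor <;> linarith

lemma restrict_shift' (n : ℤ) (f : ℝ → ℂ) :
    ∫ x in Set.Ico (n:ℝ) (n+1), f x = ∫ x in Set.Ico (0:ℝ) 1, f (x + n) := by
  have hmp := measurePreserving_add_right volume (n:ℝ)
  have hemb : MeasurableEmbedding (fun x : ℝ => x + n) := measurableEmbedding_addRight (n:ℝ)
  have h := hmp.setIntegral_preimage_emb hemb f (Set.Ico (n:ℝ) (n+1))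
  rw [← h]
  congr 2
  ext x
  simp only [Set.mem_preimage, Set.mem_Ico]
  constructor <;> rintro ⟨h1, h2⟩ <;> constructor <;> linarith

lemma per_lintegral (f : ℝ → ℝ≥0∞) :
    ∫⁻ x, f x = ∑' n : ℤ, ∫⁻ x in Set.Ico (0:ℝ) 1, f (x + n) := by
  have h1 : ∫⁻ x, f x = ∫⁻ x in ⋃ n : ℤ, Set.Ico (n:ℝ) (n+1), f x := by
    rw [iUnion_Ico_intCast]; simp
  rw [h1, lintegral_iUnion (fun n => measurableSet_Ico) (Set.pairwise_disjoint_Ico_intCast ℝ)]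
  exact tsum_congr fun n => restrict_shift n f

lemma per_integral (h : ℝ → ℂ) (hi : Integrable h) :
    (∀ᵐ x ∂(volume.restrict (Set.Ico (0:ℝ) 1)), Summable fun n : ℤ => ‖h (x + n)‖) ∧
    Integrable (fun x => ∑' n : ℤ, h (x + n)) (volume.restrict (Set.Ico (0:ℝ) 1)) ∧
    ∫ x, h x = ∫ x in Set.Ico (0:ℝ) 1, ∑' n : ℤ, h (x + n) := by
  have hmeas : ∀ n : ℤ, AEStronglyMeasurable (fun x : ℝ => h (x + n))
      (volume.restrict (Set.Ico (0:ℝ) 1)) := fun n =>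
    (hi.1.comp_measurePreserving (measurePreserving_add_right volume (n:ℝ))).restrict
  have hfin : ∑' n : ℤ, ∫⁻ x in Set.Ico (0:ℝ) 1, ‖h (x + n)‖ₑ ≠ ∞ := by
    rw [← per_lintegral (fun x => ‖h x‖ₑ)]
    exact hi.2.ne
  have hsum : ∀ᵐ x ∂(volume.restrict (Set.Ico (0:ℝ) 1)), Summable fun n : ℤ => ‖h (x + n)‖ := by
    rw [← lintegral_tsum (fun n => (hmeas n).enorm)] at hfin
    have := ae_lt_top' (AEMeasurable.tsum fun n => (hmeas n).enorm) hfin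
    filter_upwards [this] with x hx
    have h2 : Summable fun n : ℤ => ‖h (x + n)‖₊ := ENNReal.tsum_coe_ne_top_iff_summable.1 hx.ne
    exact NNReal.summable_coe.2 h2
  refine ⟨hsum, ⟨?_, ?_⟩, ?_⟩
  · refine aestronglyMeasurable_of_tendsto_ae (u := (atTop : Filter (Finset ℤ)))
      (f := fun s x => ∑ n ∈ s, h (x + n)) ?_ ?_
    · intro s
      exact Finset.aestronglyMeasurable_fun_sum s (fun n _ => hmeas n)
    · filter_upwards [hsum] with x hx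
      exact hx.of_norm.hasSum
  · refine lt_of_le_of_lt ?_ (lt_top_iff_ne_top.mpr hfin)
    rw [← lintegral_tsum (fun n => (hmeas n).enorm)]
    refine lintegral_mono_ae ?_
    filter_upwards [hsum] with x hx
    exact enorm_tsum_le_tsum_enorm
  · rw [integral_tsum hmeas hfin]
    have h1 : ∫ x, h x = ∫ x in ⋃ n : ℤ, Set.Ico (n:ℝ) (n+1), h x := by
      rw [iUnion_Ico_intCast]; simp
    rw [h1, integral_iUnion (fun n => measurableSet_Ico) (Set.pairwise_disjoint_Ico_intCast ℝ)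
      hi.integrableOn]
    exact tsum_congr fun n => restrict_shift' n h



lemma vanish_cont (h : ℝ → ℂ) (hi : Integrable h)
    (hF : ∀ k : ℤ, ∫ x, h x * Complex.exp (2 * (Real.pi:ℂ) * Complex.I * (k:ℂ) * (x:ℂ)) = 0)
    (G : C(AddCircle (1:ℝ), ℂ)) : ∫ x, h x * G (x : AddCircle (1:ℝ)) = 0 := by
  have hint : ∀ G : C(AddCircle (1:ℝ), ℂ), Integrable (fun x : ℝ => h x * G (x : AddCircle (1:ℝ))) := by
    intro G
    refine hi.mul_bdd (c := ‖G‖) ?_ ?_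
    · exact (G.continuous.comp (AddCircle.continuous_mk' _)).aestronglyMeasurable
    · exact Eventually.of_forall fun x => G.norm_coe_le_norm _
  let T : C(AddCircle (1:ℝ), ℂ) →ₗ[ℂ] ℂ :=
    { toFun := fun G => ∫ x, h x * G (x : AddCircle (1:ℝ))
      map_add' := by
        intro G1 G2
        rw [← integral_add (hint G1) (hint G2)]
        refine integral_congr_ae (Eventually.of_forall fun x => ?_)
        simp only [ContinuousMap.add_apply]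
        ring
      map_smul' := by
        intro c G1
        simp only [RingHom.id_apply, smul_eq_mul]
        rw [← integral_const_mul]
        refine integral_congr_ae (Eventually.of_forall fun x => ?_)
        simp only [ContinuousMap.smul_apply, smul_eq_mul]
        ring }
  have hTb : ∀ G, ‖T G‖ ≤ (∫ x, ‖h x‖) * ‖G‖ := by
    intro G
    show ‖∫ x, h x * G (x : AddCircle (1:ℝ))‖ ≤ _
    refine (norm_integral_le_integral_norm _).trans ?_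
    rw [← integral_mul_const]
    refine integral_mono (hint G).norm (hi.norm.mul_const _) fun x => ?_
    simp only [norm_mul]
    exact mul_le_mul_of_nonneg_left (G.norm_coe_le_norm _) (norm_nonneg _)
  let T' : C(AddCircle (1:ℝ), ℂ) →L[ℂ] ℂ := T.mkContinuous _ hTb
  have hclosed : IsClosed (T'.ker : Set C(AddCircle (1:ℝ), ℂ)) := T'.isClosed_ker
  have hspan : Submodule.span ℂ (Set.range (@fourier (1:ℝ))) ≤ T'.ker := by
    rw [Submodule.span_le]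
    rintro _ ⟨k, rfl⟩
    show T' (fourier k) = 0
    show ∫ x, h x * fourier k (x : AddCircle (1:ℝ)) = 0
    rw [← hF k]
    refine integral_congr_ae (Eventually.of_forall fun x => ?_)
    simp only
    rw [fourier_coe_apply]
    congr 2
    push_cast
    ring
  have htop : (Submodule.span ℂ (Set.range (@fourier (1:ℝ)))).topologicalClosure ≤ T'.ker :=
    Submodule.topologicalClosure_minimal _ hspan hclosed
  have : Fact (0 < (1:ℝ)) := ⟨one_pos⟩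
  rw [span_fourier_closure_eq_top] at htop
  have : G ∈ T'.ker := htop trivial
  exact this

lemma mk_add_int (x : ℝ) (n : ℤ) : ((x + n : ℝ) : AddCircle (1:ℝ)) = (x : AddCircle (1:ℝ)) := by
  have := AddCircle.coe_add_period (1:ℝ)
  rw [AddCircle.coe_add]
  have h : ((n : ℝ) : AddCircle (1:ℝ)) = 0 := by
    rw [AddCircle.coe_eq_zero_iff]
    exact ⟨n, by simp⟩
  rw [h, add_zero]

lemma vanish (h : ℝ → ℂ) (hi : Integrable h)
    (hF : ∀ k : ℤ, ∫ x, h x * Complex.exp (2 * (Real.pi:ℂ) * Complex.I * (k:ℂ) * (x:ℂ)) = 0) :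
    ∀ᵐ x : ℝ, x ∈ Set.Ico (0:ℝ) 1 → ∑' n : ℤ, h (x + n) = 0 := by
  have : Fact (0 < (1:ℝ)) := ⟨one_pos⟩
  obtain ⟨hs, hH, -⟩ := per_integral h hi
  have hU : ∀ᵐ x : ℝ, x ∈ Set.Ioo (0:ℝ) 1 → ∑' n : ℤ, h (x + n) = 0 := by
    refine IsOpen.ae_eq_zero_of_integral_contDiff_smul_eq_zero isOpen_Ioo ?_ ?_
    · have : IntegrableOn (fun x => ∑' n : ℤ, h (x + n)) (Set.Ioo (0:ℝ) 1) :=
        IntegrableOn.mono_set hH Set.Ioo_subset_Ico_self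
      exact this.locallyIntegrableOn
    · intro g hg hgc hgs
      have hg0 : ∀ x, x ∉ Set.Ioo (0:ℝ) 1 → g x = 0 := fun x hx =>
        image_eq_zero_of_notMem_tsupport fun h => hx (hgs h)
      let G : C(AddCircle (1:ℝ), ℂ) :=
        ⟨AddCircle.liftIco 1 0 (fun x => (g x : ℂ)), AddCircle.liftIco_zero_continuous
          (by simp [hg0 0 (by simp), hg0 1 (by simp)])
          (Complex.continuous_ofReal.comp hg.continuous).continuousOn⟩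
      have hG : ∀ x ∈ Set.Ico (0:ℝ) 1, ∀ n : ℤ, G ((x + n : ℝ) : AddCircle (1:ℝ)) = g x := by
        intro x hx n
        rw [mk_add_int]
        show AddCircle.liftIco 1 0 (fun x => (g x : ℂ)) (x : AddCircle (1:ℝ)) = g x
        rw [AddCircle.liftIco_zero_coe_apply hx]
      have hint : Integrable (fun x : ℝ => h x * G (x : AddCircle (1:ℝ))) := by
        refine hi.mul_bdd (c := ‖G‖) ?_ ?_
        · exact (G.continuous.comp (AddCircle.continuous_mk' _)).aestronglyMeasurable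
        · exact Eventually.of_forall fun x => G.norm_coe_le_norm _
      obtain ⟨-, -, h3⟩ := per_integral _ hint
      rw [vanish_cont h hi hF G] at h3
      have h4 : ∫ x, g x • ∑' n : ℤ, h (x + n) =
          ∫ x in Set.Ico (0:ℝ) 1, g x • ∑' n : ℤ, h (x + n) := by
        rw [setIntegral_eq_integral_of_forall_compl_eq_zero]
        intro x hx
        rw [hg0 x fun h => hx ⟨h.1.le, h.2⟩, zero_smul]
      rw [h4, h3]
      refine setIntegral_congr_fun measurableSet_Ico fun x hx => ?_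
      rw [Complex.real_smul, ← tsum_mul_left]
      refine tsum_congr fun n => ?_
      rw [hG x hx n]
      ring
  have h0 : ∀ᵐ x : ℝ, x ≠ 0 := by
    simp [ae_iff]
  filter_upwards [hU, h0] with x hx hx0 hxm
  exact hx ⟨lt_of_le_of_ne hxm.1 hx0.symm, hxm.2⟩



lemma ae_periodic (P : ℝ → Prop) (hP : ∀ (x : ℝ) (m : ℤ), P (x + m) → P x)
    (h : ∀ᵐ x : ℝ, x ∈ Set.Ico (0:ℝ) 1 → P x) : ∀ᵐ x : ℝ, P x := by
  have h1 : ∀ m : ℤ, ∀ᵐ x : ℝ, x + m ∈ Set.Ico (0:ℝ) 1 → P (x + m) := fun m =>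
    (measurePreserving_add_right volume (m:ℝ)).quasiMeasurePreserving.ae h
  filter_upwards [ae_all_iff.mpr h1] with x hx
  refine hP x (-⌊x⌋) (hx (-⌊x⌋) ?_)
  push_cast
  constructor
  · linarith [Int.floor_le x]
  · linarith [Int.lt_floor_add_one x]


end aux

section compl
open Filter Topology

/-- null sets are preserved by affine maps -/
theorem ae_affine {P : ℝ → Prop} (h : ∀ᵐ x : ℝ, P x) (a d : ℝ) (ha : a ≠ 0) :
    ∀ᵐ x : ℝ, P (a * x + d) := by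
  rw [ae_iff] at h ⊢
  have h1 : volume ((fun x => x + d) ⁻¹' {x | ¬ P x}) = 0 := by
    rw [measure_preimage_add_right]; exact h
  have h2 := Real.volume_preimage_mul_left ha ((fun x => x + d) ⁻¹' {x | ¬ P x})
  rw [h1, mul_zero] at h2
  exact h2

theorem ae_mul {P : ℝ → Prop} (h : ∀ᵐ x : ℝ, P x) (a : ℝ) (ha : a ≠ 0) :
    ∀ᵐ x : ℝ, P (a * x) := by
  have := ae_affine h a 0 ha
  simpa using this

theorem lint_scale {f : ℝ → ℝ≥0∞} (hf : Measurable f) (a : ℝ) (ha : 0 < a) :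
    ∫⁻ x, f (a * x) = ENNReal.ofReal a⁻¹ * ∫⁻ x, f x := by
  have h1 : ∫⁻ x, f (a * x) = ∫⁻ y, f y ∂(Measure.map (a * ·) volume) :=
    (lintegral_map hf (measurable_const_mul a)).symm
  rw [h1, Real.map_volume_mul_left ha.ne', lintegral_smul_measure, abs_of_pos (inv_pos.2 ha)]
  rfl

theorem measurable_w {φ : ℝ → ℂ} (hm : Measurable φ) : Measurable (w φ) := by
  unfold w
  exact Measurable.tsum fun i => by fun_prop

theorem phi_l2 {φ : ℝ → ℂ} (hm : Measurable φ)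
    (h : ∀ᵐ x : ℝ, ∑' n : ℤ, ‖φ (x + n)‖ₑ ^ 2 = 1) : ∫⁻ x, ‖φ x‖ₑ ^ 2 = 1 := by
  rw [per_lintegral, ← lintegral_tsum (fun n => by fun_prop)]
  have h2 : ∀ᵐ x ∂(volume.restrict (Set.Ico (0:ℝ) 1)), ∑' n : ℤ, ‖φ (x + n)‖ₑ ^ 2 = 1 :=
    ae_restrict_of_ae h
  rw [lintegral_congr_ae h2]; simp

theorem memLp_of_lint {φ : ℝ → ℂ} (hm : Measurable φ) (h : ∫⁻ x, ‖φ x‖ₑ ^ 2 ≠ ∞) :
    MemLp φ 2 volume := by
  refine ⟨hm.aestronglyMeasurable, ?_⟩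
  rw [eLpNorm_lt_top_iff_lintegral_rpow_enorm_lt_top (by norm_num) (by norm_num)]
  simpa using lt_top_iff_ne_top.2 h

theorem lint_of_memLp {φ : ℝ → ℂ} (h : MemLp φ 2 volume) : ∫⁻ x, ‖φ x‖ₑ ^ 2 ≠ ∞ := by
  have h2 := h.2
  rw [eLpNorm_lt_top_iff_lintegral_rpow_enorm_lt_top (by norm_num) (by norm_num)] at h2
  simpa using h2.ne

theorem w_int {φ : ℝ → ℂ} (hm : Measurable φ) (h : ∫⁻ x, ‖φ x‖ₑ ^ 2 = 1) :
    ∫⁻ x, w φ x ≠ ∞ := by
  unfold w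
  rw [lintegral_tsum (fun n => by fun_prop)]
  have h1 : ∀ i : ℕ, ∫⁻ x, ‖φ ((2:ℝ) ^ (i + 1) * x)‖ₑ ^ 2 = (2:ℝ≥0∞)⁻¹ ^ (i + 1) := by
    intro i
    rw [lint_scale (f := fun x => ‖φ x‖ₑ ^ 2) (by fun_prop) ((2:ℝ) ^ (i + 1)) (by positivity), h,
      mul_one, ENNReal.ofReal_inv_of_pos (by positivity), ENNReal.ofReal_pow (by norm_num),
      ENNReal.inv_pow]
    norm_num
  simp_rw [h1]
  have h2 : ∑' i : ℕ, (2:ℝ≥0∞)⁻¹ ^ (i + 1) = 1 := by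
    have := ENNReal.tsum_geometric_add_one (2:ℝ≥0∞)⁻¹
    rw [this, ENNReal.one_sub_inv_two, inv_inv]
    exact ENNReal.inv_mul_cancel (by norm_num) (by norm_num)
  rw [h2]; simp

theorem count_le (R J : ℕ) (y : ℝ) :
    ∑' n : ℤ, (Set.Icc (-(R:ℝ)) R).indicator (1 : ℝ → ℝ≥0∞) (y - (2:ℝ) ^ (-(J:ℤ)) * n) ≤
      ENNReal.ofReal ((2:ℝ) ^ (J + 1) * R + 1) := by
  classical
  have hp : (2:ℝ) ^ (-(J:ℤ)) * (2:ℝ) ^ J = 1 := by
    rw [zpow_neg, zpow_natCast]; exact inv_mul_cancel₀ (by positivity)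
  have hq : (0:ℝ) < (2:ℝ) ^ (-(J:ℤ)) := by positivity
  have hq' : (0:ℝ) < (2:ℝ) ^ J := by positivity
  set s : Finset ℤ := Finset.Icc ⌈(2:ℝ) ^ J * (y - R)⌉ ⌊(2:ℝ) ^ J * (y + R)⌋ with hs
  have hmem : ∀ n : ℤ, y - (2:ℝ) ^ (-(J:ℤ)) * n ∈ Set.Icc (-(R:ℝ)) R → n ∈ s := by
    intro n hn
    rw [hs, Finset.mem_Icc, Int.ceil_le, Int.le_floor]
    have e : (n:ℝ) = (2:ℝ) ^ J * ((2:ℝ) ^ (-(J:ℤ)) * n) := by
      rw [← mul_assoc, mul_comm ((2:ℝ) ^ J), hp, one_mul]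
    constructor
    · rw [e]
      exact mul_le_mul_of_nonneg_left (by linarith [hn.2]) hq'.le
    · rw [e]
      exact mul_le_mul_of_nonneg_left (by linarith [hn.1]) hq'.le
  have h1 : ∀ n : ℤ, n ∉ s →
      (Set.Icc (-(R:ℝ)) R).indicator (1 : ℝ → ℝ≥0∞) (y - (2:ℝ) ^ (-(J:ℤ)) * n) = 0 := by
    intro n hn
    exact Set.indicator_of_notMem (fun h => hn (hmem n h)) _
  rw [tsum_eq_sum (s := s) h1]
  have h2 : ∑ n ∈ s, (Set.Icc (-(R:ℝ)) R).indicator (1 : ℝ → ℝ≥0∞)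
      (y - (2:ℝ) ^ (-(J:ℤ)) * n) ≤ ∑ n ∈ s, 1 := by
    refine Finset.sum_le_sum fun n _ => ?_
    exact Set.indicator_le_self' (fun _ _ => bot_le) _
  refine h2.trans ?_
  rw [Finset.sum_const, nsmul_eq_mul, mul_one]
  rw [← ENNReal.ofReal_natCast]
  apply ENNReal.ofReal_le_ofReal
  rw [hs, Int.card_Icc]
  have hz : ((⌊(2:ℝ) ^ J * (y + R)⌋ + 1 - ⌈(2:ℝ) ^ J * (y - R)⌉ : ℤ) : ℝ) ≤
      (2:ℝ) ^ (J + 1) * R + 1 := by
    push_cast
    have h3 := Int.floor_le ((2:ℝ) ^ J * (y + R))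
    have h4 := Int.le_ceil ((2:ℝ) ^ J * (y - R))
    rw [pow_succ]
    linarith
  rcases le_total 0 (⌊(2:ℝ) ^ J * (y + R)⌋ + 1 - ⌈(2:ℝ) ^ J * (y - R)⌉) with h | h
  · have : (((⌊(2:ℝ) ^ J * (y + R)⌋ + 1 - ⌈(2:ℝ) ^ J * (y - R)⌉).toNat : ℤ) : ℝ) =
        ((⌊(2:ℝ) ^ J * (y + R)⌋ + 1 - ⌈(2:ℝ) ^ J * (y - R)⌉ : ℤ) : ℝ) := by
      rw [Int.toNat_of_nonneg h]
    rw [Int.cast_natCast] at this
    rw [this]; exact hz
  · rw [Int.toNat_of_nonpos h]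
    simp only [Nat.cast_zero]
    positivity

theorem int_GG {g : ℝ → ℂ} (hg : Measurable g) (R J : ℕ) :
    ∫⁻ ξ in Set.Icc (-(R:ℝ)) R, ∑' n : ℤ, ‖g (ξ + (2:ℝ) ^ (-(J:ℤ)) * n)‖ₑ ^ 2 ≤
      ENNReal.ofReal ((2:ℝ) ^ (J + 1) * R + 1) * ∫⁻ x, ‖g x‖ₑ ^ 2 := by
  rw [lintegral_tsum (fun n => by fun_prop)]
  have h1 : ∀ n : ℤ, ∫⁻ ξ in Set.Icc (-(R:ℝ)) R, ‖g (ξ + (2:ℝ) ^ (-(J:ℤ)) * n)‖ₑ ^ 2 =
      ∫⁻ y, (Set.Icc (-(R:ℝ)) R).indicator (1 : ℝ → ℝ≥0∞) (y - (2:ℝ) ^ (-(J:ℤ)) * n) *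
        ‖g y‖ₑ ^ 2 := by
    intro n
    rw [← lintegral_indicator measurableSet_Icc,
      ← lintegral_sub_right_eq_self _ ((2:ℝ) ^ (-(J:ℤ)) * n)]
    refine lintegral_congr fun y => ?_
    by_cases hy : y - (2:ℝ) ^ (-(J:ℤ)) * n ∈ Set.Icc (-(R:ℝ)) R
    · rw [Set.indicator_of_mem hy, Set.indicator_of_mem hy, sub_add_cancel]; simp
    · rw [Set.indicator_of_notMem hy, Set.indicator_of_notMem hy, zero_mul]
  simp_rw [h1]
  have hmi : ∀ n : ℤ, Measurable fun y : ℝ =>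
      (Set.Icc (-(R:ℝ)) R).indicator (1 : ℝ → ℝ≥0∞) (y - (2:ℝ) ^ (-(J:ℤ)) * n) := fun n =>
    (measurable_one.indicator measurableSet_Icc).comp (measurable_id.sub_const _)
  have hmi2 : ∀ n : ℤ, Measurable fun y : ℝ =>
      (Set.Icc (-(R:ℝ)) R).indicator (1 : ℝ → ℝ≥0∞) (y - (2:ℝ) ^ (-(J:ℤ)) * n) * ‖g y‖ₑ ^ 2 :=
    fun n => (hmi n).mul (by fun_prop)
  rw [← lintegral_tsum (fun n => (hmi2 n).aemeasurable), ← lintegral_const_mul _ (by fun_prop)]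
  refine lintegral_mono fun y => ?_
  rw [ENNReal.tsum_mul_right]
  exact mul_le_mul_left (count_le R J y) _

theorem tail_tendsto {W : ℝ → ℝ≥0∞} (hW : Measurable W) (hi : ∫⁻ x, W x ≠ ∞) (d : ℝ) (hd : 0 < d) :
    Tendsto (fun J : ℕ => ∫⁻ y in {y : ℝ | (2:ℝ) ^ J * d ≤ |y|}, W y) atTop (𝓝 0) := by
  have hms : ∀ J : ℕ, MeasurableSet {y : ℝ | (2:ℝ) ^ J * d ≤ |y|} := fun J =>
    measurableSet_le measurable_const (by fun_prop)
  have e : ∀ J : ℕ, ∫⁻ y in {y : ℝ | (2:ℝ) ^ J * d ≤ |y|}, W y =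
      ∫⁻ y, {y : ℝ | (2:ℝ) ^ J * d ≤ |y|}.indicator W y := fun J =>
    (lintegral_indicator (hms J) W).symm
  simp_rw [e]
  have h0 : ∫⁻ _ : ℝ, (0:ℝ≥0∞) = 0 := by simp
  rw [← h0]
  refine tendsto_lintegral_of_dominated_convergence W (fun J => hW.indicator (hms J)) ?_ hi ?_
  · intro J
    exact Eventually.of_forall fun y => Set.indicator_le_self _ _ _
  · refine Eventually.of_forall fun y => ?_
    refine tendsto_const_nhds.congr' ?_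
    have ht : Tendsto (fun J : ℕ => (2:ℝ) ^ J * d) atTop atTop :=
      (tendsto_pow_atTop_atTop_of_one_lt (by norm_num)).atTop_mul_const hd
    filter_upwards [ht.eventually_gt_atTop |y|] with J hJ
    rw [Set.indicator_of_notMem]
    intro h
    have h' : (2:ℝ) ^ J * d ≤ |y| := h
    linarith

/-- the main estimate -/
theorem final {φ g : ℝ → ℂ} (hm : Measurable φ) (hφ : ∫⁻ x, ‖φ x‖ₑ ^ 2 = 1)
    (hg : Measurable g) (hg2 : ∫⁻ x, ‖g x‖ₑ ^ 2 ≠ ∞)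
    (h : ∀ᵐ ξ : ℝ, ∀ J : ℕ, ‖g ξ‖ₑ ^ 2 ≤ w φ ((2:ℝ) ^ J * ξ) *
      ∑' n : ℤ, ‖g (ξ + (2:ℝ) ^ (-(J:ℤ)) * n)‖ₑ ^ 2) (d : ℝ) (hd : 0 < d) (R : ℕ) :
    ∀ᵐ ξ : ℝ, ξ ∈ {ξ : ℝ | d ≤ |ξ| ∧ |ξ| ≤ R} → g ξ = 0 := by
  set A : Set ℝ := {ξ : ℝ | d ≤ |ξ| ∧ |ξ| ≤ R} with hA
  have hAm : MeasurableSet A := by
    have h1 : MeasurableSet {ξ : ℝ | d ≤ |ξ|} := measurableSet_le measurable_const (by fun_prop)
    have h2 : MeasurableSet {ξ : ℝ | |ξ| ≤ (R:ℝ)} :=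
      measurableSet_le (by fun_prop) measurable_const
    exact h1.inter h2
  have hAR : A ⊆ Set.Icc (-(R:ℝ)) R := fun ξ hξ => abs_le.1 hξ.2
  have hwm := measurable_w hm
  have hT := tail_tendsto hwm (w_int hm hφ) d hd
  have key2 : ∀ J : ℕ, (∫⁻ ξ in A, ‖g ξ‖ₑ) ^ 2 ≤
      (ENNReal.ofReal (2 * R + 1) * ∫⁻ x, ‖g x‖ₑ ^ 2) *
        ∫⁻ y in {y : ℝ | (2:ℝ) ^ J * d ≤ |y|}, w φ y := by
    intro J
    have hGm : Measurable fun ξ : ℝ => ∑' n : ℤ, ‖g (ξ + (2:ℝ) ^ (-(J:ℤ)) * n)‖ₑ ^ 2 :=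
      Measurable.tsum fun n => by fun_prop
    have hwJ : Measurable fun ξ : ℝ => w φ ((2:ℝ) ^ J * ξ) := hwm.comp (measurable_const_mul _)
    have h1 : ∫⁻ ξ in A, ‖g ξ‖ₑ ≤ ∫⁻ ξ in A, (((fun ξ => (w φ ((2:ℝ) ^ J * ξ)) ^ (1 / 2 : ℝ)) *
        (fun ξ => (∑' n : ℤ, ‖g (ξ + (2:ℝ) ^ (-(J:ℤ)) * n)‖ₑ ^ 2) ^ (1 / 2 : ℝ))) ξ) := by
      refine lintegral_mono_ae ?_
      filter_upwards [ae_restrict_of_ae h] with ξ hξ
      simp only [Pi.mul_apply]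
      rw [← ENNReal.mul_rpow_of_nonneg _ _ (by norm_num)]
      have h2 := ENNReal.rpow_le_rpow (hξ J) (z := (1 / 2 : ℝ)) (by norm_num)
      refine le_trans (le_of_eq ?_) h2
      rw [← ENNReal.rpow_natCast, ← ENNReal.rpow_mul]
      norm_num
    have h2 := ENNReal.lintegral_mul_le_Lp_mul_Lq (volume.restrict A)
      (p := 2) (q := 2) Real.HolderConjugate.two_two
      (hwJ.pow_const (1 / 2 : ℝ)).aemeasurable (hGm.pow_const (1 / 2 : ℝ)).aemeasurable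
    have h3 := h1.trans h2
    have e1 : ∀ x : ℝ≥0∞, (x ^ (1 / 2 : ℝ)) ^ (2 : ℝ) = x := by
      intro x
      rw [← ENNReal.rpow_mul]; norm_num
    simp_rw [e1] at h3
    have h4 : (∫⁻ ξ in A, ‖g ξ‖ₑ) ^ 2 ≤ (∫⁻ ξ in A, w φ ((2:ℝ) ^ J * ξ)) *
        ∫⁻ ξ in A, ∑' n : ℤ, ‖g (ξ + (2:ℝ) ^ (-(J:ℤ)) * n)‖ₑ ^ 2 := by
      rw [← ENNReal.mul_rpow_of_nonneg _ _ (by norm_num)] at h3
      have h5 := ENNReal.rpow_le_rpow h3 (z := 2) (by norm_num)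
      rw [e1] at h5
      simpa using h5
    have h6 : ∫⁻ ξ in A, ∑' n : ℤ, ‖g (ξ + (2:ℝ) ^ (-(J:ℤ)) * n)‖ₑ ^ 2 ≤
        ENNReal.ofReal ((2:ℝ) ^ (J + 1) * R + 1) * ∫⁻ x, ‖g x‖ₑ ^ 2 :=
      (lintegral_mono_set hAR).trans (int_GG hg R J)
    have h7 : ∫⁻ ξ in A, w φ ((2:ℝ) ^ J * ξ) ≤ ENNReal.ofReal ((2:ℝ) ^ J)⁻¹ *
        ∫⁻ y in {y : ℝ | (2:ℝ) ^ J * d ≤ |y|}, w φ y := by
      have hms : MeasurableSet {y : ℝ | (2:ℝ) ^ J * d ≤ |y|} :=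
        measurableSet_le measurable_const (by fun_prop)
      rw [← lintegral_indicator hms, ← lint_scale (hwm.indicator hms) _ (by positivity),
        ← lintegral_indicator hAm]
      refine lintegral_mono fun ξ => ?_
      by_cases hξ : ξ ∈ A
      · rw [Set.indicator_of_mem hξ, Set.indicator_of_mem]
        show (2:ℝ) ^ J * d ≤ |(2:ℝ) ^ J * ξ|
        rw [abs_mul, abs_of_pos (by positivity : (0:ℝ) < (2:ℝ) ^ J)]
        exact mul_le_mul_of_nonneg_left hξ.1 (by positivity)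
      · rw [Set.indicator_of_notMem hξ]; exact bot_le
    refine h4.trans ((mul_le_mul' h7 h6).trans ?_)
    have h8 : ENNReal.ofReal ((2:ℝ) ^ J)⁻¹ * ENNReal.ofReal ((2:ℝ) ^ (J + 1) * R + 1) ≤
        ENNReal.ofReal (2 * R + 1) := by
      rw [← ENNReal.ofReal_mul (by positivity)]
      apply ENNReal.ofReal_le_ofReal
      have h9 : (0:ℝ) < (2:ℝ) ^ J := by positivity
      have h10 : (1:ℝ) ≤ (2:ℝ) ^ J := one_le_pow₀ (by norm_num)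
      rw [inv_mul_le_iff₀ h9, pow_succ]
      nlinarith
    calc _ = (ENNReal.ofReal ((2:ℝ) ^ J)⁻¹ * ENNReal.ofReal ((2:ℝ) ^ (J + 1) * R + 1)) *
          ((∫⁻ x, ‖g x‖ₑ ^ 2) * ∫⁻ y in {y : ℝ | (2:ℝ) ^ J * d ≤ |y|}, w φ y) := by ring
      _ ≤ ENNReal.ofReal (2 * R + 1) *
          ((∫⁻ x, ‖g x‖ₑ ^ 2) * ∫⁻ y in {y : ℝ | (2:ℝ) ^ J * d ≤ |y|}, w φ y) :=
            mul_le_mul_left h8 _
      _ = _ := by ring
  have hC : ENNReal.ofReal (2 * R + 1) * ∫⁻ x, ‖g x‖ₑ ^ 2 ≠ ∞ :=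
    ENNReal.mul_ne_top ENNReal.ofReal_ne_top hg2
  have hlim := ENNReal.Tendsto.const_mul hT (Or.inr hC)
  rw [mul_zero] at hlim
  have hz : (∫⁻ ξ in A, ‖g ξ‖ₑ) ^ 2 ≤ 0 := ge_of_tendsto' hlim key2
  have hz2 : ∫⁻ ξ in A, ‖g ξ‖ₑ = 0 := by
    have := le_antisymm hz bot_le
    exact pow_eq_zero_iff (two_ne_zero) |>.1 this
  rw [lintegral_eq_zero_iff (by fun_prop)] at hz2
  rw [← ae_restrict_iff' hAm]
  filter_upwards [hz2] with ξ hξ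
  simpa using hξ

/-- orthogonality on the fibres -/
theorem orth_fibre {φ : ℝ → ℂ} {F : ℤ → ℤ → ℝ → ℂ} (hφ : MemLp φ 2 volume)
    (hF : ∀ (j k : ℤ) (ξ : ℝ), F j k ξ =
        ((Real.sqrt ((2:ℝ) ^ (-j)) : ℝ) : ℂ) *
          Complex.exp (-(2 * (Real.pi : ℂ) * Complex.I * (k : ℂ) * ((((2:ℝ) ^ (-j)) * ξ : ℝ) : ℂ))) *
          φ (((2:ℝ) ^ (-j)) * ξ))
    {g : ℝ → ℂ} (hg : MemLp g 2 volume)
    (h : ∀ j k : ℤ, ∫ ξ, g ξ * (starRingEnd ℂ) (F j k ξ) = 0) (j : ℤ) :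
    ∀ᵐ x : ℝ, ∑' n : ℤ, g ((2:ℝ) ^ (-j) * (x + n)) * (starRingEnd ℂ) (φ (x + n)) = 0 := by
  have two_ne : (2:ℝ) ≠ 0 := by norm_num
  refine ae_periodic _ ?_ (vanish (fun x => g ((2:ℝ) ^ (-j) * x) * (starRingEnd ℂ) (φ x)) ?_ ?_)
  · intro x m h
    rw [← h, ← (Equiv.addLeft m).tsum_eq]
    refine tsum_congr fun n => ?_
    simp only [Equiv.coe_addLeft]
    push_cast
    ring_nf
  · have h2 : MemLp (fun x => g ((2:ℝ) ^ (-j) * x)) 2 volume := by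
      have h1 := (memLp_two_iff_integrable_sq_norm hg.1).mp hg
      have h3 : AEStronglyMeasurable (fun x => g ((2:ℝ) ^ (-j) * x)) volume := by
        refine hg.1.comp_quasiMeasurePreserving ⟨measurable_const_mul _, ?_⟩
        rw [Real.map_volume_mul_left (by positivity)]
        exact Measure.smul_absolutelyContinuous
      rw [memLp_two_iff_integrable_sq_norm h3]
      exact h1.comp_mul_left' (by positivity)
    have h3 : MemLp (fun x => (starRingEnd ℂ) (φ x)) 2 volume := hφ.star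
    exact h2.integrable_mul h3
  · intro k
    have hk := h (-j) k
    have h1 := Measure.integral_comp_mul_left (fun x => (g ((2:ℝ) ^ (-j) * x) *
      (starRingEnd ℂ) (φ x)) * Complex.exp (2 * (Real.pi:ℂ) * Complex.I * (k:ℂ) * (x:ℂ)))
      ((2:ℝ) ^ j)
    have hs : ((Real.sqrt ((2:ℝ) ^ j) : ℝ) : ℂ) ≠ 0 := by
      have : 0 < Real.sqrt ((2:ℝ) ^ j) := Real.sqrt_pos.mpr (by positivity)
      exact_mod_cast this.ne'
    have h2 : ∫ ξ, g ξ * (starRingEnd ℂ) (F (-j) k ξ) =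
        ((Real.sqrt ((2:ℝ) ^ j) : ℝ) : ℂ) * ∫ x : ℝ, (g ((2:ℝ) ^ (-j) * ((2:ℝ) ^ j * x)) *
          (starRingEnd ℂ) (φ ((2:ℝ) ^ j * x))) *
          Complex.exp (2 * (Real.pi:ℂ) * Complex.I * (k:ℂ) * (((2:ℝ) ^ j * x : ℝ) :ℂ)) := by
      rw [← integral_const_mul]
      refine integral_congr_ae (Eventually.of_forall fun x => ?_)
      simp only
      rw [hF]
      simp only [neg_neg, map_mul, Complex.conj_ofReal]
      have e1 : (2:ℝ) ^ (-j) * ((2:ℝ) ^ j * x) = x := by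
        rw [← mul_assoc, ← zpow_add₀ two_ne]; simp
      have e2 : (starRingEnd ℂ) (Complex.exp (-(2 * (Real.pi : ℂ) * Complex.I * (k : ℂ) *
          ((((2:ℝ) ^ j) * x : ℝ) : ℂ)))) =
          Complex.exp (2 * (Real.pi : ℂ) * Complex.I * (k : ℂ) * ((((2:ℝ) ^ j) * x : ℝ) : ℂ)) := by
        rw [← Complex.exp_conj]
        congr 1
        simp only [map_neg, map_mul, Complex.conj_I, Complex.conj_ofReal, map_ofNat, map_intCast]
        ring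
      rw [e1, e2]
      ring
    rw [h2] at hk
    have h3 := (mul_eq_zero.mp hk).resolve_left hs
    rw [h3] at h1
    have h4 : |((2:ℝ) ^ j)⁻¹| ≠ 0 := abs_ne_zero.2 (inv_ne_zero (by positivity))
    exact (smul_eq_zero.1 h1.symm).resolve_left h4

end compl

/-- completeness from the fibre conditions -/
theorem complete_of_good (φ : ℝ → ℂ) (F : ℤ → ℤ → ℝ → ℂ) (hm : Measurable φ) (hgood : Good φ)
    (hF : ∀ (j k : ℤ) (ξ : ℝ), F j k ξ =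
        ((Real.sqrt ((2:ℝ) ^ (-j)) : ℝ) : ℂ) *
          Complex.exp (-(2 * (Real.pi : ℂ) * Complex.I * (k : ℂ) * ((((2:ℝ) ^ (-j)) * ξ : ℝ) : ℂ))) *
          φ (((2:ℝ) ^ (-j)) * ξ))
    (g : ℝ → ℂ) (hg : MemLp g 2 volume)
    (h : ∀ j k : ℤ, ∫ ξ, g ξ * (starRingEnd ℂ) (F j k ξ) = 0) : g =ᵐ[volume] 0 := by
  -- a measurable representative
  obtain ⟨g', hg'm, hgg'⟩ := hg.1
  have hg'L : MemLp g' 2 volume := hg.ae_eq hgg'
  have hg'M : Measurable g' := hg'm.measurable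
  have h' : ∀ j k : ℤ, ∫ ξ, g' ξ * (starRingEnd ℂ) (F j k ξ) = 0 := by
    intro j k
    rw [← h j k]
    refine integral_congr_ae ?_
    filter_upwards [hgg'] with ξ hξ
    rw [hξ]
  suffices hz : g' =ᵐ[volume] 0 from hgg'.trans hz
  have hφ1 := phi_l2 hm hgood.1
  have hφL : MemLp φ 2 volume := memLp_of_lint hm (by rw [hφ1]; simp)
  have hg2 := lint_of_memLp hg'L
  have two_ne : (2:ℝ) ≠ 0 := by norm_num
  -- all conditions of `key` hold almost everywhere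
  have a1 : ∀ᵐ ξ : ℝ, ∀ j : ℤ, ∑' n : ℤ, ‖φ ((2:ℝ) ^ j * ξ + n)‖ₑ ^ 2 = 1 := by
    rw [ae_all_iff]; intro j
    exact ae_mul hgood.1 _ (by positivity)
  have a2 : ∀ᵐ ξ : ℝ, ∀ (j : ℤ) (i : ℕ), 1 ≤ i →
      ∑' n : ℤ, φ ((2:ℝ) ^ i * ((2:ℝ) ^ j * ξ + n)) *
        (starRingEnd ℂ) (φ ((2:ℝ) ^ j * ξ + n)) = 0 := by
    rw [ae_all_iff]; intro j
    rw [ae_all_iff]; intro i
    by_cases hi : 1 ≤ i
    · filter_upwards [ae_mul (hgood.2.1 i hi) ((2:ℝ) ^ j) (by positivity)] with ξ hξ _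
      exact hξ
    · exact Filter.Eventually.of_forall fun ξ h => absurd h hi
  have a3 : ∀ᵐ ξ : ℝ, ∀ j : ℤ, ∑' n : ℤ, g' ((2:ℝ) ^ (-j) * ((2:ℝ) ^ j * ξ + n)) *
      (starRingEnd ℂ) (φ ((2:ℝ) ^ j * ξ + n)) = 0 := by
    rw [ae_all_iff]; intro j
    exact ae_mul (orth_fibre hφL hF hg'L h' j) _ (by positivity)
  have a4 : ∀ᵐ ξ : ℝ, ∀ J : ℕ, ∑' n : ℤ, ‖g' (ξ + (2:ℝ) ^ (-(J:ℤ)) * n)‖ₑ ^ 2 ≠ ∞ := by
    rw [ae_all_iff]; intro J
    have hGm : Measurable fun ξ : ℝ => ∑' n : ℤ, ‖g' (ξ + (2:ℝ) ^ (-(J:ℤ)) * n)‖ₑ ^ 2 :=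
      Measurable.tsum fun n => by fun_prop
    have hR : ∀ R : ℕ, ∀ᵐ ξ : ℝ, ξ ∈ Set.Icc (-(R:ℝ)) R →
        ∑' n : ℤ, ‖g' (ξ + (2:ℝ) ^ (-(J:ℤ)) * n)‖ₑ ^ 2 < ∞ := by
      intro R
      rw [← ae_restrict_iff' measurableSet_Icc]
      refine ae_lt_top hGm ?_
      exact ne_top_of_le_ne_top (ENNReal.mul_ne_top ENNReal.ofReal_ne_top hg2)
        (int_GG hg'M R J)
    filter_upwards [ae_all_iff.2 hR] with ξ hξ
    obtain ⟨R, hR⟩ := exists_nat_ge |ξ|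
    exact (hξ R (abs_le.1 hR)).ne
  have hkey : ∀ᵐ ξ : ℝ, ∀ J : ℕ, ‖g' ξ‖ₑ ^ 2 ≤ w φ ((2:ℝ) ^ J * ξ) *
      ∑' n : ℤ, ‖g' (ξ + (2:ℝ) ^ (-(J:ℤ)) * n)‖ₑ ^ 2 := by
    filter_upwards [a1, a2, a3, a4, hgood.2.2] with ξ b1 b2 b3 b4 b5 J
    have := key φ g' ξ (J:ℤ) b1 b2 b5 b3 (b4 J)
    rwa [zpow_natCast] at this
  have hfin : ∀ R : ℕ, ∀ᵐ ξ : ℝ, ξ ∈ {ξ : ℝ | 1 / ((R:ℝ) + 1) ≤ |ξ| ∧ |ξ| ≤ R} → g' ξ = 0 :=
    fun R => final hm hφ1 hg'M hg2 hkey _ (by positivity) R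
  have h0 : ∀ᵐ x : ℝ, x ≠ 0 := by
    simp [ae_iff]
  filter_upwards [ae_all_iff.2 hfin, h0] with ξ hξ hξ0
  obtain ⟨R, hR⟩ := exists_nat_ge (max |ξ| (1 / |ξ|))
  have hpos : 0 < |ξ| := abs_pos.2 hξ0
  refine hξ R ⟨?_, (le_max_left _ _).trans hR⟩
  have h1 : 1 / |ξ| ≤ (R:ℝ) + 1 := by
    have := (le_max_right |ξ| (1 / |ξ|)).trans hR
    linarith
  rw [div_le_iff₀ (by positivity)]
  rw [div_le_iff₀ hpos] at h1
  linarith

end Pool.Agent.Helper152.WavCompl
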