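import Pool.Agent.Helper152.WavDefs

set_option autoImplicit false
open MeasureTheory Filter Topology
open scoped ENNReal

namespace Pool.Agent.Helper152.WavCont

open Pool.Agent.Helper152.Wav
open Pool.Agent.Helper152.Lar (w)







/-- null sets are preserved by affine maps -/
theorem ae_affine {P : ℝ → Prop} (h : ∀ᵐ x : ℝ, P x) (a d : ℝ) (ha : a ≠ 0) :
    ∀ᵐ x : ℝ, P (a * x + d) := by
  rw [ae_iff] at h ⊢
  have h1 : volume ((fun x => x + d) ⁻¹' {x | ¬ P x}) = 0 := by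
    rw [measure_preimage_add_right]; exact h
  have h2 := Real.volume_preimage_mul_left ha ((fun x => x + d) ⁻¹' {x | ¬ P x})
  rw [h1, mul_zero] at h2
  exact h2

theorem ae_orbit {P : ℝ → Prop} (h : ∀ᵐ x : ℝ, P x) :
    ∀ᵐ x : ℝ, ∀ a b c : ℤ, P ((2:ℝ) ^ a * x + b * (2:ℝ) ^ c) := by
  rw [ae_all_iff]; intro a
  rw [ae_all_iff]; intro b
  rw [ae_all_iff]; intro c
  exact ae_affine h _ _ (by positivity)

/-- orbit predicate -/
def Orb (Q : ℝ → Prop) (x : ℝ) : Prop := ∀ a b c : ℤ, Q ((2:ℝ) ^ a * x + b * (2:ℝ) ^ c)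

theorem Orb.self {Q : ℝ → Prop} {x : ℝ} (h : Orb Q x) : Q x := by
  have := h 0 0 0
  simpa using this

theorem combine (u v : ℤ) (m n : ℤ) :
    ∃ b c : ℤ, (u:ℝ) * (2:ℝ) ^ m + v * (2:ℝ) ^ n = b * (2:ℝ) ^ c := by
  rcases le_total m n with h | h
  · refine ⟨u + v * 2 ^ (n - m).toNat, m, ?_⟩
    have : (2:ℝ) ^ n = (2:ℝ) ^ (n - m).toNat * (2:ℝ) ^ m := by
      rw [← zpow_natCast, ← zpow_add₀ (by norm_num), Int.toNat_of_nonneg (by omega)]
      congr 1; omega
    rw [this]; push_cast; ring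
  · refine ⟨u * 2 ^ (m - n).toNat + v, n, ?_⟩
    have : (2:ℝ) ^ m = (2:ℝ) ^ (m - n).toNat * (2:ℝ) ^ n := by
      rw [← zpow_natCast, ← zpow_add₀ (by norm_num), Int.toNat_of_nonneg (by omega)]
      congr 1; omega
    rw [this]; push_cast; ring

theorem Orb.move {Q : ℝ → Prop} {x : ℝ} (h : Orb Q x) (m k l : ℤ) :
    Orb Q ((2:ℝ) ^ m * x + k * (2:ℝ) ^ l) := by
  intro a b c
  obtain ⟨b', c', hb⟩ := combine k b (a + l) c
  have := h (a + m) b' c'
  rw [← hb] at this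
  convert this using 1
  rw [zpow_add₀ (by norm_num), zpow_add₀ (by norm_num)]
  ring

theorem Orb.mul {Q : ℝ → Prop} {x : ℝ} (h : Orb Q x) (m : ℤ) : Orb Q ((2:ℝ) ^ m * x) := by
  have := h.move m 0 0
  simpa using this

theorem Orb.add {Q : ℝ → Prop} {x : ℝ} (h : Orb Q x) (k : ℤ) : Orb Q (x + k) := by
  have := h.move 0 k 0
  simpa using this

/-- backward chain sets -/
def ZZ (X T : Set ℝ) : ℕ → Set ℝ
  | 0 => T
  | (k + 1) => {y | y ∈ T ∧ ∃ n : ℤ, y + n ∈ X ∧ ∃ j : ℤ, (2:ℝ) ^ j * (y + n) ∈ ZZ X T k}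

theorem ZZ_sub (X T : Set ℝ) (k : ℕ) : ZZ X T k ⊆ T := by
  cases k with
  | zero => exact subset_rfl
  | succ k => exact fun y hy => hy.1

theorem ZZ_meas {X T : Set ℝ} (hX : MeasurableSet X) (hT : MeasurableSet T) (k : ℕ) :
    MeasurableSet (ZZ X T k) := by
  induction k with
  | zero => exact hT
  | succ k ih =>
    have h1 : ZZ X T (k + 1) = T ∩ ⋃ n : ℤ, ((fun y : ℝ => y + n) ⁻¹' X ∩
        ⋃ j : ℤ, (fun y : ℝ => (2:ℝ) ^ j * (y + n)) ⁻¹' (ZZ X T k)) := by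
      ext y
      simp [ZZ]
    rw [h1]
    refine hT.inter (MeasurableSet.iUnion fun n => ?_)
    refine ((measurable_add_const _) hX).inter (MeasurableSet.iUnion fun j => ?_)
    exact (by fun_prop : Measurable fun y : ℝ => (2:ℝ) ^ j * (y + n)) ih

theorem meas_trans {T E : Set ℝ} (hT : MeasurableSet T) (hE : MeasurableSet E)
    (hu : ∀ (x : ℝ) (n n' : ℤ), x + n ∈ T → x + n' ∈ T → n = n') :
    volume {y : ℝ | y ∈ T ∧ ∃ n : ℤ, y + n ∈ E} ≤ volume E := by
  let S : ℤ → Set ℝ := fun n => (fun x : ℝ => x + ((-n : ℤ) : ℝ)) ⁻¹' T ∩ E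
  have hSm : ∀ n, MeasurableSet (S n) := fun n => ((measurable_add_const _) hT).inter hE
  have hdisj : Pairwise (Function.onFun Disjoint S) := by
    intro n n' hne
    rw [Function.onFun, Set.disjoint_left]
    intro x h1 h2
    apply hne
    have := hu x (-n) (-n') h1.1 h2.1
    omega
  have h1 : {y : ℝ | y ∈ T ∧ ∃ n : ℤ, y + n ∈ E} = ⋃ n : ℤ, (fun y : ℝ => y + n) ⁻¹' (S n) := by
    ext y
    simp [S]
  rw [h1]
  calc volume (⋃ n : ℤ, (fun y : ℝ => y + n) ⁻¹' (S n))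
      ≤ ∑' n : ℤ, volume ((fun y : ℝ => y + n) ⁻¹' (S n)) := measure_iUnion_le _
    _ = ∑' n : ℤ, volume (S n) := by
        refine tsum_congr fun n => ?_
        exact measure_preimage_add_right _ _ _
    _ = volume (⋃ n, S n) := (measure_iUnion hdisj hSm).symm
    _ ≤ volume E := measure_mono (Set.iUnion_subset fun n => Set.inter_subset_right)

theorem meas_dil {X Z : Set ℝ} (hX : MeasurableSet X) (hZ : MeasurableSet Z)
    (hXs : X ⊆ Set.Ioo (-1 / 2) (1 / 2)) (hZs : Z ⊆ Set.Ici 2)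
    (hu : ∀ (x : ℝ) (i j : ℤ), x ≠ 0 → (2:ℝ) ^ i * x ∈ X → (2:ℝ) ^ j * x ∈ X → i = j) :
    volume {x : ℝ | x ∈ X ∧ ∃ j : ℤ, (2:ℝ) ^ j * x ∈ Z} ≤ ENNReal.ofReal (1 / 4) * volume Z := by
  let S : ℤ → Set ℝ := fun j => (fun z : ℝ => (2:ℝ) ^ (-j) * z) ⁻¹' X ∩ Z
  have hSm : ∀ n, MeasurableSet (S n) := fun n => ((measurable_const_mul _) hX).inter hZ
  have hdisj : Pairwise (Function.onFun Disjoint S) := by
    intro i j hne
    rw [Function.onFun, Set.disjoint_left]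
    intro x h1 h2
    apply hne
    have hx0 : x ≠ 0 := by
      have : (2:ℝ) ≤ x := hZs h1.2
      linarith
    have := hu x (-i) (-j) hx0 h1.1 h2.1
    omega
  have h1 : {x : ℝ | x ∈ X ∧ ∃ j : ℤ, (2:ℝ) ^ j * x ∈ Z} =
      ⋃ j : ℤ, (fun x : ℝ => (2:ℝ) ^ j * x) ⁻¹' (S j) := by
    ext x
    have h2 : ∀ j : ℤ, (2:ℝ) ^ (-j) * ((2:ℝ) ^ j * x) = x := by
      intro j
      rw [← mul_assoc, ← zpow_add₀ (by norm_num)]
      simp
    simp only [Set.mem_ofPred_eq, Set.mem_iUnion, Set.mem_preimage, S, Set.mem_inter_iff, h2]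
    constructor
    · rintro ⟨a, j, b⟩
      exact ⟨j, a, b⟩
    · rintro ⟨j, a, b⟩
      exact ⟨a, j, b⟩
  have h3 : ∀ j : ℤ, volume ((fun x : ℝ => (2:ℝ) ^ j * x) ⁻¹' (S j)) ≤
      ENNReal.ofReal (1 / 4) * volume (S j) := by
    intro j
    rcases (S j).eq_empty_or_nonempty with he | ⟨z, hz1, hz2⟩
    · rw [he]; simp
    · rw [Real.volume_preimage_mul_left (by positivity)]
      gcongr
      have hz3 : (2:ℝ) ^ (-j) * z < 1 / 2 := (hXs hz1).2
      have hz4 : (2:ℝ) ≤ z := hZs hz2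
      have hp : 0 < (2:ℝ) ^ (-j) := by positivity
      rw [← zpow_neg, abs_of_pos hp]
      nlinarith
  rw [h1]
  calc volume (⋃ j : ℤ, (fun x : ℝ => (2:ℝ) ^ j * x) ⁻¹' (S j))
      ≤ ∑' j : ℤ, volume ((fun x : ℝ => (2:ℝ) ^ j * x) ⁻¹' (S j)) := measure_iUnion_le _
    _ ≤ ∑' j : ℤ, ENNReal.ofReal (1 / 4) * volume (S j) := ENNReal.tsum_le_tsum h3
    _ = ENNReal.ofReal (1 / 4) * ∑' j : ℤ, volume (S j) := ENNReal.tsum_mul_left
    _ = ENNReal.ofReal (1 / 4) * volume (⋃ n, S n) := by rw [measure_iUnion hdisj hSm]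
    _ ≤ ENNReal.ofReal (1 / 4) * volume Z := by
        gcongr
        exact Set.iUnion_subset fun n => Set.inter_subset_right

theorem ZZ_null {A X T : Set ℝ} (h : Adm A X T) (hXm : MeasurableSet X) (hTm : MeasurableSet T)
    (hX : X ⊆ Set.Ioo (-1 / 2) (1 / 2)) (hT1 : T ⊆ Set.Ici 2) (C : ℝ) (hT2 : T ⊆ Set.Iic C) :
    volume (⋂ k, ZZ X T k) = 0 := by
  have hfin : volume T ≠ ⊤ := by
    have h1 : T ⊆ Set.Icc 2 C := fun x hx => ⟨hT1 hx, hT2 hx⟩
    exact ((measure_mono h1).trans_lt (by rw [Real.volume_Icc]; exact ENNReal.ofReal_lt_top)).ne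
  have hstep : ∀ k, volume (ZZ X T (k + 1)) ≤ ENNReal.ofReal (1 / 4) * volume (ZZ X T k) := by
    intro k
    have hm := ZZ_meas hXm hTm k
    have hE : MeasurableSet {x : ℝ | x ∈ X ∧ ∃ j : ℤ, (2:ℝ) ^ j * x ∈ ZZ X T k} := by
      have h1 : {x : ℝ | x ∈ X ∧ ∃ j : ℤ, (2:ℝ) ^ j * x ∈ ZZ X T k} = X ∩
          ⋃ j : ℤ, (fun y : ℝ => (2:ℝ) ^ j * y) ⁻¹' (ZZ X T k) := by
        ext y; simp
      rw [h1]
      exact hXm.inter (MeasurableSet.iUnion fun j => (measurable_const_mul _) hm)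
    have h1 := meas_trans hTm hE (fun x n n' a b => (h.t1 x).unique a b)
    have h2 := meas_dil hXm hm hX ((ZZ_sub X T k).trans hT1)
      (fun x i j hx a b => (h.x1 x hx).unique a b)
    exact h1.trans h2
  have hk : ∀ k, volume (ZZ X T k) ≤ ENNReal.ofReal ((1 / 4) ^ k) * volume T := by
    intro k
    induction k with
    | zero => simp [ZZ]
    | succ k ih =>
      calc volume (ZZ X T (k + 1)) ≤ ENNReal.ofReal (1 / 4) * volume (ZZ X T k) := hstep k
        _ ≤ ENNReal.ofReal (1 / 4) * (ENNReal.ofReal ((1 / 4) ^ k) * volume T) := by gcongr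
        _ = ENNReal.ofReal ((1 / 4) ^ (k + 1)) * volume T := by
            rw [← mul_assoc, ← ENNReal.ofReal_mul (by norm_num), pow_succ']
  have hlim : Tendsto (fun k : ℕ => ENNReal.ofReal ((1 / 4) ^ k) * volume T) atTop (𝓝 0) := by
    have h1 : Tendsto (fun k : ℕ => ENNReal.ofReal ((1 / 4 : ℝ) ^ k)) atTop
        (𝓝 (ENNReal.ofReal 0)) :=
      ENNReal.tendsto_ofReal (tendsto_pow_atTop_nhds_zero_of_lt_one (by norm_num) (by norm_num))
    have h2 := ENNReal.Tendsto.mul_const h1 (b := volume T) (Or.inr hfin)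
    simpa using h2
  refine le_antisymm ?_ zero_le
  refine ge_of_tendsto' hlim fun k => ?_
  exact (measure_mono (Set.iInter_subset _ k)).trans (hk k)

theorem finite_scales (z C : ℝ) : {j : ℤ | 2 ≤ (2:ℝ) ^ j * z ∧ (2:ℝ) ^ j * z ≤ C}.Finite := by
  rcases le_or_gt z 0 with hz | hz
  · have : {j : ℤ | 2 ≤ (2:ℝ) ^ j * z ∧ (2:ℝ) ^ j * z ≤ C} = ∅ := by
      ext j
      simp only [Set.mem_ofPred_eq, Set.mem_empty_iff_false, iff_false, not_and]
      intro h
      have : (2:ℝ) ^ j * z ≤ 0 := mul_nonpos_of_nonneg_of_nonpos (by positivity) hz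
      linarith
    rw [this]
    exact Set.finite_empty
  · obtain ⟨N, hN⟩ := pow_unbounded_of_one_lt (C / z) (by norm_num : (1:ℝ) < 2)
    obtain ⟨M, hM⟩ := pow_unbounded_of_one_lt (z / 2) (by norm_num : (1:ℝ) < 2)
    apply (Set.finite_Icc (-(M:ℤ)) N).subset
    rintro j ⟨h1, h2⟩
    constructor
    · by_contra hc
      have hc' : j ≤ -(M:ℤ) := by omega
      have h3 : (2:ℝ) ^ j ≤ (2:ℝ) ^ (-(M:ℤ)) := zpow_le_zpow_right₀ (by norm_num) hc'
      rw [zpow_neg, zpow_natCast] at h3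
      have h4 : (2:ℝ) ^ j * z ≤ ((2:ℝ) ^ M)⁻¹ * z := mul_le_mul_of_nonneg_right h3 hz.le
      have h5 : ((2:ℝ) ^ M)⁻¹ * z < 2 := by
        rw [inv_mul_lt_iff₀ (by positivity)]
        linarith
      linarith
    · by_contra hc
      have hc' : (N:ℤ) ≤ j := by omega
      have h3 : (2:ℝ) ^ (N:ℤ) ≤ (2:ℝ) ^ j := zpow_le_zpow_right₀ (by norm_num) hc'
      rw [zpow_natCast] at h3
      rw [div_lt_iff₀ hz] at hN
      have h4 : (2:ℝ) ^ N * z ≤ (2:ℝ) ^ j * z := mul_le_mul_of_nonneg_right h3 hz.le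
      linarith

/-- the completed wavelet set depends continuously on the parameter (a.e. point of U(s0) stays in U(s)). -/
theorem cont (I : Set ℝ) (s₀ : ℝ) (hs₀ : s₀ ∈ I) (W : Set ℝ) (hW1 : TInj W) (hW2 : DInj W)
    (A X T : ℝ → Set ℝ) (h : ∀ s ∈ I, Adm (A s) (X s) (T s)) (hAW : ∀ s, A s ⊆ W)
    (hXm : MeasurableSet (X s₀)) (hTm : MeasurableSet (T s₀))
    (hX : ∀ s ∈ I, X s ⊆ Set.Ioo (-1 / 2) (1 / 2))
    (hT1 : ∀ s ∈ I, T s ⊆ Set.Ici 2)
    (C : ℝ) (hT2 : ∀ᶠ s in 𝓝[I] s₀, T s ⊆ Set.Iic C)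
    (hloc : ∀ᵐ y : ℝ, ∀ᶠ s in 𝓝[I] s₀, (y ∈ A s ↔ y ∈ A s₀) ∧ (y ∈ X s ↔ y ∈ X s₀) ∧
      (y ∈ T s ↔ y ∈ T s₀)) :
    ∀ᵐ y : ℝ, y ∈ U (A s₀) (X s₀) (T s₀) → ∀ᶠ s in 𝓝[I] s₀, y ∈ U (A s) (X s) (T s) := by
  have hI : ∀ᶠ s in 𝓝[I] s₀, s ∈ I := self_mem_nhdsWithin
  set Q : ℝ → Prop := fun y => ∀ᶠ s in 𝓝[I] s₀, (y ∈ A s ↔ y ∈ A s₀) ∧ (y ∈ X s ↔ y ∈ X s₀) ∧
      (y ∈ T s ↔ y ∈ T s₀) with hQ
  -- orbit conditions on A
  have P1 : ∀ z, Orb Q z → (∀ j : ℤ, (2:ℝ) ^ j * z ∉ A s₀) →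
      ∀ᶠ s in 𝓝[I] s₀, ∀ j : ℤ, (2:ℝ) ^ j * z ∉ A s := by
    intro z hz hn
    by_cases hj : ∃ j0 : ℤ, (2:ℝ) ^ j0 * z ∈ W
    · obtain ⟨j0, hj0⟩ := hj
      filter_upwards [(hz.mul j0).self] with s hs j hjs
      have h1 := hW2 ((2:ℝ) ^ j0 * z) (j - j0) hj0 (by
        rw [← mul_assoc, ← zpow_add₀ (by norm_num), sub_add_cancel]
        exact hAW s hjs)
      have h2 : j = j0 := by omega
      subst h2
      exact hn j (hs.1.1 hjs)
    · push Not at hj
      exact Filter.Eventually.of_forall fun s j hjs => hj j (hAW s hjs)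
  have P2 : ∀ z, Orb Q z → (∀ n : ℤ, z + n ∉ A s₀) →
      ∀ᶠ s in 𝓝[I] s₀, ∀ n : ℤ, z + n ∉ A s := by
    intro z hz hn
    by_cases hj : ∃ n0 : ℤ, z + n0 ∈ W
    · obtain ⟨n0, hn0⟩ := hj
      filter_upwards [(hz.add n0).self] with s hs n hns
      have h1 := hW1 (z + n0) (n - n0) hn0 (by
        have : z + (n0 : ℝ) + ((n - n0 : ℤ) : ℝ) = z + n := by push_cast; ring
        rw [this]
        exact hAW s hns)
      have h2 : n = n0 := by omega
      subst h2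
      exact hn n (hs.1.1 hns)
    · push Not at hj
      exact Filter.Eventually.of_forall fun s j hjs => hj j (hAW s hjs)
  have P3 : ∀ z, Orb Q z → (∀ j : ℤ, (2:ℝ) ^ j * z ∈ T s₀ → ∃ n : ℤ, (2:ℝ) ^ j * z + n ∈ A s₀) →
      ∀ᶠ s in 𝓝[I] s₀, ∀ j : ℤ, (2:ℝ) ^ j * z ∈ T s → ∃ n : ℤ, (2:ℝ) ^ j * z + n ∈ A s := by
    intro z hz hn
    have h1 : ∀ᶠ s in 𝓝[I] s₀, ∀ j ∈ {j : ℤ | 2 ≤ (2:ℝ) ^ j * z ∧ (2:ℝ) ^ j * z ≤ C},
        (2:ℝ) ^ j * z ∈ T s → ∃ n : ℤ, (2:ℝ) ^ j * z + n ∈ A s := by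
      rw [Filter.eventually_all_finite (finite_scales z C)]
      intro j _
      by_cases hj : (2:ℝ) ^ j * z ∈ T s₀
      · obtain ⟨n, hn'⟩ := hn j hj
        filter_upwards [((hz.mul j).add n).self] with s hs _
        exact ⟨n, hs.1.2 hn'⟩
      · filter_upwards [(hz.mul j).self] with s hs hjs
        exact absurd (hs.2.2.1 hjs) hj
    filter_upwards [h1, hI, hT2] with s h1 h2 h3 j hj
    exact h1 j ⟨hT1 s h2 hj, h3 hj⟩ hj
  -- stability of the chain sets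
  have C1 : ∀ k, ∀ z, Orb Q z → z ∈ F (A s₀) (X s₀) (T s₀) k →
      ∀ᶠ s in 𝓝[I] s₀, z ∈ F (A s) (X s) (T s) k := by
    intro k
    induction k with
    | zero =>
      intro z hz hF
      filter_upwards [hz.self, P1 z hz hF.2.1, P3 z hz hF.2.2] with s h1 h2 h3
      exact ⟨h1.2.1.2 hF.1, h2, h3⟩
    | succ k ih =>
      intro z hz hF
      obtain ⟨h1, j, hj, n, hn⟩ := hF
      filter_upwards [hz.self, (hz.mul j).self, ih _ ((hz.mul j).add n) hn] with s a b c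
      exact ⟨a.2.1.2 h1, j, b.2.2.2 hj, n, c⟩
  -- backward chains
  have hF_sub : ∀ (A X T : Set ℝ) (k : ℕ), F A X T k ⊆ X := by
    intro A X T k
    cases k with
    | zero => exact fun x hx => hx.1
    | succ k => exact fun x hx => hx.1
  have D : ∀ k, ∀ y, Orb Q y → y ∈ Y1 (A s₀) (X s₀) (T s₀) →
      (¬ ∀ᶠ s in 𝓝[I] s₀, ∀ n : ℤ, y + n ∉ X1 (A s) (X s) (T s)) → y ∈ ZZ (X s₀) (T s₀) k := by
    intro k
    induction k with
    | zero => intro y _ hY _; exact hY.1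
    | succ k ih =>
      intro y hy hY hN
      -- at most one translate near zero
      by_cases hx : ∃ n : ℤ, y + n ∈ X s₀
      · obtain ⟨n, hn⟩ := hx
        have hn2 := hX s₀ hs₀ hn
        have huniq : ∀ s ∈ I, ∀ n' : ℤ, y + n' ∈ X s → n' = n := by
          intro s hs n' hn'
          have h1 := hX s hs hn'
          have h2 : |((n' - n : ℤ) : ℝ)| < 1 := by
            rw [abs_lt]
            push_cast
            constructor <;> linarith [h1.1, h1.2, hn2.1, hn2.2]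
          have h3 : |n' - n| < 1 := by exact_mod_cast h2
          have h4 := Int.abs_lt_one_iff.1 h3
          omega
        have hgx : Orb Q (y + n) := hy.add n
        have hxX1 : y + n ∉ X1 (A s₀) (X s₀) (T s₀) := hY.2.2 n
        -- reduce to x
        have hred : (∀ᶠ s in 𝓝[I] s₀, y + n ∉ X1 (A s) (X s) (T s)) → False := by
          intro hev
          apply hN
          filter_upwards [hev, hI] with s h1 h2 n' h3
          have h4 : y + n' ∈ X s := by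
            obtain ⟨i, hi⟩ := Set.mem_iUnion.1 h3
            exact hF_sub _ _ _ i hi
          have h5 := huniq s h2 n' h4
          rw [h5] at h3
          exact h1 h3
        by_cases hA : ∃ j : ℤ, (2:ℝ) ^ j * (y + n) ∈ A s₀
        · exfalso
          obtain ⟨j, hj⟩ := hA
          apply hred
          filter_upwards [(hgx.mul j).self, hI] with s h1 h2 h3
          obtain ⟨i, hi⟩ := Set.mem_iUnion.1 h3
          have hjs := h1.1.2 hj
          cases i with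
          | zero => exact hi.2.1 j hjs
          | succ i =>
            obtain ⟨_, j', hj', _⟩ := hi
            refine (h s h2).t3 _ (j - j') hj' ?_
            rw [← mul_assoc, ← zpow_add₀ (by norm_num), sub_add_cancel]
            exact hjs
        · push Not at hA
          have hnot : ¬ ∀ j : ℤ, (2:ℝ) ^ j * (y + n) ∈ T s₀ →
              ∃ n' : ℤ, (2:ℝ) ^ j * (y + n) + n' ∈ A s₀ := by
            intro hall
            exact hxX1 (Set.mem_iUnion.2 ⟨0, hn, hA, hall⟩)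
          push Not at hnot
          obtain ⟨j, hj, hjA⟩ := hnot
          set y' : ℝ := (2:ℝ) ^ j * (y + n) with hy'
          have hgy' : Orb Q y' := hgx.mul j
          have hY' : y' ∈ Y1 (A s₀) (X s₀) (T s₀) := by
            refine ⟨hj, hjA, fun n' hn' => ?_⟩
            obtain ⟨i, hi⟩ := Set.mem_iUnion.1 hn'
            exact hxX1 (Set.mem_iUnion.2 ⟨i + 1, hn, j, hj, n', hi⟩)
          have hN' : ¬ ∀ᶠ s in 𝓝[I] s₀, ∀ n : ℤ, y' + n ∉ X1 (A s) (X s) (T s) := by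
            intro hev
            apply hred
            filter_upwards [hev, hgy'.self, P2 y' hgy' hjA, hI] with s h1 h2 h3 h4 h5
            obtain ⟨i, hi⟩ := Set.mem_iUnion.1 h5
            have hjT : y' ∈ T s := h2.2.2.2 hj
            cases i with
            | zero =>
              obtain ⟨n', hn'⟩ := hi.2.2 j hjT
              exact h3 n' hn'
            | succ i =>
              obtain ⟨_, j', hj', n', hn'⟩ := hi
              have h6 : j' - j = 0 := by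
                refine (h s h4).t2 y' (j' - j) hjT ?_
                rw [hy', ← mul_assoc, ← zpow_add₀ (by norm_num), sub_add_cancel]
                exact hj'
              have h7 : j' = j := by omega
              rw [h7] at hn'
              exact h1 n' (Set.mem_iUnion.2 ⟨i, hn'⟩)
          exact ⟨hY.1, n, hn, j, ih y' hgy' hY' hN'⟩
      · exfalso
        push Not at hx
        apply hN
        by_cases hw : ∃ n0 : ℤ, y + n0 ∈ Set.Ioo (-1 / 2 : ℝ) (1 / 2)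
        · obtain ⟨n0, hn0⟩ := hw
          filter_upwards [(hy.add n0).self, hI] with s h1 h2 n h3
          have h4 : y + n ∈ X s := by
            obtain ⟨i, hi⟩ := Set.mem_iUnion.1 h3
            exact hF_sub _ _ _ i hi
          have h5 := hX s h2 h4
          have h6 : |((n - n0 : ℤ) : ℝ)| < 1 := by
            rw [abs_lt]
            push_cast
            constructor <;> linarith [h5.1, h5.2, hn0.1, hn0.2]
          have h7 : |n - n0| < 1 := by exact_mod_cast h6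
          have h8 := Int.abs_lt_one_iff.1 h7
          have h9 : n = n0 := by omega
          rw [h9] at h4
          exact hx n0 (h1.2.1.1 h4)
        · push Not at hw
          filter_upwards [hI] with s h2 n h3
          have h4 : y + n ∈ X s := by
            obtain ⟨i, hi⟩ := Set.mem_iUnion.1 h3
            exact hF_sub _ _ _ i hi
          exact hw n (hX s h2 h4)
  -- conclusion
  have hT20 : T s₀ ⊆ Set.Iic C := hT2.self_of_nhdsWithin hs₀
  have hnull := ZZ_null (h s₀ hs₀) hXm hTm (hX s₀ hs₀) (hT1 s₀ hs₀) C hT20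
  have hae : ∀ᵐ y : ℝ, y ∉ ⋂ k, ZZ (X s₀) (T s₀) k := by
    rw [ae_iff]
    simp only [not_not]
    exact hnull
  filter_upwards [ae_orbit hloc, hae] with y hy hyZ hyU
  have hy' : Orb Q y := hy
  rcases hyU with (hyA | hyX) | hyY
  · filter_upwards [hy'.self] with s hs
    exact Or.inl (Or.inl (hs.1.2 hyA))
  · obtain ⟨k, hk⟩ := Set.mem_iUnion.1 hyX
    filter_upwards [C1 k y hy' hk] with s hs
    exact Or.inl (Or.inr (Set.mem_iUnion.2 ⟨k, hs⟩))
  · have hN : ∀ᶠ s in 𝓝[I] s₀, ∀ n : ℤ, y + n ∉ X1 (A s) (X s) (T s) := by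
      by_contra hc
      exact hyZ (Set.mem_iInter.2 fun k => D k y hy' hyY hc)
    filter_upwards [hN, hy'.self, P2 y hy' hyY.2.1] with s h1 h2 h3
    exact Or.inr ⟨h2.2.2.2 hyY.1, h3, h1⟩

end Pool.Agent.Helper152.WavCont
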