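import Pool.Agent.Helper152.WavDefs

set_option autoImplicit false
open MeasureTheory
open scoped ENNReal

namespace Pool.Agent.Helper152.WavCrit

open Pool.Agent.Helper152.Wav
open Pool.Agent.Helper152.Lar (w)

theorem sq_lint (g : ℝ → ℂ) : eLpNorm g 2 (volume : Measure ℝ) ^ 2 = ∫⁻ y, ‖g y‖ₑ ^ 2 := by
  have h := eLpNorm_nnreal_pow_eq_lintegral (f := g) (μ := (volume : Measure ℝ)) (p := 2)
    (by norm_num)
  simpa using h

theorem norm_sq (f : Lp ℂ 2 (volume : Measure ℝ)) (g : ℝ → ℂ) (h : ⇑f =ᵐ[volume] g) :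
    ENNReal.ofReal (‖f‖ ^ 2) = ∫⁻ y, ‖g y‖ₑ ^ 2 := by
  rw [← sq_lint, ← eLpNorm_congr_ae h, Lp.norm_def, ENNReal.ofReal_pow ENNReal.toReal_nonneg,
    ENNReal.ofReal_toReal (Lp.eLpNorm_ne_top f)]

/-- L2 path criterion: unit vectors, measurable representatives, and pointwise continuity a.e. on the support. -/
theorem crit (S : Set (Lp ℂ 2 (volume : Measure ℝ))) (Ψ : ℝ → ℝ → ℂ)
    (hm : ∀ t ∈ Set.Icc (0:ℝ) 1, Measurable (Ψ t))
    (h1 : ∀ t ∈ Set.Icc (0:ℝ) 1, ∫⁻ y, ‖Ψ t y‖ₑ ^ 2 = 1)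
    (hc : ∀ t₀ ∈ Set.Icc (0:ℝ) 1, ∀ᵐ y : ℝ, Ψ t₀ y ≠ 0 →
      ContinuousWithinAt (fun t => Ψ t y) (Set.Icc 0 1) t₀)
    (hS : ∀ t ∈ Set.Icc (0:ℝ) 1, ∀ f : Lp ℂ 2 (volume : Measure ℝ), ⇑f =ᵐ[volume] Ψ t → f ∈ S)
    (f₀ f₁ : Lp ℂ 2 (volume : Measure ℝ)) (h0 : ⇑f₀ =ᵐ[volume] Ψ 0) (h1' : ⇑f₁ =ᵐ[volume] Ψ 1) :
    JoinedIn S f₀ f₁ := by
  set pr : ℝ → ℝ := fun t => (Set.projIcc (0:ℝ) 1 zero_le_one t : ℝ) with hpr
  have hprI : ∀ t, pr t ∈ Set.Icc (0:ℝ) 1 := fun t => (Set.projIcc (0:ℝ) 1 zero_le_one t).2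
  have hpre : ∀ t ∈ Set.Icc (0:ℝ) 1, pr t = t := fun t ht => by
    simp only [hpr, Set.projIcc_of_mem zero_le_one ht]
  have hmeas : ∀ t, Measurable (Ψ (pr t)) := fun t => hm _ (hprI t)
  have hmem : ∀ t, MemLp (Ψ (pr t)) 2 (volume : Measure ℝ) := by
    intro t
    refine ⟨(hmeas t).aestronglyMeasurable, ?_⟩
    have h2 := sq_lint (Ψ (pr t))
    rw [h1 _ (hprI t)] at h2
    by_contra h
    rw [not_lt, top_le_iff] at h
    rw [h] at h2
    simp at h2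
  set F : ℝ → Lp ℂ 2 (volume : Measure ℝ) := fun t => (hmem t).toLp with hF
  have hFe : ∀ t, ⇑(F t) =ᵐ[volume] Ψ (pr t) := fun t => (hmem t).coeFn_toLp
  have hn : ∀ t, ‖F t‖ ^ 2 = 1 := by
    intro t
    have h2 := norm_sq (F t) _ (hFe t)
    rw [h1 _ (hprI t)] at h2
    have := (ENNReal.ofReal_eq_one).mp h2
    exact this
  have hcont : ContinuousOn F (Set.Icc 0 1) := by
    intro t₀ ht₀
    have hae := hc t₀ ht₀
    -- Fatou
    have hfat := lintegral_liminf_le (μ := (volume : Measure ℝ)) (u := nhdsWithin t₀ (Set.Icc 0 1))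
      (f := fun t y => ‖Ψ (pr t) y + Ψ (pr t₀) y‖ₑ ^ 2)
      (fun t => (((hmeas t).add (hmeas t₀)).enorm.pow_const 2))
    have hlow : (4 : ℝ≥0∞) ≤ ∫⁻ y, Filter.liminf (fun t => ‖Ψ (pr t) y + Ψ (pr t₀) y‖ₑ ^ 2)
        (nhdsWithin t₀ (Set.Icc 0 1)) := by
      have h4 : (4 : ℝ≥0∞) = ∫⁻ y, 4 * ‖Ψ t₀ y‖ₑ ^ 2 := by
        rw [lintegral_const_mul _ ((hm t₀ ht₀).enorm.pow_const 2), h1 t₀ ht₀, mul_one]
      rw [h4]
      refine lintegral_mono_ae ?_
      filter_upwards [hae] with y hy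
      by_cases h0 : Ψ t₀ y = 0
      · simp [h0]
      · have hcy := hy h0
        have ht : Filter.Tendsto (fun t => ‖Ψ (pr t) y + Ψ (pr t₀) y‖ₑ ^ 2)
            (nhdsWithin t₀ (Set.Icc 0 1)) (nhds (‖Ψ t₀ y + Ψ t₀ y‖ₑ ^ 2)) := by
          have h5 : Filter.Tendsto (fun t => Ψ (pr t) y) (nhdsWithin t₀ (Set.Icc 0 1))
              (nhds (Ψ t₀ y)) := by
            refine hcy.tendsto.congr' ?_
            filter_upwards [self_mem_nhdsWithin] with t ht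
            rw [hpre t ht]
          rw [hpre t₀ ht₀]
          exact ((ENNReal.continuous_pow 2).tendsto _).comp ((h5.add_const _).enorm)
        have : (nhdsWithin t₀ (Set.Icc (0:ℝ) 1)).NeBot := by
          rw [← mem_closure_iff_nhdsWithin_neBot]
          exact subset_closure ht₀
        rw [ht.liminf_eq]
        apply le_of_eq
        rw [← two_mul, enorm_mul, mul_pow]
        congr 1
        have : ‖(2:ℂ)‖ₑ = 2 := by
          rw [← ofReal_norm]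
          norm_num
        rw [this]
        norm_num
    have hle := hlow.trans hfat
    rw [ContinuousWithinAt, Metric.tendsto_nhds]
    intro ε hε
    have hlt : ENNReal.ofReal (4 - ε ^ 2) < Filter.liminf
        (fun t => ∫⁻ y, ‖Ψ (pr t) y + Ψ (pr t₀) y‖ₑ ^ 2) (nhdsWithin t₀ (Set.Icc 0 1)) := by
      refine lt_of_lt_of_le ?_ hle
      have : (4 : ℝ≥0∞) = ENNReal.ofReal 4 := by
        rw [ENNReal.ofReal_ofNat]
      rw [this]
      refine (ENNReal.ofReal_lt_ofReal_iff (by norm_num)).mpr ?_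
      nlinarith [pow_pos hε 2]
    have hev := Filter.eventually_lt_of_lt_liminf hlt
    filter_upwards [hev] with t ht
    have h6 : ENNReal.ofReal (‖F t + F t₀‖ ^ 2) = ∫⁻ y, ‖Ψ (pr t) y + Ψ (pr t₀) y‖ₑ ^ 2 := by
      refine norm_sq (F t + F t₀) _ ?_
      filter_upwards [Lp.coeFn_add (F t) (F t₀), hFe t, hFe t₀] with y h1 h2 h3
      rw [h1, Pi.add_apply, h2, h3]
    rw [← h6] at ht
    have h7 : 4 - ε ^ 2 < ‖F t + F t₀‖ ^ 2 := by
      by_contra hcon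
      rw [not_lt] at hcon
      exact absurd (ENNReal.ofReal_le_ofReal hcon) (not_le.mpr ht)
    have h8 := parallelogram_law_with_norm ℂ (F t) (F t₀)
    rw [hn t, hn t₀] at h8
    have h9 : ‖F t - F t₀‖ ^ 2 < ε ^ 2 := by linarith
    rw [dist_eq_norm]
    exact lt_of_pow_lt_pow_left₀ 2 hε.le h9
  refine JoinedIn.ofLine (f := F) hcont ?_ ?_ ?_
  · refine Lp.ext ?_
    have := hFe 0
    rw [hpre 0 (by simp)] at this
    exact this.trans h0.symm
  · refine Lp.ext ?_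
    have := hFe 1
    rw [hpre 1 (by simp)] at this
    exact this.trans h1'.symm
  · rintro f ⟨t, ht, rfl⟩
    have := hFe t
    rw [hpre t ht] at this
    exact hS t ht _ this

end Pool.Agent.Helper152.WavCrit
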