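import Pool.Agent.Helper152.LarBase

set_option autoImplicit false
open MeasureTheory Filter Topology
open scoped ENNReal

namespace Pool.Agent.Helper152.Wav

open Pool.Agent.Helper152.Lar (w)

/-- fibre conditions -/
def Good (φ : ℝ → ℂ) : Prop :=
  (∀ᵐ x : ℝ, ∑' n : ℤ, ‖φ (x + n)‖ₑ ^ 2 = 1) ∧
  (∀ i : ℕ, 1 ≤ i → ∀ᵐ x : ℝ,
    ∑' n : ℤ, φ ((2:ℝ) ^ i * (x + n)) * (starRingEnd ℂ) (φ (x + n)) = 0) ∧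
  (∀ᵐ x : ℝ, ∑' j : ℤ, ‖φ ((2:ℝ) ^ j * x)‖ₑ ^ 2 = 1)

/-- joined by a path of good functions -/
def Conn (φ₀ φ₁ : ℝ → ℂ) : Prop :=
  ∃ Ψ : ℝ → ℝ → ℂ, (∀ t ∈ Set.Icc (0:ℝ) 1, Measurable (Ψ t) ∧ Good (Ψ t)) ∧
    Ψ 0 =ᵐ[volume] φ₀ ∧ Ψ 1 =ᵐ[volume] φ₁ ∧
    ∀ t₀ ∈ Set.Icc (0:ℝ) 1, ∀ᵐ y : ℝ, Ψ t₀ y ≠ 0 →
      ContinuousWithinAt (fun t => Ψ t y) (Set.Icc 0 1) t₀

/-- translation injective, dilation injective -/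
def TInj (A : Set ℝ) : Prop := ∀ (y : ℝ) (n : ℤ), y ∈ A → y + n ∈ A → n = 0
def DInj (A : Set ℝ) : Prop := ∀ (y : ℝ) (j : ℤ), y ∈ A → (2:ℝ) ^ j * y ∈ A → j = 0

/-- admissible triples: A part of a wavelet set, X dilation tile near zero, T translation tile far away. -/
structure Adm (A X T : Set ℝ) : Prop where
  a1 : TInj A
  a2 : DInj A
  x1 : ∀ x : ℝ, x ≠ 0 → ∃! j : ℤ, (2:ℝ) ^ j * x ∈ X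
  x2 : TInj X
  x3 : ∀ (y : ℝ) (n : ℤ), y ∈ X → y + n ∉ A
  t1 : ∀ x : ℝ, ∃! n : ℤ, x + n ∈ T
  t2 : DInj T
  t3 : ∀ (y : ℝ) (j : ℤ), y ∈ T → (2:ℝ) ^ j * y ∉ A
  x0 : (0:ℝ) ∉ X
  t0 : (0:ℝ) ∉ T

/-- the chain sets -/
def F (A X T : Set ℝ) : ℕ → Set ℝ
  | 0 => {x | x ∈ X ∧ (∀ j : ℤ, (2:ℝ) ^ j * x ∉ A) ∧
      (∀ j : ℤ, (2:ℝ) ^ j * x ∈ T → ∃ n : ℤ, (2:ℝ) ^ j * x + n ∈ A)}
  | (k + 1) => {x | x ∈ X ∧ ∃ j : ℤ, (2:ℝ) ^ j * x ∈ T ∧ ∃ n : ℤ, (2:ℝ) ^ j * x + n ∈ F A X T k}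

def X1 (A X T : Set ℝ) : Set ℝ := ⋃ k, F A X T k

def Y1 (A X T : Set ℝ) : Set ℝ :=
  {y | y ∈ T ∧ (∀ n : ℤ, y + n ∉ A) ∧ (∀ n : ℤ, y + n ∉ X1 A X T)}

/-- the completed wavelet set -/
def U (A X T : Set ℝ) : Set ℝ := A ∪ X1 A X T ∪ Y1 A X T

/-- block state: rows k (integers), levels j; the column (j, r) is supported on the rows k = r mod 2^j. -/
structure Blk (P : ℤ → Prop) (N : ℕ → ℤ → Prop) (a : ℤ → ℕ → ℂ) : Prop where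
  zero : ∀ k j, ¬ P k → a k j = 0
  node : ∀ k j, P k → N j k
  per : ∀ (j : ℕ) (r m : ℤ), N j (r + 2 ^ j * m) ↔ N j r
  row : ∀ k, P k → ∑' j : ℕ, ‖a k j‖ₑ ^ 2 = 1
  col : ∀ (j : ℕ) (r : ℤ), N j r → ∑' m : ℤ, ‖a (r + 2 ^ j * m) j‖ₑ ^ 2 = 1
  orth : ∀ (i j : ℕ) (r : ℤ), i < j →
    ∑' m : ℤ, a (r + 2 ^ j * m) i * (starRingEnd ℂ) (a (r + 2 ^ j * m) j) = 0

/-- truncated norm of a row -/
noncomputable def sg (a : ℤ → ℕ → ℂ) (k₀ : ℤ) (j : ℕ) : ℝ := ∑ l ∈ Finset.range j, ‖a k₀ l‖ ^ 2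

/-- truncated inner product of two rows -/
noncomputable def ss (a : ℤ → ℕ → ℂ) (k₀ k : ℤ) (j : ℕ) : ℂ :=
  ∑ l ∈ Finset.range j, (starRingEnd ℂ) (a k₀ l) * a k l

open Classical in
/-- the flow concentrating row k₀ at its first nonzero column, parameter θ in [0,1]. -/
noncomputable def mv (θ : ℝ) (k₀ : ℤ) (a : ℤ → ℕ → ℂ) (k : ℤ) (j : ℕ) : ℂ :=
  if (2:ℤ) ^ j ∣ k - k₀ then
    if θ < 1 then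
      (if k = k₀ then
        ((Real.sqrt (1 - θ) / Real.sqrt ((1 - θ + θ * sg a k₀ j) * (1 - θ + θ * sg a k₀ (j + 1))) : ℝ) : ℂ)
          * a k₀ j
      else
        ((Real.sqrt ((1 - θ + θ * sg a k₀ j) / (1 - θ + θ * sg a k₀ (j + 1))) : ℝ) : ℂ) * a k j -
        ((θ / Real.sqrt ((1 - θ + θ * sg a k₀ j) * (1 - θ + θ * sg a k₀ (j + 1))) : ℝ) : ℂ)
          * a k₀ j * ss a k₀ k j)
    else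
      (if sg a k₀ (j + 1) = 0 then a k j
      else if sg a k₀ j = 0 then (if k = k₀ then a k₀ j / ((‖a k₀ j‖ : ℝ) : ℂ) else 0)
      else ((Real.sqrt (sg a k₀ j / sg a k₀ (j + 1)) : ℝ) : ℂ) * a k j -
        ((1 / Real.sqrt (sg a k₀ j * sg a k₀ (j + 1)) : ℝ) : ℂ) * a k₀ j * ss a k₀ k j)
  else a k j

/-- active rows -/
def PP (Z : Set ℝ) (ξ : ℝ) (k : ℤ) : Prop := ∀ i : ℕ, 1 ≤ i → (ξ + k) / 2 ^ i ∉ Z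

/-- nodes of the block -/
def NN (Z : Set ℝ) (ξ : ℝ) (j : ℕ) (r : ℤ) : Prop := ∀ i : ℕ, 1 ≤ i → i ≤ j → (ξ + r) / 2 ^ i ∉ Z

open Classical in
/-- the function on the line given by the block states -/
noncomputable def Phi (Z : Set ℝ) (a : ℝ → ℤ → ℕ → ℂ) (y : ℝ) : ℂ :=
  if h : ∃ m : ℕ, (2:ℝ) ^ m * y ∈ Z then
    (if PP Z (Int.fract ((2:ℝ) ^ (Nat.find h) * y)) ⌊(2:ℝ) ^ (Nat.find h) * y⌋ then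
      a (Int.fract ((2:ℝ) ^ (Nat.find h) * y)) ⌊(2:ℝ) ^ (Nat.find h) * y⌋ (Nat.find h) else 0)
  else 0

open Classical in
/-- initial block states -/
noncomputable def a0 (Z : Set ℝ) (φ : ℝ → ℂ) (ξ : ℝ) (k : ℤ) (j : ℕ) : ℂ :=
  if PP Z ξ k then φ ((ξ + k) / 2 ^ j) else 0

/-- the states -/
noncomputable def st (e : ℕ → ℤ) (a : ℤ → ℕ → ℂ) : ℕ → ℤ → ℕ → ℂ
  | 0 => a
  | (n + 1) => mv 1 (e n) (st e a n)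

/-- the translation tile far away -/
def TT (s : ℝ) : Set ℝ :=
  Set.Ico ((2:ℝ) ^ ⌊s⌋₊ + 1 + Int.fract s) ((2:ℝ) ^ ⌊s⌋₊ + 2) ∪
  Set.Ico ((2:ℝ) ^ (⌊s⌋₊ + 1) + 1) ((2:ℝ) ^ (⌊s⌋₊ + 1) + 1 + Int.fract s)

/-- the dilation tile near zero -/
def XX (s : ℝ) : Set ℝ := {y | 1 / (2 * s) ≤ |y| ∧ |y| < 1 / s}

/-- the retained part of W -/
def AA (W : Set ℝ) (s : ℝ) : Set ℝ :=
  {y | y ∈ W ∧ |y| < s - 4 ∧ (∀ n : ℤ, 1 / s ≤ |y - n|) ∧ ∀ j : ℤ, (2:ℝ) ^ j * y ∉ TT s}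

end Pool.Agent.Helper152.Wav
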