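import Pool.Agent.Helper152.WavDefs

set_option autoImplicit false
open MeasureTheory Filter Topology
open scoped ENNReal

namespace Pool.Agent.Helper152.WavFilt

open Pool.Agent.Helper152.Wav
open Pool.Agent.Helper152.Lar (w)




section aux7

theorem hasSum_parity {α : Type*} [AddCommMonoid α] [TopologicalSpace α] [ContinuousAdd α]
    {f : ℤ → α} {a b : α} (ha : HasSum (fun k : ℤ => f (2 * k)) a)
    (hb : HasSum (fun k : ℤ => f (2 * k + 1)) b) : HasSum f (a + b) := by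
  have hi1 : Function.Injective (fun k : ℤ => 2 * k) := fun x y h => by simpa using h
  have hi2 : Function.Injective (fun k : ℤ => 2 * k + 1) := fun x y h => by simpa using h
  have hc : IsCompl (Set.range (fun k : ℤ => 2 * k)) (Set.range (fun k : ℤ => 2 * k + 1)) := by
    have h1 : Set.range (fun k : ℤ => 2 * k) = {n : ℤ | Even n} := by
      ext n
      simp only [Set.mem_range, Set.mem_ofPred_eq]
      constructor
      · rintro ⟨k, rfl⟩; exact even_two_mul k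
      · rintro ⟨k, hk⟩; exact ⟨k, by rw [hk]; ring⟩
    have h2 : Set.range (fun k : ℤ => 2 * k + 1) = {n : ℤ | Odd n} := by
      ext n
      simp only [Set.mem_range, Set.mem_ofPred_eq]
      constructor
      · rintro ⟨k, rfl⟩; exact ⟨k, rfl⟩
      · rintro ⟨k, hk⟩; exact ⟨k, hk.symm⟩
    rw [h1, h2]
    exact Int.isCompl_even_odd
  exact HasSum.add_isCompl hc (hi1.hasSum_range_iff.2 ha) (hi2.hasSum_range_iff.2 hb)

theorem ae_aff {P : ℝ → Prop} (h : ∀ᵐ x : ℝ, P x) (a d : ℝ) (ha : a ≠ 0) :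
    ∀ᵐ x : ℝ, P (a * x + d) := by
  rw [ae_iff] at h ⊢
  have h1 : volume ((fun x => x + d) ⁻¹' {x | ¬ P x}) = 0 := by
    rw [measure_preimage_add_right]; exact h
  have h2 := Real.volume_preimage_mul_left ha ((fun x => x + d) ⁻¹' {x | ¬ P x})
  rw [h1, mul_zero] at h2
  exact h2

theorem per_int {α : Type*} {h : ℝ → α} (hp : ∀ y, h (y + 1) = h y) (y : ℝ) (n : ℤ) :
    h (y + n) = h y := by
  have hp' : Function.Periodic h 1 := hp
  have := hp'.int_mul n y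
  simpa using this

theorem enorm_sq (z : ℂ) : ‖z‖ₑ ^ 2 = ENNReal.ofReal (‖z‖ ^ 2) := by
  rw [← ofReal_norm, ENNReal.ofReal_pow (norm_nonneg _)]

theorem shift_lint (n : ℤ) (f : ℝ → ℝ≥0∞) :
    ∫⁻ x in Set.Ico (n:ℝ) (n+1), f x = ∫⁻ x in Set.Ico (0:ℝ) 1, f (x + n) := by
  have hmp := measurePreserving_add_right volume (n:ℝ)
  have hemb : MeasurableEmbedding (fun x : ℝ => x + n) := measurableEmbedding_addRight (n:ℝ)
  have h := hmp.setLIntegral_comp_preimage_emb hemb f (Set.Ico (n:ℝ) (n+1))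
  rw [← h]
  congr 2
  ext x
  simp only [Set.mem_preimage, Set.mem_Ico]
  constructor <;> rintro ⟨h1, h2⟩ <;> constructor <;> linarith

theorem fold_lint (f : ℝ → ℝ≥0∞) :
    ∫⁻ x, f x = ∑' n : ℤ, ∫⁻ x in Set.Ico (0:ℝ) 1, f (x + n) := by
  have h1 : ∫⁻ x, f x = ∫⁻ x in ⋃ n : ℤ, Set.Ico (n:ℝ) (n+1), f x := by
    rw [iUnion_Ico_intCast]; simp
  rw [h1, lintegral_iUnion (fun n => measurableSet_Ico) (Set.pairwise_disjoint_Ico_intCast ℝ)]
  exact tsum_congr fun n => shift_lint n f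

theorem dil_lint {a : ℝ} (ha : 0 < a) (f : ℝ → ℝ≥0∞) (hf : Measurable f) :
    ENNReal.ofReal a * ∫⁻ x, f (a * x) = ∫⁻ x, f x := by
  conv_rhs => rw [← Real.smul_map_volume_mul_left ha.ne']
  rw [lintegral_smul_measure, lintegral_map hf (measurable_const_mul a), abs_of_pos ha, smul_eq_mul]

theorem decay (g : ℝ → ℂ) (hgm : Measurable g)
    (hn : ∀ᵐ y : ℝ, ∑' n : ℤ, ‖g (y + n)‖ₑ ^ 2 = 1) :
    ∀ᵐ y : ℝ, Tendsto (fun N : ℕ => ‖g ((2:ℝ) ^ N * y)‖) atTop (𝓝 0) := by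
  have hmeas : Measurable (fun x => ‖g x‖ₑ ^ 2) := hgm.enorm.pow_const 2
  have h1 : ∫⁻ x, ‖g x‖ₑ ^ 2 = 1 := by
    have hL : ∀ n : ℤ, AEMeasurable (fun x : ℝ => ‖g (x + n)‖ₑ ^ 2)
        (volume.restrict (Set.Ico (0:ℝ) 1)) :=
      fun n => (hmeas.comp (measurable_add_const (n:ℝ))).aemeasurable
    rw [fold_lint, ← lintegral_tsum hL]
    rw [lintegral_congr_ae (g := fun _ => (1 : ℝ≥0∞)) (ae_restrict_of_ae hn)]
    simp
  have h2 : ∫⁻ x, ∑' N : ℕ, ‖g ((2:ℝ) ^ N * x)‖ₑ ^ 2 ≠ ∞ := by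
    have hL : ∀ N : ℕ, AEMeasurable (fun x : ℝ => ‖g ((2:ℝ) ^ N * x)‖ₑ ^ 2) volume :=
      fun N => (hmeas.comp (measurable_const_mul ((2:ℝ) ^ N))).aemeasurable
    rw [lintegral_tsum hL]
    have h3 : ∀ N : ℕ, ∫⁻ x, ‖g ((2:ℝ) ^ N * x)‖ₑ ^ 2 = (2⁻¹ : ℝ≥0∞) ^ N := by
      intro N
      have h4 := dil_lint (a := (2:ℝ) ^ N) (by positivity) (fun x => ‖g x‖ₑ ^ 2) hmeas
      rw [h1] at h4
      have h5 : ENNReal.ofReal ((2:ℝ) ^ N) = 2 ^ N := by
        rw [ENNReal.ofReal_pow (by norm_num)]; simp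
      rw [h5] at h4
      rw [← ENNReal.inv_pow]
      exact ENNReal.eq_inv_of_mul_eq_one_left (by rw [mul_comm]; exact h4)
    simp_rw [h3]
    rw [ENNReal.tsum_geometric]
    simp
  have h6 := ae_lt_top' (AEMeasurable.tsum (fun N : ℕ =>
    (hmeas.comp (measurable_const_mul ((2:ℝ) ^ N))).aemeasurable)) h2
  filter_upwards [h6] with y hy
  have h7 := ENNReal.tendsto_atTop_zero_of_tsum_ne_top hy.ne
  have h8 : Tendsto (fun N : ℕ => ‖g ((2:ℝ) ^ N * y)‖ ^ 2) atTop (𝓝 0) := by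
    have h9 := (ENNReal.tendsto_toReal ENNReal.zero_ne_top).comp h7
    rw [ENNReal.toReal_zero] at h9
    refine h9.congr (fun N => ?_)
    simp only [Function.comp]
    rw [ENNReal.toReal_pow, toReal_enorm]
  have h10 := h8.sqrt
  rw [Real.sqrt_zero] at h10
  refine h10.congr (fun N => ?_)
  exact Real.sqrt_sq (norm_nonneg _)

theorem hasSum_of_fib {g : ℝ → ℂ} {y : ℝ} (h : ∑' n : ℤ, ‖g (y + n)‖ₑ ^ 2 = 1) :
    HasSum (fun n : ℤ => ‖g (y + n)‖ ^ 2) 1 := by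
  have h1 := ENNReal.hasSum_toReal (f := fun n : ℤ => ‖g (y + n)‖ₑ ^ 2) (by rw [h]; exact ENNReal.one_ne_top)
  have h2 : ∀ n : ℤ, (‖g (y + n)‖ₑ ^ 2).toReal = ‖g (y + n)‖ ^ 2 := by
    intro n
    rw [ENNReal.toReal_pow, toReal_enorm]
  have h3 : ∑' n : ℤ, (‖g (y + n)‖ₑ ^ 2).toReal = 1 := by
    rw [← ENNReal.tsum_toReal_eq (fun n => by finiteness), h]; simp
  rw [h3] at h1
  simpa only [h2] using h1

end aux7

/-- filters give a good function. -/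
theorem good_of_filter (g m h : ℝ → ℂ) (hgm : Measurable g) (hmm : Measurable m) (hhm : Measurable h)
    (mp : ∀ y, m (y + 1) = m y) (hp : ∀ y, h (y + 1) = h y)
    (h2 : ∀ᵐ y : ℝ, g (2 * y) = m y * g y)
    (hn : ∀ᵐ y : ℝ, ∑' n : ℤ, ‖g (y + n)‖ₑ ^ 2 = 1)
    (hm1 : ∀ᵐ y : ℝ, ‖m y‖ ^ 2 + ‖m (y + 1 / 2)‖ ^ 2 = 1)
    (hh1 : ∀ᵐ y : ℝ, ‖h y‖ ^ 2 + ‖h (y + 1 / 2)‖ ^ 2 = 1)
    (hmh : ∀ᵐ y : ℝ, m y * (starRingEnd ℂ) (h y) + m (y + 1 / 2) * (starRingEnd ℂ) (h (y + 1 / 2)) = 0)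
    (h0 : ∀ᵐ y : ℝ, Tendsto (fun j : ℕ => ‖g (y / 2 ^ j)‖) atTop (𝓝 1)) :
    Good (fun y => h (y / 2) * g (y / 2)) := by
  have hmper := per_int mp
  have hhper := per_int hp
  refine ⟨?_, ?_, ?_⟩
  · -- first
    filter_upwards [ae_aff hn (1 / 2) 0 (by norm_num), ae_aff hn (1 / 2) (1 / 2) (by norm_num),
      ae_aff hh1 (1 / 2) 0 (by norm_num)] with x hx1 hx2 hx3
    have e1 : (1 / 2 : ℝ) * x + 0 = x / 2 := by ring
    have e2 : (1 / 2 : ℝ) * x + 1 / 2 = x / 2 + 1 / 2 := by ring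
    rw [e1] at hx1 hx3
    rw [e2] at hx2
    have hs1 : HasSum (fun k : ℤ => ‖h ((x + ((2 * k : ℤ) : ℝ)) / 2) * g ((x + ((2 * k : ℤ) : ℝ)) / 2)‖ₑ ^ 2)
        (‖h (x / 2)‖ₑ ^ 2 * 1) := by
      rw [← hx1, ← ENNReal.tsum_mul_left]
      have : ∀ k : ℤ, ‖h ((x + ((2 * k : ℤ) : ℝ)) / 2) * g ((x + ((2 * k : ℤ) : ℝ)) / 2)‖ₑ ^ 2 =
          ‖h (x / 2)‖ₑ ^ 2 * ‖g (x / 2 + k)‖ₑ ^ 2 := by
        intro k
        have e3 : (x + ((2 * k : ℤ) : ℝ)) / 2 = x / 2 + k := by push_cast; ring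
        rw [e3, hhper, enorm_mul, mul_pow]
      simp only [this]
      exact ENNReal.summable.hasSum
    have hs2 : HasSum (fun k : ℤ => ‖h ((x + ((2 * k + 1 : ℤ) : ℝ)) / 2) *
        g ((x + ((2 * k + 1 : ℤ) : ℝ)) / 2)‖ₑ ^ 2) (‖h (x / 2 + 1 / 2)‖ₑ ^ 2 * 1) := by
      rw [← hx2, ← ENNReal.tsum_mul_left]
      have : ∀ k : ℤ, ‖h ((x + ((2 * k + 1 : ℤ) : ℝ)) / 2) * g ((x + ((2 * k + 1 : ℤ) : ℝ)) / 2)‖ₑ ^ 2 =
          ‖h (x / 2 + 1 / 2)‖ₑ ^ 2 * ‖g (x / 2 + 1 / 2 + k)‖ₑ ^ 2 := by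
        intro k
        have e3 : (x + ((2 * k + 1 : ℤ) : ℝ)) / 2 = x / 2 + 1 / 2 + k := by push_cast; ring
        rw [e3, hhper, enorm_mul, mul_pow]
      simp only [this]
      exact ENNReal.summable.hasSum
    have := (hasSum_parity (f := fun n : ℤ => ‖h ((x + (n : ℝ)) / 2) * g ((x + (n : ℝ)) / 2)‖ₑ ^ 2) hs1 hs2).tsum_eq
    rw [this, mul_one, mul_one, enorm_sq, enorm_sq, ← ENNReal.ofReal_add (by positivity) (by positivity), hx3]
    simp
  · -- second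
    intro i hi
    obtain ⟨i, rfl⟩ : ∃ l, i = l + 1 := ⟨i - 1, by omega⟩
    have hAll : ∀ᵐ x : ℝ, ∀ (l : ℕ) (n : ℤ), g (2 * ((2:ℝ) ^ l * (x + n))) =
        m ((2:ℝ) ^ l * (x + n)) * g ((2:ℝ) ^ l * (x + n)) := by
      rw [ae_all_iff]; intro l
      rw [ae_all_iff]; intro n
      have := ae_aff h2 ((2:ℝ) ^ l) ((2:ℝ) ^ l * n) (by positivity)
      filter_upwards [this] with x hx
      rw [mul_add]; exact hx
    have hHalf : ∀ᵐ x : ℝ, ∀ n : ℤ, g (2 * ((x + n) / 2)) = m ((x + n) / 2) * g ((x + n) / 2) := by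
      rw [ae_all_iff]; intro n
      have := ae_aff h2 (1 / 2) (n / 2) (by norm_num)
      filter_upwards [this] with x hx
      have e1 : (1 / 2 : ℝ) * x + n / 2 = (x + n) / 2 := by ring
      rw [e1] at hx; exact hx
    filter_upwards [hAll, hHalf, ae_aff hn (1 / 2) 0 (by norm_num),
      ae_aff hn (1 / 2) (1 / 2) (by norm_num), ae_aff hmh (1 / 2) 0 (by norm_num)] with x hx hxh hx1 hx2 hx3
    have e1 : (1 / 2 : ℝ) * x + 0 = x / 2 := by ring
    have e2 : (1 / 2 : ℝ) * x + 1 / 2 = x / 2 + 1 / 2 := by ring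
    rw [e1] at hx1 hx3
    rw [e2] at hx2
    -- iterate the refinement
    have hit : ∀ (l : ℕ) (n : ℤ), g ((2:ℝ) ^ l * (x + n)) =
        (∏ t ∈ Finset.range l, m ((2:ℝ) ^ t * x)) * g (x + n) := by
      intro l n
      induction l with
      | zero => simp
      | succ l ih =>
        have e3 : (2:ℝ) ^ (l + 1) * (x + n) = 2 * ((2:ℝ) ^ l * (x + n)) := by ring
        rw [e3, hx l n, ih, Finset.prod_range_succ]
        have e4 : (2:ℝ) ^ l * (x + n) = (2:ℝ) ^ l * x + ((2 ^ l * n : ℤ) : ℝ) := by push_cast; ring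
        have e5 : m ((2:ℝ) ^ l * (x + n)) = m ((2:ℝ) ^ l * x) := by rw [e4, hmper]
        rw [e5]
        ring
    have hterm : ∀ n : ℤ, (fun y => h (y / 2) * g (y / 2)) ((2:ℝ) ^ (i + 1) * (x + n)) *
        (starRingEnd ℂ) ((fun y => h (y / 2) * g (y / 2)) (x + n)) =
        (h ((2:ℝ) ^ i * x) * ∏ t ∈ Finset.range i, m ((2:ℝ) ^ t * x)) *
          (g (x + n) * (starRingEnd ℂ) (h ((x + n) / 2) * g ((x + n) / 2))) := by
      intro n
      have e3 : (2:ℝ) ^ (i + 1) * (x + n) / 2 = (2:ℝ) ^ i * (x + n) := by ring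
      simp only
      rw [e3, hit i n]
      have e4 : (2:ℝ) ^ i * (x + n) = (2:ℝ) ^ i * x + ((2 ^ i * n : ℤ) : ℝ) := by push_cast; ring
      have e5 : h ((2:ℝ) ^ i * (x + n)) = h ((2:ℝ) ^ i * x) := by rw [e4, hhper]
      rw [e5]
      ring
    rw [tsum_congr hterm, tsum_mul_left]
    have hin : ∀ n : ℤ, g (x + n) * (starRingEnd ℂ) (h ((x + n) / 2) * g ((x + n) / 2)) =
        m ((x + n) / 2) * (starRingEnd ℂ) (h ((x + n) / 2)) * ((‖g ((x + n) / 2)‖ ^ 2 : ℝ) : ℂ) := by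
      intro n
      have e3 : g (x + n) = m ((x + n) / 2) * g ((x + n) / 2) := by
        rw [← hxh n]; congr 1; ring
      rw [e3, map_mul]
      have e4 : g ((x + n) / 2) * (starRingEnd ℂ) (g ((x + n) / 2)) = ((‖g ((x + n) / 2)‖ ^ 2 : ℝ) : ℂ) := by
        rw [Complex.mul_conj, Complex.normSq_eq_norm_sq]
      rw [← e4]; ring
    have hs1 : HasSum (fun k : ℤ => g (x + ((2 * k : ℤ) : ℝ)) * (starRingEnd ℂ)
        (h ((x + ((2 * k : ℤ) : ℝ)) / 2) * g ((x + ((2 * k : ℤ) : ℝ)) / 2)))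
        (m (x / 2) * (starRingEnd ℂ) (h (x / 2)) * ((1 : ℝ) : ℂ)) := by
      have hb : HasSum (fun k : ℤ => ((‖g (x / 2 + k)‖ ^ 2 : ℝ) : ℂ)) ((1 : ℝ) : ℂ) :=
        Complex.hasSum_ofReal.2 (hasSum_of_fib hx1)
      refine (hb.mul_left (m (x / 2) * (starRingEnd ℂ) (h (x / 2)))).congr_fun ?_
      intro k
      rw [hin]
      have e3 : (x + ((2 * k : ℤ) : ℝ)) / 2 = x / 2 + k := by push_cast; ring
      rw [e3, hhper, hmper]
    have hs2 : HasSum (fun k : ℤ => g (x + ((2 * k + 1 : ℤ) : ℝ)) * (starRingEnd ℂ)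
        (h ((x + ((2 * k + 1 : ℤ) : ℝ)) / 2) * g ((x + ((2 * k + 1 : ℤ) : ℝ)) / 2)))
        (m (x / 2 + 1 / 2) * (starRingEnd ℂ) (h (x / 2 + 1 / 2)) * ((1 : ℝ) : ℂ)) := by
      have hb : HasSum (fun k : ℤ => ((‖g (x / 2 + 1 / 2 + k)‖ ^ 2 : ℝ) : ℂ)) ((1 : ℝ) : ℂ) :=
        Complex.hasSum_ofReal.2 (hasSum_of_fib hx2)
      refine (hb.mul_left (m (x / 2 + 1 / 2) * (starRingEnd ℂ) (h (x / 2 + 1 / 2)))).congr_fun ?_
      intro k
      rw [hin]
      have e3 : (x + ((2 * k + 1 : ℤ) : ℝ)) / 2 = x / 2 + 1 / 2 + k := by push_cast; ring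
      rw [e3, hhper, hmper]
    have hfin := (hasSum_parity (f := fun n : ℤ => g (x + n) * (starRingEnd ℂ)
      (h ((x + n) / 2) * g ((x + n) / 2))) hs1 hs2).tsum_eq
    rw [hfin]
    simp only [Complex.ofReal_one, mul_one]
    rw [hx3, mul_zero]
  · -- third
    have hdec := decay g hgm hn
    have hAll : ∀ᵐ x : ℝ, ∀ j : ℤ, g (2 * ((2:ℝ) ^ j * x)) = m ((2:ℝ) ^ j * x) * g ((2:ℝ) ^ j * x) := by
      rw [ae_all_iff]; intro j
      have := ae_aff h2 ((2:ℝ) ^ j) 0 (by positivity)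
      simpa using this
    have hAllm : ∀ᵐ x : ℝ, ∀ j : ℤ, ‖m ((2:ℝ) ^ j * x)‖ ^ 2 + ‖h ((2:ℝ) ^ j * x)‖ ^ 2 = 1 := by
      have hb : ∀ᵐ y : ℝ, ‖m y‖ ^ 2 + ‖h y‖ ^ 2 = 1 := by
        filter_upwards [hm1, hh1, hmh] with y a1 a2 a3
        have a4 : ‖m y‖ * ‖h y‖ = ‖m (y + 1 / 2)‖ * ‖h (y + 1 / 2)‖ := by
          have a5 : m y * (starRingEnd ℂ) (h y) = -(m (y + 1 / 2) * (starRingEnd ℂ) (h (y + 1 / 2))) :=
            eq_neg_of_add_eq_zero_left a3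
          have a6 := congrArg norm a5
          rw [norm_neg, norm_mul, norm_mul, Complex.norm_conj, Complex.norm_conj] at a6
          exact a6
        have a7 : ‖m y‖ ^ 2 * ‖h y‖ ^ 2 = ‖m (y + 1 / 2)‖ ^ 2 * ‖h (y + 1 / 2)‖ ^ 2 := by
          rw [← mul_pow, ← mul_pow, a4]
        have a8 : ‖m (y + 1 / 2)‖ ^ 2 = 1 - ‖m y‖ ^ 2 := by linarith
        have a9 : ‖h (y + 1 / 2)‖ ^ 2 = 1 - ‖h y‖ ^ 2 := by linarith
        rw [a8, a9] at a7
        nlinarith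
      rw [ae_all_iff]; intro j
      have := ae_aff hb ((2:ℝ) ^ j) 0 (by positivity)
      simpa using this
    filter_upwards [hAll, hAllm, hdec, h0] with x hx hxm hxd hx0
    set a : ℤ → ℝ := fun j => ‖g ((2:ℝ) ^ j * x)‖ ^ 2 with ha
    have hstep : ∀ j : ℤ, ‖h ((2:ℝ) ^ j * x / 2) * g ((2:ℝ) ^ j * x / 2)‖ ^ 2 = a (j - 1) - a j := by
      intro j
      have e1 : (2:ℝ) ^ j * x / 2 = (2:ℝ) ^ (j - 1) * x := by
        rw [zpow_sub₀ (by norm_num), zpow_one]; ring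
      have e2 : (2:ℝ) ^ j * x = 2 * ((2:ℝ) ^ (j - 1) * x) := by rw [← e1]; ring
      have e3 := hx (j - 1)
      rw [← e2] at e3
      have e4 := hxm (j - 1)
      simp only [ha]
      rw [e1, e3, norm_mul, norm_mul, mul_pow, mul_pow]
      have e5 : ‖h ((2:ℝ) ^ (j - 1) * x)‖ ^ 2 = 1 - ‖m ((2:ℝ) ^ (j - 1) * x)‖ ^ 2 := by linarith
      rw [e5]; ring
    have hnn : ∀ j : ℤ, 0 ≤ a (j - 1) - a j := by
      intro j; rw [← hstep j]; positivity
    -- limits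
    have hlim0 : Tendsto (fun n : ℕ => a (n : ℤ)) atTop (𝓝 0) := by
      have := hxd.pow 2
      simpa [ha, zpow_natCast] using this
    have hlim1 : Tendsto (fun n : ℕ => a (-(n : ℤ))) atTop (𝓝 1) := by
      have := hx0.pow 2
      rw [one_pow] at this
      refine this.congr (fun n => ?_)
      simp only [ha]
      congr 3
      rw [zpow_neg, zpow_natCast, inv_mul_eq_div]
    have hs1 : HasSum (fun n : ℕ => a ((n : ℤ) - 1) - a (n : ℤ)) (a (-1)) := by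
      rw [hasSum_iff_tendsto_nat_of_nonneg (fun n => hnn n)]
      have e1 : ∀ n : ℕ, ∑ i ∈ Finset.range n, (a ((i : ℤ) - 1) - a (i : ℤ)) = a (-1) - a ((n : ℤ) - 1) := by
        intro n
        have := Finset.sum_range_sub' (fun i : ℕ => a ((i : ℤ) - 1)) n
        simp only [Nat.cast_add, Nat.cast_one, add_sub_cancel_right, Nat.cast_zero, zero_sub] at this
        exact this
      simp only [e1]
      have e2 : Tendsto (fun n : ℕ => a ((n : ℤ) - 1)) atTop (𝓝 0) := by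
        rw [← tendsto_add_atTop_iff_nat 1]
        refine hlim0.congr (fun n => ?_)
        congr 1
        push_cast; ring
      have := (tendsto_const_nhds (x := a (-1))).sub e2
      simpa using this
    have hs2 : HasSum (fun n : ℕ => a (-((n : ℤ) + 1) - 1) - a (-((n : ℤ) + 1))) (1 - a (-1)) := by
      rw [hasSum_iff_tendsto_nat_of_nonneg (fun n => hnn _)]
      have e1 : ∀ n : ℕ, ∑ i ∈ Finset.range n, (a (-((i : ℤ) + 1) - 1) - a (-((i : ℤ) + 1))) =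
          a (-((n : ℤ) + 1)) - a (-1) := by
        intro n
        have := Finset.sum_range_sub (fun i : ℕ => a (-((i : ℤ) + 1))) n
        simp only [Nat.cast_zero, zero_add] at this
        rw [← this]
        apply Finset.sum_congr rfl
        intro i _
        have e9 : (-((i : ℤ) + 1) - 1 : ℤ) = -(((i + 1 : ℕ) : ℤ) + 1) := by push_cast; ring
        rw [e9]
      simp only [e1]
      have e2 : Tendsto (fun n : ℕ => a (-((n : ℤ) + 1))) atTop (𝓝 1) := by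
        have := (tendsto_add_atTop_iff_nat 1).2 hlim1
        refine this.congr (fun n => ?_)
        push_cast; rfl
      exact e2.sub tendsto_const_nhds
    have hs := HasSum.of_nat_of_neg_add_one (f := fun j : ℤ => a (j - 1) - a j) hs1 hs2
    have hs' : HasSum (fun j : ℤ => a (j - 1) - a j) 1 := by
      convert hs using 1; ring
    have hgoal : ∀ j : ℤ, ‖(fun y => h (y / 2) * g (y / 2)) ((2:ℝ) ^ j * x)‖ₑ ^ 2 =
        ENNReal.ofReal (a (j - 1) - a j) := by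
      intro j
      rw [enorm_sq, ← hstep j]
    rw [tsum_congr hgoal, ← ENNReal.ofReal_tsum_of_nonneg hnn hs'.summable, hs'.tsum_eq]
    simp

end Pool.Agent.Helper152.WavFilt
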