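import Pool.Agent.Helper152.WavDefs

set_option autoImplicit false
open MeasureTheory Filter Topology
open scoped ENNReal

namespace Pool.Agent.Helper152.WavMod

open Pool.Agent.Helper152.Wav
open Pool.Agent.Helper152.Lar (w)





/-- truncated products of the filter weight -/
noncomputable def mnPi (P : ℝ → ℝ≥0∞) : ℕ → ℝ → ℝ≥0∞
  | 0 => fun _ => 1
  | (N + 1) => fun y => P (y / 2) * mnPi P N (y / 2)

theorem mnPi_zero (P : ℝ → ℝ≥0∞) (y : ℝ) : mnPi P 0 y = 1 := rfl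

theorem mnPi_succ (P : ℝ → ℝ≥0∞) (N : ℕ) (y : ℝ) :
    mnPi P (N + 1) y = P (y / 2) * mnPi P N (y / 2) := rfl

theorem mnPi_meas {P : ℝ → ℝ≥0∞} (hP : Measurable P) (N : ℕ) : Measurable (mnPi P N) := by
  induction N with
  | zero => exact measurable_const
  | succ N ih =>
    have h2 : Measurable (fun y : ℝ => y / 2) := by fun_prop
    exact (hP.comp h2).mul (ih.comp h2)

/-- dyadic orbits -/
def mnOrb (Q : ℝ → Prop) (x : ℝ) : Prop := ∀ (j : ℕ) (b : ℤ), Q ((x + b) / 2 ^ j)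

theorem mnOrb_self {Q : ℝ → Prop} {x : ℝ} (h : mnOrb Q x) : Q x := by
  have := h 0 0
  simpa using this

theorem mnOrb_add {Q : ℝ → Prop} {x : ℝ} (h : mnOrb Q x) (k : ℤ) : mnOrb Q (x + k) := by
  intro j b
  have h1 := h j (k + b)
  have e : (x + (k : ℝ) + (b : ℝ)) / 2 ^ j = (x + ((k + b : ℤ) : ℝ)) / 2 ^ j := by
    push_cast
    ring
  rw [e]
  exact h1

theorem mnOrb_half {Q : ℝ → Prop} {x : ℝ} (h : mnOrb Q x) : mnOrb Q (x / 2) := by
  intro j b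
  have h1 := h (j + 1) (2 * b)
  have e : (x / 2 + (b : ℝ)) / 2 ^ j = (x + ((2 * b : ℤ) : ℝ)) / 2 ^ (j + 1) := by
    push_cast
    rw [pow_succ]
    field_simp
  rw [e]
  exact h1

theorem mn_ae_affine {P : ℝ → Prop} (h : ∀ᵐ x : ℝ, P x) (a d : ℝ) (ha : a ≠ 0) :
    ∀ᵐ x : ℝ, P (a * x + d) := by
  rw [ae_iff] at h ⊢
  have h1 : volume ((fun x => x + d) ⁻¹' {x | ¬ P x}) = 0 := by
    rw [measure_preimage_add_right]; exact h
  have h2 := Real.volume_preimage_mul_left ha ((fun x => x + d) ⁻¹' {x | ¬ P x})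
  rw [h1, mul_zero] at h2
  exact h2

theorem mn_ae_orb {Q : ℝ → Prop} (h : ∀ᵐ x : ℝ, Q x) : ∀ᵐ x : ℝ, mnOrb Q x := by
  unfold mnOrb
  rw [ae_all_iff]; intro j
  rw [ae_all_iff]; intro b
  have h1 := mn_ae_affine h (1 / 2 ^ j) (b / 2 ^ j) (by positivity)
  filter_upwards [h1] with x hx
  have e : (x + (b : ℝ)) / 2 ^ j = 1 / 2 ^ j * x + (b : ℝ) / 2 ^ j := by ring
  rw [e]
  exact hx

theorem mn_sum_two (M : ℕ) (f : ℕ → ℝ≥0∞) :
    ∑ i ∈ Finset.range (2 * M), f i = ∑ i ∈ Finset.range M, (f (2 * i) + f (2 * i + 1)) := by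
  induction M with
  | zero => simp
  | succ M ih =>
    rw [show 2 * (M + 1) = 2 * M + 1 + 1 by ring, Finset.sum_range_succ, Finset.sum_range_succ,
      Finset.sum_range_succ, ih, add_assoc]

theorem mnPer (P : ℝ → ℝ≥0∞) (hper : ∀ y, P (y + 1) = P y) (y : ℝ) (k : ℕ) : P (y + k) = P y := by
  induction k with
  | zero => simp
  | succ k ih =>
    rw [show y + ((k + 1 : ℕ) : ℝ) = y + k + 1 by push_cast; ring, hper, ih]

theorem mn_res (P : ℝ → ℝ≥0∞) (hper : ∀ y, P (y + 1) = P y) (N : ℕ) :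
    ∀ x, mnOrb (fun y => P y + P (y + 1 / 2) = 1) x →
      ∑ i ∈ Finset.range (2 ^ N), mnPi P N (x + i) = 1 := by
  induction N with
  | zero =>
    intro x _
    simp [mnPi_zero]
  | succ N ih =>
    intro x hx
    rw [pow_succ, mul_comm, mn_sum_two]
    have e1 : ∀ i : ℕ, mnPi P (N + 1) (x + ((2 * i : ℕ) : ℝ)) =
        P (x / 2) * mnPi P N (x / 2 + i) := by
      intro i
      rw [mnPi_succ]
      have : (x + ((2 * i : ℕ) : ℝ)) / 2 = x / 2 + i := by push_cast; ring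
      rw [this, mnPer P hper]
    have e2 : ∀ i : ℕ, mnPi P (N + 1) (x + ((2 * i + 1 : ℕ) : ℝ)) =
        P (x / 2 + 1 / 2) * mnPi P N ((x + ((1 : ℤ) : ℝ)) / 2 + i) := by
      intro i
      rw [mnPi_succ]
      have : (x + ((2 * i + 1 : ℕ) : ℝ)) / 2 = x / 2 + 1 / 2 + i := by push_cast; ring
      rw [this, mnPer P hper]
      have h3 : (x + ((1 : ℤ) : ℝ)) / 2 = x / 2 + 1 / 2 := by push_cast; ring
      rw [h3]
    simp only [e1, e2]
    rw [Finset.sum_add_distrib, ← Finset.mul_sum, ← Finset.mul_sum, ih _ (mnOrb_half hx),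
      ih _ (mnOrb_half (mnOrb_add hx 1)), mul_one, mul_one]
    exact mnOrb_self (mnOrb_half hx)

theorem mn_prod_formula (P h : ℝ → ℝ≥0∞) (N : ℕ) :
    ∀ y, mnOrb (fun y => h (2 * y) = P y * h y) y → h y = mnPi P N y * h (y / 2 ^ N) := by
  induction N with
  | zero => intro y _; simp [mnPi_zero]
  | succ N ih =>
    intro y hy
    have h1 := ih (y / 2) (mnOrb_half hy)
    have h2 := mnOrb_self (mnOrb_half hy)
    have e : 2 * (y / 2) = y := by ring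
    simp only [e] at h2
    rw [h2, mnPi_succ, h1, mul_assoc]
    congr 3
    rw [pow_succ, div_div, mul_comm]

theorem mn_shift (n : ℤ) (f : ℝ → ℝ≥0∞) :
    ∫⁻ x in Set.Ico (n:ℝ) (n+1), f x = ∫⁻ x in Set.Ico (0:ℝ) 1, f (x + n) := by
  have hmp := measurePreserving_add_right volume (n:ℝ)
  have hemb : MeasurableEmbedding (fun x : ℝ => x + n) := measurableEmbedding_addRight (n:ℝ)
  have h := hmp.setLIntegral_comp_preimage_emb hemb f (Set.Ico (n:ℝ) (n+1))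
  rw [← h]
  congr 2
  ext x
  simp only [Set.mem_preimage, Set.mem_Ico]
  constructor <;> rintro ⟨h1, h2⟩ <;> constructor <;> linarith

theorem mn_fold_all (f : ℝ → ℝ≥0∞) :
    ∫⁻ x, f x = ∑' n : ℤ, ∫⁻ x in Set.Ico (0:ℝ) 1, f (x + n) := by
  have h1 : ∫⁻ x, f x = ∫⁻ x in ⋃ n : ℤ, Set.Ico (n:ℝ) (n+1), f x := by
    rw [iUnion_Ico_intCast]; simp
  rw [h1, lintegral_iUnion (fun n => measurableSet_Ico) (Set.pairwise_disjoint_Ico_intCast ℝ)]
  exact tsum_congr fun n => mn_shift n f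

theorem mn_periodic (P : ℝ → Prop) (hP : ∀ (x : ℝ) (m : ℤ), P (x + m) → P x)
    (h : ∀ᵐ x : ℝ, x ∈ Set.Ico (0:ℝ) 1 → P x) : ∀ᵐ x : ℝ, P x := by
  have h1 : ∀ m : ℤ, ∀ᵐ x : ℝ, x + m ∈ Set.Ico (0:ℝ) 1 → P (x + m) := fun m =>
    (measurePreserving_add_right volume (m:ℝ)).quasiMeasurePreserving.ae h
  filter_upwards [ae_all_iff.mpr h1] with x hx
  refine hP x (-⌊x⌋) (hx (-⌊x⌋) ?_)
  push_cast
  constructor
  · linarith [Int.floor_le x]
  · linarith [Int.lt_floor_add_one x]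

theorem mn_fold (f : ℝ → ℝ≥0∞) (hf : Measurable f) (a : ℤ) (M : ℕ) :
    ∫⁻ y in Set.Ico (a : ℝ) (a + M), f y =
      ∫⁻ x in Set.Ico (0:ℝ) 1, ∑ i ∈ Finset.range M, f (x + a + i) := by
  have hm : ∀ i : ℕ, Measurable (fun x : ℝ => f (x + a + i)) := fun i =>
    hf.comp (by fun_prop : Measurable fun x : ℝ => x + a + i)
  induction M with
  | zero => simp
  | succ M ih =>
    have hu : Set.Ico (a : ℝ) (a + ((M + 1 : ℕ) : ℝ)) =
        Set.Ico (a : ℝ) (a + M) ∪ Set.Ico (((a + M : ℤ)) : ℝ) (((a + M : ℤ) : ℝ) + 1) := by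
      push_cast
      rw [Set.Ico_union_Ico_eq_Ico (by
        have : (0:ℝ) ≤ M := Nat.cast_nonneg M
        linarith) (by linarith)]
      rw [add_assoc]
    have hd : Disjoint (Set.Ico (a : ℝ) (a + M))
        (Set.Ico (((a + M : ℤ)) : ℝ) (((a + M : ℤ) : ℝ) + 1)) := by
      rw [Set.disjoint_left]
      intro x hx hx'
      have h1 := hx.2
      have h2 := hx'.1
      push_cast at h2
      linarith
    rw [hu, lintegral_union measurableSet_Ico hd, ih, mn_shift]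
    simp only [Finset.sum_range_succ]
    rw [lintegral_add_right _ (hm M)]
    congr 1
    refine lintegral_congr (fun x => ?_)
    push_cast
    rw [add_assoc]

theorem mn_int (P : ℝ → ℝ≥0∞) (hPm : Measurable P) (hper : ∀ y, P (y + 1) = P y)
    (hQ : ∀ᵐ y : ℝ, P y + P (y + 1 / 2) = 1) (N : ℕ) :
    ∫⁻ y in Set.Ico (-(2:ℝ) ^ N) (2 ^ N), mnPi P (N + 1) y = 1 := by
  have h1 := mn_fold (mnPi P (N + 1)) (mnPi_meas hPm _) (-2 ^ N) (2 ^ (N + 1))
  have e1 : (((-2 ^ N : ℤ)) : ℝ) = -(2:ℝ) ^ N := by push_cast; ring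
  have e2 : (((-2 ^ N : ℤ)) : ℝ) + ((2 ^ (N + 1) : ℕ) : ℝ) = (2:ℝ) ^ N := by
    push_cast
    rw [pow_succ]
    ring
  rw [e2, e1] at h1
  rw [h1]
  have h2 : ∫⁻ x in Set.Ico (0:ℝ) 1, ∑ i ∈ Finset.range (2 ^ (N + 1)),
      mnPi P (N + 1) (x + -(2:ℝ) ^ N + i) = ∫⁻ x in Set.Ico (0:ℝ) 1, 1 := by
    refine lintegral_congr_ae (ae_restrict_of_ae ?_)
    filter_upwards [mn_ae_orb hQ] with x hx
    have h3 := mn_res P hper (N + 1) (x + ((-2 ^ N : ℤ) : ℝ)) (mnOrb_add hx _)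
    rw [e1] at h3
    exact h3
  rw [h2]
  simp

theorem mn_kill (P' : ℝ → ℝ≥0∞) (t : ℝ)
    (hzero : ∀ y : ℝ, (∃ n : ℤ, |y - 1 / 2 - n| < t / 2) → P' y = 0) (N : ℕ) :
    ∀ y : ℝ, (∃ n : ℤ, |y - n| < t / 2) → (¬ ∃ n : ℤ, |y / 2 ^ N - n| < t / 2) →
      mnPi P' N y = 0 := by
  induction N with
  | zero =>
    intro y h1 h2
    rw [pow_zero, div_one] at h2
    exact absurd h1 h2
  | succ N ih =>
    intro y h1 h2
    obtain ⟨n, hn⟩ := h1
    rw [mnPi_succ]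
    rcases Int.even_or_odd' n with ⟨k, hk | hk⟩
    · have h3 : mnPi P' N (y / 2) = 0 := by
        refine ih (y / 2) ⟨k, ?_⟩ ?_
        · have e : y / 2 - k = (y - n) / 2 := by rw [hk]; push_cast; ring
          rw [e, abs_div, abs_two]
          have := abs_nonneg (y - n)
          linarith
        · rw [pow_succ, mul_comm, ← div_div] at h2
          exact h2
      rw [h3, mul_zero]
    · have h3 : P' (y / 2) = 0 := by
        refine hzero _ ⟨k, ?_⟩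
        have e : y / 2 - 1 / 2 - k = (y - n) / 2 := by rw [hk]; push_cast; ring
        rw [e, abs_div, abs_two]
        have := abs_nonneg (y - n)
        linarith
      rw [h3, zero_mul]

theorem mn_le (P P' : ℝ → ℝ≥0∞) (t : ℝ)
    (hzero : ∀ y : ℝ, (∃ n : ℤ, |y - 1 / 2 - n| < t / 2) → P' y = 0)
    (hsame : ∀ y : ℝ, (¬ ∃ n : ℤ, |y - n| < t / 2) → (¬ ∃ n : ℤ, |y - 1 / 2 - n| < t / 2) →
      P' y = P y) (N : ℕ) :
    ∀ y : ℝ, (¬ ∃ n : ℤ, |y / 2 ^ N - n| < t / 2) → mnPi P' N y ≤ mnPi P N y := by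
  induction N with
  | zero => intro y _; exact le_rfl
  | succ N ih =>
    intro y h
    rw [pow_succ, mul_comm, ← div_div] at h
    rw [mnPi_succ, mnPi_succ]
    by_cases h1 : ∃ n : ℤ, |y / 2 - n| < t / 2
    · rw [mn_kill P' t hzero N (y / 2) h1 h, mul_zero]
      exact zero_le
    · by_cases h2 : ∃ n : ℤ, |y / 2 - 1 / 2 - n| < t / 2
      · rw [hzero _ h2, zero_mul]
        exact zero_le
      · rw [hsame _ h1 h2]
        exact mul_le_mul' le_rfl (ih _ h)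

theorem mn_mass (P P' G G' : ℝ → ℝ≥0∞) (hPm : Measurable P) (hPm' : Measurable P')
    (hper : ∀ y, P (y + 1) = P y) (hper' : ∀ y, P' (y + 1) = P' y)
    (hQ : ∀ᵐ y : ℝ, P y + P (y + 1 / 2) = 1) (hQ' : ∀ᵐ y : ℝ, P' y + P' (y + 1 / 2) = 1)
    (hG : ∀ᵐ y : ℝ, G (2 * y) = P y * G y) (hG1 : ∀ᵐ y : ℝ, G y ≤ 1)
    (hG' : ∀ y : ℝ, G' (2 * y) = P' y * G' y)
    (t : ℝ) (ht0 : 0 < t) (ht1 : t ≤ 1 / 2)
    (hG't : ∀ y : ℝ, |y| < t → G' y = 1)
    (hzero : ∀ y : ℝ, (∃ n : ℤ, |y - 1 / 2 - n| < t / 2) → P' y = 0)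
    (hsame : ∀ y : ℝ, (¬ ∃ n : ℤ, |y - n| < t / 2) → (¬ ∃ n : ℤ, |y - 1 / 2 - n| < t / 2) →
      P' y = P y) :
    ∫⁻ y, G y ≤ ∫⁻ y, G' y := by
  -- the sets
  have hAm : ∀ N : ℕ, MeasurableSet {y : ℝ | |y| < 2 ^ N * t} := fun N =>
    measurableSet_lt (by fun_prop) measurable_const
  have hmono : Monotone (fun N : ℕ => {y : ℝ | |y| < 2 ^ N * t}) := by
    intro M N hMN y hy
    have h1 : (2:ℝ) ^ M ≤ 2 ^ N := pow_le_pow_right₀ (by norm_num) hMN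
    have h2 : |y| < 2 ^ M * t := hy
    show |y| < 2 ^ N * t
    nlinarith
  have hU : ⋃ N : ℕ, {y : ℝ | |y| < 2 ^ N * t} = Set.univ := by
    ext y
    simp only [Set.mem_iUnion, Set.mem_ofPred_eq, Set.mem_univ, iff_true]
    obtain ⟨N, hN⟩ := pow_unbounded_of_one_lt (|y| / t) (show (1:ℝ) < 2 by norm_num)
    exact ⟨N, (div_lt_iff₀ ht0).1 hN⟩
  have h1 : ∫⁻ y, G y = ⨆ N : ℕ, ∫⁻ y in {y : ℝ | |y| < 2 ^ N * t}, G y := by
    rw [← setLIntegral_iUnion_of_directed G hmono.directed_le, hU, Measure.restrict_univ]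
  rw [h1]
  refine iSup_le (fun N => ?_)
  have h2 : ∫⁻ y in {y : ℝ | |y| < 2 ^ N * t}, G y ≤ ∫⁻ y in {y : ℝ | |y| < 2 ^ (N + 1) * t}, G y :=
    lintegral_mono_set (hmono (Nat.le_succ N))
  refine h2.trans ?_
  -- now with `N + 1`
  set A : Set ℝ := {y : ℝ | |y| < 2 ^ (N + 1) * t} with hA
  set I : Set ℝ := Set.Ico (-(2:ℝ) ^ N) (2 ^ N) with hI
  have hAI : A ⊆ I := by
    intro y hy
    have h3 : |y| < 2 ^ (N + 1) * t := hy
    have h4 : (2:ℝ) ^ (N + 1) * t ≤ 2 ^ N := by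
      have : (0:ℝ) < 2 ^ N := by positivity
      rw [pow_succ]
      nlinarith
    have h5 := abs_lt.1 (h3.trans_le h4)
    exact ⟨h5.1.le, h5.2⟩
  have hAm' : MeasurableSet A := hAm (N + 1)
  have i1 : ∫⁻ y in I, mnPi P (N + 1) y = 1 := mn_int P hPm hper hQ N
  have i2 : ∫⁻ y in I, mnPi P' (N + 1) y = 1 := mn_int P' hPm' hper' hQ' N
  have r1 : (volume.restrict I).restrict A = volume.restrict A := by
    rw [Measure.restrict_restrict hAm', Set.inter_eq_self_of_subset_left hAI]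
  have s1 := lintegral_add_compl (μ := volume.restrict I) (mnPi P (N + 1)) hAm'
  have s2 := lintegral_add_compl (μ := volume.restrict I) (mnPi P' (N + 1)) hAm'
  rw [i1, r1] at s1
  rw [i2, r1] at s2
  have s3 : ∫⁻ y in A, mnPi P' (N + 1) y = ∫⁻ y in A, G' y := by
    refine setLIntegral_congr_fun hAm' (fun y hy => ?_)
    have h3 : |y| < 2 ^ (N + 1) * t := hy
    have h4 := mn_prod_formula P' G' (N + 1) y (fun j b => hG' _)
    have h5 : G' (y / 2 ^ (N + 1)) = 1 := by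
      refine hG't _ ?_
      rw [abs_div, abs_of_pos (show (0:ℝ) < 2 ^ (N + 1) by positivity), div_lt_iff₀ (by positivity)]
      linarith
    rw [h5, mul_one] at h4
    exact h4.symm
  have s4 : ∫⁻ y in A, G y ≤ ∫⁻ y in A, mnPi P (N + 1) y := by
    refine lintegral_mono_ae (ae_restrict_of_ae ?_)
    filter_upwards [mn_ae_orb hG, mn_ae_orb hG1] with y hy hy1
    have h4 := mn_prod_formula P G (N + 1) y hy
    have h5 : G (y / 2 ^ (N + 1)) ≤ 1 := by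
      have := hy1 (N + 1) 0
      simpa using this
    rw [h4]
    exact mul_le_of_le_one_right' h5
  have s5 : ∫⁻ y in Aᶜ, mnPi P' (N + 1) y ∂(volume.restrict I) ≤
      ∫⁻ y in Aᶜ, mnPi P (N + 1) y ∂(volume.restrict I) := by
    rw [Measure.restrict_restrict hAm'.compl]
    refine setLIntegral_mono' (hAm'.compl.inter measurableSet_Ico) ?_
    intro y hy
    refine mn_le P P' t hzero hsame (N + 1) y ?_
    rintro ⟨n, hn⟩
    have h3 : 2 ^ (N + 1) * t ≤ |y| := by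
      have := hy.1
      rw [hA, Set.mem_compl_iff, Set.mem_ofPred_eq, not_lt] at this
      exact this
    have h4 : |y| ≤ 2 ^ N := abs_le.2 ⟨hy.2.1, hy.2.2.le⟩
    have hp : (0:ℝ) < 2 ^ (N + 1) := by positivity
    have h5 : t ≤ |y / 2 ^ (N + 1)| := by
      rw [abs_div, abs_of_pos hp, le_div_iff₀ hp]
      linarith
    have h6 : |y / 2 ^ (N + 1)| ≤ 1 / 2 := by
      rw [abs_div, abs_of_pos hp, div_le_iff₀ hp, pow_succ]
      linarith
    rcases eq_or_ne n 0 with h | h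
    · rw [h, Int.cast_zero, sub_zero] at hn
      linarith
    · have h7 : (1:ℝ) ≤ |(n:ℝ)| := by
        have : (1:ℤ) ≤ |n| := Int.one_le_abs h
        exact_mod_cast this
      have h8 : |(n:ℝ)| ≤ |y / 2 ^ (N + 1)| + |y / 2 ^ (N + 1) - n| := by
        have e : (n:ℝ) = y / 2 ^ (N + 1) - (y / 2 ^ (N + 1) - n) := by ring
        calc |(n:ℝ)| = |y / 2 ^ (N + 1) - (y / 2 ^ (N + 1) - n)| := by rw [← e]
          _ ≤ _ := abs_sub _ _
      linarith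
  have s6 : ∫⁻ y in Aᶜ, mnPi P' (N + 1) y ∂(volume.restrict I) ≠ ∞ := by
    intro h
    rw [h] at s2
    simp at s2
  have s7 : (∫⁻ y in A, G y) + ∫⁻ y in Aᶜ, mnPi P' (N + 1) y ∂(volume.restrict I) ≤
      (∫⁻ y in A, G' y) + ∫⁻ y in Aᶜ, mnPi P' (N + 1) y ∂(volume.restrict I) := by
    rw [← s3, s2, ← s1]
    exact add_le_add s4 s5
  exact ((ENNReal.add_le_add_iff_right s6).1 s7).trans (setLIntegral_le_lintegral _ _)

theorem mn_upper (P' G' : ℝ → ℝ≥0∞)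
    (hper' : ∀ y, P' (y + 1) = P' y)
    (hG' : ∀ y : ℝ, G' (2 * y) = P' y * G' y)
    (t : ℝ) (ht0 : 0 < t) (ht1 : t ≤ 1 / 2)
    (hG't : ∀ y : ℝ, |y| < t → G' y = 1) (x : ℝ)
    (hx : mnOrb (fun y => P' y + P' (y + 1 / 2) = 1) x) :
    ∑' n : ℤ, G' (x + n) ≤ 1 := by
  rw [ENNReal.tsum_eq_iSup_sum]
  refine iSup_le (fun F => ?_)
  obtain ⟨N, hN⟩ : ∃ N : ℕ, ∀ n ∈ F, |x + n| < 2 ^ (N + 1) * t := by
    obtain ⟨N, hN⟩ := pow_unbounded_of_one_lt ((∑ n ∈ F, |x + n|) / t) (show (1:ℝ) < 2 by norm_num)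
    refine ⟨N, fun n hn => ?_⟩
    have h1 : |x + n| ≤ ∑ n ∈ F, |x + n| := Finset.single_le_sum (f := fun n : ℤ => |x + n|)
      (fun _ _ => abs_nonneg _) hn
    have h2 := (div_lt_iff₀ ht0).1 hN
    have h3 : (2:ℝ) ^ N * t ≤ 2 ^ (N + 1) * t := by
      rw [pow_succ]
      have : (0:ℝ) < 2 ^ N * t := by positivity
      linarith
    linarith
  have h1 : ∀ n ∈ F, G' (x + n) = mnPi P' (N + 1) (x + n) := by
    intro n hn
    have h4 := mn_prod_formula P' G' (N + 1) (x + n) (fun j b => hG' _)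
    have h5 : G' ((x + n) / 2 ^ (N + 1)) = 1 := by
      refine hG't _ ?_
      rw [abs_div, abs_of_pos (show (0:ℝ) < 2 ^ (N + 1) by positivity), div_lt_iff₀ (by positivity)]
      have := hN n hn
      linarith
    rw [h5, mul_one] at h4
    exact h4
  rw [Finset.sum_congr rfl h1]
  set a : ℤ := ⌈-x - 2 ^ N⌉ with ha
  have h2 := mn_res P' hper' (N + 1) (x + a) (mnOrb_add hx a)
  rw [← h2]
  have hsub : F ⊆ (Finset.range (2 ^ (N + 1))).image (fun i : ℕ => a + (i : ℤ)) := by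
    intro n hn
    have h3 := hN n hn
    have h4 : (2:ℝ) ^ (N + 1) * t ≤ 2 ^ N := by
      have : (0:ℝ) < 2 ^ N := by positivity
      rw [pow_succ]
      nlinarith
    have h5 := abs_lt.1 (h3.trans_le h4)
    have h6 : a ≤ n := by
      rw [ha, Int.ceil_le]
      linarith [h5.1]
    have h7 : n < a + 2 ^ (N + 1) := by
      have h8 := Int.le_ceil (-x - 2 ^ N)
      rw [← ha] at h8
      have h9 : (n:ℝ) < ((a + 2 ^ (N + 1) : ℤ) : ℝ) := by
        push_cast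
        rw [pow_succ]
        linarith [h5.2]
      exact_mod_cast h9
    rw [Finset.mem_image]
    refine ⟨(n - a).toNat, ?_, ?_⟩
    · rw [Finset.mem_range]
      have h10 : ((n - a).toNat : ℤ) < ((2 ^ (N + 1) : ℕ) : ℤ) := by
        rw [Int.toNat_of_nonneg (by omega)]
        push_cast
        linarith
      exact_mod_cast h10
    · rw [Int.toNat_of_nonneg (by omega)]
      ring
  have h3 := Finset.sum_le_sum_of_subset (f := fun n : ℤ => mnPi P' (N + 1) (x + n)) hsub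
  refine h3.trans (le_of_eq ?_)
  rw [Finset.sum_image (fun i _ j _ hij => by simpa using hij)]
  refine Finset.sum_congr rfl (fun i _ => ?_)
  congr 1
  push_cast
  ring

/-- no escape of mass for the modified low pass filter. -/
theorem mod_norm (g m g' m' : ℝ → ℂ) (hgm : Measurable g) (hmm : Measurable m)
    (hgm' : Measurable g') (hmm' : Measurable m')
    (mp : ∀ y, m (y + 1) = m y) (mp' : ∀ y, m' (y + 1) = m' y)
    (h2 : ∀ᵐ y : ℝ, g (2 * y) = m y * g y)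
    (hn : ∀ᵐ y : ℝ, ∑' n : ℤ, ‖g (y + n)‖ₑ ^ 2 = 1)
    (hm1 : ∀ᵐ y : ℝ, ‖m y‖ ^ 2 + ‖m (y + 1 / 2)‖ ^ 2 = 1)
    (hm1' : ∀ᵐ y : ℝ, ‖m' y‖ ^ 2 + ‖m' (y + 1 / 2)‖ ^ 2 = 1)
    (t : ℝ) (ht0 : 0 < t) (ht1 : t ≤ 1 / 2)
    (hone : ∀ y : ℝ, (∃ n : ℤ, |y - n| < t / 2) → m' y = 1)
    (hzero : ∀ y : ℝ, (∃ n : ℤ, |y - 1 / 2 - n| < t / 2) → m' y = 0)
    (hsame : ∀ y : ℝ, (¬ ∃ n : ℤ, |y - n| < t / 2) → (¬ ∃ n : ℤ, |y - 1 / 2 - n| < t / 2) →
      m' y = m y)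
    (hg'1 : ∀ y : ℝ, |y| < t → g' y = 1)
    (hg'2 : ∀ y : ℝ, g' (2 * y) = m' y * g' y) :
    ∀ᵐ y : ℝ, ∑' n : ℤ, ‖g' (y + n)‖ₑ ^ 2 = 1 := by
  have conv1 : ∀ (a b : ℂ), ‖a‖ ^ 2 + ‖b‖ ^ 2 = 1 → ‖a‖ₑ ^ 2 + ‖b‖ₑ ^ 2 = 1 := by
    intro a b h
    have e : ∀ z : ℂ, ‖z‖ₑ ^ 2 = ENNReal.ofReal (‖z‖ ^ 2) := by
      intro z
      rw [ENNReal.ofReal_pow (norm_nonneg _), ofReal_norm]
    rw [e, e, ← ENNReal.ofReal_add (by positivity) (by positivity), h, ENNReal.ofReal_one]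
  have hQ : ∀ᵐ y : ℝ, ‖m y‖ₑ ^ 2 + ‖m (y + 1 / 2)‖ₑ ^ 2 = 1 := by
    filter_upwards [hm1] with y hy using conv1 _ _ hy
  have hQ' : ∀ᵐ y : ℝ, ‖m' y‖ₑ ^ 2 + ‖m' (y + 1 / 2)‖ₑ ^ 2 = 1 := by
    filter_upwards [hm1'] with y hy using conv1 _ _ hy
  have hPm : Measurable (fun y => ‖m y‖ₑ ^ 2) := by fun_prop
  have hPm' : Measurable (fun y => ‖m' y‖ₑ ^ 2) := by fun_prop
  have hGm' : Measurable (fun y => ‖g' y‖ₑ ^ 2) := by fun_prop
  have hGm : Measurable (fun y => ‖g y‖ₑ ^ 2) := by fun_prop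
  have hG' : ∀ y : ℝ, ‖g' (2 * y)‖ₑ ^ 2 = ‖m' y‖ₑ ^ 2 * ‖g' y‖ₑ ^ 2 := by
    intro y
    rw [hg'2, enorm_mul, mul_pow]
  have hG't : ∀ y : ℝ, |y| < t → ‖g' y‖ₑ ^ 2 = 1 := by
    intro y hy
    rw [hg'1 y hy]
    simp
  have hmass := mn_mass (fun y => ‖m y‖ₑ ^ 2) (fun y => ‖m' y‖ₑ ^ 2) (fun y => ‖g y‖ₑ ^ 2)
    (fun y => ‖g' y‖ₑ ^ 2) hPm hPm' (fun y => by simp only [mp]) (fun y => by simp only [mp'])
    hQ hQ'
    (by
      filter_upwards [h2] with y hy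
      rw [hy, enorm_mul, mul_pow])
    (by
      filter_upwards [hn] with y hy
      have h1 := ENNReal.le_tsum (f := fun n : ℤ => ‖g (y + n)‖ₑ ^ 2) 0
      rw [hy] at h1
      simpa using h1)
    hG' t ht0 ht1 hG't
    (fun y hy => by rw [hzero y hy]; simp)
    (fun y hy1 hy2 => by simp only [hsame y hy1 hy2])
  have hgint : ∫⁻ y, ‖g y‖ₑ ^ 2 = 1 := by
    rw [mn_fold_all (fun y => ‖g y‖ₑ ^ 2), ← lintegral_tsum (fun n => by
      exact (hGm.comp (by fun_prop : Measurable fun x : ℝ => x + n)).aemeasurable)]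
    rw [lintegral_congr_ae (ae_restrict_of_ae hn)]
    simp
  rw [hgint, mn_fold_all (fun y => ‖g' y‖ₑ ^ 2), ← lintegral_tsum (fun n => by
      exact (hGm'.comp (by fun_prop : Measurable fun x : ℝ => x + n)).aemeasurable)] at hmass
  have hle : ∀ᵐ x : ℝ, ∑' n : ℤ, ‖g' (x + n)‖ₑ ^ 2 ≤ 1 := by
    filter_upwards [mn_ae_orb hQ'] with x hx
    exact mn_upper (fun y => ‖m' y‖ₑ ^ 2) (fun y => ‖g' y‖ₑ ^ 2) (fun y => by simp only [mp'])
      hG' t ht0 ht1 hG't x hx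
  have hae : (fun x : ℝ => ∑' n : ℤ, ‖g' (x + n)‖ₑ ^ 2) =ᵐ[volume.restrict (Set.Ico (0:ℝ) 1)]
      fun _ => 1 := by
    refine ae_eq_of_ae_le_of_lintegral_le (ae_restrict_of_ae hle) ?_ aemeasurable_const ?_
    · refine ne_top_of_le_ne_top ?_ (lintegral_mono_ae (ae_restrict_of_ae hle))
      simp
    · refine le_trans (le_of_eq ?_) hmass
      simp
  refine mn_periodic (fun x => ∑' n : ℤ, ‖g' (x + n)‖ₑ ^ 2 = 1) ?_ ?_
  · intro x k h
    rw [← h, ← (Equiv.addLeft k).tsum_eq]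
    refine tsum_congr (fun n => ?_)
    simp only [Equiv.coe_addLeft]
    push_cast
    rw [add_assoc]
  · exact (ae_restrict_iff' measurableSet_Ico).1 hae

end Pool.Agent.Helper152.WavMod
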