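import Pool.Agent.Helper152.WavDefs
import Pool.Agent.Helper152.WavFilt
import Pool.Agent.Helper152.WavMod

set_option autoImplicit false
open MeasureTheory Filter Topology
open scoped ENNReal

namespace Pool.Agent.Helper152.WavMra

open Pool.Agent.Helper152.Wav
open Pool.Agent.Helper152.Lar (w)
open Pool.Agent.Helper152.WavFilt (good_of_filter)
open Pool.Agent.Helper152.WavMod (mod_norm)




/-- near the integers -/
def zI (t y : ℝ) : Prop := ∃ n : ℤ, |y - n| < t / 2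

/-- near the half integers -/
def zH (t y : ℝ) : Prop := ∃ n : ℤ, |y - 1 / 2 - n| < t / 2

theorem zI_iff (t y : ℝ) : zI t y ↔ |y - round y| < t / 2 :=
  ⟨fun ⟨n, hn⟩ => (round_le y n).trans_lt hn, fun h => ⟨round y, h⟩⟩

theorem zH_iff (t y : ℝ) : zH t y ↔ |y - 1 / 2 - round (y - 1 / 2)| < t / 2 :=
  ⟨fun ⟨n, hn⟩ => (round_le (y - 1 / 2) n).trans_lt hn, fun h => ⟨round (y - 1 / 2), h⟩⟩

theorem zIH_disj {t : ℝ} (ht : t ≤ 1 / 2) (y : ℝ) (h1 : zI t y) (h2 : zH t y) : False := by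
  obtain ⟨n, hn⟩ := h1
  obtain ⟨k, hk⟩ := h2
  rw [abs_lt] at hn hk
  have h3 : ((0 : ℤ) : ℝ) < ((n - k : ℤ) : ℝ) := by push_cast; linarith
  have h4 : ((n - k : ℤ) : ℝ) < ((1 : ℤ) : ℝ) := by push_cast; linarith
  rw [Int.cast_lt] at h3 h4
  omega

theorem zI_add_one (t y : ℝ) : zI t (y + 1) ↔ zI t y := by
  constructor
  · rintro ⟨n, hn⟩
    refine ⟨n - 1, ?_⟩
    have : y - ((n - 1 : ℤ) : ℝ) = y + 1 - n := by push_cast; ring
    rw [this]; exact hn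
  · rintro ⟨n, hn⟩
    refine ⟨n + 1, ?_⟩
    have : y + 1 - ((n + 1 : ℤ) : ℝ) = y - n := by push_cast; ring
    rw [this]; exact hn

theorem zH_add_one (t y : ℝ) : zH t (y + 1) ↔ zH t y := by
  constructor
  · rintro ⟨n, hn⟩
    refine ⟨n - 1, ?_⟩
    have : y - 1 / 2 - ((n - 1 : ℤ) : ℝ) = y + 1 - 1 / 2 - n := by push_cast; ring
    rw [this]; exact hn
  · rintro ⟨n, hn⟩
    refine ⟨n + 1, ?_⟩
    have : y + 1 - 1 / 2 - ((n + 1 : ℤ) : ℝ) = y - 1 / 2 - n := by push_cast; ring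
    rw [this]; exact hn

theorem zI_add_half (t y : ℝ) : zI t (y + 1 / 2) ↔ zH t y := by
  constructor
  · rintro ⟨n, hn⟩
    refine ⟨n - 1, ?_⟩
    have : y - 1 / 2 - ((n - 1 : ℤ) : ℝ) = y + 1 / 2 - n := by push_cast; ring
    rw [this]; exact hn
  · rintro ⟨n, hn⟩
    refine ⟨n + 1, ?_⟩
    have : y + 1 / 2 - ((n + 1 : ℤ) : ℝ) = y - 1 / 2 - n := by push_cast; ring
    rw [this]; exact hn

theorem zH_add_half (t y : ℝ) : zH t (y + 1 / 2) ↔ zI t y := by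
  constructor
  · rintro ⟨n, hn⟩
    refine ⟨n, ?_⟩
    have : y - (n : ℝ) = y + 1 / 2 - 1 / 2 - n := by ring
    rw [this]; exact hn
  · rintro ⟨n, hn⟩
    refine ⟨n, ?_⟩
    have : y + 1 / 2 - 1 / 2 - (n : ℝ) = y - n := by ring
    rw [this]; exact hn

open Classical in
/-- the modified function: value `a` near the integers, `b` near the half integers -/
noncomputable def md (a b : ℂ) (m : ℝ → ℂ) (t y : ℝ) : ℂ :=
  if zI t y then a else if zH t y then b else m y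

theorem md_I {a b : ℂ} {m : ℝ → ℂ} {t y : ℝ} (h : zI t y) : md a b m t y = a := if_pos h

theorem md_H {a b : ℂ} {m : ℝ → ℂ} {t y : ℝ} (ht : t ≤ 1 / 2) (h : zH t y) :
    md a b m t y = b := by
  unfold md
  rw [if_neg (fun h' => zIH_disj ht y h' h), if_pos h]

theorem md_N {a b : ℂ} {m : ℝ → ℂ} {t y : ℝ} (h : ¬ zI t y) (h' : ¬ zH t y) :
    md a b m t y = m y := by
  unfold md
  rw [if_neg h, if_neg h']

theorem meas_zI (t : ℝ) : MeasurableSet {y | zI t y} := by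
  have : {y | zI t y} = ⋃ n : ℤ, {y : ℝ | |y - n| < t / 2} := by
    ext y; simp [zI]
  rw [this]
  refine MeasurableSet.iUnion fun n => ?_
  exact measurableSet_lt (by fun_prop) measurable_const

theorem meas_zH (t : ℝ) : MeasurableSet {y | zH t y} := by
  have : {y | zH t y} = ⋃ n : ℤ, {y : ℝ | |y - 1 / 2 - n| < t / 2} := by
    ext y; simp [zH]
  rw [this]
  refine MeasurableSet.iUnion fun n => ?_
  exact measurableSet_lt (by fun_prop) measurable_const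

theorem meas_md (a b : ℂ) {m : ℝ → ℂ} (hm : Measurable m) (t : ℝ) : Measurable (md a b m t) :=
  Measurable.ite (meas_zI t) measurable_const (Measurable.ite (meas_zH t) measurable_const hm)

theorem md_per (a b : ℂ) {m : ℝ → ℂ} (mp : ∀ y, m (y + 1) = m y) (t y : ℝ) :
    md a b m t (y + 1) = md a b m t y := by
  unfold md
  have e1 := zI_add_one t y
  have e2 := zH_add_one t y
  by_cases h1 : zI t y
  · rw [if_pos (e1.2 h1), if_pos h1]
  · rw [if_neg (fun h => h1 (e1.1 h)), if_neg h1]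
    by_cases h2 : zH t y
    · rw [if_pos (e2.2 h2), if_pos h2]
    · rw [if_neg (fun h => h2 (e2.1 h)), if_neg h2, mp]

/-- trichotomy for `y` and `y + 1/2` -/
theorem md_cases (t y : ℝ) :
    (zI t y ∧ zH t (y + 1 / 2)) ∨ (zH t y ∧ zI t (y + 1 / 2)) ∨
      (¬ zI t y ∧ ¬ zH t y ∧ ¬ zI t (y + 1 / 2) ∧ ¬ zH t (y + 1 / 2)) := by
  rw [zI_add_half, zH_add_half]
  tauto

/-- truncated products -/
noncomputable def PPm (m : ℝ → ℂ) (t : ℝ) (N : ℕ) (y : ℝ) : ℂ :=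
  ∏ j ∈ Finset.range N, md 1 0 m t (y / 2 ^ (j + 1))

/-- the modified scaling function -/
noncomputable def gt (m : ℝ → ℂ) (t y : ℝ) : ℂ := PPm m t ⌈|y| / t⌉₊ y

theorem PP_stable (m : ℝ → ℂ) {t : ℝ} {y : ℝ} {N N' : ℕ} (h : |y| < t * 2 ^ N)
    (hN : N ≤ N') : PPm m t N' y = PPm m t N y := by
  induction N', hN using Nat.le_induction with
  | base => rfl
  | succ K hK ih =>
    have h1 : md 1 0 m t (y / 2 ^ (K + 1)) = 1 := by
      apply md_I
      refine ⟨0, ?_⟩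
      have hp : (0 : ℝ) < 2 ^ (K + 1) := by positivity
      rw [Int.cast_zero, sub_zero, abs_div, abs_of_pos hp, div_lt_iff₀ hp]
      have h2 : (2 : ℝ) ^ N ≤ 2 ^ K := pow_le_pow_right₀ (by norm_num) hK
      have ht : 0 < t := by
        by_contra hcon
        push Not at hcon
        have h3 : t * 2 ^ N ≤ 0 := mul_nonpos_of_nonpos_of_nonneg hcon (by positivity)
        linarith [abs_nonneg y]
      have h3 : t * 2 ^ N ≤ t * 2 ^ K := mul_le_mul_of_nonneg_left h2 ht.le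
      have h4 : t / 2 * 2 ^ (K + 1) = t * 2 ^ K := by rw [pow_succ]; ring
      rw [h4]; linarith
    rw [← ih]
    unfold PPm
    rw [Finset.prod_range_succ, h1, mul_one]

theorem ceil_ok {t : ℝ} (ht : 0 < t) (y : ℝ) : |y| < t * 2 ^ ⌈|y| / t⌉₊ := by
  have h1 : |y| / t ≤ ⌈|y| / t⌉₊ := Nat.le_ceil _
  have h2 : ((⌈|y| / t⌉₊ : ℕ) : ℝ) < 2 ^ ⌈|y| / t⌉₊ := by exact_mod_cast Nat.lt_two_pow_self
  have h3 : |y| / t < 2 ^ ⌈|y| / t⌉₊ := h1.trans_lt h2
  rw [div_lt_iff₀ ht] at h3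
  linarith

theorem gt_eq (m : ℝ → ℂ) {t : ℝ} (ht : 0 < t) {y : ℝ} {N : ℕ} (h : |y| < t * 2 ^ N) :
    gt m t y = PPm m t N y := by
  unfold gt
  rcases le_total N ⌈|y| / t⌉₊ with h1 | h1
  · exact PP_stable m h h1
  · exact (PP_stable m (ceil_ok ht y) h1).symm

theorem gt_one (m : ℝ → ℂ) {t : ℝ} (ht : 0 < t) {y : ℝ} (h : |y| < t) : gt m t y = 1 := by
  rw [gt_eq m ht (N := 0) (by simpa using h)]
  simp [PPm]

theorem gt_two (m : ℝ → ℂ) {t : ℝ} (ht : 0 < t) (y : ℝ) :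
    gt m t (2 * y) = md 1 0 m t y * gt m t y := by
  have h1 := ceil_ok ht y
  generalize ⌈|y| / t⌉₊ = N at h1
  have h2 : |2 * y| < t * 2 ^ (N + 1) := by
    rw [abs_mul, abs_of_pos (by norm_num : (0 : ℝ) < 2), pow_succ]
    linarith
  rw [gt_eq m ht h2, gt_eq m ht h1]
  unfold PPm
  rw [Finset.prod_range_succ', mul_comm]
  congr 1
  · congr 1
    ring
  · refine Finset.prod_congr rfl fun j _ => ?_
    congr 1
    rw [pow_succ 2 (j + 1)]
    field_simp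

theorem meas_PPm {m : ℝ → ℂ} (hm : Measurable m) (t : ℝ) (N : ℕ) : Measurable (PPm m t N) := by
  unfold PPm
  refine Finset.measurable_prod _ fun j _ => ?_
  exact (meas_md 1 0 hm t).comp (measurable_id.div_const _)

theorem meas_gt {m : ℝ → ℂ} (hm : Measurable m) {t : ℝ} (ht : 0 < t) : Measurable (gt m t) := by
  refine measurable_of_tendsto_metrizable (f := fun N => PPm m t N) (fun N => meas_PPm hm t N) ?_
  rw [tendsto_pi_nhds]
  intro y
  refine tendsto_const_nhds.congr' ?_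
  filter_upwards [eventually_ge_atTop ⌈|y| / t⌉₊] with N hN
  exact (PP_stable m (ceil_ok ht y) hN).symm

section path

variable {g m h : ℝ → ℂ} (hgm : Measurable g) (hmm : Measurable m) (hhm : Measurable h)
    (mp : ∀ y, m (y + 1) = m y) (hp : ∀ y, h (y + 1) = h y)
    (h2 : ∀ᵐ y : ℝ, g (2 * y) = m y * g y)
    (hn : ∀ᵐ y : ℝ, ∑' n : ℤ, ‖g (y + n)‖ₑ ^ 2 = 1)
    (hm1 : ∀ᵐ y : ℝ, ‖m y‖ ^ 2 + ‖m (y + 1 / 2)‖ ^ 2 = 1)
    (hh1 : ∀ᵐ y : ℝ, ‖h y‖ ^ 2 + ‖h (y + 1 / 2)‖ ^ 2 = 1)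
    (hmh : ∀ᵐ y : ℝ, m y * (starRingEnd ℂ) (h y) +
      m (y + 1 / 2) * (starRingEnd ℂ) (h (y + 1 / 2)) = 0)

include hgm hmm hhm mp hp h2 hn hm1 hh1 hmh in
theorem good_t {t : ℝ} (ht0 : 0 < t) (ht1 : t ≤ 1 / 2) :
    Good (fun y => md 0 1 h t (y / 2) * gt m t (y / 2)) := by
  have hm1' : ∀ᵐ y : ℝ, ‖md 1 0 m t y‖ ^ 2 + ‖md 1 0 m t (y + 1 / 2)‖ ^ 2 = 1 := by
    filter_upwards [hm1] with y hy
    rcases md_cases t y with ⟨a, b⟩ | ⟨a, b⟩ | ⟨a, b, c, d⟩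
    · rw [md_I a, md_H ht1 b]; simp
    · rw [md_H ht1 a, md_I b]; simp
    · rw [md_N a b, md_N c d]; exact hy
  have hh1' : ∀ᵐ y : ℝ, ‖md 0 1 h t y‖ ^ 2 + ‖md 0 1 h t (y + 1 / 2)‖ ^ 2 = 1 := by
    filter_upwards [hh1] with y hy
    rcases md_cases t y with ⟨a, b⟩ | ⟨a, b⟩ | ⟨a, b, c, d⟩
    · rw [md_I a, md_H ht1 b]; simp
    · rw [md_H ht1 a, md_I b]; simp
    · rw [md_N a b, md_N c d]; exact hy
  have hmh' : ∀ᵐ y : ℝ, md 1 0 m t y * (starRingEnd ℂ) (md 0 1 h t y) +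
      md 1 0 m t (y + 1 / 2) * (starRingEnd ℂ) (md 0 1 h t (y + 1 / 2)) = 0 := by
    filter_upwards [hmh] with y hy
    rcases md_cases t y with ⟨a, b⟩ | ⟨a, b⟩ | ⟨a, b, c, d⟩
    · rw [md_I a, md_I a, md_H ht1 b, md_H ht1 b]; simp
    · rw [md_H ht1 a, md_H ht1 a, md_I b, md_I b]; simp
    · rw [md_N a b, md_N a b, md_N c d, md_N c d]; exact hy
  have hn' := mod_norm g m (gt m t) (md 1 0 m t) hgm hmm (meas_gt hmm ht0) (meas_md 1 0 hmm t)
    mp (md_per 1 0 mp t) h2 hn hm1 hm1' t ht0 ht1 (fun y hy => md_I hy) (fun y hy => md_H ht1 hy)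
    (fun y hy hy' => md_N hy hy') (fun y hy => gt_one m ht0 hy) (fun y => gt_two m ht0 y)
  refine good_of_filter (gt m t) (md 1 0 m t) (md 0 1 h t) (meas_gt hmm ht0) (meas_md 1 0 hmm t)
    (meas_md 0 1 hhm t) (md_per 1 0 mp t) (md_per 0 1 hp t)
    (Eventually.of_forall fun y => gt_two m ht0 y) hn' hm1' hh1' hmh' ?_
  refine Eventually.of_forall fun y => ?_
  refine tendsto_const_nhds.congr' ?_
  have h3 := ceil_ok ht0 y
  filter_upwards [eventually_ge_atTop ⌈|y| / t⌉₊] with N hN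
  rw [gt_one m ht0, norm_one]
  have hpN : (0 : ℝ) < 2 ^ N := by positivity
  rw [abs_div, abs_of_pos hpN, div_lt_iff₀ hpN]
  have h4 : (2 : ℝ) ^ ⌈|y| / t⌉₊ ≤ 2 ^ N := pow_le_pow_right₀ (by norm_num) hN
  have h5 : t * 2 ^ ⌈|y| / t⌉₊ ≤ t * 2 ^ N := mul_le_mul_of_nonneg_left h4 ht0.le
  linarith

end path

/-! ### almost everywhere on orbits -/

theorem ae_scale {P : ℝ → Prop} (h : ∀ᵐ y : ℝ, P y) {c : ℝ} (hc : c ≠ 0) :
    ∀ᵐ y : ℝ, P (c * y) := by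
  rw [ae_iff] at h ⊢
  have h1 := Real.volume_preimage_mul_left hc {y | ¬ P y}
  rw [h, mul_zero] at h1
  exact h1

theorem ae_orb {P : ℝ → Prop} (h : ∀ᵐ y : ℝ, P y) : ∀ᵐ y : ℝ, ∀ j : ℕ, P (y / 2 / 2 ^ j) := by
  rw [ae_all_iff]
  intro j
  have h1 := ae_scale h (c := 1 / 2 / 2 ^ j) (by positivity)
  filter_upwards [h1] with y hy
  have : y / 2 / 2 ^ j = 1 / 2 / 2 ^ j * y := by ring
  rw [this]; exact hy

theorem ae_ne (c a : ℝ) : ∀ᵐ y : ℝ, |y - c| ≠ a := by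
  have h1 : ({c + a, c - a} : Set ℝ).Countable := (Set.toFinite _).countable
  filter_upwards [h1.ae_notMem volume] with y hy h
  apply hy
  rw [Set.mem_insert_iff, Set.mem_singleton_iff]
  rcases abs_choice (y - c) with h2 | h2
  · left; rw [h2] at h; linarith
  · right; rw [h2] at h; linarith

theorem ae_grid (a : ℝ) : ∀ᵐ w : ℝ, ∀ n : ℤ, |w - n| ≠ a ∧ |w - 1 / 2 - n| ≠ a := by
  rw [ae_all_iff]
  intro n
  filter_upwards [ae_ne n a, ae_ne (1 / 2 + n) a] with w h1 h2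
  refine ⟨h1, ?_⟩
  have : w - 1 / 2 - (n : ℝ) = w - (1 / 2 + n) := by ring
  rw [this]; exact h2

/-! ### the end point -/

theorem zH_of {w : ℝ} (h1 : 1 / 4 < |w|) (h2 : |w| < 1 / 2) : zH (1 / 2) w := by
  rcases le_or_gt 0 w with h | h
  · rw [abs_of_nonneg h] at h1 h2
    refine ⟨0, ?_⟩
    rw [Int.cast_zero, abs_lt]
    constructor <;> linarith
  · rw [abs_of_neg h] at h1 h2
    refine ⟨-1, ?_⟩
    rw [abs_lt]
    push_cast
    constructor <;> linarith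

theorem end_pt (m h : ℝ → ℂ) {y : ℝ} (hy1 : |y| ≠ 1 / 2) (hy2 : ∀ k : ℕ, |y| ≠ 2 ^ k) :
    md 0 1 h (1 / 2) (y / 2) * gt m (1 / 2) (y / 2) =
      ({y : ℝ | 1 / 2 < |y| ∧ |y| < 1}.indicator (fun _ => (1:ℂ))) y := by
  have habs : |y / 2| = |y| / 2 := by rw [abs_div, abs_of_pos (by norm_num : (0 : ℝ) < 2)]
  rcases lt_trichotomy |y| (1 / 2) with h1 | h1 | h1
  · have h2 : zI (1 / 2) (y / 2) := ⟨0, by rw [Int.cast_zero, sub_zero, habs]; linarith⟩
    rw [md_I h2, zero_mul, Set.indicator_of_notMem]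
    rintro ⟨h3, -⟩
    linarith
  · exact absurd h1 hy1
  · have hne1 : |y| ≠ 1 := by simpa using hy2 0
    rcases lt_or_gt_of_ne hne1 with h2 | h2
    · have h3 : zH (1 / 2) (y / 2) := zH_of (by rw [habs]; linarith) (by rw [habs]; linarith)
      rw [md_H le_rfl h3, gt_one m (by norm_num) (by rw [habs]; linarith), mul_one,
        Set.indicator_of_mem]
      exact ⟨h1, h2⟩
    · rw [Set.indicator_of_notMem (by rintro ⟨-, h3⟩; linarith)]
      obtain ⟨k, hk1, hk2⟩ := exists_nat_pow_near h2.le (by norm_num : (1 : ℝ) < 2)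
      have hk3 : (2 : ℝ) ^ k < |y| := lt_of_le_of_ne hk1 (hy2 k).symm
      have hp : (0 : ℝ) < 2 ^ k := by positivity
      have e1 : (2 : ℝ) ^ (k + 1) = 2 * 2 ^ k := by rw [pow_succ]; ring
      have h3 : gt m (1 / 2) (y / 2) = PPm m (1 / 2) (k + 1) (y / 2) := by
        apply gt_eq m (by norm_num)
        rw [habs]; linarith
      have h4 : md 1 0 m (1 / 2) (y / 2 / 2 ^ (k + 1)) = 0 := by
        apply md_H le_rfl
        have e2 : |y / 2 / 2 ^ (k + 1)| = |y| / (4 * 2 ^ k) := by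
          rw [abs_div, habs, abs_of_pos (by positivity : (0 : ℝ) < 2 ^ (k + 1)), e1]
          field_simp
          norm_num
        apply zH_of
        · rw [e2, lt_div_iff₀ (by positivity)]; linarith
        · rw [e2, div_lt_iff₀ (by positivity)]; linarith
      rw [h3]
      unfold PPm
      rw [Finset.prod_range_succ, h4, mul_zero, mul_zero]

/-! ### continuity for positive parameters -/

theorem zI_loc {t0 w : ℝ} (h : ∀ n : ℤ, |w - n| ≠ t0 / 2) : ∀ᶠ t in 𝓝 t0, (zI t w ↔ zI t0 w) := by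
  have hc : Tendsto (fun t : ℝ => t / 2) (𝓝 t0) (𝓝 (t0 / 2)) := tendsto_id.div_const 2
  rcases lt_or_gt_of_ne (h (round w)) with h1 | h1
  · filter_upwards [hc.eventually (lt_mem_nhds h1)] with t ht
    rw [zI_iff, zI_iff]
    exact ⟨fun _ => h1, fun _ => ht⟩
  · filter_upwards [hc.eventually (gt_mem_nhds h1)] with t ht
    rw [zI_iff, zI_iff]
    exact ⟨fun h3 => absurd h3 (not_lt.2 (le_of_lt ht)), fun h3 => absurd h3 (not_lt.2 (le_of_lt h1))⟩

theorem zH_loc {t0 w : ℝ} (h : ∀ n : ℤ, |w - 1 / 2 - n| ≠ t0 / 2) :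
    ∀ᶠ t in 𝓝 t0, (zH t w ↔ zH t0 w) := by
  have hc : Tendsto (fun t : ℝ => t / 2) (𝓝 t0) (𝓝 (t0 / 2)) := tendsto_id.div_const 2
  rcases lt_or_gt_of_ne (h (round (w - 1 / 2))) with h1 | h1
  · filter_upwards [hc.eventually (lt_mem_nhds h1)] with t ht
    rw [zH_iff, zH_iff]
    exact ⟨fun _ => h1, fun _ => ht⟩
  · filter_upwards [hc.eventually (gt_mem_nhds h1)] with t ht
    rw [zH_iff, zH_iff]
    exact ⟨fun h3 => absurd h3 (not_lt.2 (le_of_lt ht)), fun h3 => absurd h3 (not_lt.2 (le_of_lt h1))⟩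

theorem md_loc (a b : ℂ) (m : ℝ → ℂ) {t0 w : ℝ}
    (h : ∀ n : ℤ, |w - n| ≠ t0 / 2 ∧ |w - 1 / 2 - n| ≠ t0 / 2) :
    ∀ᶠ t in 𝓝 t0, md a b m t w = md a b m t0 w := by
  filter_upwards [zI_loc fun n => (h n).1, zH_loc fun n => (h n).2] with t h1 h2
  unfold md
  by_cases a1 : zI t0 w
  · rw [if_pos (h1.2 a1), if_pos a1]
  · rw [if_neg (fun h => a1 (h1.1 h)), if_neg a1]
    by_cases a2 : zH t0 w
    · rw [if_pos (h2.2 a2), if_pos a2]
    · rw [if_neg (fun h => a2 (h2.1 h)), if_neg a2]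

theorem gt_loc (m : ℝ → ℂ) {t0 z : ℝ} (ht0 : 0 < t0)
    (h : ∀ j : ℕ, ∀ n : ℤ, |z / 2 ^ j - n| ≠ t0 / 2 ∧ |z / 2 ^ j - 1 / 2 - n| ≠ t0 / 2) :
    ∀ᶠ t in 𝓝 t0, gt m t z = gt m t0 z := by
  have h1 := ceil_ok (show 0 < t0 / 2 by linarith) z
  generalize ⌈|z| / (t0 / 2)⌉₊ = N at h1
  have hp : (0 : ℝ) < 2 ^ N := by positivity
  have hev : ∀ j ∈ Finset.range N, ∀ᶠ t in 𝓝 t0,
      md 1 0 m t (z / 2 ^ (j + 1)) = md 1 0 m t0 (z / 2 ^ (j + 1)) :=
    fun j _ => md_loc 1 0 m (h (j + 1))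
  filter_upwards [(Filter.eventually_all_finset (Finset.range N)).2 hev,
    lt_mem_nhds (show t0 / 2 < t0 by linarith)] with t h2 h3
  rw [gt_eq m (t := t) (N := N) (by linarith) (by nlinarith),
    gt_eq m (t := t0) (N := N) ht0 (by nlinarith)]
  exact Finset.prod_congr rfl fun j hj => h2 j hj

/-! ### continuity at zero -/

theorem lim_gt {g m : ℝ → ℂ} {z : ℝ}
    (hd : ∀ j : ℕ, ∀ n : ℤ, |z / 2 ^ j - n| ≠ 0 ∧ |z / 2 ^ j - 1 / 2 - n| ≠ 0)
    (hb : ∀ j : ℕ, g (2 * (z / 2 ^ j)) = m (z / 2 ^ j) * g (z / 2 ^ j))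
    (hm : ∀ j : ℕ, ‖m (z / 2 ^ j)‖ ≤ 1)
    (h0 : Tendsto (fun j : ℕ => g (z / 2 ^ j)) atTop (𝓝 1)) :
    Tendsto (fun t => gt m t z) (𝓝[>] 0) (𝓝 (g z)) := by
  have hz0 : 0 < |z| := by
    have h1 := (hd 0 0).1
    simp only [pow_zero, div_one, Int.cast_zero, sub_zero] at h1
    exact lt_of_le_of_ne (abs_nonneg z) (Ne.symm h1)
  have hprod : ∀ J : ℕ, g z = (∏ j ∈ Finset.range J, m (z / 2 ^ (j + 1))) * g (z / 2 ^ J) := by
    intro J
    induction J with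
    | zero => simp
    | succ J ih =>
      rw [ih, Finset.prod_range_succ, mul_assoc, ← hb (J + 1)]
      congr 2
      rw [pow_succ]
      field_simp
  rw [Metric.tendsto_nhds]
  intro ε hε
  obtain ⟨N0, hN0⟩ := (Metric.tendsto_atTop.1 h0) ε hε
  obtain ⟨j1, hj1⟩ : ∃ j1 : ℕ, |z| < 1 / 4 * 2 ^ j1 := ⟨_, ceil_ok (by norm_num) z⟩
  have hpos : ∀ᶠ t in 𝓝[>] (0 : ℝ), 0 < t := self_mem_nhdsWithin
  have hsm : ∀ c : ℝ, 0 < c → ∀ᶠ t in 𝓝[>] (0 : ℝ), t < c := fun c hc =>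
    (gt_mem_nhds hc).filter_mono nhdsWithin_le_nhds
  have hfin : ∀ i ∈ Finset.range j1, ∀ᶠ t in 𝓝[>] (0 : ℝ),
      ¬ zI t (z / 2 ^ i) ∧ ¬ zH t (z / 2 ^ i) := by
    intro i _
    have a1 : 0 < |z / 2 ^ i - round (z / 2 ^ i)| :=
      lt_of_le_of_ne (abs_nonneg _) (Ne.symm (hd i _).1)
    have a2 : 0 < |z / 2 ^ i - 1 / 2 - round (z / 2 ^ i - 1 / 2)| :=
      lt_of_le_of_ne (abs_nonneg _) (Ne.symm (hd i _).2)
    filter_upwards [hsm _ a1, hsm _ a2, hpos] with t h1 h2 h3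
    rw [zI_iff, zH_iff]
    constructor
    · intro h4; linarith
    · intro h4; linarith
  filter_upwards [(Filter.eventually_all_finset (Finset.range j1)).2 hfin, hpos,
    hsm (1 / 4) (by norm_num), hsm (|z| / 2 ^ N0) (by positivity)] with t hfin ht ht4 htN
  rw [lt_div_iff₀ (by positivity)] at htN
  have hex : ∃ J : ℕ, |z| < t * 2 ^ J := ⟨_, ceil_ok ht z⟩
  classical
  have hJ := Nat.find_spec hex
  have hJmin : ∀ j, j < Nat.find hex → t * 2 ^ j ≤ |z| := fun j hj =>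
    not_lt.1 (Nat.find_min hex hj)
  generalize Nat.find hex = J at hJ hJmin
  have hJN : N0 < J := by
    by_contra hcon
    push Not at hcon
    have h1 : (2 : ℝ) ^ J ≤ 2 ^ N0 := pow_le_pow_right₀ (by norm_num) hcon
    nlinarith
  have hfac : ∀ j ∈ Finset.range J, md 1 0 m t (z / 2 ^ (j + 1)) = m (z / 2 ^ (j + 1)) := by
    intro j hj
    have hjJ := Finset.mem_range.1 hj
    rcases Nat.lt_or_ge (j + 1) j1 with h1 | h1
    · obtain ⟨h2, h3⟩ := hfin (j + 1) (Finset.mem_range.2 h1)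
      exact md_N h2 h3
    · obtain ⟨w, hw⟩ : ∃ w, w = z / 2 ^ (j + 1) := ⟨_, rfl⟩
      have hp : (0 : ℝ) < 2 ^ (j + 1) := by positivity
      have hwabs : |w| = |z| / 2 ^ (j + 1) := by rw [hw, abs_div, abs_of_pos hp]
      have hw1 : |w| < 1 / 4 := by
        rw [hwabs, div_lt_iff₀ hp]
        have h2 : (2 : ℝ) ^ j1 ≤ 2 ^ (j + 1) := pow_le_pow_right₀ (by norm_num) h1
        linarith
      have hw2 : t / 2 ≤ |w| := by
        rw [hwabs, le_div_iff₀ hp]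
        have h2 := hJmin j hjJ
        have e1 : (2 : ℝ) ^ (j + 1) = 2 * 2 ^ j := by rw [pow_succ]; ring
        rw [e1]; linarith
      rw [← hw]
      apply md_N
      · rintro ⟨n, hn⟩
        by_cases hn0 : n = 0
        · rw [hn0, Int.cast_zero, sub_zero] at hn
          linarith
        · have h3 : (1 : ℝ) ≤ |(n : ℝ)| := by
            have : 1 ≤ |n| := Int.one_le_abs hn0
            exact_mod_cast this
          have h4 : |(n : ℝ)| ≤ |w| + |w - n| := by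
            have h5 := abs_sub (w) (w - n)
            have h6 : w - (w - (n : ℝ)) = n := by ring
            rw [h6] at h5
            exact h5
          linarith
      · rintro ⟨n, hn⟩
        have h3 := abs_lt.1 hw1
        have h4 := abs_lt.1 hn
        have h5 : ((-1 : ℤ) : ℝ) < ((n : ℤ) : ℝ) := by push_cast; linarith
        have h6 : ((n : ℤ) : ℝ) < ((0 : ℤ) : ℝ) := by push_cast; linarith
        rw [Int.cast_lt] at h5 h6
        omega
  have hgt : gt m t z = ∏ j ∈ Finset.range J, m (z / 2 ^ (j + 1)) := by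
    rw [gt_eq m ht hJ]
    exact Finset.prod_congr rfl hfac
  have hnorm : ‖∏ j ∈ Finset.range J, m (z / 2 ^ (j + 1))‖ ≤ 1 := by
    rw [norm_prod]
    exact Finset.prod_le_one (fun j _ => norm_nonneg _) fun j _ => hm (j + 1)
  have h1 := hN0 J hJN.le
  rw [dist_eq_norm] at h1 ⊢
  rw [hgt, hprod J]
  have e1 : ∏ j ∈ Finset.range J, m (z / 2 ^ (j + 1)) -
      (∏ j ∈ Finset.range J, m (z / 2 ^ (j + 1))) * g (z / 2 ^ J) =
      -((∏ j ∈ Finset.range J, m (z / 2 ^ (j + 1))) * (g (z / 2 ^ J) - 1)) := by ring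
  rw [e1, norm_neg, norm_mul]
  calc ‖∏ j ∈ Finset.range J, m (z / 2 ^ (j + 1))‖ * ‖g (z / 2 ^ J) - 1‖ ≤
        1 * ‖g (z / 2 ^ J) - 1‖ := mul_le_mul_of_nonneg_right hnorm (norm_nonneg _)
    _ < ε := by rw [one_mul]; exact h1

theorem lim_ht {h : ℝ → ℂ} {z : ℝ}
    (hd : ∀ n : ℤ, |z - n| ≠ 0 ∧ |z - 1 / 2 - n| ≠ 0) :
    Tendsto (fun t => md 0 1 h t z) (𝓝[>] 0) (𝓝 (h z)) := by
  refine tendsto_const_nhds.congr' ?_
  have hpos : ∀ᶠ t in 𝓝[>] (0 : ℝ), 0 < t := self_mem_nhdsWithin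
  have hsm : ∀ c : ℝ, 0 < c → ∀ᶠ t in 𝓝[>] (0 : ℝ), t < c := fun c hc =>
    (gt_mem_nhds hc).filter_mono nhdsWithin_le_nhds
  have a1 : 0 < |z - round z| := lt_of_le_of_ne (abs_nonneg _) (Ne.symm (hd _).1)
  have a2 : 0 < |z - 1 / 2 - round (z - 1 / 2)| :=
    lt_of_le_of_ne (abs_nonneg _) (Ne.symm (hd _).2)
  filter_upwards [hsm _ a1, hsm _ a2, hpos] with t h1 h2 h3
  symm
  apply md_N
  · rw [zI_iff]; intro h4; linarith
  · rw [zH_iff]; intro h4; linarith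

/-- the path from an MRA wavelet to the Shannon wavelet. -/
theorem mra_path (φ g m h : ℝ → ℂ) (hφm : Measurable φ) (hφg : Good φ)
    (hgm : Measurable g) (hmm : Measurable m) (hhm : Measurable h)
    (mp : ∀ y, m (y + 1) = m y) (hp : ∀ y, h (y + 1) = h y)
    (h2 : ∀ᵐ y : ℝ, g (2 * y) = m y * g y)
    (hφ : ∀ᵐ y : ℝ, φ (2 * y) = h y * g y)
    (hn : ∀ᵐ y : ℝ, ∑' n : ℤ, ‖g (y + n)‖ₑ ^ 2 = 1)
    (hm1 : ∀ᵐ y : ℝ, ‖m y‖ ^ 2 + ‖m (y + 1 / 2)‖ ^ 2 = 1)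
    (hh1 : ∀ᵐ y : ℝ, ‖h y‖ ^ 2 + ‖h (y + 1 / 2)‖ ^ 2 = 1)
    (hmh : ∀ᵐ y : ℝ, m y * (starRingEnd ℂ) (h y) + m (y + 1 / 2) * (starRingEnd ℂ) (h (y + 1 / 2)) = 0)
    (h0 : ∀ᵐ y : ℝ, Tendsto (fun j : ℕ => g (y / 2 ^ j)) atTop (𝓝 1)) :
    Conn φ ({y : ℝ | 1 / 2 < |y| ∧ |y| < 1}.indicator (fun _ => (1:ℂ))) := by
  classical
  let Ψ : ℝ → ℝ → ℂ := fun s => if s = 0 then φ else
    fun y => md 0 1 h (s / 2) (y / 2) * gt m (s / 2) (y / 2)
  have hΨ0 : Ψ 0 = φ := if_pos rfl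
  have hΨ : ∀ s, s ≠ 0 → Ψ s = fun y => md 0 1 h (s / 2) (y / 2) * gt m (s / 2) (y / 2) :=
    fun s hs => if_neg hs
  clear_value Ψ
  refine ⟨Ψ, ?_, ?_, ?_, ?_⟩
  · intro s hs
    by_cases hs0 : s = 0
    · rw [hs0, hΨ0]
      exact ⟨hφm, hφg⟩
    · have hs1 : 0 < s := lt_of_le_of_ne hs.1 (Ne.symm hs0)
      rw [hΨ s hs0]
      refine ⟨?_, good_t hgm hmm hhm mp hp h2 hn hm1 hh1 hmh (by linarith) (by linarith [hs.2])⟩
      exact ((meas_md 0 1 hhm _).comp (measurable_id.div_const 2)).mul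
        ((meas_gt hmm (by linarith)).comp (measurable_id.div_const 2))
  · rw [hΨ0]
  · rw [hΨ 1 one_ne_zero]
    have a1 : ∀ᵐ y : ℝ, ∀ k : ℕ, |y - 0| ≠ 2 ^ k := ae_all_iff.2 fun k => ae_ne 0 _
    filter_upwards [ae_ne 0 (1 / 2), a1] with y b1 b2
    exact end_pt m h (by simpa using b1) (fun k => by simpa using b2 k)
  · intro s0 hs0
    by_cases hs : s0 = 0
    · subst hs
      filter_upwards [ae_orb h2, ae_orb hφ, ae_orb hm1, ae_orb h0, ae_orb (ae_grid 0)] with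
        y b1 b2 b3 b4 b5 _
      have hlim1 := lim_gt (g := g) (m := m) (z := y / 2) b5 b1 (fun j => by
        have h3 := b3 j
        have h4 := sq_nonneg ‖m (y / 2 / 2 ^ j + 1 / 2)‖
        have h5 : ‖m (y / 2 / 2 ^ j)‖ ^ 2 ≤ 1 ^ 2 := by linarith
        exact (sq_le_sq₀ (norm_nonneg _) zero_le_one).1 h5) (by simpa using b4 0)
      have hlim2 := lim_ht (h := h) (z := y / 2) (by simpa using b5 0)
      have hval : φ y = h (y / 2) * g (y / 2) := by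
        have h3 := b2 0
        rw [pow_zero, div_one] at h3
        rw [← h3]
        congr 1
        ring
      have hmain : ContinuousWithinAt (fun s => Ψ s y) (Set.Ioi 0) 0 := by
        change Tendsto (fun s => Ψ s y) (𝓝[>] 0) (𝓝 (Ψ 0 y))
        rw [hΨ0, hval]
        have hcomp : Tendsto (fun s : ℝ => s / 2) (𝓝[>] 0) (𝓝[>] 0) := by
          refine tendsto_nhdsWithin_iff.2 ⟨?_, ?_⟩
          · have h3 : Tendsto (fun s : ℝ => s / 2) (𝓝 0) (𝓝 (0 / 2)) := tendsto_id.div_const 2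
            rw [zero_div] at h3
            exact h3.mono_left nhdsWithin_le_nhds
          · filter_upwards [self_mem_nhdsWithin] with s hs
            have hs' : 0 < s := hs
            exact half_pos hs'
        have h3 := (hlim2.mul hlim1).comp hcomp
        refine h3.congr' ?_
        filter_upwards [self_mem_nhdsWithin] with s hs
        have hs' : 0 < s := hs
        rw [hΨ s hs'.ne']
        rfl
      exact (continuousWithinAt_Ioi_iff_Ici.1 hmain).mono Set.Icc_subset_Ici_self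
    · have hs1 : 0 < s0 := lt_of_le_of_ne hs0.1 (Ne.symm hs)
      filter_upwards [ae_orb (ae_grid (s0 / 2 / 2))] with y b1 _
      have hc : Tendsto (fun s : ℝ => s / 2) (𝓝 s0) (𝓝 (s0 / 2)) := tendsto_id.div_const 2
      have e1 := hc.eventually (gt_loc m (z := y / 2) (show 0 < s0 / 2 by linarith) b1)
      have e2 := hc.eventually (md_loc 0 1 h (w := y / 2) (t0 := s0 / 2) (by simpa using b1 0))
      have hev : ∀ᶠ s in 𝓝 s0, Ψ s0 y = Ψ s y := by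
        filter_upwards [e1, e2, lt_mem_nhds hs1] with s c1 c2 c3
        rw [hΨ s c3.ne', hΨ s0 hs]
        change md 0 1 h (s0 / 2) (y / 2) * gt m (s0 / 2) (y / 2) =
          md 0 1 h (s / 2) (y / 2) * gt m (s / 2) (y / 2)
        rw [c1, c2]
      have hct : ContinuousAt (fun s => Ψ s y) s0 := tendsto_const_nhds.congr' hev
      exact hct.continuousWithinAt

end Pool.Agent.Helper152.WavMra
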