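import Pool.Agent.Helper152.WavDefs

set_option autoImplicit false
open MeasureTheory Filter Topology
open scoped ENNReal

namespace Pool.Agent.Helper152.WavMraData

open Pool.Agent.Helper152.Wav
open Pool.Agent.Helper152.Lar (w)




theorem measurable_w {φ : ℝ → ℂ} (hm : Measurable φ) : Measurable (w φ) := by
  unfold w
  exact Measurable.tsum fun i => by fun_prop

theorem w_eq_zero {φ : ℝ → ℂ} {y : ℝ} : w φ y = 0 ↔ ∀ i : ℕ, φ ((2:ℝ) ^ (i + 1) * y) = 0 := by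
  unfold w
  rw [ENNReal.tsum_eq_zero]
  simp

/-- null sets are preserved by affine maps -/
theorem ae_affine {P : ℝ → Prop} (h : ∀ᵐ x : ℝ, P x) (a d : ℝ) (ha : a ≠ 0) :
    ∀ᵐ x : ℝ, P (a * x + d) := by
  rw [ae_iff] at h ⊢
  have h1 : volume ((fun x => x + d) ⁻¹' {x | ¬ P x}) = 0 := by
    rw [measure_preimage_add_right]; exact h
  have h2 := Real.volume_preimage_mul_left ha ((fun x => x + d) ⁻¹' {x | ¬ P x})
  rw [h1, mul_zero] at h2
  exact h2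

theorem ae_orbit {P : ℝ → Prop} (h : ∀ᵐ x : ℝ, P x) :
    ∀ᵐ x : ℝ, ∀ a b c : ℤ, P ((2:ℝ) ^ a * x + b * (2:ℝ) ^ c) := by
  rw [ae_all_iff]; intro a
  rw [ae_all_iff]; intro b
  rw [ae_all_iff]; intro c
  exact ae_affine h _ _ (by positivity)

/-- orbit predicate -/
def Orb (Q : ℝ → Prop) (x : ℝ) : Prop := ∀ a b c : ℤ, Q ((2:ℝ) ^ a * x + b * (2:ℝ) ^ c)

theorem Orb.self {Q : ℝ → Prop} {x : ℝ} (h : Orb Q x) : Q x := by
  have := h 0 0 0
  simpa using this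

theorem combine (u v : ℤ) (m n : ℤ) : ∃ b c : ℤ, (u:ℝ) * (2:ℝ) ^ m + v * (2:ℝ) ^ n = b * (2:ℝ) ^ c := by
  rcases le_total m n with h | h
  · refine ⟨u + v * 2 ^ (n - m).toNat, m, ?_⟩
    have : (2:ℝ) ^ n = (2:ℝ) ^ (n - m).toNat * (2:ℝ) ^ m := by
      rw [← zpow_natCast, ← zpow_add₀ (by norm_num), Int.toNat_of_nonneg (by omega)]
      congr 1; omega
    rw [this]; push_cast; ring
  · refine ⟨u * 2 ^ (m - n).toNat + v, n, ?_⟩
    have : (2:ℝ) ^ m = (2:ℝ) ^ (m - n).toNat * (2:ℝ) ^ n := by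
      rw [← zpow_natCast, ← zpow_add₀ (by norm_num), Int.toNat_of_nonneg (by omega)]
      congr 1; omega
    rw [this]; push_cast; ring

theorem Orb.move {Q : ℝ → Prop} {x : ℝ} (h : Orb Q x) (m k l : ℤ) :
    Orb Q ((2:ℝ) ^ m * x + k * (2:ℝ) ^ l) := by
  intro a b c
  obtain ⟨b', c', hb⟩ := combine k b (a + l) c
  have := h (a + m) b' c'
  rw [← hb] at this
  convert this using 1
  rw [zpow_add₀ (by norm_num), zpow_add₀ (by norm_num)]
  ring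

theorem Orb.mul {Q : ℝ → Prop} {x : ℝ} (h : Orb Q x) (m : ℤ) : Orb Q ((2:ℝ) ^ m * x) := by
  have := h.move m 0 0
  simpa using this

theorem Orb.add {Q : ℝ → Prop} {x : ℝ} (h : Orb Q x) (k : ℤ) : Orb Q (x + k) := by
  have := h.move 0 k 0
  simpa using this

theorem ae_Orb {Q : ℝ → Prop} (h : ∀ᵐ x : ℝ, Q x) : ∀ᵐ x : ℝ, Orb Q x := ae_orbit h

/-- the Hilbert space l2(Z) -/
noncomputable abbrev HZ := lp (fun _ : ℤ => ℂ) 2


theorem esq (z : ℂ) : ‖z‖ₑ ^ 2 = ENNReal.ofReal (‖z‖ ^ 2) := by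
  rw [← ofReal_norm, ENNReal.ofReal_pow (norm_nonneg _)]

theorem tsum_esq (f : HZ) : ∑' n, ‖f n‖ₑ ^ 2 = ENNReal.ofReal (‖f‖ ^ 2) := by
  have h1 : HasSum (fun n => ‖f n‖ ^ 2) (‖f‖ ^ 2) := by
    have := lp.hasSum_norm (p := 2) (by norm_num) f
    simpa using this
  simp_rw [esq]
  rw [← ENNReal.ofReal_tsum_of_nonneg (fun n => sq_nonneg _) h1.summable, h1.tsum_eq]

theorem inner_delta (f : HZ) (n : ℤ) :
    ‖(inner ℂ (f) ((lp.single 2 n (1:ℂ) : HZ)))‖ ^ 2 = ‖f n‖ ^ 2 := by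
  rw [lp.inner_single_right]
  simp

theorem norm_delta (n : ℤ) : ‖(lp.single 2 n (1:ℂ) : HZ)‖ = 1 := by
  rw [lp.norm_single (by norm_num)]
  simp

/-- Bessel for an enlarged family -/
theorem bessel2 {ι κ : Type*} [Fintype κ] (v : ι → HZ) (k : κ → HZ) (hv : Orthonormal ℂ v)
    (hk : Orthonormal ℂ k) (hvk : ∀ i c, (inner ℂ (v i) (k c)) = 0) (n : ℤ) :
    ∑' i, ‖v i n‖ₑ ^ 2 + ∑ c, ‖k c n‖ₑ ^ 2 ≤ 1 := by
  have hon : Orthonormal ℂ (Sum.elim v k) := by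
    constructor
    · rintro (i | c)
      · exact hv.1 i
      · exact hk.1 c
    · rintro (i | c) (i' | c') hne
      · exact hv.2 (fun h => hne (by rw [h]))
      · exact hvk i c'
      · exact inner_eq_zero_symm.mp (hvk i' c)
      · exact hk.2 (fun h => hne (by rw [h]))
  have hfin : ∀ s : Finset ι, ∑ i ∈ s, ‖v i n‖ₑ ^ 2 + ∑ c, ‖k c n‖ₑ ^ 2 ≤ 1 := by
    intro s
    have h1 := hon.sum_inner_products_le (x := (lp.single 2 n (1:ℂ) : HZ))
      (s := s.disjSum Finset.univ)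
    rw [Finset.sum_disjSum] at h1
    simp only [Sum.elim_inl, Sum.elim_inr, inner_delta, norm_delta] at h1
    simp_rw [esq]
    rw [← ENNReal.ofReal_sum_of_nonneg (fun i _ => sq_nonneg _),
      ← ENNReal.ofReal_sum_of_nonneg (fun i _ => sq_nonneg _),
      ← ENNReal.ofReal_add (Finset.sum_nonneg fun i _ => sq_nonneg _)
        (Finset.sum_nonneg fun i _ => sq_nonneg _)]
    rw [ENNReal.ofReal_le_one]
    linarith
  have hc : ∑ c, ‖k c n‖ₑ ^ 2 ≤ 1 := by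
    have := hfin ∅
    simpa using this
  have hle : ∑' i, ‖v i n‖ₑ ^ 2 ≤ 1 - ∑ c, ‖k c n‖ₑ ^ 2 := by
    rw [ENNReal.tsum_eq_iSup_sum]
    apply iSup_le
    intro s
    exact ENNReal.le_sub_of_add_le_right (ne_top_of_le_ne_top ENNReal.one_ne_top hc) (hfin s)
  calc ∑' i, ‖v i n‖ₑ ^ 2 + ∑ c, ‖k c n‖ₑ ^ 2
      ≤ (1 - ∑ c, ‖k c n‖ₑ ^ 2) + ∑ c, ‖k c n‖ₑ ^ 2 := add_le_add hle (le_refl _)
    _ = 1 := tsub_add_cancel_of_le hc

theorem complete_case {ι : Type*} (v : ι → HZ) (hv : Orthonormal ℂ v)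
    (hK : (Submodule.span ℂ (Set.range v))ᗮ = ⊥) (n : ℤ) :
    ∑' i, ‖v i n‖ₑ ^ 2 = 1 := by
  have h1 := (HilbertBasis.mkOfOrthogonalEqBot hv hK).hasSum_inner_mul_inner
    (lp.single 2 n (1:ℂ) : HZ) (lp.single 2 n (1:ℂ) : HZ)
  simp only [HilbertBasis.coe_mkOfOrthogonalEqBot] at h1
  have h2 : HasSum (fun i => ‖v i n‖ ^ 2) 1 := by
    have h3 := Complex.hasSum_re h1
    have e1 : ((inner ℂ ((lp.single 2 n (1:ℂ) : HZ)) ((lp.single 2 n (1:ℂ) : HZ)))).re = 1 := by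
      rw [inner_self_eq_norm_sq_to_K, norm_delta]
      simp
    rw [e1] at h3
    convert! h3 using 1
    funext i
    have e2 := inner_mul_symm_re_eq_norm (𝕜 := ℂ) (lp.single 2 n (1:ℂ) : HZ) (v i)
    have e3 : ((inner ℂ ((lp.single 2 n (1:ℂ) : HZ)) (v i)) * (inner ℂ (v i) ((lp.single 2 n (1:ℂ) : HZ)))).re =
      ‖(inner ℂ ((lp.single 2 n (1:ℂ) : HZ)) (v i)) * (inner ℂ (v i) ((lp.single 2 n (1:ℂ) : HZ)))‖ := e2
    rw [e3, norm_mul, norm_inner_symm (𝕜 := ℂ) (lp.single 2 n (1:ℂ) : HZ) (v i), ← sq, inner_delta]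
  simp_rw [esq]
  rw [← ENNReal.ofReal_tsum_of_nonneg (fun n => sq_nonneg _) h2.summable, h2.tsum_eq,
    ENNReal.ofReal_one]

theorem orth_iff {ι : Type*} (v : ι → HZ) (k : HZ) :
    k ∈ (Submodule.span ℂ (Set.range v))ᗮ ↔ ∀ i, (inner ℂ (v i) (k)) = 0 := by
  rw [Submodule.mem_orthogonal]
  constructor
  · intro h i
    exact h _ (Submodule.subset_span ⟨i, rfl⟩)
  · intro h x hx
    induction hx using Submodule.span_induction with
    | mem x hx => obtain ⟨i, rfl⟩ := hx; exact h i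
    | zero => exact inner_zero_left _
    | add x y _ _ hx hy => rw [inner_add_left, hx, hy, add_zero]
    | smul a x _ hx => rw [inner_smul_left, hx, mul_zero]

theorem unit_bound {ι : Type*} (v : ι → HZ) (hv : Orthonormal ℂ v) (W : ℤ → ℝ≥0∞)
    (hW : ∀ n, ∑' i, ‖v i n‖ₑ ^ 2 + W n = 1) {κ : Type*} [Fintype κ] (k : κ → HZ)
    (hk : Orthonormal ℂ k) (hvk : ∀ i c, (inner ℂ (v i) (k c)) = 0) (n : ℤ) :
    ∑ c, ‖k c n‖ₑ ^ 2 ≤ W n := by
  have h1 := bessel2 v k hv hk hvk n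
  rw [← hW n] at h1
  have h2 : ∑' i, ‖v i n‖ₑ ^ 2 ≠ ⊤ := by
    apply ne_top_of_le_ne_top ENNReal.one_ne_top
    rw [← hW n]
    exact le_self_add
  exact (ENNReal.add_le_add_iff_left h2).mp h1

theorem unit_bound1 {ι : Type*} (v : ι → HZ) (hv : Orthonormal ℂ v) (W : ℤ → ℝ≥0∞)
    (hW : ∀ n, ∑' i, ‖v i n‖ₑ ^ 2 + W n = 1) (k : HZ)
    (hk : ‖k‖ = 1) (hvk : ∀ i, (inner ℂ (v i) (k)) = 0) (n : ℤ) :
    ‖k n‖ₑ ^ 2 ≤ W n := by
  have hon : Orthonormal ℂ (fun _ : Unit => k) := by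
    constructor
    · intro _; exact hk
    · intro a b hab; exact absurd (Subsingleton.elim a b) hab
  have := unit_bound v hv W hW (fun _ : Unit => k) hon (fun i _ => hvk i) n
  simpa using this

/-- rank one: the orthogonal complement is a line -/
theorem abs_line {ι : Type*} (v : ι → HZ) (hv : Orthonormal ℂ v) (W : ℤ → ℝ≥0∞)
    (hW : ∀ n, ∑' i, ‖v i n‖ₑ ^ 2 + W n = 1) (htot : ∑' n, W n = 1) :
    ∃ k : HZ, (∀ n, ‖k n‖ₑ ^ 2 = W n) ∧
      ∀ u : HZ, (∀ i, (inner ℂ (v i) (u)) = 0) → ∃ α : ℂ, u = α • k := by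
  have hcase : ∑' n, W n = 0 ∨ ∃ k : HZ, ‖k‖ = 1 ∧ ∀ i, (inner ℂ (v i) (k)) = 0 := by
    by_cases hK : (Submodule.span ℂ (Set.range v))ᗮ = ⊥
    · left
      rw [ENNReal.tsum_eq_zero]
      intro n
      have h1 := complete_case v hv hK n
      have h2 := hW n
      rw [h1] at h2
      have h3 : (1:ℝ≥0∞) + W n = 1 + 0 := by rw [h2, add_zero]
      exact (ENNReal.add_right_inj ENNReal.one_ne_top).mp h3
    · right
      obtain ⟨k, hk, hk0⟩ := Submodule.exists_mem_ne_zero_of_ne_bot hK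
      rw [orth_iff] at hk
      refine ⟨((‖k‖⁻¹ : ℝ) : ℂ) • k, ?_, ?_⟩
      · rw [norm_smul, Complex.norm_real, norm_inv, norm_norm, inv_mul_cancel₀ (norm_ne_zero_iff.mpr hk0)]
      · intro i
        rw [inner_smul_right, hk i, mul_zero]
  have hsum1 : ∀ k : HZ, ‖k‖ = 1 → ∑' n, ‖k n‖ₑ ^ 2 = 1 := by
    intro k hk
    rw [tsum_esq, hk, one_pow, ENNReal.ofReal_one]
  rcases hcase with h | ⟨k, hk1, hkv⟩
  · rw [h] at htot
    exact absurd htot (by norm_num)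
  -- equality termwise
  have hle : ∀ n, ‖k n‖ₑ ^ 2 ≤ W n := fun n => unit_bound1 v hv W hW k hk1 hkv n
  have hWtop : ∀ n, W n ≠ ⊤ := by
    intro n
    apply ne_top_of_le_ne_top ENNReal.one_ne_top
    rw [← hW n]
    exact le_add_self
  have heq : ∀ n, ‖k n‖ₑ ^ 2 = W n := by
    intro n
    by_contra hne
    have hlt : ‖k n‖ₑ ^ 2 < W n := lt_of_le_of_ne (hle n) hne
    have := ENNReal.tsum_lt_tsum (by rw [hsum1 k hk1]; exact ENNReal.one_ne_top) hle hlt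
    rw [hsum1 k hk1, htot] at this
    exact lt_irrefl _ this
  refine ⟨k, heq, fun u huv => ⟨inner ℂ k u, ?_⟩⟩
  set α : ℂ := (inner ℂ (k) (u)) with hα
  by_contra hne
  have hd0 : u - α • k ≠ 0 := sub_ne_zero.mpr hne
  set d : HZ := u - α • k with hd
  have hkd : (inner ℂ (k) (d)) = 0 := by
    rw [hd, inner_sub_right, inner_smul_right, inner_self_eq_norm_sq_to_K, hk1]
    simp [hα]
  have hvd : ∀ i, (inner ℂ (v i) (d)) = 0 := by
    intro i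
    rw [hd, inner_sub_right, inner_smul_right, huv i, hkv i]
    simp
  set k' : HZ := ((‖d‖⁻¹ : ℝ) : ℂ) • d with hk'
  have hk'1 : ‖k'‖ = 1 := by
    rw [hk', norm_smul, Complex.norm_real, norm_inv, norm_norm,
      inv_mul_cancel₀ (norm_ne_zero_iff.mpr hd0)]
  have hkk' : (inner ℂ (k) (k')) = 0 := by rw [hk', inner_smul_right, hkd, mul_zero]
  have hvk' : ∀ i, (inner ℂ (v i) (k')) = 0 := by
    intro i
    rw [hk', inner_smul_right, hvd i, mul_zero]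
  have hon : Orthonormal ℂ (fun b : Bool => if b then k else k') := by
    constructor
    · rintro (b | b)
      · simpa using hk'1
      · simpa using hk1
    · rintro (a | a) (b | b) hab
      · exact absurd rfl hab
      · simpa using inner_eq_zero_symm.mp hkk'
      · simpa using hkk'
      · exact absurd rfl hab
  have hb : ∀ n, ‖k n‖ₑ ^ 2 + ‖k' n‖ₑ ^ 2 ≤ W n := by
    intro n
    have hvb : ∀ i (b : Bool), (inner ℂ (v i) (if b then k else k')) = 0 := by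
      intro i b
      cases b
      · simpa using hvk' i
      · simpa using hkv i
    have := unit_bound v hv W hW (fun b : Bool => if b then k else k') hon hvb n
    simpa using this
  have h2 : ∑' n, (‖k n‖ₑ ^ 2 + ‖k' n‖ₑ ^ 2) ≤ ∑' n, W n := ENNReal.tsum_le_tsum hb
  rw [ENNReal.tsum_add, hsum1 k hk1, hsum1 k' hk'1, htot] at h2
  norm_num at h2

/-- the vectors -/
noncomputable def vf (φ : ℝ → ℂ) (x : ℝ) (j : ℕ) (r : ℤ) : ℤ → ℂ :=
  fun n => if n % 2 ^ j = r then φ ((x + n) / 2 ^ j) else 0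

theorem class_inj (j : ℕ) (r : ℤ) : Function.Injective (fun m : ℤ => r + 2 ^ j * m) := by
  intro a b hab
  have h1 : (2:ℤ) ^ j * a = 2 ^ j * b := add_left_cancel hab
  exact mul_left_cancel₀ (by positivity) h1

theorem tsum_class {M : Type*} [AddCommMonoid M] [TopologicalSpace M] (j : ℕ) (r : ℤ)
    (F : ℤ → M) (hF : ∀ n, n % 2 ^ j ≠ r → F n = 0) :
    ∑' n, F n = ∑' m : ℤ, F (r + 2 ^ j * m) := by
  refine ((class_inj j r).tsum_eq ?_).symm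
  intro n hn
  rw [Function.mem_support] at hn
  have h1 : n % 2 ^ j = r := by
    by_contra h
    exact hn (hF n h)
  refine ⟨n / 2 ^ j, ?_⟩
  have := Int.emod_add_mul_ediv n (2 ^ j)
  simp only
  linarith

theorem class_emod (j : ℕ) (r : ℤ) (hr0 : 0 ≤ r) (hr : r < 2 ^ j) (m : ℤ) :
    (r + 2 ^ j * m) % 2 ^ j = r := by
  rw [Int.add_mul_emod_self_left]
  exact Int.emod_eq_of_lt hr0 hr

theorem class_arg (x : ℝ) (j : ℕ) (r m : ℤ) :
    (x + ((r + 2 ^ j * m : ℤ) : ℝ)) / 2 ^ j = (x + r) / 2 ^ j + m := by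
  push_cast
  field_simp
  ring

theorem vf_norm (φ : ℝ → ℂ) (x : ℝ)
    (h1 : ∀ (j : ℕ) (r : ℤ), ∑' m : ℤ, ‖φ ((x + r) / 2 ^ j + m)‖ₑ ^ 2 = 1)
    (j : ℕ) (r : ℤ) (hr0 : 0 ≤ r) (hr : r < 2 ^ j) :
    ∑' n, ‖vf φ x j r n‖ₑ ^ 2 = 1 := by
  rw [tsum_class j r (fun n => ‖vf φ x j r n‖ₑ ^ 2)
    (by intro n hn; simp [vf, hn]), ← h1 j r]
  congr 1
  funext m
  unfold vf
  rw [if_pos (class_emod j r hr0 hr m), class_arg]

theorem memlp_of (f : ℤ → ℂ) (h : ∑' n, ‖f n‖ₑ ^ 2 ≠ ⊤) : Memℓp f 2 := by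
  apply memℓp_gen
  have h1 := ENNReal.summable_toReal h
  convert! h1 using 1
  funext n
  rw [esq, ENNReal.toReal_ofReal (sq_nonneg _)]
  norm_num

/-- sums against the vectors vanish -/
theorem sum_vf (φ : ℝ → ℂ) (x : ℝ)
    (hc : ∀ (j : ℕ) (r : ℤ) (i : ℕ), 1 ≤ i →
      ∑' m : ℤ, φ ((2:ℝ) ^ i * ((x + r) / 2 ^ j + m)) * (starRingEnd ℂ) (φ ((x + r) / 2 ^ j + m)) = 0)
    (j : ℕ) (r : ℤ) (hr0 : 0 ≤ r) (hr : r < 2 ^ j) (g : ℤ → ℂ) (i : ℕ) (hi : 1 ≤ i)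
    (hg : ∀ n, n % 2 ^ j = r → g n = φ ((2:ℝ) ^ i * ((x + n) / 2 ^ j))) :
    ∑' n, g n * (starRingEnd ℂ) (vf φ x j r n) = 0 := by
  rw [tsum_class j r (fun n => g n * (starRingEnd ℂ) (vf φ x j r n))
    (by intro n hn; simp [vf, hn]), ← hc j r i hi]
  congr 1
  funext m
  have h1 := class_emod j r hr0 hr m
  unfold vf
  rw [if_pos h1, hg _ h1, class_arg]

theorem fib_sum (φ : ℝ → ℂ) (x : ℝ) (n : ℤ) :
    ∑' i : (Σ j : ℕ, Fin (2 ^ j)), ‖vf φ x i.1 ((i.2 : ℕ) : ℤ) n‖ₑ ^ 2 =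
      ∑' j : ℕ, ‖φ ((x + n) / 2 ^ j)‖ₑ ^ 2 := by
  rw [ENNReal.tsum_sigma (fun (j : ℕ) (r : Fin (2 ^ j)) => ‖vf φ x j ((r : ℕ) : ℤ) n‖ₑ ^ 2)]
  congr 1
  funext j
  rw [tsum_fintype]
  have hpos : (0:ℤ) < 2 ^ j := by positivity
  have h1 : 0 ≤ n % 2 ^ j := Int.emod_nonneg _ hpos.ne'
  have h2 : n % 2 ^ j < 2 ^ j := Int.emod_lt_of_pos _ hpos
  have h3 : (n % 2 ^ j).toNat < 2 ^ j := by
    zify
    rw [Int.toNat_of_nonneg h1]
    exact h2
  rw [Finset.sum_eq_single (⟨(n % 2 ^ j).toNat, h3⟩ : Fin (2 ^ j))]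
  · simp only [vf]
    rw [if_pos (Int.toNat_of_nonneg h1).symm]
  · intro r _ hr
    simp only [vf]
    rw [if_neg]
    · simp
    · intro h
      apply hr
      apply Fin.ext
      simp only
      rw [h, Int.toNat_natCast]
  · intro h
    exact absurd (Finset.mem_univ _) h

theorem split_z (φ : ℝ → ℂ) (y : ℝ) :
    ∑' j : ℤ, ‖φ ((2:ℝ) ^ j * y)‖ₑ ^ 2 = ∑' j : ℕ, ‖φ (y / 2 ^ j)‖ₑ ^ 2 + w φ y := by
  have h0 : ∑' j : ℤ, ‖φ ((2:ℝ) ^ j * y)‖ₑ ^ 2 = ∑' j : ℤ, ‖φ ((2:ℝ) ^ (-j) * y)‖ₑ ^ 2 :=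
    ((Equiv.neg ℤ).tsum_eq (fun j : ℤ => ‖φ ((2:ℝ) ^ j * y)‖ₑ ^ 2)).symm
  rw [h0]
  have h1 : HasSum (fun n : ℕ => ‖φ ((2:ℝ) ^ (-(n:ℤ)) * y)‖ₑ ^ 2) (∑' j : ℕ, ‖φ (y / 2 ^ j)‖ₑ ^ 2) := by
    have : (fun n : ℕ => ‖φ ((2:ℝ) ^ (-(n:ℤ)) * y)‖ₑ ^ 2) = fun j : ℕ => ‖φ (y / 2 ^ j)‖ₑ ^ 2 := by
      funext n
      rw [zpow_neg, zpow_natCast, mul_comm, ← div_eq_mul_inv]
    rw [this]
    exact ENNReal.summable.hasSum
  have h2 : HasSum (fun n : ℕ => ‖φ ((2:ℝ) ^ (-(-((n:ℤ) + 1))) * y)‖ₑ ^ 2) (w φ y) := by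
    have : (fun n : ℕ => ‖φ ((2:ℝ) ^ (-(-((n:ℤ) + 1))) * y)‖ₑ ^ 2) =
        fun i : ℕ => ‖φ ((2:ℝ) ^ (i + 1) * y)‖ₑ ^ 2 := by
      funext n
      rw [neg_neg]
      congr 3
    rw [this]
    exact ENNReal.summable.hasSum
  exact (HasSum.of_nat_of_neg_add_one (f := fun j : ℤ => ‖φ ((2:ℝ) ^ (-j) * y)‖ₑ ^ 2) h1 h2).tsum_eq

/-- fibre linear algebra in l2(Z) -/
theorem fibre_line (φ : ℝ → ℂ) (x : ℝ)
    (h1 : ∀ (j : ℕ) (r : ℤ), ∑' m : ℤ, ‖φ ((x + r) / 2 ^ j + m)‖ₑ ^ 2 = 1)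
    (h1' : ∀ i : ℕ, ∑' n : ℤ, ‖φ ((2:ℝ) ^ i * (x + n))‖ₑ ^ 2 ≤ 1)
    (hc : ∀ (j : ℕ) (r : ℤ) (i : ℕ), 1 ≤ i →
      ∑' m : ℤ, φ ((2:ℝ) ^ i * ((x + r) / 2 ^ j + m)) * (starRingEnd ℂ) (φ ((x + r) / 2 ^ j + m)) = 0)
    (h2 : ∀ n : ℤ, ∑' j : ℤ, ‖φ ((2:ℝ) ^ j * (x + n))‖ₑ ^ 2 = 1)
    (htot : ∑' n : ℤ, w φ (x + n) = 1) :
    ∃ k : ℤ → ℂ, (∀ n, ‖k n‖ₑ ^ 2 = w φ (x + n)) ∧
      ∀ i : ℕ, 1 ≤ i → ∃ α : ℂ, ∀ n : ℤ, φ ((2:ℝ) ^ i * (x + n)) = α * k n := by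
  have hr0 : ∀ i : (Σ j : ℕ, Fin (2 ^ j)), (0:ℤ) ≤ ((i.2 : ℕ) : ℤ) := fun i => Int.natCast_nonneg _
  have hr : ∀ i : (Σ j : ℕ, Fin (2 ^ j)), ((i.2 : ℕ) : ℤ) < 2 ^ i.1 := fun i => by
    have := i.2.2
    exact_mod_cast this
  have hvnorm : ∀ i : (Σ j : ℕ, Fin (2 ^ j)), ∑' n, ‖vf φ x i.1 ((i.2 : ℕ) : ℤ) n‖ₑ ^ 2 = 1 :=
    fun i => vf_norm φ x h1 i.1 _ (hr0 i) (hr i)
  let v : (Σ j : ℕ, Fin (2 ^ j)) → HZ := fun i =>
    ⟨vf φ x i.1 ((i.2 : ℕ) : ℤ), memlp_of _ (by rw [hvnorm i]; exact ENNReal.one_ne_top)⟩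
  have hvn : ∀ i n, v i n = vf φ x i.1 ((i.2 : ℕ) : ℤ) n := fun _ _ => rfl
  have hlt : ∀ i i' : (Σ j : ℕ, Fin (2 ^ j)), i.1 < i'.1 → (inner ℂ (v i') (v i)) = 0 := by
    intro i i' hlt
    have hdvd : (2:ℤ) ^ i.1 ∣ 2 ^ i'.1 := pow_dvd_pow 2 hlt.le
    rw [lp.inner_eq_tsum]
    by_cases hcl : ((i'.2:ℕ):ℤ) % 2 ^ i.1 = ((i.2:ℕ):ℤ)
    · have := sum_vf φ x hc i'.1 _ (hr0 i') (hr i') (fun n => v i n) (i'.1 - i.1) (by omega) (by
        intro n hn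
        simp only [hvn]
        unfold vf
        rw [if_pos]
        · congr 1
          have e1 : (2:ℝ) ^ i'.1 = 2 ^ (i'.1 - i.1) * 2 ^ i.1 := by
            rw [← pow_add, Nat.sub_add_cancel hlt.le]
          rw [e1]
          field_simp
        · rw [← hcl, ← hn, Int.emod_emod_of_dvd _ hdvd])
      simpa [RCLike.inner_apply, hvn] using this
    · have hz : ∀ n, (inner ℂ (v i' n) (v i n)) = 0 := by
        intro n
        rw [hvn, hvn]
        unfold vf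
        by_cases h1 : n % 2^i'.1 = ((i'.2:ℕ):ℤ)
        · have h2 : n % 2^i.1 ≠ ((i.2:ℕ):ℤ) := by
            intro h2
            apply hcl
            rw [← h2, ← h1, Int.emod_emod_of_dvd _ hdvd]
          rw [if_neg h2, inner_zero_right]
        · rw [if_neg h1, inner_zero_left]
      simp_rw [hz]
      exact tsum_zero
  have hon : Orthonormal ℂ v := by
    constructor
    · intro i
      have e1 := tsum_esq (v i)
      have e2 : ∑' n, ‖v i n‖ₑ ^ 2 = 1 := hvnorm i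
      rw [e2] at e1
      have e3 : ‖v i‖ ^ 2 = 1 := by
        have := congrArg ENNReal.toReal e1
        rw [ENNReal.toReal_ofReal (sq_nonneg _)] at this
        simpa using this.symm
      have e4 : 0 ≤ ‖v i‖ := norm_nonneg _
      nlinarith
    · intro i i' hne
      rcases lt_trichotomy i.1 i'.1 with h | h | h
      · exact inner_eq_zero_symm.mp (hlt i i' h)
      · obtain ⟨j, r⟩ := i
        obtain ⟨j', r'⟩ := i'
        simp only at h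
        subst h
        have hrr : r ≠ r' := fun h => hne (by rw [h])
        rw [lp.inner_eq_tsum]
        have hz : ∀ n, (inner ℂ (v ⟨j, r⟩ n) (v ⟨j, r'⟩ n)) = 0 := by
          intro n
          rw [hvn, hvn]
          unfold vf
          simp only
          by_cases h1 : n % 2^j = ((r:ℕ):ℤ)
          · have h2 : n % 2^j ≠ ((r':ℕ):ℤ) := by
              intro h2
              apply hrr
              apply Fin.ext
              rw [h1] at h2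
              exact_mod_cast h2
            rw [if_neg h2, inner_zero_right]
          · rw [if_neg h1, inner_zero_left]
        simp_rw [hz]
        exact tsum_zero
      · exact hlt i' i h
  have hW : ∀ n : ℤ, ∑' i, ‖v i n‖ₑ ^ 2 + w φ (x + n) = 1 := by
    intro n
    have e1 : ∑' i, ‖v i n‖ₑ ^ 2 = ∑' j : ℕ, ‖φ ((x + n) / 2 ^ j)‖ₑ ^ 2 := fib_sum φ x n
    rw [e1, ← split_z, h2 n]
  obtain ⟨k, hk1, hk2⟩ := abs_line v hon (fun n => w φ (x + n)) hW htot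
  refine ⟨fun n => k n, hk1, fun i hi => ?_⟩
  let u : HZ := ⟨fun n : ℤ => φ ((2:ℝ) ^ i * (x + n)),
    memlp_of _ (ne_top_of_le_ne_top ENNReal.one_ne_top (h1' i))⟩
  have hun : ∀ n, u n = φ ((2:ℝ) ^ i * (x + n)) := fun _ => rfl
  have huv : ∀ i, (inner ℂ (v i) (u)) = 0 := by
    intro i'
    rw [lp.inner_eq_tsum]
    have := sum_vf φ x hc i'.1 _ (hr0 i') (hr i') (fun n => u n) (i + i'.1) (by omega) (by
      intro n hn
      simp only [hun]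
      congr 1
      rw [pow_add]
      field_simp)
    simpa [RCLike.inner_apply, hvn] using this
  obtain ⟨α, hα⟩ := hk2 u huv
  refine ⟨α, fun n => ?_⟩
  rw [← hun n]
  conv_lhs => rw [hα]
  simp

/-! ### good points -/

/-- the pointwise conditions -/
def Q (φ : ℝ → ℂ) (x : ℝ) : Prop :=
  (∑' n : ℤ, ‖φ (x + n)‖ₑ ^ 2 = 1) ∧
  (∀ i : ℕ, 1 ≤ i → ∑' n : ℤ, φ ((2:ℝ) ^ i * (x + n)) * (starRingEnd ℂ) (φ (x + n)) = 0) ∧
  (∑' j : ℤ, ‖φ ((2:ℝ) ^ j * x)‖ₑ ^ 2 = 1) ∧ (∑' n : ℤ, w φ (x + n) = 1)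

theorem ae_Q (φ : ℝ → ℂ) (hg : Good φ) (D1 : ∀ᵐ x : ℝ, ∑' n : ℤ, w φ (x + n) = 1) :
    ∀ᵐ x : ℝ, Q φ x := by
  have h2 : ∀ᵐ x : ℝ, ∀ i : ℕ, 1 ≤ i →
      ∑' n : ℤ, φ ((2:ℝ) ^ i * (x + n)) * (starRingEnd ℂ) (φ (x + n)) = 0 := by
    rw [ae_all_iff]
    intro i
    by_cases hi : 1 ≤ i
    · filter_upwards [hg.2.1 i hi] with x hx _
      exact hx
    · exact Filter.Eventually.of_forall fun x h => absurd h hi
  filter_upwards [hg.1, h2, hg.2.2, D1] with x a b c d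
  exact ⟨a, b, c, d⟩

theorem Orb.div {P : ℝ → Prop} {x : ℝ} (h : Orb P x) (j : ℕ) : Orb P (x / 2 ^ j) := by
  have := h.mul (-(j:ℤ))
  rw [zpow_neg, zpow_natCast, mul_comm, ← div_eq_mul_inv] at this
  exact this

theorem Orb.mulnat {P : ℝ → Prop} {x : ℝ} (h : Orb P x) (j : ℕ) : Orb P (2 ^ j * x) := by
  have := h.mul (j:ℤ)
  rwa [zpow_natCast] at this

theorem sub_sum (F : ℝ → ℝ≥0∞) (i : ℕ) (x : ℝ) :
    ∑' n : ℤ, F ((2:ℝ) ^ i * (x + n)) ≤ ∑' n : ℤ, F ((2:ℝ) ^ i * x + n) := by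
  have h := class_inj i 0
  have e : ∀ n : ℤ, F ((2:ℝ) ^ i * (x + n)) = F ((2:ℝ) ^ i * x + ((0 + 2 ^ i * n : ℤ) : ℝ)) := by
    intro n
    congr 1
    push_cast
    ring
  simp_rw [e]
  exact ENNReal.tsum_comp_le_tsum_of_injective h (fun n : ℤ => F ((2:ℝ) ^ i * x + n))

theorem line_of_Orb {φ : ℝ → ℂ} {x : ℝ} (h : Orb (Q φ) x) :
    ∃ k : ℤ → ℂ, (∀ n, ‖k n‖ₑ ^ 2 = w φ (x + n)) ∧
      ∀ i : ℕ, 1 ≤ i → ∃ α : ℂ, ∀ n : ℤ, φ ((2:ℝ) ^ i * (x + n)) = α * k n := by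
  refine fibre_line φ x ?_ ?_ ?_ ?_ ?_
  · intro j r
    exact ((h.add r).div j).self.1
  · intro i
    refine (sub_sum (fun y => ‖φ y‖ₑ ^ 2) i x).trans ?_
    exact (h.mulnat i).self.1.le
  · intro j r i hi
    exact ((h.add r).div j).self.2.1 i hi
  · intro n
    exact (h.add n).self.2.2.1
  · exact h.self.2.2.2


/-! ### choice of base points -/

theorem measurable_sInf {P : ℕ → ℝ → Prop} (h : ∀ j, MeasurableSet {y | P j y}) :
    Measurable fun y => sInf {j | P j y} := by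
  apply measurable_to_countable'
  intro k
  have e : (fun y => sInf {j | P j y}) ⁻¹' {k} =
      ({y | P k y} ∩ ⋂ j ∈ Finset.range k, {y | P j y}ᶜ) ∪
      (if k = 0 then ⋂ j, {y | P j y}ᶜ else ∅) := by
    ext y
    simp only [Set.mem_preimage, Set.mem_singleton_iff, Set.mem_union, Set.mem_inter_iff,
      Set.mem_ofPred_eq, Set.mem_iInter, Set.mem_compl_iff, Finset.mem_range]
    constructor
    · intro hk
      by_cases hne : ({j | P j y} : Set ℕ).Nonempty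
      · left
        have := Nat.sInf_mem hne
        rw [hk] at this
        refine ⟨this, fun j hj hP => ?_⟩
        have h2 := Nat.sInf_le (show j ∈ {j | P j y} from hP)
        omega
      · right
        rw [Set.not_nonempty_iff_eq_empty] at hne
        rw [hne, Nat.sInf_empty] at hk
        rw [if_pos hk.symm]
        simp only [Set.mem_iInter, Set.mem_compl_iff, Set.mem_ofPred_eq]
        intro j hj
        have : j ∈ ({j | P j y} : Set ℕ) := hj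
        rw [hne] at this
        exact this
    · rintro (⟨h1, h2⟩ | h1)
      · apply le_antisymm
        · exact Nat.sInf_le h1
        · by_contra hlt
          push Not at hlt
          exact h2 _ hlt (Nat.sInf_mem (s := {j | P j y}) ⟨k, h1⟩)
      · by_cases hk : k = 0
        · rw [if_pos hk] at h1
          simp only [Set.mem_iInter, Set.mem_compl_iff, Set.mem_ofPred_eq] at h1
          have : ({j | P j y} : Set ℕ) = ∅ := by
            ext j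
            simp [h1 j]
          rw [this, Nat.sInf_empty, hk]
        · rw [if_neg hk] at h1
          exact absurd h1 (Set.notMem_empty _)
  rw [e]
  refine MeasurableSet.union ?_ ?_
  · exact (h k).inter (Finset.measurableSet_biInter _ fun j _ => (h j).compl)
  · split_ifs
    · exact MeasurableSet.iInter fun j => (h j).compl
    · exact MeasurableSet.empty

/-- representative modulo one -/
noncomputable def y0 (y : ℝ) : ℝ := Int.fract (y + 1 / 2) - 1 / 2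

theorem y0_add (y : ℝ) (n : ℤ) : y0 (y + n) = y0 y := by
  unfold y0
  have : y + n + 1 / 2 = (y + 1 / 2) + n := by ring
  rw [this, Int.fract_add_intCast]

theorem y0_eq (y : ℝ) : y0 y = y + ((-⌊y + 1 / 2⌋ : ℤ) : ℝ) := by
  unfold y0
  rw [← Int.self_sub_floor]
  push_cast
  ring

theorem y0_self {y : ℝ} (h1 : -(1 / 2) ≤ y) (h2 : y < 1 / 2) : y0 y = y := by
  unfold y0
  rw [Int.fract_eq_self.mpr ⟨by linarith, by linarith⟩]
  ring

theorem measurable_y0 : Measurable y0 := by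
  unfold y0
  exact (Measurable.fract (by fun_prop)).sub_const _

/-- enumeration of the integers -/
def en (j : ℕ) : ℤ := if j % 2 = 0 then ((j / 2 : ℕ) : ℤ) else -(((j + 1) / 2 : ℕ) : ℤ)

theorem en_zero : en 0 = 0 := rfl

theorem en_surj (n : ℤ) : ∃ j, en j = n := by
  rcases le_or_gt 0 n with h | h
  · refine ⟨2 * n.toNat, ?_⟩
    unfold en
    rw [if_pos (by omega)]
    omega
  · refine ⟨2 * (-n).toNat - 1, ?_⟩
    unfold en
    rw [if_neg (by omega)]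
    omega

/-- index of the first point with positive weight -/
noncomputable def jj (φ : ℝ → ℂ) (y : ℝ) : ℕ := sInf {j | w φ (y0 y + en j) ≠ 0}

/-- base point -/
noncomputable def zz (φ : ℝ → ℂ) (y : ℝ) : ℝ := y0 y + en (jj φ y)

/-- scale -/
noncomputable def ii (φ : ℝ → ℂ) (y : ℝ) : ℕ := sInf {i | φ ((2:ℝ) ^ (i + 1) * zz φ y) ≠ 0}

/-- the scaling function -/
noncomputable def gg (φ : ℝ → ℂ) (y : ℝ) : ℂ :=
  ((Real.sqrt (w φ (zz φ y)).toReal : ℝ) : ℂ) *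
    (φ ((2:ℝ) ^ (ii φ y + 1) * y) / φ ((2:ℝ) ^ (ii φ y + 1) * zz φ y))

theorem jj_add (φ : ℝ → ℂ) (y : ℝ) (n : ℤ) : jj φ (y + n) = jj φ y := by
  unfold jj; rw [y0_add]

theorem zz_add (φ : ℝ → ℂ) (y : ℝ) (n : ℤ) : zz φ (y + n) = zz φ y := by
  unfold zz; rw [y0_add, jj_add]

theorem ii_add (φ : ℝ → ℂ) (y : ℝ) (n : ℤ) : ii φ (y + n) = ii φ y := by
  unfold ii; rw [zz_add]

theorem zz_eq (φ : ℝ → ℂ) (y : ℝ) : ∃ N : ℤ, zz φ y = y + N := by
  refine ⟨-⌊y + 1 / 2⌋ + en (jj φ y), ?_⟩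
  unfold zz
  rw [y0_eq]
  push_cast
  ring

section meas
variable {φ : ℝ → ℂ} (hm : Measurable φ)
include hm

theorem measurable_w' : Measurable (w φ) := measurable_w hm

theorem measurable_jj : Measurable (jj φ) := by
  apply measurable_sInf
  intro j
  have : Measurable fun y => w φ (y0 y + en j) :=
    (measurable_w hm).comp (measurable_y0.add_const _)
  exact (measurableSet_singleton (0 : ℝ≥0∞)).compl.preimage this

theorem measurable_zz : Measurable (zz φ) := by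
  unfold zz
  exact measurable_y0.add ((measurable_from_top (f := fun j : ℕ => ((en j : ℤ) : ℝ))).comp
    (measurable_jj hm))

theorem measurable_ii : Measurable (ii φ) := by
  apply measurable_sInf
  intro j
  have : Measurable fun y => φ ((2:ℝ) ^ (j + 1) * zz φ y) :=
    hm.comp ((measurable_zz hm).const_mul _)
  exact (measurableSet_singleton (0 : ℂ)).compl.preimage this

theorem measurable_pw : Measurable fun y => (2:ℝ) ^ (ii φ y + 1) :=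
  (measurable_from_top (f := fun j : ℕ => (2:ℝ) ^ (j + 1))).comp (measurable_ii hm)

theorem measurable_gg : Measurable (gg φ) := by
  unfold gg
  have h1 : Measurable fun y => ((Real.sqrt (w φ (zz φ y)).toReal : ℝ) : ℂ) :=
    Complex.measurable_ofReal.comp
      (((measurable_w hm).comp (measurable_zz hm)).ennreal_toReal.sqrt)
  have h2 : Measurable fun y => φ ((2:ℝ) ^ (ii φ y + 1) * y) :=
    hm.comp ((measurable_pw hm).mul measurable_id)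
  have h3 : Measurable fun y => φ ((2:ℝ) ^ (ii φ y + 1) * zz φ y) :=
    hm.comp ((measurable_pw hm).mul (measurable_zz hm))
  exact h1.mul (h2.div h3)

end meas

/-- facts at good points -/
theorem gg_facts {φ : ℝ → ℂ} {y : ℝ} (h : Orb (Q φ) y) :
    (∀ n : ℤ, ‖gg φ (y + n)‖ₑ ^ 2 = w φ (y + n)) ∧
    (∀ i : ℕ, 1 ≤ i → ∃ a : ℂ, ∀ n : ℤ, φ ((2:ℝ) ^ i * (y + n)) = a * gg φ (y + n)) ∧
    gg φ (zz φ y) ≠ 0 := by
  obtain ⟨k, hk1, hk2⟩ := line_of_Orb h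
  obtain ⟨N, hN⟩ := zz_eq φ y
  have htot := h.self.2.2.2
  have hw0 : w φ (zz φ y) ≠ 0 := by
    have h1 : ∃ n : ℤ, w φ (y + n) ≠ 0 := by
      by_contra hcon
      push Not at hcon
      rw [ENNReal.tsum_eq_zero.mpr hcon] at htot
      exact zero_ne_one htot
    obtain ⟨n, hn⟩ := h1
    obtain ⟨j, hj⟩ := en_surj (n + ⌊y + 1 / 2⌋)
    have h2 : ({j | w φ (y0 y + en j) ≠ 0} : Set ℕ).Nonempty := by
      refine ⟨j, ?_⟩
      show w φ (y0 y + en j) ≠ 0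
      rw [hj, y0_eq]
      have : y + ((-⌊y + 1 / 2⌋ : ℤ) : ℝ) + ((n + ⌊y + 1 / 2⌋ : ℤ) : ℝ) = y + n := by
        push_cast; ring
      rw [this]
      exact hn
    exact Nat.sInf_mem h2
  have hi0 : φ ((2:ℝ) ^ (ii φ y + 1) * zz φ y) ≠ 0 := by
    have h1 : ({i | φ ((2:ℝ) ^ (i + 1) * zz φ y) ≠ 0} : Set ℕ).Nonempty := by
      by_contra hcon
      rw [Set.not_nonempty_iff_eq_empty] at hcon
      apply hw0
      rw [w_eq_zero]
      intro i
      by_contra hi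
      have : i ∈ ({i | φ ((2:ℝ) ^ (i + 1) * zz φ y) ≠ 0} : Set ℕ) := hi
      rw [hcon] at this
      exact this
    exact Nat.sInf_mem h1
  have hkN : ‖k N‖ₑ ^ 2 = w φ (zz φ y) := by rw [hk1 N, hN]
  have hkN0 : k N ≠ 0 := by
    intro h0
    rw [h0] at hkN
    apply hw0
    rw [← hkN]
    simp
  have hsq : (w φ (zz φ y)).toReal = ‖k N‖ ^ 2 := by
    rw [← hkN, esq, ENNReal.toReal_ofReal (sq_nonneg _)]
  obtain ⟨α, hα⟩ := hk2 (ii φ y + 1) (by omega)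
  have hα0 : α ≠ 0 := by
    rintro rfl
    apply hi0
    rw [hN, hα N, zero_mul]
  obtain ⟨θ, hθ⟩ : ∃ θ : ℂ, θ = ((‖k N‖ : ℝ) : ℂ) / k N := ⟨_, rfl⟩
  have hθ1 : ‖θ‖ = 1 := by
    rw [hθ, norm_div, Complex.norm_real, norm_norm, div_self (norm_ne_zero_iff.mpr hkN0)]
  have hθ0 : θ ≠ 0 := by
    intro h0
    rw [h0, norm_zero] at hθ1
    exact zero_ne_one hθ1
  have hg : ∀ n : ℤ, gg φ (y + n) = θ * k n := by
    intro n
    unfold gg
    rw [zz_add, ii_add, hsq, Real.sqrt_sq (norm_nonneg _), hα n]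
    have : φ ((2:ℝ) ^ (ii φ y + 1) * zz φ y) = α * k N := by
      conv_lhs => rw [hN]
      exact hα N
    rw [this, hθ]
    field_simp
  refine ⟨fun n => ?_, fun i hi => ?_, ?_⟩
  · rw [hg n, enorm_mul, mul_pow, hk1 n]
    have : ‖θ‖ₑ = 1 := by rw [← ofReal_norm, hθ1, ENNReal.ofReal_one]
    rw [this, one_pow, one_mul]
  · obtain ⟨β, hβ⟩ := hk2 i hi
    refine ⟨β / θ, fun n => ?_⟩
    rw [hβ n, hg n]
    field_simp
  · rw [hN, hg N]
    exact mul_ne_zero hθ0 hkN0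

/-- near zero the scaling function is the square root of the weight -/
theorem gg_near {φ : ℝ → ℂ} {y : ℝ} (h : Orb (Q φ) y) (h1 : -(1 / 2) ≤ y) (h2 : y < 1 / 2) :
    gg φ y = ((Real.sqrt (w φ y).toReal : ℝ) : ℂ) := by
  obtain ⟨f1, f2, f3⟩ := gg_facts h
  by_cases hw : w φ y = 0
  · have := f1 0
    rw [Int.cast_zero, add_zero, hw, pow_eq_zero_iff (by norm_num), enorm_eq_zero] at this
    rw [this, hw]
    simp
  · have hj : jj φ y = 0 := by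
      have : (0:ℕ) ∈ ({j | w φ (y0 y + en j) ≠ 0} : Set ℕ) := by
        show w φ (y0 y + en 0) ≠ 0
        rw [en_zero, Int.cast_zero, add_zero, y0_self h1 h2]
        exact hw
      have := Nat.sInf_le this
      unfold jj
      omega
    have hz : zz φ y = y := by
      unfold zz
      rw [hj, en_zero, Int.cast_zero, add_zero, y0_self h1 h2]
    have hi0 : φ ((2:ℝ) ^ (ii φ y + 1) * y) ≠ 0 := by
      intro h0
      apply f3
      rw [hz]
      unfold gg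
      rw [h0]
      simp
    unfold gg
    rw [hz, div_self hi0, mul_one]

/-! ### filters -/

/-- low pass filter -/
noncomputable def mm (φ : ℝ → ℂ) (y : ℝ) : ℂ := gg φ (2 * zz φ y) / gg φ (zz φ y)

/-- high pass filter -/
noncomputable def hh (φ : ℝ → ℂ) (y : ℝ) : ℂ := φ (2 * zz φ y) / gg φ (zz φ y)

theorem hh_mul {φ : ℝ → ℂ} {y : ℝ} (h : Orb (Q φ) y) (n : ℤ) :
    φ (2 * (y + n)) = hh φ y * gg φ (y + n) := by
  obtain ⟨f1, f2, f3⟩ := gg_facts h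
  obtain ⟨a, ha⟩ := f2 1 le_rfl
  obtain ⟨N, hN⟩ := zz_eq φ y
  have h1 : φ (2 * zz φ y) = a * gg φ (zz φ y) := by
    have := ha N
    rw [← hN, pow_one] at this
    exact this
  have h2 : hh φ y = a := by
    unfold hh
    rw [h1, mul_div_cancel_right₀ _ f3]
  have := ha n
  rw [pow_one] at this
  rw [this, h2]

theorem gg_double (φ : ℝ → ℂ) (y : ℝ) : ∃ C : ℂ, ∀ n : ℤ,
    gg φ (y + n) = C * φ ((2:ℝ) ^ (ii φ y + 1) * (y + n)) := by
  refine ⟨((Real.sqrt (w φ (zz φ y)).toReal : ℝ) : ℂ) *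
    (1 / φ ((2:ℝ) ^ (ii φ y + 1) * zz φ y)), fun n => ?_⟩
  unfold gg
  rw [zz_add, ii_add]
  ring

theorem mm_mul {φ : ℝ → ℂ} {y : ℝ} (h : Orb (Q φ) y) (n : ℤ) :
    gg φ (2 * (y + n)) = mm φ y * gg φ (y + n) := by
  obtain ⟨f1, f2, f3⟩ := gg_facts h
  obtain ⟨a, ha⟩ := f2 (ii φ (2 * y) + 2) (by omega)
  obtain ⟨C, hC⟩ := gg_double φ (2 * y)
  have key : ∀ n : ℤ, gg φ (2 * (y + n)) = C * a * gg φ (y + n) := by
    intro n
    have e1 : 2 * (y + n) = 2 * y + ((2 * n : ℤ) : ℝ) := by push_cast; ring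
    have e2 : (2:ℝ) ^ (ii φ (2 * y) + 1) * (2 * y + ((2 * n : ℤ) : ℝ)) =
        (2:ℝ) ^ (ii φ (2 * y) + 2) * (y + n) := by push_cast; ring
    rw [e1, hC (2 * n), e2, ha n]
    ring
  obtain ⟨N, hN⟩ := zz_eq φ y
  have h2 : mm φ y = C * a := by
    unfold mm
    rw [div_eq_iff f3, hN]
    exact key N
  rw [key n, h2]

theorem isCompl_parity : IsCompl (Set.range fun n : ℤ => 2 * n) (Set.range fun n : ℤ => 2 * n + 1) := by
  rw [isCompl_iff]
  constructor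
  · rw [Set.disjoint_left]
    rintro x ⟨a, ha⟩ ⟨b, hb⟩
    simp only at ha hb
    omega
  · rw [codisjoint_iff]
    ext x
    simp only [Set.sup_eq_union, Set.mem_union, Set.mem_range, Set.top_eq_univ, Set.mem_univ,
      iff_true]
    rcases Int.even_or_odd' x with ⟨k, hk | hk⟩
    · left; exact ⟨k, hk.symm⟩
    · right; exact ⟨k, hk.symm⟩

theorem hasSum_parity {M : Type*} [AddCommMonoid M] [TopologicalSpace M] [ContinuousAdd M]
    {F : ℤ → M} {a b : M} (h1 : HasSum (fun n : ℤ => F (2 * n)) a)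
    (h2 : HasSum (fun n : ℤ => F (2 * n + 1)) b) : HasSum F (a + b) := by
  have i1 : Function.Injective fun n : ℤ => 2 * n := fun x y h => by
    simp only at h; omega
  have i2 : Function.Injective fun n : ℤ => 2 * n + 1 := fun x y h => by
    simp only at h; omega
  exact (i1.hasSum_range_iff.2 h1).add_isCompl isCompl_parity (i2.hasSum_range_iff.2 h2)

theorem Orb.half {P : ℝ → Prop} {x : ℝ} (h : Orb P x) : Orb P (x + 1 / 2) := by
  have := h.move 0 1 (-1)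
  simpa using this

theorem Orb.double {P : ℝ → Prop} {x : ℝ} (h : Orb P x) : Orb P (2 * x) := by
  have := h.mulnat 1
  simpa using this

theorem gg_sum {φ : ℝ → ℂ} {y : ℝ} (h : Orb (Q φ) y) : ∑' n : ℤ, ‖gg φ (y + n)‖ₑ ^ 2 = 1 := by
  simp_rw [(gg_facts h).1]
  exact h.self.2.2.2

theorem gg_hasSum {φ : ℝ → ℂ} {y : ℝ} (h : Orb (Q φ) y) :
    HasSum (fun n : ℤ => gg φ (y + n) * (starRingEnd ℂ) (gg φ (y + n))) 1 := by
  have h1 := gg_sum h
  have h2 := ENNReal.hasSum_toReal (f := fun n : ℤ => ‖gg φ (y + n)‖ₑ ^ 2)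
    (by rw [h1]; exact ENNReal.one_ne_top)
  rw [← ENNReal.tsum_toReal_eq (fun n => by
    apply ne_top_of_le_ne_top ENNReal.one_ne_top
    rw [← h1]
    exact ENNReal.le_tsum n), h1] at h2
  have h3 := (Complex.hasSum_ofReal).mpr h2
  rw [ENNReal.toReal_one, Complex.ofReal_one] at h3
  convert! h3 using 1
  funext n
  rw [esq, ENNReal.toReal_ofReal (sq_nonneg _), Complex.mul_conj, Complex.normSq_eq_norm_sq]

/-- quadrature condition -/
theorem quad {φ : ℝ → ℂ} {y : ℝ} (h : Orb (Q φ) y) (F : ℝ → ℂ) (f : ℝ → ℂ)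
    (hF : ∑' n : ℤ, ‖F (2 * y + n)‖ₑ ^ 2 = 1)
    (h1 : ∀ n : ℤ, F (2 * (y + n)) = f y * gg φ (y + n))
    (h2 : ∀ n : ℤ, F (2 * (y + 1 / 2 + n)) = f (y + 1 / 2) * gg φ (y + 1 / 2 + n)) :
    ‖f y‖ ^ 2 + ‖f (y + 1 / 2)‖ ^ 2 = 1 := by
  have s1 : HasSum (fun n : ℤ => ‖F (2 * y + ((2 * n : ℤ) : ℝ))‖ₑ ^ 2) (‖f y‖ₑ ^ 2) := by
    have e : ∀ n : ℤ, ‖F (2 * y + ((2 * n : ℤ) : ℝ))‖ₑ ^ 2 = ‖f y‖ₑ ^ 2 * ‖gg φ (y + n)‖ₑ ^ 2 := by
      intro n
      have : 2 * y + ((2 * n : ℤ) : ℝ) = 2 * (y + n) := by push_cast; ring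
      rw [this, h1 n, enorm_mul, mul_pow]
    simp_rw [e]
    have := (ENNReal.summable (f := fun n : ℤ => ‖f y‖ₑ ^ 2 * ‖gg φ (y + n)‖ₑ ^ 2)).hasSum
    rw [ENNReal.tsum_mul_left, gg_sum h, mul_one] at this
    exact this
  have s2 : HasSum (fun n : ℤ => ‖F (2 * y + ((2 * n + 1 : ℤ) : ℝ))‖ₑ ^ 2)
      (‖f (y + 1 / 2)‖ₑ ^ 2) := by
    have e : ∀ n : ℤ, ‖F (2 * y + ((2 * n + 1 : ℤ) : ℝ))‖ₑ ^ 2 =
        ‖f (y + 1 / 2)‖ₑ ^ 2 * ‖gg φ (y + 1 / 2 + n)‖ₑ ^ 2 := by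
      intro n
      have : 2 * y + ((2 * n + 1 : ℤ) : ℝ) = 2 * (y + 1 / 2 + n) := by push_cast; ring
      rw [this, h2 n, enorm_mul, mul_pow]
    simp_rw [e]
    have := (ENNReal.summable
      (f := fun n : ℤ => ‖f (y + 1 / 2)‖ₑ ^ 2 * ‖gg φ (y + 1 / 2 + n)‖ₑ ^ 2)).hasSum
    rw [ENNReal.tsum_mul_left, gg_sum h.half, mul_one] at this
    exact this
  have s3 := (hasSum_parity (F := fun n : ℤ => ‖F (2 * y + n)‖ₑ ^ 2) s1 s2).tsum_eq
  rw [hF, esq, esq, ← ENNReal.ofReal_add (sq_nonneg _) (sq_nonneg _)] at s3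
  exact (ENNReal.ofReal_eq_one.mp s3.symm)

theorem cross {φ : ℝ → ℂ} {y : ℝ} (h : Orb (Q φ) y) :
    mm φ y * (starRingEnd ℂ) (hh φ y) + mm φ (y + 1 / 2) * (starRingEnd ℂ) (hh φ (y + 1 / 2)) = 0 := by
  have s1 : HasSum (fun n : ℤ => gg φ (2 * y + ((2 * n : ℤ) : ℝ)) *
      (starRingEnd ℂ) (φ (2 * y + ((2 * n : ℤ) : ℝ)))) (mm φ y * (starRingEnd ℂ) (hh φ y) * 1) := by
    have e : ∀ n : ℤ, gg φ (2 * y + ((2 * n : ℤ) : ℝ)) *
      (starRingEnd ℂ) (φ (2 * y + ((2 * n : ℤ) : ℝ))) = mm φ y * (starRingEnd ℂ) (hh φ y) *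
        (gg φ (y + n) * (starRingEnd ℂ) (gg φ (y + n))) := by
      intro n
      have : 2 * y + ((2 * n : ℤ) : ℝ) = 2 * (y + n) := by push_cast; ring
      rw [this, mm_mul h n, hh_mul h n, map_mul]
      ring
    simp_rw [e]
    exact (gg_hasSum h).mul_left _
  have s2 : HasSum (fun n : ℤ => gg φ (2 * y + ((2 * n + 1 : ℤ) : ℝ)) *
      (starRingEnd ℂ) (φ (2 * y + ((2 * n + 1 : ℤ) : ℝ))))
      (mm φ (y + 1 / 2) * (starRingEnd ℂ) (hh φ (y + 1 / 2)) * 1) := by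
    have e : ∀ n : ℤ, gg φ (2 * y + ((2 * n + 1 : ℤ) : ℝ)) *
      (starRingEnd ℂ) (φ (2 * y + ((2 * n + 1 : ℤ) : ℝ))) =
        mm φ (y + 1 / 2) * (starRingEnd ℂ) (hh φ (y + 1 / 2)) *
        (gg φ (y + 1 / 2 + n) * (starRingEnd ℂ) (gg φ (y + 1 / 2 + n))) := by
      intro n
      have : 2 * y + ((2 * n + 1 : ℤ) : ℝ) = 2 * (y + 1 / 2 + n) := by push_cast; ring
      rw [this, mm_mul h.half n, hh_mul h.half n, map_mul]
      ring
    simp_rw [e]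
    exact (gg_hasSum h.half).mul_left _
  have s3 := (hasSum_parity (F := fun n : ℤ => gg φ (2 * y + n) *
    (starRingEnd ℂ) (φ (2 * y + n))) s1 s2).tsum_eq
  obtain ⟨C, hC⟩ := gg_double φ (2 * y)
  have s4 : ∑' n : ℤ, gg φ (2 * y + n) * (starRingEnd ℂ) (φ (2 * y + n)) = 0 := by
    have e : ∀ n : ℤ, gg φ (2 * y + n) * (starRingEnd ℂ) (φ (2 * y + n)) =
        C * (φ ((2:ℝ) ^ (ii φ (2 * y) + 1) * (2 * y + n)) * (starRingEnd ℂ) (φ (2 * y + n))) := by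
      intro n
      rw [hC n]; ring
    simp_rw [e]
    rw [tsum_mul_left, h.double.self.2.1 _ (by omega), mul_zero]
  rw [s4, mul_one, mul_one] at s3
  exact s3.symm

theorem w_tendsto {φ : ℝ → ℂ} {y : ℝ} (h : Orb (Q φ) y) :
    Tendsto (fun j : ℕ => w φ (y / 2 ^ j)) atTop (𝓝 1) := by
  have h0 := h.self.2.2.1
  rw [split_z] at h0
  have hfin : ∑' j : ℕ, ‖φ (y / 2 ^ j)‖ₑ ^ 2 ≠ ⊤ := by
    apply ne_top_of_le_ne_top ENNReal.one_ne_top
    rw [← h0]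
    exact le_self_add
  have hT := ENNReal.tendsto_sum_nat_add (fun j : ℕ => ‖φ (y / 2 ^ j)‖ₑ ^ 2) hfin
  have hw : ∀ j : ℕ, w φ (y / 2 ^ j) = 1 - ∑' k : ℕ, ‖φ (y / 2 ^ (k + j))‖ₑ ^ 2 := by
    intro j
    have h1 := (h.div j).self.2.2.1
    rw [split_z] at h1
    have e : ∑' k : ℕ, ‖φ (y / 2 ^ j / 2 ^ k)‖ₑ ^ 2 = ∑' k : ℕ, ‖φ (y / 2 ^ (k + j))‖ₑ ^ 2 := by
      refine tsum_congr fun k => ?_
      rw [div_div, ← pow_add, add_comm j k]
    rw [e] at h1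
    refine ENNReal.eq_sub_of_add_eq ?_ (by rw [add_comm]; exact h1)
    apply ne_top_of_le_ne_top ENNReal.one_ne_top
    rw [← h1]
    exact le_self_add
  simp_rw [hw]
  have := ENNReal.Tendsto.sub (tendsto_const_nhds (x := (1 : ℝ≥0∞))) hT (Or.inl ENNReal.one_ne_top)
  rw [tsub_zero] at this
  exact this

theorem gg_tendsto {φ : ℝ → ℂ} {y : ℝ} (h : Orb (Q φ) y) :
    Tendsto (fun j : ℕ => gg φ (y / 2 ^ j)) atTop (𝓝 1) := by
  have h1 : Tendsto (fun j : ℕ => y / 2 ^ j) atTop (𝓝 0) := by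
    have := (tendsto_pow_atTop_nhds_zero_of_lt_one (r := (1 / 2 : ℝ)) (by norm_num)
      (by norm_num)).const_mul y
    rw [mul_zero] at this
    refine this.congr fun j => ?_
    rw [div_pow, one_pow]
    ring
  have h2 : ∀ᶠ j : ℕ in atTop, -(1 / 2) ≤ y / 2 ^ j ∧ y / 2 ^ j < 1 / 2 := by
    have a1 := h1.eventually_const_lt (show -(1 / 2 : ℝ) < 0 by norm_num)
    have a2 := h1.eventually_lt_const (show (0 : ℝ) < 1 / 2 by norm_num)
    filter_upwards [a1, a2] with j b1 b2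
    exact ⟨b1.le, b2⟩
  have h3 : Tendsto (fun j : ℕ => ((Real.sqrt (w φ (y / 2 ^ j)).toReal : ℝ) : ℂ)) atTop (𝓝 1) := by
    have t1 := (ENNReal.tendsto_toReal ENNReal.one_ne_top).comp (w_tendsto h)
    have t2 := (Real.continuous_sqrt.tendsto _).comp t1
    have t3 := (Complex.continuous_ofReal.tendsto _).comp t2
    rw [ENNReal.toReal_one, Real.sqrt_one, Complex.ofReal_one] at t3
    exact t3
  refine h3.congr' ?_
  filter_upwards [h2] with j hj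
  exact (gg_near (h.div j) hj.1 hj.2).symm

/-- scaling function, low pass and high pass filters of a wavelet with dimension function one. -/
theorem mra_data (φ : ℝ → ℂ) (hm : Measurable φ) (hg : Good φ)
    (D1 : ∀ᵐ x : ℝ, ∑' n : ℤ, w φ (x + n) = 1) :
    ∃ g m h : ℝ → ℂ, Measurable g ∧ Measurable m ∧ Measurable h ∧
      (∀ y, m (y + 1) = m y) ∧ (∀ y, h (y + 1) = h y) ∧
      (∀ᵐ y : ℝ, g (2 * y) = m y * g y) ∧ (∀ᵐ y : ℝ, φ (2 * y) = h y * g y) ∧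
      (∀ᵐ y : ℝ, ∑' n : ℤ, ‖g (y + n)‖ₑ ^ 2 = 1) ∧
      (∀ᵐ y : ℝ, ‖m y‖ ^ 2 + ‖m (y + 1 / 2)‖ ^ 2 = 1) ∧
      (∀ᵐ y : ℝ, ‖h y‖ ^ 2 + ‖h (y + 1 / 2)‖ ^ 2 = 1) ∧
      (∀ᵐ y : ℝ, m y * (starRingEnd ℂ) (h y) + m (y + 1 / 2) * (starRingEnd ℂ) (h (y + 1 / 2)) = 0) ∧
      (∀ᵐ y : ℝ, Tendsto (fun j : ℕ => g (y / 2 ^ j)) atTop (𝓝 1)) := by
  have hO := ae_Orb (ae_Q φ hg D1)
  have mz := measurable_zz hm
  have mg := measurable_gg hm
  refine ⟨gg φ, mm φ, hh φ, mg, ?_, ?_, ?_, ?_, ?_, ?_, ?_, ?_, ?_, ?_, ?_⟩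
  · exact (mg.comp (mz.const_mul 2)).div (mg.comp mz)
  · exact (hm.comp (mz.const_mul 2)).div (mg.comp mz)
  · intro y
    have := zz_add φ y 1
    rw [Int.cast_one] at this
    unfold mm
    rw [this]
  · intro y
    have := zz_add φ y 1
    rw [Int.cast_one] at this
    unfold hh
    rw [this]
  · filter_upwards [hO] with y hy
    have := mm_mul hy 0
    simpa using this
  · filter_upwards [hO] with y hy
    have := hh_mul hy 0
    simpa using this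
  · filter_upwards [hO] with y hy
    exact gg_sum hy
  · filter_upwards [hO] with y hy
    exact quad hy (gg φ) (mm φ) (gg_sum hy.double) (mm_mul hy) (mm_mul hy.half)
  · filter_upwards [hO] with y hy
    exact quad hy φ (hh φ) hy.double.self.1 (hh_mul hy) (hh_mul hy.half)
  · filter_upwards [hO] with y hy
    exact cross hy
  · filter_upwards [hO] with y hy
    exact gg_tendsto hy

end Pool.Agent.Helper152.WavMraData
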