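import Pool.Agent.Helper152.WavDefs

set_option autoImplicit false
open MeasureTheory Filter Topology
open scoped ENNReal

namespace Pool.Agent.Helper152.WavFam

open Pool.Agent.Helper152.Wav
open Pool.Agent.Helper152.Lar (w)










/-! ### auxiliary lemmas -/

theorem zpow_trich (j : ℤ) (y : ℝ) (hy : 0 < y) :
    j = 0 ∨ 2 * y ≤ (2:ℝ) ^ j * y ∨ 2 * ((2:ℝ) ^ j * y) ≤ y := by
  rcases lt_trichotomy j 0 with h | h | h
  · right; right
    have h1 : (2:ℝ) ^ (j + 1) ≤ (2:ℝ) ^ (0:ℤ) :=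
      zpow_le_zpow_right₀ (by norm_num) (by omega)
    rw [zpow_add₀ (by norm_num : (2:ℝ) ≠ 0), zpow_one, zpow_zero] at h1
    nlinarith
  · left; exact h
  · right; left
    have h1 : (2:ℝ) ^ (1:ℤ) ≤ (2:ℝ) ^ j :=
      zpow_le_zpow_right₀ (by norm_num) (by omega)
    rw [zpow_one] at h1
    nlinarith

theorem exu (X : ℝ) (hX : 0 < X) : ∃! j : ℤ, 1 ≤ (2:ℝ) ^ j * X ∧ (2:ℝ) ^ j * X < 2 := by
  obtain ⟨n, hn1, hn2⟩ := exists_mem_Ico_zpow hX (one_lt_two : (1:ℝ) < 2)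
  have hp : (0:ℝ) < (2:ℝ) ^ n := zpow_pos (by norm_num) n
  refine ⟨-n, ⟨?_, ?_⟩, ?_⟩
  · rw [zpow_neg, ← div_eq_inv_mul, le_div_iff₀ hp, one_mul]
    exact hn1
  · rw [zpow_neg, ← div_eq_inv_mul, div_lt_iff₀ hp]
    rw [zpow_add₀ (by norm_num : (2:ℝ) ≠ 0), zpow_one] at hn2
    linarith
  · intro j hj
    have hj' : 1 ≤ (2:ℝ) ^ (-n) * X ∧ (2:ℝ) ^ (-n) * X < 2 := by
      constructor
      · rw [zpow_neg, ← div_eq_inv_mul, le_div_iff₀ hp, one_mul]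
        exact hn1
      · rw [zpow_neg, ← div_eq_inv_mul, div_lt_iff₀ hp]
        rw [zpow_add₀ (by norm_num : (2:ℝ) ≠ 0), zpow_one] at hn2
        linarith
    have hpos : (0:ℝ) < (2:ℝ) ^ (-n) * X := by linarith [hj'.1]
    have he : (2:ℝ) ^ (j - -n) * ((2:ℝ) ^ (-n) * X) = (2:ℝ) ^ j * X := by
      rw [← mul_assoc, ← zpow_add₀ (by norm_num : (2:ℝ) ≠ 0)]
      congr 2
      ring
    rcases zpow_trich (j - -n) _ hpos with h | h | h
    · omega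
    · rw [he] at h
      exfalso
      linarith [hj.1, hj.2, hj'.1, hj'.2]
    · rw [he] at h
      exfalso
      linarith [hj.1, hj.2, hj'.1, hj'.2]

theorem floor_add_fract' (s : ℝ) (hs : 0 ≤ s) : ((⌊s⌋₊ : ℕ) : ℝ) + Int.fract s = s := by
  have h1 : ((⌊s⌋₊ : ℕ) : ℝ) = ((⌊s⌋ : ℤ) : ℝ) := by
    rw [← Int.natCast_floor_eq_floor hs]
    simp
  rw [h1]
  exact Int.floor_add_fract s

theorem measurable_TT (s : ℝ) : MeasurableSet (TT s) :=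
  measurableSet_Ico.union measurableSet_Ico

theorem TT_sub (s : ℝ) : TT s ⊆ Set.Ici 2 := by
  intro y hy
  have hf : 0 ≤ Int.fract s := Int.fract_nonneg s
  have h1 : (1:ℝ) ≤ (2:ℝ) ^ ⌊s⌋₊ := one_le_pow₀ (by norm_num)
  have h2 : (1:ℝ) ≤ (2:ℝ) ^ (⌊s⌋₊ + 1) := one_le_pow₀ (by norm_num)
  rcases hy with hy | hy
  · have := hy.1
    simp only [Set.mem_Ici]
    linarith
  · have := hy.1
    simp only [Set.mem_Ici]
    linarith

theorem dinj_TT (s : ℝ) : DInj (TT s) := by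
  intro y j hy hz
  have hf : 0 ≤ Int.fract s := Int.fract_nonneg s
  have hf1 : Int.fract s < 1 := Int.fract_lt_one s
  have h1 : (1:ℝ) ≤ (2:ℝ) ^ ⌊s⌋₊ := one_le_pow₀ (by norm_num)
  have h2 : (2:ℝ) ^ (⌊s⌋₊ + 1) = (2:ℝ) ^ ⌊s⌋₊ * 2 := pow_succ _ _
  have hy0 : 0 < y := by
    have := TT_sub s hy
    simp only [Set.mem_Ici] at this
    linarith
  rcases zpow_trich j y hy0 with h | h | h
  · exact h
  · exfalso
    rcases hy with hy | hy <;> rcases hz with hz | hz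
    all_goals
      have a1 := hy.1
      have a2 := hy.2
      have a3 := hz.1
      have a4 := hz.2
      try rw [h2] at a1
      try rw [h2] at a2
      try rw [h2] at a3
      try rw [h2] at a4
      linarith
  · exfalso
    rcases hy with hy | hy <;> rcases hz with hz | hz
    all_goals
      have a1 := hy.1
      have a2 := hy.2
      have a3 := hz.1
      have a4 := hz.2
      try rw [h2] at a1
      try rw [h2] at a2
      try rw [h2] at a3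
      try rw [h2] at a4
      linarith

theorem t1_TT (s x : ℝ) : ∃! n : ℤ, x + n ∈ TT s := by
  have hf : 0 ≤ Int.fract s := Int.fract_nonneg s
  have hf1 : Int.fract s < 1 := Int.fract_lt_one s
  have hx : 0 ≤ Int.fract x := Int.fract_nonneg x
  have hx1 : Int.fract x < 1 := Int.fract_lt_one x
  have hxe : ((⌊x⌋ : ℤ) : ℝ) + Int.fract x = x := Int.floor_add_fract x
  -- key: membership determines n
  have key1 : ∀ n : ℤ, x + n ∈ Set.Ico ((2:ℝ) ^ ⌊s⌋₊ + 1 + Int.fract s) ((2:ℝ) ^ ⌊s⌋₊ + 2) →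
      Int.fract s ≤ Int.fract x ∧ n = (2:ℤ) ^ ⌊s⌋₊ + 1 - ⌊x⌋ := by
    intro n hn
    have h1 := hn.1
    have h2 := hn.2
    have h3 : (((2:ℤ) ^ ⌊s⌋₊ + 1 - ⌊x⌋ : ℤ) : ℝ) = (2:ℝ) ^ ⌊s⌋₊ + 1 - ((⌊x⌋ : ℤ) : ℝ) := by
      push_cast; ring
    have h4 : n = (2:ℤ) ^ ⌊s⌋₊ + 1 - ⌊x⌋ := by
      have a1 : (n : ℝ) < (((2:ℤ) ^ ⌊s⌋₊ + 1 - ⌊x⌋ : ℤ) : ℝ) + 1 := by
        rw [h3]; linarith
      have a2 : (((2:ℤ) ^ ⌊s⌋₊ + 1 - ⌊x⌋ : ℤ) : ℝ) < (n : ℝ) + 1 := by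
        rw [h3]; linarith
      have a3 : n < (2:ℤ) ^ ⌊s⌋₊ + 1 - ⌊x⌋ + 1 := by exact_mod_cast a1
      have a4 : (2:ℤ) ^ ⌊s⌋₊ + 1 - ⌊x⌋ < n + 1 := by exact_mod_cast a2
      omega
    refine ⟨?_, h4⟩
    have h5 : (n : ℝ) = (2:ℝ) ^ ⌊s⌋₊ + 1 - ((⌊x⌋ : ℤ) : ℝ) := by rw [h4]; exact h3
    linarith
  have key2 : ∀ n : ℤ, x + n ∈ Set.Ico ((2:ℝ) ^ (⌊s⌋₊ + 1) + 1)
      ((2:ℝ) ^ (⌊s⌋₊ + 1) + 1 + Int.fract s) →
      Int.fract x < Int.fract s ∧ n = (2:ℤ) ^ (⌊s⌋₊ + 1) + 1 - ⌊x⌋ := by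
    intro n hn
    have h1 := hn.1
    have h2 := hn.2
    have h3 : (((2:ℤ) ^ (⌊s⌋₊ + 1) + 1 - ⌊x⌋ : ℤ) : ℝ) =
        (2:ℝ) ^ (⌊s⌋₊ + 1) + 1 - ((⌊x⌋ : ℤ) : ℝ) := by
      push_cast; ring
    have h4 : n = (2:ℤ) ^ (⌊s⌋₊ + 1) + 1 - ⌊x⌋ := by
      have a1 : (n : ℝ) < (((2:ℤ) ^ (⌊s⌋₊ + 1) + 1 - ⌊x⌋ : ℤ) : ℝ) + 1 := by
        rw [h3]; linarith
      have a2 : (((2:ℤ) ^ (⌊s⌋₊ + 1) + 1 - ⌊x⌋ : ℤ) : ℝ) < (n : ℝ) + 1 := by
        rw [h3]; linarith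
      have a3 : n < (2:ℤ) ^ (⌊s⌋₊ + 1) + 1 - ⌊x⌋ + 1 := by exact_mod_cast a1
      have a4 : (2:ℤ) ^ (⌊s⌋₊ + 1) + 1 - ⌊x⌋ < n + 1 := by exact_mod_cast a2
      omega
    refine ⟨?_, h4⟩
    have h5 : (n : ℝ) = (2:ℝ) ^ (⌊s⌋₊ + 1) + 1 - ((⌊x⌋ : ℤ) : ℝ) := by rw [h4]; exact h3
    linarith
  rcases le_or_gt (Int.fract s) (Int.fract x) with hc | hc
  · refine ⟨(2:ℤ) ^ ⌊s⌋₊ + 1 - ⌊x⌋, ?_, ?_⟩
    · left
      have h3 : (((2:ℤ) ^ ⌊s⌋₊ + 1 - ⌊x⌋ : ℤ) : ℝ) = (2:ℝ) ^ ⌊s⌋₊ + 1 - ((⌊x⌋ : ℤ) : ℝ) := by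
        push_cast; ring
      rw [h3]
      constructor <;> linarith
    · intro n hn
      rcases hn with hn | hn
      · exact (key1 n hn).2
      · exact absurd hc (not_le.mpr (key2 n hn).1)
  · refine ⟨(2:ℤ) ^ (⌊s⌋₊ + 1) + 1 - ⌊x⌋, ?_, ?_⟩
    · right
      have h3 : (((2:ℤ) ^ (⌊s⌋₊ + 1) + 1 - ⌊x⌋ : ℤ) : ℝ) =
          (2:ℝ) ^ (⌊s⌋₊ + 1) + 1 - ((⌊x⌋ : ℤ) : ℝ) := by
        push_cast; ring
      rw [h3]
      constructor <;> linarith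
    · intro n hn
      rcases hn with hn | hn
      · exact absurd (key1 n hn).1 (not_le.mpr hc)
      · exact (key2 n hn).2

theorem adm (W : Set ℝ) (hW1 : TInj W) (hW2 : DInj W) (s : ℝ) (hs : 4 ≤ s) :
    Adm (AA W s) (XX s) (TT s) where
  a1 := fun y n hy hz => hW1 y n hy.1 hz.1
  a2 := fun y j hy hz => hW2 y j hy.1 hz.1
  x1 := by
    intro x hx
    have hs0 : 0 < s := by linarith
    have hX : 0 < 2 * s * |x| := by positivity
    have hequiv : ∀ j : ℤ, ((2:ℝ) ^ j * x ∈ XX s ↔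
        1 ≤ (2:ℝ) ^ j * (2 * s * |x|) ∧ (2:ℝ) ^ j * (2 * s * |x|) < 2) := by
      intro j
      have hp : (0:ℝ) < (2:ℝ) ^ j := zpow_pos (by norm_num) j
      have habs : |(2:ℝ) ^ j * x| = (2:ℝ) ^ j * |x| := by
        rw [abs_mul, abs_of_pos hp]
      simp only [XX, Set.mem_ofPred_eq, habs]
      rw [div_le_iff₀ (by positivity), lt_div_iff₀ hs0]
      constructor
      · rintro ⟨h1, h2⟩
        constructor <;> nlinarith
      · rintro ⟨h1, h2⟩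
        constructor <;> nlinarith
    obtain ⟨j, hj, hju⟩ := exu _ hX
    exact ⟨j, (hequiv j).mpr hj, fun j' hj' => hju j' ((hequiv j').mp hj')⟩
  x2 := by
    intro y n hy hz
    have hs4 : 1 / s ≤ 1 / 4 := one_div_le_one_div_of_le (by norm_num) hs
    have h1 := hy.2
    have h2 := hz.2
    have h3 : |(n:ℝ)| < 1 := by
      have : (n:ℝ) = (y + n) - y := by ring
      rw [this]
      calc |(y + n) - y| ≤ |y + n| + |y| := abs_sub _ _
        _ < 1 := by linarith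
    have h4 : |n| < 1 := by exact_mod_cast h3
    exact Int.abs_lt_one_iff.mp h4
  x3 := by
    intro y n hy hz
    have h1 := hz.2.2.1 n
    have h2 := hy.2
    have h3 : y + (n:ℝ) - n = y := by ring
    rw [h3] at h1
    linarith
  t1 := t1_TT s
  t2 := dinj_TT s
  t3 := by
    intro y j hy hz
    have h1 := hz.2.2.2 (-j)
    apply h1
    have : (2:ℝ) ^ (-j) * ((2:ℝ) ^ j * y) = y := by
      rw [← mul_assoc, ← zpow_add₀ (by norm_num : (2:ℝ) ≠ 0)]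
      simp
    rw [this]
    exact hy
  x0 := by
    intro h
    have h1 := h.1
    rw [abs_zero] at h1
    have : 0 < 1 / (2 * s) := by positivity
    linarith
  t0 := by
    intro h
    have := TT_sub s h
    simp only [Set.mem_Ici] at this
    linarith

theorem measurable_sets (W : Set ℝ) (hW : MeasurableSet W) (s : ℝ) :
    MeasurableSet (AA W s) ∧ MeasurableSet (XX s) ∧ MeasurableSet (TT s) := by
  refine ⟨?_, ?_, measurable_TT s⟩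
  · have h : AA W s = W ∩ ({y | |y| < s - 4} ∩ ((⋂ n : ℤ, {y : ℝ | 1 / s ≤ |y - n|}) ∩
        ⋂ j : ℤ, {y : ℝ | (2:ℝ) ^ j * y ∉ TT s})) := by
      ext y
      simp only [AA, Set.mem_ofPred_eq, Set.mem_inter_iff, Set.mem_iInter]
    rw [h]
    refine hW.inter (MeasurableSet.inter ?_ (MeasurableSet.inter ?_ ?_))
    · exact measurableSet_lt (by fun_prop) measurable_const
    · exact MeasurableSet.iInter fun n => measurableSet_le measurable_const (by fun_prop)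
    · refine MeasurableSet.iInter fun j => ?_
      have hm : Measurable fun y : ℝ => (2:ℝ) ^ j * y := by fun_prop
      exact (hm (measurable_TT s)).compl
  · have h : XX s = {y | 1 / (2 * s) ≤ |y|} ∩ {y | |y| < 1 / s} := by
      ext y
      simp only [XX, Set.mem_ofPred_eq, Set.mem_inter_iff]
    rw [h]
    refine MeasurableSet.inter ?_ ?_
    · exact measurableSet_le measurable_const (by fun_prop)
    · exact measurableSet_lt (by fun_prop) measurable_const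

theorem AA_four (W : Set ℝ) : AA W 4 = ∅ := by
  ext y
  simp only [AA, Set.mem_ofPred_eq, Set.mem_empty_iff_false, iff_false]
  rintro ⟨_, h, _⟩
  have := abs_nonneg y
  linarith

theorem sub (s : ℝ) (hs : 4 ≤ s) : XX s ⊆ Set.Ioo (-1 / 2) (1 / 2) ∧ TT s ⊆ Set.Ici 2 := by
  refine ⟨?_, TT_sub s⟩
  intro y hy
  have hs4 : 1 / s ≤ 1 / 4 := one_div_le_one_div_of_le (by norm_num) hs
  have h1 := hy.2
  have h2 : |y| < 1 / 2 := by linarith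
  rw [abs_lt] at h2
  constructor <;> linarith [h2.1, h2.2]

theorem bound (s₀ : ℝ) (hs : 4 ≤ s₀) : ∀ᶠ s in 𝓝[Set.Ici 4] s₀, TT s ⊆ Set.Iic ((2:ℝ) ^ (⌊s₀⌋₊ + 3)) := by
  have h1 : ∀ᶠ s in 𝓝[Set.Ici 4] s₀, s < s₀ + 1 :=
    nhdsWithin_le_nhds (Iio_mem_nhds (by linarith))
  filter_upwards [h1, self_mem_nhdsWithin] with s hs1 hs2
  have hs4 : 4 ≤ s := hs2
  have hfl : ⌊s⌋₊ ≤ ⌊s₀⌋₊ + 1 := by
    have h2 : s₀ < (⌊s₀⌋₊ : ℝ) + 1 := Nat.lt_floor_add_one s₀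
    have h3 : s < ((⌊s₀⌋₊ + 1 + 1 : ℕ) : ℝ) := by
      push_cast
      linarith
    have h4 : ⌊s⌋₊ < ⌊s₀⌋₊ + 1 + 1 := (Nat.floor_lt (by linarith)).mpr h3
    omega
  have hf1 : Int.fract s < 1 := Int.fract_lt_one s
  have h1 : (1:ℝ) ≤ (2:ℝ) ^ ⌊s⌋₊ := one_le_pow₀ (by norm_num)
  have h2 : (2:ℝ) ^ (⌊s⌋₊ + 1) = (2:ℝ) ^ ⌊s⌋₊ * 2 := pow_succ _ _
  have h3 : (2:ℝ) ^ (⌊s⌋₊ + 2) ≤ (2:ℝ) ^ (⌊s₀⌋₊ + 3) := pow_le_pow_right₀ (by norm_num) (by omega)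
  have h4 : (2:ℝ) ^ (⌊s⌋₊ + 2) = (2:ℝ) ^ ⌊s⌋₊ * 4 := by
    rw [pow_add]; norm_num
  intro y hy
  simp only [Set.mem_Iic]
  rcases hy with hy | hy
  · have := hy.2
    linarith
  · have := hy.2
    rw [h2] at this
    linarith

/-- clamp -/
def cl (k : ℤ) (s : ℝ) : ℝ := max 0 (min 1 (s - k))

theorem cl_cont (k : ℤ) : Continuous (cl k) := by
  unfold cl
  fun_prop

theorem cl_nonneg (k : ℤ) (s : ℝ) : 0 ≤ cl k s := le_max_left _ _

theorem cl_le_one (k : ℤ) (s : ℝ) : cl k s ≤ 1 := max_le (by norm_num) (min_le_left _ _)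

theorem cl_one (k : ℤ) (s : ℝ) (h : 1 ≤ s - k) : cl k s = 1 := by
  unfold cl
  rw [min_eq_left h]
  norm_num

theorem cl_zero (k : ℤ) (s : ℝ) (h : s - k ≤ 0) : cl k s = 0 := by
  unfold cl
  rw [min_eq_right (by linarith), max_eq_left h]

theorem cl_mid (k : ℤ) (s : ℝ) (h0 : 0 ≤ s - k) (h1 : s - k ≤ 1) : cl k s = s - k := by
  unfold cl
  rw [min_eq_right h1, max_eq_right h0]

theorem TT_iff (s y : ℝ) (hs : 0 ≤ s) : y ∈ TT s ↔
    ∃ k : ℕ, (2:ℝ) ^ k + 1 + cl k s ≤ y ∧ y < (2:ℝ) ^ k + 1 + cl ((k:ℤ) - 1) s := by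
  have hf : 0 ≤ Int.fract s := Int.fract_nonneg s
  have hf1 : Int.fract s < 1 := Int.fract_lt_one s
  have hfl := floor_add_fract' s hs
  have e1 : cl ((⌊s⌋₊ : ℕ) : ℤ) s = Int.fract s := by
    rw [cl_mid]
    · push_cast; linarith
    · push_cast; linarith
    · push_cast; linarith
  have e2 : cl (((⌊s⌋₊ : ℕ) : ℤ) - 1) s = 1 := by
    apply cl_one
    push_cast; linarith
  have e3 : cl (((⌊s⌋₊ + 1 : ℕ) : ℤ)) s = 0 := by
    apply cl_zero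
    push_cast; linarith
  have e4 : cl (((⌊s⌋₊ + 1 : ℕ) : ℤ) - 1) s = Int.fract s := by
    rw [← e1]
    congr 1
    push_cast
    ring
  constructor
  · rintro (h | h)
    · refine ⟨⌊s⌋₊, ?_, ?_⟩
      · rw [e1]; exact h.1
      · rw [e2]; have := h.2; linarith
    · refine ⟨⌊s⌋₊ + 1, ?_, ?_⟩
      · rw [e3]; have := h.1; linarith
      · rw [e4]; exact h.2
  · rintro ⟨k, h1, h2⟩
    rcases lt_trichotomy k ⌊s⌋₊ with hk | hk | hk
    · exfalso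
      have h3 : cl (k:ℤ) s = 1 := by
        apply cl_one
        have : ((k:ℕ):ℝ) + 1 ≤ (⌊s⌋₊ : ℝ) := by exact_mod_cast hk
        push_cast
        linarith
      have h4 := cl_le_one ((k:ℤ) - 1) s
      linarith
    · subst hk
      left
      rw [e1] at h1
      rw [e2] at h2
      exact ⟨h1, by linarith⟩
    · rcases Nat.lt_or_ge k (⌊s⌋₊ + 2) with hk2 | hk2
      · have hk3 : k = ⌊s⌋₊ + 1 := by omega
        subst hk3
        right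
        rw [e3] at h1
        rw [e4] at h2
        exact ⟨by linarith, h2⟩
      · exfalso
        have h3 : cl ((k:ℤ) - 1) s = 0 := by
          apply cl_zero
          have : ((⌊s⌋₊ : ℕ) : ℝ) + 2 ≤ (k:ℝ) := by exact_mod_cast hk2
          push_cast
          linarith
        have h4 := cl_nonneg (k:ℤ) s
        linarith

theorem ev_le {f : ℝ → ℝ} {s₀ y : ℝ} (hf : ContinuousAt f s₀) (h : f s₀ ≠ y) :
    ∀ᶠ s in 𝓝 s₀, (f s ≤ y ↔ f s₀ ≤ y) := by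
  rcases lt_or_gt_of_ne h with h1 | h1
  · filter_upwards [hf.eventually (Iio_mem_nhds h1)] with s hs
    exact ⟨fun _ => h1.le, fun _ => (le_of_lt hs)⟩
  · filter_upwards [hf.eventually (Ioi_mem_nhds h1)] with s hs
    exact ⟨fun h2 => absurd h2 (not_le.mpr hs), fun h2 => absurd h2 (not_le.mpr h1)⟩

theorem ev_lt {f : ℝ → ℝ} {s₀ y : ℝ} (hf : ContinuousAt f s₀) (h : f s₀ ≠ y) :
    ∀ᶠ s in 𝓝 s₀, (y < f s ↔ y < f s₀) := by
  filter_upwards [ev_le hf h] with s hs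
  rw [← not_le, ← not_le, hs]

/-- the exceptional points of the tile -/
def Bad (s₀ : ℝ) : Set ℝ :=
  (Set.range fun k : ℕ => (2:ℝ) ^ k + 1 + cl k s₀) ∪
  (Set.range fun k : ℕ => (2:ℝ) ^ k + 1 + cl ((k:ℤ) - 1) s₀)

theorem Bad_countable (s₀ : ℝ) : (Bad s₀).Countable :=
  (Set.countable_range _).union (Set.countable_range _)

theorem TT_loc (s₀ y : ℝ) (hs₀ : 4 ≤ s₀) (hy : y ∉ Bad s₀) :
    ∀ᶠ s in 𝓝[Set.Ici 4] s₀, (y ∈ TT s ↔ y ∈ TT s₀) := by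
  obtain ⟨N, hN⟩ := pow_unbounded_of_one_lt y (one_lt_two : (1:ℝ) < 2)
  have h1 : ∀ᶠ s in 𝓝 s₀, ∀ k ∈ Finset.range N,
      (((2:ℝ) ^ k + 1 + cl k s ≤ y ↔ (2:ℝ) ^ k + 1 + cl k s₀ ≤ y) ∧
       (y < (2:ℝ) ^ k + 1 + cl ((k:ℤ) - 1) s ↔ y < (2:ℝ) ^ k + 1 + cl ((k:ℤ) - 1) s₀)) := by
    rw [Finset.eventually_all]
    intro k _
    have hc1 : ContinuousAt (fun s => (2:ℝ) ^ k + 1 + cl k s) s₀ :=
      (continuous_const.add (cl_cont _)).continuousAt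
    have hc2 : ContinuousAt (fun s => (2:ℝ) ^ k + 1 + cl ((k:ℤ) - 1) s) s₀ :=
      (continuous_const.add (cl_cont _)).continuousAt
    exact (ev_le hc1 (fun h => hy (Or.inl ⟨k, h⟩))).and
      (ev_lt hc2 (fun h => hy (Or.inr ⟨k, h⟩)))
  filter_upwards [nhdsWithin_le_nhds h1, self_mem_nhdsWithin] with s h1 h2
  have hs4 : 4 ≤ s := h2
  rw [TT_iff s y (by linarith), TT_iff s₀ y (by linarith)]
  have hkN : ∀ (k : ℕ) (t : ℝ), (2:ℝ) ^ k + 1 + cl k t ≤ y → k ∈ Finset.range N := by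
    intro k t h
    have h3 := cl_nonneg (k:ℤ) t
    have h4 : (2:ℝ) ^ k < (2:ℝ) ^ N := by linarith
    have h5 : k < N := (pow_lt_pow_iff_right₀ (one_lt_two : (1:ℝ) < 2)).mp h4
    exact Finset.mem_range.mpr h5
  constructor
  · rintro ⟨k, hk1, hk2⟩
    have h3 := h1 k (hkN k s hk1)
    exact ⟨k, h3.1.mp hk1, h3.2.mp hk2⟩
  · rintro ⟨k, hk1, hk2⟩
    have h3 := h1 k (hkN k s₀ hk1)
    exact ⟨k, h3.1.mpr hk1, h3.2.mpr hk2⟩

theorem finite_j (y B : ℝ) : {j : ℤ | 2 ≤ (2:ℝ) ^ j * y ∧ (2:ℝ) ^ j * y ≤ B}.Finite := by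
  rcases le_or_gt y 0 with hy | hy
  · have : {j : ℤ | 2 ≤ (2:ℝ) ^ j * y ∧ (2:ℝ) ^ j * y ≤ B} = ∅ := by
      ext j
      simp only [Set.mem_ofPred_eq, Set.mem_empty_iff_false, iff_false]
      rintro ⟨h1, _⟩
      have hp : (0:ℝ) < (2:ℝ) ^ j := zpow_pos (by norm_num) j
      nlinarith
    rw [this]
    exact Set.finite_empty
  · obtain ⟨p, hp⟩ := pow_unbounded_of_one_lt y (one_lt_two : (1:ℝ) < 2)
    obtain ⟨q, hq⟩ := pow_unbounded_of_one_lt (B / y) (one_lt_two : (1:ℝ) < 2)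
    refine (Set.finite_Icc (-(p:ℤ)) (q:ℤ)).subset ?_
    rintro j ⟨h1, h2⟩
    have hj : (0:ℝ) < (2:ℝ) ^ j := zpow_pos (by norm_num) j
    constructor
    · have h3 : (2:ℝ) ^ (0:ℤ) < (2:ℝ) ^ (j + p) := by
        rw [zpow_add₀ (by norm_num : (2:ℝ) ≠ 0), zpow_natCast, zpow_zero]
        nlinarith
      have h4 := (zpow_lt_zpow_iff_right₀ (one_lt_two : (1:ℝ) < 2)).mp h3
      omega
    · have h3 : (2:ℝ) ^ j < (2:ℝ) ^ (q:ℤ) := by
        rw [zpow_natCast]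
        have h5 : (2:ℝ) ^ j ≤ B / y := by
          rw [le_div_iff₀ hy]; exact h2
        linarith
      have h4 := (zpow_lt_zpow_iff_right₀ (one_lt_two : (1:ℝ) < 2)).mp h3
      omega

theorem round_iff (c y : ℝ) : (∀ n : ℤ, c ≤ |y - n|) ↔ c ≤ |y - round y| :=
  ⟨fun h => h (round y), fun h n => h.trans (round_le y n)⟩

/-- local constancy at a finite parameter -/
theorem loc (W : Set ℝ) (s₀ : ℝ) (hs : 4 ≤ s₀) :
    ∀ᵐ y : ℝ, ∀ᶠ s in 𝓝[Set.Ici 4] s₀, (y ∈ AA W s ↔ y ∈ AA W s₀) ∧ (y ∈ XX s ↔ y ∈ XX s₀) ∧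
      (y ∈ TT s ↔ y ∈ TT s₀) := by
  have hs0 : 0 < s₀ := by linarith
  have c1 : ({1 / s₀, -(1 / s₀), 1 / (2 * s₀), -(1 / (2 * s₀)), s₀ - 4, -(s₀ - 4)} : Set ℝ).Countable :=
    Set.Finite.countable (by simp)
  have c2 : (⋃ n : ℤ, ({(n:ℝ) + 1 / s₀, (n:ℝ) - 1 / s₀} : Set ℝ)).Countable :=
    Set.countable_iUnion fun n => Set.Finite.countable (by simp)
  have c3 : (⋃ j : ℤ, ((fun y : ℝ => (2:ℝ) ^ j * y) ⁻¹' (Bad s₀))).Countable := by
    refine Set.countable_iUnion fun j => ?_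
    refine (Bad_countable s₀).preimage_of_injOn ?_
    intro a _ b _ hab
    have hp : (2:ℝ) ^ j ≠ 0 := zpow_ne_zero _ (by norm_num)
    exact mul_left_cancel₀ hp hab
  filter_upwards [c1.ae_notMem volume, c2.ae_notMem volume, c3.ae_notMem volume] with y h1 h2 h3
  simp only [Set.mem_insert_iff, Set.mem_singleton_iff, not_or] at h1
  obtain ⟨n1, n2, n3, n4, n5, n6⟩ := h1
  have hb : ∀ j : ℤ, (2:ℝ) ^ j * y ∉ Bad s₀ := by
    intro j hj
    exact h3 (Set.mem_iUnion.mpr ⟨j, hj⟩)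
  have hy0 : y ∉ Bad s₀ := by
    have := hb 0
    simpa using this
  have habs : ∀ c : ℝ, y ≠ c → y ≠ -c → c ≠ |y| := by
    intro c h1 h2 h3
    rcases abs_choice y with h | h
    · rw [h] at h3; exact h1 h3.symm
    · rw [h] at h3; apply h2; linarith
  -- XX
  have hX1 : ∀ᶠ s in 𝓝 s₀, (1 / (2 * s) ≤ |y| ↔ 1 / (2 * s₀) ≤ |y|) := by
    apply ev_le (f := fun s => 1 / (2 * s))
    · exact ContinuousAt.div continuousAt_const (by fun_prop) (by positivity)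
    · exact habs _ n3 n4
  have hX2 : ∀ᶠ s in 𝓝 s₀, (|y| < 1 / s ↔ |y| < 1 / s₀) := by
    apply ev_lt (f := fun s => 1 / s)
    · exact ContinuousAt.div continuousAt_const (by fun_prop) (by positivity)
    · exact habs _ n1 n2
  have hA1 : ∀ᶠ s in 𝓝 s₀, (|y| < s - 4 ↔ |y| < s₀ - 4) := by
    apply ev_lt (f := fun s => s - 4)
    · fun_prop
    · exact habs _ n5 n6
  have hA2 : ∀ᶠ s in 𝓝 s₀, (1 / s ≤ |y - round y| ↔ 1 / s₀ ≤ |y - round y|) := by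
    apply ev_le (f := fun s => 1 / s)
    · exact ContinuousAt.div continuousAt_const (by fun_prop) (by positivity)
    · intro h
      apply h2
      refine Set.mem_iUnion.mpr ⟨round y, ?_⟩
      simp only [Set.mem_insert_iff, Set.mem_singleton_iff]
      rcases abs_choice (y - round y) with h4 | h4
      · rw [h4] at h; left; linarith
      · rw [h4] at h; right; linarith
  -- dyadic orbits
  have hfin := finite_j y ((2:ℝ) ^ (⌊s₀⌋₊ + 3))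
  have hJ : ∀ᶠ s in 𝓝[Set.Ici 4] s₀, ∀ j ∈ {j : ℤ | 2 ≤ (2:ℝ) ^ j * y ∧
      (2:ℝ) ^ j * y ≤ (2:ℝ) ^ (⌊s₀⌋₊ + 3)}, ((2:ℝ) ^ j * y ∈ TT s ↔ (2:ℝ) ^ j * y ∈ TT s₀) := by
    rw [Filter.eventually_all_finite hfin]
    intro j _
    exact TT_loc s₀ _ hs (hb j)
  have hB := bound s₀ hs
  have hB0 : TT s₀ ⊆ Set.Iic ((2:ℝ) ^ (⌊s₀⌋₊ + 3)) := by
    have := hB.self_of_nhdsWithin (show s₀ ∈ Set.Ici 4 from hs)
    exact this
  filter_upwards [nhdsWithin_le_nhds hX1, nhdsWithin_le_nhds hX2, nhdsWithin_le_nhds hA1,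
    nhdsWithin_le_nhds hA2, hJ, hB, TT_loc s₀ y hs hy0] with s e1 e2 e3 e4 e5 e6 e7
  refine ⟨?_, ?_, e7⟩
  · have hall : ∀ j : ℤ, ((2:ℝ) ^ j * y ∈ TT s ↔ (2:ℝ) ^ j * y ∈ TT s₀) := by
      intro j
      by_cases hj : 2 ≤ (2:ℝ) ^ j * y ∧ (2:ℝ) ^ j * y ≤ (2:ℝ) ^ (⌊s₀⌋₊ + 3)
      · exact e5 j hj
      · constructor
        · intro h; exact absurd ⟨TT_sub s h, e6 h⟩ hj
        · intro h; exact absurd ⟨TT_sub s₀ h, hB0 h⟩ hj
    simp only [AA, Set.mem_ofPred_eq]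
    rw [round_iff, round_iff, e3, e4]
    simp only [hall]
  · simp only [XX, Set.mem_ofPred_eq]
    rw [e1, e2]

theorem gap (y : ℝ) (hy : 0 < y) (hne : ∀ i : ℤ, y ≠ (2:ℝ) ^ i) :
    ∃ δ : ℝ, 0 < δ ∧ ∀ i : ℤ, 1 ≤ (2:ℝ) ^ i * y → 1 + δ ≤ (2:ℝ) ^ i * y := by
  obtain ⟨i₀, ⟨h1, h2⟩, _⟩ := exu y hy
  have h3 : (1:ℝ) ≠ (2:ℝ) ^ i₀ * y := by
    intro h
    apply hne (-i₀)
    rw [zpow_neg]
    have hp : (2:ℝ) ^ i₀ ≠ 0 := zpow_ne_zero _ (by norm_num)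
    field_simp
    linarith
  have h4 : 1 < (2:ℝ) ^ i₀ * y := lt_of_le_of_ne h1 h3
  refine ⟨(2:ℝ) ^ i₀ * y - 1, by linarith, ?_⟩
  intro i hi
  have hpos : (0:ℝ) < (2:ℝ) ^ i₀ * y := by linarith
  have he : (2:ℝ) ^ (i - i₀) * ((2:ℝ) ^ i₀ * y) = (2:ℝ) ^ i * y := by
    rw [← mul_assoc, ← zpow_add₀ (by norm_num : (2:ℝ) ≠ 0)]
    congr 2
    ring
  rcases zpow_trich (i - i₀) _ hpos with h | h | h
  · have : i = i₀ := by omega
    subst this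
    linarith
  · rw [he] at h
    linarith
  · rw [he] at h
    linarith

/-- at infinity everything is retained -/
theorem atInf (W : Set ℝ) : ∀ᵐ y : ℝ, y ∈ W → ∀ᶠ s in atTop, y ∈ AA W s := by
  have c1 : (Set.range fun n : ℤ => (n:ℝ)).Countable := Set.countable_range _
  have c2 : (Set.range fun n : ℤ => (2:ℝ) ^ n).Countable := Set.countable_range _
  filter_upwards [c1.ae_notMem volume, c2.ae_notMem volume] with y h1 h2 hyW
  have hd : 0 < |y - round y| := by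
    rw [abs_pos]
    intro h
    exact h1 ⟨round y, by simp only; linarith⟩
  have e1 : ∀ᶠ s : ℝ in atTop, |y| + 4 < s := eventually_gt_atTop _
  have e2 : ∀ᶠ s : ℝ in atTop, 1 / |y - round y| ≤ s := eventually_ge_atTop _
  have e3 : ∀ᶠ s : ℝ in atTop, ∀ j : ℤ, (2:ℝ) ^ j * y ∉ TT s := by
    rcases le_or_gt y 0 with hy | hy
    · filter_upwards with s j hj
      have h3 := TT_sub s hj
      simp only [Set.mem_Ici] at h3
      have hp : (0:ℝ) < (2:ℝ) ^ j := zpow_pos (by norm_num) j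
      nlinarith
    · obtain ⟨δ, hδ, hgap⟩ := gap y hy (fun i h => h2 ⟨i, h.symm⟩)
      obtain ⟨N, hN⟩ := pow_unbounded_of_one_lt (2 / δ) (one_lt_two : (1:ℝ) < 2)
      filter_upwards [eventually_ge_atTop (N:ℝ)] with s hsN j hj
      have hs0 : 0 ≤ s := le_trans (Nat.cast_nonneg N) hsN
      have hNfl : N ≤ ⌊s⌋₊ := Nat.le_floor hsN
      -- the point lies in [2^k + 1, 2^k + 2) with k >= N
      have key : ∀ k : ℕ, N ≤ k → (2:ℝ) ^ k + 1 ≤ (2:ℝ) ^ j * y → (2:ℝ) ^ j * y < (2:ℝ) ^ k + 2 →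
          False := by
        intro k hk a1 a2
        have hp : (0:ℝ) < (2:ℝ) ^ k := by positivity
        have he : (2:ℝ) ^ k * ((2:ℝ) ^ (j - k) * y) = (2:ℝ) ^ j * y := by
          rw [← mul_assoc, ← zpow_natCast, ← zpow_add₀ (by norm_num : (2:ℝ) ≠ 0)]
          congr 2
          ring
        have b1 : 1 ≤ (2:ℝ) ^ (j - k) * y := by
          by_contra hcon
          push Not at hcon
          nlinarith
        have b2 := hgap (j - k) b1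
        have b3 : (2:ℝ) ^ N ≤ (2:ℝ) ^ k := pow_le_pow_right₀ (by norm_num) hk
        have b4 : 2 < δ * (2:ℝ) ^ k := by
          have : 2 / δ < (2:ℝ) ^ k := lt_of_lt_of_le hN b3
          rw [div_lt_iff₀ hδ] at this
          linarith
        nlinarith
      have hf : 0 ≤ Int.fract s := Int.fract_nonneg s
      have hf1 : Int.fract s < 1 := Int.fract_lt_one s
      rcases hj with hj | hj
      · exact key ⌊s⌋₊ hNfl (by linarith [hj.1]) hj.2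
      · exact key (⌊s⌋₊ + 1) (by omega) hj.1 (by linarith [hj.2])
  filter_upwards [e1, e2, e3] with s a1 a2 a3
  refine ⟨hyW, by linarith, ?_, a3⟩
  rw [round_iff]
  have hs0 : 0 < s := by
    have := abs_nonneg y
    linarith
  rw [div_le_iff₀ hs0]
  rw [div_le_iff₀ hd] at a2
  linarith

end Pool.Agent.Helper152.WavFam
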