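import Pool.Agent.Helper152.WavDefs

set_option autoImplicit false
open MeasureTheory Filter Topology
open scoped ENNReal

namespace Pool.Agent.Helper152.WavTile

open Pool.Agent.Helper152.Wav
open Pool.Agent.Helper152.Lar (w)







theorem dd (j k : ℤ) (x : ℝ) : (2:ℝ) ^ j * ((2:ℝ) ^ k * x) = (2:ℝ) ^ (j + k) * x := by
  rw [zpow_add₀ two_ne_zero]; ring

theorem F_sub (A X T : Set ℝ) (k : ℕ) : F A X T k ⊆ X := by
  cases k with
  | zero => intro x hx; exact hx.1
  | succ k => intro x hx; exact hx.1

theorem X1_sub (A X T : Set ℝ) : X1 A X T ⊆ X := by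
  intro x hx
  obtain ⟨k, hk⟩ := Set.mem_iUnion.mp hx
  exact F_sub A X T k hk

theorem X1_orb (A X T : Set ℝ) (h : Adm A X T) (x : ℝ) (hx : x ∈ X1 A X T) (j : ℤ) :
    (2:ℝ) ^ j * x ∉ A := by
  obtain ⟨k, hk⟩ := Set.mem_iUnion.mp hx
  cases k with
  | zero => exact hk.2.1 j
  | succ k =>
    obtain ⟨-, i, hi, -⟩ := hk
    have := h.t3 _ (j - i) hi
    rw [dd] at this
    rwa [sub_add_cancel] at this

theorem tile (A X T : Set ℝ) (h : Adm A X T) :
    (∀ x : ℝ, ∃! k : ℤ, x + k ∈ U A X T) ∧
    (∀ x : ℝ, x ≠ 0 → ∃! j : ℤ, (2:ℝ) ^ j * x ∈ U A X T) := by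
  constructor
  · intro x
    have sh : ∀ k k' : ℤ, (x + k) + ((k' - k : ℤ) : ℝ) = x + k' := by
      intro k k'; push_cast; ring
    by_cases ha : ∃ k : ℤ, x + k ∈ A
    · obtain ⟨k, hk⟩ := ha
      refine ⟨k, Or.inl (Or.inl hk), ?_⟩
      rintro k' ((hk' | hk') | hk')
      · have := h.a1 _ (k' - k) hk (by rw [sh]; exact hk')
        omega
      · exact absurd hk (by
          have := h.x3 _ (k - k') (X1_sub A X T hk')
          rwa [sh] at this)
      · exact absurd hk (by
          have := hk'.2.1 (k - k')
          rwa [sh] at this)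
    · by_cases hb : ∃ k : ℤ, x + k ∈ X1 A X T
      · obtain ⟨k, hk⟩ := hb
        refine ⟨k, Or.inl (Or.inr hk), ?_⟩
        rintro k' ((hk' | hk') | hk')
        · exact absurd ⟨k', hk'⟩ ha
        · have := h.x2 _ (k' - k) (X1_sub A X T hk) (by rw [sh]; exact X1_sub A X T hk')
          omega
        · exact absurd hk (by
            have := hk'.2.2 (k - k')
            rwa [sh] at this)
      · obtain ⟨k, hk, hku⟩ := h.t1 x
        push Not at ha hb
        refine ⟨k, Or.inr ⟨hk, ?_, ?_⟩, ?_⟩
        · intro n
          have := ha (k + n)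
          push_cast at this
          rwa [← add_assoc] at this
        · intro n
          have := hb (k + n)
          push_cast at this
          rwa [← add_assoc] at this
        · rintro k' ((hk' | hk') | hk')
          · exact absurd hk' (ha k')
          · exact absurd hk' (hb k')
          · exact hku k' hk'.1
  · intro x hx
    by_cases ha : ∃ j : ℤ, (2:ℝ) ^ j * x ∈ A
    · obtain ⟨j, hj⟩ := ha
      refine ⟨j, Or.inl (Or.inl hj), ?_⟩
      rintro j' ((hj' | hj') | hj')
      · have := h.a2 _ (j' - j) hj (by rw [dd, sub_add_cancel]; exact hj')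
        omega
      · exact absurd hj (by
          have := X1_orb A X T h _ hj' (j - j')
          rwa [dd, sub_add_cancel] at this)
      · exact absurd hj (by
          have := h.t3 _ (j - j') hj'.1
          rwa [dd, sub_add_cancel] at this)
    · push Not at ha
      obtain ⟨j0, hj0, hj0u⟩ := h.x1 x hx
      by_cases hT : ∃ i : ℤ, (2:ℝ) ^ i * x ∈ T
      · obtain ⟨i, hi⟩ := hT
        have hiu : ∀ i' : ℤ, (2:ℝ) ^ i' * x ∈ T → i' = i := by
          intro i' hi'
          have := h.t2 _ (i' - i) hi (by rw [dd, sub_add_cancel]; exact hi')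
          omega
        by_cases hY : (2:ℝ) ^ i * x ∈ Y1 A X T
        · refine ⟨i, Or.inr hY, ?_⟩
          rintro j' ((hj' | hj') | hj')
          · exact absurd hj' (ha j')
          · exfalso
            obtain ⟨k, hk⟩ := Set.mem_iUnion.mp hj'
            cases k with
            | zero =>
              obtain ⟨n, hn⟩ := hk.2.2 (i - j') (by rw [dd, sub_add_cancel]; exact hi)
              rw [dd, sub_add_cancel] at hn
              exact hY.2.1 n hn
            | succ k =>
              obtain ⟨-, l, hl, n, hn⟩ := hk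
              rw [dd] at hl hn
              have := hiu _ hl
              rw [this] at hn
              exact hY.2.2 n (Set.mem_iUnion.mpr ⟨k, hn⟩)
          · exact hiu j' hj'.1
        · have hz : (2:ℝ) ^ j0 * x ∈ X1 A X T := by
            by_cases hA : ∃ n : ℤ, (2:ℝ) ^ i * x + n ∈ A
            · refine Set.mem_iUnion.mpr ⟨0, hj0, ?_, ?_⟩
              · intro j
                rw [dd]; exact ha _
              · intro j hj
                rw [dd] at hj ⊢
                rw [hiu _ hj]; exact hA
            · push Not at hA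
              have : ∃ n : ℤ, (2:ℝ) ^ i * x + n ∈ X1 A X T := by
                by_contra hc
                push Not at hc
                exact hY ⟨hi, hA, hc⟩
              obtain ⟨n, hn⟩ := this
              obtain ⟨k, hk⟩ := Set.mem_iUnion.mp hn
              refine Set.mem_iUnion.mpr ⟨k + 1, hj0, i - j0, ?_, n, ?_⟩
              · rw [dd, sub_add_cancel]; exact hi
              · rw [dd, sub_add_cancel]; exact hk
          refine ⟨j0, Or.inl (Or.inr hz), ?_⟩
          rintro j' ((hj' | hj') | hj')
          · exact absurd hj' (ha j')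
          · exact hj0u j' (X1_sub A X T hj')
          · have := hiu j' hj'.1
            rw [this] at hj'
            exact absurd hj' hY
      · push Not at hT
        have hz : (2:ℝ) ^ j0 * x ∈ X1 A X T := by
          refine Set.mem_iUnion.mpr ⟨0, hj0, ?_, ?_⟩
          · intro j
            rw [dd]; exact ha _
          · intro j hj
            rw [dd] at hj
            exact absurd hj (hT _)
        refine ⟨j0, Or.inl (Or.inr hz), ?_⟩
        rintro j' ((hj' | hj') | hj')
        · exact absurd hj' (ha j')
        · exact hj0u j' (X1_sub A X T hj')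
        · exact absurd hj'.1 (hT j')

theorem meas_dil {A : Set ℝ} (hA : MeasurableSet A) (j : ℤ) :
    Measurable fun x : ℝ => (2:ℝ) ^ j * x ∈ A :=
  hA.mem.comp (measurable_const_mul _)

theorem meas_dt {A : Set ℝ} (hA : MeasurableSet A) (j n : ℤ) :
    Measurable fun x : ℝ => (2:ℝ) ^ j * x + n ∈ A :=
  hA.mem.comp ((measurable_const_mul _).add_const _)

theorem meas_tr {A : Set ℝ} (hA : MeasurableSet A) (n : ℤ) :
    Measurable fun x : ℝ => x + n ∈ A :=
  hA.mem.comp (measurable_id.add_const _)

theorem measurableSet_F (A X T : Set ℝ) (hA : MeasurableSet A) (hX : MeasurableSet X)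
    (hT : MeasurableSet T) (k : ℕ) : MeasurableSet (F A X T k) := by
  induction k with
  | zero =>
    show MeasurableSet {x | x ∈ X ∧ (∀ j : ℤ, (2:ℝ) ^ j * x ∉ A) ∧
      (∀ j : ℤ, (2:ℝ) ^ j * x ∈ T → ∃ n : ℤ, (2:ℝ) ^ j * x + n ∈ A)}
    rw [measurableSet_setOfPred]
    refine hX.mem.and (Measurable.and ?_ ?_)
    · exact Measurable.forall fun j => (meas_dil hA j).not
    · exact Measurable.forall fun j => (meas_dil hT j).imp (Measurable.exists fun n => meas_dt hA j n)
  | succ k ih =>
    show MeasurableSet {x | x ∈ X ∧ ∃ j : ℤ, (2:ℝ) ^ j * x ∈ T ∧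
      ∃ n : ℤ, (2:ℝ) ^ j * x + n ∈ F A X T k}
    rw [measurableSet_setOfPred]
    refine hX.mem.and (Measurable.exists fun j => (meas_dil hT j).and
      (Measurable.exists fun n => meas_dt ih j n))

theorem measurableSet_U (A X T : Set ℝ) (hA : MeasurableSet A) (hX : MeasurableSet X)
    (hT : MeasurableSet T) : MeasurableSet (U A X T) := by
  have h1 : MeasurableSet (X1 A X T) := MeasurableSet.iUnion fun k => measurableSet_F A X T hA hX hT k
  refine (hA.union h1).union ?_
  show MeasurableSet {y | y ∈ T ∧ (∀ n : ℤ, y + n ∉ A) ∧ (∀ n : ℤ, y + n ∉ X1 A X T)}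
  rw [measurableSet_setOfPred]
  refine hT.mem.and (Measurable.and ?_ ?_)
  · exact Measurable.forall fun n => (meas_tr hA n).not
  · exact Measurable.forall fun n => (meas_tr h1 n).not

end Pool.Agent.Helper152.WavTile
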