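import Pool.Agent.Helper152.WavPhase
import Pool.Agent.Helper152.WavTile
import Pool.Agent.Helper152.WavCont
import Pool.Agent.Helper152.WavFam

set_option autoImplicit false
open MeasureTheory Filter Topology
open scoped ENNReal

namespace Pool.Agent.Helper152.WavMsf

open Pool.Agent.Helper152.Wav
open Pool.Agent.Helper152.Lar (w ae_orbit)

/-- the part of W where uniqueness is exact -/
def Ex (W : Set ℝ) : Set ℝ :=
  {y | y ∈ W ∧ (∀ n : ℤ, y + n ∈ W → n = 0) ∧ ∀ j : ℤ, (2:ℝ) ^ j * y ∈ W → j = 0}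

theorem Ex_meas (W : Set ℝ) (hW : MeasurableSet W) : MeasurableSet (Ex W) := by
  have : Ex W = W ∩ ((⋂ n : ℤ, {y | y + n ∈ W → n = 0}) ∩ ⋂ j : ℤ, {y | (2:ℝ) ^ j * y ∈ W → j = 0}) := by
    ext y; simp [Ex]; tauto
  rw [this]
  refine hW.inter ((MeasurableSet.iInter fun n => ?_).inter (MeasurableSet.iInter fun j => ?_))
  · by_cases hn : n = 0
    · simp [hn]
    · have : {y : ℝ | y + n ∈ W → n = 0} = ((fun y : ℝ => y + n) ⁻¹' W)ᶜ := by
        ext y; simp [hn]
      rw [this]
      exact ((by fun_prop : Measurable fun y : ℝ => y + n) hW).compl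
  · by_cases hn : j = 0
    · simp [hn]
    · have : {y : ℝ | (2:ℝ) ^ j * y ∈ W → j = 0} = ((fun y : ℝ => (2:ℝ) ^ j * y) ⁻¹' W)ᶜ := by
        ext y; simp [hn]
      rw [this]
      exact ((by fun_prop : Measurable fun y : ℝ => (2:ℝ) ^ j * y) hW).compl

theorem Ex_T (W : Set ℝ) : TInj (Ex W) := fun _ n h h' => h.2.1 n h'.1
theorem Ex_D (W : Set ℝ) : DInj (Ex W) := fun _ j h h' => h.2.2 j h'.1

theorem Ex_ae (W : Set ℝ) (h1 : ∀ᵐ x : ℝ, ∃! k : ℤ, x + (k : ℝ) ∈ W)
    (h2 : ∀ᵐ x : ℝ, ∃! j : ℤ, ((2:ℝ) ^ j) * x ∈ W) : ∀ᵐ y : ℝ, y ∈ Ex W ↔ y ∈ W := by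
  filter_upwards [h1, h2] with y hy1 hy2
  refine ⟨fun h => h.1, fun h => ⟨h, fun n hn => ?_, fun j hj => ?_⟩⟩
  · exact hy1.unique hn (by simpa using h)
  · exact hy2.unique hj (by simpa using h)

theorem ae_orb {P : ℝ → Prop} (h : ∀ᵐ x : ℝ, P x) :
    (∀ᵐ x : ℝ, ∀ k : ℤ, P (x + k)) ∧ (∀ᵐ x : ℝ, ∀ j : ℤ, P ((2:ℝ) ^ j * x)) := by
  have := ae_orbit h
  constructor
  · filter_upwards [this] with x hx k
    have := hx 0 k 0
    simpa using this
  · filter_upwards [this] with x hx k
    have := hx k 0 0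
    simpa using this

theorem msf_path (W : Set ℝ) (hWm : MeasurableSet W)
    (h1 : ∀ᵐ x : ℝ, ∃! k : ℤ, x + (k : ℝ) ∈ W)
    (h2 : ∀ᵐ x : ℝ, ∃! j : ℤ, ((2:ℝ) ^ j) * x ∈ W) :
    Conn ((U ∅ (XX 4) (TT 4)).indicator (fun _ => (1:ℂ))) (W.indicator (fun _ => (1:ℂ))) := by
  classical
  have hE := Ex_ae W h1 h2
  have hG1 : Good ((Ex W).indicator (fun _ => (1:ℂ))) := by
    apply WavPhase.good_indicator
    · filter_upwards [h1, (ae_orb hE).1] with x hx hx'
      simpa only [hx'] using hx
    · filter_upwards [h2, (ae_orb hE).2] with x hx hx'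
      simpa only [hx'] using hx
  have hadm : ∀ s : ℝ, 4 ≤ s → Adm (AA (Ex W) s) (XX s) (TT s) := fun s hs =>
    WavFam.adm (Ex W) (Ex_T W) (Ex_D W) s hs
  have hms := fun s : ℝ => WavFam.measurable_sets (Ex W) (Ex_meas W hWm) s
  have hG : ∀ s : ℝ, 4 ≤ s → Good ((U (AA (Ex W) s) (XX s) (TT s)).indicator (fun _ => (1:ℂ))) := by
    intro s hs
    have ht := WavTile.tile _ _ _ (hadm s hs)
    apply WavPhase.good_indicator
    · exact Eventually.of_forall ht.1
    · have h0 : ∀ᵐ x : ℝ, x ≠ 0 := by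
        rw [ae_iff]; simp
      filter_upwards [h0] with x hx
      exact ht.2 x hx
  set sp : ℝ → ℝ := fun t => 4 + t / (1 - t) with hsp
  have hsp4 : ∀ t : ℝ, 0 ≤ t → t < 1 → 4 ≤ sp t := by
    intro t h0 h1
    have : 0 ≤ t / (1 - t) := div_nonneg h0 (by linarith)
    simp only [hsp]; linarith
  refine ⟨fun t => if t < 1 then (U (AA (Ex W) (sp t)) (XX (sp t)) (TT (sp t))).indicator (fun _ => (1:ℂ))
    else (Ex W).indicator (fun _ => (1:ℂ)), ?_, ?_, ?_, ?_⟩
  · intro t ht
    by_cases h : t < 1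
    · simp only [h, if_true]
      refine ⟨?_, hG _ (hsp4 t ht.1 h)⟩
      exact measurable_const.indicator (WavTile.measurableSet_U _ _ _ (hms _).1 (hms _).2.1 (hms _).2.2)
    · simp only [h, if_false]
      exact ⟨measurable_const.indicator (Ex_meas W hWm), hG1⟩
  · have : sp 0 = 4 := by simp [hsp]
    simp only [zero_lt_one, if_true, this, WavFam.AA_four]
    rfl
  · simp only [lt_irrefl, if_false]
    filter_upwards [hE] with y hy
    simp only [Set.indicator]
    by_cases h : y ∈ W
    · simp [h, hy.2 h]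
    · have h' : y ∉ Ex W := fun h' => h (hy.1 h')
      simp [h, h']
  · intro t₀ ht₀
    by_cases h : t₀ < 1
    · have hs4 := hsp4 t₀ ht₀.1 h
      have hc := WavCont.cont (Set.Ici 4) (sp t₀) hs4 (Ex W) (Ex_T W) (Ex_D W)
        (AA (Ex W)) XX TT (fun s hs => hadm s hs) (fun s y hy => hy.1) (hms _).2.1 (hms _).2.2
        (fun s hs => (WavFam.sub s hs).1) (fun s hs => (WavFam.sub s hs).2) _
        (WavFam.bound _ hs4) (WavFam.loc (Ex W) _ hs4)
      filter_upwards [hc] with y hy hne
      have hmem : y ∈ U (AA (Ex W) (sp t₀)) (XX (sp t₀)) (TT (sp t₀)) := by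
        by_contra hcon
        apply hne
        simp [h, hcon]
      have hev := hy hmem
      have hcont : Tendsto sp (𝓝[Set.Icc 0 1] t₀) (𝓝[Set.Ici 4] (sp t₀)) := by
        rw [tendsto_nhdsWithin_iff]
        constructor
        · have : ContinuousAt sp t₀ := by
            simp only [hsp]
            have : (1 - t₀) ≠ 0 := by linarith
            fun_prop (disch := assumption)
          exact this.tendsto.mono_left nhdsWithin_le_nhds
        · have h3 : ∀ᶠ t in 𝓝[Set.Icc 0 1] t₀, t < 1 :=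
            nhdsWithin_le_nhds (Iio_mem_nhds h)
          filter_upwards [h3, self_mem_nhdsWithin] with t ht ht'
          exact hsp4 t ht'.1 ht
      have h4 := hcont.eventually hev
      have h3 : ∀ᶠ t in 𝓝[Set.Icc 0 1] t₀, t < 1 := nhdsWithin_le_nhds (Iio_mem_nhds h)
      apply ContinuousWithinAt.congr_of_eventuallyEq (f := fun _ => (1:ℂ)) continuousWithinAt_const
      · filter_upwards [h4, h3] with t ht ht'
        simp [ht', ht]
      · simp [h, hmem]
    · have ht1 : t₀ = 1 := le_antisymm ht₀.2 (not_lt.1 h)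
      subst ht1
      filter_upwards [WavFam.atInf (Ex W)] with y hy hne
      have hmem : y ∈ Ex W := by
        by_contra hcon
        apply hne
        simp [hcon]
      have hev := hy hmem
      apply ContinuousWithinAt.congr_of_eventuallyEq (f := fun _ => (1:ℂ)) continuousWithinAt_const
      · have hsplit : 𝓝[Set.Icc 0 1] (1:ℝ) ≤ 𝓝[Set.Iio 1] 1 ⊔ pure 1 := by
          have : Set.Icc (0:ℝ) 1 ⊆ Set.Iio 1 ∪ {1} := by
            intro x hx
            rcases lt_or_eq_of_le hx.2 with h' | h'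
            · left; exact h'
            · right; exact h'
          refine (nhdsWithin_mono _ this).trans ?_
          rw [nhdsWithin_union, nhdsWithin_singleton]
        apply hsplit
        rw [mem_sup]
        constructor
        · have ht : Tendsto sp (𝓝[Set.Iio 1] 1) atTop := by
            simp only [hsp]
            apply tendsto_atTop_add_const_left
            have h5 : Tendsto (fun t : ℝ => 1 - t) (𝓝[Set.Iio 1] 1) (𝓝[Set.Ioi 0] 0) := by
              rw [tendsto_nhdsWithin_iff]
              constructor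
              · have : Tendsto (fun t : ℝ => 1 - t) (𝓝 1) (𝓝 (1 - 1)) :=
                  (continuous_const.sub continuous_id).tendsto 1
                rw [sub_self] at this
                exact this.mono_left nhdsWithin_le_nhds
              · filter_upwards [self_mem_nhdsWithin] with t ht
                simp only [Set.mem_Iio] at ht
                simp only [Set.mem_Ioi]; linarith
            have h6 : Tendsto (fun t : ℝ => (1 - t)⁻¹) (𝓝[Set.Iio 1] 1) atTop :=
              tendsto_inv_nhdsGT_zero.comp h5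
            have h7 : Tendsto (fun t : ℝ => t) (𝓝[Set.Iio 1] 1) (𝓝 1) :=
              tendsto_id.mono_left nhdsWithin_le_nhds
            have := h7.pos_mul_atTop one_pos h6
            simpa [div_eq_mul_inv] using this
          have h8 := ht.eventually hev
          filter_upwards [h8, self_mem_nhdsWithin] with t ht ht'
          have ht'' : t < 1 := ht'
          have : y ∈ U (AA (Ex W) (sp t)) (XX (sp t)) (TT (sp t)) := Or.inl (Or.inl ht)
          simp [ht'', this]
        · simp [hmem]
      · simp [hmem]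

end Pool.Agent.Helper152.WavMsf
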