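import Pool.Agent.Helper152.WavDefs

set_option autoImplicit false
open MeasureTheory Filter Topology
open scoped ENNReal

namespace Pool.Agent.Helper152.WavInit

open Pool.Agent.Helper152.Wav
open Pool.Agent.Helper152.Lar (w)








theorem ae_affine1 {P : ℝ → Prop} (h : ∀ᵐ x : ℝ, P x) (a d : ℝ) (ha : a ≠ 0) :
    ∀ᵐ x : ℝ, P (a * x + d) := by
  rw [ae_iff] at h ⊢
  have h1 : volume ((fun x => x + d) ⁻¹' {x | ¬ P x}) = 0 := by
    rw [measure_preimage_add_right]; exact h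
  have h2 := Real.volume_preimage_mul_left ha ((fun x => x + d) ⁻¹' {x | ¬ P x})
  rw [h1, mul_zero] at h2
  exact h2

theorem ae_orbit1 {P : ℝ → Prop} (h : ∀ᵐ x : ℝ, P x) :
    ∀ᵐ x : ℝ, ∀ a b c : ℤ, P ((2:ℝ) ^ a * x + b * (2:ℝ) ^ c) := by
  rw [ae_all_iff]; intro a
  rw [ae_all_iff]; intro b
  rw [ae_all_iff]; intro c
  exact ae_affine1 h _ _ (by positivity)

theorem tsum_neg_nat1 (φ : ℝ → ℂ) {x : ℝ} (hx : ∀ i : ℕ, 1 ≤ i → φ ((2:ℝ) ^ i * x) = 0) :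
    ∑' j : ℕ, ‖φ (x / 2 ^ j)‖ₑ ^ 2 = ∑' j : ℤ, ‖φ ((2:ℝ) ^ j * x)‖ₑ ^ 2 := by
  have hinj : Function.Injective (fun j : ℕ => -(j:ℤ)) := by
    intro a b h; simpa using h
  rw [← hinj.tsum_eq (f := fun j : ℤ => ‖φ ((2:ℝ) ^ j * x)‖ₑ ^ 2)]
  · refine tsum_congr fun j => ?_
    rw [zpow_neg, zpow_natCast, div_eq_inv_mul]
  · intro j hj
    rw [Function.mem_support] at hj
    by_contra hc
    apply hj
    have hj0 : 0 < j := by
      by_contra h0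
      exact hc ⟨(-j).toNat, by simp only; omega⟩
    have := hx j.toNat (by omega)
    have h2 : (2:ℝ) ^ j.toNat = (2:ℝ) ^ j := by
      rw [← zpow_natCast, Int.toNat_of_nonneg hj0.le]
    rw [h2] at this
    simp [this]

theorem NN_per1 (Z : Set ℝ) (hper : ∀ (x : ℝ) (n : ℤ), x + n ∈ Z ↔ x ∈ Z) (ξ : ℝ) (j : ℕ) (r m : ℤ) :
    NN Z ξ j (r + 2 ^ j * m) ↔ NN Z ξ j r := by
  unfold NN
  refine forall_congr' fun i => forall_congr' fun hi => forall_congr' fun hij => ?_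
  have e : (ξ + ((r + 2 ^ j * m : ℤ) : ℝ)) / 2 ^ i = (ξ + r) / 2 ^ i + ((2 ^ (j - i) * m : ℤ) : ℝ) := by
    have : (2:ℝ) ^ j = 2 ^ (j - i) * 2 ^ i := by rw [← pow_add]; congr 1; omega
    push_cast
    rw [this]
    field_simp
    ring
  rw [e, hper]

theorem a0_key1 (Z : Set ℝ) (hper : ∀ (x : ℝ) (n : ℤ), x + n ∈ Z ↔ x ∈ Z) (φ : ℝ → ℂ)
    (hZ0 : ∀ x ∈ Z, ∀ i : ℕ, 1 ≤ i → φ ((2:ℝ) ^ i * x) = 0) (ξ : ℝ) (j : ℕ) (r m : ℤ)
    (hN : NN Z ξ j r) : a0 Z φ ξ (r + 2 ^ j * m) j = φ ((ξ + r) / 2 ^ j + m) := by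
  have e : (ξ + ((r + 2 ^ j * m : ℤ) : ℝ)) / 2 ^ j = (ξ + r) / 2 ^ j + m := by
    push_cast
    field_simp
    ring
  by_cases hP : PP Z ξ (r + 2 ^ j * m)
  · unfold a0
    rw [if_pos hP, e]
  · unfold a0
    rw [if_neg hP, ← e]
    unfold PP at hP
    push Not at hP
    obtain ⟨i, hi, hiZ⟩ := hP
    have hij : j < i := by
      by_contra hc
      exact (NN_per1 Z hper ξ j r m).mpr hN i hi (by omega) hiZ
    have := hZ0 _ hiZ (i - j) (by omega)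
    have e2 : (2:ℝ) ^ (i - j) * ((ξ + ((r + 2 ^ j * m : ℤ) : ℝ)) / 2 ^ i) =
        (ξ + ((r + 2 ^ j * m : ℤ) : ℝ)) / 2 ^ j := by
      have h3 : (2:ℝ) ^ i = 2 ^ (i - j) * 2 ^ j := by rw [← pow_add]; congr 1; omega
      rw [h3]
      field_simp
    rw [e2] at this
    exact this.symm

theorem a0_blk (Z : Set ℝ) (hper : ∀ (x : ℝ) (n : ℤ), x + n ∈ Z ↔ x ∈ Z) (φ : ℝ → ℂ) (hg : Good φ)
    (hZ0 : ∀ x ∈ Z, ∀ i : ℕ, 1 ≤ i → φ ((2:ℝ) ^ i * x) = 0) :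
    ∀ᵐ ξ : ℝ, ξ ∈ Z → 0 ≤ ξ → ξ < 1 → Blk (PP Z ξ) (NN Z ξ) (a0 Z φ ξ) := by
  obtain ⟨g1, g2, g3⟩ := hg
  have g2' : ∀ᵐ x : ℝ, ∀ i : ℕ, 1 ≤ i →
      ∑' n : ℤ, φ ((2:ℝ) ^ i * (x + n)) * (starRingEnd ℂ) (φ (x + n)) = 0 := by
    rw [ae_all_iff]
    intro i
    by_cases hi : 1 ≤ i
    · filter_upwards [g2 i hi] with x hx _ using hx
    · exact Filter.Eventually.of_forall fun x h => absurd h hi
  filter_upwards [ae_orbit1 g1, ae_orbit1 g2', ae_orbit1 g3] with ξ o1 o2 o3 hξ _ _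
  have ex : ∀ (j : ℕ) (r : ℤ), (2:ℝ) ^ (-(j:ℤ)) * ξ + r * (2:ℝ) ^ (-(j:ℤ)) = (ξ + r) / 2 ^ j := by
    intro j r
    rw [zpow_neg, zpow_natCast]
    field_simp
  refine ⟨?_, ?_, ?_, ?_, ?_, ?_⟩
  · intro k j h
    unfold a0
    rw [if_neg h]
  · intro k j h i hi _
    exact h i hi
  · intro j r m
    exact NN_per1 Z hper ξ j r m
  · intro k hk
    have e1 : ∀ j : ℕ, a0 Z φ ξ k j = φ ((ξ + k) / 2 ^ j) := by
      intro j
      unfold a0
      rw [if_pos hk]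
    simp_rw [e1]
    rw [tsum_neg_nat1 φ (hZ0 (ξ + k) ((hper ξ k).mpr hξ))]
    have := o3 0 k 0
    simpa using this
  · intro j r hN
    simp_rw [a0_key1 Z hper φ hZ0 ξ j r _ hN]
    have := o1 (-(j:ℤ)) r (-(j:ℤ))
    rw [ex] at this
    exact this
  · intro i j r hij
    by_cases hN : NN Z ξ j r
    · have e1 : ∀ m : ℤ, a0 Z φ ξ (r + 2 ^ j * m) i * (starRingEnd ℂ) (a0 Z φ ξ (r + 2 ^ j * m) j)
          = φ ((2:ℝ) ^ (j - i) * ((ξ + r) / 2 ^ j + m)) * (starRingEnd ℂ) (φ ((ξ + r) / 2 ^ j + m)) := by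
        intro m
        rw [← a0_key1 Z hper φ hZ0 ξ j r m hN]
        by_cases hP : PP Z ξ (r + 2 ^ j * m)
        · congr 1
          unfold a0
          rw [if_pos hP]
          congr 1
          have h3 : (2:ℝ) ^ j = 2 ^ (j - i) * 2 ^ i := by rw [← pow_add]; congr 1; omega
          push_cast
          rw [h3]
          field_simp
          ring
        · have : a0 Z φ ξ (r + 2 ^ j * m) j = 0 := by
            unfold a0
            rw [if_neg hP]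
          rw [this]
          simp
      simp_rw [e1]
      have := o2 (-(j:ℤ)) r (-(j:ℤ)) (j - i) (by omega)
      rw [ex] at this
      exact this
    · have e0 : ∀ m : ℤ, a0 Z φ ξ (r + 2 ^ j * m) i * (starRingEnd ℂ) (a0 Z φ ξ (r + 2 ^ j * m) j) = 0 := by
        intro m
        have hP : ¬ PP Z ξ (r + 2 ^ j * m) := by
          intro hP
          apply hN
          rw [← NN_per1 Z hper ξ j r m]
          intro i' hi' _
          exact hP i' hi'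
        have : a0 Z φ ξ (r + 2 ^ j * m) j = 0 := by
          unfold a0
          rw [if_neg hP]
        rw [this]
        simp
      simp_rw [e0]
      simp

theorem a0_phi (Z : Set ℝ) (hper : ∀ (x : ℝ) (n : ℤ), x + n ∈ Z ↔ x ∈ Z) (φ : ℝ → ℂ)
    (hZ0 : ∀ x ∈ Z, ∀ i : ℕ, 1 ≤ i → φ ((2:ℝ) ^ i * x) = 0)
    (H1 : ∀ᵐ x : ℝ, ∃ i : ℕ, (2:ℝ) ^ i * x ∈ Z) : Phi Z (a0 Z φ) =ᵐ[volume] φ := by
  classical
  filter_upwards [H1] with y hy
  unfold Phi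
  rw [dif_pos hy]
  have hspec := Nat.find_spec hy
  have hmin : ∀ m : ℕ, m < Nat.find hy → (2:ℝ) ^ m * y ∉ Z := fun m hm => Nat.find_min hy hm
  have key : ∀ m : ℕ, (2:ℝ) ^ m * y ∈ Z → (∀ m' : ℕ, m' < m → (2:ℝ) ^ m' * y ∉ Z) →
      (if PP Z (Int.fract ((2:ℝ) ^ m * y)) ⌊(2:ℝ) ^ m * y⌋ then
      a0 Z φ (Int.fract ((2:ℝ) ^ m * y)) ⌊(2:ℝ) ^ m * y⌋ m else 0) = φ y := by
    intro m hm hmin
    have eX : Int.fract ((2:ℝ) ^ m * y) + (⌊(2:ℝ) ^ m * y⌋ : ℝ) = (2:ℝ) ^ m * y := Int.fract_add_floor _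
    by_cases hP : PP Z (Int.fract ((2:ℝ) ^ m * y)) ⌊(2:ℝ) ^ m * y⌋
    · rw [if_pos hP]
      unfold a0
      rw [if_pos hP, eX]
      congr 1
      field_simp
    · rw [if_neg hP]
      unfold PP at hP
      push Not at hP
      obtain ⟨i, hi, hiZ⟩ := hP
      rw [eX] at hiZ
      have him : m < i := by
        by_contra hc
        have e1 : (2:ℝ) ^ m * y / 2 ^ i = 2 ^ (m - i) * y := by
          have h3 : (2:ℝ) ^ m = 2 ^ (m - i) * 2 ^ i := by rw [← pow_add]; congr 1; omega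
          rw [h3]
          field_simp
        rw [e1] at hiZ
        exact hmin (m - i) (by omega) hiZ
      have := hZ0 _ hiZ (i - m) (by omega)
      have e2 : (2:ℝ) ^ (i - m) * ((2:ℝ) ^ m * y / 2 ^ i) = y := by
        have h3 : (2:ℝ) ^ i = 2 ^ (i - m) * 2 ^ m := by rw [← pow_add]; congr 1; omega
        rw [h3]
        field_simp
      rw [e2] at this
      exact this.symm
  convert key (Nat.find hy) hspec hmin

theorem a0_measurable (Z : Set ℝ) (hZ : MeasurableSet Z) (φ : ℝ → ℂ) (hm : Measurable φ) (k : ℤ) (j : ℕ) :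
    Measurable fun ξ => a0 Z φ ξ k j := by
  classical
  have hS : MeasurableSet {ξ : ℝ | PP Z ξ k} := by
    have : {ξ : ℝ | PP Z ξ k} = ⋂ i : ℕ, ⋂ _ : 1 ≤ i, (fun ξ : ℝ => (ξ + k) / 2 ^ i) ⁻¹' Zᶜ := by
      ext x; simp [PP]
    rw [this]
    refine MeasurableSet.iInter fun i => MeasurableSet.iInter fun _ => ?_
    exact (by fun_prop : Measurable fun ξ : ℝ => (ξ + k) / 2 ^ i) hZ.compl
  unfold a0
  refine Measurable.ite hS ?_ measurable_const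
  exact hm.comp (by fun_prop : Measurable fun ξ : ℝ => (ξ + k) / 2 ^ j)

/-- points near zero are not in Z -/
theorem H2_of_good (Z : Set ℝ) (φ : ℝ → ℂ) (hg : Good φ)
    (hZ0 : ∀ x ∈ Z, ∀ i : ℕ, 1 ≤ i → φ ((2:ℝ) ^ i * x) = 0) :
    ∀ᵐ x : ℝ, ∀ᶠ i : ℕ in atTop, x / 2 ^ i ∉ Z := by
  filter_upwards [hg.2.2] with x hx
  by_contra hc
  rw [Filter.not_eventually] at hc
  have hz : ∀ j : ℤ, φ ((2:ℝ) ^ j * x) = 0 := by
    intro j
    obtain ⟨i, hi, hiZ⟩ := (Filter.frequently_atTop.mp hc) ((-j).toNat + 1)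
    push Not at hiZ
    have hl : 1 ≤ (j + i).toNat := by omega
    have := hZ0 _ hiZ (j + i).toNat hl
    have e : (2:ℝ) ^ (j + i).toNat * (x / 2 ^ i) = (2:ℝ) ^ j * x := by
      have h2 : (2:ℝ) ^ (j + i).toNat = (2:ℝ) ^ (j + (i:ℤ)) := by
        rw [← zpow_natCast, Int.toNat_of_nonneg (by omega)]
      rw [h2, zpow_add₀ (by norm_num), zpow_natCast]
      field_simp
    rw [e] at this
    exact this
  simp [hz] at hx

end Pool.Agent.Helper152.WavInit
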