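import Pool.Agent.Helper152.WavDefs

set_option autoImplicit false
open MeasureTheory
open scoped ENNReal

namespace Pool.Agent.Helper152.WavPhase

open Pool.Agent.Helper152.Wav
open Pool.Agent.Helper152.Lar (w)



theorem enorm_zero_or {z : ℂ} (h : ‖z‖ = 0 ∨ ‖z‖ = 1) : ‖z‖ ≠ 1 → ‖z‖ₑ ^ 2 = 0 := by
  intro h1
  have h0 : z = 0 := by simpa using h.resolve_right h1
  rw [h0]; simp

theorem enorm_one {z : ℂ} (h : ‖z‖ = 1) : ‖z‖ₑ ^ 2 = 1 := by
  have : ‖z‖ₑ = 1 := by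
    rw [← ofReal_norm, h]; simp
  rw [this]; simp

theorem tsum_one {u : ℤ → ℂ} (h01 : ∀ k, ‖u k‖ = 0 ∨ ‖u k‖ = 1) (h : ∃! k : ℤ, ‖u k‖ = 1) :
    ∑' k : ℤ, ‖u k‖ₑ ^ 2 = 1 := by
  obtain ⟨k, hk, hu⟩ := h
  rw [tsum_eq_single k]
  · exact enorm_one hk
  · intro l hl
    exact enorm_zero_or (h01 l) (fun h => hl (hu l h))

theorem unique_of_tsum {u : ℤ → ℂ} (h01 : ∀ k, ‖u k‖ = 0 ∨ ‖u k‖ = 1)
    (h : ∑' k : ℤ, ‖u k‖ₑ ^ 2 = 1) : ∃! k : ℤ, ‖u k‖ = 1 := by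
  have hex : ∃ k, ‖u k‖ = 1 := by
    by_contra hne
    push Not at hne
    have : ∑' k : ℤ, ‖u k‖ₑ ^ 2 = 0 := by
      rw [ENNReal.tsum_eq_zero]
      exact fun k => enorm_zero_or (h01 k) (hne k)
    rw [this] at h
    exact zero_ne_one h
  obtain ⟨k, hk⟩ := hex
  refine ⟨k, hk, ?_⟩
  intro l hl
  by_contra hne
  have h2 := ENNReal.sum_le_tsum (f := fun k => ‖u k‖ₑ ^ 2) ({l, k} : Finset ℤ)
  rw [h, Finset.sum_pair hne] at h2
  rw [enorm_one hl, enorm_one hk] at h2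
  norm_num at h2

theorem ae_add {P : ℝ → Prop} (h : ∀ᵐ x : ℝ, P x) : ∀ᵐ x : ℝ, ∀ n : ℤ, P (x + n) := by
  rw [ae_all_iff]; intro n
  rw [ae_iff] at h ⊢
  have h1 : volume ((fun x => x + (n:ℝ)) ⁻¹' {x | ¬ P x}) = 0 := by
    rw [measure_preimage_add_right]; exact h
  exact h1

theorem good_of (φ : ℝ → ℂ) (h01 : ∀ y, ‖φ y‖ = 0 ∨ ‖φ y‖ = 1)
    (h1 : ∀ᵐ x : ℝ, ∃! k : ℤ, ‖φ (x + (k : ℝ))‖ = 1)
    (h2 : ∀ᵐ x : ℝ, ∃! j : ℤ, ‖φ (((2:ℝ) ^ j) * x)‖ = 1) : Good φ := by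
  refine ⟨?_, ?_, ?_⟩
  · filter_upwards [h1] with x hx
    exact tsum_one (fun k => h01 _) hx
  · intro i hi
    filter_upwards [ae_add h2] with x hx
    have : ∀ n : ℤ, φ ((2:ℝ) ^ i * (x + n)) * (starRingEnd ℂ) (φ (x + n)) = 0 := by
      intro n
      obtain ⟨j, hj, hu⟩ := hx n
      by_contra hne
      rw [mul_eq_zero, not_or] at hne
      obtain ⟨ha, hb⟩ := hne
      have ha' : ‖φ ((2:ℝ) ^ (i:ℤ) * (x + n))‖ = 1 := by
        rw [zpow_natCast]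
        exact (h01 _).resolve_left (by simpa using ha)
      have hb' : ‖φ ((2:ℝ) ^ (0:ℤ) * (x + n))‖ = 1 := by
        rw [zpow_zero, one_mul]
        exact (h01 _).resolve_left (by simpa using hb)
      have e1 := hu _ ha'
      have e2 := hu _ hb'
      omega
    simp [this]
  · filter_upwards [h2] with x hx
    exact tsum_one (fun k => h01 _) hx

theorem norm_ind (W : Set ℝ) (y : ℝ) : ‖W.indicator (fun _ => (1:ℂ)) y‖ = 1 ↔ y ∈ W := by
  by_cases h : y ∈ W <;> simp [h]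

theorem norm_ind01 (W : Set ℝ) (y : ℝ) : ‖W.indicator (fun _ => (1:ℂ)) y‖ = 0 ∨
    ‖W.indicator (fun _ => (1:ℂ)) y‖ = 1 := by
  by_cases h : y ∈ W <;> simp [h]

/-- a good indicator function: the fibre conditions for a set. -/
theorem good_indicator (W : Set ℝ) (h1 : ∀ᵐ x : ℝ, ∃! k : ℤ, x + (k : ℝ) ∈ W)
    (h2 : ∀ᵐ x : ℝ, ∃! j : ℤ, ((2:ℝ) ^ j) * x ∈ W) :
    Good (W.indicator (fun _ => (1:ℂ))) := by
  apply good_of _ (norm_ind01 W)
  · simpa only [norm_ind] using h1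
  · simpa only [norm_ind] using h2

/-- removing phases -/
theorem phase_path (φ : ℝ → ℂ) (hm : Measurable φ) (hg : Good φ)
    (h01 : ∀ y, ‖φ y‖ = 0 ∨ ‖φ y‖ = 1) :
    Conn φ ({y | ‖φ y‖ = 1}.indicator (fun _ => (1:ℂ))) ∧
    (∀ᵐ x : ℝ, ∃! k : ℤ, x + (k : ℝ) ∈ {y | ‖φ y‖ = 1}) ∧
    (∀ᵐ x : ℝ, ∃! j : ℤ, ((2:ℝ) ^ j) * x ∈ {y | ‖φ y‖ = 1}) := by
  have H1 : ∀ᵐ x : ℝ, ∃! k : ℤ, x + (k : ℝ) ∈ {y | ‖φ y‖ = 1} := by
    filter_upwards [hg.1] with x hx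
    exact unique_of_tsum (u := fun k : ℤ => φ (x + k)) (fun k => h01 _) hx
  have H2 : ∀ᵐ x : ℝ, ∃! j : ℤ, ((2:ℝ) ^ j) * x ∈ {y | ‖φ y‖ = 1} := by
    filter_upwards [hg.2.2] with x hx
    exact unique_of_tsum (u := fun k : ℤ => φ (2 ^ k * x)) (fun k => h01 _) hx
  refine ⟨?_, H1, H2⟩
  let Ψ : ℝ → ℝ → ℂ := fun t y =>
    (‖φ y‖ : ℂ) * Complex.exp (((1 - t) * Complex.arg (φ y) : ℝ) * Complex.I)
  have hn : ∀ t y, ‖Ψ t y‖ = ‖φ y‖ := by
    intro t y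
    simp only [Ψ]
    rw [norm_mul, Complex.norm_exp_ofReal_mul_I]
    simp
  refine ⟨Ψ, ?_, ?_, ?_, ?_⟩
  · intro t ht
    refine ⟨?_, ?_⟩
    · simp only [Ψ]
      have ha : Measurable fun y => Complex.arg (φ y) := Complex.measurable_arg.comp hm
      have hb : Measurable fun y => (((1 - t) * Complex.arg (φ y) : ℝ) : ℂ) :=
        Complex.measurable_ofReal.comp (ha.const_mul (1 - t))
      have hc : Measurable fun y => ((‖φ y‖ : ℝ) : ℂ) :=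
        Complex.measurable_ofReal.comp hm.norm
      exact hc.mul (Complex.measurable_exp.comp (hb.mul_const Complex.I))
    · apply good_of
      · intro y; rw [hn]; exact h01 y
      · simpa only [hn, Set.mem_ofPred_eq] using H1
      · simpa only [hn, Set.mem_ofPred_eq] using H2
  · refine Filter.Eventually.of_forall fun y => ?_
    simp only [Ψ]
    rw [sub_zero, one_mul]
    exact Complex.norm_mul_exp_arg_mul_I (φ y)
  · refine Filter.Eventually.of_forall fun y => ?_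
    simp only [Ψ]
    rcases h01 y with h | h
    · have : y ∉ {y | ‖φ y‖ = 1} := by
        simp [h]
      rw [Set.indicator_of_notMem this, h]; simp
    · have : y ∈ {y | ‖φ y‖ = 1} := h
      rw [Set.indicator_of_mem this, h]; simp
  · intro t₀ ht₀
    refine Filter.Eventually.of_forall fun y => ?_
    intro _
    apply Continuous.continuousWithinAt
    simp only [Ψ]
    fun_prop

end Pool.Agent.Helper152.WavPhase
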