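import Pool.Agent.Helper152.WavDefs

set_option autoImplicit false
open MeasureTheory Filter Topology
open scoped ENNReal

namespace Pool.Agent.Helper152.WavPhi

open Pool.Agent.Helper152.Wav
open Pool.Agent.Helper152.Lar (w)







/-- null sets are preserved by affine maps -/
theorem ae_affine {P : ℝ → Prop} (h : ∀ᵐ x : ℝ, P x) (a d : ℝ) (ha : a ≠ 0) :
    ∀ᵐ x : ℝ, P (a * x + d) := by
  rw [ae_iff] at h ⊢
  have h1 : volume ((fun x => x + d) ⁻¹' {x | ¬ P x}) = 0 := by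
    rw [measure_preimage_add_right]; exact h
  have h2 := Real.volume_preimage_mul_left ha ((fun x => x + d) ⁻¹' {x | ¬ P x})
  rw [h1, mul_zero] at h2
  exact h2

theorem ae_orbit {P : ℝ → Prop} (h : ∀ᵐ x : ℝ, P x) :
    ∀ᵐ x : ℝ, ∀ a b : ℤ, P ((2:ℝ) ^ a * x + b) := by
  rw [ae_all_iff]; intro a
  rw [ae_all_iff]; intro b
  exact ae_affine h _ _ (by positivity)

theorem PP_iff {Z : Set ℝ} {X : ℝ} :
    PP Z (Int.fract X) ⌊X⌋ ↔ ∀ i : ℕ, 1 ≤ i → X / 2 ^ i ∉ Z := by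
  unfold PP
  simp only [Int.fract_add_floor]

open Classical in
theorem Phi_of_find {Z : Set ℝ} {a : ℝ → ℤ → ℕ → ℂ} {y : ℝ} {m : ℕ} (hm : (2:ℝ) ^ m * y ∈ Z)
    (hmin : ∀ i < m, (2:ℝ) ^ i * y ∉ Z) : Phi Z a y =
      if PP Z (Int.fract ((2:ℝ) ^ m * y)) ⌊(2:ℝ) ^ m * y⌋ then
        a (Int.fract ((2:ℝ) ^ m * y)) ⌊(2:ℝ) ^ m * y⌋ m else 0 := by
  have h : ∃ m : ℕ, (2:ℝ) ^ m * y ∈ Z := ⟨m, hm⟩
  have hf : Nat.find h = m := (Nat.find_eq_iff h).2 ⟨hm, hmin⟩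
  unfold Phi
  rw [dif_pos h, hf]

theorem Phi_B {Z : Set ℝ} {a : ℝ → ℤ → ℕ → ℂ} {X : ℝ} {m : ℕ} (hX : X ∈ Z)
    (hN : ∀ i : ℕ, 1 ≤ i → i ≤ m → X / 2 ^ i ∉ Z)
    (h0 : ¬ PP Z (Int.fract X) ⌊X⌋ → a (Int.fract X) ⌊X⌋ m = 0) :
    Phi Z a (X / 2 ^ m) = a (Int.fract X) ⌊X⌋ m := by
  have e : (2:ℝ) ^ m * (X / 2 ^ m) = X := by field_simp
  rw [Phi_of_find (m := m) (by rw [e]; exact hX) (fun i hi => ?_)]
  · rw [e]
    split_ifs with h
    · rfl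
    · exact (h0 h).symm
  · have e2 : (2:ℝ) ^ i * (X / 2 ^ m) = X / 2 ^ (m - i) := by
      have : (2:ℝ) ^ m = 2 ^ i * 2 ^ (m - i) := by rw [← pow_add]; congr 1; omega
      rw [this]; field_simp
    rw [e2]
    exact hN (m - i) (by omega) (by omega)

open Classical in
theorem Phi_C {Z : Set ℝ} {a : ℝ → ℤ → ℕ → ℂ} {z : ℝ} {i : ℕ} (hi : 1 ≤ i) (hz : z ∈ Z) :
    Phi Z a ((2:ℝ) ^ i * z) = 0 := by
  unfold Phi
  split_ifs with h h2
  · exfalso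
    generalize Nat.find h = m at h2
    refine PP_iff.1 h2 (i + m) (by omega) ?_
    have : (2:ℝ) ^ m * ((2:ℝ) ^ i * z) / 2 ^ (i + m) = z := by
      rw [pow_add]; field_simp
    rw [this]
    exact hz
  · rfl
  · rfl

theorem Phi_D {Z : Set ℝ} {a : ℝ → ℤ → ℕ → ℂ} (hper : ∀ (x : ℝ) (n : ℤ), x + n ∈ Z ↔ x ∈ Z)
    {X : ℝ} {m : ℕ} (hX : X ∈ Z) (hN : ∀ i : ℕ, 1 ≤ i → i ≤ m → X / 2 ^ i ∉ Z)
    (blk : Blk (PP Z (Int.fract X)) (NN Z (Int.fract X)) (a (Int.fract X))) {j : ℕ} (hj : j ≤ m)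
    (n : ℤ) : Phi Z a ((X + ((2 ^ m * n : ℤ) : ℝ)) / 2 ^ j) =
      a (Int.fract X) (⌊X⌋ + 2 ^ m * n) j := by
  have h1 : Int.fract (X + ((2 ^ m * n : ℤ) : ℝ)) = Int.fract X := Int.fract_add_intCast _ _
  have h2 : ⌊X + ((2 ^ m * n : ℤ) : ℝ)⌋ = ⌊X⌋ + 2 ^ m * n := Int.floor_add_intCast _ _
  have h3 : X + ((2 ^ m * n : ℤ) : ℝ) ∈ Z := (hper _ _).2 hX
  have h4 : ∀ i : ℕ, 1 ≤ i → i ≤ j → (X + ((2 ^ m * n : ℤ) : ℝ)) / 2 ^ i ∉ Z := by
    intro i hi1 hij hc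
    have e : (X + ((2 ^ m * n : ℤ) : ℝ)) / 2 ^ i = X / 2 ^ i + ((2 ^ (m - i) * n : ℤ) : ℝ) := by
      push_cast
      have : (2:ℝ) ^ m = 2 ^ i * 2 ^ (m - i) := by rw [← pow_add]; congr 1; omega
      rw [this]; field_simp
    rw [e, hper] at hc
    exact hN i hi1 (hij.trans hj) hc
  have h5 := Phi_B (a := a) h3 h4 (fun h => by
    rw [h1, h2] at h ⊢
    exact blk.zero _ _ h)
  rw [h1, h2] at h5
  exact h5

open Classical in
/-- the branch number `m` -/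
noncomputable def Fm (Z : Set ℝ) (a : ℝ → ℤ → ℕ → ℂ) (m : ℕ) (y : ℝ) : ℂ :=
  if PP Z (Int.fract ((2:ℝ) ^ m * y)) ⌊(2:ℝ) ^ m * y⌋ then
    a (Int.fract ((2:ℝ) ^ m * y)) ⌊(2:ℝ) ^ m * y⌋ m else 0

theorem Fm_measurable (Z : Set ℝ) (hZ : MeasurableSet Z) (a : ℝ → ℤ → ℕ → ℂ)
    (ha : ∀ k j, Measurable fun ξ => a ξ k j) (m : ℕ) : Measurable (Fm Z a m) := by
  classical
  have hs : MeasurableSet {y : ℝ | PP Z (Int.fract ((2:ℝ) ^ m * y)) ⌊(2:ℝ) ^ m * y⌋} := by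
    have : {y : ℝ | PP Z (Int.fract ((2:ℝ) ^ m * y)) ⌊(2:ℝ) ^ m * y⌋} =
        ⋂ (i : ℕ) (_ : 1 ≤ i), (fun y : ℝ => (2:ℝ) ^ m * y / 2 ^ i) ⁻¹' Zᶜ := by
      ext y
      simp only [Set.mem_ofPred_eq, PP_iff, Set.mem_iInter, Set.mem_preimage, Set.mem_compl_iff]
    rw [this]
    refine MeasurableSet.iInter fun i => MeasurableSet.iInter fun _ => ?_
    exact (by fun_prop : Measurable fun y : ℝ => (2:ℝ) ^ m * y / 2 ^ i) hZ.compl
  have h1 : Measurable fun q : ℝ × ℤ => a q.1 q.2 m :=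
    measurable_from_prod_countable_left fun k => ha k m
  have h2 : Measurable fun y : ℝ => (2:ℝ) ^ m * y := by fun_prop
  have h3 : Measurable fun y : ℝ => a (Int.fract ((2:ℝ) ^ m * y)) ⌊(2:ℝ) ^ m * y⌋ m :=
    h1.comp (h2.fract.prodMk h2.floor)
  unfold Fm
  exact Measurable.ite hs h3 measurable_const

theorem Phi_measurable (Z : Set ℝ) (hZ : MeasurableSet Z) (a : ℝ → ℤ → ℕ → ℂ)
    (ha : ∀ k j, Measurable fun ξ => a ξ k j) : Measurable (Phi Z a) := by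
  classical
  have hm : ∀ m : ℕ, MeasurableSet {y : ℝ | (2:ℝ) ^ m * y ∈ Z} := fun m =>
    (by fun_prop : Measurable fun y : ℝ => (2:ℝ) ^ m * y) hZ
  have hH : MeasurableSet {y : ℝ | ∃ m : ℕ, (2:ℝ) ^ m * y ∈ Z} := by
    have : {y : ℝ | ∃ m : ℕ, (2:ℝ) ^ m * y ∈ Z} = ⋃ m : ℕ, {y : ℝ | (2:ℝ) ^ m * y ∈ Z} := by
      ext y; simp
    rw [this]
    exact MeasurableSet.iUnion hm
  let p : ℕ → ℝ → Prop := fun m y => (2:ℝ) ^ m * y ∈ Z ∨ ¬ ∃ m : ℕ, (2:ℝ) ^ m * y ∈ Z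
  have hp : ∀ m, MeasurableSet {y | p m y} := fun m => (hm m).union hH.compl
  have hex : ∀ y, ∃ m, p m y := by
    intro y
    by_cases h : ∃ m : ℕ, (2:ℝ) ^ m * y ∈ Z
    · obtain ⟨m, hm⟩ := h
      exact ⟨m, Or.inl hm⟩
    · exact ⟨0, Or.inr h⟩
  let f : ℕ → ℝ → ℂ := fun m y => if ∃ m : ℕ, (2:ℝ) ^ m * y ∈ Z then Fm Z a m y else 0
  have hf : ∀ m, Measurable (f m) := fun m =>
    Measurable.ite hH (Fm_measurable Z hZ a ha m) measurable_const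
  have hfind := Measurable.find hf hp hex
  have he : Phi Z a = fun y => f (Nat.find (hex y)) y := by
    funext y
    by_cases h : ∃ m : ℕ, (2:ℝ) ^ m * y ∈ Z
    · have h1 : Nat.find (hex y) = Nat.find h := by
        refine (Nat.find_eq_iff _).2 ⟨Or.inl (Nat.find_spec h), ?_⟩
        intro n hn hc
        rcases hc with hc | hc
        · exact Nat.find_min h hn hc
        · exact hc h
      simp only [f]
      rw [if_pos h, h1, Phi_of_find (Nat.find_spec h) (fun i hi => Nat.find_min h hi)]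
      rfl
    · simp only [f]
      rw [if_neg h]
      unfold Phi
      rw [dif_neg h]
  rw [he]
  exact hfind

/-- the a.e. property -/
theorem blk_at {Z : Set ℝ} (hper : ∀ (x : ℝ) (n : ℤ), x + n ∈ Z ↔ x ∈ Z)
    {a : ℝ → ℤ → ℕ → ℂ} {x : ℝ}
    (hO : ∀ (u v : ℤ), (2:ℝ) ^ u * x + v ∈ Z → 0 ≤ (2:ℝ) ^ u * x + v → (2:ℝ) ^ u * x + v < 1 →
      Blk (PP Z ((2:ℝ) ^ u * x + v)) (NN Z ((2:ℝ) ^ u * x + v)) (a ((2:ℝ) ^ u * x + v)))
    {X : ℝ} (u : ℤ) (hXu : X = (2:ℝ) ^ u * x) (hX : X ∈ Z) :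
    Blk (PP Z (Int.fract X)) (NN Z (Int.fract X)) (a (Int.fract X)) := by
  have e : (2:ℝ) ^ u * x + ((-⌊X⌋ : ℤ) : ℝ) = Int.fract X := by
    rw [← hXu]
    push_cast
    rw [← sub_eq_add_neg]
    rfl
  have h := hO u (-⌊X⌋)
  rw [e] at h
  refine h ?_ (Int.fract_nonneg _) (Int.fract_lt_one _)
  rw [← e, hper, ← hXu]
  exact hX

theorem Phi_good (Z : Set ℝ) (hper : ∀ (x : ℝ) (n : ℤ), x + n ∈ Z ↔ x ∈ Z)
    (H1 : ∀ᵐ x : ℝ, ∃ i : ℕ, (2:ℝ) ^ i * x ∈ Z) (H2 : ∀ᵐ x : ℝ, ∀ᶠ i : ℕ in atTop, x / 2 ^ i ∉ Z)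
    (a : ℝ → ℤ → ℕ → ℂ)
    (hb : ∀ᵐ ξ : ℝ, ξ ∈ Z → 0 ≤ ξ → ξ < 1 → Blk (PP Z ξ) (NN Z ξ) (a ξ)) : Good (Phi Z a) := by
  classical
  have hO := ae_orbit hb
  -- common data
  have hdata : ∀ᵐ x : ℝ, ∃ (m : ℕ) (X : ℝ), X = (2:ℝ) ^ m * x ∧ X ∈ Z ∧
      (∀ i : ℕ, 1 ≤ i → i ≤ m → X / 2 ^ i ∉ Z) ∧
      Blk (PP Z (Int.fract X)) (NN Z (Int.fract X)) (a (Int.fract X)) := by
    filter_upwards [H1, hO] with x h1 hOx
    obtain ⟨m, hm, hmin⟩ : ∃ m : ℕ, (2:ℝ) ^ m * x ∈ Z ∧ ∀ i < m, (2:ℝ) ^ i * x ∉ Z :=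
      ⟨Nat.find h1, Nat.find_spec h1, fun i hi => Nat.find_min h1 hi⟩
    refine ⟨m, (2:ℝ) ^ m * x, rfl, hm, ?_, ?_⟩
    · intro i hi him
      have e2 : (2:ℝ) ^ m * x / 2 ^ i = 2 ^ (m - i) * x := by
        have : (2:ℝ) ^ m = 2 ^ i * 2 ^ (m - i) := by
          rw [← pow_add]; congr 1; omega
        rw [this]; field_simp
      rw [e2]
      exact hmin _ (by omega)
    · exact blk_at hper hOx (m : ℤ) (by rw [zpow_natCast]) hm
  refine ⟨?_, ?_, ?_⟩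
  · filter_upwards [hdata] with x hx
    obtain ⟨m, X, hXx, hX, hN, blk⟩ := hx
    have h1 : ∀ n : ℤ, Phi Z a (x + n) = a (Int.fract X) (⌊X⌋ + 2 ^ m * n) m := by
      intro n
      rw [← Phi_D hper hX hN blk le_rfl n]
      congr 1
      rw [hXx]
      push_cast
      field_simp
    simp only [h1]
    refine blk.col m ⌊X⌋ ?_
    intro i hi him
    rw [Int.fract_add_floor]
    exact hN i hi him
  · intro i hi
    filter_upwards [hdata] with x hx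
    obtain ⟨m, X, hXx, hX, hN, blk⟩ := hx
    have h1 : ∀ n : ℤ, Phi Z a (x + n) = a (Int.fract X) (⌊X⌋ + 2 ^ m * n) m := by
      intro n
      rw [← Phi_D hper hX hN blk le_rfl n]
      congr 1
      rw [hXx]
      push_cast
      field_simp
    by_cases him : i ≤ m
    · have h2 : ∀ n : ℤ, Phi Z a ((2:ℝ) ^ i * (x + n)) =
          a (Int.fract X) (⌊X⌋ + 2 ^ m * n) (m - i) := by
        intro n
        rw [← Phi_D hper hX hN blk (Nat.sub_le m i) n]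
        congr 1
        rw [hXx]
        push_cast
        have : (2:ℝ) ^ m = 2 ^ i * 2 ^ (m - i) := by rw [← pow_add]; congr 1; omega
        rw [this]
        field_simp
      simp only [h1, h2]
      exact blk.orth (m - i) m ⌊X⌋ (by omega)
    · have h2 : ∀ n : ℤ, Phi Z a ((2:ℝ) ^ i * (x + n)) = 0 := by
        intro n
        have h3 : X + ((2 ^ m * n : ℤ) : ℝ) ∈ Z := (hper _ _).2 hX
        rw [← Phi_C (a := a) (show 1 ≤ i - m by omega) h3]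
        congr 1
        rw [hXx]
        push_cast
        have : (2:ℝ) ^ i = 2 ^ m * 2 ^ (i - m) := by rw [← pow_add]; congr 1; omega
        rw [this]
        ring
      simp only [h2, zero_mul, tsum_zero]
  · filter_upwards [H1, H2, hO] with x h1 h2 hOx
    obtain ⟨I, hI⟩ := eventually_atTop.1 h2
    have hy : ∃ m : ℕ, (2:ℝ) ^ m * (x / 2 ^ I) ∈ Z := by
      obtain ⟨i, hi⟩ := h1
      refine ⟨i + I, ?_⟩
      have : (2:ℝ) ^ (i + I) * (x / 2 ^ I) = 2 ^ i * x := by rw [pow_add]; field_simp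
      rw [this]; exact hi
    obtain ⟨m, hm, hmin⟩ : ∃ m : ℕ, (2:ℝ) ^ m * (x / 2 ^ I) ∈ Z ∧
        ∀ i < m, (2:ℝ) ^ i * (x / 2 ^ I) ∉ Z :=
      ⟨Nat.find hy, Nat.find_spec hy, fun i hi => Nat.find_min hy hi⟩
    set X : ℝ := (2:ℝ) ^ m * (x / 2 ^ I) with hXdef
    have hXx : X = (2:ℝ) ^ ((m : ℤ) - I) * x := by
      rw [hXdef, zpow_sub₀ (by norm_num), zpow_natCast, zpow_natCast]
      ring
    have hP : ∀ i : ℕ, 1 ≤ i → X / 2 ^ i ∉ Z := by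
      intro i hi
      by_cases him : i ≤ m
      · have : X / 2 ^ i = 2 ^ (m - i) * (x / 2 ^ I) := by
          have : (2:ℝ) ^ m = 2 ^ i * 2 ^ (m - i) := by rw [← pow_add]; congr 1; omega
          rw [hXdef, this]; field_simp
        rw [this]
        exact hmin _ (by omega)
      · have : X / 2 ^ i = x / 2 ^ (I + (i - m)) := by
          have : (2:ℝ) ^ i = 2 ^ m * 2 ^ (i - m) := by rw [← pow_add]; congr 1; omega
          rw [hXdef, this, pow_add]; field_simp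
        rw [this]
        exact hI _ (by omega)
    have blk := blk_at hper hOx ((m : ℤ) - I) hXx hm
    have hrow := blk.row ⌊X⌋ (PP_iff.2 hP)
    rw [← hrow]
    have e1 : ∑' j : ℤ, ‖Phi Z a ((2:ℝ) ^ j * x)‖ₑ ^ 2 = ∑' j : ℤ, ‖Phi Z a ((2:ℝ) ^ j * X)‖ₑ ^ 2 := by
      rw [← (Equiv.addRight ((m : ℤ) - I)).tsum_eq]
      refine tsum_congr fun j => ?_
      have : (2:ℝ) ^ ((Equiv.addRight ((m : ℤ) - I)) j) * x = (2:ℝ) ^ j * X := by
        rw [Equiv.coe_addRight, zpow_add₀ (by norm_num), hXx]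
        ring
      rw [this]
    rw [e1]
    have hinj : Function.Injective (fun m : ℕ => -(m : ℤ)) := by
      intro u v huv
      simp only [neg_inj] at huv
      exact_mod_cast huv
    have hsupp : Function.support (fun j : ℤ => ‖Phi Z a ((2:ℝ) ^ j * X)‖ₑ ^ 2) ⊆
        Set.range (fun m : ℕ => -(m : ℤ)) := by
      intro j hj
      by_contra hc
      apply hj
      have hj0 : 0 < j := by
        by_contra h0
        push Not at h0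
        exact hc ⟨j.natAbs, by simp only; omega⟩
      obtain ⟨i, rfl⟩ : ∃ i : ℕ, j = i := ⟨j.toNat, by omega⟩
      simp only
      rw [zpow_natCast, Phi_C (by omega) hm]
      simp
    rw [← hinj.tsum_eq hsupp]
    refine tsum_congr fun n => ?_
    have : (2:ℝ) ^ (-(n : ℤ)) * X = X / 2 ^ n := by
      rw [zpow_neg, zpow_natCast]
      ring
    simp only [this]
    rw [Phi_B hm (fun i hi _ => hP i hi) (fun h => absurd (PP_iff.2 hP) h)]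

end Pool.Agent.Helper152.WavPhi
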