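import Pool.Agent.Helper152.WavIter
import Pool.Agent.Helper152.WavPhi
import Pool.Agent.Helper152.WavInit
import Pool.Agent.Helper152.WavPhase
import Pool.Agent.Helper152.LarG

set_option autoImplicit false
open MeasureTheory Filter Topology
open scoped ENNReal

namespace Pool.Agent.Helper152.WavPath

open Pool.Agent.Helper152.Wav
open Pool.Agent.Helper152.Lar (w ae_orbit Zs Zs_add Zs_zero measurableSet_Zs)

theorem good_congr {φ φ' : ℝ → ℂ} (h : φ =ᵐ[volume] φ') (hg : Good φ) : Good φ' := by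
  have hO := ae_orbit h
  refine ⟨?_, ?_, ?_⟩
  · filter_upwards [hg.1, hO] with x hx hx'
    rw [← hx]
    refine tsum_congr fun n => ?_
    have := hx' 0 n 0
    simp only [zpow_zero, one_mul, mul_one] at this
    rw [this]
  · intro i hi
    filter_upwards [hg.2.1 i hi, hO] with x hx hx'
    rw [← hx]
    refine tsum_congr fun n => ?_
    have h1 := hx' 0 n 0
    simp only [zpow_zero, one_mul, mul_one] at h1
    have h2 := hx' i n i
    rw [zpow_natCast] at h2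
    have e : (2:ℝ) ^ i * x + n * (2:ℝ) ^ i = (2:ℝ) ^ i * (x + n) := by ring
    rw [e] at h2
    rw [h1, h2]
  · filter_upwards [hg.2.2, hO] with x hx hx'
    rw [← hx]
    refine tsum_congr fun n => ?_
    have := hx' n 0 0
    simp only [Int.cast_zero, zero_mul, add_zero] at this
    rw [this]

/-- the enumeration of the rows -/
noncomputable def ee (n : ℕ) : ℤ := Equiv.intEquivNat.symm n

theorem ee_bij : Function.Bijective ee := Equiv.intEquivNat.symm.bijective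

/-- limit states -/
noncomputable def aInf (Z : Set ℝ) (φ : ℝ → ℂ) (ξ : ℝ) (k : ℤ) (j : ℕ) : ℂ :=
  limUnder atTop (fun n => st ee (a0 Z φ ξ) n k j)

theorem st_meas (Z : Set ℝ) (hZ : MeasurableSet Z) (φ : ℝ → ℂ) (hm : Measurable φ) (n : ℕ) (k : ℤ) (j : ℕ) :
    Measurable fun ξ => st ee (a0 Z φ ξ) n k j := by
  induction n generalizing k j with
  | zero => exact WavInit.a0_measurable Z hZ φ hm k j
  | succ n ih =>
    exact WavMv.mv_measurable (fun ξ => st ee (a0 Z φ ξ) n) (fun k j => ih k j) 1 (ee n) k j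

theorem aInf_meas (Z : Set ℝ) (hZ : MeasurableSet Z) (φ : ℝ → ℂ) (hm : Measurable φ) (k : ℤ) (j : ℕ) :
    Measurable fun ξ => aInf Z φ ξ k j := by
  unfold aInf
  exact (StronglyMeasurable.limUnder
    (fun n => (st_meas Z hZ φ hm n k j).stronglyMeasurable)).measurable

theorem aInf_spec (Z : Set ℝ) (φ : ℝ → ℂ) (ξ : ℝ)
    (hb : Blk (PP Z ξ) (NN Z ξ) (a0 Z φ ξ)) :
    Blk (PP Z ξ) (NN Z ξ) (aInf Z φ ξ) ∧ (∀ k j, ‖aInf Z φ ξ k j‖ = 0 ∨ ‖aInf Z φ ξ k j‖ = 1) ∧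
      ∀ (k : ℤ) (j : ℕ), ∃ n₀ : ℕ, ∀ n, n₀ ≤ n → ∀ θ ∈ Set.Icc (0:ℝ) 1,
          mv θ (ee n) (st ee (a0 Z φ ξ) n) k j = aInf Z φ ξ k j := by
  obtain ⟨b, hB, h01, hlim⟩ := WavIter.st_limit hb ee ee_bij
  have hab : aInf Z φ ξ = b := by
    funext k j
    obtain ⟨n₀, hn₀⟩ := hlim j k
    unfold aInf
    apply Tendsto.limUnder_eq
    apply tendsto_const_nhds.congr'
    filter_upwards [eventually_ge_atTop n₀] with n hn
    have := (hn₀ n hn).1 0
    simpa using this.symm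
  rw [hab]
  refine ⟨hB, h01, fun k j => ?_⟩
  obtain ⟨n₀, hn₀⟩ := hlim j k
  refine ⟨n₀, fun n hn θ hθ => ?_⟩
  have := (hn₀ n hn).2 θ hθ.1 hθ.2 0
  simpa using this

/-- either the value is read off at fixed coordinates or it vanishes -/
theorem Phi_coord (Z : Set ℝ) (hper : ∀ (x : ℝ) (n : ℤ), x + n ∈ Z ↔ x ∈ Z) (y : ℝ) :
    (∃ (m : ℕ) (k : ℤ), Int.fract ((2:ℝ) ^ m * y) ∈ Z ∧
      ∀ a : ℝ → ℤ → ℕ → ℂ, Phi Z a y = a (Int.fract ((2:ℝ) ^ m * y)) k m) ∨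
    (∀ a : ℝ → ℤ → ℕ → ℂ, Phi Z a y = 0) := by
  classical
  by_cases h : ∃ m : ℕ, (2:ℝ) ^ m * y ∈ Z
  · by_cases hp : PP Z (Int.fract ((2:ℝ) ^ (Nat.find h) * y)) ⌊(2:ℝ) ^ (Nat.find h) * y⌋
    · left
      refine ⟨Nat.find h, ⌊(2:ℝ) ^ (Nat.find h) * y⌋, ?_, fun a => ?_⟩
      · have := Nat.find_spec h
        rw [← hper _ ⌊(2:ℝ) ^ (Nat.find h) * y⌋, Int.fract_add_floor]
        exact this
      · unfold Phi
        rw [dif_pos h, if_pos hp]
    · right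
      intro a
      unfold Phi
      rw [dif_pos h, if_neg hp]
  · right
    intro a
    unfold Phi
    rw [dif_neg h]

theorem block_path (φ : ℝ → ℂ) (hm : Measurable φ) (hg : Good φ)
    (H1 : ∀ᵐ x : ℝ, ∃ i : ℕ, (2:ℝ) ^ i * x ∈ Zs φ) :
    ∃ φ' : ℝ → ℂ, Measurable φ' ∧ Good φ' ∧ (∀ y, ‖φ' y‖ = 0 ∨ ‖φ' y‖ = 1) ∧ Conn φ φ' := by
  classical
  obtain ⟨Z, hZd⟩ : ∃ Z : Set ℝ, Z = Zs φ := ⟨_, rfl⟩
  have hZ : MeasurableSet Z := hZd ▸ measurableSet_Zs φ hm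
  have hper : ∀ (x : ℝ) (n : ℤ), x + n ∈ Z ↔ x ∈ Z := fun x n => by
    rw [hZd]; exact Zs_add φ n
  have hZ0 : ∀ x ∈ Z, ∀ i : ℕ, 1 ≤ i → φ ((2:ℝ) ^ i * x) = 0 := fun x hx i hi => by
    rw [hZd] at hx; exact Zs_zero φ hx i hi
  rw [← hZd] at H1
  have H2 := WavInit.H2_of_good Z φ hg hZ0
  have hb := WavInit.a0_blk Z hper φ hg hZ0
  have hphi := WavInit.a0_phi Z hper φ hZ0 H1
  have hbO : ∀ᵐ y : ℝ, ∀ m : ℕ, Int.fract ((2:ℝ) ^ m * y) ∈ Z →
      Blk (PP Z (Int.fract ((2:ℝ) ^ m * y))) (NN Z (Int.fract ((2:ℝ) ^ m * y)))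
        (a0 Z φ (Int.fract ((2:ℝ) ^ m * y))) := by
    filter_upwards [ae_orbit hb] with y hy m hmZ
    have h1 := hy m (-⌊(2:ℝ) ^ m * y⌋) 0
    have e : (2:ℝ) ^ (m:ℤ) * y + ((-⌊(2:ℝ) ^ m * y⌋ : ℤ) : ℝ) * (2:ℝ) ^ (0:ℤ) =
        Int.fract ((2:ℝ) ^ m * y) := by
      rw [zpow_natCast, zpow_zero, mul_one, Int.fract]
      push_cast; ring
    rw [e] at h1
    exact h1 hmZ (Int.fract_nonneg _) (Int.fract_lt_one _)
  set Φ : ℝ → ℝ → ℂ := fun t =>
    if t < 1 then Phi Z (fun ξ => mv (Int.fract (t / (1 - t))) (ee ⌊t / (1 - t)⌋₊)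
      (st ee (a0 Z φ ξ) ⌊t / (1 - t)⌋₊)) else Phi Z (aInf Z φ) with hΦ
  have hfr : ∀ τ : ℝ, Int.fract τ ∈ Set.Icc (0:ℝ) 1 := fun τ =>
    ⟨Int.fract_nonneg τ, (Int.fract_lt_one τ).le⟩
  have hgood : ∀ t, Measurable (Φ t) ∧ Good (Φ t) := by
    intro t
    by_cases h : t < 1
    · simp only [hΦ, h, if_true]
      constructor
      · exact WavPhi.Phi_measurable Z hZ _ (fun k j =>
          WavMv.mv_measurable _ (fun k j => st_meas Z hZ φ hm _ k j) _ _ k j)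
      · apply WavPhi.Phi_good Z hper H1 H2
        filter_upwards [hb] with ξ hξ h1 h2 h3
        exact WavBlk.mv_blk (WavIter.st_blk (hξ h1 h2 h3) _ _) _ _ (hfr _).1 (hfr _).2
    · simp only [hΦ, h, if_false]
      constructor
      · exact WavPhi.Phi_measurable Z hZ _ (fun k j => aInf_meas Z hZ φ hm k j)
      · apply WavPhi.Phi_good Z hper H1 H2
        filter_upwards [hb] with ξ hξ h1 h2 h3
        exact (aInf_spec Z φ ξ (hξ h1 h2 h3)).1
  have h01 : ∀ᵐ y : ℝ, ‖Phi Z (aInf Z φ) y‖ = 0 ∨ ‖Phi Z (aInf Z φ) y‖ = 1 := by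
    filter_upwards [hbO] with y hy
    rcases Phi_coord Z hper y with ⟨m, k, hmZ, hc⟩ | h0
    · rw [hc]
      exact (aInf_spec Z φ _ (hy m hmZ)).2.1 k m
    · left; rw [h0]; simp
  have hP1 := hgood 1
  simp only [hΦ, lt_irrefl, if_false] at hP1
  set φ' : ℝ → ℂ := fun y => if ‖Phi Z (aInf Z φ) y‖ = 0 ∨ ‖Phi Z (aInf Z φ) y‖ = 1 then
    Phi Z (aInf Z φ) y else 0 with hφ'
  have hae : Phi Z (aInf Z φ) =ᵐ[volume] φ' := by
    filter_upwards [h01] with y hy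
    simp only [hφ', hy, if_true]
  refine ⟨φ', ?_, good_congr hae hP1.2, ?_, ?_⟩
  · have hn : Measurable fun y => ‖Phi Z (aInf Z φ) y‖ := hP1.1.norm
    refine Measurable.ite ?_ hP1.1 measurable_const
    exact (hn (measurableSet_singleton 0)).union (hn (measurableSet_singleton 1))
  · intro y
    simp only [hφ']
    by_cases h : ‖Phi Z (aInf Z φ) y‖ = 0 ∨ ‖Phi Z (aInf Z φ) y‖ = 1
    · rw [if_pos h]; exact h
    · rw [if_neg h]; left; simp
  · refine ⟨Φ, fun t _ => hgood t, ?_, ?_, ?_⟩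
    · have : Φ 0 = Phi Z (a0 Z φ) := by
        simp only [hΦ, zero_lt_one, if_true, zero_div, Int.fract_zero, Nat.floor_zero, WavMv.mv_start]
        rfl
      rw [this]; exact hphi
    · have : Φ 1 = Phi Z (aInf Z φ) := by simp only [hΦ, lt_irrefl, if_false]
      rw [this]; exact hae
    · intro t₀ ht₀
      filter_upwards [hbO] with y hy _
      rcases Phi_coord Z hper y with ⟨m, k, hmZ, hc⟩ | h0
      · obtain ⟨ξ, hξ⟩ : ∃ ξ, ξ = Int.fract ((2:ℝ) ^ m * y) := ⟨_, rfl⟩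
        rw [← hξ] at hmZ hc
        have hB : Blk (PP Z ξ) (NN Z ξ) (a0 Z φ ξ) := by
          rw [hξ]; exact hy m (hξ ▸ hmZ)
        obtain ⟨n₀, hn₀⟩ := (aInf_spec Z φ ξ hB).2.2 k m
        have hcont := WavMv.glue (fun n θ => mv θ (ee n) (st ee (a0 Z φ ξ) n) k m) (aInf Z φ ξ k m)
          (fun n => WavMv.mv_cont (ee n) (st ee (a0 Z φ ξ) n) k m)
          (fun n => by
            show mv 1 (ee n) (st ee (a0 Z φ ξ) n) k m = mv 0 (ee (n + 1)) (st ee (a0 Z φ ξ) (n + 1)) k m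
            rw [WavMv.mv_start]; rfl) n₀
          (fun n hn θ hθ => hn₀ n hn θ hθ)
        have heq : (fun t => Φ t y) = fun t : ℝ => if t < 1 then
            mv (Int.fract (t / (1 - t))) (ee ⌊t / (1 - t)⌋₊) (st ee (a0 Z φ ξ) ⌊t / (1 - t)⌋₊) k m
            else aInf Z φ ξ k m := by
          funext t
          by_cases h : t < 1
          · simp only [hΦ, h, if_true]; rw [hc]
          · simp only [hΦ, h, if_false]; rw [hc]
        rw [heq]
        exact hcont t₀ ht₀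
      · have heq : (fun t => Φ t y) = fun _ => 0 := by
          funext t
          by_cases h : t < 1
          · simp only [hΦ, h, if_true]; rw [h0]
          · simp only [hΦ, h, if_false]; rw [h0]
        rw [heq]
        exact continuousWithinAt_const

end Pool.Agent.Helper152.WavPath
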