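import Pool.Agent.Helper152.WavMsf

set_option autoImplicit false
open MeasureTheory Filter Topology
open scoped ENNReal

namespace Pool.Agent.Helper152.WavSh

open Pool.Agent.Helper152.Wav

theorem zpow_uniq (a : ℝ) (ha : 0 < a) (j j' : ℤ) (h1 : 1 / 2 < (2:ℝ) ^ j * a) (h2 : (2:ℝ) ^ j * a < 1)
    (h1' : 1 / 2 < (2:ℝ) ^ j' * a) (h2' : (2:ℝ) ^ j' * a < 1) : j = j' := by
  have key : ∀ i i' : ℤ, 1 / 2 < (2:ℝ) ^ i * a → (2:ℝ) ^ i' * a < 1 → ¬ i < i' := by
    intro i i' h h' hlt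
    have h3 : (2:ℝ) ^ (i + 1) ≤ (2:ℝ) ^ i' := zpow_le_zpow_right₀ (by norm_num) hlt
    rw [zpow_add_one₀ (by norm_num)] at h3
    have := mul_le_mul_of_nonneg_right h3 ha.le
    nlinarith
  exact le_antisymm (not_lt.1 (key j' j h1' h2)) (not_lt.1 (key j j' h1 h2'))

theorem shannon_tile : (∀ᵐ x : ℝ, ∃! k : ℤ, x + (k : ℝ) ∈ {y : ℝ | 1 / 2 < |y| ∧ |y| < 1}) ∧
    (∀ᵐ x : ℝ, ∃! j : ℤ, ((2:ℝ) ^ j) * x ∈ {y : ℝ | 1 / 2 < |y| ∧ |y| < 1}) := by
  constructor
  · have hc : (Set.range fun n : ℤ => (n:ℝ) / 2).Countable := Set.countable_range _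
    have h0 : ∀ᵐ x : ℝ, x ∉ Set.range fun n : ℤ => (n:ℝ) / 2 := hc.ae_notMem _
    filter_upwards [h0] with x hx
    have hf0 : 0 < Int.fract x := by
      rcases (Int.fract_nonneg x).lt_or_eq with h | h
      · exact h
      · exfalso; apply hx
        refine ⟨2 * ⌊x⌋, ?_⟩
        have := Int.floor_add_fract x
        rw [← h] at this
        push_cast; linarith
    have hf1 := Int.fract_lt_one x
    have hfh : Int.fract x ≠ 1 / 2 := by
      intro h
      apply hx
      refine ⟨2 * ⌊x⌋ + 1, ?_⟩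
      have := Int.floor_add_fract x
      rw [h] at this
      push_cast; linarith
    have hxf := Int.floor_add_fract x
    rcases lt_or_gt_of_ne hfh with h | h
    · refine ⟨-⌊x⌋ - 1, ?_, ?_⟩
      · show 1 / 2 < |x + _| ∧ |x + _| < 1
        push_cast
        rw [show x + (-(⌊x⌋:ℝ) - 1) = Int.fract x - 1 by linarith, abs_of_neg (by linarith)]
        constructor <;> linarith
      · intro k hk
        replace hk : 1 / 2 < |x + (k:ℝ)| ∧ |x + (k:ℝ)| < 1 := hk
        have e : x + (k:ℝ) = Int.fract x + ((⌊x⌋ + k : ℤ) : ℝ) := by push_cast; linarith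
        rw [e] at hk
        have h3 : ⌊x⌋ + k = -1 := by
          by_contra hne
          rcases lt_or_gt_of_ne hne with h4 | h4
          · have h5 : ((⌊x⌋ + k : ℤ) : ℝ) ≤ -2 := by exact_mod_cast (by omega : ⌊x⌋ + k ≤ -2)
            rw [abs_of_neg (by linarith)] at hk
            linarith [hk.2]
          · have h5 : (0:ℝ) ≤ ((⌊x⌋ + k : ℤ) : ℝ) := by exact_mod_cast (by omega : 0 ≤ ⌊x⌋ + k)
            rw [abs_of_pos (by linarith)] at hk
            rcases eq_or_lt_of_le h5 with h6 | h6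
            · rw [← h6] at hk; linarith [hk.1]
            · have h7 : (1:ℝ) ≤ ((⌊x⌋ + k : ℤ) : ℝ) := by
                have : 0 < ⌊x⌋ + k := by exact_mod_cast h6
                exact_mod_cast this
              linarith [hk.2]
        omega
    · refine ⟨-⌊x⌋, ?_, ?_⟩
      · show 1 / 2 < |x + _| ∧ |x + _| < 1
        push_cast
        rw [show x + (-(⌊x⌋:ℝ)) = Int.fract x by linarith, abs_of_pos (by linarith)]
        constructor <;> linarith
      · intro k hk
        replace hk : 1 / 2 < |x + (k:ℝ)| ∧ |x + (k:ℝ)| < 1 := hk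
        have e : x + (k:ℝ) = Int.fract x + ((⌊x⌋ + k : ℤ) : ℝ) := by push_cast; linarith
        rw [e] at hk
        have h3 : ⌊x⌋ + k = 0 := by
          by_contra hne
          rcases lt_or_gt_of_ne hne with h4 | h4
          · have h5 : ((⌊x⌋ + k : ℤ) : ℝ) ≤ -1 := by exact_mod_cast (by omega : ⌊x⌋ + k ≤ -1)
            rw [abs_of_neg (by linarith)] at hk
            rcases eq_or_lt_of_le h5 with h6 | h6
            · rw [h6] at hk; linarith [hk.1]
            · have h7 : ((⌊x⌋ + k : ℤ) : ℝ) ≤ -2 := by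
                have : ⌊x⌋ + k < -1 := by exact_mod_cast h6
                exact_mod_cast (by omega : ⌊x⌋ + k ≤ -2)
              linarith [hk.2]
          · have h5 : (1:ℝ) ≤ ((⌊x⌋ + k : ℤ) : ℝ) := by exact_mod_cast (by omega : 1 ≤ ⌊x⌋ + k)
            rw [abs_of_pos (by linarith)] at hk
            linarith [hk.2]
        omega
  · have hc : ((Set.range fun n : ℤ => (2:ℝ) ^ n) ∪ (Set.range fun n : ℤ => -(2:ℝ) ^ n) ∪ {0}).Countable :=
      ((Set.countable_range _).union (Set.countable_range _)).union (Set.countable_singleton _)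
    filter_upwards [hc.ae_notMem volume] with x hx
    simp only [Set.mem_union, Set.mem_range, Set.mem_singleton_iff, not_or, not_exists] at hx
    have hx0 : 0 < |x| := abs_pos.2 hx.2
    have hab : ∀ j : ℤ, |(2:ℝ) ^ j * x| = (2:ℝ) ^ j * |x| := by
      intro j; rw [abs_mul, abs_of_pos (by positivity)]
    obtain ⟨n, hn⟩ := exists_mem_Ico_zpow hx0 (by norm_num : (1:ℝ) < 2)
    have hne : (2:ℝ) ^ n ≠ |x| := by
      intro h
      rcases abs_choice x with h' | h'
      · exact hx.1.1 n (by rw [h, h'])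
      · exact hx.1.2 n (by rw [h, h', neg_neg])
    have hlt : (2:ℝ) ^ n < |x| := lt_of_le_of_ne hn.1 hne
    refine ⟨-(n + 1), ?_, ?_⟩
    · show 1 / 2 < |_| ∧ |_| < 1
      rw [hab]
      have h2 : (0:ℝ) < (2:ℝ) ^ (-(n + 1)) := by positivity
      have e1 : (2:ℝ) ^ (-(n + 1)) * (2:ℝ) ^ n = 1 / 2 := by
        rw [← zpow_add₀ (by norm_num)]
        have : -(n + 1) + n = -1 := by ring
        rw [this]; norm_num
      have e2 : (2:ℝ) ^ (-(n + 1)) * (2:ℝ) ^ (n + 1) = 1 := by
        rw [← zpow_add₀ (by norm_num)]; simp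
      constructor
      · rw [← e1]; exact mul_lt_mul_of_pos_left hlt h2
      · rw [← e2]; exact mul_lt_mul_of_pos_left hn.2 h2
    · intro j hj
      replace hj : 1 / 2 < |(2:ℝ) ^ j * x| ∧ |(2:ℝ) ^ j * x| < 1 := hj
      rw [hab] at hj
      have h2 : (0:ℝ) < (2:ℝ) ^ (-(n + 1)) := by positivity
      have e1 : (2:ℝ) ^ (-(n + 1)) * (2:ℝ) ^ n = 1 / 2 := by
        rw [← zpow_add₀ (by norm_num)]
        have : -(n + 1) + n = -1 := by ring
        rw [this]; norm_num
      have e2 : (2:ℝ) ^ (-(n + 1)) * (2:ℝ) ^ (n + 1) = 1 := by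
        rw [← zpow_add₀ (by norm_num)]; simp
      apply zpow_uniq |x| hx0 _ _ hj.1 hj.2
      · rw [← e1]; exact mul_lt_mul_of_pos_left hlt h2
      · rw [← e2]; exact mul_lt_mul_of_pos_left hn.2 h2

theorem W0_good : Good ((U ∅ (XX 4) (TT 4)).indicator (fun _ => (1:ℂ))) ∧
    MeasurableSet (U ∅ (XX 4) (TT 4)) := by
  have hadm := WavFam.adm ∅ (fun _ _ h _ => absurd h (Set.notMem_empty _))
    (fun _ _ h _ => absurd h (Set.notMem_empty _)) 4 le_rfl
  rw [WavFam.AA_four] at hadm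
  have hms := WavFam.measurable_sets ∅ MeasurableSet.empty 4
  have ht := WavTile.tile _ _ _ hadm
  refine ⟨WavPhase.good_indicator _ (Eventually.of_forall ht.1) ?_,
    WavTile.measurableSet_U _ _ _ MeasurableSet.empty hms.2.1 hms.2.2⟩
  have h0 : ∀ᵐ x : ℝ, x ≠ 0 := by
    rw [ae_iff]; simp
  filter_upwards [h0] with x hx
  exact ht.2 x hx

end Pool.Agent.Helper152.WavSh
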