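import Pool.Agent.Helper152.LarFin
import Pool.Agent.Helper152.WavPath
import Pool.Agent.Helper152.WavMsf
import Pool.Agent.Helper152.WavMra
import Pool.Agent.Helper152.WavMraData
import Pool.Agent.Helper152.WavCrit
import Pool.Agent.Helper152.WavSh

set_option autoImplicit false
open MeasureTheory Filter Topology
open scoped ENNReal

namespace Pool.Agent.Helper152.WavDim

open Pool.Agent.Helper152.Wav
open Pool.Agent.Helper152.Lar (w ae_orbit Zs Zs_add Zs_zero measurableSet_Zs ae_Orb int_D D_periodic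
  D_zero measurable_w)

/-- if the dimension function is positive a.e. then it is one a.e. -/
theorem dim_one (φ : ℝ → ℂ) (hm : Measurable φ)
    (A1 : ∀ᵐ x : ℝ, ∑' n : ℤ, ‖φ (x + n)‖ₑ ^ 2 = 1)
    (C : ∀ i : ℕ, 1 ≤ i → ∀ᵐ x : ℝ, ∑' n : ℤ, φ ((2:ℝ) ^ i * (x + n)) * (starRingEnd ℂ) (φ (x + n)) = 0)
    (A2 : ∀ᵐ x : ℝ, ∑' j : ℤ, ‖φ ((2:ℝ) ^ j * x)‖ₑ ^ 2 = 1)
    (hZ : volume (Zs φ) = 0) : ∀ᵐ x : ℝ, ∑' n : ℤ, w φ (x + n) = 1 := by
  have C' : ∀ᵐ x : ℝ, ∀ i : ℕ, 1 ≤ i →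
      ∑' n : ℤ, φ ((2:ℝ) ^ i * (x + n)) * (starRingEnd ℂ) (φ (x + n)) = 0 := by
    rw [ae_all_iff]
    intro i
    by_cases hi : 1 ≤ i
    · filter_upwards [C i hi] with x hx _ using hx
    · exact Filter.Eventually.of_forall fun x h => absurd h hi
  have hO := ae_Orb (A1.and (C'.and A2))
  have key : ∀ᵐ x : ℝ, (∑' n : ℤ, w φ (x + n) = 0 ∨ 1 ≤ ∑' n : ℤ, w φ (x + n)) := by
    filter_upwards [hO] with x hx
    have e : ∀ (j : ℕ) (r : ℤ), (2:ℝ) ^ (-(j:ℤ)) * x + r * (2:ℝ) ^ (-(j:ℤ)) = (x + r) / 2 ^ j := by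
      intro j r
      rw [zpow_neg, zpow_natCast]
      ring
    refine (LarD.rank_one φ x ?_ ?_ ?_ ?_).1
    · intro j r
      have := (hx (-(j:ℤ)) r (-(j:ℤ))).1
      rw [e] at this
      exact this
    · have h1 := (hx 1 0 0).1
      have e1 : (2:ℝ) ^ (1:ℤ) * x + ((0:ℤ):ℝ) * (2:ℝ) ^ (0:ℤ) = 2 * x := by simp
      rw [e1] at h1
      rw [← h1]
      have hinj : Function.Injective (fun n : ℤ => 2 * n) := fun a b h => by
        simp only at h; omega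
      have h2 := ENNReal.tsum_comp_le_tsum_of_injective hinj (fun m : ℤ => ‖φ (2 * x + m)‖ₑ ^ 2)
      refine le_trans (le_of_eq ?_) h2
      refine tsum_congr fun n => ?_
      have : 2 * (x + (n:ℝ)) = 2 * x + ((2 * n : ℤ) : ℝ) := by push_cast; ring
      rw [this]
    · intro j r i hi
      have := (hx (-(j:ℤ)) r (-(j:ℤ))).2.1 i hi
      rw [e] at this
      exact this
    · intro n
      have := (hx 0 n 0).2.2
      have e2 : (2:ℝ) ^ (0:ℤ) * x + (n:ℝ) * (2:ℝ) ^ (0:ℤ) = x + n := by simp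
      rw [e2] at this
      exact this
  have hge : ∀ᵐ x : ℝ, 1 ≤ ∑' n : ℤ, w φ (x + n) := by
    have hZ' : ∀ᵐ x : ℝ, x ∉ Zs φ := by
      rw [ae_iff]; simpa using hZ
    filter_upwards [key, hZ'] with x hx hz
    rcases hx with h | h
    · exact absurd ((D_zero φ x).1 h) hz
    · exact h
  have hmD : Measurable fun x : ℝ => ∑' n : ℤ, w φ (x + n) :=
    Measurable.tsum fun n => (measurable_w hm).comp (by fun_prop : Measurable fun x : ℝ => x + n)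
  have h1 : (fun _ : ℝ => (1:ℝ≥0∞)) =ᵐ[volume.restrict (Set.Ico (0:ℝ) 1)]
      fun x => ∑' n : ℤ, w φ (x + n) := by
    refine ae_eq_of_ae_le_of_lintegral_le (ae_restrict_of_ae hge) ?_ hmD.aemeasurable ?_
    · simp
    · rw [int_D φ hm A1]; simp
  refine LarA.ae_periodic _ (fun x m h => ?_) ?_
  · rw [D_periodic] at h; exact h
  · have := (ae_restrict_iff' measurableSet_Ico).1 h1
    filter_upwards [this] with x hx hx'
    exact (hx hx').symm

/-- the set of good functions in L2 -/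
def SG : Set (Lp ℂ 2 (volume : Measure ℝ)) := {f | Good (f : ℝ → ℂ)}

theorem lint_one {φ : ℝ → ℂ} (hm : Measurable φ) (hg : Good φ) : ∫⁻ y, ‖φ y‖ₑ ^ 2 = 1 := by
  rw [LarA.per_lintegral, ← lintegral_tsum (fun n => by fun_prop)]
  have : ∫⁻ x in Set.Ico (0:ℝ) 1, ∑' n : ℤ, ‖φ (x + n)‖ₑ ^ 2 = ∫⁻ x in Set.Ico (0:ℝ) 1, 1 :=
    lintegral_congr_ae (ae_restrict_of_ae hg.1)
  rw [this]; simp

theorem joined_of_conn {φ₀ φ₁ : ℝ → ℂ} (h : Conn φ₀ φ₁) (f₀ f₁ : Lp ℂ 2 (volume : Measure ℝ))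
    (h0 : (f₀ : ℝ → ℂ) =ᵐ[volume] φ₀) (h1 : (f₁ : ℝ → ℂ) =ᵐ[volume] φ₁) : JoinedIn SG f₀ f₁ := by
  obtain ⟨Ψ, hΨ, e0, e1, hc⟩ := h
  refine WavCrit.crit SG Ψ (fun t ht => (hΨ t ht).1) (fun t ht => lint_one (hΨ t ht).1 (hΨ t ht).2)
    hc (fun t ht f hf => WavPath.good_congr hf.symm (hΨ t ht).2) f₀ f₁ (h0.trans e0.symm)
    (h1.trans e1.symm)

theorem exists_lp {φ : ℝ → ℂ} (hm : Measurable φ) (hg : Good φ) :
    ∃ f : Lp ℂ 2 (volume : Measure ℝ), (f : ℝ → ℂ) =ᵐ[volume] φ := by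
  have hL : MemLp φ 2 volume := by
    refine ⟨hm.aestronglyMeasurable, ?_⟩
    rw [eLpNorm_lt_top_iff_lintegral_rpow_enorm_lt_top (by norm_num) (by norm_num)]
    have : ∫⁻ y, ‖φ y‖ₑ ^ (ENNReal.toReal 2) = ∫⁻ y, ‖φ y‖ₑ ^ 2 := by
      refine lintegral_congr fun y => ?_
      rw [ENNReal.toReal_ofNat, ← ENNReal.rpow_natCast]; norm_num
    rw [this, lint_one hm hg]
    exact ENNReal.one_lt_top
  exact ⟨hL.toLp φ, hL.coeFn_toLp⟩

/-- the base point -/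
noncomputable def W0 : Set ℝ := U ∅ (XX 4) (TT 4)

theorem main_conn (f₀ : Lp ℂ 2 (volume : Measure ℝ))
    (h0 : (f₀ : ℝ → ℂ) =ᵐ[volume] W0.indicator (fun _ => (1:ℂ)))
    (f : Lp ℂ 2 (volume : Measure ℝ)) (hf : f ∈ SG) : JoinedIn SG f₀ f := by
  obtain ⟨φ, hm, hφ⟩ : ∃ φ : ℝ → ℂ, Measurable φ ∧ (f : ℝ → ℂ) =ᵐ[volume] φ :=
    ⟨(Lp.aestronglyMeasurable f).mk f, (Lp.aestronglyMeasurable f).stronglyMeasurable_mk.measurable,
      (Lp.aestronglyMeasurable f).ae_eq_mk⟩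
  have hg : Good φ := WavPath.good_congr hφ hf
  by_cases hZ : volume (Zs φ) = 0
  · have D1 := dim_one φ hm hg.1 hg.2.1 hg.2.2 hZ
    obtain ⟨g, m, h, a1, a2, a3, a4, a5, a6, a7, a8, a9, a10, a11, a12⟩ :=
      WavMraData.mra_data φ hm hg D1
    have hp := WavMra.mra_path φ g m h hm hg a1 a2 a3 a4 a5 a6 a7 a8 a9 a10 a11 a12
    have hSm : MeasurableSet {y : ℝ | 1 / 2 < |y| ∧ |y| < 1} :=
      (measurableSet_lt measurable_const measurable_norm).inter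
        (measurableSet_lt measurable_norm measurable_const)
    have hq := WavMsf.msf_path _ hSm WavSh.shannon_tile.1 WavSh.shannon_tile.2
    have hgS := WavPhase.good_indicator _ WavSh.shannon_tile.1 WavSh.shannon_tile.2
    obtain ⟨f₁, hf₁⟩ := exists_lp (measurable_const.indicator hSm) hgS
    exact (joined_of_conn hq f₀ f₁ h0 hf₁).trans (joined_of_conn hp f f₁ hφ hf₁).symm
  · have H := LarE.hit (Zs φ) (measurableSet_Zs φ hm) (fun x hx n => (Zs_add φ n).2 hx) hZ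
    obtain ⟨φ', hm', hg', h01, hp⟩ := WavPath.block_path φ hm hg H
    obtain ⟨c1, c2, c3⟩ := WavPhase.phase_path φ' hm' hg' h01
    have hWm : MeasurableSet {y | ‖φ' y‖ = 1} := hm'.norm (measurableSet_singleton 1)
    have hq := WavMsf.msf_path _ hWm c2 c3
    have hgS := WavPhase.good_indicator _ c2 c3
    obtain ⟨f₁, hf₁⟩ := exists_lp (measurable_const.indicator hWm) hgS
    obtain ⟨f₂, hf₂⟩ := exists_lp hm' hg'
    exact ((joined_of_conn hq f₀ f₁ h0 hf₁).trans (joined_of_conn c1 f₂ f₁ hf₂ hf₁).symm).trans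
      (joined_of_conn hp f f₂ hφ hf₂).symm

theorem SG_pathConnected : IsPathConnected SG := by
  obtain ⟨f₀, hf₀⟩ := exists_lp (measurable_const.indicator WavSh.W0_good.2) WavSh.W0_good.1
  exact ⟨f₀, WavPath.good_congr hf₀.symm WavSh.W0_good.1, fun {f} hf => main_conn f₀ hf₀ f hf⟩

end Pool.Agent.Helper152.WavDim
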