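import Pool.Agent.Helper152.WavDefs

set_option autoImplicit false
open MeasureTheory
open scoped ENNReal FourierTransform

namespace Pool.Agent.Helper152.WavFour

open Pool.Agent.Helper152.Wav
open Pool.Agent.Helper152.Lar (w)

theorem map_aff (c b : ℝ) (hc : 0 < c) :
    Measure.map (fun x : ℝ => c * x + b) volume = ENNReal.ofReal c⁻¹ • volume := by
  have h1 : (fun x : ℝ => c * x + b) = (fun x => x + b) ∘ (fun x => c * x) := rfl
  rw [h1, ← Measure.map_map (measurable_add_const b) (measurable_const_mul c),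
    Real.map_volume_mul_left hc.ne', Measure.map_smul, map_add_right_eq_self,
    abs_of_pos (inv_pos.2 hc)]

theorem exists_op (c b : ℝ) (hc : 0 < c) (m : ℝ → ℂ) (hm : Continuous m) (M : ℝ)
    (hM : ∀ x, ‖m x‖ ≤ M) :
    ∃ A : Lp ℂ 2 (volume : Measure ℝ) → Lp ℂ 2 (volume : Measure ℝ), Continuous A ∧
      ∀ ψ : Lp ℂ 2 (volume : Measure ℝ),
        (⇑(A ψ) : ℝ → ℂ) =ᵐ[volume] fun x => m x * ψ (c * x + b) := by
  have hmeas : Measurable (fun x : ℝ => c * x + b) := by fun_prop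
  have hcomp : ∀ f : ℝ → ℂ, MemLp f 2 volume →
      MemLp (fun x => f (c * x + b)) 2 (volume : Measure ℝ) := by
    intro f hf
    have h : MemLp f 2 (Measure.map (fun x : ℝ => c * x + b) volume) := by
      rw [map_aff c b hc]
      exact hf.smul_measure ENNReal.ofReal_ne_top
    exact h.comp_of_map hmeas.aemeasurable
  have hmem : ∀ f : Lp ℂ 2 (volume : Measure ℝ),
      MemLp (fun x => m x * f (c * x + b)) 2 (volume : Measure ℝ) := by
    intro f
    refine MemLp.of_le_mul (c := M) (hcomp f (Lp.memLp f))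
      (hm.aestronglyMeasurable.mul (hcomp f (Lp.memLp f)).1) ?_
    filter_upwards with x
    rw [norm_mul]
    gcongr
    exact hM x
  let A : Lp ℂ 2 (volume : Measure ℝ) → Lp ℂ 2 (volume : Measure ℝ) := fun f => (hmem f).toLp _
  have hA : ∀ ψ : Lp ℂ 2 (volume : Measure ℝ),
        (⇑(A ψ) : ℝ → ℂ) =ᵐ[volume] fun x => m x * ψ (c * x + b) := fun ψ => (hmem ψ).coeFn_toLp
  refine ⟨A, ?_, hA⟩
  set κ : ℝ≥0∞ := ENNReal.ofReal M * (ENNReal.ofReal c⁻¹) ^ (1 / (2 : ℝ≥0∞)).toReal with hκ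
  have hκt : κ ≠ ⊤ := by
    apply ENNReal.mul_ne_top ENNReal.ofReal_ne_top
    exact ENNReal.rpow_ne_top_of_nonneg ENNReal.toReal_nonneg ENNReal.ofReal_ne_top
  have hlip : LipschitzWith κ.toNNReal A := by
    intro f g
    rw [Lp.edist_def, Lp.edist_def, ENNReal.coe_toNNReal hκt]
    have h1 : (⇑(A f) - ⇑(A g) : ℝ → ℂ) =ᵐ[volume]
        fun x => m x * (⇑f - ⇑g) (c * x + b) := by
      filter_upwards [hA f, hA g] with x h1 h2
      rw [Pi.sub_apply, h1, h2, Pi.sub_apply, mul_sub]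
    rw [eLpNorm_congr_ae h1]
    have hmeas2 : AEStronglyMeasurable (⇑f - ⇑g : ℝ → ℂ)
        (Measure.map (fun x : ℝ => c * x + b) volume) := by
      rw [map_aff c b hc]
      exact ((Lp.aestronglyMeasurable f).sub (Lp.aestronglyMeasurable g)).smul_measure _
    have h2 : eLpNorm (fun x => (⇑f - ⇑g) (c * x + b)) 2 volume =
        (ENNReal.ofReal c⁻¹) ^ (1 / (2 : ℝ≥0∞)).toReal * eLpNorm (⇑f - ⇑g) 2 volume := by
      have h3 := eLpNorm_map_measure (p := 2) hmeas2 hmeas.aemeasurable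
      rw [map_aff c b hc, eLpNorm_smul_measure_of_ne_top (by norm_num)] at h3
      rw [smul_eq_mul] at h3
      rw [h3]
      rfl
    rw [hκ, mul_assoc, ← h2]
    apply eLpNorm_le_mul_eLpNorm_of_ae_le_mul
    filter_upwards with x
    rw [norm_mul]
    gcongr
    exact hM x
  exact hlip.continuous

/-- the affine change of variables for Schwartz functions -/
theorem exists_schwartz (f : SchwartzMap ℝ ℂ) (c k : ℝ) (hc : 0 < c) (α : ℂ) :
    ∃ g : SchwartzMap ℝ ℂ, ∀ x, g x = α * f (c * x - k) := by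
  have h1 : (fun x : ℝ => c * x - k).HasTemperateGrowth := by fun_prop
  have h2 : ∃ (n : ℕ) (C : ℝ), ∀ x : ℝ, ‖x‖ ≤ C * (1 + ‖c * x - k‖) ^ n := by
    refine ⟨1, (1 + |k|) / c, fun x => ?_⟩
    rw [pow_one, div_mul_eq_mul_div, le_div_iff₀ hc]
    have h3 : ‖x‖ * c = ‖c * x - k + k‖ := by
      rw [sub_add_cancel, norm_mul, Real.norm_of_nonneg hc.le, mul_comm]
    rw [h3]
    have h4 := norm_add_le (c * x - k) k
    have h5 : ‖k‖ = |k| := Real.norm_eq_abs k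
    rw [h5] at h4
    nlinarith [norm_nonneg (c * x - k), abs_nonneg k,
      mul_nonneg (abs_nonneg k) (norm_nonneg (c * x - k))]
  refine ⟨α • SchwartzMap.compCLM ℂ h1 h2 f, fun x => ?_⟩
  simp

theorem fourier_affine (f g : SchwartzMap ℝ ℂ) (c k : ℝ) (hc : 0 < c) (α : ℂ)
    (hg : ∀ x, g x = α * f (c * x - k)) (ξ : ℝ) :
    (𝓕 g) ξ = α * (c⁻¹ : ℝ) * Complex.exp (-(2 * (Real.pi : ℂ) * Complex.I * (k : ℂ) *
      ((c⁻¹ * ξ : ℝ) : ℂ))) * (𝓕 f) (c⁻¹ * ξ) := by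
  rw [SchwartzMap.fourier_coe, SchwartzMap.fourier_coe, Real.fourier_real_eq_integral_exp_smul,
    Real.fourier_real_eq_integral_exp_smul]
  set G : ℝ → ℂ := fun y => Complex.exp (((-2 * Real.pi * ((y + k) * c⁻¹) * ξ : ℝ) : ℂ) * Complex.I) *
    (α * f y) with hG
  have h1 : ∀ x : ℝ, Complex.exp (((-2 * Real.pi * x * ξ : ℝ) : ℂ) * Complex.I) • g x =
      G (c * x - k) := by
    intro x
    rw [hG, hg x, smul_eq_mul]
    simp only
    congr 4
    field_simp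
    ring
  have h2 : ∫ x : ℝ, Complex.exp (((-2 * Real.pi * x * ξ : ℝ) : ℂ) * Complex.I) • g x =
      (c⁻¹ : ℝ) * ∫ y, G y := by
    rw [integral_congr_ae (Filter.Eventually.of_forall h1)]
    have h3 := Measure.integral_comp_mul_left (fun y => G (y - k)) c
    rw [h3, integral_sub_right_eq_self (fun y => G y) k, abs_of_pos (inv_pos.2 hc),
      Complex.real_smul]
  rw [h2]
  have h4 : ∀ y, G y = (α * Complex.exp (-(2 * (Real.pi : ℂ) * Complex.I * (k : ℂ) *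
      ((c⁻¹ * ξ : ℝ) : ℂ)))) *
      (Complex.exp (((-2 * Real.pi * y * (c⁻¹ * ξ) : ℝ) : ℂ) * Complex.I) • f y) := by
    intro y
    rw [hG, smul_eq_mul]
    simp only
    have h5 : Complex.exp (((-2 * Real.pi * ((y + k) * c⁻¹) * ξ : ℝ) : ℂ) * Complex.I) =
        Complex.exp (-(2 * (Real.pi : ℂ) * Complex.I * (k : ℂ) * ((c⁻¹ * ξ : ℝ) : ℂ))) *
        Complex.exp (((-2 * Real.pi * y * (c⁻¹ * ξ) : ℝ) : ℂ) * Complex.I) := by
      rw [← Complex.exp_add]
      congr 1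
      push_cast
      ring
    rw [h5]
    ring
  rw [integral_congr_ae (Filter.Eventually.of_forall h4), integral_const_mul]
  ring

/-- the L2 Fourier transform intertwines the two wavelet systems. -/
theorem fourier_dil (ψ u : Lp ℂ 2 (volume : Measure ℝ)) (j k : ℤ)
    (hu : (⇑u : ℝ → ℂ) =ᵐ[volume]
      fun x : ℝ => ((((2:ℝ) ^ ((j:ℝ) / 2)) : ℝ) : ℂ) * ψ ((2:ℝ) ^ j * x - (k:ℝ))) :
    (⇑(𝓕 u : Lp ℂ 2 (volume : Measure ℝ)) : ℝ → ℂ) =ᵐ[volume] fun ξ : ℝ =>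
      ((Real.sqrt ((2:ℝ) ^ (-j)) : ℝ) : ℂ) *
          Complex.exp (-(2 * (Real.pi : ℂ) * Complex.I * (k : ℂ) * ((((2:ℝ) ^ (-j)) * ξ : ℝ) : ℂ))) *
          (𝓕 ψ : Lp ℂ 2 (volume : Measure ℝ)) (((2:ℝ) ^ (-j)) * ξ) := by
  set c : ℝ := (2:ℝ) ^ j with hcdef
  have hc : 0 < c := by positivity
  have hcinv : (2:ℝ) ^ (-j) = c⁻¹ := by rw [zpow_neg]
  rw [hcinv]
  set α : ℂ := ((((2:ℝ) ^ ((j:ℝ) / 2)) : ℝ) : ℂ) with hα
  have hαc : α * (c⁻¹ : ℝ) = ((Real.sqrt c⁻¹ : ℝ) : ℂ) := by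
    rw [hα, ← Complex.ofReal_mul]
    congr 1
    have h1 : c = ((2:ℝ) ^ ((j:ℝ) / 2)) * ((2:ℝ) ^ ((j:ℝ) / 2)) := by
      rw [← Real.rpow_add (by norm_num), add_halves, Real.rpow_intCast]
    set r : ℝ := (2:ℝ) ^ ((j:ℝ) / 2) with hr
    have hr0 : 0 < r := by positivity
    rw [h1, Real.sqrt_inv, Real.sqrt_mul_self hr0.le]
    field_simp
  obtain ⟨A, hAc, hA⟩ := exists_op c (-(k:ℝ)) hc (fun _ => α) continuous_const ‖α‖
    (fun _ => le_rfl)
  have hBcont : Continuous (fun ξ : ℝ => ((Real.sqrt c⁻¹ : ℝ) : ℂ) *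
      Complex.exp (-(2 * (Real.pi : ℂ) * Complex.I * (k : ℂ) * ((c⁻¹ * ξ : ℝ) : ℂ)))) := by
    fun_prop
  obtain ⟨B, hBc, hB⟩ := exists_op c⁻¹ 0 (inv_pos.2 hc) (fun ξ : ℝ => ((Real.sqrt c⁻¹ : ℝ) : ℂ) *
      Complex.exp (-(2 * (Real.pi : ℂ) * Complex.I * (k : ℂ) * ((c⁻¹ * ξ : ℝ) : ℂ)))) hBcont
      (Real.sqrt c⁻¹) (by
        intro ξ
        rw [norm_mul, Complex.norm_real, Real.norm_of_nonneg (Real.sqrt_nonneg _)]
        have h1 : ‖Complex.exp (-(2 * (Real.pi : ℂ) * Complex.I * (k : ℂ) *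
            ((c⁻¹ * ξ : ℝ) : ℂ)))‖ = 1 := by
          have h2 : -(2 * (Real.pi : ℂ) * Complex.I * (k : ℂ) * ((c⁻¹ * ξ : ℝ) : ℂ)) =
              ((-(2 * Real.pi * k * (c⁻¹ * ξ)) : ℝ) : ℂ) * Complex.I := by
            push_cast
            ring
          rw [h2, Complex.norm_exp_ofReal_mul_I]
        rw [h1, mul_one])
  have hqmp : Measure.QuasiMeasurePreserving (fun x : ℝ => c * x + -(k:ℝ)) volume volume := by
    refine ⟨by fun_prop, ?_⟩
    rw [map_aff c _ hc]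
    exact Measure.smul_absolutelyContinuous
  have hqmp2 : Measure.QuasiMeasurePreserving (fun x : ℝ => c⁻¹ * x + 0) volume volume := by
    refine ⟨by fun_prop, ?_⟩
    rw [map_aff c⁻¹ _ (inv_pos.2 hc)]
    exact Measure.smul_absolutelyContinuous
  have key : ∀ φ : Lp ℂ 2 (volume : Measure ℝ), (𝓕 (A φ) : Lp ℂ 2 (volume : Measure ℝ)) =
      B (𝓕 φ) := by
    intro φ
    apply DenseRange.induction_on (p := fun φ : Lp ℂ 2 (volume : Measure ℝ) =>
      (𝓕 (A φ) : Lp ℂ 2 (volume : Measure ℝ)) = B (𝓕 φ))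
      (SchwartzMap.denseRange_toLpCLM (F := ℂ) (E := ℝ) (μ := volume) (p := 2)
        ENNReal.ofNat_ne_top) φ
    · apply isClosed_eq
      · exact (Lp.fourierTransformₗᵢ ℝ ℂ).continuous.comp hAc
      · exact hBc.comp (Lp.fourierTransformₗᵢ ℝ ℂ).continuous
    · intro f
      rw [SchwartzMap.toLpCLM_apply]
      obtain ⟨g, hg⟩ := exists_schwartz f c k hc α
      have e1 : A (f.toLp 2 volume) = g.toLp 2 volume := by
        apply Lp.ext
        filter_upwards [hA (f.toLp 2 volume), g.coeFn_toLp 2 volume,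
          hqmp.ae_eq_comp (f.coeFn_toLp 2 volume)] with x h1 h2 h3
        rw [h1, h2, hg x]
        simp only [Function.comp_apply] at h3
        rw [h3, sub_eq_add_neg]
      rw [e1, SchwartzMap.toLp_fourier_eq, SchwartzMap.toLp_fourier_eq]
      apply Lp.ext
      filter_upwards [hB ((𝓕 f).toLp 2 volume), (𝓕 g).coeFn_toLp 2 volume,
        hqmp2.ae_eq_comp ((𝓕 f).coeFn_toLp 2 volume)] with x h1 h2 h3
      rw [h1, h2]
      simp only [Function.comp_apply] at h3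
      rw [h3, add_zero, fourier_affine f g c k hc α hg x, hαc]
      push_cast
      ring
  have hu2 : u = A ψ := by
    apply Lp.ext
    filter_upwards [hu, hA ψ] with x h1 h2
    rw [h1, h2, sub_eq_add_neg]
  rw [hu2, key ψ]
  filter_upwards [hB (𝓕 ψ)] with x h1
  rw [h1, add_zero]

end Pool.Agent.Helper152.WavFour
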