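import Pool.Agent.Helper152.WavDefs
import Pool.Agent.Helper152.WavRow
import Pool.Agent.Helper152.WavBlk
import Pool.Agent.Helper152.WavMv

set_option autoImplicit false
open MeasureTheory Filter Topology
open scoped ENNReal

namespace Pool.Agent.Helper152.WavIter

open Pool.Agent.Helper152.Wav
open Pool.Agent.Helper152.Lar (w)
open Pool.Agent.Helper152.WavRow (rowOrth)
open Pool.Agent.Helper152.WavBlk (mv_blk)
open Pool.Agent.Helper152.WavMv (mv_inactive)






/-- done rows -/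
def AuxDone (a : ℤ → ℕ → ℂ) (k : ℤ) (j0 : ℕ) : Prop := ‖a k j0‖ = 1 ∧ ∀ j, j ≠ j0 → a k j = 0

theorem aux_sg_nonneg (a : ℤ → ℕ → ℂ) (k₀ : ℤ) (j : ℕ) : 0 ≤ sg a k₀ j :=
  Finset.sum_nonneg fun _ _ => by positivity

theorem aux_sg_succ (a : ℤ → ℕ → ℂ) (k₀ : ℤ) (j : ℕ) :
    sg a k₀ (j + 1) = sg a k₀ j + ‖a k₀ j‖ ^ 2 := Finset.sum_range_succ _ _

theorem aux_sg_zero {a : ℤ → ℕ → ℂ} {k₀ : ℤ} {j : ℕ} (h : sg a k₀ j = 0) :
    ∀ l, l < j → a k₀ l = 0 := by
  intro l hl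
  unfold sg at h
  rw [Finset.sum_eq_zero_iff_of_nonneg (fun _ _ => by positivity)] at h
  have h1 := h l (Finset.mem_range.2 hl)
  have h2 : ‖a k₀ l‖ = 0 := by
    exact pow_eq_zero_iff (two_ne_zero) |>.1 h1
  exact norm_eq_zero.1 h2

theorem aux_sg_of_zero {a : ℤ → ℕ → ℂ} {k₀ : ℤ} {j : ℕ} (h : ∀ l, l < j → a k₀ l = 0) :
    sg a k₀ j = 0 := by
  unfold sg
  apply Finset.sum_eq_zero
  intro l hl
  rw [h l (Finset.mem_range.1 hl)]
  simp

theorem aux_ss_self (a : ℤ → ℕ → ℂ) (k₀ : ℤ) (j : ℕ) : ss a k₀ k₀ j = ((sg a k₀ j : ℝ) : ℂ) := by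
  unfold ss sg
  push_cast
  apply Finset.sum_congr rfl
  intro l _
  rw [mul_comm, Complex.mul_conj, Complex.normSq_eq_norm_sq]
  push_cast
  rfl

theorem aux_row_nonzero {P : ℤ → Prop} {N : ℕ → ℤ → Prop} {a : ℤ → ℕ → ℂ} (h : Blk P N a) {k₀ : ℤ}
    (hP : P k₀) : ∃ j0, (∀ l, l < j0 → a k₀ l = 0) ∧ a k₀ j0 ≠ 0 := by
  classical
  have hex : ∃ j, a k₀ j ≠ 0 := by
    by_contra hcon
    push Not at hcon
    have h1 := h.row k₀ hP
    simp [hcon] at h1
  refine ⟨Nat.find hex, fun l hl => ?_, Nat.find_spec hex⟩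
  have := Nat.find_min hex hl
  push Not at this
  exact this

theorem aux_A {P : ℤ → Prop} {N : ℕ → ℤ → Prop} {a : ℤ → ℕ → ℂ} (_h : Blk P N a) {k₀ : ℤ}
    {j0 : ℕ} (h1 : ∀ l, l < j0 → a k₀ l = 0) (h2 : a k₀ j0 ≠ 0) :
    AuxDone (mv 1 k₀ a) k₀ j0 := by
  have hS0 : sg a k₀ j0 = 0 := aux_sg_of_zero h1
  have hn : 0 < ‖a k₀ j0‖ := norm_pos_iff.2 h2
  have hS1 : sg a k₀ (j0 + 1) ≠ 0 := by
    rw [aux_sg_succ, hS0, zero_add]
    positivity
  constructor
  · unfold mv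
    rw [if_pos (by simp), if_neg (lt_irrefl _), if_neg hS1, if_pos hS0, if_pos rfl]
    rw [norm_div, Complex.norm_real, norm_norm, div_self hn.ne']
  · intro j hj
    rcases lt_or_gt_of_ne hj with hlt | hgt
    · have hS : sg a k₀ (j + 1) = 0 := aux_sg_of_zero (fun l hl => h1 l (by omega))
      unfold mv
      rw [if_pos (by simp), if_neg (lt_irrefl _), if_pos hS]
      exact h1 j hlt
    · have hSj : sg a k₀ j ≠ 0 := by
        intro h3
        exact h2 (aux_sg_zero h3 j0 hgt)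
      have hSp : 0 < sg a k₀ j := lt_of_le_of_ne (aux_sg_nonneg _ _ _) (Ne.symm hSj)
      have hSp' : 0 < sg a k₀ (j + 1) := by
        rw [aux_sg_succ]
        positivity
      unfold mv
      rw [if_pos (by simp), if_neg (lt_irrefl _), if_neg hSp'.ne', if_neg hSj, aux_ss_self]
      have e : Real.sqrt (sg a k₀ j / sg a k₀ (j + 1)) =
          1 / Real.sqrt (sg a k₀ j * sg a k₀ (j + 1)) * sg a k₀ j := by
        rw [Real.sqrt_div hSp.le, Real.sqrt_mul hSp.le]
        have q1 : 0 < Real.sqrt (sg a k₀ j) := Real.sqrt_pos.2 hSp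
        have q2 : 0 < Real.sqrt (sg a k₀ (j + 1)) := Real.sqrt_pos.2 hSp'
        have q3 : Real.sqrt (sg a k₀ j) * Real.sqrt (sg a k₀ j) = sg a k₀ j :=
          Real.mul_self_sqrt hSp.le
        field_simp
        rw [sq]
        exact q3
      rw [e]
      push_cast
      ring

theorem aux_val (k k₀ : ℤ) (hk : k ≠ k₀) :
    ∃ i : ℕ, (2:ℤ) ^ i ∣ k - k₀ ∧ ¬ (2:ℤ) ^ (i + 1) ∣ k - k₀ := by
  classical
  have hex : ∃ i : ℕ, ¬ (2:ℤ) ^ (i + 1) ∣ k - k₀ := by
    refine ⟨(k - k₀).natAbs, fun hd => ?_⟩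
    have h1 : (k - k₀).natAbs ≠ 0 := by omega
    have h2 : 2 ^ ((k - k₀).natAbs + 1) ∣ (k - k₀).natAbs := by
      have := Int.natAbs_dvd_natAbs.2 hd
      simpa [Int.natAbs_pow] using this
    have h3 := Nat.le_of_dvd (by omega) h2
    have h4 : (k - k₀).natAbs < 2 ^ ((k - k₀).natAbs + 1) :=
      lt_trans (Nat.lt_two_pow_self) (Nat.pow_lt_pow_right (by norm_num) (Nat.lt_succ_self _))
    omega
  refine ⟨Nat.find hex, ?_, Nat.find_spec hex⟩
  rcases Nat.eq_zero_or_pos (Nat.find hex) with h0 | h0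
  · rw [h0]; simp
  · have h5 := Nat.find_min hex (m := Nat.find hex - 1) (by omega)
    push Not at h5
    have e : Nat.find hex - 1 + 1 = Nat.find hex := by omega
    rwa [e] at h5

theorem aux_B {P : ℤ → Prop} {N : ℕ → ℤ → Prop} {a : ℤ → ℕ → ℂ} (h : Blk P N a) {k k₀ : ℤ}
    (hk : k ≠ k₀) {j0 : ℕ} (hd : AuxDone a k j0) {θ : ℝ} (h0 : 0 ≤ θ) (_h1 : θ ≤ 1) (j : ℕ) :
    mv θ k₀ a k j = a k j := by
  obtain ⟨i, hi, hi'⟩ := aux_val k k₀ hk
  have ho := rowOrth h k₀ k i hi hi'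
  have hj0 : j0 ≤ i → a k₀ j0 = 0 := by
    intro hle
    unfold ss at ho
    rw [Finset.sum_eq_single j0 (fun l _ hl => by rw [hd.2 l hl, mul_zero])
      (fun h2 => absurd (Finset.mem_range.2 (by omega)) h2)] at ho
    have hne : a k j0 ≠ 0 := by
      intro h3
      have := hd.1
      rw [h3, norm_zero] at this
      norm_num at this
    rcases mul_eq_zero.1 ho with h3 | h3
    · simpa using h3
    · exact absurd h3 hne
  by_cases hdiv : (2:ℤ) ^ j ∣ k - k₀
  · have hji : j ≤ i := by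
      by_contra hcon
      push Not at hcon
      exact hi' (dvd_trans (pow_dvd_pow _ hcon) hdiv)
    have hss : ss a k₀ k j = 0 := by
      unfold ss
      apply Finset.sum_eq_zero
      intro l hl
      rw [Finset.mem_range] at hl
      by_cases hl0 : l = j0
      · subst hl0
        rw [hj0 (by omega)]
        simp
      · rw [hd.2 l hl0, mul_zero]
    unfold mv
    rw [if_pos hdiv]
    by_cases hθ : θ < 1
    · rw [if_pos hθ, if_neg hk, hss, mul_zero, sub_zero]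
      by_cases hjj : j = j0
      · subst hjj
        have hz := hj0 hji
        have hS : sg a k₀ (j + 1) = sg a k₀ j := by
          rw [aux_sg_succ, hz]
          simp
        have hpos : 0 < 1 - θ + θ * sg a k₀ j := by
          have := mul_nonneg h0 (aux_sg_nonneg a k₀ j)
          linarith
        rw [hS, div_self hpos.ne', Real.sqrt_one]
        simp
      · rw [hd.2 j hjj, mul_zero]
    · rw [if_neg hθ]
      by_cases hS1 : sg a k₀ (j + 1) = 0
      · rw [if_pos hS1]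
      · rw [if_neg hS1]
        by_cases hjj : j = j0
        · subst hjj
          have hz := hj0 hji
          have hS : sg a k₀ (j + 1) = sg a k₀ j := by
            rw [aux_sg_succ, hz]
            simp
          rw [hS] at hS1
          rw [if_neg hS1, hss, mul_zero, sub_zero, hS, div_self hS1, Real.sqrt_one]
          simp
        · rw [if_neg hk, hss, mul_zero, sub_zero, hd.2 j hjj, mul_zero]
          simp
  · unfold mv
    rw [if_neg hdiv]

theorem aux_D {θ : ℝ} (_h0 : 0 ≤ θ) (_h1 : θ ≤ 1) {a : ℤ → ℕ → ℂ} {k₀ q : ℤ} {j : ℕ}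
    (hne : mv θ k₀ a q j ≠ a q j) : (2:ℤ) ^ j ∣ q - k₀ ∧ sg a k₀ (j + 1) ≠ 0 := by
  by_cases hdiv : (2:ℤ) ^ j ∣ q - k₀
  · refine ⟨hdiv, fun hS => hne ?_⟩
    have hz := aux_sg_zero hS
    have hSj : sg a k₀ j = 0 := aux_sg_of_zero (fun l hl => hz l (by omega))
    unfold mv
    rw [if_pos hdiv]
    by_cases hθ : θ < 1
    · rw [if_pos hθ]
      by_cases hq : q = k₀
      · subst hq
        rw [if_pos rfl, hz j (by omega), mul_zero]
      · rw [if_neg hq, hz j (by omega), hS, hSj]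
        have hpos : 0 < 1 - θ + θ * 0 := by linarith
        rw [div_self hpos.ne', Real.sqrt_one]
        simp
    · rw [if_neg hθ, if_pos hS]
  · exfalso
    apply hne
    unfold mv
    rw [if_neg hdiv]

theorem aux_col {P : ℤ → Prop} {N : ℕ → ℤ → Prop} {a : ℤ → ℕ → ℂ} (h : Blk P N a) (j : ℕ) (r : ℤ)
    (R : Finset ℤ) (hR : ∀ k ∈ R, (2:ℤ) ^ j ∣ k - r) : ∑ k ∈ R, ‖a k j‖ ^ 2 ≤ 1 := by
  classical
  by_cases hN : N j r
  · have h2 : (0:ℤ) < 2 ^ j := by positivity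
    have hcol := h.col j r hN
    have hback : ∀ k ∈ R, r + 2 ^ j * ((k - r) / 2 ^ j) = k := by
      intro k hk
      rw [Int.mul_ediv_cancel' (hR k hk)]
      ring
    have hsum : ∑ k ∈ R, ‖a k j‖ₑ ^ 2 =
        ∑ m ∈ R.image (fun k => (k - r) / 2 ^ j), ‖a (r + 2 ^ j * m) j‖ₑ ^ 2 := by
      rw [Finset.sum_image]
      · apply Finset.sum_congr rfl
        intro k hk
        rw [hback k hk]
      · intro k hk k' hk' hkk
        have e1 := hback k hk
        have e2 := hback k' hk'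
        simp only at hkk
        rw [← e1, ← e2, hkk]
    have hle : ∑ k ∈ R, ‖a k j‖ₑ ^ 2 ≤ 1 := by
      rw [hsum, ← hcol]
      exact ENNReal.sum_le_tsum _
    have e : ∑ k ∈ R, ‖a k j‖ₑ ^ 2 = ENNReal.ofReal (∑ k ∈ R, ‖a k j‖ ^ 2) := by
      rw [ENNReal.ofReal_sum_of_nonneg (fun _ _ => by positivity)]
      apply Finset.sum_congr rfl
      intro k _
      rw [← ofReal_norm, ENNReal.ofReal_pow (norm_nonneg _)]
    rw [e] at hle
    exact ENNReal.ofReal_le_one.1 hle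
  · have hz : ∀ k ∈ R, a k j = 0 := by
      intro k hk
      apply h.zero
      intro hP
      apply hN
      obtain ⟨m, hm⟩ := hR k hk
      have e : k = r + 2 ^ j * m := by linarith
      have h1 := h.node k j hP
      rw [e] at h1
      exact (h.per j r m).1 h1
    have : ∑ k ∈ R, ‖a k j‖ ^ 2 = 0 := by
      apply Finset.sum_eq_zero
      intro k hk
      rw [hz k hk]
      simp
    rw [this]
    exact zero_le_one

theorem st_blk {P : ℤ → Prop} {N : ℕ → ℤ → Prop} {a : ℤ → ℕ → ℂ} (h : Blk P N a) (e : ℕ → ℤ) (n : ℕ) :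
    Blk P N (st e a n) := by
  induction n with
  | zero => exact h
  | succ n ih => exact mv_blk ih (e n) 1 zero_le_one le_rfl

/-- rows stay constant after they are done -/
theorem aux_const {P : ℤ → Prop} {N : ℕ → ℤ → Prop} {a : ℤ → ℕ → ℂ} (h : Blk P N a) (e : ℕ → ℤ)
    (he : Function.Bijective e) {n : ℕ} {j0 : ℕ} (hd : AuxDone (st e a (n + 1)) (e n) j0) (m : ℕ) :
    ∀ j, st e a (n + 1 + m) (e n) j = st e a (n + 1) (e n) j := by
  induction m with
  | zero => intro j; rfl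
  | succ m ih =>
    intro j
    have hd' : AuxDone (st e a (n + 1 + m)) (e n) j0 := by
      refine ⟨by rw [ih]; exact hd.1, fun j hj => by rw [ih]; exact hd.2 j hj⟩
    have hne : e n ≠ e (n + 1 + m) := by
      intro h1
      have := he.1 h1
      omega
    have h2 := aux_B (st_blk h e (n + 1 + m)) hne hd' zero_le_one le_rfl j
    rw [← ih j]
    exact h2

/-- every column is modified finitely often -/
theorem st_stab {P : ℤ → Prop} {N : ℕ → ℤ → Prop} {a : ℤ → ℕ → ℂ} (h : Blk P N a) (e : ℕ → ℤ)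
    (he : Function.Bijective e) (j : ℕ) (r : ℤ) :
    ∃ n₀ : ℕ, ∀ n, n₀ ≤ n → ∀ θ : ℝ, 0 ≤ θ → θ ≤ 1 → ∀ m : ℤ,
      mv θ (e n) (st e a n) (r + 2 ^ j * m) j = st e a n (r + 2 ^ j * m) j := by
  classical
  set M : Set ℕ := {n | ∃ θ : ℝ, 0 ≤ θ ∧ θ ≤ 1 ∧ ∃ m : ℤ,
      mv θ (e n) (st e a n) (r + 2 ^ j * m) j ≠ st e a n (r + 2 ^ j * m) j} with hM
  have hprop : ∀ n ∈ M, (2:ℤ) ^ j ∣ e n - r ∧ ∀ m, n < m →
      (1:ℝ) ≤ ∑ l ∈ Finset.range (j + 1), ‖st e a m (e n) l‖ ^ 2 := by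
    intro n hn
    obtain ⟨θ, h0, h1, m, hne⟩ := hn
    obtain ⟨hdiv, hS⟩ := aux_D h0 h1 hne
    have hP : P (e n) := by
      by_contra hP
      apply hne
      rw [mv_inactive θ (e n) (st e a n) (fun j => (st_blk h e n).zero (e n) j hP)]
    refine ⟨?_, fun m' hm' => ?_⟩
    · have h2 : (2:ℤ) ^ j ∣ (r + 2 ^ j * m - e n) := hdiv
      have h3 : (2:ℤ) ^ j ∣ 2 ^ j * m := Dvd.intro m rfl
      have h4 := dvd_sub h3 h2
      have e1 : 2 ^ j * m - (r + 2 ^ j * m - e n) = e n - r := by ring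
      rwa [e1] at h4
    · obtain ⟨j0, hz, hnz⟩ := aux_row_nonzero (st_blk h e n) hP
      have hj0 : j0 ≤ j := by
        by_contra hcon
        push Not at hcon
        exact hS (aux_sg_of_zero (fun l hl => hz l (by omega)))
      have hd : AuxDone (st e a (n + 1)) (e n) j0 := aux_A (st_blk h e n) hz hnz
      obtain ⟨u, rfl⟩ : ∃ u, m' = n + 1 + u := ⟨m' - (n + 1), by omega⟩
      have hc := aux_const h e he hd u
      have h5 : ‖st e a (n + 1 + u) (e n) j0‖ ^ 2 = 1 := by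
        rw [hc, hd.1, one_pow]
      rw [← h5]
      exact Finset.single_le_sum (f := fun l => ‖st e a (n + 1 + u) (e n) l‖ ^ 2)
        (fun _ _ => by positivity) (Finset.mem_range.2 (by omega))
  have hcard : ∀ M' : Finset ℕ, (∀ n ∈ M', n ∈ M) → M'.card ≤ j + 1 := by
    intro M' hM'
    set m := M'.sup id + 1 with hm
    have hlt : ∀ n ∈ M', n < m := fun n hn => Nat.lt_succ_of_le (Finset.le_sup (f := id) hn)
    have h1 : (M'.card : ℝ) ≤ ∑ n ∈ M', ∑ l ∈ Finset.range (j + 1), ‖st e a m (e n) l‖ ^ 2 := by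
      calc (M'.card : ℝ) = ∑ n ∈ M', (1:ℝ) := by simp
        _ ≤ _ := Finset.sum_le_sum fun n hn => (hprop n (hM' n hn)).2 m (hlt n hn)
    rw [Finset.sum_comm] at h1
    have h2 : ∑ l ∈ Finset.range (j + 1), ∑ n ∈ M', ‖st e a m (e n) l‖ ^ 2 ≤
        ∑ l ∈ Finset.range (j + 1), (1:ℝ) := by
      apply Finset.sum_le_sum
      intro l hl
      rw [Finset.mem_range] at hl
      have h3 := aux_col (st_blk h e m) l r (M'.image e) (fun k hk => by
        obtain ⟨n, hn, rfl⟩ := Finset.mem_image.1 hk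
        exact dvd_trans (pow_dvd_pow _ (by omega)) (hprop n (hM' n hn)).1)
      rw [Finset.sum_image (fun x _ y _ hxy => he.1 hxy)] at h3
      exact h3
    have h4 : (M'.card : ℝ) ≤ ((j + 1 : ℕ) : ℝ) := by
      refine h1.trans (h2.trans ?_)
      simp
    exact_mod_cast h4
  have hfin : M.Finite := by
    by_contra hinf
    obtain ⟨M', hM'1, hM'2⟩ := Set.Infinite.exists_subset_card_eq hinf (j + 2)
    have := hcard M' (fun n hn => hM'1 hn)
    omega
  refine ⟨hfin.toFinset.sup id + 1, fun n hn θ h0 h1 m => ?_⟩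
  by_contra hne
  have hnM : n ∈ M := ⟨θ, h0, h1, m, hne⟩
  have := Finset.le_sup (f := id) (hfin.mem_toFinset.2 hnM)
  simp only [id] at this
  omega

/-- the limit state -/
theorem st_limit {P : ℤ → Prop} {N : ℕ → ℤ → Prop} {a : ℤ → ℕ → ℂ} (h : Blk P N a) (e : ℕ → ℤ)
    (he : Function.Bijective e) :
    ∃ b : ℤ → ℕ → ℂ, Blk P N b ∧ (∀ k j, ‖b k j‖ = 0 ∨ ‖b k j‖ = 1) ∧
      ∀ (j : ℕ) (r : ℤ), ∃ n₀ : ℕ, ∀ n, n₀ ≤ n → (∀ m : ℤ, st e a n (r + 2 ^ j * m) j = b (r + 2 ^ j * m) j) ∧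
        ∀ θ : ℝ, 0 ≤ θ → θ ≤ 1 → ∀ m : ℤ,
          mv θ (e n) (st e a n) (r + 2 ^ j * m) j = b (r + 2 ^ j * m) j := by
  choose n0 hn0 using fun (p : ℕ × ℤ) => st_stab h e he p.1 p.2
  have hcst : ∀ (j : ℕ) (r : ℤ) (u : ℕ) (m : ℤ),
      st e a (n0 (j, r) + u) (r + 2 ^ j * m) j = st e a (n0 (j, r)) (r + 2 ^ j * m) j := by
    intro j r u
    induction u with
    | zero => intro m; rfl
    | succ u ih =>
      intro m
      have h1 := hn0 (j, r) (n0 (j, r) + u) (Nat.le_add_right _ _) 1 zero_le_one le_rfl m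
      rw [← ih m]
      exact h1
  have hcst' : ∀ (j : ℕ) (r : ℤ) (n : ℕ) (m : ℤ), n0 (j, r) ≤ n →
      st e a n (r + 2 ^ j * m) j = st e a (n0 (j, r)) (r + 2 ^ j * m) j := by
    intro j r n m hn
    obtain ⟨u, rfl⟩ : ∃ u, n = n0 (j, r) + u := ⟨n - n0 (j, r), by omega⟩
    exact hcst j r u m
  set b : ℤ → ℕ → ℂ := fun k j => st e a (n0 (j, k)) k j with hb
  have hbv : ∀ (j : ℕ) (r : ℤ) (n : ℕ) (m : ℤ), n0 (j, r) ≤ n →
      st e a n (r + 2 ^ j * m) j = b (r + 2 ^ j * m) j := by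
    intro j r n m hn
    have h1 := hcst' j r (max n (n0 (j, r + 2 ^ j * m))) m (hn.trans (le_max_left _ _))
    have h2 := hcst' j (r + 2 ^ j * m) (max n (n0 (j, r + 2 ^ j * m))) 0 (le_max_right _ _)
    rw [mul_zero, add_zero] at h2
    rw [hcst' j r n m hn, ← h1, h2]
  have hbk : ∀ (j : ℕ) (k : ℤ) (n : ℕ), n0 (j, k) ≤ n → st e a n k j = b k j := by
    intro j k n hn
    have h1 := hbv j k n 0 hn
    rwa [mul_zero, add_zero] at h1
  have hrow : ∀ k, P k → ∃ n j0, AuxDone (st e a n) k j0 ∧ ∀ j, b k j = st e a n k j := by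
    intro k hP
    obtain ⟨n, rfl⟩ := he.2 k
    obtain ⟨j0, hz, hnz⟩ := aux_row_nonzero (st_blk h e n) hP
    have hd : AuxDone (st e a (n + 1)) (e n) j0 := aux_A (st_blk h e n) hz hnz
    refine ⟨n + 1, j0, hd, fun j => ?_⟩
    rw [← hbk j (e n) (n + 1 + n0 (j, e n)) (Nat.le_add_left _ _)]
    exact aux_const h e he hd _ j
  have hzero : ∀ k j, ¬ P k → b k j = 0 := fun k j hP => (st_blk h e _).zero k j hP
  refine ⟨b, ⟨hzero, h.node, h.per, ?_, ?_, ?_⟩, ?_, ?_⟩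
  · intro k hP
    obtain ⟨n, j0, _, hbn⟩ := hrow k hP
    simp only [hbn]
    exact (st_blk h e n).row k hP
  · intro j r hN
    have h1 := (st_blk h e (n0 (j, r))).col j r hN
    rw [← h1]
    apply tsum_congr
    intro m
    rw [hbv j r (n0 (j, r)) m le_rfl]
  · intro i j r hij
    have h1 := (st_blk h e (max (n0 (j, r)) (n0 (i, r)))).orth i j r hij
    rw [← h1]
    apply tsum_congr
    intro m
    rw [hbv j r (max (n0 (j, r)) (n0 (i, r))) m (le_max_left _ _)]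
    have e1 : r + 2 ^ j * m = r + 2 ^ i * (2 ^ (j - i) * m) := by
      rw [← mul_assoc, ← pow_add]
      congr 3
      omega
    rw [e1, hbv i r (max (n0 (j, r)) (n0 (i, r))) _ (le_max_right _ _)]
  · intro k j
    by_cases hP : P k
    · obtain ⟨n, j0, hd, hbn⟩ := hrow k hP
      rw [hbn]
      by_cases hj : j = j0
      · right
        rw [hj]
        exact hd.1
      · left
        rw [hd.2 j hj, norm_zero]
    · left
      rw [hzero k j hP, norm_zero]
  · intro j r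
    refine ⟨n0 (j, r), fun n hn => ⟨fun m => hbv j r n m hn, fun θ h0 h1 m => ?_⟩⟩
    rw [← hbv j r n m hn]
    exact hn0 (j, r) n hn θ h0 h1 m

end Pool.Agent.Helper152.WavIter
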