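import Pool.Agent.Helper152.WavDefs

set_option autoImplicit false
open MeasureTheory
open scoped ENNReal

namespace Pool.Agent.Helper152.WavOrth

open Pool.Agent.Helper152.Wav
open Pool.Agent.Helper152.Lar (w)


section aux
open Filter Topology

lemma restrict_shift (n : ℤ) (f : ℝ → ℝ≥0∞) :
    ∫⁻ x in Set.Ico (n:ℝ) (n+1), f x = ∫⁻ x in Set.Ico (0:ℝ) 1, f (x + n) := by
  have hmp := measurePreserving_add_right volume (n:ℝ)
  have hemb : MeasurableEmbedding (fun x : ℝ => x + n) := measurableEmbedding_addRight (n:ℝ)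
  have h := hmp.setLIntegral_comp_preimage_emb hemb f (Set.Ico (n:ℝ) (n+1))
  rw [← h]
  congr 2
  ext x
  simp only [Set.mem_preimage, Set.mem_Ico]
  constructor <;> rintro ⟨h1, h2⟩ <;> constructor <;> linarith

lemma restrict_shift' (n : ℤ) (f : ℝ → ℂ) :
    ∫ x in Set.Ico (n:ℝ) (n+1), f x = ∫ x in Set.Ico (0:ℝ) 1, f (x + n) := by
  have hmp := measurePreserving_add_right volume (n:ℝ)
  have hemb : MeasurableEmbedding (fun x : ℝ => x + n) := measurableEmbedding_addRight (n:ℝ)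
  have h := hmp.setIntegral_preimage_emb hemb f (Set.Ico (n:ℝ) (n+1))
  rw [← h]
  congr 2
  ext x
  simp only [Set.mem_preimage, Set.mem_Ico]
  constructor <;> rintro ⟨h1, h2⟩ <;> constructor <;> linarith

lemma per_lintegral (f : ℝ → ℝ≥0∞) :
    ∫⁻ x, f x = ∑' n : ℤ, ∫⁻ x in Set.Ico (0:ℝ) 1, f (x + n) := by
  have h1 : ∫⁻ x, f x = ∫⁻ x in ⋃ n : ℤ, Set.Ico (n:ℝ) (n+1), f x := by
    rw [iUnion_Ico_intCast]; simp
  rw [h1, lintegral_iUnion (fun n => measurableSet_Ico) (Set.pairwise_disjoint_Ico_intCast ℝ)]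
  exact tsum_congr fun n => restrict_shift n f

lemma per_integral (h : ℝ → ℂ) (hi : Integrable h) :
    ∫ x, h x = ∫ x in Set.Ico (0:ℝ) 1, ∑' n : ℤ, h (x + n) := by
  have hmeas : ∀ n : ℤ, AEStronglyMeasurable (fun x : ℝ => h (x + n))
      (volume.restrict (Set.Ico (0:ℝ) 1)) := fun n =>
    (hi.1.comp_measurePreserving (measurePreserving_add_right volume (n:ℝ))).restrict
  have hfin : ∑' n : ℤ, ∫⁻ x in Set.Ico (0:ℝ) 1, ‖h (x + n)‖ₑ ≠ ∞ := by
    rw [← per_lintegral (fun x => ‖h x‖ₑ)]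
    exact hi.2.ne
  rw [integral_tsum hmeas hfin]
  have h1 : ∫ x, h x = ∫ x in ⋃ n : ℤ, Set.Ico (n:ℝ) (n+1), h x := by
    rw [iUnion_Ico_intCast]; simp
  rw [h1, integral_iUnion (fun n => measurableSet_Ico) (Set.pairwise_disjoint_Ico_intCast ℝ)
    hi.integrableOn]
  exact tsum_congr fun n => restrict_shift' n h

lemma norm_exp_aux (k : ℤ) (y : ℝ) :
    ‖Complex.exp (-(2 * (Real.pi : ℂ) * Complex.I * (k : ℂ) * (y : ℂ)))‖ = 1 := by
  have : (-(2 * (Real.pi : ℂ) * Complex.I * (k : ℂ) * (y : ℂ))) = ((-(2 * Real.pi * k * y) : ℝ) : ℂ) * Complex.I := by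
    push_cast; ring
  rw [this, Complex.norm_exp_ofReal_mul_I]

/-- square integrability of the dilates -/
lemma memLp_dil (φ : ℝ → ℂ) (hm : Measurable φ) (hφ : MemLp φ 2 volume) {a : ℝ} (ha : a ≠ 0) :
    MemLp (fun x => φ (a * x)) 2 volume := by
  have hm' : Measurable (fun x => φ (a * x)) := hm.comp (measurable_const_mul a)
  rw [memLp_two_iff_integrable_sq_norm hm'.aestronglyMeasurable]
  have := (memLp_two_iff_integrable_sq_norm hm.aestronglyMeasurable).mp hφ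
  exact this.comp_mul_left' ha

lemma memLp_F (φ : ℝ → ℂ) (hm : Measurable φ) (hφ : MemLp φ 2 volume) {a : ℝ} (ha : a ≠ 0) (s : ℝ) (k : ℤ) :
    MemLp (fun ξ => (s : ℂ) * Complex.exp (-(2 * (Real.pi : ℂ) * Complex.I * (k : ℂ) * ((a * ξ : ℝ) : ℂ))) *
      φ (a * ξ)) 2 volume := by
  have h1 := (memLp_dil φ hm hφ ha).const_mul (s : ℂ)
  refine h1.congr_norm ?_ ?_
  · apply Measurable.aestronglyMeasurable
    apply Measurable.mul
    · apply Measurable.const_mul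
      apply Complex.continuous_exp.measurable.comp
      fun_prop
    · exact hm.comp (measurable_const_mul a)
  · refine Filter.Eventually.of_forall fun ξ => ?_
    rw [norm_mul, norm_mul, norm_mul, norm_exp_aux, mul_one]

lemma memLp_of_good (φ : ℝ → ℂ) (hm : Measurable φ)
    (h1 : ∀ᵐ x : ℝ, ∑' n : ℤ, ‖φ (x + n)‖ₑ ^ 2 = 1) : MemLp φ 2 volume := by
  rw [memLp_two_iff_integrable_sq_norm hm.aestronglyMeasurable]
  refine ⟨(hm.norm.pow_const 2).aestronglyMeasurable, ?_⟩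
  have e1 : ∫⁻ x, ‖‖φ x‖ ^ 2‖ₑ = ∫⁻ x, ‖φ x‖ₑ ^ 2 := by
    refine lintegral_congr fun x => ?_
    rw [enorm_pow, enorm_norm]
  have e2 : ∫⁻ x, ‖φ x‖ₑ ^ 2 = 1 := by
    rw [per_lintegral (fun x => ‖φ x‖ₑ ^ 2), ← lintegral_tsum]
    · have : ∫⁻ x in Set.Ico (0:ℝ) 1, ∑' n : ℤ, ‖φ (x + n)‖ₑ ^ 2 = ∫⁻ x in Set.Ico (0:ℝ) 1, 1 :=
        lintegral_congr_ae (ae_restrict_of_ae h1)
      rw [this]
      simp
    · intro n
      exact ((hm.comp (measurable_add_const (n:ℝ))).enorm.pow_const 2).aemeasurable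
  show ∫⁻ x, ‖‖φ x‖ ^ 2‖ₑ < ⊤
  rw [e1, e2]
  exact ENNReal.one_lt_top

lemma inti (φ : ℝ → ℂ) (hm : Measurable φ) (hφ : MemLp φ 2 volume) (i : ℕ) :
    Integrable (fun x => φ ((2:ℝ)^i * x) * (starRingEnd ℂ) (φ x)) := by
  have h2 : MemLp (fun x => φ ((2:ℝ)^i * x)) 2 volume := memLp_dil φ hm hφ (by positivity)
  have h3 : MemLp (fun x => (starRingEnd ℂ) (φ x)) 2 volume := by
    have := hφ.star
    exact this
  exact h2.integrable_mul h3

lemma exp_per (m : ℤ) (x : ℝ) (n : ℤ) :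
    Complex.exp (2 * (Real.pi:ℂ) * Complex.I * (m:ℂ) * ((x + n : ℝ):ℂ)) =
      Complex.exp (2 * (Real.pi:ℂ) * Complex.I * (m:ℂ) * (x:ℂ)) := by
  have : 2 * (Real.pi:ℂ) * Complex.I * (m:ℂ) * ((x + n : ℝ):ℂ) =
      2 * (Real.pi:ℂ) * Complex.I * (m:ℂ) * (x:ℂ) + ((m * n : ℤ) : ℂ) * (2 * Real.pi * Complex.I) := by
    push_cast; ring
  rw [this, Complex.exp_add, Complex.exp_int_mul_two_pi_mul_I, mul_one]

lemma fold (φ : ℝ → ℂ) (hm : Measurable φ) (hφ : MemLp φ 2 volume) (i : ℕ) (m : ℤ) :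
    ∫ x : ℝ, (φ ((2:ℝ)^i * x) * (starRingEnd ℂ) (φ x)) *
      Complex.exp (2 * (Real.pi:ℂ) * Complex.I * (m:ℂ) * (x:ℂ)) =
    ∫ x in Set.Ico (0:ℝ) 1, (∑' n : ℤ, φ ((2:ℝ)^i * (x + n)) * (starRingEnd ℂ) (φ (x + n))) *
      Complex.exp (2 * (Real.pi:ℂ) * Complex.I * (m:ℂ) * (x:ℂ)) := by
  have hint : Integrable (fun x : ℝ => (φ ((2:ℝ)^i * x) * (starRingEnd ℂ) (φ x)) *
      Complex.exp (2 * (Real.pi:ℂ) * Complex.I * (m:ℂ) * (x:ℂ))) := by
    refine (inti φ hm hφ i).mul_bdd (c := 1) ?_ ?_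
    · have : Continuous fun x : ℝ => Complex.exp (2 * (Real.pi:ℂ) * Complex.I * (m:ℂ) * (x:ℂ)) := by
        fun_prop
      exact this.aestronglyMeasurable
    · refine Eventually.of_forall fun x => ?_
      have h := norm_exp_aux (-m) x
      have e : -(2 * (Real.pi : ℂ) * Complex.I * ((-m : ℤ) : ℂ) * (x : ℂ)) =
          2 * (Real.pi:ℂ) * Complex.I * (m:ℂ) * (x:ℂ) := by push_cast; ring
      rw [e] at h
      exact h.le
  rw [per_integral _ hint]
  refine setIntegral_congr_fun measurableSet_Ico fun x _ => ?_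
  show ∑' n : ℤ, (φ ((2:ℝ)^i * (x + n)) * (starRingEnd ℂ) (φ (x + n))) *
      Complex.exp (2 * (Real.pi:ℂ) * Complex.I * (m:ℂ) * ((x + n : ℝ):ℂ)) = _
  rw [← tsum_mul_right]
  refine tsum_congr fun n => ?_
  rw [exp_per]

lemma int_exp (m : ℤ) : ∫ x in Set.Ico (0:ℝ) 1,
    Complex.exp (2 * (Real.pi:ℂ) * Complex.I * (m:ℂ) * (x:ℂ)) = if m = 0 then 1 else 0 := by
  rw [integral_Ico_eq_integral_Ioc, ← intervalIntegral.integral_of_le zero_le_one]
  split_ifs with h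
  · subst h
    simp
  · have hc : 2 * (Real.pi:ℂ) * Complex.I * (m:ℂ) ≠ 0 := by
      have : (Real.pi : ℂ) ≠ 0 := by exact_mod_cast Real.pi_ne_zero
      have h2 : (m : ℂ) ≠ 0 := by exact_mod_cast h
      simp [this, h2, Complex.I_ne_zero]
    rw [integral_exp_mul_complex hc]
    have : 2 * (Real.pi:ℂ) * Complex.I * (m:ℂ) * ((1:ℝ):ℂ) = (m : ℂ) * (2 * Real.pi * Complex.I) := by
      push_cast; ring
    rw [this, Complex.exp_int_mul_two_pi_mul_I]
    simp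

lemma tsum_one (φ : ℝ → ℂ) (x : ℝ) (h : ∑' n : ℤ, ‖φ (x + n)‖ₑ ^ 2 = 1) :
    ∑' n : ℤ, φ (x + n) * (starRingEnd ℂ) (φ (x + n)) = 1 := by
  have h1 : ∀ n : ℤ, ‖φ (x + n)‖ₑ ^ 2 = ENNReal.ofReal (‖φ (x + n)‖ ^ 2) := by
    intro n
    rw [← ofReal_norm, ENNReal.ofReal_pow (norm_nonneg _)]
  have h2 : ∀ n : ℤ, φ (x + n) * (starRingEnd ℂ) (φ (x + n)) = ((‖φ (x + n)‖ ^ 2 : ℝ) : ℂ) := by
    intro n
    rw [Complex.mul_conj']
    push_cast; rfl
  have h3 : Summable fun n : ℤ => ‖φ (x + n)‖ ^ 2 := by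
    have : ∑' n : ℤ, ((‖φ (x + n)‖₊ ^ 2 : NNReal) : ℝ≥0∞) ≠ ∞ := by
      have e : ∀ n : ℤ, ((‖φ (x + n)‖₊ ^ 2 : NNReal) : ℝ≥0∞) = ‖φ (x + n)‖ₑ ^ 2 := by
        intro n
        rw [enorm_eq_nnnorm]
        push_cast
        rfl
      rw [tsum_congr e, h]
      exact ENNReal.one_ne_top
    have h5 := NNReal.summable_coe.2 (ENNReal.tsum_coe_ne_top_iff_summable.1 this)
    refine h5.congr fun n => ?_
    push_cast
    rfl
  simp only [h1] at h
  rw [← ENNReal.ofReal_tsum_of_nonneg (fun n => by positivity) h3] at h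
  have h4 : ∑' n : ℤ, ‖φ (x + n)‖ ^ 2 = 1 := by
    have := congrArg ENNReal.toReal h
    rw [ENNReal.toReal_ofReal (tsum_nonneg fun n => by positivity)] at this
    simpa using this
  simp only [h2]
  rw [← Complex.ofReal_tsum, h4]
  simp

end aux

/-- the fibre conditions imply orthonormality of the wavelet system (frequency side). -/
theorem orth_of_good (φ : ℝ → ℂ) (F : ℤ → ℤ → ℝ → ℂ) (hm : Measurable φ) (hg : Good φ)
    (hF : ∀ (j k : ℤ) (ξ : ℝ), F j k ξ =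
        ((Real.sqrt ((2:ℝ) ^ (-j)) : ℝ) : ℂ) *
          Complex.exp (-(2 * (Real.pi : ℂ) * Complex.I * (k : ℂ) * ((((2:ℝ) ^ (-j)) * ξ : ℝ) : ℂ))) *
          φ (((2:ℝ) ^ (-j)) * ξ)) :
    (∀ j k : ℤ, MemLp (F j k) 2 volume) ∧
    (∀ j k j' k' : ℤ, ∫ ξ, F j k ξ * (starRingEnd ℂ) (F j' k' ξ) =
        if j = j' ∧ k = k' then (1:ℂ) else 0) := by
  obtain ⟨g1, g2, _⟩ := hg
  have hφ := memLp_of_good φ hm g1
  refine ⟨?_, ?_⟩
  · intro j k
    have := memLp_F φ hm hφ (a := (2:ℝ) ^ (-j)) (by positivity) (Real.sqrt ((2:ℝ) ^ (-j))) k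
    have e : F j k = fun ξ => ((Real.sqrt ((2:ℝ) ^ (-j)) : ℝ) : ℂ) *
          Complex.exp (-(2 * (Real.pi : ℂ) * Complex.I * (k : ℂ) * ((((2:ℝ) ^ (-j)) * ξ : ℝ) : ℂ))) *
          φ (((2:ℝ) ^ (-j)) * ξ) := funext (hF j k)
    rw [e]
    exact this
  · -- the ordered case
    have key : ∀ (j k j' k' : ℤ), j ≤ j' → ∫ ξ, F j k ξ * (starRingEnd ℂ) (F j' k' ξ) =
        if j = j' ∧ k = k' then (1:ℂ) else 0 := by
      intro j k j' k' hjj
      obtain ⟨i, hi⟩ : ∃ i : ℕ, j' = j + i := ⟨(j' - j).toNat, by omega⟩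
      have hpow : (2:ℝ) ^ (-j) = (2:ℝ) ^ i * (2:ℝ) ^ (-j') := by
        rw [← zpow_natCast, ← zpow_add₀ (by norm_num)]
        congr 1
        omega
      have hpt : ∀ ξ : ℝ, F j k ξ * (starRingEnd ℂ) (F j' k' ξ) =
          (((Real.sqrt ((2:ℝ) ^ (-j)) : ℝ) : ℂ) * ((Real.sqrt ((2:ℝ) ^ (-j')) : ℝ) : ℂ)) *
          ((fun x : ℝ => (φ ((2:ℝ)^i * x) * (starRingEnd ℂ) (φ x)) *
            Complex.exp (2 * (Real.pi:ℂ) * Complex.I * ((k' - k * 2 ^ i : ℤ):ℂ) * (x:ℂ)))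
              ((2:ℝ) ^ (-j') * ξ)) := by
        intro ξ
        rw [hF, hF]
        simp only [map_mul, Complex.conj_ofReal]
        rw [← Complex.exp_conj]
        have e1 : (2:ℝ) ^ (-j) * ξ = (2:ℝ) ^ i * ((2:ℝ) ^ (-j') * ξ) := by
          rw [hpow]; ring
        rw [e1]
        have e2 : Complex.exp (2 * (Real.pi:ℂ) * Complex.I * ((k' - k * 2 ^ i : ℤ):ℂ) *
            (((2:ℝ) ^ (-j') * ξ : ℝ):ℂ)) =
            Complex.exp (-(2 * (Real.pi : ℂ) * Complex.I * (k : ℂ) *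
              (((2:ℝ) ^ i * ((2:ℝ) ^ (-j') * ξ) : ℝ) : ℂ))) *
            Complex.exp ((starRingEnd ℂ) (-(2 * (Real.pi : ℂ) * Complex.I * (k' : ℂ) *
              ((((2:ℝ) ^ (-j')) * ξ : ℝ) : ℂ)))) := by
          rw [← Complex.exp_add]
          congr 1
          simp only [map_neg, map_mul, Complex.conj_I, Complex.conj_ofReal, map_ofNat, map_intCast]
          push_cast
          ring
        rw [e2]
        ring
      rw [integral_congr_ae (Filter.Eventually.of_forall hpt), integral_const_mul,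
        Measure.integral_comp_mul_left (fun x : ℝ => (φ ((2:ℝ)^i * x) * (starRingEnd ℂ) (φ x)) *
            Complex.exp (2 * (Real.pi:ℂ) * Complex.I * ((k' - k * 2 ^ i : ℤ):ℂ) * (x:ℂ))),
        fold φ hm hφ]
      rcases Nat.eq_zero_or_pos i with h0 | h0
      · subst h0
        have hj : j = j' := by simpa using hi.symm
        subst hj
        have e3 : ∫ x in Set.Ico (0:ℝ) 1,
            (∑' n : ℤ, φ ((2:ℝ)^0 * (x + n)) * (starRingEnd ℂ) (φ (x + n))) *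
            Complex.exp (2 * (Real.pi:ℂ) * Complex.I * ((k' - k * 2 ^ 0 : ℤ):ℂ) * (x:ℂ)) =
            ∫ x in Set.Ico (0:ℝ) 1,
            Complex.exp (2 * (Real.pi:ℂ) * Complex.I * ((k' - k * 2 ^ 0 : ℤ):ℂ) * (x:ℂ)) := by
          refine integral_congr_ae (ae_restrict_of_ae ?_)
          filter_upwards [g1] with x hx
          have := tsum_one φ x hx
          simp only [pow_zero, one_mul] at *
          rw [this, one_mul]
        rw [e3, int_exp]
        have hpos : (0:ℝ) < (2:ℝ) ^ (-j) := by positivity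
        rw [abs_of_pos (inv_pos.2 hpos), ← Complex.ofReal_mul, Real.mul_self_sqrt hpos.le,
          Complex.real_smul, ← mul_assoc, ← Complex.ofReal_mul, mul_inv_cancel₀ hpos.ne',
          Complex.ofReal_one, one_mul]
        have e4 : (k' - k * 2 ^ 0 = 0) ↔ (j = j ∧ k = k') := by
          constructor
          · intro h; exact ⟨rfl, by simpa using (sub_eq_zero.1 h).symm⟩
          · rintro ⟨_, h⟩; simp [h]
        by_cases h : k' - k * 2 ^ 0 = 0
        · rw [if_pos h, if_pos (e4.1 h)]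
        · rw [if_neg h, if_neg (fun h' => h (e4.2 h'))]
      · have e3 : ∫ x in Set.Ico (0:ℝ) 1,
            (∑' n : ℤ, φ ((2:ℝ)^i * (x + n)) * (starRingEnd ℂ) (φ (x + n))) *
            Complex.exp (2 * (Real.pi:ℂ) * Complex.I * ((k' - k * 2 ^ i : ℤ):ℂ) * (x:ℂ)) =
            ∫ x in Set.Ico (0:ℝ) 1, (0:ℂ) := by
          refine integral_congr_ae (ae_restrict_of_ae ?_)
          filter_upwards [g2 i h0] with x hx
          rw [hx, zero_mul]
        rw [e3, integral_zero, smul_zero, mul_zero, if_neg]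
        rintro ⟨h1, _⟩
        omega
    intro j k j' k'
    rcases le_total j j' with h | h
    · exact key j k j' k' h
    · have h1 := key j' k' j k h
      have h2 : ∫ ξ, F j k ξ * (starRingEnd ℂ) (F j' k' ξ) =
          (starRingEnd ℂ) (∫ ξ, F j' k' ξ * (starRingEnd ℂ) (F j k ξ)) := by
        rw [← integral_conj]
        refine integral_congr_ae (Filter.Eventually.of_forall fun x => ?_)
        simp only [map_mul, Complex.conj_conj]
        ring
      rw [h2, h1]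
      by_cases hh : j = j' ∧ k = k'
      · rw [if_pos hh, if_pos ⟨hh.1.symm, hh.2.symm⟩]; simp
      · rw [if_neg hh, if_neg (fun h' => hh ⟨h'.1.symm, h'.2.symm⟩)]; simp

end Pool.Agent.Helper152.WavOrth
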