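import Pool.Agent.Helper152.WavDim
import Pool.Agent.Helper152.WavFour
import Pool.Agent.Helper152.WavOrth
import Pool.Agent.Helper152.WavCompl

set_option autoImplicit false
open MeasureTheory Filter Topology
open scoped ENNReal FourierTransform

namespace Pool.Agent.Helper152.WavTrans

open Pool.Agent.Helper152.Wav
open Pool.Agent.Helper152.Lar (ae_affine)
open Pool.Agent.Helper152.WavDim (SG SG_pathConnected)

/-- the time side set of orthonormal wavelets -/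
def SW : Set (Lp ℂ 2 (volume : Measure ℝ)) := {ψ : Lp ℂ 2 (volume : Measure ℝ) |
      ∃ b : HilbertBasis (ℤ × ℤ) ℂ (Lp ℂ 2 (volume : Measure ℝ)),
        ∀ j k : ℤ, (⇑(b (j, k)) : ℝ → ℂ) =ᵐ[volume]
          fun x : ℝ => ((((2:ℝ) ^ ((j:ℝ) / 2)) : ℝ) : ℂ) * ψ ((2:ℝ) ^ j * x - (k:ℝ))}

/-- the frequency side system -/
noncomputable def FF (φ : ℝ → ℂ) (j k : ℤ) (ξ : ℝ) : ℂ :=
  ((Real.sqrt ((2:ℝ) ^ (-j)) : ℝ) : ℂ) *
          Complex.exp (-(2 * (Real.pi : ℂ) * Complex.I * (k : ℂ) * ((((2:ℝ) ^ (-j)) * ξ : ℝ) : ℂ))) *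
          φ (((2:ℝ) ^ (-j)) * ξ)

theorem FF_congr {φ φ' : ℝ → ℂ} (h : φ =ᵐ[volume] φ') (j k : ℤ) : FF φ j k =ᵐ[volume] FF φ' j k := by
  have h1 := ae_affine (P := fun x => φ x = φ' x) h ((2:ℝ) ^ (-j)) 0 (by positivity)
  filter_upwards [h1] with x hx
  rw [add_zero] at hx
  unfold FF
  rw [hx]

theorem inner_eq (f g : Lp ℂ 2 (volume : Measure ℝ)) {f' g' : ℝ → ℂ} (hf : (f : ℝ → ℂ) =ᵐ[volume] f')
    (hg : (g : ℝ → ℂ) =ᵐ[volume] g') : inner ℂ f g = ∫ x, g' x * (starRingEnd ℂ) (f' x) := by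
  rw [L2.inner_def]
  apply integral_congr_ae
  filter_upwards [hf, hg] with x h1 h2
  rw [RCLike.inner_apply, h1, h2]

theorem mem_of_good (ψ : Lp ℂ 2 (volume : Measure ℝ))
    (h : (𝓕 ψ : Lp ℂ 2 (volume : Measure ℝ)) ∈ SG) : ψ ∈ SW := by
  obtain ⟨φ, hm, hφ⟩ : ∃ φ : ℝ → ℂ, Measurable φ ∧
      ((𝓕 ψ : Lp ℂ 2 (volume : Measure ℝ)) : ℝ → ℂ) =ᵐ[volume] φ :=
    ⟨(Lp.aestronglyMeasurable _).mk _, (Lp.aestronglyMeasurable _).stronglyMeasurable_mk.measurable,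
      (Lp.aestronglyMeasurable _).ae_eq_mk⟩
  have hg : Good φ := WavPath.good_congr hφ h
  have hu : ∀ p : ℤ × ℤ, ∃ u : Lp ℂ 2 (volume : Measure ℝ), (⇑u : ℝ → ℂ) =ᵐ[volume]
      fun x : ℝ => ((((2:ℝ) ^ ((p.1:ℝ) / 2)) : ℝ) : ℂ) * ψ ((2:ℝ) ^ p.1 * x - (p.2:ℝ)) := by
    intro p
    obtain ⟨A, _, hA⟩ := WavFour.exists_op ((2:ℝ) ^ p.1) (-(p.2:ℝ)) (by positivity)
      (fun _ => ((((2:ℝ) ^ ((p.1:ℝ) / 2)) : ℝ) : ℂ)) continuous_const
      ‖((((2:ℝ) ^ ((p.1:ℝ) / 2)) : ℝ) : ℂ)‖ (fun _ => le_rfl)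
    exact ⟨A ψ, by simpa [sub_eq_add_neg] using hA ψ⟩
  choose u hu' using hu
  have hFu : ∀ p : ℤ × ℤ, ((𝓕 (u p) : Lp ℂ 2 (volume : Measure ℝ)) : ℝ → ℂ) =ᵐ[volume] FF φ p.1 p.2 := by
    intro p
    exact (WavFour.fourier_dil ψ (u p) p.1 p.2 (hu' p)).trans (FF_congr hφ p.1 p.2)
  have hor := WavOrth.orth_of_good φ (FF φ) hm hg (fun _ _ _ => rfl)
  have hon : Orthonormal ℂ u := by
    rw [orthonormal_iff_ite]
    intro p q
    rw [← Lp.inner_fourier_eq (u p) (u q), inner_eq _ _ (hFu p) (hFu q), hor.2 q.1 q.2 p.1 p.2]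
    by_cases hpq : p = q
    · subst hpq; simp
    · have : ¬ (q.1 = p.1 ∧ q.2 = p.2) := fun h' => hpq (Prod.ext h'.1.symm h'.2.symm)
      simp [hpq, this]
  have hco : (Submodule.span ℂ (Set.range u))ᗮ = ⊥ := by
    rw [Submodule.eq_bot_iff]
    intro g hgm
    have h1 : ∀ p, inner ℂ (u p) g = 0 := fun p =>
      (Submodule.mem_orthogonal _ _).1 hgm _ (Submodule.subset_span ⟨p, rfl⟩)
    have h2 : ∀ j k : ℤ, ∫ ξ, (𝓕 g : Lp ℂ 2 (volume : Measure ℝ)) ξ * (starRingEnd ℂ) (FF φ j k ξ) = 0 := by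
      intro j k
      rw [← inner_eq (𝓕 (u (j, k))) (𝓕 g) (hFu (j, k)) (EventuallyEq.refl _ _),
        Lp.inner_fourier_eq, h1]
    have h3 := WavCompl.complete_of_good φ (FF φ) hm hg (fun _ _ _ => rfl)
      (𝓕 g : Lp ℂ 2 (volume : Measure ℝ)) (Lp.memLp _) h2
    have h4 : (𝓕 g : Lp ℂ 2 (volume : Measure ℝ)) = 0 := by
      apply Lp.ext
      exact h3.trans (Lp.coeFn_zero ℂ 2 volume).symm
    have h5 : ‖(𝓕 g : Lp ℂ 2 (volume : Measure ℝ))‖ = ‖g‖ := Lp.norm_fourier_eq g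
    rw [h4, norm_zero] at h5
    exact norm_eq_zero.1 h5.symm
  refine ⟨HilbertBasis.mkOfOrthogonalEqBot hon hco, fun j k => ?_⟩
  rw [HilbertBasis.coe_mkOfOrthogonalEqBot]
  exact hu' (j, k)

theorem good_of_mem (ψ : Lp ℂ 2 (volume : Measure ℝ)) (h : ψ ∈ SW) :
    (𝓕 ψ : Lp ℂ 2 (volume : Measure ℝ)) ∈ SG := by
  obtain ⟨b, hb⟩ := h
  obtain ⟨φ, hm, hφ⟩ : ∃ φ : ℝ → ℂ, Measurable φ ∧
      ((𝓕 ψ : Lp ℂ 2 (volume : Measure ℝ)) : ℝ → ℂ) =ᵐ[volume] φ :=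
    ⟨(Lp.aestronglyMeasurable _).mk _, (Lp.aestronglyMeasurable _).stronglyMeasurable_mk.measurable,
      (Lp.aestronglyMeasurable _).ae_eq_mk⟩
  have hFb : ∀ j k : ℤ, ((𝓕 (b (j, k)) : Lp ℂ 2 (volume : Measure ℝ)) : ℝ → ℂ) =ᵐ[volume] FF φ j k := by
    intro j k
    exact (WavFour.fourier_dil ψ (b (j, k)) j k (hb j k)).trans (FF_congr hφ j k)
  have hφL : MemLp φ 2 volume := (Lp.memLp (𝓕 ψ : Lp ℂ 2 (volume : Measure ℝ))).ae_eq hφ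
  have ho : ∀ j k j' k' : ℤ, ∫ ξ, FF φ j k ξ * (starRingEnd ℂ) (FF φ j' k' ξ) =
        if j = j' ∧ k = k' then (1:ℂ) else 0 := by
    intro j k j' k'
    rw [← inner_eq (𝓕 (b (j', k'))) (𝓕 (b (j, k))) (hFb j' k') (hFb j k), Lp.inner_fourier_eq]
    have := orthonormal_iff_ite.1 b.orthonormal (j', k') (j, k)
    rw [this]
    by_cases hpq : j = j' ∧ k = k'
    · obtain ⟨rfl, rfl⟩ := hpq; simp
    · have : ¬ ((j', k') = (j, k)) := fun h' => by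
        rw [Prod.mk.injEq] at h'
        exact hpq ⟨h'.1.symm, h'.2.symm⟩
      simp [hpq, this]
  have hc : ∀ g : ℝ → ℂ, MemLp g 2 volume →
        (∀ j k : ℤ, ∫ ξ, g ξ * (starRingEnd ℂ) (FF φ j k ξ) = 0) → g =ᵐ[volume] 0 := by
    intro g hg h0
    obtain ⟨G, hG⟩ : ∃ G : Lp ℂ 2 (volume : Measure ℝ), G = hg.toLp g := ⟨_, rfl⟩
    have hGg : (G : ℝ → ℂ) =ᵐ[volume] g := hG ▸ hg.coeFn_toLp
    obtain ⟨H, hH⟩ : ∃ H : Lp ℂ 2 (volume : Measure ℝ), (𝓕 H : Lp ℂ 2 (volume : Measure ℝ)) = G :=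
      ⟨𝓕⁻ G, FourierTransform.fourier_fourierInv_eq G⟩
    have h1 : ∀ p : ℤ × ℤ, inner ℂ (b p) H = 0 := by
      intro p
      rw [← Lp.inner_fourier_eq (b p) H, hH, inner_eq _ _ (hFb p.1 p.2) hGg]
      exact h0 p.1 p.2
    have h2 : H = 0 := by
      have h3 := b.hasSum_repr H
      have h4 : ∀ p, b.repr H p = 0 := fun p => by rw [b.repr_apply_apply]; exact h1 p
      simp only [h4, zero_smul] at h3
      exact h3.unique hasSum_zero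
    have h5 : G = 0 := by
      rw [← hH, h2]
      have := Lp.norm_fourier_eq (0 : Lp ℂ 2 (volume : Measure ℝ))
      rw [norm_zero] at this
      exact norm_eq_zero.1 this
    rw [h5] at hGg
    exact hGg.symm.trans (Lp.coeFn_zero ℂ 2 volume)
  have hfib := LarA.fibre φ (FF φ) hm hφL (fun _ _ _ => rfl) ho
  have hcal := LarB.calderon φ (FF φ) hm hφL (fun _ _ _ => rfl) ho hc
  exact WavPath.good_congr hφ.symm ⟨hfib.1, hfib.2, hcal⟩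

theorem SW_pathConnected : IsPathConnected SW := by
  have h := SG_pathConnected.image (f := fun g : Lp ℂ 2 (volume : Measure ℝ) =>
    (𝓕⁻ g : Lp ℂ 2 (volume : Measure ℝ)))
    (Lp.fourierTransformₗᵢ ℝ ℂ).symm.continuous
  convert h using 1
  ext ψ
  constructor
  · intro hψ
    exact ⟨𝓕 ψ, good_of_mem ψ hψ, FourierTransform.fourierInv_fourier_eq ψ⟩
  · rintro ⟨g, hg, rfl⟩
    apply mem_of_good
    rw [FourierTransform.fourier_fourierInv_eq g]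
    exact hg

end Pool.Agent.Helper152.WavTrans
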