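import Pool.Agent.Helper152.WavDefs

set_option autoImplicit false
open MeasureTheory Filter Topology
open scoped ENNReal

namespace Pool.Agent.Helper152.Wd

/-- node dimensions of a block -/
structure Dat (d : ℕ → ℤ → ℕ) (P : ℤ → Prop) (N : ℕ → ℤ → Prop) : Prop where
  root : ∀ r, d 0 r = 0
  per : ∀ (j : ℕ) (r m : ℤ), d j (r + 2 ^ j * m) = d j r
  add : ∀ (j : ℕ) (r : ℤ), d (j + 1) r + d (j + 1) (r + 2 ^ j) = d j r + 1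
  act : ∀ k, P k ↔ ∀ i : ℕ, 1 ≤ i → 1 ≤ d i k
  nod : ∀ (j : ℕ) (r : ℤ), N j r ↔ ∀ i : ℕ, 1 ≤ i → i ≤ j → 1 ≤ d i r
  many : ∀ (j : ℕ) (r : ℤ), N j r → (d j r : ℕ∞) ≤ {k : ℤ | (2:ℤ) ^ j ∣ k - r ∧ P k}.encard

/-- greedy ranks -/
structure Fam (e : ℕ → ℤ) (d : ℕ → ℤ → ℕ) (P : ℤ → Prop) (f : ℕ → ℕ → ℤ → ℕ) : Prop where
  f0 : ∀ (j : ℕ) (r : ℤ), f 0 j r = 0
  f1 : ∀ (n j : ℕ) (r : ℤ), f n j r = min (d j r) (f n (j + 1) r + f n (j + 1) (r + 2 ^ j))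
  f2 : ∀ (n j : ℕ) (r : ℤ), ¬ (P (e n) ∧ (2:ℤ) ^ j ∣ e n - r) → f (n + 1) j r = f n j r
  f3 : ∀ (n j : ℕ) (r : ℤ), f n j r ≤ f (n + 1) j r ∧ f (n + 1) j r ≤ f n j r + 1
  f4 : ∀ n : ℕ, P (e n) → ∃ J : ℕ, ∀ j, J ≤ j → f (n + 1) j (e n) = 1 ∧ f n j (e n) = 0
  f5 : ∀ (n j : ℕ) (r m : ℤ), f n j (r + 2 ^ j * m) = f n j r

/-- a matching between active rows and nodes with the right number of rows below every node -/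
structure Mt (P : ℤ → Prop) (N : ℕ → ℤ → Prop) (d : ℕ → ℤ → ℕ) (lam : ℤ → ℕ) : Prop where
  node : ∀ k j, P k → N j k
  per : ∀ (j : ℕ) (r m : ℤ), N j (r + 2 ^ j * m) ↔ N j r
  uniq : ∀ (j : ℕ) (r : ℤ), N j r → ∃! k : ℤ, (2:ℤ) ^ j ∣ k - r ∧ P k ∧ lam k = j
  cnt : ∀ (j : ℕ) (r : ℤ), N j r → {k : ℤ | (2:ℤ) ^ j ∣ k - r ∧ P k ∧ lam k < j}.encard = d j r

/-- separation level of the first n rows -/
def LL (e : ℕ → ℤ) (n : ℕ) : ℕ := 1 + ∑ i ∈ Finset.range n, (e i).natAbs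

open Classical in
/-- number of active rows among the first n in a node -/
noncomputable def cnt0 (e : ℕ → ℤ) (d : ℕ → ℤ → ℕ) (n j : ℕ) (r : ℤ) : ℕ :=
  ∑ i ∈ Finset.range n, if (∀ i' : ℕ, 1 ≤ i' → 1 ≤ d i' (e i)) ∧ (2:ℤ) ^ j ∣ e i - r then 1 else 0

/-- greedy ranks, computed to a given depth -/
noncomputable def fd (e : ℕ → ℤ) (d : ℕ → ℤ → ℕ) (n : ℕ) : ℕ → ℕ → ℤ → ℕ
  | 0, j, r => cnt0 e d n j r
  | (D + 1), j, r => min (d j r) (fd e d n D (j + 1) r + fd e d n D (j + 1) (r + 2 ^ j))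

/-- greedy ranks -/
noncomputable def ff (e : ℕ → ℤ) (d : ℕ → ℤ → ℕ) (n j : ℕ) (r : ℤ) : ℕ := fd e d n (LL e n) j r

open Classical in
/-- greedy level of a row with index n -/
noncomputable def lamf (e : ℕ → ℤ) (f : ℕ → ℕ → ℤ → ℕ) (n : ℕ) : ℕ :=
  sInf {j : ℕ | f (n + 1) (j + 1) (e n) = f n (j + 1) (e n) + 1}

/-- exchange of the levels of two rows -/
def swp (lam : ℤ → ℕ) (k t : ℤ) (x : ℤ) : ℕ := if x = k then lam t else if x = t then lam k else lam x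

open Classical in
/-- the state of a matching -/
noncomputable def sta (P : ℤ → Prop) (lam : ℤ → ℕ) (k : ℤ) (j : ℕ) : ℂ := if P k ∧ lam k = j then 1 else 0

/-- interpolation between two states -/
noncomputable def rot (P : ℤ → Prop) (lam lam' : ℤ → ℕ) (θ : ℝ) (x : ℤ) (j : ℕ) : ℂ :=
  (1 + Complex.exp (((Real.pi * θ : ℝ) : ℂ) * Complex.I)) / 2 * sta P lam x j +
  (1 - Complex.exp (((Real.pi * θ : ℝ) : ℂ) * Complex.I)) / 2 * sta P lam' x j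

/-- condition for an exchange -/
def cnd (P : ℤ → Prop) (e : ℕ → ℤ) (lam mu : ℤ → ℕ) (n m : ℕ) : Prop :=
  P (e n) ∧ P (e m) ∧ n < m ∧ (∀ i < n, P (e i) → lam (e i) = mu (e i)) ∧
  ((mu (e n) < lam (e n) ∧ (2:ℤ) ^ (lam (e n)) ∣ e m - e n ∧ lam (e m) < lam (e n)) ∨
   (lam (e n) < mu (e n) ∧ (2:ℤ) ^ (mu (e n)) ∣ e m - e n ∧ lam (e m) = mu (e n)))

open Classical in
/-- the sequence of exchanges leading from lam to mu -/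
noncomputable def sq (P : ℤ → Prop) (e : ℕ → ℤ) (mu lam : ℤ → ℕ) : ℕ → ℤ → ℕ
  | 0 => lam
  | (s + 1) => if cnd P e (sq P e mu lam s) mu (Nat.unpair (Nat.unpair s).1).1 (Nat.unpair (Nat.unpair s).1).2
      then swp (sq P e mu lam s) (e (Nat.unpair (Nat.unpair s).1).1) (e (Nat.unpair (Nat.unpair s).1).2)
      else sq P e mu lam s

/-- good functions with dimension function D -/
def GoodD (D : ℝ → ℕ) (φ : ℝ → ℂ) : Prop :=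
  Wav.Good φ ∧ ∀ᵐ x : ℝ, ∑' n : ℤ, Lar.w φ (x + n) = (D x : ℝ≥0∞)

/-- joined by a path of good functions with dimension function D -/
def ConnD (D : ℝ → ℕ) (φ₀ φ₁ : ℝ → ℂ) : Prop :=
  ∃ Ψ : ℝ → ℝ → ℂ, (∀ t ∈ Set.Icc (0:ℝ) 1, Measurable (Ψ t) ∧ GoodD D (Ψ t)) ∧
    Ψ 0 =ᵐ[volume] φ₀ ∧ Ψ 1 =ᵐ[volume] φ₁ ∧
    ∀ t₀ ∈ Set.Icc (0:ℝ) 1, ∀ᵐ y : ℝ, Ψ t₀ y ≠ 0 →
      ContinuousWithinAt (fun t => Ψ t y) (Set.Icc 0 1) t₀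

/-- a state has node dimensions d -/
def DimS (N : ℕ → ℤ → Prop) (d : ℕ → ℤ → ℕ) (a : ℤ → ℕ → ℂ) : Prop :=
  ∀ (j : ℕ) (r : ℤ), N j r →
    ∑' q : ℤ, ∑ l ∈ Finset.range j, ‖a (r + 2 ^ j * q) l‖ₑ ^ 2 = (d j r : ℝ≥0∞)

/-- node dimensions of the block at ξ -/
noncomputable def dd (D : ℝ → ℕ) (ξ : ℝ) (j : ℕ) (r : ℤ) : ℕ := D ((ξ + r) / 2 ^ j)

/-- points where D vanishes -/
def ZZ (D : ℝ → ℕ) : Set ℝ := {x | D x = 0}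

end Pool.Agent.Helper152.Wd
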