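import Pool.Agent.Helper152.WdDefs
import Pool.Agent.Helper152.LarHit

set_option autoImplicit false
open MeasureTheory Filter Topology
open scoped ENNReal

namespace Pool.Agent.Helper152.WdDich

open Pool.Agent.Helper152.Wav
open Pool.Agent.Helper152.Wd
open Pool.Agent.Helper152.LarE (hit)
open Pool.Agent.Helper152.Lar (w)

/-- null sets are preserved by affine maps -/
theorem ae_aff {P : ℝ → Prop} (h : ∀ᵐ x : ℝ, P x) (a d : ℝ) (ha : a ≠ 0) :
    ∀ᵐ x : ℝ, P (a * x + d) := by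
  rw [ae_iff] at h ⊢
  have h1 : volume ((fun x => x + d) ⁻¹' {x | ¬ P x}) = 0 := by
    rw [measure_preimage_add_right]; exact h
  have h2 := Real.volume_preimage_mul_left ha ((fun x => x + d) ⁻¹' {x | ¬ P x})
  rw [h1, mul_zero] at h2
  exact h2

/-- a dimension function which is positive almost everywhere is one almost everywhere -/
theorem dim_dichotomy (D : ℝ → ℕ) (hm : Measurable D) (hp : Function.Periodic D 1)
    (D2 : ∀ᵐ ξ : ℝ, D ξ + D (ξ + 1 / 2) = D (2 * ξ) + 1)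
    (hZ : volume {x | D x = 0} = 0) : ∀ᵐ ξ : ℝ, D ξ = 1 := by
  have h1 : ∀ᵐ ξ : ℝ, 1 ≤ D ξ := by
    have : ∀ᵐ ξ : ℝ, ¬ (D ξ = 0) := by
      rw [ae_iff]
      simpa using hZ
    filter_upwards [this] with x hx
    omega
  by_cases hF : volume {x | D x = 1} = 0
  · have h2 : ∀ᵐ ξ : ℝ, ¬ (D ξ = 1) := by
      rw [ae_iff]
      simpa using hF
    have hk : ∀ k : ℕ, ∀ᵐ ξ : ℝ, 2 ^ k + 1 ≤ D ξ := by
      intro k
      induction k with
      | zero =>
        filter_upwards [h1, h2] with x hx hx'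
        simp only [pow_zero]
        omega
      | succ k ih =>
        filter_upwards [ae_aff D2 (1 / 2) 0 (by norm_num), ae_aff ih (1 / 2) 0 (by norm_num),
          ae_aff ih (1 / 2) (1 / 2) (by norm_num)] with x hx ha hb
        have e1 : (2 : ℝ) * (1 / 2 * x + 0) = x := by ring
        rw [e1] at hx
        have e2 : (1 / 2 * x + 0 + 1 / 2 : ℝ) = 1 / 2 * x + 1 / 2 := by ring
        rw [e2] at hx
        have e3 : 2 ^ (k + 1) = 2 ^ k + 2 ^ k := by ring
        omega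
    filter_upwards [ae_all_iff.2 hk] with x hx
    exfalso
    have ha := hx (D x)
    have hb : D x < 2 ^ D x := Nat.lt_two_pow_self
    omega
  · have hper : ∀ x ∈ {x | D x = 1}, ∀ n : ℤ, x + n ∈ {x | D x = 1} := by
      intro x hx n
      have h3 := hp.int_mul n x
      rw [mul_one] at h3
      show D (x + n) = 1
      rw [h3]
      exact hx
    have hms : MeasurableSet {x | D x = 1} := hm (MeasurableSet.singleton 1)
    have hh := hit {x | D x = 1} hms hper hF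
    have hA : ∀ᵐ x : ℝ, ∀ i : ℕ, D ((2:ℝ) ^ i * x + 0) + D ((2:ℝ) ^ i * x + 0 + 1 / 2)
        = D (2 * ((2:ℝ) ^ i * x + 0)) + 1 :=
      ae_all_iff.2 fun i => ae_aff D2 _ _ (by positivity)
    have hB : ∀ᵐ x : ℝ, ∀ i : ℕ, 1 ≤ D ((2:ℝ) ^ i * x + 0) :=
      ae_all_iff.2 fun i => ae_aff h1 _ _ (by positivity)
    have hC : ∀ᵐ x : ℝ, ∀ i : ℕ, 1 ≤ D ((2:ℝ) ^ i * x + 1 / 2) :=
      ae_all_iff.2 fun i => ae_aff h1 _ _ (by positivity)
    filter_upwards [hh, hA, hB, hC] with x hx ha hb hc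
    obtain ⟨i, hi⟩ := hx
    have key : ∀ i : ℕ, D ((2:ℝ) ^ i * x) = 1 → D x = 1 := by
      intro i
      induction i with
      | zero =>
        intro h
        simpa using h
      | succ i ih =>
        intro h
        apply ih
        have ha' := ha i
        have hb' := hb i
        have hc' := hc i
        have e1 : (2 : ℝ) * ((2:ℝ) ^ i * x + 0) = 2 ^ (i + 1) * x := by ring
        rw [e1, h] at ha'
        rw [add_zero] at ha' hb'
        omega
    exact key i hi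

/-- fibre data of a dimension function: node dimensions of almost every block -/
theorem fibre_data (D : ℝ → ℕ) (hm : Measurable D) (hp : Function.Periodic D 1)
    (D2 : ∀ᵐ ξ : ℝ, D ξ + D (ξ + 1 / 2) = D (2 * ξ) + 1)
    (D3 : ∀ᵐ ξ : ℝ, ((D ξ : ℕ∞) ≤ {k : ℤ | ∀ j : ℕ, 1 ≤ D ((ξ + k) / 2 ^ j)}.encard)) :
    ∀ᵐ ξ : ℝ, ∀ (j : ℕ) (r : ℤ),
      D ((ξ + r) / 2 ^ (j + 1)) + D ((ξ + (r + 2 ^ j : ℤ)) / 2 ^ (j + 1)) = D ((ξ + r) / 2 ^ j) + 1 ∧
      (D ((ξ + r) / 2 ^ j) : ℕ∞) ≤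
        {k : ℤ | (2:ℤ) ^ j ∣ k - r ∧ ∀ i : ℕ, j ≤ i → 1 ≤ D ((ξ + k) / 2 ^ i)}.encard := by
  rw [ae_all_iff]
  intro j
  rw [ae_all_iff]
  intro r
  have hj0 : (2:ℝ) ^ j ≠ 0 := by positivity
  filter_upwards [ae_aff D2 (1 / 2 ^ (j + 1)) (r / 2 ^ (j + 1)) (by positivity),
    ae_aff D3 (1 / 2 ^ j) (r / 2 ^ j) (by positivity)] with x h2 h3
  constructor
  · have e1 : (1 / 2 ^ (j + 1) * x + r / 2 ^ (j + 1) : ℝ) = (x + r) / 2 ^ (j + 1) := by ring
    have e2 : ((x + r) / 2 ^ (j + 1) + 1 / 2 : ℝ) = (x + (r + 2 ^ j : ℤ)) / 2 ^ (j + 1) := by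
      push_cast
      rw [pow_succ]
      field_simp
      ring
    have e3 : (2 * ((x + r) / 2 ^ (j + 1)) : ℝ) = (x + r) / 2 ^ j := by
      rw [pow_succ]
      field_simp
    rw [e1, e2, e3] at h2
    exact h2
  · have e1 : (1 / 2 ^ j * x + r / 2 ^ j : ℝ) = (x + r) / 2 ^ j := by ring
    rw [e1] at h3
    refine h3.trans ?_
    refine Set.encard_le_encard_of_injOn (f := fun n : ℤ => r + 2 ^ j * n) ?_ ?_
    · intro n hn
      refine ⟨⟨n, by ring⟩, ?_⟩
      intro i hi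
      obtain ⟨m, rfl⟩ := Nat.exists_eq_add_of_le hi
      have h4 := hn m
      have e2 : (((x + r) / 2 ^ j + n) / 2 ^ m : ℝ) = (x + ((r + 2 ^ j * n : ℤ) : ℝ)) / 2 ^ (j + m) := by
        push_cast
        rw [pow_add]
        field_simp
        ring
      rw [e2] at h4
      exact h4
    · intro a _ b _ hab
      have h5 : (2:ℤ) ^ j * a = 2 ^ j * b := by
        have : r + 2 ^ j * a = r + 2 ^ j * b := hab
        linarith
      exact mul_left_cancel₀ (by positivity) h5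

end Pool.Agent.Helper152.WdDich
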