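import Pool.Agent.Helper152.WdDefs

set_option autoImplicit false
open MeasureTheory Filter Topology
open scoped ENNReal

namespace Pool.Agent.Helper152.WdFam

open Pool.Agent.Helper152.Wav
open Pool.Agent.Helper152.Wd
open Pool.Agent.Helper152.Lar (w)






theorem ff_fam_cnt_succ (e : ℕ → ℤ) (d : ℕ → ℤ → ℕ) (n j : ℕ) (r : ℤ) :
    ((∀ i' : ℕ, 1 ≤ i' → 1 ≤ d i' (e n)) ∧ (2:ℤ) ^ j ∣ e n - r →
      cnt0 e d (n + 1) j r = cnt0 e d n j r + 1) ∧
    (¬ ((∀ i' : ℕ, 1 ≤ i' → 1 ≤ d i' (e n)) ∧ (2:ℤ) ^ j ∣ e n - r) →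
      cnt0 e d (n + 1) j r = cnt0 e d n j r) := by
  constructor
  · intro h
    unfold cnt0
    rw [Finset.sum_range_succ, if_pos h]
  · intro h
    unfold cnt0
    rw [Finset.sum_range_succ, if_neg h, add_zero]

theorem ff_fam_dvd (j : ℕ) (x : ℤ) : ((2:ℤ) ^ (j + 1) ∣ x → (2:ℤ) ^ j ∣ x) ∧
    ((2:ℤ) ^ (j + 1) ∣ x - 2 ^ j → (2:ℤ) ^ j ∣ x) ∧
    ((2:ℤ) ^ j ∣ x → (2:ℤ) ^ (j + 1) ∣ x ∨ (2:ℤ) ^ (j + 1) ∣ x - 2 ^ j) ∧
    ¬ ((2:ℤ) ^ (j + 1) ∣ x ∧ (2:ℤ) ^ (j + 1) ∣ x - 2 ^ j) := by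
  have hp : (0:ℤ) < 2 ^ j := by positivity
  refine ⟨?_, ?_, ?_, ?_⟩
  · rintro ⟨k, hk⟩
    exact ⟨2 * k, by rw [hk, pow_succ]; ring⟩
  · rintro ⟨k, hk⟩
    refine ⟨2 * k + 1, ?_⟩
    have : x = 2 ^ (j + 1) * k + 2 ^ j := by linarith
    rw [this, pow_succ]; ring
  · rintro ⟨k, hk⟩
    rcases Int.even_or_odd' k with ⟨c, hc | hc⟩
    · left
      exact ⟨c, by rw [hk, hc, pow_succ]; ring⟩
    · right
      exact ⟨c, by rw [hk, hc, pow_succ]; ring⟩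
  · rintro ⟨⟨k, hk⟩, ⟨l, hl⟩⟩
    have h1 : (2:ℤ) ^ j = 2 ^ (j + 1) * (k - l) := by
      rw [mul_sub, ← hk, ← hl]; ring
    have h2 : (2:ℤ) ^ j * 1 = 2 ^ j * (2 * (k - l)) := by
      rw [mul_one]
      nth_rewrite 1 [h1]
      rw [pow_succ]; ring
    have h3 := mul_left_cancel₀ hp.ne' h2
    omega

theorem ff_fam_S2 (e : ℕ → ℤ) (d : ℕ → ℤ → ℕ) (n j : ℕ) (r : ℤ) :
    cnt0 e d n (j + 1) r + cnt0 e d n (j + 1) (r + 2 ^ j) = cnt0 e d n j r := by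
  induction n with
  | zero => simp [cnt0]
  | succ n ih =>
    have a := ff_fam_cnt_succ e d n (j + 1) r
    have b := ff_fam_cnt_succ e d n (j + 1) (r + 2 ^ j)
    have c := ff_fam_cnt_succ e d n j r
    have hd := ff_fam_dvd j (e n - r)
    have e1 : e n - (r + 2 ^ j) = e n - r - 2 ^ j := by ring
    rw [e1] at b
    obtain ⟨h1, h2, h3, h4⟩ := hd
    by_cases hA : ∀ i' : ℕ, 1 ≤ i' → 1 ≤ d i' (e n)
    · by_cases hx : (2:ℤ) ^ (j + 1) ∣ e n - r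
      · have hy : ¬ (2:ℤ) ^ (j + 1) ∣ e n - r - 2 ^ j := fun hy => h4 ⟨hx, hy⟩
        rw [a.1 ⟨hA, hx⟩, b.2 (fun h => hy h.2), c.1 ⟨hA, h1 hx⟩]
        omega
      · by_cases hy : (2:ℤ) ^ (j + 1) ∣ e n - r - 2 ^ j
        · rw [a.2 (fun h => hx h.2), b.1 ⟨hA, hy⟩, c.1 ⟨hA, h2 hy⟩]
          omega
        · have hz : ¬ (2:ℤ) ^ j ∣ e n - r := fun hz => by
            rcases h3 hz with h | h
            · exact hx h
            · exact hy h
          rw [a.2 (fun h => hx h.2), b.2 (fun h => hy h.2), c.2 (fun h => hz h.2)]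
          exact ih
    · rw [a.2 (fun h => hA h.1), b.2 (fun h => hA h.1), c.2 (fun h => hA h.1)]
      exact ih

theorem ff_fam_LL (e : ℕ → ℤ) (n : ℕ) : LL e n ≤ LL e (n + 1) := by
  unfold LL
  rw [Finset.sum_range_succ]
  omega

theorem ff_fam_S0 (e : ℕ → ℤ) (d : ℕ → ℤ → ℕ) (n j : ℕ) (r : ℤ) (h : 1 ≤ cnt0 e d n j r) :
    ∃ i, i < n ∧ (∀ i' : ℕ, 1 ≤ i' → 1 ≤ d i' (e i)) ∧ (2:ℤ) ^ j ∣ e i - r := by
  by_contra hc
  push Not at hc
  have : cnt0 e d n j r = 0 := by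
    unfold cnt0
    apply Finset.sum_eq_zero
    intro i hi
    rw [if_neg]
    rintro ⟨h1, h2⟩
    exact hc i (Finset.mem_range.1 hi) h1 h2
  omega

theorem ff_fam_S1 (e : ℕ → ℤ) (he : Function.Injective e) (d : ℕ → ℤ → ℕ) (n j : ℕ) (r : ℤ)
    (hj : LL e n ≤ j) : cnt0 e d n j r ≤ 1 := by
  have hkey : ∀ i, i < n → ∀ i', i' < n → (2:ℤ) ^ j ∣ e i - r → (2:ℤ) ^ j ∣ e i' - r → i = i' := by
    intro i hi i' hi' h1 h2
    by_contra hne
    have h3 : (2:ℤ) ^ j ∣ e i - e i' := by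
      have := dvd_sub h1 h2
      have e2 : e i - r - (e i' - r) = e i - e i' := by ring
      rwa [e2] at this
    have h4 : (e i).natAbs + (e i').natAbs ≤ ∑ i ∈ Finset.range n, (e i).natAbs := by
      have hsub : ({i, i'} : Finset ℕ) ⊆ Finset.range n := by
        intro x hx
        rw [Finset.mem_insert, Finset.mem_singleton] at hx
        rw [Finset.mem_range]
        rcases hx with rfl | rfl
        · exact hi
        · exact hi'
      have := Finset.sum_le_sum_of_subset (f := fun i => (e i).natAbs) hsub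
      rwa [Finset.sum_pair hne] at this
    have h5 : j < 2 ^ j := Nat.lt_two_pow_self
    have h6 : (e i).natAbs + (e i').natAbs < 2 ^ j := by
      unfold LL at hj
      omega
    have h7 : e i - e i' = 0 := by
      apply Int.eq_zero_of_abs_lt_dvd h3
      have h8 : |e i - e i'| ≤ |e i| + |e i'| := abs_sub _ _
      have h9 : |e i| + |e i'| = (((e i).natAbs + (e i').natAbs : ℕ) : ℤ) := by
        push_cast
        rfl
      have h10 : (((e i).natAbs + (e i').natAbs : ℕ) : ℤ) < 2 ^ j := by exact_mod_cast h6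
      omega
    exact hne (he (by omega))
  clear hj
  revert hkey
  induction n with
  | zero => intro _; simp [cnt0]
  | succ n ih =>
    intro hkey
    obtain ⟨h1, h2⟩ := ff_fam_cnt_succ e d n j r
    by_cases h : (∀ i' : ℕ, 1 ≤ i' → 1 ≤ d i' (e n)) ∧ (2:ℤ) ^ j ∣ e n - r
    · rw [h1 h]
      rcases Nat.eq_zero_or_pos (cnt0 e d n j r) with h3 | h3
      · omega
      · obtain ⟨i, hi, _, hk⟩ := ff_fam_S0 e d n j r h3
        have := hkey i (by omega) n (by omega) hk h.2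
        omega
    · rw [h2 h]
      exact ih (fun i hi i' hi' => hkey i (by omega) i' (by omega))

theorem ff_fam_S1' (e : ℕ → ℤ) (he : Function.Injective e) (d : ℕ → ℤ → ℕ)
    (per : ∀ (j : ℕ) (r m : ℤ), d j (r + 2 ^ j * m) = d j r) (n j : ℕ) (r : ℤ)
    (hj : LL e n ≤ j) : cnt0 e d n j r ≤ d j r := by
  have h1 := ff_fam_S1 e he d n j r hj
  rcases Nat.eq_zero_or_pos (cnt0 e d n j r) with h | h
  · omega
  · obtain ⟨i, _, hA, k, hk⟩ := ff_fam_S0 e d n j r h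
    have h2 : e i = r + 2 ^ j * k := by linarith
    have h3 : 1 ≤ j := by unfold LL at hj; omega
    have h4 := hA j h3
    rw [h2, per] at h4
    omega

theorem ff_fam_S3 (e : ℕ → ℤ) (he : Function.Injective e) (d : ℕ → ℤ → ℕ)
    (per : ∀ (j : ℕ) (r m : ℤ), d j (r + 2 ^ j * m) = d j r) (n : ℕ) (D : ℕ) :
    ∀ (j : ℕ) (r : ℤ), LL e n ≤ j + D → fd e d n (D + 1) j r = fd e d n D j r := by
  induction D with
  | zero =>
    intro j r h
    show min (d j r) (cnt0 e d n (j + 1) r + cnt0 e d n (j + 1) (r + 2 ^ j)) = cnt0 e d n j r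
    rw [ff_fam_S2]
    exact min_eq_right (ff_fam_S1' e he d per n j r h)
  | succ D ih =>
    intro j r h
    show min (d j r) (fd e d n (D + 1) (j + 1) r + fd e d n (D + 1) (j + 1) (r + 2 ^ j)) =
      min (d j r) (fd e d n D (j + 1) r + fd e d n D (j + 1) (r + 2 ^ j))
    rw [ih (j + 1) r (by omega), ih (j + 1) (r + 2 ^ j) (by omega)]

theorem ff_fam_S3' (e : ℕ → ℤ) (he : Function.Injective e) (d : ℕ → ℤ → ℕ)
    (per : ∀ (j : ℕ) (r m : ℤ), d j (r + 2 ^ j * m) = d j r) (n : ℕ) (D k : ℕ)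
    (j : ℕ) (r : ℤ) (h : LL e n ≤ j + D) : fd e d n (D + k) j r = fd e d n D j r := by
  induction k with
  | zero => rfl
  | succ k ih =>
    rw [← ih]
    exact ff_fam_S3 e he d per n (D + k) j r (by omega)

theorem ff_fam_eq (e : ℕ → ℤ) (he : Function.Injective e) (d : ℕ → ℤ → ℕ)
    (per : ∀ (j : ℕ) (r m : ℤ), d j (r + 2 ^ j * m) = d j r) (n : ℕ) (D : ℕ)
    (j : ℕ) (r : ℤ) (h : LL e n ≤ j + D) : ff e d n j r = fd e d n D j r := by
  unfold ff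
  rcases Nat.le_total D (LL e n) with h1 | h1
  · obtain ⟨k, hk⟩ := Nat.exists_eq_add_of_le h1
    have := ff_fam_S3' e he d per n D k j r h
    rwa [← hk] at this
  · obtain ⟨k, hk⟩ := Nat.exists_eq_add_of_le h1
    have := ff_fam_S3' e he d per n (LL e n) k j r (by omega)
    rw [← hk] at this
    exact this.symm

theorem ff_fam_zero (e : ℕ → ℤ) (d : ℕ → ℤ → ℕ) (D : ℕ) :
    ∀ (j : ℕ) (r : ℤ), fd e d 0 D j r = 0 := by
  induction D with
  | zero => intro j r; simp [fd, cnt0]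
  | succ D ih =>
    intro j r
    show min (d j r) (fd e d 0 D (j + 1) r + fd e d 0 D (j + 1) (r + 2 ^ j)) = 0
    rw [ih, ih]
    simp

theorem ff_fam_per (e : ℕ → ℤ) (d : ℕ → ℤ → ℕ)
    (per : ∀ (j : ℕ) (r m : ℤ), d j (r + 2 ^ j * m) = d j r) (n D : ℕ) :
    ∀ (j : ℕ) (r m : ℤ), fd e d n D j (r + 2 ^ j * m) = fd e d n D j r := by
  induction D with
  | zero =>
    intro j r m
    show cnt0 e d n j (r + 2 ^ j * m) = cnt0 e d n j r
    have h : ∀ i, ((2:ℤ) ^ j ∣ e i - (r + 2 ^ j * m)) ↔ ((2:ℤ) ^ j ∣ e i - r) := by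
      intro i
      have e1 : e i - (r + 2 ^ j * m) = e i - r - 2 ^ j * m := by ring
      rw [e1]
      exact dvd_sub_left (Dvd.intro _ rfl)
    unfold cnt0
    apply Finset.sum_congr rfl
    intro i _
    by_cases hh : (∀ i' : ℕ, 1 ≤ i' → 1 ≤ d i' (e i)) ∧ (2:ℤ) ^ j ∣ e i - r
    · rw [if_pos hh, if_pos ⟨hh.1, (h i).2 hh.2⟩]
    · rw [if_neg hh, if_neg (fun h2 => hh ⟨h2.1, (h i).1 h2.2⟩)]
  | succ D ih =>
    intro j r m
    show min (d j (r + 2 ^ j * m)) (fd e d n D (j + 1) (r + 2 ^ j * m) +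
        fd e d n D (j + 1) (r + 2 ^ j * m + 2 ^ j)) =
      min (d j r) (fd e d n D (j + 1) r + fd e d n D (j + 1) (r + 2 ^ j))
    rw [per]
    rcases Int.even_or_odd' m with ⟨c, hc | hc⟩
    · have e1 : r + 2 ^ j * m = r + 2 ^ (j + 1) * c := by rw [hc, pow_succ]; ring
      have e2 : r + 2 ^ (j + 1) * c + 2 ^ j = (r + 2 ^ j) + 2 ^ (j + 1) * c := by ring
      rw [e1, e2, ih, ih]
    · have e1 : r + 2 ^ j * m = (r + 2 ^ j) + 2 ^ (j + 1) * c := by rw [hc, pow_succ]; ring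
      have e2 : (r + 2 ^ j) + 2 ^ (j + 1) * c + 2 ^ j = r + 2 ^ (j + 1) * (c + 1) := by
        rw [pow_succ]; ring
      rw [e1, e2, ih, ih, add_comm]

theorem ff_fam_f2 (e : ℕ → ℤ) (d : ℕ → ℤ → ℕ) (P : ℤ → Prop)
    (act : ∀ k, P k ↔ ∀ i : ℕ, 1 ≤ i → 1 ≤ d i k) (n D : ℕ) :
    ∀ (j : ℕ) (r : ℤ), ¬ (P (e n) ∧ (2:ℤ) ^ j ∣ e n - r) →
      fd e d (n + 1) D j r = fd e d n D j r := by
  induction D with
  | zero =>
    intro j r h
    exact (ff_fam_cnt_succ e d n j r).2 (fun hh => h ⟨(act _).2 hh.1, hh.2⟩)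
  | succ D ih =>
    intro j r h
    obtain ⟨h1, h2, _, _⟩ := ff_fam_dvd j (e n - r)
    have e1 : e n - (r + 2 ^ j) = e n - r - 2 ^ j := by ring
    show min (d j r) (fd e d (n + 1) D (j + 1) r + fd e d (n + 1) D (j + 1) (r + 2 ^ j)) =
      min (d j r) (fd e d n D (j + 1) r + fd e d n D (j + 1) (r + 2 ^ j))
    rw [ih (j + 1) r (fun hh => h ⟨hh.1, h1 hh.2⟩),
      ih (j + 1) (r + 2 ^ j) (fun hh => h ⟨hh.1, h2 (by rw [← e1]; exact hh.2)⟩)]

theorem ff_fam_f3 (e : ℕ → ℤ) (d : ℕ → ℤ → ℕ) (P : ℤ → Prop)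
    (act : ∀ k, P k ↔ ∀ i : ℕ, 1 ≤ i → 1 ≤ d i k) (n D : ℕ) :
    ∀ (j : ℕ) (r : ℤ), fd e d n D j r ≤ fd e d (n + 1) D j r ∧
      fd e d (n + 1) D j r ≤ fd e d n D j r + 1 := by
  induction D with
  | zero =>
    intro j r
    show cnt0 e d n j r ≤ cnt0 e d (n + 1) j r ∧ cnt0 e d (n + 1) j r ≤ cnt0 e d n j r + 1
    obtain ⟨h1, h2⟩ := ff_fam_cnt_succ e d n j r
    by_cases h : (∀ i' : ℕ, 1 ≤ i' → 1 ≤ d i' (e n)) ∧ (2:ℤ) ^ j ∣ e n - r
    · rw [h1 h]; omega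
    · rw [h2 h]; omega
  | succ D ih =>
    intro j r
    obtain ⟨_, _, _, h4⟩ := ff_fam_dvd j (e n - r)
    have e1 : e n - (r + 2 ^ j) = e n - r - 2 ^ j := by ring
    show min (d j r) (fd e d n D (j + 1) r + fd e d n D (j + 1) (r + 2 ^ j)) ≤
        min (d j r) (fd e d (n + 1) D (j + 1) r + fd e d (n + 1) D (j + 1) (r + 2 ^ j)) ∧
      min (d j r) (fd e d (n + 1) D (j + 1) r + fd e d (n + 1) D (j + 1) (r + 2 ^ j)) ≤
        min (d j r) (fd e d n D (j + 1) r + fd e d n D (j + 1) (r + 2 ^ j)) + 1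
    have i1 := ih (j + 1) r
    have i2 := ih (j + 1) (r + 2 ^ j)
    by_cases hx : (2:ℤ) ^ (j + 1) ∣ e n - r
    · have hy : ¬ (P (e n) ∧ (2:ℤ) ^ (j + 1) ∣ e n - (r + 2 ^ j)) := by
        rintro ⟨_, hy⟩
        rw [e1] at hy
        exact h4 ⟨hx, hy⟩
      have h5 := ff_fam_f2 e d P act n D (j + 1) (r + 2 ^ j) hy
      omega
    · have h5 := ff_fam_f2 e d P act n D (j + 1) r (fun hh => hx hh.2)
      omega

/-- the greedy ranks have the required properties -/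
theorem ff_fam (e : ℕ → ℤ) (he : Function.Injective e) (d : ℕ → ℤ → ℕ) (P : ℤ → Prop)
    (per : ∀ (j : ℕ) (r m : ℤ), d j (r + 2 ^ j * m) = d j r)
    (act : ∀ k, P k ↔ ∀ i : ℕ, 1 ≤ i → 1 ≤ d i k) : Fam e d P (ff e d) := by
  have hLL := ff_fam_LL e
  have hn : ∀ n j r, ff e d n j r = fd e d n (LL e (n + 1)) j r := fun n j r =>
    ff_fam_eq e he d per n _ j r (by have := hLL n; omega)
  have hn1 : ∀ n j r, ff e d (n + 1) j r = fd e d (n + 1) (LL e (n + 1)) j r := fun n j r => rfl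
  refine ⟨?_, ?_, ?_, ?_, ?_, ?_⟩
  · intro j r
    exact ff_fam_zero e d _ j r
  · intro n j r
    rw [ff_fam_eq e he d per n (LL e n + 1) j r (by omega)]
    rfl
  · intro n j r h
    rw [hn1 n j r, hn n j r]
    exact ff_fam_f2 e d P act n _ j r h
  · intro n j r
    rw [hn1 n j r, hn n j r]
    exact ff_fam_f3 e d P act n _ j r
  · intro n hP
    refine ⟨LL e (n + 1), ?_⟩
    intro j hj
    have h1 : ff e d (n + 1) j (e n) = cnt0 e d (n + 1) j (e n) :=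
      ff_fam_eq e he d per (n + 1) 0 j (e n) (by omega)
    have h2 : ff e d n j (e n) = cnt0 e d n j (e n) :=
      ff_fam_eq e he d per n 0 j (e n) (by have := hLL n; omega)
    have h3 := (ff_fam_cnt_succ e d n j (e n)).1 ⟨(act _).1 hP, by simp⟩
    have h4 := ff_fam_S1 e he d (n + 1) j (e n) hj
    omega
  · intro n j r m
    exact ff_fam_per e d per n _ j r m

end Pool.Agent.Helper152.WdFam
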