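import Pool.Agent.Helper152.WdDefs

set_option autoImplicit false
open MeasureTheory Filter Topology
open scoped ENNReal

namespace Pool.Agent.Helper152.WdRank

open Pool.Agent.Helper152.Wav
open Pool.Agent.Helper152.Wd
open Pool.Agent.Helper152.Lar (w)




theorem stab6446 (u : ℕ → ℕ) (B : ℕ) (hB : ∀ n, u n ≤ B) (hm : ∀ n, u n ≤ u (n + 1)) :
    ∃ x n₀, ∀ n, n₀ ≤ n → u n = x := by
  have hmono : Monotone u := monotone_nat_of_le_succ hm
  have hne : (Set.range u).Nonempty := ⟨u 0, 0, rfl⟩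
  have hbdd : BddAbove (Set.range u) := ⟨B, by rintro _ ⟨n, rfl⟩; exact hB n⟩
  obtain ⟨n₀, hn₀⟩ := Nat.sSup_mem hne hbdd
  refine ⟨u n₀, n₀, fun n hn => le_antisymm ?_ (hmono hn)⟩
  rw [hn₀]
  exact le_csSup hbdd ⟨n, rfl⟩

theorem per6446 {d : ℕ → ℤ → ℕ} {P : ℤ → Prop} {N : ℕ → ℤ → Prop} (hD : Dat d P N)
    (i j : ℕ) (hij : i ≤ j) (r m : ℤ) : d i (r + 2 ^ j * m) = d i r := by
  have h1 : (2 : ℤ) ^ j * m = 2 ^ i * (2 ^ (j - i) * m) := by
    rw [← mul_assoc, ← pow_add, Nat.add_sub_cancel' hij]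
  rw [h1, hD.per]

/-- the step to the deficient child -/
theorem step6446 {d : ℕ → ℤ → ℕ} {P : ℤ → Prop} {N : ℕ → ℤ → Prop} (hD : Dat d P N)
    (F : ℕ → ℤ → ℕ) (hF1 : ∀ j r, F j r = min (d j r) (F (j + 1) r + F (j + 1) (r + 2 ^ j)))
    (hFP : ∀ j r k, 1 ≤ j → P k → (2 : ℤ) ^ j ∣ k - r → 1 ≤ F j r)
    (g : ℕ) (hg : ∀ j r, N j r → F j r < d j r → g ≤ F j r)
    (j : ℕ) (r : ℤ) (hN : N j r) (hlt : F j r < d j r) (hFg : F j r = g) :
    ∃ r' : ℤ, (r' = r ∨ r' = r + 2 ^ j) ∧ N (j + 1) r' ∧ F (j + 1) r' < d (j + 1) r' ∧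
      F (j + 1) r' = g ∧ d (j + 1) r' = d j r + 1 ∧
      ∀ k, P k → (2 : ℤ) ^ j ∣ k - r → (2 : ℤ) ^ (j + 1) ∣ k - r' := by
  have hj : 1 ≤ j := by
    rcases Nat.eq_zero_or_pos j with h | h
    · subst h
      rw [hD.root] at hlt
      omega
    · exact h
  have hle : ∀ j r, F j r ≤ d j r := by
    intro j r
    rw [hF1]
    exact min_le_left _ _
  have hadd := hD.add j r
  have hsum : F j r = F (j + 1) r + F (j + 1) (r + 2 ^ j) := by
    have h1 := hF1 j r
    rcases min_choice (d j r) (F (j + 1) r + F (j + 1) (r + 2 ^ j)) with h | h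
    · rw [h] at h1
      omega
    · rw [h] at h1
      exact h1
  have hg0 : 1 ≤ g := by
    have h1 := hD.many j r hN
    have h2 : {k : ℤ | (2 : ℤ) ^ j ∣ k - r ∧ P k}.Nonempty := by
      rw [Set.nonempty_iff_ne_empty]
      intro h3
      rw [h3, Set.encard_empty] at h1
      have h4 : d j r = 0 := by
        have h5 : ((d j r : ℕ) : ℕ∞) = 0 := le_antisymm h1 (zero_le)
        exact_mod_cast h5
      omega
    obtain ⟨k, hk1, hk2⟩ := h2
    rw [← hFg]
    exact hFP j r k hj hk2 hk1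
  have hl0 := hle (j + 1) r
  have hl1 := hle (j + 1) (r + 2 ^ j)
  have hN0 : 1 ≤ d (j + 1) r → N (j + 1) r := by
    intro h
    rw [hD.nod]
    intro i hi1 hi2
    rcases Nat.lt_or_ge i (j + 1) with h3 | h3
    · exact (hD.nod j r).1 hN i hi1 (by omega)
    · obtain rfl : i = j + 1 := by omega
      exact h
  have hper : ∀ i ≤ j, d i (r + 2 ^ j) = d i r := by
    intro i hi
    have := per6446 hD i j hi r 1
    rwa [mul_one] at this
  have hN1 : 1 ≤ d (j + 1) (r + 2 ^ j) → N (j + 1) (r + 2 ^ j) := by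
    intro h
    rw [hD.nod]
    intro i hi1 hi2
    rcases Nat.lt_or_ge i (j + 1) with h3 | h3
    · rw [hper i (by omega)]
      exact (hD.nod j r).1 hN i hi1 (by omega)
    · obtain rfl : i = j + 1 := by omega
      exact h
  -- active rows avoid children of dimension zero
  have hpar : ∀ k, (2 : ℤ) ^ j ∣ k - r → (2 : ℤ) ^ (j + 1) ∣ k - r ∨
      (2 : ℤ) ^ (j + 1) ∣ k - (r + 2 ^ j) := by
    rintro k ⟨c, hc⟩
    rcases Int.even_or_odd' c with ⟨m, hm | hm⟩
    · left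
      refine ⟨m, ?_⟩
      rw [hc, hm]; ring
    · right
      refine ⟨m, ?_⟩
      have : k = r + 2 ^ j * c := by linarith
      rw [this, hm]; ring
  have hact : ∀ k r'', P k → (2 : ℤ) ^ (j + 1) ∣ k - r'' → d (j + 1) r'' ≠ 0 := by
    rintro k r'' hk ⟨c, hc⟩ h0
    have h1 := (hD.act k).1 hk (j + 1) (by omega)
    have h2 : k = r'' + 2 ^ (j + 1) * c := by linarith
    rw [h2, hD.per, h0] at h1
    omega
  by_cases h0 : F (j + 1) r < d (j + 1) r
  · have hn0 := hN0 (by omega)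
    have hg0' := hg (j + 1) r hn0 h0
    have hv1 : ¬ F (j + 1) (r + 2 ^ j) < d (j + 1) (r + 2 ^ j) := by
      intro h1
      have := hg (j + 1) (r + 2 ^ j) (hN1 (by omega)) h1
      omega
    refine ⟨r, Or.inl rfl, hn0, h0, by omega, by omega, fun k hk hk2 => ?_⟩
    rcases hpar k hk2 with h | h
    · exact h
    · exact absurd (by omega) (hact k _ hk h)
  · by_cases h1 : F (j + 1) (r + 2 ^ j) < d (j + 1) (r + 2 ^ j)
    · have hn1 := hN1 (by omega)
      have hg1' := hg (j + 1) (r + 2 ^ j) hn1 h1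
      refine ⟨r + 2 ^ j, Or.inr rfl, hn1, h1, by omega, by omega, fun k hk hk2 => ?_⟩
      rcases hpar k hk2 with h | h
      · exact absurd (by omega) (hact k _ hk h)
      · exact h
    · omega

/-- the greedy ranks reach the dimension at every node -/
theorem rank_full (e : ℕ → ℤ) (he : Function.Surjective e) {d : ℕ → ℤ → ℕ} {P : ℤ → Prop}
    {N : ℕ → ℤ → Prop} (hD : Dat d P N) {f : ℕ → ℕ → ℤ → ℕ} (hf : Fam e d P f) (j : ℕ) (r : ℤ)
    (hN : N j r) : ∃ n₀ : ℕ, ∀ n, n₀ ≤ n → f n j r = d j r := by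
  classical
  have hle : ∀ n j r, f n j r ≤ d j r := by
    intro n j r
    rw [hf.f1]
    exact min_le_left _ _
  have hst : ∀ j r, ∃ x n₀, ∀ n, n₀ ≤ n → f n j r = x := fun j r =>
    stab6446 (fun n => f n j r) (d j r) (fun n => hle n j r) (fun n => (hf.f3 n j r).1)
  choose F n₀ hF using hst
  have hmono : ∀ j r, Monotone (fun n => f n j r) := fun j r =>
    monotone_nat_of_le_succ fun n => (hf.f3 n j r).1
  have hFge : ∀ n j r, f n j r ≤ F j r := by
    intro n j r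
    have h1 := hF j r (max n (n₀ j r)) (le_max_right _ _)
    rw [← h1]
    exact hmono j r (le_max_left _ _)
  have hF1 : ∀ j r, F j r = min (d j r) (F (j + 1) r + F (j + 1) (r + 2 ^ j)) := by
    intro j r
    obtain ⟨M, hM⟩ : ∃ M : ℕ, M = n₀ j r + n₀ (j + 1) r + n₀ (j + 1) (r + 2 ^ j) := ⟨_, rfl⟩
    have h1 := hF j r M (by omega)
    have h2 := hF (j + 1) r M (by omega)
    have h3 := hF (j + 1) (r + 2 ^ j) M (by omega)
    rw [← h1, ← h2, ← h3]
    exact hf.f1 M j r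
  have hF5 : ∀ j r m, F j (r + 2 ^ j * m) = F j r := by
    intro j r m
    obtain ⟨M, hM⟩ : ∃ M : ℕ, M = n₀ j r + n₀ j (r + 2 ^ j * m) := ⟨_, rfl⟩
    have h1 := hF j r M (by omega)
    have h2 := hF j (r + 2 ^ j * m) M (by omega)
    rw [← h1, ← h2]
    exact hf.f5 M j r m
  have hFk : ∀ j k, 1 ≤ j → P k → 1 ≤ F j k := by
    intro j k hj hk
    obtain ⟨n, rfl⟩ := he k
    obtain ⟨J, hJ⟩ := hf.f4 n hk
    have key : ∀ t j, 1 ≤ j → J ≤ j + t → 1 ≤ F j (e n) := by
      intro t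
      induction t with
      | zero =>
        intro j _ h2
        have h3 := (hJ j (by omega)).1
        have h4 := hFge (n + 1) j (e n)
        omega
      | succ t ih =>
        intro j h1 h2
        have h3 := ih (j + 1) (by omega) (by omega)
        have h4 := (hD.act (e n)).1 hk j h1
        rw [hF1]
        exact le_min h4 (by omega)
    exact key J j hj (by omega)
  have hFP : ∀ j r k, 1 ≤ j → P k → (2 : ℤ) ^ j ∣ k - r → 1 ≤ F j r := by
    rintro j r k hj hk ⟨c, hc⟩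
    have h1 : k = r + 2 ^ j * c := by linarith
    have h2 := hFk j k hj hk
    rwa [h1, hF5] at h2
  have hmain : ∀ j r, N j r → ¬ F j r < d j r := by
    by_contra hcon
    push Not at hcon
    have hex : ∃ g j r, N j r ∧ F j r < d j r ∧ F j r = g := by
      obtain ⟨j, r, h1, h2⟩ := hcon
      exact ⟨_, j, r, h1, h2, rfl⟩
    obtain ⟨j, r, hN, hlt, hFg⟩ := Nat.find_spec hex
    obtain ⟨g, hgdef⟩ : ∃ g, g = Nat.find hex := ⟨_, rfl⟩
    rw [← hgdef] at hFg
    have hg : ∀ j r, N j r → F j r < d j r → g ≤ F j r := by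
      intro j r h1 h2
      rw [hgdef]
      exact Nat.find_min' hex ⟨j, r, h1, h2, rfl⟩
    have hiter : ∀ i : ℕ, ∃ r' : ℤ, N (j + i) r' ∧ F (j + i) r' < d (j + i) r' ∧
        F (j + i) r' = g ∧ ∀ k, P k → (2 : ℤ) ^ j ∣ k - r → (2 : ℤ) ^ (j + i) ∣ k - r' := by
      intro i
      induction i with
      | zero => exact ⟨r, hN, hlt, hFg, fun k _ h => h⟩
      | succ i ih =>
        obtain ⟨r', a1, a2, a3, a4⟩ := ih
        obtain ⟨r'', -, b1, b2, b3, -, b4⟩ := step6446 hD F hF1 hFP g hg (j + i) r' a1 a2 a3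
        exact ⟨r'', b1, b2, b3, fun k hk hk2 => b4 k hk (a4 k hk hk2)⟩
    obtain ⟨r₁, c0, c1, c2, c3, c4, c5⟩ := step6446 hD F hF1 hFP g hg j r hN hlt hFg
    have hsub : {k : ℤ | (2 : ℤ) ^ (j + 1) ∣ k - r₁ ∧ P k}.Subsingleton := by
      have hdv : ∀ k, (2 : ℤ) ^ (j + 1) ∣ k - r₁ → (2 : ℤ) ^ j ∣ k - r := by
        intro k hk
        have h1 : (2 : ℤ) ^ j ∣ k - r₁ := (pow_dvd_pow 2 (Nat.le_succ j)).trans hk
        rcases c0 with h | h
        · rwa [h] at h1
        · rw [h] at h1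
          have h2 : k - r = (k - (r + 2 ^ j)) + 2 ^ j := by ring
          rw [h2]
          exact dvd_add h1 (dvd_refl _)
      rintro k ⟨hk1, hk2⟩ k' ⟨hk1', hk2'⟩
      have hall : ∀ i : ℕ, (2 : ℤ) ^ i ∣ k - k' := by
        intro i
        obtain ⟨r', -, -, -, a4⟩ := hiter i
        have e1 := a4 k hk2 (hdv k hk1)
        have e2 := a4 k' hk2' (hdv k' hk1')
        have e3 : k - k' = (k - r') - (k' - r') := by ring
        rw [e3]
        exact (pow_dvd_pow 2 (Nat.le_add_left i j)).trans (dvd_sub e1 e2)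
      by_contra hne
      have hne' : k - k' ≠ 0 := sub_ne_zero.2 hne
      have h1 := Int.le_of_dvd (abs_pos.2 hne') ((dvd_abs _ _).2 (hall (k - k').natAbs))
      have h2 : (k - k').natAbs < 2 ^ (k - k').natAbs := Nat.lt_two_pow_self
      have h3 : |k - k'| = ((k - k').natAbs : ℤ) := Int.abs_eq_natAbs _
      rw [h3] at h1
      have h4 : (((k - k').natAbs : ℕ) : ℤ) < ((2 ^ (k - k').natAbs : ℕ) : ℤ) := by
        exact_mod_cast h2
      push_cast at h4
      push_cast at h1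
      linarith
    have h1 := hD.many (j + 1) r₁ c1
    have h2 := Set.encard_le_one_iff_subsingleton.2 hsub
    have h3 := h1.trans h2
    have h4 : d (j + 1) r₁ ≤ 1 := by exact_mod_cast h3
    omega
  refine ⟨n₀ j r, fun n hn => ?_⟩
  rw [hF j r n hn]
  have h1 := hmain j r hN
  have h2 : F j r ≤ d j r := by
    rw [hF1]
    exact min_le_left _ _
  omega

end Pool.Agent.Helper152.WdRank
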