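import Pool.Agent.Helper152.WdDefs
import Pool.Agent.Helper152.WdRank

set_option autoImplicit false
open MeasureTheory Filter Topology
open scoped ENNReal

namespace Pool.Agent.Helper152.WdLam

open Pool.Agent.Helper152.Wav
open Pool.Agent.Helper152.Wd
open Pool.Agent.Helper152.Lar (w)
open Pool.Agent.Helper152.WdRank (rank_full)






section aux
variable {e : ℕ → ℤ} {d : ℕ → ℤ → ℕ} {P : ℤ → Prop} {N : ℕ → ℤ → Prop} {f : ℕ → ℕ → ℤ → ℕ}

/-- increment -/
def Inc (e : ℕ → ℤ) (f : ℕ → ℕ → ℤ → ℕ) (n j : ℕ) : Prop := f (n + 1) j (e n) = f n j (e n) + 1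

theorem inc_zero (hD : Dat d P N) (hf : Fam e d P f) (n : ℕ) : ¬ Inc e f n 0 := by
  intro h
  unfold Inc at h
  have h1 := hf.f1 (n + 1) 0 (e n)
  rw [hD.root] at h1
  omega

theorem inc_succ (hf : Fam e d P f) (n j : ℕ) (h : Inc e f n j) :
    Inc e f n (j + 1) := by
  unfold Inc at *
  have h1 := hf.f1 (n + 1) j (e n)
  have h2 := hf.f1 n j (e n)
  have h3 : f (n + 1) (j + 1) (e n + 2 ^ j) = f n (j + 1) (e n + 2 ^ j) := by
    apply hf.f2
    rintro ⟨_, h4⟩
    have h5 : e n - (e n + 2 ^ j) = -(2 ^ j) := by ring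
    rw [h5, Int.dvd_neg, pow_succ] at h4
    have h6 : (0 : ℤ) < 2 ^ j := by positivity
    have := Int.le_of_dvd h6 h4
    omega
  have h4 := hf.f3 n (j + 1) (e n)
  omega

theorem inc_mono (hf : Fam e d P f) (n j m : ℕ) (h : Inc e f n j) (hjm : j ≤ m) :
    Inc e f n m := by
  induction m, hjm using Nat.le_induction with
  | base => exact h
  | succ m _ ih => exact inc_succ hf n m ih

theorem inc_large (hf : Fam e d P f) (n : ℕ) (hP : P (e n)) : ∃ j, Inc e f n (j + 1) := by
  obtain ⟨J, hJ⟩ := hf.f4 n hP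
  obtain ⟨h1, h2⟩ := hJ (J + 1) (by omega)
  exact ⟨J, by unfold Inc; omega⟩

theorem lam_lt_iff (hD : Dat d P N) (hf : Fam e d P f) (n m : ℕ) (hP : P (e n)) :
    lamf e f n < m ↔ Inc e f n m := by
  have hne : {j : ℕ | f (n + 1) (j + 1) (e n) = f n (j + 1) (e n) + 1}.Nonempty := inc_large hf n hP
  constructor
  · intro h
    have h1 : Inc e f n (lamf e f n + 1) := Nat.sInf_mem hne
    exact inc_mono hf n _ m h1 h
  · intro h
    rcases m with _ | m
    · exact absurd h (inc_zero hD hf n)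
    · have : lamf e f n ≤ m := Nat.sInf_le h
      omega

theorem f_congr (hf : Fam e d P f) (n j : ℕ) (k r : ℤ) (h : (2 : ℤ) ^ j ∣ k - r) :
    f n j r = f n j k := by
  obtain ⟨m, hm⟩ := h
  have : k = r + 2 ^ j * m := by linarith
  rw [this, hf.f5]

open Classical in
theorem f_count (hf : Fam e d P f) (j : ℕ) (r : ℤ) (n : ℕ) :
    ((Finset.range n).filter (fun i => P (e i) ∧ (2 : ℤ) ^ j ∣ e i - r ∧ Inc e f i j)).card
      = f n j r := by
  induction n with
  | zero => simp [hf.f0]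
  | succ n ih =>
    rw [Finset.range_add_one, Finset.filter_insert]
    by_cases hc : P (e n) ∧ (2 : ℤ) ^ j ∣ e n - r
    · by_cases hI : Inc e f n j
      · rw [if_pos ⟨hc.1, hc.2, hI⟩, Finset.card_insert_of_notMem (by simp), ih,
          f_congr hf n j (e n) r hc.2, f_congr hf (n + 1) j (e n) r hc.2]
        exact hI.symm
      · rw [if_neg (fun h => hI h.2.2), ih, f_congr hf n j (e n) r hc.2,
          f_congr hf (n + 1) j (e n) r hc.2]
        have h4 := hf.f3 n j (e n)
        unfold Inc at hI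
        omega
    · rw [if_neg (fun h => hc ⟨h.1, h.2.1⟩), ih, hf.f2 n j r hc]

theorem cnt_aux (he : Function.Bijective e) (hD : Dat d P N) (hf : Fam e d P f) (lam : ℤ → ℕ)
    (hlam : ∀ n, lam (e n) = lamf e f n) (j : ℕ) (r : ℤ) (hN : N j r) :
    {k : ℤ | (2:ℤ) ^ j ∣ k - r ∧ P k ∧ lam k < j}.encard = d j r := by
  classical
  obtain ⟨n₀, hn₀⟩ := rank_full e he.2 hD hf j r hN
  set F : ℕ → Finset ℕ := fun n => (Finset.range n).filter
    (fun i => P (e i) ∧ (2 : ℤ) ^ j ∣ e i - r ∧ Inc e f i j) with hF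
  have hFc : ∀ n, (F n).card = f n j r := f_count hf j r
  have hset : {k : ℤ | (2:ℤ) ^ j ∣ k - r ∧ P k ∧ lam k < j} = e '' (F n₀ : Set ℕ) := by
    ext k
    constructor
    · rintro ⟨h1, h2, h3⟩
      obtain ⟨i, rfl⟩ := he.2 k
      refine ⟨i, ?_, rfl⟩
      rw [hlam, lam_lt_iff hD hf i j h2] at h3
      have hi : i ∈ F (i + 1) := by
        simp only [hF, Finset.mem_filter, Finset.mem_range]
        exact ⟨by omega, h2, h1, h3⟩
      by_cases hlt : i < n₀
      · simp only [hF, Finset.coe_filter, Finset.mem_range]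
        exact ⟨hlt, h2, h1, h3⟩
      · exfalso
        push Not at hlt
        have hsub : F n₀ ⊆ F (i + 1) := by
          intro x hx
          simp only [hF, Finset.mem_filter, Finset.mem_range] at hx ⊢
          exact ⟨by omega, hx.2⟩
        have hcard : (F (i + 1)).card ≤ (F n₀).card := by
          rw [hFc, hFc, hn₀ (i + 1) (by omega), hn₀ n₀ le_rfl]
        have heq := Finset.eq_of_subset_of_card_le hsub hcard
        rw [← heq] at hi
        simp only [hF, Finset.mem_filter, Finset.mem_range] at hi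
        omega
    · rintro ⟨i, hi, rfl⟩
      simp only [hF, Finset.coe_filter, Finset.mem_range, Set.mem_ofPred_eq] at hi
      refine ⟨hi.2.2.1, hi.2.1, ?_⟩
      rw [hlam, lam_lt_iff hD hf i j hi.2.1]
      exact hi.2.2.2
  rw [hset, he.1.encard_image, Set.encard_coe_eq_coe_finsetCard, hFc, hn₀ n₀ le_rfl]

theorem per_aux (hD : Dat d P N) (j : ℕ) (r m : ℤ) : N j (r + 2 ^ j * m) ↔ N j r := by
  rw [hD.nod, hD.nod]
  have : ∀ i, i ≤ j → d i (r + 2 ^ j * m) = d i r := by
    intro i hi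
    obtain ⟨c, rfl⟩ := Nat.exists_eq_add_of_le hi
    have : (2 : ℤ) ^ (i + c) * m = 2 ^ i * (2 ^ c * m) := by rw [pow_add]; ring
    rw [this, hD.per]
  constructor
  · intro h i h1 h2
    rw [← this i h2]; exact h i h1 h2
  · intro h i h1 h2
    rw [this i h2]; exact h i h1 h2

theorem child_aux (he : Function.Bijective e) (hD : Dat d P N) (hf : Fam e d P f) (lam : ℤ → ℕ)
    (hlam : ∀ n, lam (e n) = lamf e f n) (j : ℕ) (r : ℤ) (hN : N j r) :
    {k : ℤ | (2:ℤ) ^ (j + 1) ∣ k - r ∧ P k ∧ lam k < j + 1}.encard = d (j + 1) r := by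
  by_cases h : N (j + 1) r
  · exact cnt_aux he hD hf lam hlam (j + 1) r h
  · have hd0 : d (j + 1) r = 0 := by
      rw [hD.nod] at h hN
      push Not at h
      obtain ⟨i, h1, h2, h3⟩ := h
      have : i = j + 1 := by
        by_contra hne
        have := hN i h1 (by omega)
        omega
      subst this
      omega
    rw [hd0]
    have : {k : ℤ | (2:ℤ) ^ (j + 1) ∣ k - r ∧ P k ∧ lam k < j + 1} = ∅ := by
      ext k
      simp only [Set.mem_ofPred_eq, Set.mem_empty_iff_false, iff_false]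
      rintro ⟨⟨m, hm⟩, h2, -⟩
      have h3 := (hD.act k).mp h2 (j + 1) (by omega)
      have h4 : k = r + 2 ^ (j + 1) * m := by linarith
      rw [h4, hD.per, hd0] at h3
      omega
    rw [this]
    simp

end aux

/-- the greedy levels give a matching -/
theorem lam_mt (e : ℕ → ℤ) (he : Function.Bijective e) {d : ℕ → ℤ → ℕ} {P : ℤ → Prop}
    {N : ℕ → ℤ → Prop} (hD : Dat d P N) {f : ℕ → ℕ → ℤ → ℕ} (hf : Fam e d P f) (lam : ℤ → ℕ)
    (hlam : ∀ n, lam (e n) = lamf e f n) : Mt P N d lam := by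
  refine ⟨?_, per_aux hD, ?_, cnt_aux he hD hf lam hlam⟩
  · intro k j hP
    rw [hD.nod]
    intro i h1 _
    exact (hD.act k).mp hP i h1
  · intro j r hN
    have hN' : N j (r + 2 ^ j) := by
      have := (per_aux hD j r 1).mpr hN
      rwa [mul_one] at this
    have h1 := child_aux he hD hf lam hlam j r hN
    have h2 := child_aux he hD hf lam hlam j (r + 2 ^ j) hN'
    have h3 := cnt_aux he hD hf lam hlam j r hN
    set B : Set ℤ := {k : ℤ | (2:ℤ) ^ j ∣ k - r ∧ P k ∧ lam k < j} with hB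
    set C : Set ℤ := {k : ℤ | (2:ℤ) ^ j ∣ k - r ∧ P k ∧ lam k < j + 1} with hC
    set C1 : Set ℤ := {k : ℤ | (2:ℤ) ^ (j + 1) ∣ k - r ∧ P k ∧ lam k < j + 1} with hC1
    set C2 : Set ℤ := {k : ℤ | (2:ℤ) ^ (j + 1) ∣ k - (r + 2 ^ j) ∧ P k ∧ lam k < j + 1} with hC2
    have hpow : (0 : ℤ) < 2 ^ j := by positivity
    have hunion : C = C1 ∪ C2 := by
      ext k
      simp only [hC, hC1, hC2, Set.mem_union, Set.mem_ofPred_eq]
      constructor
      · rintro ⟨⟨m, hm⟩, h5, h6⟩
        rcases Int.even_or_odd' m with ⟨t, ht | ht⟩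
        · left
          refine ⟨⟨t, ?_⟩, h5, h6⟩
          rw [hm, ht, pow_succ]; ring
        · right
          refine ⟨⟨t, ?_⟩, h5, h6⟩
          have : k - (r + 2 ^ j) = 2 ^ j * m - 2 ^ j := by rw [← hm]; ring
          rw [this, ht, pow_succ]; ring
      · rintro (⟨⟨m, hm⟩, h5, h6⟩ | ⟨⟨m, hm⟩, h5, h6⟩)
        · refine ⟨⟨2 * m, ?_⟩, h5, h6⟩
          rw [hm, pow_succ]; ring
        · refine ⟨⟨2 * m + 1, ?_⟩, h5, h6⟩
          have : k - r = (k - (r + 2 ^ j)) + 2 ^ j := by ring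
          rw [this, hm, pow_succ]; ring
    have hdisj : Disjoint C1 C2 := by
      rw [Set.disjoint_left]
      rintro k ⟨h5, -⟩ ⟨h6, -⟩
      have h7 := dvd_sub h5 h6
      have h8 : k - r - (k - (r + 2 ^ j)) = 2 ^ j := by ring
      rw [h8, pow_succ] at h7
      have := Int.le_of_dvd hpow h7
      omega
    have hCc : C.encard = ((d j r + 1 : ℕ) : ℕ∞) := by
      rw [hunion, Set.encard_union_eq hdisj, h1, h2, ← Nat.cast_add, hD.add]
    have hBC : B ⊆ C := by
      rintro k ⟨h5, h6, h7⟩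
      exact ⟨h5, h6, by omega⟩
    have h9 := Set.encard_diff_add_encard_of_subset hBC
    rw [h3, hCc] at h9
    have h10 : (C \ B).encard = 1 := by
      have hfin : (C \ B).encard ≠ ⊤ := by
        intro htop
        rw [htop, top_add] at h9
        exact (ENat.coe_ne_top _) h9.symm
      lift (C \ B).encard to ℕ using hfin with x hx
      have : x + d j r = d j r + 1 := by exact_mod_cast h9
      have : x = 1 := by omega
      simp [this]
    obtain ⟨k, hk⟩ := Set.encard_eq_one.mp h10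
    have hmem : ∀ k, k ∈ C \ B ↔ ((2:ℤ) ^ j ∣ k - r ∧ P k ∧ lam k = j) := by
      intro k
      simp only [hB, hC, Set.mem_diff, Set.mem_ofPred_eq]
      constructor
      · rintro ⟨⟨h5, h6, h7⟩, h8⟩
        refine ⟨h5, h6, ?_⟩
        by_contra hne
        exact h8 ⟨h5, h6, by omega⟩
      · rintro ⟨h5, h6, h7⟩
        exact ⟨⟨h5, h6, by omega⟩, fun h8 => by omega⟩
    refine ⟨k, (hmem k).mp (by rw [hk]; rfl), ?_⟩
    intro y hy
    have := (hmem y).mpr hy
    rw [hk] at this
    exact this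

end Pool.Agent.Helper152.WdLam
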