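import Pool.Agent.Helper152.WdJoin
import Pool.Agent.Helper152.WdFam
import Pool.Agent.Helper152.WdLam
import Pool.Agent.Helper152.WdDich
import Pool.Agent.Helper152.WavMraData

set_option autoImplicit false
open MeasureTheory Filter Topology
open scoped ENNReal

namespace Pool.Agent.Helper152.WdExist

open Pool.Agent.Helper152.Wav
open Pool.Agent.Helper152.Wd
open Pool.Agent.Helper152.WavPath (ee ee_bij)

theorem dd_meas (D : ℝ → ℕ) (hDm : Measurable D) (j : ℕ) (r : ℤ) : Measurable fun ξ => dd D ξ j r := by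
  unfold dd
  exact hDm.comp (by fun_prop)

theorem fd_meas (D : ℝ → ℕ) (hDm : Measurable D) (n K j : ℕ) (r : ℤ) :
    Measurable fun ξ => fd ee (dd D ξ) n K j r := by
  classical
  induction K generalizing j r with
  | zero =>
    show Measurable fun ξ => cnt0 ee (dd D ξ) n j r
    unfold cnt0
    refine Finset.measurable_sum _ fun i _ => ?_
    refine Measurable.ite ?_ measurable_const measurable_const
    refine MeasurableSet.inter ?_ (MeasurableSet.const _)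
    have : {ξ : ℝ | ∀ i' : ℕ, 1 ≤ i' → 1 ≤ dd D ξ i' (ee i)} =
        ⋂ i' : ℕ, {ξ : ℝ | 1 ≤ i' → 1 ≤ dd D ξ i' (ee i)} := by
      ext ξ; simp
    show MeasurableSet {ξ : ℝ | ∀ i' : ℕ, 1 ≤ i' → 1 ≤ dd D ξ i' (ee i)}
    rw [this]
    refine MeasurableSet.iInter fun i' => ?_
    by_cases hi : 1 ≤ i'
    · simp only [hi, true_implies]
      exact (dd_meas D hDm i' (ee i)) (t := {x | 1 ≤ x}) MeasurableSet.of_discrete
    · simp [hi]
  | succ K ih =>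
    show Measurable fun ξ => min (dd D ξ j r) (fd ee (dd D ξ) n K (j + 1) r + fd ee (dd D ξ) n K (j + 1) (r + 2 ^ j))
    exact (dd_meas D hDm j r).min ((ih _ _).add (ih _ _))

/-- the canonical levels -/
noncomputable def lamD (D : ℝ → ℕ) (ξ : ℝ) (k : ℤ) : ℕ :=
  lamf ee (ff ee (dd D ξ)) (Equiv.intEquivNat k)

theorem lamD_meas (D : ℝ → ℕ) (hDm : Measurable D) (k : ℤ) : Measurable fun ξ => lamD D ξ k := by
  unfold lamD lamf
  apply WavMraData.measurable_sInf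
  intro j
  exact measurableSet_eq_fun (fd_meas D hDm _ _ _ _) ((fd_meas D hDm _ _ _ _).add_const 1)

theorem dat (D : ℝ → ℕ) (hDp : ∀ (x : ℝ) (n : ℤ), D (x + n) = D x) (ξ : ℝ) (hξ : ξ ∈ ZZ D)
    (h : ∀ (j : ℕ) (r : ℤ),
      D ((ξ + r) / 2 ^ (j + 1)) + D ((ξ + (r + 2 ^ j : ℤ)) / 2 ^ (j + 1)) = D ((ξ + r) / 2 ^ j) + 1 ∧
      (D ((ξ + r) / 2 ^ j) : ℕ∞) ≤
        {k : ℤ | (2:ℤ) ^ j ∣ k - r ∧ ∀ i : ℕ, j ≤ i → 1 ≤ D ((ξ + k) / 2 ^ i)}.encard) :
    Dat (dd D ξ) (PP (ZZ D) ξ) (NN (ZZ D) ξ) := by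
  have hper : ∀ (x : ℝ) (n : ℤ), x + n ∈ ZZ D ↔ x ∈ ZZ D := fun x n => by
    simp only [ZZ, Set.mem_ofPred_eq]; rw [hDp]
  have hmem : ∀ x, x ∉ ZZ D ↔ 1 ≤ D x := fun x => by
    simp only [ZZ, Set.mem_ofPred_eq]; omega
  refine ⟨?_, ?_, ?_, ?_, ?_, ?_⟩
  · intro r
    unfold dd
    rw [pow_zero, div_one, hDp]
    exact hξ
  · intro j r m
    unfold dd
    have e : (ξ + ((r + 2 ^ j * m : ℤ) : ℝ)) / 2 ^ j = (ξ + r) / 2 ^ j + m := by
      push_cast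
      field_simp
      ring
    rw [e, hDp]
  · intro j r
    exact (h j r).1
  · intro k
    unfold PP dd
    simp only [hmem]
  · intro j r
    unfold NN dd
    simp only [hmem]
  · intro j r hN
    refine ((h j r).2).trans (Set.encard_le_encard ?_)
    rintro k ⟨hk, hk2⟩
    refine ⟨hk, fun i hi => ?_⟩
    rcases le_total j i with hji | hji
    · rw [hmem]; exact hk2 i hji
    · obtain ⟨q, hq⟩ := hk
      have e : k = r + 2 ^ j * q := by linarith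
      have := (WavInit.NN_per1 (ZZ D) hper ξ j r q).2 hN
      rw [← e] at this
      exact this i hi hji

/-- existence of a state with the given dimensions -/
theorem lamD_mt (D : ℝ → ℕ) (hDm : Measurable D) (hp : Function.Periodic D 1)
    (hDp : ∀ (x : ℝ) (n : ℤ), D (x + n) = D x)
    (D2 : ∀ᵐ ξ : ℝ, D ξ + D (ξ + 1 / 2) = D (2 * ξ) + 1)
    (D3 : ∀ᵐ ξ : ℝ, ((D ξ : ℕ∞) ≤ {k : ℤ | ∀ j : ℕ, 1 ≤ D ((ξ + k) / 2 ^ j)}.encard)) :
    ∀ᵐ ξ : ℝ, ξ ∈ ZZ D → 0 ≤ ξ → ξ < 1 → Mt (PP (ZZ D) ξ) (NN (ZZ D) ξ) (dd D ξ) (lamD D ξ) := by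
  filter_upwards [WdDich.fibre_data D hDm hp D2 D3] with ξ h hξ _ _
  have hd := dat D hDp ξ hξ h
  have hf := WdFam.ff_fam ee ee_bij.1 (dd D ξ) (PP (ZZ D) ξ) hd.per hd.act
  refine WdLam.lam_mt ee ee_bij hd hf (lamD D ξ) (fun n => ?_)
  unfold lamD ee
  rw [Equiv.apply_symm_apply]

end Pool.Agent.Helper152.WdExist
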