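import Pool.Agent.Helper152.WdDefs

set_option autoImplicit false
open MeasureTheory Filter Topology
open scoped ENNReal

namespace Pool.Agent.Helper152.WdFilt

open Pool.Agent.Helper152.Wav
open Pool.Agent.Helper152.Wd
open Pool.Agent.Helper152.Lar (w)


theorem ae_aff {P : ℝ → Prop} (h : ∀ᵐ x : ℝ, P x) (a d : ℝ) (ha : a ≠ 0) :
    ∀ᵐ x : ℝ, P (a * x + d) := by
  rw [ae_iff] at h ⊢
  have h1 : volume ((fun x => x + d) ⁻¹' {x | ¬ P x}) = 0 := by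
    rw [measure_preimage_add_right]; exact h
  have h2 := Real.volume_preimage_mul_left ha ((fun x => x + d) ⁻¹' {x | ¬ P x})
  rw [h1, mul_zero] at h2
  exact h2

theorem shift_lint (n : ℤ) (f : ℝ → ℝ≥0∞) :
    ∫⁻ x in Set.Ico (n:ℝ) (n+1), f x = ∫⁻ x in Set.Ico (0:ℝ) 1, f (x + n) := by
  have hmp := measurePreserving_add_right volume (n:ℝ)
  have hemb : MeasurableEmbedding (fun x : ℝ => x + n) := measurableEmbedding_addRight (n:ℝ)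
  have h := hmp.setLIntegral_comp_preimage_emb hemb f (Set.Ico (n:ℝ) (n+1))
  rw [← h]
  congr 2
  ext x
  simp only [Set.mem_preimage, Set.mem_Ico]
  constructor <;> rintro ⟨h1, h2⟩ <;> constructor <;> linarith

theorem fold_lint (f : ℝ → ℝ≥0∞) :
    ∫⁻ x, f x = ∑' n : ℤ, ∫⁻ x in Set.Ico (0:ℝ) 1, f (x + n) := by
  have h1 : ∫⁻ x, f x = ∫⁻ x in ⋃ n : ℤ, Set.Ico (n:ℝ) (n+1), f x := by
    rw [iUnion_Ico_intCast]; simp
  rw [h1, lintegral_iUnion (fun n => measurableSet_Ico) (Set.pairwise_disjoint_Ico_intCast ℝ)]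
  exact tsum_congr fun n => shift_lint n f

theorem dil_lint {a : ℝ} (ha : 0 < a) (f : ℝ → ℝ≥0∞) (hf : Measurable f) :
    ENNReal.ofReal a * ∫⁻ x, f (a * x) = ∫⁻ x, f x := by
  conv_rhs => rw [← Real.smul_map_volume_mul_left ha.ne']
  rw [lintegral_smul_measure, lintegral_map hf (measurable_const_mul a), abs_of_pos ha, smul_eq_mul]

theorem decay (g : ℝ → ℂ) (hgm : Measurable g)
    (hn : ∀ᵐ y : ℝ, ∑' n : ℤ, ‖g (y + n)‖ₑ ^ 2 = 1) :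
    ∀ᵐ y : ℝ, Tendsto (fun N : ℕ => ‖g ((2:ℝ) ^ N * y)‖ ^ 2) atTop (𝓝 0) := by
  have hmeas : Measurable (fun x => ‖g x‖ₑ ^ 2) := hgm.enorm.pow_const 2
  have h1 : ∫⁻ x, ‖g x‖ₑ ^ 2 = 1 := by
    have hL : ∀ n : ℤ, AEMeasurable (fun x : ℝ => ‖g (x + n)‖ₑ ^ 2)
        (volume.restrict (Set.Ico (0:ℝ) 1)) :=
      fun n => (hmeas.comp (measurable_add_const (n:ℝ))).aemeasurable
    rw [fold_lint, ← lintegral_tsum hL]
    rw [lintegral_congr_ae (g := fun _ => (1 : ℝ≥0∞)) (ae_restrict_of_ae hn)]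
    simp
  have h2 : ∫⁻ x, ∑' N : ℕ, ‖g ((2:ℝ) ^ N * x)‖ₑ ^ 2 ≠ ∞ := by
    have hL : ∀ N : ℕ, AEMeasurable (fun x : ℝ => ‖g ((2:ℝ) ^ N * x)‖ₑ ^ 2) volume :=
      fun N => (hmeas.comp (measurable_const_mul ((2:ℝ) ^ N))).aemeasurable
    rw [lintegral_tsum hL]
    have h3 : ∀ N : ℕ, ∫⁻ x, ‖g ((2:ℝ) ^ N * x)‖ₑ ^ 2 = (2⁻¹ : ℝ≥0∞) ^ N := by
      intro N
      have h4 := dil_lint (a := (2:ℝ) ^ N) (by positivity) (fun x => ‖g x‖ₑ ^ 2) hmeas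
      rw [h1] at h4
      have h5 : ENNReal.ofReal ((2:ℝ) ^ N) = 2 ^ N := by
        rw [ENNReal.ofReal_pow (by norm_num)]; simp
      rw [h5] at h4
      rw [← ENNReal.inv_pow]
      exact ENNReal.eq_inv_of_mul_eq_one_left (by rw [mul_comm]; exact h4)
    simp_rw [h3]
    rw [ENNReal.tsum_geometric]
    simp
  have h6 := ae_lt_top' (AEMeasurable.tsum (fun N : ℕ =>
    (hmeas.comp (measurable_const_mul ((2:ℝ) ^ N))).aemeasurable)) h2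
  filter_upwards [h6] with y hy
  have h7 := ENNReal.tendsto_atTop_zero_of_tsum_ne_top hy.ne
  have h9 := (ENNReal.tendsto_toReal ENNReal.zero_ne_top).comp h7
  rw [ENNReal.toReal_zero] at h9
  refine h9.congr (fun N => ?_)
  simp only [Function.comp]
  rw [ENNReal.toReal_pow, toReal_enorm]

theorem enorm_sq (z : ℂ) : ‖z‖ₑ ^ 2 = ENNReal.ofReal (‖z‖ ^ 2) := by
  rw [← ofReal_norm, ENNReal.ofReal_pow (norm_nonneg _)]

theorem column (a b c d : ℂ) (h1 : ‖a‖ ^ 2 + ‖b‖ ^ 2 = 1) (h2 : ‖c‖ ^ 2 + ‖d‖ ^ 2 = 1)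
    (h3 : a * (starRingEnd ℂ) c + b * (starRingEnd ℂ) d = 0) : ‖a‖ ^ 2 + ‖c‖ ^ 2 = 1 := by
  have h4 : a * (starRingEnd ℂ) c = -(b * (starRingEnd ℂ) d) := eq_neg_of_add_eq_zero_left h3
  have h5 : ‖a‖ * ‖c‖ = ‖b‖ * ‖d‖ := by
    have := congrArg norm h4
    rw [norm_neg, norm_mul, norm_mul, RCLike.norm_conj, RCLike.norm_conj] at this
    exact this
  have h6 : ‖a‖ ^ 2 * ‖c‖ ^ 2 = ‖b‖ ^ 2 * ‖d‖ ^ 2 := by
    rw [← mul_pow, h5, mul_pow]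
  have h7 : ‖b‖ ^ 2 = 1 - ‖a‖ ^ 2 := by linarith
  have h8 : ‖d‖ ^ 2 = 1 - ‖c‖ ^ 2 := by linarith
  rw [h7, h8] at h6
  linarith

/-- filters give dimension function one. -/
theorem dim_of_filter (g m h : ℝ → ℂ) (hgm : Measurable g) (hmm : Measurable m) (hhm : Measurable h)
    (mp : ∀ y, m (y + 1) = m y) (hp : ∀ y, h (y + 1) = h y)
    (h2 : ∀ᵐ y : ℝ, g (2 * y) = m y * g y)
    (hn : ∀ᵐ y : ℝ, ∑' n : ℤ, ‖g (y + n)‖ₑ ^ 2 = 1)
    (hm1 : ∀ᵐ y : ℝ, ‖m y‖ ^ 2 + ‖m (y + 1 / 2)‖ ^ 2 = 1)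
    (hh1 : ∀ᵐ y : ℝ, ‖h y‖ ^ 2 + ‖h (y + 1 / 2)‖ ^ 2 = 1)
    (hmh : ∀ᵐ y : ℝ, m y * (starRingEnd ℂ) (h y) + m (y + 1 / 2) * (starRingEnd ℂ) (h (y + 1 / 2)) = 0) :
    ∀ᵐ x : ℝ, ∑' n : ℤ, w (fun y => h (y / 2) * g (y / 2)) (x + n) = 1 := by
  have hone : ∀ᵐ y : ℝ, ‖h y‖ ^ 2 * ‖g y‖ ^ 2 = ‖g y‖ ^ 2 - ‖g (2 * y)‖ ^ 2 := by
    filter_upwards [hm1, hh1, hmh, h2] with y a1 a2 a3 a4
    have a5 := column _ _ _ _ a1 a2 a3
    rw [a4, norm_mul, mul_pow]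
    have a6 : ‖h y‖ ^ 2 = 1 - ‖m y‖ ^ 2 := by linarith
    rw [a6]
    ring
  have hall : ∀ᵐ y : ℝ, ∀ i : ℕ, ‖h ((2:ℝ) ^ i * y)‖ ^ 2 * ‖g ((2:ℝ) ^ i * y)‖ ^ 2
      = ‖g ((2:ℝ) ^ i * y)‖ ^ 2 - ‖g ((2:ℝ) ^ (i + 1) * y)‖ ^ 2 := by
    rw [ae_all_iff]
    intro i
    filter_upwards [ae_aff hone ((2:ℝ) ^ i) 0 (by positivity)] with y hy
    rw [add_zero] at hy
    rw [hy]
    have e : (2:ℝ) ^ (i + 1) * y = 2 * ((2:ℝ) ^ i * y) := by ring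
    rw [e]
  have hw : ∀ᵐ y : ℝ, w (fun y => h (y / 2) * g (y / 2)) y = ‖g y‖ₑ ^ 2 := by
    filter_upwards [hall, decay g hgm hn] with y hy hdec
    have hnn : ∀ i : ℕ, 0 ≤ ‖g ((2:ℝ) ^ i * y)‖ ^ 2 - ‖g ((2:ℝ) ^ (i + 1) * y)‖ ^ 2 := by
      intro i
      rw [← hy i]
      positivity
    have hs : HasSum (fun i : ℕ => ‖g ((2:ℝ) ^ i * y)‖ ^ 2 - ‖g ((2:ℝ) ^ (i + 1) * y)‖ ^ 2)
        (‖g y‖ ^ 2) := by
      rw [hasSum_iff_tendsto_nat_of_nonneg hnn]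
      have e : (fun n : ℕ => ∑ i ∈ Finset.range n,
          (‖g ((2:ℝ) ^ i * y)‖ ^ 2 - ‖g ((2:ℝ) ^ (i + 1) * y)‖ ^ 2))
          = fun n => ‖g y‖ ^ 2 - ‖g ((2:ℝ) ^ n * y)‖ ^ 2 := by
        funext n
        rw [Finset.sum_range_sub' (fun i : ℕ => ‖g ((2:ℝ) ^ i * y)‖ ^ 2)]
        simp
      rw [e]
      have := hdec.const_sub (‖g y‖ ^ 2)
      rwa [sub_zero] at this
    unfold w
    have e1 : ∀ i : ℕ, ‖(fun y => h (y / 2) * g (y / 2)) ((2:ℝ) ^ (i + 1) * y)‖ₑ ^ 2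
        = ENNReal.ofReal (‖g ((2:ℝ) ^ i * y)‖ ^ 2 - ‖g ((2:ℝ) ^ (i + 1) * y)‖ ^ 2) := by
      intro i
      rw [enorm_sq, ← hy i]
      congr 1
      have e2 : (2:ℝ) ^ (i + 1) * y / 2 = (2:ℝ) ^ i * y := by ring
      show ‖h ((2:ℝ) ^ (i + 1) * y / 2) * g ((2:ℝ) ^ (i + 1) * y / 2)‖ ^ 2 = _
      rw [e2, norm_mul, mul_pow]
    rw [tsum_congr e1, ← ENNReal.ofReal_tsum_of_nonneg hnn hs.summable, hs.tsum_eq, enorm_sq]
  have hwn : ∀ᵐ x : ℝ, ∀ n : ℤ, w (fun y => h (y / 2) * g (y / 2)) (x + n)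
      = ‖g (x + n)‖ₑ ^ 2 := by
    rw [ae_all_iff]
    intro n
    filter_upwards [ae_aff hw 1 n one_ne_zero] with x hx
    rwa [one_mul] at hx
  filter_upwards [hwn, hn] with x hx hx1
  rw [tsum_congr hx, hx1]

theorem pow_uniq (a : ℝ) (ha : 0 < a) (j j' : ℕ) (h1 : 1 / 2 < (2:ℝ) ^ j * a)
    (h2 : (2:ℝ) ^ j * a < 1) (h1' : 1 / 2 < (2:ℝ) ^ j' * a) (h2' : (2:ℝ) ^ j' * a < 1) :
    j = j' := by
  have key : ∀ i i' : ℕ, 1 / 2 < (2:ℝ) ^ i * a → (2:ℝ) ^ i' * a < 1 → ¬ i < i' := by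
    intro i i' h h' hlt
    have h3 : (2:ℝ) ^ (i + 1) ≤ (2:ℝ) ^ i' := pow_le_pow_right₀ (by norm_num) hlt
    rw [pow_succ] at h3
    have := mul_le_mul_of_nonneg_right h3 ha.le
    nlinarith
  exact le_antisymm (not_lt.1 (key j' j h1' h2)) (not_lt.1 (key j j' h1 h2'))

theorem shannon_w (y : ℝ) (h0 : y ≠ 0) (hd : ∀ n : ℤ, |y| ≠ (2:ℝ) ^ n) :
    w ({y : ℝ | 1 / 2 < |y| ∧ |y| < 1}.indicator (fun _ => (1:ℂ))) y
      = if |y| < 1 / 2 then 1 else 0 := by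
  have hab : ∀ j : ℕ, |(2:ℝ) ^ j * y| = (2:ℝ) ^ j * |y| := by
    intro j; rw [abs_mul, abs_of_pos (by positivity)]
  have hy : 0 < |y| := abs_pos.2 h0
  split_ifs with hlt
  · obtain ⟨n, hn⟩ := exists_mem_Ico_zpow hy (by norm_num : (1:ℝ) < 2)
    have hn1 : (2:ℝ) ^ n < |y| := lt_of_le_of_ne hn.1 (fun h => hd n h.symm)
    have hn2 : n < -1 := by
      by_contra hcon
      have h3 : (2:ℝ) ^ (-1 : ℤ) ≤ (2:ℝ) ^ n := zpow_le_zpow_right₀ (by norm_num) (by omega)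
      have h4 : (2:ℝ) ^ (-1 : ℤ) = 1 / 2 := by norm_num
      rw [h4] at h3
      linarith
    obtain ⟨i, hi⟩ : ∃ i : ℕ, (i : ℤ) = -n - 2 := ⟨(-n - 2).toNat, by omega⟩
    have e1 : (2:ℝ) ^ (i + 1) * (2:ℝ) ^ n = 1 / 2 := by
      rw [← zpow_natCast, ← zpow_add₀ (by norm_num)]
      have : ((i + 1 : ℕ) : ℤ) + n = -1 := by push_cast; omega
      rw [this]; norm_num
    have e2 : (2:ℝ) ^ (i + 1) * (2:ℝ) ^ (n + 1) = 1 := by
      rw [zpow_add_one₀ (by norm_num), ← mul_assoc, e1]; norm_num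
    have hp : (0:ℝ) < (2:ℝ) ^ (i + 1) := by positivity
    have b1 : 1 / 2 < (2:ℝ) ^ (i + 1) * |y| := by
      rw [← e1]; exact mul_lt_mul_of_pos_left hn1 hp
    have b2 : (2:ℝ) ^ (i + 1) * |y| < 1 := by
      rw [← e2]; exact mul_lt_mul_of_pos_left hn.2 hp
    unfold w
    rw [tsum_eq_single i]
    · rw [Set.indicator_of_mem]
      · simp
      · show 1 / 2 < |(2:ℝ) ^ (i + 1) * y| ∧ |(2:ℝ) ^ (i + 1) * y| < 1
        rw [hab]
        exact ⟨b1, b2⟩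
    · intro j hj
      rw [Set.indicator_of_notMem]
      · simp
      · intro hmem
        have hmem : 1 / 2 < |(2:ℝ) ^ (j + 1) * y| ∧ |(2:ℝ) ^ (j + 1) * y| < 1 := hmem
        rw [hab] at hmem
        have := pow_uniq |y| hy _ _ hmem.1 hmem.2 b1 b2
        exact hj (by omega)
  · have hgt : 1 / 2 < |y| := by
      rcases lt_or_eq_of_le (not_lt.1 hlt) with h | h
      · exact h
      · exfalso
        apply hd (-1)
        rw [← h]; norm_num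
    unfold w
    rw [ENNReal.tsum_eq_zero]
    intro j
    rw [Set.indicator_of_notMem]
    · simp
    · intro hmem
      have hmem : 1 / 2 < |(2:ℝ) ^ (j + 1) * y| ∧ |(2:ℝ) ^ (j + 1) * y| < 1 := hmem
      rw [hab] at hmem
      have h3 : (2:ℝ) ≤ (2:ℝ) ^ (j + 1) := by
        calc (2:ℝ) = 2 ^ 1 := by norm_num
          _ ≤ _ := pow_le_pow_right₀ (by norm_num) (by omega)
      nlinarith [hmem.2]

/-- the Shannon set has dimension function one -/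
theorem shannon_dim : ∀ᵐ x : ℝ, ∑' n : ℤ,
    w ({y : ℝ | 1 / 2 < |y| ∧ |y| < 1}.indicator (fun _ => (1:ℂ))) (x + n) = 1 := by
  have hc : ((Set.range fun n : ℤ => (2:ℝ) ^ n) ∪ (Set.range fun n : ℤ => -(2:ℝ) ^ n) ∪ {0}).Countable :=
    ((Set.countable_range _).union (Set.countable_range _)).union (Set.countable_singleton _)
  have hc2 : (Set.range fun n : ℤ => (n:ℝ) / 2).Countable := Set.countable_range _
  have hD : ∀ᵐ y : ℝ, y ≠ 0 ∧ ∀ n : ℤ, |y| ≠ (2:ℝ) ^ n := by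
    filter_upwards [hc.ae_notMem volume] with x hx
    simp only [Set.mem_union, Set.mem_range, Set.mem_singleton_iff, not_or, not_exists] at hx
    refine ⟨hx.2, fun n h => ?_⟩
    rcases abs_choice x with h' | h'
    · exact hx.1.1 n (by rw [← h, h'])
    · exact hx.1.2 n (by rw [← h, h', neg_neg])
  have hDn : ∀ᵐ x : ℝ, ∀ n : ℤ, (x + n ≠ 0 ∧ ∀ l : ℤ, |x + n| ≠ (2:ℝ) ^ l) := by
    rw [ae_all_iff]
    intro n
    filter_upwards [ae_aff hD 1 n one_ne_zero] with x hx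
    rwa [one_mul] at hx
  filter_upwards [hDn, hc2.ae_notMem volume] with x hx hx2
  rw [tsum_congr (fun n : ℤ => shannon_w (x + n) (hx n).1 (hx n).2)]
  have hr : |x - round x| ≤ 1 / 2 := abs_sub_round x
  have hr2 : |x - round x| ≠ 1 / 2 := by
    intro h
    apply hx2
    rcases abs_choice (x - round x) with h' | h'
    · refine ⟨2 * round x + 1, ?_⟩
      rw [h'] at h
      push_cast
      linarith
    · refine ⟨2 * round x - 1, ?_⟩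
      rw [h'] at h
      push_cast
      linarith
  have hr3 : |x - round x| < 1 / 2 := lt_of_le_of_ne hr hr2
  rw [tsum_eq_single (-round x)]
  · rw [if_pos]
    push_cast
    rw [← sub_eq_add_neg]
    exact hr3
  · intro n hn
    rw [if_neg]
    intro hlt
    apply hn
    rw [abs_lt] at hlt hr3
    have h1 : ((n + round x : ℤ) : ℝ) < 1 := by push_cast; linarith [hlt.2, hr3.1]
    have h2 : (-1 : ℝ) < ((n + round x : ℤ) : ℝ) := by push_cast; linarith [hlt.1, hr3.2]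
    have h3 : n + round x < 1 := by exact_mod_cast h1
    have h4 : -1 < n + round x := by exact_mod_cast h2
    omega

end Pool.Agent.Helper152.WdFilt
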