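import Pool.Agent.Helper152.WdDefs
import Pool.Agent.Helper152.WavRow

set_option autoImplicit false
open MeasureTheory Filter Topology
open scoped ENNReal

namespace Pool.Agent.Helper152.WdFlow

open Pool.Agent.Helper152.Wav
open Pool.Agent.Helper152.Wd
open Pool.Agent.Helper152.Lar (w)
open Pool.Agent.Helper152.WavRow (rowOrth)





theorem j6268_wf_sg_succ (a : ℤ → ℕ → ℂ) (k₀ : ℤ) (j : ℕ) : sg a k₀ (j + 1) = sg a k₀ j + ‖a k₀ j‖ ^ 2 :=
  Finset.sum_range_succ _ _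

theorem j6268_wf_ss_succ (a : ℤ → ℕ → ℂ) (k₀ k : ℤ) (j : ℕ) :
    ss a k₀ k (j + 1) = ss a k₀ k j + (starRingEnd ℂ) (a k₀ j) * a k j :=
  Finset.sum_range_succ _ _

theorem j6268_wf_sg_nonneg (a : ℤ → ℕ → ℂ) (k₀ : ℤ) (j : ℕ) : 0 ≤ sg a k₀ j :=
  Finset.sum_nonneg fun _ _ => by positivity

theorem j6268_wf_ss_self (a : ℤ → ℕ → ℂ) (k₀ : ℤ) (j : ℕ) : ss a k₀ k₀ j = ((sg a k₀ j : ℝ) : ℂ) := by
  unfold ss sg
  push_cast
  refine Finset.sum_congr rfl fun l _ => ?_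
  rw [mul_comm, Complex.mul_conj, Complex.normSq_eq_norm_sq]
  push_cast
  rfl

theorem j6268_wf_ss_zero (a : ℤ → ℕ → ℂ) (k₀ k : ℤ) (j : ℕ) (h : sg a k₀ j = 0) : ss a k₀ k j = 0 := by
  unfold ss
  refine Finset.sum_eq_zero fun l hl => ?_
  have h1 : ‖a k₀ l‖ ^ 2 = 0 := (Finset.sum_eq_zero_iff_of_nonneg (fun _ _ => by positivity)).1 h l hl
  have h2 : a k₀ l = 0 := by
    rw [← norm_eq_zero]; exact pow_eq_zero_iff (two_ne_zero) |>.1 h1
  rw [h2]; simp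

theorem j6268_wf_alg (A A' θ : ℝ) (x b s : ℂ) (hA : 0 < A) (hθ : 0 ≤ θ) (hA' : A' = A + θ * ‖b‖ ^ 2) :
    ‖((Real.sqrt (A / A') : ℝ) : ℂ) * x - ((θ / Real.sqrt (A * A') : ℝ) : ℂ) * b * s‖ ^ 2 =
      ‖x‖ ^ 2 - (θ * ‖s + (starRingEnd ℂ) b * x‖ ^ 2 / A' - θ * ‖s‖ ^ 2 / A) := by
  have hA'0 : 0 < A' := by rw [hA']; positivity
  set p := Real.sqrt (A / A') with hp
  set r := θ / Real.sqrt (A * A') with hr
  have hp2 : p ^ 2 = A / A' := Real.sq_sqrt (by positivity)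
  have hr2 : r ^ 2 = θ ^ 2 / (A * A') := by
    rw [hr, div_pow, Real.sq_sqrt (by positivity)]
  have hpr : p * r = θ / A' := by
    rw [hp, hr, Real.sqrt_div hA.le, Real.sqrt_mul hA.le]
    have h1 : 0 < Real.sqrt A := Real.sqrt_pos.2 hA
    have h2 : 0 < Real.sqrt A' := Real.sqrt_pos.2 hA'0
    have h3 : Real.sqrt A' * Real.sqrt A' = A' := Real.mul_self_sqrt hA'0.le
    rw [div_mul_div_comm]
    rw [div_eq_div_iff (by positivity) hA'0.ne']
    calc Real.sqrt A * θ * A' = Real.sqrt A * θ * (Real.sqrt A' * Real.sqrt A') := by rw [h3]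
      _ = _ := by ring
  have e1 : ‖(p : ℂ) * x - (r : ℂ) * b * s‖ ^ 2 = p ^ 2 * ‖x‖ ^ 2 + r ^ 2 * (‖b‖ ^ 2 * ‖s‖ ^ 2) -
      2 * (p * r) * (x.re * (b.re * s.re - b.im * s.im) + x.im * (b.re * s.im + b.im * s.re)) := by
    simp only [← Complex.normSq_eq_norm_sq, Complex.normSq_apply]
    simp only [Complex.sub_re, Complex.sub_im, Complex.mul_re, Complex.mul_im, Complex.ofReal_re,
      Complex.ofReal_im]
    ring
  have e2 : ‖s + (starRingEnd ℂ) b * x‖ ^ 2 = ‖s‖ ^ 2 + ‖b‖ ^ 2 * ‖x‖ ^ 2 +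
      2 * (x.re * (b.re * s.re - b.im * s.im) + x.im * (b.re * s.im + b.im * s.re)) := by
    simp only [← Complex.normSq_eq_norm_sq, Complex.normSq_apply]
    simp only [Complex.add_re, Complex.add_im, Complex.mul_re, Complex.mul_im, Complex.conj_re,
      Complex.conj_im]
    ring
  rw [e1, e2, hp2, hr2, hpr]
  generalize (x.re * (b.re * s.re - b.im * s.im) + x.im * (b.re * s.im + b.im * s.re)) = R
  field_simp
  rw [hA']
  ring


theorem j6268_wf_step0 {a : ℤ → ℕ → ℂ} (k₀ : ℤ) (θ : ℝ) (h0 : 0 ≤ θ) (h1 : θ ≤ 1) (j : ℕ) :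
    ‖mv θ k₀ a k₀ j‖ ^ 2 = sg a k₀ (j + 1) / (1 - θ + θ * sg a k₀ (j + 1)) -
      sg a k₀ j / (1 - θ + θ * sg a k₀ j) := by
  have hS := j6268_wf_sg_nonneg a k₀ j
  have hS' := j6268_wf_sg_succ a k₀ j
  have hb : 0 ≤ ‖a k₀ j‖ ^ 2 := by positivity
  unfold mv
  rw [if_pos (by simp)]
  by_cases hθ : θ < 1
  · rw [if_pos hθ, if_pos rfl]
    have hA : 0 < 1 - θ + θ * sg a k₀ j := by
      have : 0 ≤ θ * sg a k₀ j := mul_nonneg h0 hS
      linarith
    have hA' : 0 < 1 - θ + θ * sg a k₀ (j + 1) := by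
      have : 0 ≤ θ * sg a k₀ (j + 1) := mul_nonneg h0 (by linarith)
      linarith
    rw [norm_mul, mul_pow, Complex.norm_real, Real.norm_eq_abs, sq_abs, div_pow, Real.sq_sqrt (by linarith),
      Real.sq_sqrt (by positivity)]
    rw [hS'] at hA' ⊢
    field_simp
    ring
  · have hθ1 : θ = 1 := le_antisymm h1 (not_lt.1 hθ)
    rw [if_neg hθ, hθ1]
    simp only [sub_self, zero_add, one_mul]
    by_cases hs1 : sg a k₀ (j + 1) = 0
    · rw [if_pos hs1]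
      have h2 : sg a k₀ j = 0 := by linarith
      have h3 : ‖a k₀ j‖ ^ 2 = 0 := by linarith
      rw [h3, hs1, h2]; simp
    · rw [if_neg hs1]
      by_cases hs : sg a k₀ j = 0
      · rw [if_pos hs, if_pos trivial, hs]
        have h3 : ‖a k₀ j‖ ≠ 0 := by
          intro h4
          rw [hs, h4] at hS'
          apply hs1
          rw [hS']; simp
        rw [norm_div, Complex.norm_real, norm_norm, div_self h3, div_self hs1]
        simp
      · rw [if_neg hs, j6268_wf_ss_self]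
        have hpos : 0 < sg a k₀ j := lt_of_le_of_ne hS (Ne.symm hs)
        have hpos' : 0 < sg a k₀ (j + 1) := by linarith
        have h4 : Real.sqrt (sg a k₀ j / sg a k₀ (j + 1)) = 1 / Real.sqrt (sg a k₀ j * sg a k₀ (j + 1)) * sg a k₀ j := by
          rw [Real.sqrt_div hS, Real.sqrt_mul hS]
          have h5 : 0 < Real.sqrt (sg a k₀ j) := Real.sqrt_pos.2 hpos
          have h6 : 0 < Real.sqrt (sg a k₀ (j + 1)) := Real.sqrt_pos.2 hpos'
          have h7 : Real.sqrt (sg a k₀ j) * Real.sqrt (sg a k₀ j) = sg a k₀ j := Real.mul_self_sqrt hS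
          rw [one_div_mul_eq_div, div_eq_div_iff h6.ne' (by positivity)]
          calc Real.sqrt (sg a k₀ j) * (Real.sqrt (sg a k₀ j) * Real.sqrt (sg a k₀ (j + 1)))
              = (Real.sqrt (sg a k₀ j) * Real.sqrt (sg a k₀ j)) * Real.sqrt (sg a k₀ (j + 1)) := by ring
            _ = _ := by rw [h7]
        have h8 : ((Real.sqrt (sg a k₀ j / sg a k₀ (j + 1)) : ℝ) : ℂ) * a k₀ j -
            ((1 / Real.sqrt (sg a k₀ j * sg a k₀ (j + 1)) : ℝ) : ℂ) * a k₀ j * ((sg a k₀ j : ℝ) : ℂ) = 0 := by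
          rw [h4]
          push_cast
          ring
        rw [h8, div_self hs, div_self hs1]
        simp

theorem j6268_wf_step {a : ℤ → ℕ → ℂ} (k₀ k : ℤ) (hne : k ≠ k₀) (θ : ℝ) (h0 : 0 ≤ θ) (h1 : θ ≤ 1) (j : ℕ) (hd : (2:ℤ) ^ j ∣ k - k₀) :
    ‖mv θ k₀ a k j‖ ^ 2 = ‖a k j‖ ^ 2 - (θ * ‖ss a k₀ k (j + 1)‖ ^ 2 / (1 - θ + θ * sg a k₀ (j + 1)) -
      θ * ‖ss a k₀ k j‖ ^ 2 / (1 - θ + θ * sg a k₀ j)) := by
  have hS := j6268_wf_sg_nonneg a k₀ j
  have hS' := j6268_wf_sg_succ a k₀ j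
  have hb : 0 ≤ ‖a k₀ j‖ ^ 2 := by positivity
  rw [j6268_wf_ss_succ]
  unfold mv
  rw [if_pos hd]
  by_cases hθ : θ < 1
  · rw [if_pos hθ, if_neg hne]
    have hA : 0 < 1 - θ + θ * sg a k₀ j := by
      have : 0 ≤ θ * sg a k₀ j := mul_nonneg h0 hS
      linarith
    exact j6268_wf_alg _ _ θ _ _ _ hA h0 (by rw [hS']; ring)
  · have hθ1 : θ = 1 := le_antisymm h1 (not_lt.1 hθ)
    rw [if_neg hθ, hθ1]
    simp only [sub_self, zero_add, one_mul]
    by_cases hs1 : sg a k₀ (j + 1) = 0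
    · rw [if_pos hs1]
      have h2 : sg a k₀ j = 0 := by linarith
      rw [hs1, h2]; simp
    · rw [if_neg hs1]
      by_cases hs : sg a k₀ j = 0
      · rw [if_pos hs, if_neg hne, j6268_wf_ss_zero a k₀ k j hs, hs]
        rw [hs, zero_add] at hS'
        rw [hS'] at hs1 ⊢
        rw [zero_add, norm_mul, RCLike.norm_conj, mul_pow, norm_zero, mul_div_cancel_left₀ _ hs1]
        simp
      · rw [if_neg hs]
        have hpos : 0 < sg a k₀ j := lt_of_le_of_ne hS (Ne.symm hs)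
        have := j6268_wf_alg (sg a k₀ j) (sg a k₀ (j + 1)) 1 (a k j) (a k₀ j) (ss a k₀ k j) hpos zero_le_one (by rw [hS']; ring)
        simp only [one_mul] at this
        exact this

theorem j6268_wf_enorm_sum (f : ℕ → ℂ) (n : ℕ) :
    ∑ j ∈ Finset.range n, ‖f j‖ₑ ^ 2 = ENNReal.ofReal (∑ j ∈ Finset.range n, ‖f j‖ ^ 2) := by
  rw [ENNReal.ofReal_sum_of_nonneg (fun _ _ => by positivity)]
  refine Finset.sum_congr rfl fun j _ => ?_
  rw [ENNReal.ofReal_pow (norm_nonneg _), ofReal_norm]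

lemma j6268_enorm_sq_ofReal {E : Type*} [NormedAddCommGroup E] (x : E) :
    ‖x‖ₑ ^ 2 = ENNReal.ofReal (‖x‖ ^ 2) := by
  rw [← ofReal_norm, ENNReal.ofReal_pow (norm_nonneg _)]

lemma j6268_memlp_of (f : ℤ → ℂ) (h : ∑' n, ‖f n‖ₑ ^ 2 ≠ ∞) : Memℓp (E := fun _ : ℤ => ℂ) f 2 := by
  apply memℓp_gen
  have h2 : ∀ n, ‖f n‖ₑ ^ 2 = ((‖f n‖₊ ^ 2 : NNReal) : ℝ≥0∞) := by
    intro n; simp [enorm_eq_nnnorm]
  simp_rw [h2] at h
  have h3 := ENNReal.tsum_coe_ne_top_iff_summable.1 h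
  have h4 := NNReal.summable_coe.2 h3
  simpa using h4

lemma j6268_enorm_lp (f : lp (fun _ : ℤ => ℂ) 2) : ‖f‖ₑ ^ 2 = ∑' n, ‖f n‖ₑ ^ 2 := by
  have h := lp.norm_rpow_eq_tsum (p := 2) (by norm_num) f
  have h2 : ‖f‖ ^ 2 = ∑' n, ‖f n‖ ^ 2 := by simpa using h
  have hs : Summable fun n => ‖f n‖ ^ 2 := by
    have := (lp.memℓp f).summable (by norm_num)
    simpa using this
  rw [j6268_enorm_sq_ofReal, h2, ENNReal.ofReal_tsum_of_nonneg (fun n => by positivity) hs]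
  exact tsum_congr fun n => (j6268_enorm_sq_ofReal _).symm

lemma j6268_tsum_prog {M : Type*} [AddCommMonoid M] [TopologicalSpace M] (f : ℤ → M) (j : ℕ) (r : ℤ)
    (h : ∀ q, ¬ (2:ℤ) ^ j ∣ q - r → f q = 0) : ∑' m : ℤ, f (r + 2 ^ j * m) = ∑' q, f q := by
  have hinj : Function.Injective (fun m : ℤ => r + (2:ℤ) ^ j * m) := by
    intro a b hab
    have : (2:ℤ) ^ j * a = 2 ^ j * b := by simpa using hab
    exact mul_left_cancel₀ (by positivity) this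
  refine hinj.tsum_eq ?_
  intro q hq
  by_contra hcon
  apply hq
  apply h
  rintro ⟨m, hm⟩
  exact hcon ⟨m, by simp only; linarith⟩

/-- the column vector -/
def j6268_vcol (a : ℤ → ℕ → ℂ) (k₀ : ℤ) (j : ℕ) (q : ℤ) : ℂ := if (2:ℤ) ^ j ∣ q - k₀ then a q j else 0


section
variable {P : ℤ → Prop} {N : ℕ → ℤ → Prop} {a : ℤ → ℕ → ℂ} (h : Blk P N a) (k₀ : ℤ) (hk₀ : P k₀)
include h hk₀

lemma j6268_vcol_norm (j : ℕ) : ∑' q, ‖j6268_vcol a k₀ j q‖ₑ ^ 2 = 1 := by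
  rw [← j6268_tsum_prog (fun q => ‖j6268_vcol a k₀ j q‖ₑ ^ 2) j k₀ (fun q hq => by simp [j6268_vcol, hq])]
  have h1 := h.col j k₀ (h.node k₀ j hk₀)
  simpa [j6268_vcol] using h1

lemma j6268_ssum (j : ℕ) (q : ℤ) : ∑ l ∈ Finset.range j, (starRingEnd ℂ) (a k₀ l) * j6268_vcol a k₀ l q =
    if (2:ℤ) ^ j ∣ q - k₀ then ss a k₀ q j else 0 := by
  by_cases hq : (2:ℤ) ^ j ∣ q - k₀
  · rw [if_pos hq]
    unfold ss
    refine Finset.sum_congr rfl fun l hl => ?_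
    have hlj : l ≤ j := (Finset.mem_range.1 hl).le
    rw [j6268_vcol, if_pos ((pow_dvd_pow 2 hlj).trans hq)]
  · rw [if_neg hq]
    -- the maximal exponent
    have hex : ∃ i, i < j ∧ (2:ℤ) ^ i ∣ q - k₀ ∧ ¬ (2:ℤ) ^ (i + 1) ∣ q - k₀ := by
      classical
      have hn : ∃ n, ¬ (2:ℤ) ^ n ∣ q - k₀ := ⟨j, hq⟩
      have h1 := Nat.find_spec hn
      have h2 : Nat.find hn ≤ j := Nat.find_min' hn hq
      have h3 : Nat.find hn ≠ 0 := by
        intro h0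
        rw [h0] at h1
        simp at h1
      refine ⟨Nat.find hn - 1, by omega, ?_, ?_⟩
      · exact not_not.1 (Nat.find_min hn (by omega))
      · have : Nat.find hn - 1 + 1 = Nat.find hn := by omega
        rw [this]; exact h1
    obtain ⟨i, hij, hi, hi'⟩ := hex
    rw [← rowOrth h k₀ q i hi hi']
    unfold ss
    rw [← Finset.sum_subset (Finset.range_mono (show i + 1 ≤ j by omega))]
    · refine Finset.sum_congr rfl fun l hl => ?_
      have hlj : l ≤ i := by have := Finset.mem_range.1 hl; omega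
      rw [j6268_vcol, if_pos ((pow_dvd_pow 2 hlj).trans hi)]
    · intro l _ hl
      have hlj : i + 1 ≤ l := by
        by_contra hcon
        exact hl (Finset.mem_range.2 (by omega))
      rw [j6268_vcol, if_neg (fun hd => hi' ((pow_dvd_pow 2 hlj).trans hd)), mul_zero]


lemma j6268_s_norm (m : ℕ) : ∑' q : ℤ, ENNReal.ofReal (‖if (2:ℤ) ^ m ∣ q - k₀ then ss a k₀ q m else 0‖ ^ 2)
    = ENNReal.ofReal (sg a k₀ m) := by
  classical
  let V : ℕ → lp (fun _ : ℤ => ℂ) 2 := fun j =>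
    ⟨j6268_vcol a k₀ j, j6268_memlp_of _ (by rw [j6268_vcol_norm h k₀ hk₀]; simp)⟩
  let b : ℕ → ℂ := fun j => a k₀ j
  have hV1 : ∀ j, ‖V j‖ = 1 := by
    intro p
    have h3 := j6268_enorm_lp (V p)
    have h4 : ∑' n, ‖V p n‖ₑ ^ 2 = 1 := j6268_vcol_norm h k₀ hk₀ p
    rw [h4, j6268_enorm_sq_ofReal] at h3
    have h5 : ‖V p‖ ^ 2 = 1 := by
      have := congrArg ENNReal.toReal h3
      rwa [ENNReal.toReal_ofReal (by positivity), ENNReal.toReal_one] at this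
    exact (pow_eq_one_iff_of_nonneg (norm_nonneg _) two_ne_zero).1 h5
  have hVlt : ∀ i j, i < j → inner ℂ (V j) (V i) = 0 := by
    intro i j hij
    rw [lp.inner_eq_tsum]
    have e : ∀ q : ℤ, inner ℂ (V j q) (V i q) = j6268_vcol a k₀ i q * (starRingEnd ℂ) (j6268_vcol a k₀ j q) := by
      intro q; rw [RCLike.inner_apply]
    simp_rw [e]
    rw [← j6268_tsum_prog _ j k₀ (fun q hq => by simp [j6268_vcol, hq]), ← h.orth i j k₀ hij]
    refine tsum_congr fun m => ?_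
    rw [j6268_vcol, j6268_vcol, if_pos, if_pos]
    · exact ⟨m, by ring⟩
    · exact (pow_dvd_pow 2 hij.le).trans ⟨m, by ring⟩
  have hVV : ∀ i j, inner ℂ (V i) (V j) = if i = j then (1:ℂ) else 0 := by
    intro i j
    rcases lt_trichotomy i j with hij | hij | hij
    · rw [if_neg hij.ne]; exact inner_eq_zero_symm.1 (hVlt i j hij)
    · rw [if_pos hij, hij, inner_self_eq_norm_sq_to_K, hV1]; simp
    · rw [if_neg hij.ne']; exact hVlt j i hij
  let s : ℕ → lp (fun _ : ℤ => ℂ) 2 := fun j =>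
    ∑ l ∈ Finset.range j, (starRingEnd ℂ) (b l) • V l
  have hsq : ∀ j q, s j q = if (2:ℤ) ^ j ∣ q - k₀ then ss a k₀ q j else 0 := by
    intro j q
    rw [← j6268_ssum h k₀ hk₀ j q]
    simp only [s]
    rw [lp.coeFn_sum, Finset.sum_apply]
    refine Finset.sum_congr rfl fun l _ => ?_
    rw [lp.coeFn_smul]; rfl
  have hVs : ∀ l j, inner ℂ (V l) (s j) = if l < j then (starRingEnd ℂ) (b l) else 0 := by
    intro l j
    simp only [s]
    rw [inner_sum]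
    simp_rw [inner_smul_right, hVV]
    simp
  have hss : inner ℂ (s m) (s m) = ((sg a k₀ m : ℝ) : ℂ) := by
    conv_lhs => rw [show s m = ∑ l ∈ Finset.range m, (starRingEnd ℂ) (b l) • V l from rfl]
    rw [sum_inner]
    have e0 : ∀ l ∈ Finset.range m, inner ℂ ((starRingEnd ℂ) (b l) • V l)
        (∑ l ∈ Finset.range m, (starRingEnd ℂ) (b l) • V l) = ((‖a k₀ l‖ ^ 2 : ℝ) : ℂ) := by
      intro l hl
      have e1 := hVs l m
      rw [if_pos (Finset.mem_range.1 hl)] at e1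
      rw [inner_smul_left]
      rw [show (inner ℂ (V l) (∑ l ∈ Finset.range m, (starRingEnd ℂ) (b l) • V l) : ℂ)
        = (starRingEnd ℂ) (b l) from e1]
      rw [Complex.conj_conj, Complex.mul_conj, Complex.normSq_eq_norm_sq]
    rw [Finset.sum_congr rfl e0]
    simp only [sg]
    push_cast
    rfl
  have h6 : ‖s m‖ ^ 2 = sg a k₀ m := by
    have h8 := inner_self_eq_norm_sq (𝕜 := ℂ) (s m)
    rw [hss] at h8
    simpa using h8.symm
  have h7 := j6268_enorm_lp (s m)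
  rw [j6268_enorm_sq_ofReal, h6] at h7
  rw [h7]
  refine tsum_congr fun q => ?_
  rw [hsq, j6268_enorm_sq_ofReal]

end

variable {a : ℤ → ℕ → ℂ}

theorem j6268_tele (k₀ k : ℤ) (hne : k ≠ k₀) (θ : ℝ) (h0 : 0 ≤ θ) (h1 : θ ≤ 1) (n : ℕ)
    (hd : ∀ j < n, (2:ℤ) ^ j ∣ k - k₀) :
    ∑ j ∈ Finset.range n, ‖mv θ k₀ a k j‖ ^ 2 = ∑ j ∈ Finset.range n, ‖a k j‖ ^ 2 -
        θ * ‖ss a k₀ k n‖ ^ 2 / (1 - θ + θ * sg a k₀ n) := by
  induction n with
  | zero => simp [ss]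
  | succ n ih =>
    rw [Finset.sum_range_succ, Finset.sum_range_succ, ih (fun j hj => hd j (by omega)),
      j6268_wf_step k₀ k hne θ h0 h1 n (hd n (by omega))]
    ring

theorem j6268_tele0 (k₀ : ℤ) (θ : ℝ) (h0 : 0 ≤ θ) (h1 : θ ≤ 1) (n : ℕ) :
    ∑ j ∈ Finset.range n, ‖mv θ k₀ a k₀ j‖ ^ 2 = sg a k₀ n / (1 - θ + θ * sg a k₀ n) := by
  simp only [j6268_wf_step0 k₀ θ h0 h1]
  rw [Finset.sum_range_sub (fun j => sg a k₀ j / (1 - θ + θ * sg a k₀ j))]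
  have : sg a k₀ 0 = 0 := by simp [sg]
  rw [this]; simp

theorem j6268_unch {P : ℤ → Prop} {N : ℕ → ℤ → Prop} (h : Blk P N a) (k₀ k : ℤ) (θ : ℝ) (h0 : 0 ≤ θ)
    (h1 : θ ≤ 1) (m : ℕ) (hq : ¬ (2:ℤ) ^ m ∣ k - k₀) :
    ∑ l ∈ Finset.range m, ‖mv θ k₀ a k l‖ₑ ^ 2 = ∑ l ∈ Finset.range m, ‖a k l‖ₑ ^ 2 := by
  have hex : ∃ i, i < m ∧ (2:ℤ) ^ i ∣ k - k₀ ∧ ¬ (2:ℤ) ^ (i + 1) ∣ k - k₀ := by
    classical
    have hn : ∃ n, ¬ (2:ℤ) ^ n ∣ k - k₀ := ⟨m, hq⟩
    have h1 := Nat.find_spec hn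
    have h2 : Nat.find hn ≤ m := Nat.find_min' hn hq
    have h3 : Nat.find hn ≠ 0 := by
      intro h0
      rw [h0] at h1
      simp at h1
    refine ⟨Nat.find hn - 1, by omega, ?_, ?_⟩
    · exact not_not.1 (Nat.find_min hn (by omega))
    · have : Nat.find hn - 1 + 1 = Nat.find hn := by omega
      rw [this]; exact h1
  rcases hex with ⟨i, hij, hi, hi'⟩
  have hne : k ≠ k₀ := by
    rintro rfl
    exact hi' (by simp)
  have hsum1 : ∑ j ∈ Finset.range (i + 1), ‖mv θ k₀ a k j‖ₑ ^ 2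
      = ∑ j ∈ Finset.range (i + 1), ‖a k j‖ₑ ^ 2 := by
    rw [j6268_wf_enorm_sum, j6268_wf_enorm_sum, j6268_tele k₀ k hne θ h0 h1 (i + 1)
      (fun j hj => (pow_dvd_pow 2 (by omega)).trans hi), rowOrth h k₀ k i hi hi']
    simp
  have e : ∃ d, m = (i + 1) + d := ⟨m - (i + 1), by omega⟩
  rcases e with ⟨d, rfl⟩
  rw [Finset.sum_range_add _ (i + 1) d, Finset.sum_range_add _ (i + 1) d, hsum1]
  congr 1
  refine Finset.sum_congr rfl fun j _ => ?_
  rw [mv, if_neg]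
  intro hd
  exact hi' ((pow_dvd_pow 2 (by omega)).trans hd)

/-- the real identity at the row `k₀` -/
theorem j6268_alg0 (θ S : ℝ) (h0 : 0 ≤ θ) (h1 : θ ≤ 1) (hS : 0 ≤ S) :
    S / (1 - θ + θ * S) + θ / (1 - θ + θ * S) * S ^ 2 = S + θ / (1 - θ + θ * S) * S := by
  by_cases hA : 1 - θ + θ * S = 0
  · have h2 : 0 ≤ θ * S := mul_nonneg h0 hS
    have h3 : θ = 1 := by linarith
    have h4 : S = 0 := by
      rw [h3] at hA
      linarith
    rw [h4]; simp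
  · generalize hAd : 1 - θ + θ * S = A at hA ⊢
    have e1 : S / A + θ / A * S ^ 2 = (S + θ * S ^ 2) / A := by ring
    have e2 : S + θ / A * S = (S * A + θ * S) / A := by
      rw [add_div, mul_div_cancel_right₀ _ hA]
      ring
    rw [e1, e2, ← hAd]
    congr 1
    ring

/-- the flow keeps the dimension of every node -/
theorem mv_dims {P : ℤ → Prop} {N : ℕ → ℤ → Prop} {a : ℤ → ℕ → ℂ} (h : Blk P N a) (k₀ : ℤ) (θ : ℝ)
    (h0 : 0 ≤ θ) (h1 : θ ≤ 1) (hk₀ : P k₀) (m : ℕ) (r : ℤ) (hN : N m r) :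
    ∑' q : ℤ, ∑ l ∈ Finset.range m, ‖mv θ k₀ a (r + 2 ^ m * q) l‖ₑ ^ 2 =
      ∑' q : ℤ, ∑ l ∈ Finset.range m, ‖a (r + 2 ^ m * q) l‖ₑ ^ 2 := by
  classical
  by_cases hr : (2:ℤ) ^ m ∣ r - k₀
  · have hdv : ∀ q : ℤ, ¬ (2:ℤ) ^ m ∣ q - r → ¬ (2:ℤ) ^ m ∣ q - k₀ := by
      intro q hq hd
      apply hq
      have e : q - r = (q - k₀) - (r - k₀) := by ring
      rw [e]; exact dvd_sub hd hr
    have hdm : ∀ q : ℤ, (2:ℤ) ^ m ∣ r + 2 ^ m * q - k₀ := by
      intro q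
      have e : r + 2 ^ m * q - k₀ = (r - k₀) + 2 ^ m * q := by ring
      rw [e]; exact dvd_add hr ⟨q, rfl⟩
    have hre : ∀ c : ℤ → ℕ → ℂ, ∑' q : ℤ, ∑ l ∈ Finset.range m, ‖c (r + 2 ^ m * q) l‖ₑ ^ 2
        = ∑' k : ℤ, if (2:ℤ) ^ m ∣ k - k₀ then ∑ l ∈ Finset.range m, ‖c k l‖ₑ ^ 2 else 0 := by
      intro c
      rw [← j6268_tsum_prog (fun k => if (2:ℤ) ^ m ∣ k - k₀ then ∑ l ∈ Finset.range m, ‖c k l‖ₑ ^ 2 else 0)
        m r (fun q hq => if_neg (hdv q hq))]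
      refine tsum_congr fun q => ?_
      rw [if_pos (hdm q)]
    rw [hre, hre]
    set S := sg a k₀ m with hSdef
    have hS : 0 ≤ S := j6268_wf_sg_nonneg a k₀ m
    have hA : 0 ≤ 1 - θ + θ * S := by
      have := mul_nonneg h0 hS
      linarith
    set κ := θ / (1 - θ + θ * S) with hκdef
    have hκ : 0 ≤ κ := div_nonneg h0 hA
    -- the pointwise identity
    have hpt : ∀ k : ℤ, (if (2:ℤ) ^ m ∣ k - k₀ then ∑ l ∈ Finset.range m, ‖mv θ k₀ a k l‖ₑ ^ 2 else 0)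
        + ENNReal.ofReal κ * ENNReal.ofReal (‖if (2:ℤ) ^ m ∣ k - k₀ then ss a k₀ k m else 0‖ ^ 2)
        = (if (2:ℤ) ^ m ∣ k - k₀ then ∑ l ∈ Finset.range m, ‖a k l‖ₑ ^ 2 else 0)
          + (if k = k₀ then ENNReal.ofReal (κ * S) else 0) := by
      intro k
      by_cases hk : k = k₀
      · subst hk
        have hd : (2:ℤ) ^ m ∣ k - k := by simp
        rw [if_pos hd, if_pos hd, if_pos hd, if_pos rfl, j6268_wf_ss_self, Complex.norm_real,
          Real.norm_eq_abs, sq_abs, j6268_wf_enorm_sum, j6268_wf_enorm_sum, j6268_tele0 k θ h0 h1,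
          ← ENNReal.ofReal_mul hκ, ← ENNReal.ofReal_add (div_nonneg hS hA) (by positivity),
          ← ENNReal.ofReal_add (Finset.sum_nonneg fun _ _ => by positivity) (by positivity)]
        congr 1
        exact j6268_alg0 θ S h0 h1 hS
      · rw [if_neg hk, add_zero]
        by_cases hd : (2:ℤ) ^ m ∣ k - k₀
        · rw [if_pos hd, if_pos hd, if_pos hd, j6268_wf_enorm_sum, j6268_wf_enorm_sum, ← ENNReal.ofReal_mul hκ,
            ← ENNReal.ofReal_add (Finset.sum_nonneg fun _ _ => by positivity) (by positivity),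
            j6268_tele k₀ k hk θ h0 h1 m (fun j hj => (pow_dvd_pow 2 hj.le).trans hd)]
          congr 1
          rw [hκdef]
          ring
        · rw [if_neg hd, if_neg hd, if_neg hd]
          simp
    have hsum := congrArg (fun f : ℤ → ℝ≥0∞ => ∑' k : ℤ, f k) (funext hpt)
    beta_reduce at hsum
    rw [ENNReal.tsum_add, ENNReal.tsum_add, ENNReal.tsum_mul_left, j6268_s_norm h k₀ hk₀ m, tsum_ite_eq,
      ENNReal.ofReal_mul hκ] at hsum
    exact (ENNReal.add_left_inj (ENNReal.mul_ne_top ENNReal.ofReal_ne_top ENNReal.ofReal_ne_top)).1 hsum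
  · refine tsum_congr fun q => j6268_unch h k₀ _ θ h0 h1 m ?_
    intro hd
    apply hr
    have e : r - k₀ = (r + 2 ^ m * q - k₀) - 2 ^ m * q := by ring
    rw [e]; exact dvd_sub hd ⟨q, rfl⟩

end Pool.Agent.Helper152.WdFlow
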