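import Pool.Agent.Helper152.WdDefs

set_option autoImplicit false
open MeasureTheory Filter Topology
open scoped ENNReal

namespace Pool.Agent.Helper152.WdSwap

open Pool.Agent.Helper152.Wav
open Pool.Agent.Helper152.Wd
open Pool.Agent.Helper152.Lar (w)






theorem x5_sta01 (P : ℤ → Prop) (lam : ℤ → ℕ) (x : ℤ) (j : ℕ) :
    sta P lam x j = 1 ∨ sta P lam x j = 0 := by
  unfold sta
  split_ifs
  · exact Or.inl rfl
  · exact Or.inr rfl

theorem x5_sta1 {P : ℤ → Prop} {lam : ℤ → ℕ} {x : ℤ} {j : ℕ} (h : P x ∧ lam x = j) :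
    sta P lam x j = 1 := by
  unfold sta
  rw [if_pos h]

theorem x5_sta0 {P : ℤ → Prop} {lam : ℤ → ℕ} {x : ℤ} {j : ℕ} (h : ¬ (P x ∧ lam x = j)) :
    sta P lam x j = 0 := by
  unfold sta
  rw [if_neg h]

theorem x5_sta_ne {P : ℤ → Prop} {lam : ℤ → ℕ} {x : ℤ} {j : ℕ} (h : sta P lam x j ≠ 0) :
    P x ∧ lam x = j := by
  by_contra hcon
  exact h (x5_sta0 hcon)

theorem x5_tsum_ind {α : Type*} (p : α → Prop) [DecidablePred p] :
    ∑' q : α, (if p q then (1 : ℝ≥0∞) else 0) = (({q | p q} : Set α).encard : ℝ≥0∞) := by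
  rw [← ENNReal.tsum_set_one, tsum_subtype ({q | p q} : Set α) (fun _ => (1 : ℝ≥0∞))]
  refine tsum_congr fun q => ?_
  by_cases h : p q
  · rw [if_pos h, Set.indicator_of_mem (show q ∈ {q | p q} from h)]
  · rw [if_neg h, Set.indicator_of_notMem (show q ∉ {q | p q} from h)]

/-- the state of a matching is a block state with the right dimensions -/
theorem sta_blk {P : ℤ → Prop} {N : ℕ → ℤ → Prop} {d : ℕ → ℤ → ℕ} {lam : ℤ → ℕ} (h : Mt P N d lam) :
    Blk P N (sta P lam) ∧ ∀ (j : ℕ) (r : ℤ), N j r →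
      ∑' q : ℤ, ∑ l ∈ Finset.range j, ‖sta P lam (r + 2 ^ j * q) l‖ₑ ^ 2 = (d j r : ℝ≥0∞) := by
  classical
  refine ⟨⟨?_, h.node, h.per, ?_, ?_, ?_⟩, ?_⟩
  · intro k j hk
    exact x5_sta0 fun h => hk h.1
  · intro k hk
    rw [tsum_eq_single (lam k)]
    · rw [x5_sta1 ⟨hk, rfl⟩]
      simp
    · intro j hj
      rw [x5_sta0 fun h => hj h.2.symm]
      simp
  · intro j r hN
    obtain ⟨k, ⟨⟨m0, hm0⟩, hPk, hlk⟩, huniq⟩ := h.uniq j r hN
    have hk : r + 2 ^ j * m0 = k := by linarith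
    rw [tsum_eq_single m0]
    · rw [hk, x5_sta1 ⟨hPk, hlk⟩]
      simp
    · intro m hm
      rw [x5_sta0]
      · simp
      · rintro ⟨h1, h2⟩
        have h3 := huniq (r + 2 ^ j * m) ⟨⟨m, by ring⟩, h1, h2⟩
        rw [← hk] at h3
        have h4 : (2 : ℤ) ^ j * m = 2 ^ j * m0 := by linarith
        exact hm (mul_left_cancel₀ (by positivity) h4)
  · intro i j r hij
    have h0 : ∀ m : ℤ, sta P lam (r + 2 ^ j * m) i *
        (starRingEnd ℂ) (sta P lam (r + 2 ^ j * m) j) = 0 := by
      intro m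
      by_cases h1 : P (r + 2 ^ j * m) ∧ lam (r + 2 ^ j * m) = i
      · rw [x5_sta0 (j := j), map_zero, mul_zero]
        rintro ⟨-, h2⟩
        omega
      · rw [x5_sta0 h1, zero_mul]
    simp only [h0, tsum_zero]
  · intro j r hN
    have h1 : ∀ q : ℤ, ∑ l ∈ Finset.range j, ‖sta P lam (r + 2 ^ j * q) l‖ₑ ^ 2 =
        if (P (r + 2 ^ j * q) ∧ lam (r + 2 ^ j * q) < j) then (1 : ℝ≥0∞) else 0 := by
      intro q
      by_cases hq : P (r + 2 ^ j * q) ∧ lam (r + 2 ^ j * q) < j
      · rw [if_pos hq, Finset.sum_eq_single (lam (r + 2 ^ j * q))]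
        · rw [x5_sta1 ⟨hq.1, rfl⟩]
          simp
        · intro l _ hl
          rw [x5_sta0 fun h => hl h.2.symm]
          simp
        · intro hl
          exact absurd (Finset.mem_range.2 hq.2) hl
      · rw [if_neg hq]
        apply Finset.sum_eq_zero
        intro l hl
        rw [x5_sta0]
        · simp
        · rintro ⟨h2, h3⟩
          exact hq ⟨h2, h3 ▸ Finset.mem_range.1 hl⟩
    simp only [h1]
    rw [x5_tsum_ind (fun q : ℤ => P (r + 2 ^ j * q) ∧ lam (r + 2 ^ j * q) < j)]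
    have h2 : {k : ℤ | (2:ℤ) ^ j ∣ k - r ∧ P k ∧ lam k < j} = (fun q : ℤ => r + 2 ^ j * q) ''
        {q : ℤ | P (r + 2 ^ j * q) ∧ lam (r + 2 ^ j * q) < j} := by
      ext k
      constructor
      · rintro ⟨⟨q, hq⟩, h3⟩
        have e : r + 2 ^ j * q = k := by linarith
        refine ⟨q, ?_, e⟩
        show P (r + 2 ^ j * q) ∧ lam (r + 2 ^ j * q) < j
        rw [e]
        exact h3
      · rintro ⟨q, hq, rfl⟩
        exact ⟨⟨q, by ring⟩, hq⟩
    have hinj : Function.Injective (fun q : ℤ => r + 2 ^ j * q) := by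
      intro a b hab
      have h4 : (2 : ℤ) ^ j * a = 2 ^ j * b := by
        simp only at hab
        linarith
      exact mul_left_cancel₀ (by positivity) h4
    have h3 := h.cnt j r hN
    rw [h2, hinj.encard_image] at h3
    rw [h3]
    rfl

theorem x5_swp (lam : ℤ → ℕ) (k t x : ℤ) : swp lam k t x = lam (Equiv.swap k t x) := by
  unfold swp
  by_cases h1 : x = k
  · rw [if_pos h1, h1, Equiv.swap_apply_left]
  · rw [if_neg h1]
    by_cases h2 : x = t
    · rw [if_pos h2, h2, Equiv.swap_apply_right]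
    · rw [if_neg h2, Equiv.swap_apply_of_ne_of_ne h1 h2]

theorem x5_P {P : ℤ → Prop} {k t : ℤ} (hk : P k) (ht : P t) (x : ℤ) :
    P (Equiv.swap k t x) ↔ P x := by
  by_cases h1 : x = k
  · rw [h1, Equiv.swap_apply_left]
    exact ⟨fun _ => hk, fun _ => ht⟩
  · by_cases h2 : x = t
    · rw [h2, Equiv.swap_apply_right]
      exact ⟨fun _ => ht, fun _ => hk⟩
    · rw [Equiv.swap_apply_of_ne_of_ne h1 h2]

theorem x5_cls {k t : ℤ} {j : ℕ} (h : (2 : ℤ) ^ j ∣ t - k) (r x : ℤ) :
    (2 : ℤ) ^ j ∣ Equiv.swap k t x - r ↔ (2 : ℤ) ^ j ∣ x - r := by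
  by_cases h1 : x = k
  · rw [h1, Equiv.swap_apply_left]
    have e : t - r = (t - k) + (k - r) := by ring
    rw [e]
    exact (dvd_add_right h)
  · by_cases h2 : x = t
    · rw [h2, Equiv.swap_apply_right]
      have e : t - r = (t - k) + (k - r) := by ring
      rw [e]
      exact (dvd_add_right h).symm
    · rw [Equiv.swap_apply_of_ne_of_ne h1 h2]

/-- the exchange gives a matching -/
theorem x5_swp_mt {P : ℤ → Prop} {N : ℕ → ℤ → Prop} {d : ℕ → ℤ → ℕ} {lam : ℤ → ℕ}
    (h : Mt P N d lam)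
    (k t : ℤ) (hk : P k) (ht : P t) (h1 : (2:ℤ) ^ (lam k) ∣ t - k) (h2 : (2:ℤ) ^ (lam t) ∣ t - k) :
    Mt P N d (swp lam k t) := by
  refine ⟨h.node, h.per, ?_, ?_⟩
  · intro j r hN
    obtain ⟨y, ⟨hy1, hy2, hy3⟩, huniq⟩ := h.uniq j r hN
    simp only [x5_swp]
    by_cases hj : j = lam k ∨ j = lam t
    · have hdiv : (2 : ℤ) ^ j ∣ t - k := by
        rcases hj with hj | hj
        · rw [hj]; exact h1
        · rw [hj]; exact h2
      refine ⟨Equiv.swap k t y, ⟨(x5_cls hdiv r y).2 hy1, (x5_P hk ht y).2 hy2, ?_⟩, ?_⟩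
      · rw [Equiv.swap_apply_self]
        exact hy3
      · rintro x ⟨hx1, hx2, hx3⟩
        have h3 := huniq (Equiv.swap k t x) ⟨(x5_cls hdiv r x).2 hx1, (x5_P hk ht x).2 hx2, hx3⟩
        rw [← h3, Equiv.swap_apply_self]
    · push Not at hj
      have hsame : ∀ x : ℤ, lam (Equiv.swap k t x) = j ↔ lam x = j := by
        intro x
        by_cases e1 : x = k
        · rw [e1, Equiv.swap_apply_left]
          exact ⟨fun h => absurd h.symm hj.2, fun h => absurd h.symm hj.1⟩
        · by_cases e2 : x = t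
          · rw [e2, Equiv.swap_apply_right]
            exact ⟨fun h => absurd h.symm hj.1, fun h => absurd h.symm hj.2⟩
          · rw [Equiv.swap_apply_of_ne_of_ne e1 e2]
      simp only [hsame]
      exact h.uniq j r hN
  · intro j r hN
    rw [← h.cnt j r hN]
    simp only [x5_swp]
    by_cases hdiv : (2 : ℤ) ^ j ∣ t - k
    · have e : {x : ℤ | (2:ℤ) ^ j ∣ x - r ∧ P x ∧ lam (Equiv.swap k t x) < j} =
          (Equiv.swap k t) '' {x : ℤ | (2:ℤ) ^ j ∣ x - r ∧ P x ∧ lam x < j} := by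
        ext x
        constructor
        · rintro ⟨a1, a2, a3⟩
          refine ⟨Equiv.swap k t x, ⟨(x5_cls hdiv r x).2 a1, (x5_P hk ht x).2 a2, a3⟩, ?_⟩
          exact Equiv.swap_apply_self ..
        · rintro ⟨y, ⟨a1, a2, a3⟩, rfl⟩
          refine ⟨(x5_cls hdiv r y).2 a1, (x5_P hk ht y).2 a2, ?_⟩
          rw [Equiv.swap_apply_self]
          exact a3
      rw [e, (Equiv.injective _).encard_image]
    · have hlk : lam k < j := by
        by_contra hcon
        exact hdiv ((pow_dvd_pow 2 (not_lt.1 hcon)).trans h1)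
      have hlt : lam t < j := by
        by_contra hcon
        exact hdiv ((pow_dvd_pow 2 (not_lt.1 hcon)).trans h2)
      have hsame : ∀ x : ℤ, lam (Equiv.swap k t x) < j ↔ lam x < j := by
        intro x
        by_cases e1 : x = k
        · rw [e1, Equiv.swap_apply_left]
          exact ⟨fun _ => hlk, fun _ => hlt⟩
        · by_cases e2 : x = t
          · rw [e2, Equiv.swap_apply_right]
            exact ⟨fun _ => hlt, fun _ => hlk⟩
          · rw [Equiv.swap_apply_of_ne_of_ne e1 e2]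
      simp only [hsame]

theorem x5_cb (θ : ℝ) : ∃ c b : ℂ,
    c = (1 + Complex.exp (((Real.pi * θ : ℝ) : ℂ) * Complex.I)) / 2 ∧
    b = (1 - Complex.exp (((Real.pi * θ : ℝ) : ℂ) * Complex.I)) / 2 ∧
    c + b = 1 ∧ c * (starRingEnd ℂ) b + b * (starRingEnd ℂ) c = 0 ∧
    ‖c‖ₑ ^ 2 + ‖b‖ₑ ^ 2 = 1 := by
  obtain ⟨z, hz⟩ : ∃ z : ℂ, z = Complex.exp (((Real.pi * θ : ℝ) : ℂ) * Complex.I) := ⟨_, rfl⟩
  have hn : ‖z‖ = 1 := by rw [hz]; exact Complex.norm_exp_ofReal_mul_I _
  have hzz : z * (starRingEnd ℂ) z = 1 := by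
    rw [Complex.mul_conj, Complex.normSq_eq_norm_sq, hn]
    norm_num
  rw [← hz]
  refine ⟨_, _, rfl, rfl, by ring, ?_, ?_⟩
  · simp only [map_div₀, map_add, map_sub, map_one, map_ofNat]
    linear_combination (-1 / 2 : ℂ) * hzz
  · have h1 : ‖(1 + z) / 2‖ ^ 2 + ‖(1 - z) / 2‖ ^ 2 = 1 := by
      have h2 : (((‖(1 + z) / 2‖ ^ 2 + ‖(1 - z) / 2‖ ^ 2 : ℝ)) : ℂ) = 1 := by
        push_cast
        rw [← Complex.mul_conj', ← Complex.mul_conj']
        simp only [map_div₀, map_add, map_sub, map_one, map_ofNat]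
        linear_combination (1 / 2 : ℂ) * hzz
      exact_mod_cast h2
    rw [← ofReal_norm, ← ofReal_norm, ← ENNReal.ofReal_pow (norm_nonneg _),
      ← ENNReal.ofReal_pow (norm_nonneg _), ← ENNReal.ofReal_add (by positivity) (by positivity),
      h1, ENNReal.ofReal_one]

/-- the interpolation between a matching and the exchanged one stays in the block states -/
theorem rot_blk {P : ℤ → Prop} {N : ℕ → ℤ → Prop} {d : ℕ → ℤ → ℕ} {lam : ℤ → ℕ} (h : Mt P N d lam)
    (k t : ℤ) (hk : P k) (ht : P t) (h1 : (2:ℤ) ^ (lam k) ∣ t - k) (h2 : (2:ℤ) ^ (lam t) ∣ t - k) (θ : ℝ) :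
    Blk P N (rot P lam (swp lam k t) θ) ∧ ∀ (j : ℕ) (r : ℤ), N j r →
      ∑' q : ℤ, ∑ l ∈ Finset.range j, ‖rot P lam (swp lam k t) θ (r + 2 ^ j * q) l‖ₑ ^ 2 = (d j r : ℝ≥0∞) := by
  obtain ⟨c, b, hc, hb, hcb, hort, hnorm⟩ := x5_cb θ
  obtain ⟨hA, hAd⟩ := sta_blk h
  obtain ⟨hB, hBd⟩ := sta_blk (x5_swp_mt h k t hk ht h1 h2)
  obtain ⟨lam', hlam'⟩ : ∃ l, l = swp lam k t := ⟨_, rfl⟩
  rw [← hlam'] at hB hBd ⊢
  have hrot : ∀ x j, rot P lam lam' θ x j = c * sta P lam x j + b * sta P lam' x j := by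
    intro x j
    unfold rot
    rw [hc, hb]
  have hkey : ∀ x j, ‖rot P lam lam' θ x j‖ₑ ^ 2 =
      ‖c‖ₑ ^ 2 * ‖sta P lam x j‖ₑ ^ 2 + ‖b‖ₑ ^ 2 * ‖sta P lam' x j‖ₑ ^ 2 := by
    intro x j
    rw [hrot]
    rcases x5_sta01 P lam x j with e1 | e1 <;> rcases x5_sta01 P lam' x j with e2 | e2 <;>
      rw [e1, e2]
    · rw [mul_one, mul_one, hcb]
      simp only [enorm_one, one_pow, mul_one]
      exact hnorm.symm
    · simp
    · simp
    · simp
  refine ⟨⟨?_, h.node, h.per, ?_, ?_, ?_⟩, ?_⟩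
  · intro x j hx
    rw [hrot, hA.zero x j hx, hB.zero x j hx, mul_zero, mul_zero, add_zero]
  · intro x hx
    simp only [hkey]
    rw [ENNReal.tsum_add, ENNReal.tsum_mul_left, ENNReal.tsum_mul_left, hA.row x hx, hB.row x hx,
      mul_one, mul_one, hnorm]
  · intro j r hN
    simp only [hkey]
    rw [ENNReal.tsum_add, ENNReal.tsum_mul_left, ENNReal.tsum_mul_left, hA.col j r hN,
      hB.col j r hN, mul_one, mul_one, hnorm]
  · intro i j r hij
    have hS' : ∀ x l, sta P lam' x l = sta P lam (Equiv.swap k t x) l := by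
      intro x l
      have e0 : lam' x = lam (Equiv.swap k t x) := by rw [hlam', x5_swp]
      by_cases hh : P x ∧ lam' x = l
      · rw [x5_sta1 hh, x5_sta1 ⟨(x5_P hk ht x).2 hh.1, e0 ▸ hh.2⟩]
      · rw [x5_sta0 hh, x5_sta0]
        rintro ⟨h3, h4⟩
        exact hh ⟨(x5_P hk ht x).1 h3, e0.trans h4⟩
    have hcs : ∀ x l, (starRingEnd ℂ) (sta P lam x l) = sta P lam x l := by
      intro x l
      rcases x5_sta01 P lam x l with e | e <;> rw [e] <;> simp
    have hterm : ∀ x : ℤ, rot P lam lam' θ x i * (starRingEnd ℂ) (rot P lam lam' θ x j) =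
        c * (starRingEnd ℂ) b * (sta P lam x i * sta P lam (Equiv.swap k t x) j) +
        b * (starRingEnd ℂ) c * (sta P lam (Equiv.swap k t x) i * sta P lam x j) := by
      intro x
      rw [hrot, hrot, map_add, map_mul, map_mul, hS', hS', hcs, hcs]
      have e1 : sta P lam x i * sta P lam x j = 0 := by
        by_cases h3 : sta P lam x i = 0
        · rw [h3, zero_mul]
        · rw [x5_sta0 (j := j), mul_zero]
          rintro ⟨-, h4⟩
          have := (x5_sta_ne h3).2
          omega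
      have e2 : sta P lam (Equiv.swap k t x) i * sta P lam (Equiv.swap k t x) j = 0 := by
        by_cases h3 : sta P lam (Equiv.swap k t x) i = 0
        · rw [h3, zero_mul]
        · rw [x5_sta0 (j := j), mul_zero]
          rintro ⟨-, h4⟩
          have := (x5_sta_ne h3).2
          omega
      linear_combination (c * (starRingEnd ℂ) c) * e1 + (b * (starRingEnd ℂ) b) * e2
    simp only [hterm]
    by_cases hu : ∀ x, sta P lam x i * sta P lam (Equiv.swap k t x) j = 0
    · have hz : ∀ m : ℤ, c * (starRingEnd ℂ) b * (sta P lam (r + 2 ^ j * m) i *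
          sta P lam (Equiv.swap k t (r + 2 ^ j * m)) j) +
          b * (starRingEnd ℂ) c * (sta P lam (Equiv.swap k t (r + 2 ^ j * m)) i *
          sta P lam (r + 2 ^ j * m) j) = 0 := by
        intro m
        have h3 := hu (Equiv.swap k t (r + 2 ^ j * m))
        rw [Equiv.swap_apply_self] at h3
        rw [hu, h3, mul_zero, mul_zero, add_zero]
      simp only [hz, tsum_zero]
    · push Not at hu
      obtain ⟨x0, hx0⟩ := hu
      have a1 := x5_sta_ne (left_ne_zero_of_mul hx0)
      have a2 := x5_sta_ne (right_ne_zero_of_mul hx0)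
      have hne : Equiv.swap k t x0 ≠ x0 := by
        intro h3
        rw [h3] at a2
        omega
      have hx0kt : x0 = k ∨ x0 = t := by
        by_contra hcon
        push Not at hcon
        exact hne (Equiv.swap_apply_of_ne_of_ne hcon.1 hcon.2)
      obtain ⟨y0, hy0⟩ : ∃ y0, y0 = Equiv.swap k t x0 := ⟨_, rfl⟩
      have hsy : Equiv.swap k t y0 = x0 := by rw [hy0, Equiv.swap_apply_self]
      rw [← hy0] at a2 hne
      have hdiv : (2 : ℤ) ^ j ∣ t - k := by
        rcases hx0kt with h3 | h3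
        · have : y0 = t := by rw [hy0, h3, Equiv.swap_apply_left]
          rw [← a2.2, this]
          exact h2
        · have : y0 = k := by rw [hy0, h3, Equiv.swap_apply_right]
          rw [← a2.2, this]
          exact h1
      have hswap : ∀ x, x ≠ x0 → x ≠ y0 → Equiv.swap k t x = x := by
        intro x n1 n2
        rcases hx0kt with h3 | h3
        · have h4 : y0 = t := by rw [hy0, h3, Equiv.swap_apply_left]
          exact Equiv.swap_apply_of_ne_of_ne (h3 ▸ n1) (h4 ▸ n2)
        · have h4 : y0 = k := by rw [hy0, h3, Equiv.swap_apply_right]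
          exact Equiv.swap_apply_of_ne_of_ne (h4 ▸ n2) (h3 ▸ n1)
      -- the two products
      have hu1 : ∀ x, x ≠ x0 → sta P lam x i * sta P lam (Equiv.swap k t x) j = 0 := by
        intro x hx
        by_contra hcon
        have b1 := x5_sta_ne (left_ne_zero_of_mul hcon)
        have b2 := x5_sta_ne (right_ne_zero_of_mul hcon)
        by_cases hxy : x = y0
        · rw [hxy] at b1
          omega
        · rw [hswap x hx hxy] at b2
          omega
      have hu2 : sta P lam x0 i * sta P lam (Equiv.swap k t x0) j = 1 := by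
        rw [x5_sta1 a1, ← hy0, x5_sta1 a2, mul_one]
      have hv1 : ∀ x, x ≠ y0 → sta P lam (Equiv.swap k t x) i * sta P lam x j = 0 := by
        intro x hx
        have h3 : Equiv.swap k t x ≠ x0 := by
          intro h4
          apply hx
          rw [hy0, ← h4, Equiv.swap_apply_self]
        have h5 := hu1 _ h3
        rwa [Equiv.swap_apply_self] at h5
      have hv2 : sta P lam (Equiv.swap k t y0) i * sta P lam y0 j = 1 := by
        rw [hsy, x5_sta1 a1, x5_sta1 a2, mul_one]
      by_cases hcl : (2 : ℤ) ^ j ∣ x0 - r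
      · have hcl' : (2 : ℤ) ^ j ∣ y0 - r := by
          rw [hy0]
          exact (x5_cls hdiv r x0).2 hcl
        obtain ⟨m0, hm0⟩ := hcl
        obtain ⟨m1, hm1⟩ := hcl'
        have e0 : r + 2 ^ j * m0 = x0 := by linarith
        have e1 : r + 2 ^ j * m1 = y0 := by linarith
        have hm01 : m0 ≠ m1 := by
          intro h3
          apply hne
          rw [← e0, ← e1, h3]
        have hinj : ∀ m m' : ℤ, r + 2 ^ j * m = r + 2 ^ j * m' → m = m' := by
          intro m m' hmm
          have h4 : (2 : ℤ) ^ j * m = 2 ^ j * m' := by linarith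
          exact mul_left_cancel₀ (by positivity) h4
        rw [tsum_eq_sum (s := {m0, m1})]
        · rw [Finset.sum_pair hm01, e0, e1, hu2, hv1 x0 hne.symm, hu1 y0 hne, hv2]
          linear_combination hort
        · intro m hm
          simp only [Finset.mem_insert, Finset.mem_singleton, not_or] at hm
          have n0 : r + 2 ^ j * m ≠ x0 := by
            intro h3
            rw [← e0] at h3
            exact hm.1 (hinj _ _ h3)
          have n1 : r + 2 ^ j * m ≠ y0 := by
            intro h3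
            rw [← e1] at h3
            exact hm.2 (hinj _ _ h3)
          rw [hu1 _ n0, hv1 _ n1, mul_zero, mul_zero, add_zero]
      · have hcl' : ¬ (2 : ℤ) ^ j ∣ y0 - r := by
          rw [hy0]
          intro h3
          exact hcl ((x5_cls hdiv r x0).1 h3)
        have hz : ∀ m : ℤ, c * (starRingEnd ℂ) b * (sta P lam (r + 2 ^ j * m) i *
            sta P lam (Equiv.swap k t (r + 2 ^ j * m)) j) +
            b * (starRingEnd ℂ) c * (sta P lam (Equiv.swap k t (r + 2 ^ j * m)) i *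
            sta P lam (r + 2 ^ j * m) j) = 0 := by
          intro m
          have n0 : r + 2 ^ j * m ≠ x0 := by
            intro h3
            apply hcl
            rw [← h3]
            exact ⟨m, by ring⟩
          have n1 : r + 2 ^ j * m ≠ y0 := by
            intro h3
            apply hcl'
            rw [← h3]
            exact ⟨m, by ring⟩
          rw [hu1 _ n0, hv1 _ n1, mul_zero, mul_zero, add_zero]
        simp only [hz, tsum_zero]
  · intro j r hN
    simp only [hkey]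
    simp only [Finset.sum_add_distrib, ← Finset.mul_sum]
    rw [ENNReal.tsum_add, ENNReal.tsum_mul_left, ENNReal.tsum_mul_left, hAd j r hN, hBd j r hN,
      ← add_mul, hnorm, one_mul]

/-- the exchange gives a matching -/
theorem swp_mt {P : ℤ → Prop} {N : ℕ → ℤ → Prop} {d : ℕ → ℤ → ℕ} {lam : ℤ → ℕ} (h : Mt P N d lam)
    (k t : ℤ) (hk : P k) (ht : P t) (h1 : (2:ℤ) ^ (lam k) ∣ t - k) (h2 : (2:ℤ) ^ (lam t) ∣ t - k) :
    Mt P N d (swp lam k t) := x5_swp_mt h k t hk ht h1 h2

end Pool.Agent.Helper152.WdSwap
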