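import Pool.Agent.Helper152.WdDefs
import Pool.Agent.Helper152.WdSwap

set_option autoImplicit false
open MeasureTheory Filter Topology
open scoped ENNReal

namespace Pool.Agent.Helper152.WdSeq

open Pool.Agent.Helper152.Wav
open Pool.Agent.Helper152.Wd
open Pool.Agent.Helper152.Lar (w)
open Pool.Agent.Helper152.WdSwap (swp_mt)






theorem sq_succ_pos {P : ℤ → Prop} {e : ℕ → ℤ} {mu lam : ℤ → ℕ} {s : ℕ}
    (h : cnd P e (sq P e mu lam s) mu (Nat.unpair (Nat.unpair s).1).1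
      (Nat.unpair (Nat.unpair s).1).2) :
    sq P e mu lam (s + 1) = swp (sq P e mu lam s) (e (Nat.unpair (Nat.unpair s).1).1)
      (e (Nat.unpair (Nat.unpair s).1).2) := by
  rw [Wd.sq, if_pos h]

theorem sq_succ_neg {P : ℤ → Prop} {e : ℕ → ℤ} {mu lam : ℤ → ℕ} {s : ℕ}
    (h : ¬ cnd P e (sq P e mu lam s) mu (Nat.unpair (Nat.unpair s).1).1
      (Nat.unpair (Nat.unpair s).1).2) :
    sq P e mu lam (s + 1) = sq P e mu lam s := by
  rw [Wd.sq, if_neg h]

theorem cnd_mt {P : ℤ → Prop} {N : ℕ → ℤ → Prop} {d : ℕ → ℤ → ℕ} {L mu : ℤ → ℕ} {e : ℕ → ℤ}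
    (hL : Mt P N d L) {n m : ℕ} (h : cnd P e L mu n m) : Mt P N d (swp L (e n) (e m)) := by
  obtain ⟨hk, ht, _, _, hc⟩ := h
  rcases hc with ⟨h1, h2, h3⟩ | ⟨h1, h2, h3⟩
  · exact swp_mt hL _ _ hk ht h2 ((pow_dvd_pow 2 h3.le).trans h2)
  · exact swp_mt hL _ _ hk ht ((pow_dvd_pow 2 h1.le).trans h2) (by rw [h3]; exact h2)

theorem sq_mt {P : ℤ → Prop} {N : ℕ → ℤ → Prop} {d : ℕ → ℤ → ℕ} {lam mu : ℤ → ℕ} (e : ℕ → ℤ)
    (h1 : Mt P N d lam) : ∀ s, Mt P N d (sq P e mu lam s) := by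
  intro s
  induction s with
  | zero =>
    rw [Wd.sq]
    exact h1
  | succ s ih =>
    by_cases h : cnd P e (sq P e mu lam s) mu (Nat.unpair (Nat.unpair s).1).1
      (Nat.unpair (Nat.unpair s).1).2
    · rw [sq_succ_pos h]
      exact cnd_mt ih h
    · rw [sq_succ_neg h]
      exact ih

theorem partner {P : ℤ → Prop} {N : ℕ → ℤ → Prop} {d : ℕ → ℤ → ℕ} {L mu : ℤ → ℕ} {e : ℕ → ℤ}
    (he : Function.Bijective e) (hL : Mt P N d L) (hmu : Mt P N d mu) {n : ℕ} (hPn : P (e n))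
    (hne : L (e n) ≠ mu (e n)) (hlt : ∀ i < n, P (e i) → L (e i) = mu (e i)) :
    ∃ m, cnd P e L mu n m := by
  rcases lt_or_gt_of_ne hne with hcase | hcase
  · -- the level must go up
    have hN : N (mu (e n)) (e n) := hL.node (e n) _ hPn
    obtain ⟨t, ⟨ht1, ht2, ht3⟩, _⟩ := hL.uniq (mu (e n)) (e n) hN
    obtain ⟨m, hm⟩ := he.2 t
    have htk : t ≠ e n := by
      rintro rfl
      exact hne ht3
    refine ⟨m, hPn, by rw [hm]; exact ht2, ?_, hlt, Or.inr ⟨hcase, by rw [hm]; exact ht1,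
      by rw [hm]; exact ht3⟩⟩
    by_contra hmn
    push Not at hmn
    rcases hmn.lt_or_eq with hmn | hmn
    · have h1 : mu t = mu (e n) := by
        have := hlt m hmn (by rw [hm]; exact ht2)
        rw [hm] at this
        rw [← this]
        exact ht3
      obtain ⟨r, _, hr⟩ := hmu.uniq (mu (e n)) (e n) hN
      have h2 := hr t ⟨ht1, ht2, h1⟩
      have h3 := hr (e n) ⟨by simp, hPn, rfl⟩
      exact htk (h2.trans h3.symm)
    · apply htk
      rw [← hm, hmn]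
  · -- the level must go down
    set j := L (e n) with hj
    have hN : N j (e n) := hL.node (e n) _ hPn
    have hA := hL.cnt j (e n) hN
    have hB := hmu.cnt j (e n) hN
    by_contra hcon
    push Not at hcon
    have hsub : {k : ℤ | (2:ℤ) ^ j ∣ k - e n ∧ P k ∧ L k < j} ⊆
        {k : ℤ | (2:ℤ) ^ j ∣ k - e n ∧ P k ∧ mu k < j} := by
      rintro t ⟨ht1, ht2, ht3⟩
      refine ⟨ht1, ht2, ?_⟩
      obtain ⟨m, hm⟩ := he.2 t
      have hmn : m < n := by
        by_contra hmn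
        push Not at hmn
        rcases hmn.lt_or_eq with hmn | hmn
        · apply hcon m
          exact ⟨hPn, by rw [hm]; exact ht2, hmn, hlt, Or.inl ⟨hcase, by rw [hm]; exact ht1,
            by rw [hm]; exact ht3⟩⟩
        · rw [hmn, hm] at hj
          omega
      have h1 := hlt m hmn (by rw [hm]; exact ht2)
      rw [hm] at h1
      rw [← h1]
      exact ht3
    have hfin : {k : ℤ | (2:ℤ) ^ j ∣ k - e n ∧ P k ∧ L k < j}.Finite := by
      rw [← Set.encard_ne_top_iff, hA]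
      exact ENat.natCast_ne_top _
    have heq := hfin.eq_of_subset_of_encard_le hsub (by rw [hA, hB])
    have hk : e n ∈ {k : ℤ | (2:ℤ) ^ j ∣ k - e n ∧ P k ∧ mu k < j} := ⟨by simp, hPn, hcase⟩
    rw [← heq] at hk
    exact lt_irrefl _ (hj ▸ hk.2.2)

theorem cnd_bad {P : ℤ → Prop} {L mu : ℤ → ℕ} {e : ℕ → ℤ} {n m : ℕ} (h : cnd P e L mu n m) :
    P (e n) ∧ L (e n) ≠ mu (e n) := by
  obtain ⟨hk, _, _, _, hc⟩ := h
  rcases hc with ⟨h1, _, _⟩ | ⟨h1, _, _⟩
  · exact ⟨hk, h1.ne'⟩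
  · exact ⟨hk, h1.ne⟩

theorem swp_fix {L : ℤ → ℕ} {e : ℕ → ℤ} (he : Function.Bijective e) {n m i : ℕ} (hin : i < n)
    (hnm : n < m) : swp L (e n) (e m) (e i) = L (e i) := by
  unfold swp
  rw [if_neg (fun h => by have := he.1 h; omega), if_neg (fun h => by have := he.1 h; omega)]

/-- a real exchange happens if the row `e n` is the first bad one -/
theorem exch {P : ℤ → Prop} {N : ℕ → ℤ → Prop} {d : ℕ → ℤ → ℕ} {lam mu : ℤ → ℕ} {e : ℕ → ℤ}
    (he : Function.Bijective e) (h1 : Mt P N d lam) (h2 : Mt P N d mu) {n s₁ : ℕ}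
    (hPn : P (e n)) (hne : sq P e mu lam s₁ (e n) ≠ mu (e n))
    (hlt : ∀ i < n, P (e i) → sq P e mu lam s₁ (e i) = mu (e i)) :
    ∃ s, s₁ ≤ s ∧ ((sq P e mu lam s₁ (e n) < mu (e n) ∧ sq P e mu lam s (e n) = mu (e n)) ∨
      (mu (e n) < sq P e mu lam s₁ (e n) ∧ sq P e mu lam s (e n) < sq P e mu lam s₁ (e n))) := by
  obtain ⟨m, hm⟩ := partner he (sq_mt e h1 s₁) h2 hPn hne hlt
  have hex : ∃ s, s₁ ≤ s ∧ sq P e mu lam s = sq P e mu lam s₁ ∧
      cnd P e (sq P e mu lam s) mu (Nat.unpair (Nat.unpair s).1).1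
        (Nat.unpair (Nat.unpair s).1).2 := by
    by_contra hcon
    push Not at hcon
    have hall : ∀ s, s₁ ≤ s → sq P e mu lam s = sq P e mu lam s₁ := by
      intro s hs
      induction s, hs using Nat.le_induction with
      | base => rfl
      | succ s hs ih => rw [sq_succ_neg (hcon s hs ih), ih]
    have hs2 : s₁ ≤ Nat.pair (Nat.pair n m) s₁ := Nat.right_le_pair _ _
    apply hcon _ hs2 (hall _ hs2)
    rw [Nat.unpair_pair, Nat.unpair_pair, hall _ hs2]
    exact hm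
  obtain ⟨s, hs, hs2, hc⟩ := hex
  refine ⟨s + 1, by omega, ?_⟩
  rw [sq_succ_pos hc]
  rw [hs2] at hc ⊢
  set n' := (Nat.unpair (Nat.unpair s).1).1
  set m' := (Nat.unpair (Nat.unpair s).1).2
  have hn' : n' = n := by
    rcases lt_trichotomy n' n with h | h | h
    · exact absurd (hlt n' h (cnd_bad hc).1) (cnd_bad hc).2
    · exact h
    · exact absurd (hc.2.2.2.1 n h hPn) hne
  rw [hn'] at hc ⊢
  have hswp : swp (sq P e mu lam s₁) (e n) (e m') (e n) = sq P e mu lam s₁ (e m') := by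
    unfold swp
    rw [if_pos rfl]
  rw [hswp]
  rcases hc.2.2.2.2 with ⟨a1, _, a3⟩ | ⟨a1, _, a3⟩
  · exact Or.inr ⟨a1, a3⟩
  · exact Or.inl ⟨a1, a3⟩

theorem claimC {P : ℤ → Prop} {N : ℕ → ℤ → Prop} {d : ℕ → ℤ → ℕ} {lam mu : ℤ → ℕ} {e : ℕ → ℤ}
    (he : Function.Bijective e) (h1 : Mt P N d lam) (h2 : Mt P N d mu) (n : ℕ) :
    ∃ s₀, ∀ s, s₀ ≤ s → ∀ i < n, P (e i) → sq P e mu lam s (e i) = mu (e i) := by
  induction n with
  | zero => exact ⟨0, fun s _ i hi => absurd hi (Nat.not_lt_zero i)⟩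
  | succ n ih =>
    obtain ⟨s₀, hs₀⟩ := ih
    -- stability of the row `e n`
    have hstab : ∀ s₁, s₀ ≤ s₁ → (P (e n) → sq P e mu lam s₁ (e n) = mu (e n)) →
        ∀ s, s₁ ≤ s → P (e n) → sq P e mu lam s (e n) = mu (e n) := by
      intro s₁ hs₁ hgood s hs
      induction s, hs using Nat.le_induction with
      | base => exact hgood
      | succ s hs ihs =>
        intro hPn
        by_cases h : cnd P e (sq P e mu lam s) mu (Nat.unpair (Nat.unpair s).1).1
          (Nat.unpair (Nat.unpair s).1).2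
        · rw [sq_succ_pos h]
          have hn' : n < (Nat.unpair (Nat.unpair s).1).1 := by
            rcases lt_trichotomy (Nat.unpair (Nat.unpair s).1).1 n with h3 | h3 | h3
            · exact absurd (hs₀ s (hs₁.trans hs) _ h3 (cnd_bad h).1) (cnd_bad h).2
            · have := (cnd_bad h).2
              rw [h3] at this
              exact absurd (ihs hPn) this
            · exact h3
          rw [swp_fix he hn' h.2.2.1]
          exact ihs hPn
        · rw [sq_succ_neg h]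
          exact ihs hPn
    -- the row `e n` becomes good
    have hgood : ∃ s₁, s₀ ≤ s₁ ∧ (P (e n) → sq P e mu lam s₁ (e n) = mu (e n)) := by
      by_cases hPn : P (e n)
      swap
      · exact ⟨s₀, le_rfl, fun h => absurd h hPn⟩
      have key : ∀ v : ℕ, ∀ s₁, s₀ ≤ s₁ → sq P e mu lam s₁ (e n) = v →
          ∃ s, s₀ ≤ s ∧ sq P e mu lam s (e n) = mu (e n) := by
        intro v
        induction v using Nat.strong_induction_on with
        | _ v ihv =>
          intro s₁ hs₁ hv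
          by_cases hne : sq P e mu lam s₁ (e n) = mu (e n)
          · exact ⟨s₁, hs₁, hne⟩
          · obtain ⟨s, hs, hcase⟩ := exch he h1 h2 hPn hne (hs₀ s₁ hs₁)
            rcases hcase with ⟨_, h3⟩ | ⟨_, h3⟩
            · exact ⟨s, hs₁.trans hs, h3⟩
            · exact ihv _ (by rw [← hv]; exact h3) s (hs₁.trans hs) rfl
      obtain ⟨s, hs, hs2⟩ := key _ s₀ le_rfl rfl
      exact ⟨s, hs, fun _ => hs2⟩
    obtain ⟨s₁, hs₁, hs₁g⟩ := hgood
    refine ⟨s₁, fun s hs i hi hPi => ?_⟩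
    rcases Nat.lt_succ_iff_lt_or_eq.1 hi with h | h
    · exact hs₀ s (hs₁.trans hs) i h hPi
    · rw [h] at hPi ⊢
      exact hstab s₁ hs₁ hs₁g s hs hPi

/-- the sequence of exchanges converges to mu -/
theorem sq_conv {P : ℤ → Prop} {N : ℕ → ℤ → Prop} {d : ℕ → ℤ → ℕ} {lam mu : ℤ → ℕ} (e : ℕ → ℤ)
    (he : Function.Bijective e) (h1 : Mt P N d lam) (h2 : Mt P N d mu) :
    (∀ s, Mt P N d (sq P e mu lam s)) ∧
      ∀ k, P k → ∃ s₀ : ℕ, ∀ s, s₀ ≤ s → sq P e mu lam s k = mu k := by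
  refine ⟨sq_mt e h1, ?_⟩
  intro k hk
  obtain ⟨n, rfl⟩ := he.2 k
  obtain ⟨s₀, hs₀⟩ := claimC he h1 h2 (n + 1)
  exact ⟨s₀, fun s hs => hs₀ s hs n (Nat.lt_succ_self n) hk⟩

end Pool.Agent.Helper152.WdSeq
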