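import Pool.Agent.Helper152.WdPath
import Pool.Agent.Helper152.WdSwap
import Pool.Agent.Helper152.WdSeq

set_option autoImplicit false
open MeasureTheory Filter Topology
open scoped ENNReal

namespace Pool.Agent.Helper152.WdJoin

open Pool.Agent.Helper152.Wav
open Pool.Agent.Helper152.Wd
open Pool.Agent.Helper152.Lar (w ae_orbit)
open Pool.Agent.Helper152.WavPath (ee ee_bij)

theorem meas_PP (Z : Set ℝ) (hZ : MeasurableSet Z) (k : ℤ) : MeasurableSet {ξ : ℝ | PP Z ξ k} := by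
  have : {ξ : ℝ | PP Z ξ k} = ⋂ i : ℕ, {ξ : ℝ | 1 ≤ i → (ξ + k) / 2 ^ i ∉ Z} := by
    ext ξ; simp [PP]
  rw [this]
  refine MeasurableSet.iInter fun i => ?_
  by_cases hi : 1 ≤ i
  · simp only [hi, true_implies]
    have hm : Measurable fun ξ : ℝ => (ξ + k) / 2 ^ i := by fun_prop
    exact (hm hZ).compl
  · simp [hi]

theorem meas_cnd (Z : Set ℝ) (hZ : MeasurableSet Z) (L mu : ℝ → ℤ → ℕ) (hL : ∀ k, Measurable fun ξ => L ξ k)
    (hmu : ∀ k, Measurable fun ξ => mu ξ k) (n m : ℕ) :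
    MeasurableSet {ξ : ℝ | cnd (PP Z ξ) ee (L ξ) (mu ξ) n m} := by
  have e : {ξ : ℝ | cnd (PP Z ξ) ee (L ξ) (mu ξ) n m} =
      {ξ | PP Z ξ (ee n)} ∩ ({ξ | PP Z ξ (ee m)} ∩ ({ξ | n < m} ∩
      ((⋂ i : ℕ, {ξ | i < n → PP Z ξ (ee i) → L ξ (ee i) = mu ξ (ee i)}) ∩
        {ξ | ((mu ξ (ee n) < L ξ (ee n) ∧ (2:ℤ) ^ (L ξ (ee n)) ∣ ee m - ee n ∧ L ξ (ee m) < L ξ (ee n)) ∨
   (L ξ (ee n) < mu ξ (ee n) ∧ (2:ℤ) ^ (mu ξ (ee n)) ∣ ee m - ee n ∧ L ξ (ee m) = mu ξ (ee n)))}))) := by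
    ext ξ
    simp only [cnd, Set.mem_ofPred_eq, Set.mem_inter_iff, Set.mem_iInter]
  rw [e]
  refine (meas_PP Z hZ _).inter ((meas_PP Z hZ _).inter ((MeasurableSet.const _).inter
    (MeasurableSet.inter ?_ ?_)))
  · refine MeasurableSet.iInter fun i => ?_
    by_cases hi : i < n
    · simp only [hi, true_implies]
      have : {ξ | PP Z ξ (ee i) → L ξ (ee i) = mu ξ (ee i)} =
          {ξ | PP Z ξ (ee i)}ᶜ ∪ {ξ | L ξ (ee i) = mu ξ (ee i)} := by
        ext ξ; simp only [Set.mem_union, Set.mem_compl_iff, Set.mem_ofPred_eq]; tauto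
      rw [this]
      exact (meas_PP Z hZ _).compl.union (measurableSet_eq_fun (hL _) (hmu _))
    · simp [hi]
  · have hF : Measurable fun ξ => (L ξ (ee n), L ξ (ee m), mu ξ (ee n)) :=
      (hL _).prodMk ((hL _).prodMk (hmu _))
    exact hF (t := {q : ℕ × ℕ × ℕ | ((q.2.2 < q.1 ∧ (2:ℤ) ^ (q.1) ∣ ee m - ee n ∧ q.2.1 < q.1) ∨
      (q.1 < q.2.2 ∧ (2:ℤ) ^ (q.2.2) ∣ ee m - ee n ∧ q.2.1 = q.2.2))}) MeasurableSet.of_discrete

theorem sq_meas (Z : Set ℝ) (hZ : MeasurableSet Z) (mu lam : ℝ → ℤ → ℕ)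
    (hmu : ∀ k, Measurable fun ξ => mu ξ k) (hlam : ∀ k, Measurable fun ξ => lam ξ k) (s : ℕ) (k : ℤ) :
    Measurable fun ξ => Wd.sq (PP Z ξ) ee (mu ξ) (lam ξ) s k := by
  classical
  induction s generalizing k with
  | zero => exact hlam k
  | succ s ih =>
    have e : (fun ξ => Wd.sq (PP Z ξ) ee (mu ξ) (lam ξ) (s + 1) k) = fun ξ =>
        if cnd (PP Z ξ) ee (Wd.sq (PP Z ξ) ee (mu ξ) (lam ξ) s) (mu ξ) (Nat.unpair (Nat.unpair s).1).1
          (Nat.unpair (Nat.unpair s).1).2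
        then swp (Wd.sq (PP Z ξ) ee (mu ξ) (lam ξ) s) (ee (Nat.unpair (Nat.unpair s).1).1)
          (ee (Nat.unpair (Nat.unpair s).1).2) k else Wd.sq (PP Z ξ) ee (mu ξ) (lam ξ) s k := by
      funext ξ
      rw [Wd.sq]
      split_ifs <;> rfl
    rw [e]
    refine Measurable.ite (meas_cnd Z hZ _ mu ih hmu _ _) ?_ (ih k)
    unfold swp
    by_cases h1 : k = ee (Nat.unpair (Nat.unpair s).1).1
    · simp only [h1, if_true]
      exact ih _
    · simp only [h1, if_false]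
      by_cases h2 : k = ee (Nat.unpair (Nat.unpair s).1).2
      · simp only [h2, if_true]
        exact ih _
      · simp only [h2, if_false]
        exact ih _

theorem sta_meas (Z : Set ℝ) (hZ : MeasurableSet Z) (lam : ℝ → ℤ → ℕ)
    (hlam : ∀ k, Measurable fun ξ => lam ξ k) (k : ℤ) (j : ℕ) :
    Measurable fun ξ => sta (PP Z ξ) (lam ξ) k j := by
  classical
  unfold sta
  refine Measurable.ite ?_ measurable_const measurable_const
  exact (meas_PP Z hZ k).inter ((hlam k) (measurableSet_singleton j))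

theorem rot_zero (P : ℤ → Prop) (lam lam' : ℤ → ℕ) : rot P lam lam' 0 = sta P lam := by
  funext k j
  unfold rot
  simp

theorem rot_one (P : ℤ → Prop) (lam lam' : ℤ → ℕ) : rot P lam lam' 1 = sta P lam' := by
  funext k j
  unfold rot
  simp

theorem rot_cont (P : ℤ → Prop) (lam lam' : ℤ → ℕ) (k : ℤ) (j : ℕ) :
    Continuous fun θ => rot P lam lam' θ k j := by
  unfold rot
  fun_prop

theorem rot_eq {P : ℤ → Prop} {lam lam' mu : ℤ → ℕ} {k : ℤ} (h : P k → lam k = mu k ∧ lam' k = mu k)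
    (θ : ℝ) (j : ℕ) : rot P lam lam' θ k j = sta P mu k j := by
  unfold rot sta
  by_cases hP : P k
  · rw [(h hP).1, (h hP).2]
    ring
  · simp [hP]

/-- third path: exchanges -/
theorem path_swap (D : ℝ → ℕ) (hDm : Measurable D) (hDp : ∀ (x : ℝ) (n : ℤ), D (x + n) = D x)
    (H1 : ∀ᵐ x : ℝ, ∃ i : ℕ, (2:ℝ) ^ i * x ∈ ZZ D) (H2 : ∀ᵐ x : ℝ, ∀ᶠ i : ℕ in atTop, x / 2 ^ i ∉ ZZ D)
    (lam mu : ℝ → ℤ → ℕ) (hlam : ∀ k, Measurable fun ξ => lam ξ k) (hmu : ∀ k, Measurable fun ξ => mu ξ k)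
    (h1 : ∀ᵐ ξ : ℝ, ξ ∈ ZZ D → 0 ≤ ξ → ξ < 1 → Mt (PP (ZZ D) ξ) (NN (ZZ D) ξ) (dd D ξ) (lam ξ))
    (h2 : ∀ᵐ ξ : ℝ, ξ ∈ ZZ D → 0 ≤ ξ → ξ < 1 → Mt (PP (ZZ D) ξ) (NN (ZZ D) ξ) (dd D ξ) (mu ξ)) :
    ConnD D (Phi (ZZ D) (fun ξ => sta (PP (ZZ D) ξ) (lam ξ))) (Phi (ZZ D) (fun ξ => sta (PP (ZZ D) ξ) (mu ξ))) := by
  classical
  have hZ : MeasurableSet (ZZ D) := hDm (measurableSet_singleton 0)
  set L : ℕ → ℝ → ℤ → ℕ := fun s ξ => Wd.sq (PP (ZZ D) ξ) ee (mu ξ) (lam ξ) s with hL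
  have hLm : ∀ s k, Measurable fun ξ => L s ξ k := fun s k => sq_meas (ZZ D) hZ mu lam hmu hlam s k
  set A : ℝ → ℝ → ℤ → ℕ → ℂ := fun t ξ =>
    if t < 1 then rot (PP (ZZ D) ξ) (L ⌊t / (1 - t)⌋₊ ξ) (L (⌊t / (1 - t)⌋₊ + 1) ξ) (Int.fract (t / (1 - t)))
    else sta (PP (ZZ D) ξ) (mu ξ) with hA
  have hA0 : A 0 = fun ξ => sta (PP (ZZ D) ξ) (lam ξ) := by
    funext ξ
    simp only [hA, zero_lt_one, if_true, zero_div, Int.fract_zero, Nat.floor_zero, rot_zero]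
    rfl
  have hA1 : A 1 = fun ξ => sta (PP (ZZ D) ξ) (mu ξ) := by
    funext ξ
    simp only [hA, lt_irrefl, if_false]
  rw [← hA0, ← hA1]
  apply WdPath.conn_of_states D hDm hDp H1 H2
  · intro t k j
    by_cases h : t < 1
    · simp only [hA, h, if_true]
      unfold rot
      exact ((sta_meas (ZZ D) hZ _ (hLm _) k j).const_mul _).add
        ((sta_meas (ZZ D) hZ _ (hLm _) k j).const_mul _)
    · simp only [hA, h, if_false]
      exact sta_meas (ZZ D) hZ mu hmu k j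
  · filter_upwards [h1, h2] with ξ m1 m2 z1 z2 z3
    have M1 := m1 z1 z2 z3
    have M2 := m2 z1 z2 z3
    obtain ⟨hs, hconv⟩ := WdSeq.sq_conv ee ee_bij M1 M2
    refine ⟨fun t ht => ?_, fun k j => ?_⟩
    · by_cases h : t < 1
      · simp only [hA, h, if_true]
        set s := ⌊t / (1 - t)⌋₊ with hsdef
        by_cases hc : cnd (PP (ZZ D) ξ) ee (L s ξ) (mu ξ) (Nat.unpair (Nat.unpair s).1).1
          (Nat.unpair (Nat.unpair s).1).2
        · have e : L (s + 1) ξ = swp (L s ξ) (ee (Nat.unpair (Nat.unpair s).1).1)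
              (ee (Nat.unpair (Nat.unpair s).1).2) := WdSeq.sq_succ_pos hc
          rw [e]
          obtain ⟨hk, ht', _, _, hcc⟩ := hc
          rcases hcc with ⟨c1, c2, c3⟩ | ⟨c1, c2, c3⟩
          · exact WdSwap.rot_blk (hs s) _ _ hk ht' c2 ((pow_dvd_pow 2 c3.le).trans c2) _
          · exact WdSwap.rot_blk (hs s) _ _ hk ht' ((pow_dvd_pow 2 c1.le).trans c2)
              (by rw [show Wd.sq (PP (ZZ D) ξ) ee (mu ξ) (lam ξ) s (ee (Nat.unpair (Nat.unpair s).1).2) = _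
                    from c3]; exact c2) _
        · have e : L (s + 1) ξ = L s ξ := WdSeq.sq_succ_neg hc
          rw [e]
          have e2 : rot (PP (ZZ D) ξ) (L s ξ) (L s ξ) (Int.fract (t / (1 - t))) =
              sta (PP (ZZ D) ξ) (L s ξ) := by
            funext k j
            exact rot_eq (fun _ => ⟨rfl, rfl⟩) _ _
          rw [e2]
          exact WdSwap.sta_blk (hs s)
      · simp only [hA, h, if_false]
        exact WdSwap.sta_blk M2
    · obtain ⟨s₀, hs₀⟩ : ∃ s₀ : ℕ, ∀ s, s₀ ≤ s → PP (ZZ D) ξ k → L s ξ k = mu ξ k := by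
        by_cases hP : PP (ZZ D) ξ k
        · obtain ⟨s₀, hs₀⟩ := hconv k hP
          exact ⟨s₀, fun s hs _ => hs₀ s hs⟩
        · exact ⟨0, fun s _ h => absurd h hP⟩
      have hcont := WavMv.glue (fun s θ => rot (PP (ZZ D) ξ) (L s ξ) (L (s + 1) ξ) θ k j)
        (sta (PP (ZZ D) ξ) (mu ξ) k j)
        (fun s => (rot_cont _ _ _ k j).continuousOn)
        (fun s => by
          show rot (PP (ZZ D) ξ) (L s ξ) (L (s + 1) ξ) 1 k j =
            rot (PP (ZZ D) ξ) (L (s + 1) ξ) (L (s + 1 + 1) ξ) 0 k j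
          rw [rot_one, rot_zero]) s₀
        (fun s hs θ _ => rot_eq (fun hP => ⟨hs₀ s hs hP, hs₀ (s + 1) (by omega) hP⟩) θ j)
      have heq : (fun t => A t ξ k j) = fun t : ℝ => if t < 1 then
          rot (PP (ZZ D) ξ) (L ⌊t / (1 - t)⌋₊ ξ) (L (⌊t / (1 - t)⌋₊ + 1) ξ) (Int.fract (t / (1 - t))) k j
          else sta (PP (ZZ D) ξ) (mu ξ) k j := by
        funext t
        by_cases h : t < 1
        · simp only [hA, h, if_true]
        · simp only [hA, h, if_false]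
      rw [heq]
      exact hcont

end Pool.Agent.Helper152.WdJoin
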