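import Pool.Agent.Helper152.WdDefs
import Pool.Agent.Helper152.WdFilt
import Pool.Agent.Helper152.WavMra

set_option autoImplicit false
open MeasureTheory Filter Topology
open scoped ENNReal

namespace Pool.Agent.Helper152.WdMra

open Pool.Agent.Helper152.Wav
open Pool.Agent.Helper152.Wd
open Pool.Agent.Helper152.Lar (w)
open Pool.Agent.Helper152.WavFilt (good_of_filter)
open Pool.Agent.Helper152.WavMod (mod_norm)
open Pool.Agent.Helper152.WavMra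

theorem dim_t (D : ℝ → ℕ) (hD1 : ∀ᵐ x : ℝ, D x = 1)
    {g m h : ℝ → ℂ} (hgm : Measurable g) (hmm : Measurable m) (hhm : Measurable h)
    (mp : ∀ y, m (y + 1) = m y) (hp : ∀ y, h (y + 1) = h y)
    (h2 : ∀ᵐ y : ℝ, g (2 * y) = m y * g y)
    (hn : ∀ᵐ y : ℝ, ∑' n : ℤ, ‖g (y + n)‖ₑ ^ 2 = 1)
    (hm1 : ∀ᵐ y : ℝ, ‖m y‖ ^ 2 + ‖m (y + 1 / 2)‖ ^ 2 = 1)
    (hh1 : ∀ᵐ y : ℝ, ‖h y‖ ^ 2 + ‖h (y + 1 / 2)‖ ^ 2 = 1)
    (hmh : ∀ᵐ y : ℝ, m y * (starRingEnd ℂ) (h y) +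
      m (y + 1 / 2) * (starRingEnd ℂ) (h (y + 1 / 2)) = 0) {t : ℝ} (ht0 : 0 < t) (ht1 : t ≤ 1 / 2) :
    ∀ᵐ x : ℝ, ∑' n : ℤ, w (fun y => md 0 1 h t (y / 2) * gt m t (y / 2)) (x + n) = (D x : ℝ≥0∞) := by
  have hm1' : ∀ᵐ y : ℝ, ‖md 1 0 m t y‖ ^ 2 + ‖md 1 0 m t (y + 1 / 2)‖ ^ 2 = 1 := by
    filter_upwards [hm1] with y hy
    rcases md_cases t y with ⟨a, b⟩ | ⟨a, b⟩ | ⟨a, b, c, d⟩
    · rw [md_I a, md_H ht1 b]; simp
    · rw [md_H ht1 a, md_I b]; simp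
    · rw [md_N a b, md_N c d]; exact hy
  have hh1' : ∀ᵐ y : ℝ, ‖md 0 1 h t y‖ ^ 2 + ‖md 0 1 h t (y + 1 / 2)‖ ^ 2 = 1 := by
    filter_upwards [hh1] with y hy
    rcases md_cases t y with ⟨a, b⟩ | ⟨a, b⟩ | ⟨a, b, c, d⟩
    · rw [md_I a, md_H ht1 b]; simp
    · rw [md_H ht1 a, md_I b]; simp
    · rw [md_N a b, md_N c d]; exact hy
  have hmh' : ∀ᵐ y : ℝ, md 1 0 m t y * (starRingEnd ℂ) (md 0 1 h t y) +
      md 1 0 m t (y + 1 / 2) * (starRingEnd ℂ) (md 0 1 h t (y + 1 / 2)) = 0 := by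
    filter_upwards [hmh] with y hy
    rcases md_cases t y with ⟨a, b⟩ | ⟨a, b⟩ | ⟨a, b, c, d⟩
    · rw [md_I a, md_I a, md_H ht1 b, md_H ht1 b]; simp
    · rw [md_H ht1 a, md_H ht1 a, md_I b, md_I b]; simp
    · rw [md_N a b, md_N a b, md_N c d, md_N c d]; exact hy
  have hn' := mod_norm g m (gt m t) (md 1 0 m t) hgm hmm (meas_gt hmm ht0) (meas_md 1 0 hmm t)
    mp (md_per 1 0 mp t) h2 hn hm1 hm1' t ht0 ht1 (fun y hy => md_I hy) (fun y hy => md_H ht1 hy)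
    (fun y hy hy' => md_N hy hy') (fun y hy => gt_one m ht0 hy) (fun y => gt_two m ht0 y)
  have := WdFilt.dim_of_filter (gt m t) (md 1 0 m t) (md 0 1 h t) (meas_gt hmm ht0) (meas_md 1 0 hmm t)
    (meas_md 0 1 hhm t) (md_per 1 0 mp t) (md_per 0 1 hp t)
    (Eventually.of_forall fun y => gt_two m ht0 y) hn' hm1' hh1' hmh'
  filter_upwards [this, hD1] with x hx hx1
  rw [hx, hx1]
  simp

/-- the path from an MRA wavelet to the Shannon wavelet. -/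
theorem mra_path_d (D : ℝ → ℕ) (hD1 : ∀ᵐ x : ℝ, D x = 1) (φ g m h : ℝ → ℂ) (hφm : Measurable φ) (hφg : GoodD D φ)
    (hgm : Measurable g) (hmm : Measurable m) (hhm : Measurable h)
    (mp : ∀ y, m (y + 1) = m y) (hp : ∀ y, h (y + 1) = h y)
    (h2 : ∀ᵐ y : ℝ, g (2 * y) = m y * g y)
    (hφ : ∀ᵐ y : ℝ, φ (2 * y) = h y * g y)
    (hn : ∀ᵐ y : ℝ, ∑' n : ℤ, ‖g (y + n)‖ₑ ^ 2 = 1)
    (hm1 : ∀ᵐ y : ℝ, ‖m y‖ ^ 2 + ‖m (y + 1 / 2)‖ ^ 2 = 1)
    (hh1 : ∀ᵐ y : ℝ, ‖h y‖ ^ 2 + ‖h (y + 1 / 2)‖ ^ 2 = 1)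
    (hmh : ∀ᵐ y : ℝ, m y * (starRingEnd ℂ) (h y) + m (y + 1 / 2) * (starRingEnd ℂ) (h (y + 1 / 2)) = 0)
    (h0 : ∀ᵐ y : ℝ, Tendsto (fun j : ℕ => g (y / 2 ^ j)) atTop (𝓝 1)) :
    ConnD D φ ({y : ℝ | 1 / 2 < |y| ∧ |y| < 1}.indicator (fun _ => (1:ℂ))) := by
  classical
  let Ψ : ℝ → ℝ → ℂ := fun s => if s = 0 then φ else
    fun y => md 0 1 h (s / 2) (y / 2) * gt m (s / 2) (y / 2)
  have hΨ0 : Ψ 0 = φ := if_pos rfl
  have hΨ : ∀ s, s ≠ 0 → Ψ s = fun y => md 0 1 h (s / 2) (y / 2) * gt m (s / 2) (y / 2) :=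
    fun s hs => if_neg hs
  clear_value Ψ
  refine ⟨Ψ, ?_, ?_, ?_, ?_⟩
  · intro s hs
    by_cases hs0 : s = 0
    · rw [hs0, hΨ0]
      exact ⟨hφm, hφg⟩
    · have hs1 : 0 < s := lt_of_le_of_ne hs.1 (Ne.symm hs0)
      rw [hΨ s hs0]
      refine ⟨?_, good_t hgm hmm hhm mp hp h2 hn hm1 hh1 hmh (by linarith) (by linarith [hs.2]),
        dim_t D hD1 hgm hmm hhm mp hp h2 hn hm1 hh1 hmh (by linarith) (by linarith [hs.2])⟩
      exact ((meas_md 0 1 hhm _).comp (measurable_id.div_const 2)).mul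
        ((meas_gt hmm (by linarith)).comp (measurable_id.div_const 2))
  · rw [hΨ0]
  · rw [hΨ 1 one_ne_zero]
    have a1 : ∀ᵐ y : ℝ, ∀ k : ℕ, |y - 0| ≠ 2 ^ k := ae_all_iff.2 fun k => ae_ne 0 _
    filter_upwards [ae_ne 0 (1 / 2), a1] with y b1 b2
    exact end_pt m h (by simpa using b1) (fun k => by simpa using b2 k)
  · intro s0 hs0
    by_cases hs : s0 = 0
    · subst hs
      filter_upwards [ae_orb h2, ae_orb hφ, ae_orb hm1, ae_orb h0, ae_orb (ae_grid 0)] with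
        y b1 b2 b3 b4 b5 _
      have hlim1 := lim_gt (g := g) (m := m) (z := y / 2) b5 b1 (fun j => by
        have h3 := b3 j
        have h4 := sq_nonneg ‖m (y / 2 / 2 ^ j + 1 / 2)‖
        have h5 : ‖m (y / 2 / 2 ^ j)‖ ^ 2 ≤ 1 ^ 2 := by linarith
        exact (sq_le_sq₀ (norm_nonneg _) zero_le_one).1 h5) (by simpa using b4 0)
      have hlim2 := lim_ht (h := h) (z := y / 2) (by simpa using b5 0)
      have hval : φ y = h (y / 2) * g (y / 2) := by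
        have h3 := b2 0
        rw [pow_zero, div_one] at h3
        rw [← h3]
        congr 1
        ring
      have hmain : ContinuousWithinAt (fun s => Ψ s y) (Set.Ioi 0) 0 := by
        change Tendsto (fun s => Ψ s y) (𝓝[>] 0) (𝓝 (Ψ 0 y))
        rw [hΨ0, hval]
        have hcomp : Tendsto (fun s : ℝ => s / 2) (𝓝[>] 0) (𝓝[>] 0) := by
          refine tendsto_nhdsWithin_iff.2 ⟨?_, ?_⟩
          · have h3 : Tendsto (fun s : ℝ => s / 2) (𝓝 0) (𝓝 (0 / 2)) := tendsto_id.div_const 2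
            rw [zero_div] at h3
            exact h3.mono_left nhdsWithin_le_nhds
          · filter_upwards [self_mem_nhdsWithin] with s hs
            have hs' : 0 < s := hs
            exact half_pos hs'
        have h3 := (hlim2.mul hlim1).comp hcomp
        refine h3.congr' ?_
        filter_upwards [self_mem_nhdsWithin] with s hs
        have hs' : 0 < s := hs
        rw [hΨ s hs'.ne']
        rfl
      exact (continuousWithinAt_Ioi_iff_Ici.1 hmain).mono Set.Icc_subset_Ici_self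
    · have hs1 : 0 < s0 := lt_of_le_of_ne hs0.1 (Ne.symm hs)
      filter_upwards [ae_orb (ae_grid (s0 / 2 / 2))] with y b1 _
      have hc : Tendsto (fun s : ℝ => s / 2) (𝓝 s0) (𝓝 (s0 / 2)) := tendsto_id.div_const 2
      have e1 := hc.eventually (gt_loc m (z := y / 2) (show 0 < s0 / 2 by linarith) b1)
      have e2 := hc.eventually (md_loc 0 1 h (w := y / 2) (t0 := s0 / 2) (by simpa using b1 0))
      have hev : ∀ᶠ s in 𝓝 s0, Ψ s0 y = Ψ s y := by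
        filter_upwards [e1, e2, lt_mem_nhds hs1] with s c1 c2 c3
        rw [hΨ s c3.ne', hΨ s0 hs]
        change md 0 1 h (s0 / 2) (y / 2) * gt m (s0 / 2) (y / 2) =
          md 0 1 h (s / 2) (y / 2) * gt m (s / 2) (y / 2)
        rw [c1, c2]
      have hct : ContinuousAt (fun s => Ψ s y) s0 := tendsto_const_nhds.congr' hev
      exact hct.continuousWithinAt

end Pool.Agent.Helper152.WdMra
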