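import Pool.Agent.Helper152.WdPath
import Pool.Agent.Helper152.WavPhase

set_option autoImplicit false
open MeasureTheory Filter Topology
open scoped ENNReal

namespace Pool.Agent.Helper152.WdPhase

open Pool.Agent.Helper152.Wav
open Pool.Agent.Helper152.Wd
open Pool.Agent.Helper152.Lar (w ae_orbit)
open Pool.Agent.Helper152.WavPhase (enorm_zero_or enorm_one unique_of_tsum)

theorem unique_of_tsum' {u : ℕ → ℂ} (h01 : ∀ k, ‖u k‖ = 0 ∨ ‖u k‖ = 1)
    (h : ∑' k : ℕ, ‖u k‖ₑ ^ 2 = 1) : ∃! k : ℕ, ‖u k‖ = 1 := by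
  have hex : ∃ k, ‖u k‖ = 1 := by
    by_contra hne
    push Not at hne
    have : ∑' k : ℕ, ‖u k‖ₑ ^ 2 = 0 := by
      rw [ENNReal.tsum_eq_zero]
      exact fun k => enorm_zero_or (h01 k) (hne k)
    rw [this] at h
    exact zero_ne_one h
  obtain ⟨k, hk⟩ := hex
  refine ⟨k, hk, ?_⟩
  intro l hl
  by_contra hne
  have h2 := ENNReal.sum_le_tsum (f := fun k => ‖u k‖ₑ ^ 2) ({l, k} : Finset ℕ)
  rw [h, Finset.sum_pair hne] at h2
  rw [enorm_one hl, enorm_one hk] at h2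
  norm_num at h2

/-- the level of a row of a 0-1 state -/
noncomputable def lamOf (b : ℤ → ℕ → ℂ) (k : ℤ) : ℕ := sInf {j : ℕ | ‖b k j‖ = 1}

theorem lamOf_spec {P : ℤ → Prop} {N : ℕ → ℤ → Prop} {b : ℤ → ℕ → ℂ} (h : Blk P N b)
    (h01 : ∀ k j, ‖b k j‖ = 0 ∨ ‖b k j‖ = 1) (k : ℤ) (hk : P k) (j : ℕ) :
    ‖b k j‖ = 1 ↔ lamOf b k = j := by
  obtain ⟨j0, hj0, hu⟩ := unique_of_tsum' (h01 k) (h.row k hk)
  have hset : {j : ℕ | ‖b k j‖ = 1} = {j0} := by
    ext j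
    constructor
    · intro hj; exact hu j hj
    · intro hj; rw [Set.mem_singleton_iff] at hj; rw [hj]; exact hj0
  have hl : lamOf b k = j0 := by
    unfold lamOf
    rw [hset]
    exact csInf_singleton j0
  rw [hl]
  constructor
  · intro hj; exact (hu j hj).symm
  · rintro rfl; exact hj0

theorem tsum_ind (Q : ℤ → Prop) [DecidablePred Q] :
    ∑' q : ℤ, (if Q q then (1:ℝ≥0∞) else 0) = (({q | Q q} : Set ℤ).encard : ℝ≥0∞) := by
  rw [← ENNReal.tsum_set_one, tsum_subtype {q | Q q} (fun _ => (1:ℝ≥0∞))]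
  refine tsum_congr fun q => ?_
  rw [Set.indicator_apply]
  rfl

/-- number of rows in a class -/
theorem class_card (j : ℕ) (r : ℤ) (Q : ℤ → Prop) :
    ({q : ℤ | Q (r + 2 ^ j * q)} : Set ℤ).encard = ({k : ℤ | (2:ℤ) ^ j ∣ k - r ∧ Q k} : Set ℤ).encard := by
  have hinj : Function.Injective (fun q : ℤ => r + 2 ^ j * q) := by
    intro a b h
    simp only at h
    have h2 : (2:ℤ) ^ j * a = 2 ^ j * b := by linarith
    exact mul_left_cancel₀ (by positivity) h2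
  rw [← hinj.encard_image]
  congr 1
  ext k
  constructor
  · rintro ⟨q, hq, rfl⟩
    exact ⟨⟨q, by ring⟩, hq⟩
  · rintro ⟨⟨q, hq⟩, hQ⟩
    have e : k = r + 2 ^ j * q := by linarith
    exact ⟨q, by rw [Set.mem_ofPred_eq, ← e]; exact hQ, e.symm⟩

/-- a 0-1 state with given dimensions is a matching -/
theorem mt_of_blk {P : ℤ → Prop} {N : ℕ → ℤ → Prop} {d : ℕ → ℤ → ℕ} {b : ℤ → ℕ → ℂ} {lam : ℤ → ℕ}
    (h : Blk P N b) (hd : DimS N d b)
    (h01 : ∀ k j, ‖b k j‖ = 0 ∨ ‖b k j‖ = 1) (hl : ∀ k, P k → ∀ j, ‖b k j‖ = 1 ↔ lam k = j) :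
    Mt P N d lam := by
  classical
  have hkey : ∀ k j, ‖b k j‖ = 1 ↔ P k ∧ lam k = j := by
    intro k j
    by_cases hP : P k
    · rw [hl k hP j]; simp [hP]
    · rw [h.zero k j hP]; simp [hP]
  refine ⟨h.node, h.per, ?_, ?_⟩
  · intro j r hN
    obtain ⟨m, hm, hu⟩ := unique_of_tsum (u := fun m : ℤ => b (r + 2 ^ j * m) j) (fun m => h01 _ _)
      (h.col j r hN)
    refine ⟨r + 2 ^ j * m, ⟨⟨m, by ring⟩, (hkey _ _).1 hm⟩, ?_⟩
    rintro k ⟨⟨q, hq⟩, hk⟩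
    have e : k = r + 2 ^ j * q := by linarith
    have := hu q (by show ‖b (r + 2 ^ j * q) j‖ = 1; rw [← e]; exact (hkey _ _).2 hk)
    rw [e, this]
  · intro j r hN
    have h1 := hd j r hN
    have h2 : ∀ q : ℤ, ∑ l ∈ Finset.range j, ‖b (r + 2 ^ j * q) l‖ₑ ^ 2 =
        if P (r + 2 ^ j * q) ∧ lam (r + 2 ^ j * q) < j then 1 else 0 := by
      intro q
      have h3 : ∀ l, ‖b (r + 2 ^ j * q) l‖ₑ ^ 2 =
          if P (r + 2 ^ j * q) ∧ lam (r + 2 ^ j * q) = l then 1 else 0 := by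
        intro l
        by_cases hc : P (r + 2 ^ j * q) ∧ lam (r + 2 ^ j * q) = l
        · rw [if_pos hc]; exact enorm_one ((hkey _ _).2 hc)
        · rw [if_neg hc]; exact enorm_zero_or (h01 _ _) (fun h => hc ((hkey _ _).1 h))
      simp_rw [h3]
      by_cases hP : P (r + 2 ^ j * q)
      · simp only [hP, true_and]
        by_cases hlt : lam (r + 2 ^ j * q) < j
        · rw [if_pos hlt, Finset.sum_ite_eq, if_pos (Finset.mem_range.2 hlt)]
        · rw [if_neg hlt, Finset.sum_ite_eq, if_neg (fun h => hlt (Finset.mem_range.1 h))]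
      · simp [hP]
    simp_rw [h2] at h1
    rw [tsum_ind (fun q : ℤ => P (r + 2 ^ j * q) ∧ lam (r + 2 ^ j * q) < j),
      class_card j r (fun k => P k ∧ lam k < j)] at h1
    have h4 : ((({k : ℤ | (2:ℤ) ^ j ∣ k - r ∧ P k ∧ lam k < j} : Set ℤ).encard : ℕ∞) : ℝ≥0∞) =
        (((d j r : ℕ) : ℕ∞) : ℝ≥0∞) := by
      rw [h1]; simp
    exact ENat.toENNReal_inj.1 h4

/-- states with the same moduli -/
theorem blk_congr {P : ℤ → Prop} {N : ℕ → ℤ → Prop} {d : ℕ → ℤ → ℕ} {b b' : ℤ → ℕ → ℂ}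
    (h : Blk P N b) (hd : DimS N d b) (h01 : ∀ k j, ‖b k j‖ = 0 ∨ ‖b k j‖ = 1)
    (hn : ∀ k j, ‖b' k j‖ = ‖b k j‖) : Blk P N b' ∧ DimS N d b' := by
  have he : ∀ k j, ‖b' k j‖ₑ = ‖b k j‖ₑ := by
    intro k j
    rw [← ofReal_norm, ← ofReal_norm, hn]
  refine ⟨⟨?_, h.node, h.per, ?_, ?_, ?_⟩, ?_⟩
  · intro k j hP
    have := hn k j
    rw [h.zero k j hP, norm_zero] at this
    exact norm_eq_zero.1 this
  · intro k hP
    simp_rw [he]; exact h.row k hP
  · intro j r hN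
    simp_rw [he]; exact h.col j r hN
  · intro i j r hij
    have : ∀ m : ℤ, b' (r + 2 ^ j * m) i * (starRingEnd ℂ) (b' (r + 2 ^ j * m) j) = 0 := by
      intro m
      by_cases hP : P (r + 2 ^ j * m)
      · have h1 := lamOf_spec h h01 _ hP i
        have h2 := lamOf_spec h h01 _ hP j
        rcases h01 (r + 2 ^ j * m) i with h3 | h3
        · rw [← hn] at h3
          rw [norm_eq_zero.1 h3, zero_mul]
        · rcases h01 (r + 2 ^ j * m) j with h4 | h4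
          · rw [← hn] at h4
            rw [norm_eq_zero.1 h4, map_zero, mul_zero]
          · have := (h1.1 h3).symm.trans (h2.1 h4)
            omega
      · have h3 := hn (r + 2 ^ j * m) i
        rw [h.zero _ i hP, norm_zero] at h3
        rw [norm_eq_zero.1 h3, zero_mul]
    simp_rw [this]
    exact tsum_zero
  · intro j r hN
    simp_rw [he]; exact hd j r hN

/-- second path: removing the phases -/
theorem path_phase (D : ℝ → ℕ) (hDm : Measurable D) (hDp : ∀ (x : ℝ) (n : ℤ), D (x + n) = D x)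
    (H1 : ∀ᵐ x : ℝ, ∃ i : ℕ, (2:ℝ) ^ i * x ∈ ZZ D) (H2 : ∀ᵐ x : ℝ, ∀ᶠ i : ℕ in atTop, x / 2 ^ i ∉ ZZ D)
    (b : ℝ → ℤ → ℕ → ℂ) (hbm : ∀ k j, Measurable fun ξ => b ξ k j)
    (hb : ∀ᵐ ξ : ℝ, ξ ∈ ZZ D → 0 ≤ ξ → ξ < 1 →
      Blk (PP (ZZ D) ξ) (NN (ZZ D) ξ) (b ξ) ∧ DimS (NN (ZZ D) ξ) (dd D ξ) (b ξ) ∧
      ∀ k j, ‖b ξ k j‖ = 0 ∨ ‖b ξ k j‖ = 1) :
    ∃ lam : ℝ → ℤ → ℕ, (∀ k, Measurable fun ξ => lam ξ k) ∧
      (∀ᵐ ξ : ℝ, ξ ∈ ZZ D → 0 ≤ ξ → ξ < 1 → Mt (PP (ZZ D) ξ) (NN (ZZ D) ξ) (dd D ξ) (lam ξ)) ∧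
      ConnD D (Phi (ZZ D) b) (Phi (ZZ D) (fun ξ => sta (PP (ZZ D) ξ) (lam ξ))) := by
  classical
  have hper : ∀ (x : ℝ) (n : ℤ), x + n ∈ ZZ D ↔ x ∈ ZZ D := fun x n => by
    simp only [ZZ, Set.mem_ofPred_eq]; rw [hDp]
  refine ⟨fun ξ => lamOf (b ξ), fun k => ?_, ?_, ?_⟩
  · exact WavMraData.measurable_sInf (fun j => (hbm k j).norm (measurableSet_singleton 1))
  · filter_upwards [hb] with ξ hξ h1 h2 h3
    obtain ⟨hB, hd, h01⟩ := hξ h1 h2 h3
    exact mt_of_blk hB hd h01 (fun k hk j => lamOf_spec hB h01 k hk j)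
  · set A : ℝ → ℝ → ℤ → ℕ → ℂ := fun t ξ k j =>
      ((‖b ξ k j‖ : ℝ) : ℂ) * Complex.exp (((1 - t) * Complex.arg (b ξ k j) : ℝ) * Complex.I) with hA
    have hn : ∀ t ξ k j, ‖A t ξ k j‖ = ‖b ξ k j‖ := by
      intro t ξ k j
      simp only [hA]
      rw [norm_mul, Complex.norm_exp_ofReal_mul_I]
      simp
    have hc := WdPath.conn_of_states D hDm hDp H1 H2 A (fun t k j => by
      simp only [hA]
      have ha : Measurable fun ξ => Complex.arg (b ξ k j) := Complex.measurable_arg.comp (hbm k j)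
      have hb : Measurable fun ξ => (((1 - t) * Complex.arg (b ξ k j) : ℝ) : ℂ) :=
        Complex.measurable_ofReal.comp (ha.const_mul (1 - t))
      have hc : Measurable fun ξ => ((‖b ξ k j‖ : ℝ) : ℂ) :=
        Complex.measurable_ofReal.comp (hbm k j).norm
      exact hc.mul (Complex.measurable_exp.comp (hb.mul_const Complex.I))) (by
      filter_upwards [hb] with ξ hξ h1 h2 h3
      obtain ⟨hB, hd, h01⟩ := hξ h1 h2 h3
      refine ⟨fun t _ => blk_congr hB hd h01 (fun k j => hn t ξ k j), fun k j => ?_⟩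
      apply Continuous.continuousOn
      simp only [hA]
      fun_prop)
    refine WdPath.connD_congr hc ?_ ?_
    · have : A 0 = b := by
        funext ξ k j
        simp only [hA]
        rw [sub_zero, one_mul]
        exact Complex.norm_mul_exp_arg_mul_I (b ξ k j)
      rw [this]
    · apply WdPath.Phi_congr _ hper
      filter_upwards [hb] with ξ hξ h1 h2 h3
      obtain ⟨hB, hd, h01⟩ := hξ h1 h2 h3
      funext k j
      simp only [hA]
      rw [sub_self, zero_mul, Complex.ofReal_zero, zero_mul, Complex.exp_zero, mul_one]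
      unfold sta
      by_cases hP : PP (ZZ D) ξ k
      · rcases h01 k j with h4 | h4
        · rw [if_neg (fun h5 => ?_), h4, Complex.ofReal_zero]
          have := (lamOf_spec hB h01 k hP j).2 h5.2
          rw [h4] at this
          exact zero_ne_one this
        · rw [if_pos ⟨hP, (lamOf_spec hB h01 k hP j).1 h4⟩, h4, Complex.ofReal_one]
      · rw [if_neg (fun h5 => hP h5.1), hB.zero k j hP, norm_zero, Complex.ofReal_zero]

end Pool.Agent.Helper152.WdPhase
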