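import Pool.Agent.Helper152.WdPath
import Pool.Agent.Helper152.WdPhase
import Pool.Agent.Helper152.WdJoin
import Pool.Agent.Helper152.WdExist
import Pool.Agent.Helper152.WdMra
import Pool.Agent.Helper152.WavDim

set_option autoImplicit false
open MeasureTheory Filter Topology
open scoped ENNReal

namespace Pool.Agent.Helper152.WdMain

open Pool.Agent.Helper152.Wav
open Pool.Agent.Helper152.Wd
open Pool.Agent.Helper152.Lar (w ae_orbit)
open Pool.Agent.Helper152.WavDim (lint_one exists_lp)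

/-- the set of good functions in L2 with dimension function D -/
def SGD (D : ℝ → ℕ) : Set (Lp ℂ 2 (volume : Measure ℝ)) := {f | GoodD D (f : ℝ → ℂ)}

theorem goodD_congr {D : ℝ → ℕ} {φ φ' : ℝ → ℂ} (h : φ =ᵐ[volume] φ') (hg : GoodD D φ) : GoodD D φ' := by
  refine ⟨WavPath.good_congr h hg.1, ?_⟩
  filter_upwards [hg.2, ae_orbit h] with x hx hO
  rw [← hx]
  refine tsum_congr fun n => ?_
  unfold w
  refine tsum_congr fun i => ?_
  have h1 := hO (i + 1 : ℕ) n (i + 1 : ℕ)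
  rw [zpow_natCast] at h1
  have e : (2:ℝ) ^ (i + 1) * x + n * (2:ℝ) ^ (i + 1) = (2:ℝ) ^ (i + 1) * (x + n) := by ring
  rw [e] at h1
  rw [h1]

theorem joined_of_connD {D : ℝ → ℕ} {φ₀ φ₁ : ℝ → ℂ} (h : ConnD D φ₀ φ₁) (f₀ f₁ : Lp ℂ 2 (volume : Measure ℝ))
    (h0 : (f₀ : ℝ → ℂ) =ᵐ[volume] φ₀) (h1 : (f₁ : ℝ → ℂ) =ᵐ[volume] φ₁) : JoinedIn (SGD D) f₀ f₁ := by
  obtain ⟨Ψ, hΨ, e0, e1, hc⟩ := h
  refine WavCrit.crit (SGD D) Ψ (fun t ht => (hΨ t ht).1) (fun t ht => lint_one (hΨ t ht).1 (hΨ t ht).2.1)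
    hc (fun t ht f hf => goodD_congr hf.symm (hΨ t ht).2) f₀ f₁ (h0.trans e0.symm)
    (h1.trans e1.symm)

theorem exists_lp_of_connD {D : ℝ → ℕ} {φ₀ φ₁ : ℝ → ℂ} (h : ConnD D φ₀ φ₁) :
    (∃ f : Lp ℂ 2 (volume : Measure ℝ), (f : ℝ → ℂ) =ᵐ[volume] φ₀ ∧ f ∈ SGD D) ∧
    (∃ f : Lp ℂ 2 (volume : Measure ℝ), (f : ℝ → ℂ) =ᵐ[volume] φ₁ ∧ f ∈ SGD D) := by
  obtain ⟨Ψ, hΨ, e0, e1, hc⟩ := h
  have a0 := hΨ 0 ⟨le_rfl, zero_le_one⟩
  have a1 := hΨ 1 ⟨zero_le_one, le_rfl⟩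
  obtain ⟨f, hf⟩ := exists_lp a0.1 a0.2.1
  obtain ⟨g, hg⟩ := exists_lp a1.1 a1.2.1
  exact ⟨⟨f, hf.trans e0, goodD_congr hf.symm a0.2⟩, ⟨g, hg.trans e1, goodD_congr hg.symm a1.2⟩⟩

theorem SGD_pathConnected (D : ℝ → ℕ) (hDm : Measurable D) (hp : Function.Periodic D 1)
    (D2 : ∀ᵐ ξ : ℝ, D ξ + D (ξ + 1 / 2) = D (2 * ξ) + 1)
    (D3 : ∀ᵐ ξ : ℝ, ((D ξ : ℕ∞) ≤ {k : ℤ | ∀ j : ℕ, 1 ≤ D ((ξ + k) / 2 ^ j)}.encard))
    (D4 : ∀ᵐ ξ : ℝ, ∀ᶠ j : ℕ in Filter.atTop, 1 ≤ D (ξ / 2 ^ j)) : IsPathConnected (SGD D) := by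
  have hDp : ∀ (x : ℝ) (n : ℤ), D (x + n) = D x := fun x n => by
    have := hp.int_mul n x
    rwa [mul_one] at this
  have hper : ∀ (x : ℝ) (n : ℤ), x + n ∈ ZZ D ↔ x ∈ ZZ D := fun x n => by
    simp only [ZZ, Set.mem_ofPred_eq]; rw [hDp]
  have hZ : MeasurableSet (ZZ D) := hDm (measurableSet_singleton 0)
  by_cases hZ0 : volume (ZZ D) = 0
  · have hD1 := WdDich.dim_dichotomy D hDm hp D2 hZ0
    have hSm : MeasurableSet {y : ℝ | 1 / 2 < |y| ∧ |y| < 1} :=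
      (measurableSet_lt measurable_const measurable_norm).inter
        (measurableSet_lt measurable_norm measurable_const)
    have hgS : GoodD D ({y : ℝ | 1 / 2 < |y| ∧ |y| < 1}.indicator (fun _ => (1:ℂ))) := by
      refine ⟨WavPhase.good_indicator _ WavSh.shannon_tile.1 WavSh.shannon_tile.2, ?_⟩
      filter_upwards [WdFilt.shannon_dim, hD1] with x hx hx1
      rw [hx, hx1]; simp
    obtain ⟨f₀, hf₀⟩ := exists_lp (measurable_const.indicator hSm) hgS.1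
    refine ⟨f₀, goodD_congr hf₀.symm hgS, fun {f} hf => ?_⟩
    obtain ⟨φ, hm, hφ⟩ : ∃ φ : ℝ → ℂ, Measurable φ ∧ (f : ℝ → ℂ) =ᵐ[volume] φ :=
      ⟨(Lp.aestronglyMeasurable f).mk f, (Lp.aestronglyMeasurable f).stronglyMeasurable_mk.measurable,
        (Lp.aestronglyMeasurable f).ae_eq_mk⟩
    have hg : GoodD D φ := goodD_congr hφ hf
    have D1 : ∀ᵐ x : ℝ, ∑' n : ℤ, w φ (x + n) = 1 := by
      filter_upwards [hg.2, hD1] with x hx hx1
      rw [hx, hx1]; simp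
    obtain ⟨g, m, h, a1, a2, a3, a4, a5, a6, a7, a8, a9, a10, a11, a12⟩ :=
      WavMraData.mra_data φ hm hg.1 D1
    have hpth := WdMra.mra_path_d D hD1 φ g m h hm hg a1 a2 a3 a4 a5 a6 a7 a8 a9 a10 a11 a12
    exact (joined_of_connD hpth f f₀ hφ hf₀).symm
  · have H1 := LarE.hit (ZZ D) hZ (fun x hx n => (hper x n).2 hx) hZ0
    have H2 : ∀ᵐ x : ℝ, ∀ᶠ i : ℕ in atTop, x / 2 ^ i ∉ ZZ D := by
      filter_upwards [D4] with x hx
      filter_upwards [hx] with i hi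
      simp only [ZZ, Set.mem_ofPred_eq]
      omega
    have hMt := WdExist.lamD_mt D hDm hp hDp D2 D3
    have hlm := WdExist.lamD_meas D hDm
    have hself := WdJoin.path_swap D hDm hDp H1 H2 (WdExist.lamD D) (WdExist.lamD D) hlm hlm hMt hMt
    obtain ⟨⟨f₀, hf₀, hf₀m⟩, -⟩ := exists_lp_of_connD hself
    refine ⟨f₀, hf₀m, fun {f} hf => ?_⟩
    obtain ⟨φ, hm, hφ⟩ : ∃ φ : ℝ → ℂ, Measurable φ ∧ (f : ℝ → ℂ) =ᵐ[volume] φ :=
      ⟨(Lp.aestronglyMeasurable f).mk f, (Lp.aestronglyMeasurable f).stronglyMeasurable_mk.measurable,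
        (Lp.aestronglyMeasurable f).ae_eq_mk⟩
    have hg : GoodD D φ := goodD_congr hφ hf
    -- modify the function on a null set
    obtain ⟨S, hS⟩ : ∃ S : Set ℝ, S = ⋃ i : ℕ, {y : ℝ | y / 2 ^ (i + 1) ∈ ZZ D} := ⟨_, rfl⟩
    have hSm : MeasurableSet S := by
      rw [hS]
      refine MeasurableSet.iUnion fun i => ?_
      have hmm : Measurable fun y : ℝ => y / 2 ^ (i + 1) := by fun_prop
      exact hmm hZ
    obtain ⟨φ', hφ'⟩ : ∃ φ' : ℝ → ℂ, φ' = Sᶜ.indicator φ := ⟨_, rfl⟩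
    have hm' : Measurable φ' := by rw [hφ']; exact hm.indicator hSm.compl
    have hae : φ =ᵐ[volume] φ' := by
      filter_upwards [ae_orbit hg.2] with y hy
      rw [hφ']
      by_cases hyS : y ∈ S
      · rw [Set.indicator_of_notMem (by simpa using hyS)]
        rw [hS, Set.mem_iUnion] at hyS
        obtain ⟨i, hi⟩ := hyS
        have h1 := hy (-((i + 1 : ℕ) : ℤ)) 0 0
        have e : (2:ℝ) ^ (-((i + 1 : ℕ) : ℤ)) * y + ((0:ℤ):ℝ) * (2:ℝ) ^ (0:ℤ) = y / 2 ^ (i + 1) := by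
          rw [zpow_neg, zpow_natCast]
          field_simp
          simp
        rw [e] at h1
        have hz : D (y / 2 ^ (i + 1)) = 0 := hi
        rw [hz, Nat.cast_zero, ENNReal.tsum_eq_zero] at h1
        have h2 := h1 0
        rw [Int.cast_zero, add_zero, Lar.w_eq_zero] at h2
        have h3 := h2 i
        have e2 : (2:ℝ) ^ (i + 1) * (y / 2 ^ (i + 1)) = y := by field_simp
        rw [e2] at h3
        exact h3
      · rw [Set.indicator_of_mem (by simpa using hyS)]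
    have hg' : GoodD D φ' := goodD_congr hae hg
    have hzero : ∀ x ∈ ZZ D, ∀ i : ℕ, 1 ≤ i → φ' ((2:ℝ) ^ i * x) = 0 := by
      intro x hx i hi
      rw [hφ', Set.indicator_of_notMem]
      rw [Set.notMem_compl_iff, hS, Set.mem_iUnion]
      refine ⟨i - 1, ?_⟩
      show (2:ℝ) ^ i * x / 2 ^ (i - 1 + 1) ∈ ZZ D
      rw [Nat.sub_add_cancel hi]
      have : (2:ℝ) ^ i * x / 2 ^ i = x := by field_simp
      rw [this]; exact hx
    obtain ⟨c1, c2, c3⟩ := WdPath.path_flow D hDm hDp H1 H2 φ' hm' hg' hzero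
    obtain ⟨lam, l1, l2, l3⟩ := WdPhase.path_phase D hDm hDp H1 H2 (WavPath.aInf (ZZ D) φ')
      (fun k j => WavPath.aInf_meas (ZZ D) hZ φ' hm' k j) c3
    have l4 := WdJoin.path_swap D hDm hDp H1 H2 lam (WdExist.lamD D) l1 hlm l2 hMt
    obtain ⟨-, f₁, hf₁, -⟩ := exists_lp_of_connD c1
    obtain ⟨-, f₂, hf₂, -⟩ := exists_lp_of_connD l3
    exact ((joined_of_connD c1 f f₁ ((hφ.trans hae).trans c2.symm) hf₁).trans
      ((joined_of_connD l3 f₁ f₂ hf₁ hf₂).trans (joined_of_connD l4 f₂ f₀ hf₂ hf₀))).symm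

end Pool.Agent.Helper152.WdMain
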