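import Pool.Agent.Helper152.WavPhi
import Pool.Agent.Helper152.WavInit

set_option autoImplicit false
open MeasureTheory Filter Topology
open scoped ENNReal

namespace Pool.Agent.Helper152.WdPhi

open Pool.Agent.Helper152.Wav
open Pool.Agent.Helper152.Lar (w)
open Pool.Agent.Helper152.WavPhi (ae_orbit PP_iff Phi_B Phi_C Phi_D)
open Pool.Agent.Helper152.WavInit (ae_orbit1 NN_per1)

/-- a property of the fractional part, from the orbit -/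
theorem fract_at {Z : Set ℝ} (hper : ∀ (x : ℝ) (n : ℤ), x + n ∈ Z ↔ x ∈ Z)
    {Q : ℝ → Prop} {x : ℝ}
    (hO : ∀ (u v : ℤ), (2:ℝ) ^ u * x + v ∈ Z → 0 ≤ (2:ℝ) ^ u * x + v → (2:ℝ) ^ u * x + v < 1 →
      Q ((2:ℝ) ^ u * x + v))
    {X : ℝ} (u : ℤ) (hXu : X = (2:ℝ) ^ u * x) (hX : X ∈ Z) : Q (Int.fract X) := by
  have e : (2:ℝ) ^ u * x + ((-⌊X⌋ : ℤ) : ℝ) = Int.fract X := by
    rw [← hXu]
    push_cast
    rw [← sub_eq_add_neg]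
    rfl
  have h := hO u (-⌊X⌋)
  rw [e] at h
  refine h ?_ (Int.fract_nonneg _) (Int.fract_lt_one _)
  rw [← e, hper, ← hXu]
  exact hX

/-- dimension function of the function given by block states -/
theorem Phi_dim (Z : Set ℝ) (hper : ∀ (x : ℝ) (n : ℤ), x + n ∈ Z ↔ x ∈ Z) (D : ℝ → ℕ)
    (_hD : ∀ (x : ℝ) (n : ℤ), D (x + n) = D x)
    (H1 : ∀ᵐ x : ℝ, ∃ i : ℕ, (2:ℝ) ^ i * x ∈ Z)
    (a : ℝ → ℤ → ℕ → ℂ)
    (hb : ∀ᵐ ξ : ℝ, ξ ∈ Z → 0 ≤ ξ → ξ < 1 → Blk (PP Z ξ) (NN Z ξ) (a ξ) ∧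
      ∀ (j : ℕ) (r : ℤ), NN Z ξ j r →
        ∑' q : ℤ, ∑ l ∈ Finset.range j, ‖a ξ (r + 2 ^ j * q) l‖ₑ ^ 2 = (D ((ξ + r) / 2 ^ j) : ℝ≥0∞)) :
    ∀ᵐ x : ℝ, ∑' n : ℤ, w (Phi Z a) (x + n) = (D x : ℝ≥0∞) := by
  filter_upwards [H1, ae_orbit hb] with x h1 hOx
  obtain ⟨m, hm, hmin⟩ : ∃ m : ℕ, (2:ℝ) ^ m * x ∈ Z ∧ ∀ i < m, (2:ℝ) ^ i * x ∉ Z := by
    classical
    exact ⟨Nat.find h1, Nat.find_spec h1, fun i hi => Nat.find_min h1 hi⟩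
  have hQ := fract_at hper (Q := fun ξ => Blk (PP Z ξ) (NN Z ξ) (a ξ) ∧
      ∀ (j : ℕ) (r : ℤ), NN Z ξ j r →
        ∑' q : ℤ, ∑ l ∈ Finset.range j, ‖a ξ (r + 2 ^ j * q) l‖ₑ ^ 2 = (D ((ξ + r) / 2 ^ j) : ℝ≥0∞))
      hOx (X := (2:ℝ) ^ m * x) (m : ℤ) (by rw [zpow_natCast]) hm
  obtain ⟨X, hXx⟩ : ∃ X : ℝ, X = (2:ℝ) ^ m * x := ⟨_, rfl⟩
  rw [← hXx] at hQ hm
  obtain ⟨blk, hdim⟩ := hQ
  have hN : ∀ i : ℕ, 1 ≤ i → i ≤ m → X / 2 ^ i ∉ Z := by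
    intro i hi him
    have e2 : X / 2 ^ i = 2 ^ (m - i) * x := by
      have : (2:ℝ) ^ m = 2 ^ i * 2 ^ (m - i) := by
        rw [← pow_add]; congr 1; omega
      rw [hXx, this]; field_simp
    rw [e2]
    exact hmin _ (by omega)
  have key : ∀ n : ℤ, w (Phi Z a) (x + n) =
      ∑ l ∈ Finset.range m, ‖a (Int.fract X) (⌊X⌋ + 2 ^ m * n) l‖ₑ ^ 2 := by
    intro n
    unfold w
    rw [tsum_eq_sum (s := Finset.range m)]
    · rw [← Finset.sum_range_reflect (fun l => ‖a (Int.fract X) (⌊X⌋ + 2 ^ m * n) l‖ₑ ^ 2) m]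
      refine Finset.sum_congr rfl fun i hi => ?_
      have hi' : i < m := Finset.mem_range.1 hi
      have h2 : Phi Z a ((2:ℝ) ^ (i + 1) * (x + n)) =
          a (Int.fract X) (⌊X⌋ + 2 ^ m * n) (m - 1 - i) := by
        rw [← Phi_D hper hm hN blk (show m - 1 - i ≤ m by omega) n]
        congr 1
        rw [hXx]
        push_cast
        have : (2:ℝ) ^ m = 2 ^ (i + 1) * 2 ^ (m - 1 - i) := by
          rw [← pow_add]; congr 1; omega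
        rw [this]
        field_simp
      rw [h2]
    · intro i hi
      have hi' : m ≤ i := by simpa using hi
      have h2 : Phi Z a ((2:ℝ) ^ (i + 1) * (x + n)) = 0 := by
        have h3 : X + ((2 ^ m * n : ℤ) : ℝ) ∈ Z := (hper _ _).2 hm
        rw [← Phi_C (a := a) (show 1 ≤ i + 1 - m by omega) h3]
        congr 1
        rw [hXx]
        push_cast
        have : (2:ℝ) ^ (i + 1) = 2 ^ m * 2 ^ (i + 1 - m) := by
          rw [← pow_add]; congr 1; omega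
        rw [this]
        ring
      rw [h2]
      simp
  simp only [key]
  rw [hdim m ⌊X⌋ (by
    intro i hi him
    rw [Int.fract_add_floor]
    exact hN i hi him)]
  rw [Int.fract_add_floor]
  have e3 : X / 2 ^ m = x := by
    rw [hXx]; field_simp
  rw [e3]

/-- dimensions of the initial block states -/
theorem a0_dims (Z : Set ℝ) (hper : ∀ (x : ℝ) (n : ℤ), x + n ∈ Z ↔ x ∈ Z) (D : ℝ → ℕ)
    (φ : ℝ → ℂ) (hZ0 : ∀ x ∈ Z, ∀ i : ℕ, 1 ≤ i → φ ((2:ℝ) ^ i * x) = 0)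
    (hdim : ∀ᵐ x : ℝ, ∑' n : ℤ, w φ (x + n) = (D x : ℝ≥0∞)) (a0 : ℝ → ℤ → ℕ → ℂ)
    (ha0 : ∀ (ξ : ℝ) (k : ℤ) (j : ℕ), (PP Z ξ k → a0 ξ k j = φ ((ξ + k) / 2 ^ j)) ∧
      (¬ PP Z ξ k → a0 ξ k j = 0)) :
    ∀ᵐ ξ : ℝ, ξ ∈ Z → 0 ≤ ξ → ξ < 1 → ∀ (j : ℕ) (r : ℤ), NN Z ξ j r →
        ∑' q : ℤ, ∑ l ∈ Finset.range j, ‖a0 ξ (r + 2 ^ j * q) l‖ₑ ^ 2 = (D ((ξ + r) / 2 ^ j) : ℝ≥0∞) := by
  filter_upwards [ae_orbit1 hdim] with ξ o1 hξ _ _ j r hN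
  have ex : (2:ℝ) ^ (-(j:ℤ)) * ξ + r * (2:ℝ) ^ (-(j:ℤ)) = (ξ + r) / 2 ^ j := by
    rw [zpow_neg, zpow_natCast]
    field_simp
  have h1 := o1 (-(j:ℤ)) r (-(j:ℤ))
  rw [ex] at h1
  rw [← h1]
  refine tsum_congr fun q => ?_
  unfold w
  obtain ⟨k, hk⟩ : ∃ k : ℤ, k = r + 2 ^ j * q := ⟨_, rfl⟩
  rw [← hk]
  have hkZ : ξ + (k : ℝ) ∈ Z := (hper _ _).2 hξ
  have hkx : (ξ + r) / 2 ^ j + q = (ξ + k) / 2 ^ j := by
    rw [hk]; push_cast; field_simp; ring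
  rw [hkx]
  have hNk : NN Z ξ j k := by
    rw [hk, NN_per1 Z hper]; exact hN
  rw [tsum_eq_sum (s := Finset.range j)]
  · rw [← Finset.sum_range_reflect (fun l => ‖a0 ξ k l‖ₑ ^ 2) j]
    refine Finset.sum_congr rfl fun i hi => ?_
    have hi' : i < j := Finset.mem_range.1 hi
    have e2 : (2:ℝ) ^ (i + 1) * ((ξ + k) / 2 ^ j) = (ξ + k) / 2 ^ (j - 1 - i) := by
      have : (2:ℝ) ^ j = 2 ^ (i + 1) * 2 ^ (j - 1 - i) := by
        rw [← pow_add]; congr 1; omega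
      rw [this]
      field_simp
    rw [e2]
    by_cases hP : PP Z ξ k
    · rw [(ha0 ξ k (j - 1 - i)).1 hP]
    · rw [(ha0 ξ k (j - 1 - i)).2 hP]
      unfold PP at hP
      push Not at hP
      obtain ⟨i', hi1, hiZ⟩ := hP
      have hij : j < i' := by
        by_contra hc
        exact hNk i' hi1 (by omega) hiZ
      have h0 := hZ0 _ hiZ (i' - (j - 1 - i)) (by omega)
      have e3 : (2:ℝ) ^ (i' - (j - 1 - i)) * ((ξ + k) / 2 ^ i') = (ξ + k) / 2 ^ (j - 1 - i) := by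
        have h3 : (2:ℝ) ^ i' = 2 ^ (i' - (j - 1 - i)) * 2 ^ (j - 1 - i) := by
          rw [← pow_add]; congr 1; omega
        rw [h3]
        field_simp
      rw [e3] at h0
      rw [h0]
  · intro i hi
    have hi' : j ≤ i := by simpa using hi
    have h0 := hZ0 _ hkZ (i + 1 - j) (by omega)
    have e2 : (2:ℝ) ^ (i + 1) * ((ξ + k) / 2 ^ j) = (2:ℝ) ^ (i + 1 - j) * (ξ + k) := by
      have : (2:ℝ) ^ (i + 1) = 2 ^ j * 2 ^ (i + 1 - j) := by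
        rw [← pow_add]; congr 1; omega
      rw [this]
      field_simp
    rw [e2, h0]
    simp

end Pool.Agent.Helper152.WdPhi
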