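import Pool.Agent.Helper152.WdDefs
import Pool.Agent.Helper152.WdFlow
import Pool.Agent.Helper152.WdPhi
import Pool.Agent.Helper152.WavPath
import Pool.Agent.Helper152.WavMraData

set_option autoImplicit false
open MeasureTheory Filter Topology
open scoped ENNReal

namespace Pool.Agent.Helper152.WdPath

open Pool.Agent.Helper152.Wav
open Pool.Agent.Helper152.Wd
open Pool.Agent.Helper152.Lar (w ae_orbit)
open Pool.Agent.Helper152.WavPath (ee ee_bij aInf aInf_spec aInf_meas st_meas Phi_coord good_congr)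

/-- a path of block states gives a path of functions -/
theorem conn_of_states (D : ℝ → ℕ) (hDm : Measurable D) (hDp : ∀ (x : ℝ) (n : ℤ), D (x + n) = D x)
    (H1 : ∀ᵐ x : ℝ, ∃ i : ℕ, (2:ℝ) ^ i * x ∈ ZZ D) (H2 : ∀ᵐ x : ℝ, ∀ᶠ i : ℕ in atTop, x / 2 ^ i ∉ ZZ D)
    (A : ℝ → ℝ → ℤ → ℕ → ℂ) (hm : ∀ t k j, Measurable fun ξ => A t ξ k j)
    (hA : ∀ᵐ ξ : ℝ, ξ ∈ ZZ D → 0 ≤ ξ → ξ < 1 →
      (∀ t ∈ Set.Icc (0:ℝ) 1, Blk (PP (ZZ D) ξ) (NN (ZZ D) ξ) (A t ξ) ∧ DimS (NN (ZZ D) ξ) (dd D ξ) (A t ξ)) ∧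
      ∀ k j, ContinuousOn (fun t => A t ξ k j) (Set.Icc 0 1)) :
    ConnD D (Phi (ZZ D) (A 0)) (Phi (ZZ D) (A 1)) := by
  have hper : ∀ (x : ℝ) (n : ℤ), x + n ∈ ZZ D ↔ x ∈ ZZ D := fun x n => by
    simp only [ZZ, Set.mem_ofPred_eq]; rw [hDp]
  have hZ : MeasurableSet (ZZ D) := hDm (measurableSet_singleton 0)
  refine ⟨fun t => Phi (ZZ D) (A t), fun t ht => ⟨?_, ?_, ?_⟩, EventuallyEq.refl _ _,
    EventuallyEq.refl _ _, fun t₀ ht₀ => ?_⟩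
  · exact WavPhi.Phi_measurable _ hZ _ (fun k j => hm t k j)
  · apply WavPhi.Phi_good _ hper H1 H2
    filter_upwards [hA] with ξ hξ h1 h2 h3
    exact ((hξ h1 h2 h3).1 t ht).1
  · apply WdPhi.Phi_dim _ hper D hDp H1
    filter_upwards [hA] with ξ hξ h1 h2 h3
    exact (hξ h1 h2 h3).1 t ht
  · filter_upwards [ae_orbit hA] with y hy _
    rcases Phi_coord (ZZ D) hper y with ⟨m, k, hmZ, hc⟩ | h0
    · have h1 := hy m (-⌊(2:ℝ) ^ m * y⌋) 0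
      have e : (2:ℝ) ^ (m:ℤ) * y + ((-⌊(2:ℝ) ^ m * y⌋ : ℤ) : ℝ) * (2:ℝ) ^ (0:ℤ) =
          Int.fract ((2:ℝ) ^ m * y) := by
        rw [zpow_natCast, zpow_zero, mul_one, Int.fract]
        push_cast; ring
      rw [e] at h1
      have h2 := (h1 hmZ (Int.fract_nonneg _) (Int.fract_lt_one _)).2 k m t₀ ht₀
      have heq : (fun t => Phi (ZZ D) (A t) y) = fun t => A t (Int.fract ((2:ℝ) ^ m * y)) k m := by
        funext t; rw [hc]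
      rw [heq]
      exact h2
    · have heq : (fun t => Phi (ZZ D) (A t) y) = fun _ => 0 := by
        funext t; rw [h0]
      rw [heq]
      exact continuousWithinAt_const

/-- the flow keeps the dimensions -/
theorem mv_dimS {P : ℤ → Prop} {N : ℕ → ℤ → Prop} {d : ℕ → ℤ → ℕ} {a : ℤ → ℕ → ℂ} (h : Blk P N a)
    (hd : DimS N d a) (k₀ : ℤ) (θ : ℝ) (h0 : 0 ≤ θ) (h1 : θ ≤ 1) : DimS N d (mv θ k₀ a) := by
  intro j r hN
  by_cases hP : P k₀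
  · rw [WdFlow.mv_dims h k₀ θ h0 h1 hP j r hN]
    exact hd j r hN
  · rw [WavMv.mv_inactive θ k₀ a (fun j => h.zero k₀ j hP)]
    exact hd j r hN

theorem st_dimS {P : ℤ → Prop} {N : ℕ → ℤ → Prop} {d : ℕ → ℤ → ℕ} {a : ℤ → ℕ → ℂ} (h : Blk P N a)
    (hd : DimS N d a) (e : ℕ → ℤ) (n : ℕ) : DimS N d (st e a n) := by
  induction n with
  | zero => exact hd
  | succ n ih => exact mv_dimS (WavIter.st_blk h e n) ih (e n) 1 zero_le_one le_rfl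

theorem aInf_dimS (Z : Set ℝ) (φ : ℝ → ℂ) (ξ : ℝ) {d : ℕ → ℤ → ℕ}
    (hb : Blk (PP Z ξ) (NN Z ξ) (a0 Z φ ξ)) (hd : DimS (NN Z ξ) d (a0 Z φ ξ)) :
    DimS (NN Z ξ) d (aInf Z φ ξ) := by
  obtain ⟨b, hB, h01, hlim⟩ := WavIter.st_limit hb ee ee_bij
  have hab : aInf Z φ ξ = b := by
    funext k j
    obtain ⟨n₀, hn₀⟩ := hlim j k
    unfold aInf
    apply Tendsto.limUnder_eq
    apply tendsto_const_nhds.congr'
    filter_upwards [eventually_ge_atTop n₀] with n hn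
    have := (hn₀ n hn).1 0
    simpa using this.symm
  rw [hab]
  intro j r hN
  choose n0 hn0 using fun l : ℕ => hlim l r
  obtain ⟨M, hM⟩ : ∃ M : ℕ, ∀ l < j, n0 l ≤ M :=
    ⟨∑ l ∈ Finset.range j, n0 l, fun l hl =>
      Finset.single_le_sum (f := n0) (fun _ _ => Nat.zero_le _) (Finset.mem_range.2 hl)⟩
  rw [← st_dimS hb hd ee M j r hN]
  refine tsum_congr fun q => Finset.sum_congr rfl fun l hl => ?_
  rw [Finset.mem_range] at hl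
  have h1 := (hn0 l M (hM l hl)).1 (2 ^ (j - l) * q)
  have e : (r + 2 ^ l * (2 ^ (j - l) * q) : ℤ) = r + 2 ^ j * q := by
    rw [← mul_assoc, ← pow_add]
    congr 3
    omega
  rw [e] at h1
  rw [h1]

/-- first path: the row flow -/
theorem path_flow (D : ℝ → ℕ) (hDm : Measurable D) (hDp : ∀ (x : ℝ) (n : ℤ), D (x + n) = D x)
    (H1 : ∀ᵐ x : ℝ, ∃ i : ℕ, (2:ℝ) ^ i * x ∈ ZZ D) (H2 : ∀ᵐ x : ℝ, ∀ᶠ i : ℕ in atTop, x / 2 ^ i ∉ ZZ D)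
    (φ : ℝ → ℂ) (hm : Measurable φ) (hg : GoodD D φ)
    (hZ0 : ∀ x ∈ ZZ D, ∀ i : ℕ, 1 ≤ i → φ ((2:ℝ) ^ i * x) = 0) :
    ConnD D (Phi (ZZ D) (a0 (ZZ D) φ)) (Phi (ZZ D) (aInf (ZZ D) φ)) ∧
    (Phi (ZZ D) (a0 (ZZ D) φ) =ᵐ[volume] φ) ∧
    ∀ᵐ ξ : ℝ, ξ ∈ ZZ D → 0 ≤ ξ → ξ < 1 →
      Blk (PP (ZZ D) ξ) (NN (ZZ D) ξ) (aInf (ZZ D) φ ξ) ∧ DimS (NN (ZZ D) ξ) (dd D ξ) (aInf (ZZ D) φ ξ) ∧
      ∀ k j, ‖aInf (ZZ D) φ ξ k j‖ = 0 ∨ ‖aInf (ZZ D) φ ξ k j‖ = 1 := by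
  have hper : ∀ (x : ℝ) (n : ℤ), x + n ∈ ZZ D ↔ x ∈ ZZ D := fun x n => by
    simp only [ZZ, Set.mem_ofPred_eq]; rw [hDp]
  have hZ : MeasurableSet (ZZ D) := hDm (measurableSet_singleton 0)
  have hb := WavInit.a0_blk (ZZ D) hper φ hg.1 hZ0
  have hd := WdPhi.a0_dims (ZZ D) hper D φ hZ0 hg.2 (a0 (ZZ D) φ) (fun ξ k j => by
    constructor
    · intro h; unfold a0; rw [if_pos h]
    · intro h; unfold a0; rw [if_neg h])
  have hfr : ∀ τ : ℝ, Int.fract τ ∈ Set.Icc (0:ℝ) 1 := fun τ =>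
    ⟨Int.fract_nonneg τ, (Int.fract_lt_one τ).le⟩
  refine ⟨?_, WavInit.a0_phi (ZZ D) hper φ hZ0 H1, ?_⟩
  · set A : ℝ → ℝ → ℤ → ℕ → ℂ := fun t ξ =>
      if t < 1 then mv (Int.fract (t / (1 - t))) (ee ⌊t / (1 - t)⌋₊)
        (st ee (a0 (ZZ D) φ ξ) ⌊t / (1 - t)⌋₊) else aInf (ZZ D) φ ξ with hAdef
    have hA0 : A 0 = a0 (ZZ D) φ := by
      funext ξ
      simp only [hAdef, zero_lt_one, if_true, zero_div, Int.fract_zero, Nat.floor_zero, WavMv.mv_start]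
      rfl
    have hA1 : A 1 = aInf (ZZ D) φ := by
      funext ξ
      simp only [hAdef, lt_irrefl, if_false]
    rw [← hA0, ← hA1]
    apply conn_of_states D hDm hDp H1 H2
    · intro t k j
      by_cases h : t < 1
      · simp only [hAdef, h, if_true]
        exact WavMv.mv_measurable _ (fun k j => st_meas (ZZ D) hZ φ hm _ k j) _ _ k j
      · simp only [hAdef, h, if_false]
        exact aInf_meas (ZZ D) hZ φ hm k j
    · filter_upwards [hb, hd] with ξ b1 d1 h1 h2 h3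
      have hB := b1 h1 h2 h3
      have hDm : DimS (NN (ZZ D) ξ) (dd D ξ) (a0 (ZZ D) φ ξ) := d1 h1 h2 h3
      refine ⟨fun t ht => ?_, fun k j => ?_⟩
      · by_cases h : t < 1
        · simp only [hAdef, h, if_true]
          exact ⟨WavBlk.mv_blk (WavIter.st_blk hB _ _) _ _ (hfr _).1 (hfr _).2,
            mv_dimS (WavIter.st_blk hB _ _) (st_dimS hB hDm _ _) _ _ (hfr _).1 (hfr _).2⟩
        · simp only [hAdef, h, if_false]
          exact ⟨(aInf_spec (ZZ D) φ ξ hB).1, aInf_dimS (ZZ D) φ ξ hB hDm⟩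
      · obtain ⟨n₀, hn₀⟩ := (aInf_spec (ZZ D) φ ξ hB).2.2 k j
        have hcont := WavMv.glue (fun n θ => mv θ (ee n) (st ee (a0 (ZZ D) φ ξ) n) k j)
          (aInf (ZZ D) φ ξ k j)
          (fun n => WavMv.mv_cont (ee n) (st ee (a0 (ZZ D) φ ξ) n) k j)
          (fun n => by
            show mv 1 (ee n) (st ee (a0 (ZZ D) φ ξ) n) k j =
              mv 0 (ee (n + 1)) (st ee (a0 (ZZ D) φ ξ) (n + 1)) k j
            rw [WavMv.mv_start]; rfl) n₀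
          (fun n hn θ hθ => hn₀ n hn θ hθ)
        have heq : (fun t => A t ξ k j) = fun t : ℝ => if t < 1 then
            mv (Int.fract (t / (1 - t))) (ee ⌊t / (1 - t)⌋₊)
              (st ee (a0 (ZZ D) φ ξ) ⌊t / (1 - t)⌋₊) k j
            else aInf (ZZ D) φ ξ k j := by
          funext t
          by_cases h : t < 1
          · simp only [hAdef, h, if_true]
          · simp only [hAdef, h, if_false]
        rw [heq]
        exact hcont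
  · filter_upwards [hb, hd] with ξ b1 d1 h1 h2 h3
    have hB := b1 h1 h2 h3
    exact ⟨(aInf_spec (ZZ D) φ ξ hB).1, aInf_dimS (ZZ D) φ ξ hB (d1 h1 h2 h3),
      (aInf_spec (ZZ D) φ ξ hB).2.1⟩

/-- change of the end points -/
theorem connD_congr {D : ℝ → ℕ} {φ₀ φ₁ φ₀' φ₁' : ℝ → ℂ} (h : ConnD D φ₀ φ₁) (e0 : φ₀ =ᵐ[volume] φ₀')
    (e1 : φ₁ =ᵐ[volume] φ₁') : ConnD D φ₀' φ₁' := by
  obtain ⟨Ψ, h1, h2, h3, h4⟩ := h
  exact ⟨Ψ, h1, h2.trans e0, h3.trans e1, h4⟩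

/-- equal states give equal functions -/
theorem Phi_congr (Z : Set ℝ) (hper : ∀ (x : ℝ) (n : ℤ), x + n ∈ Z ↔ x ∈ Z) (a a' : ℝ → ℤ → ℕ → ℂ)
    (h : ∀ᵐ ξ : ℝ, ξ ∈ Z → 0 ≤ ξ → ξ < 1 → a ξ = a' ξ) : Phi Z a =ᵐ[volume] Phi Z a' := by
  filter_upwards [ae_orbit h] with y hy
  rcases Phi_coord Z hper y with ⟨m, k, hmZ, hc⟩ | h0
  · have h1 := hy m (-⌊(2:ℝ) ^ m * y⌋) 0
    have e : (2:ℝ) ^ (m:ℤ) * y + ((-⌊(2:ℝ) ^ m * y⌋ : ℤ) : ℝ) * (2:ℝ) ^ (0:ℤ) =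
        Int.fract ((2:ℝ) ^ m * y) := by
      rw [zpow_natCast, zpow_zero, mul_one, Int.fract]
      push_cast; ring
    rw [e] at h1
    rw [hc, hc, h1 hmZ (Int.fract_nonneg _) (Int.fract_lt_one _)]
  · rw [h0, h0]

end Pool.Agent.Helper152.WdPath
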