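import Mathlib
import Pool.Agent.Helper152.HilbF

set_option autoImplicit false
open MeasureTheory Filter Topology
open scoped ENNReal

namespace Pool.Agent.Helper152.WdTrunc

open scoped FourierTransform

theorem x8_sq_lint (g : ℝ → ℂ) :
    eLpNorm g 2 (volume : Measure ℝ) ^ 2 = ∫⁻ y, ‖g y‖ₑ ^ 2 := by
  have h := eLpNorm_nnreal_pow_eq_lintegral (f := g) (μ := (volume : Measure ℝ)) (p := 2)
    (by norm_num)
  simpa using h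

theorem x8_norm_sq (f : Lp ℂ 2 (volume : Measure ℝ)) (g : ℝ → ℂ) (h : ⇑f =ᵐ[volume] g) :
    ENNReal.ofReal (‖f‖ ^ 2) = ∫⁻ y, ‖g y‖ₑ ^ 2 := by
  rw [← x8_sq_lint, ← eLpNorm_congr_ae h, Lp.norm_def, ENNReal.ofReal_pow ENNReal.toReal_nonneg,
    ENNReal.ofReal_toReal (Lp.eLpNorm_ne_top f)]

/-- the cut off function -/
noncomputable def x8_g (f : Lp ℂ 2 (volume : Measure ℝ)) (n : ℕ) : ℝ → ℂ :=
  (Set.Ioc (-(n:ℝ)) (n:ℝ)).indicator f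

theorem x8_g_mem (f : Lp ℂ 2 (volume : Measure ℝ)) (n : ℕ) : MemLp (x8_g f n) 2 :=
  (Lp.memLp f).indicator measurableSet_Ioc

theorem x8_g_int (f : Lp ℂ 2 (volume : Measure ℝ)) (n : ℕ) : Integrable (x8_g f n) := by
  unfold x8_g
  rw [integrable_indicator_iff measurableSet_Ioc]
  have h1 : MemLp f 2 ((volume : Measure ℝ).restrict (Set.Ioc (-(n:ℝ)) (n:ℝ))) :=
    (Lp.memLp f).restrict _
  exact h1.integrable one_le_two

theorem x8_trunc (f : Lp ℂ 2 (volume : Measure ℝ)) (n : ℕ) (ξ : ℝ) :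
    ∫ x in (-(n:ℝ))..(n:ℝ),
      Complex.exp (-(2 * (Real.pi : ℂ) * Complex.I * (x : ℂ) * (ξ : ℂ))) * f x =
      𝓕 (x8_g f n) ξ := by
  have hn : (-(n:ℝ)) ≤ (n:ℝ) := by
    have : (0:ℝ) ≤ n := Nat.cast_nonneg n
    linarith
  rw [intervalIntegral.integral_of_le hn, Real.fourier_real_eq_integral_exp_smul,
    ← integral_indicator measurableSet_Ioc]
  refine integral_congr_ae (ae_of_all _ fun x => ?_)
  simp only [x8_g]
  by_cases hx : x ∈ Set.Ioc (-(n:ℝ)) (n:ℝ)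
  · rw [Set.indicator_of_mem hx, Set.indicator_of_mem hx, smul_eq_mul]
    congr 2
    push_cast
    ring
  · rw [Set.indicator_of_notMem hx, Set.indicator_of_notMem hx, smul_zero]

theorem x8_fae (f : Lp ℂ 2 (volume : Measure ℝ)) (n : ℕ) :
    ∀ᵐ ξ, (𝓕 ((x8_g_mem f n).toLp (x8_g f n)) : Lp ℂ 2 (volume : Measure ℝ)) ξ =
      𝓕 (x8_g f n) ξ :=
  Pool.Agent.Helper152.Hilb.fourier_ae (x8_g_int f n) (x8_g_mem f n)

theorem x8_sub (f g : Lp ℂ 2 (volume : Measure ℝ)) :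
    (𝓕 (f - g) : Lp ℂ 2 (volume : Measure ℝ)) = 𝓕 f - 𝓕 g :=
  (Lp.fourierTransformₗᵢ ℝ ℂ).map_sub f g

/-- the truncated Fourier integrals of an L2 function converge in L2 to its Fourier transform -/
theorem trunc_tendsto (f : Lp ℂ 2 (volume : Measure ℝ)) :
    Tendsto (fun n : ℕ => ∫⁻ ξ : ℝ,
        ‖(𝓕 f : Lp ℂ 2 (volume : Measure ℝ)) ξ - ∫ x in (-(n:ℝ))..(n:ℝ),
          Complex.exp (-(2 * (Real.pi : ℂ) * Complex.I * (x : ℂ) * (ξ : ℂ))) * f x‖ₑ ^ 2)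
      atTop (𝓝 0) := by
  have h1 : ∀ n : ℕ, ∫⁻ ξ : ℝ,
        ‖(𝓕 f : Lp ℂ 2 (volume : Measure ℝ)) ξ - ∫ x in (-(n:ℝ))..(n:ℝ),
          Complex.exp (-(2 * (Real.pi : ℂ) * Complex.I * (x : ℂ) * (ξ : ℂ))) * f x‖ₑ ^ 2 =
      ∫⁻ x : ℝ, ‖f x - x8_g f n x‖ₑ ^ 2 := by
    intro n
    set g' := (x8_g_mem f n).toLp (x8_g f n) with hg'
    have e1 : ⇑(𝓕 (f - g') : Lp ℂ 2 (volume : Measure ℝ)) =ᵐ[volume] fun ξ =>
        (𝓕 f : Lp ℂ 2 (volume : Measure ℝ)) ξ - ∫ x in (-(n:ℝ))..(n:ℝ),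
          Complex.exp (-(2 * (Real.pi : ℂ) * Complex.I * (x : ℂ) * (ξ : ℂ))) * f x := by
      rw [x8_sub]
      filter_upwards [Lp.coeFn_sub (𝓕 f : Lp ℂ 2 (volume : Measure ℝ)) (𝓕 g'),
        x8_fae f n] with ξ hξ1 hξ2
      rw [hξ1, Pi.sub_apply, hξ2, x8_trunc]
    have e2 : ⇑(f - g') =ᵐ[volume] fun x => f x - x8_g f n x := by
      filter_upwards [Lp.coeFn_sub f g', (x8_g_mem f n).coeFn_toLp] with x hx1 hx2
      rw [hx1, Pi.sub_apply, hx2]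
    rw [← x8_norm_sq _ _ e1, ← x8_norm_sq _ _ e2, Lp.norm_fourier_eq]
  simp_rw [h1]
  have h2 : ∫⁻ x : ℝ, (0 : ℝ≥0∞) = 0 := lintegral_zero
  rw [← h2]
  have hfm : Measurable f := (Lp.stronglyMeasurable f).measurable
  refine tendsto_lintegral_of_dominated_convergence (fun x => ‖f x‖ₑ ^ 2) ?_ ?_ ?_ ?_
  · intro n
    have : Measurable (x8_g f n) := hfm.indicator measurableSet_Ioc
    exact ((hfm.sub this).enorm).pow_const 2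
  · intro n
    refine ae_of_all _ fun x => ?_
    simp only [x8_g]
    by_cases hx : x ∈ Set.Ioc (-(n:ℝ)) (n:ℝ)
    · rw [Set.indicator_of_mem hx, sub_self]
      simp
    · rw [Set.indicator_of_notMem hx, sub_zero]
  · rw [← x8_sq_lint]
    exact ENNReal.pow_ne_top (Lp.eLpNorm_ne_top f)
  · refine ae_of_all _ fun x => ?_
    refine tendsto_const_nhds.congr' ?_
    filter_upwards [eventually_gt_atTop (⌈|x|⌉₊)] with n hn
    have h3 : |x| < n := (Nat.le_ceil |x|).trans_lt (by exact_mod_cast hn)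
    have h4 := abs_lt.mp h3
    have h5 : x ∈ Set.Ioc (-(n:ℝ)) (n:ℝ) := ⟨h4.1, h4.2.le⟩
    simp only [x8_g]
    rw [Set.indicator_of_mem h5, sub_self]
    simp

/-- uniqueness of the limit -/
theorem trunc_unique (f : Lp ℂ 2 (volume : Measure ℝ)) (F : ℝ → ℂ) (hF : MemLp F 2)
    (h : Tendsto (fun n : ℕ => ∫⁻ ξ : ℝ,
        ‖F ξ - ∫ x in (-(n:ℝ))..(n:ℝ),
          Complex.exp (-(2 * (Real.pi : ℂ) * Complex.I * (x : ℂ) * (ξ : ℂ))) * f x‖ₑ ^ 2)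
      atTop (𝓝 0)) : F =ᵐ[volume] ((𝓕 f : Lp ℂ 2 (volume : Measure ℝ)) : ℝ → ℂ) := by
  have h0 := trunc_tendsto f
  have hlim : Tendsto (fun n : ℕ => 2 * ((∫⁻ ξ : ℝ,
        ‖F ξ - ∫ x in (-(n:ℝ))..(n:ℝ),
          Complex.exp (-(2 * (Real.pi : ℂ) * Complex.I * (x : ℂ) * (ξ : ℂ))) * f x‖ₑ ^ 2) +
        ∫⁻ ξ : ℝ, ‖(𝓕 f : Lp ℂ 2 (volume : Measure ℝ)) ξ - ∫ x in (-(n:ℝ))..(n:ℝ),
          Complex.exp (-(2 * (Real.pi : ℂ) * Complex.I * (x : ℂ) * (ξ : ℂ))) * f x‖ₑ ^ 2))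
      atTop (𝓝 (2 * (0 + 0))) :=
    ENNReal.Tendsto.const_mul (h.add h0) (Or.inr (by norm_num))
  have hle : ∀ n : ℕ, ∫⁻ ξ : ℝ, ‖F ξ - (𝓕 f : Lp ℂ 2 (volume : Measure ℝ)) ξ‖ₑ ^ 2 ≤
      2 * ((∫⁻ ξ : ℝ,
        ‖F ξ - ∫ x in (-(n:ℝ))..(n:ℝ),
          Complex.exp (-(2 * (Real.pi : ℂ) * Complex.I * (x : ℂ) * (ξ : ℂ))) * f x‖ₑ ^ 2) +
        ∫⁻ ξ : ℝ, ‖(𝓕 f : Lp ℂ 2 (volume : Measure ℝ)) ξ - ∫ x in (-(n:ℝ))..(n:ℝ),
          Complex.exp (-(2 * (Real.pi : ℂ) * Complex.I * (x : ℂ) * (ξ : ℂ))) * f x‖ₑ ^ 2) := by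
    intro n
    have hm : AEMeasurable (fun ξ : ℝ => ‖F ξ - ∫ x in (-(n:ℝ))..(n:ℝ),
          Complex.exp (-(2 * (Real.pi : ℂ) * Complex.I * (x : ℂ) * (ξ : ℂ))) * f x‖ₑ ^ 2)
          volume := by
      have e1 : Continuous (fun ξ : ℝ => ∫ x in (-(n:ℝ))..(n:ℝ),
          Complex.exp (-(2 * (Real.pi : ℂ) * Complex.I * (x : ℂ) * (ξ : ℂ))) * f x) := by
        simp_rw [x8_trunc]
        exact Pool.Agent.Helper152.Hilb.fourier_cont (x8_g_int f n)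
      exact ((hF.1.aemeasurable.sub e1.measurable.aemeasurable).enorm).pow_const 2
    rw [← lintegral_add_left' hm, ← lintegral_const_mul' _ _ (by norm_num)]
    refine lintegral_mono fun ξ => ?_
    simp only
    set G := ∫ x in (-(n:ℝ))..(n:ℝ),
          Complex.exp (-(2 * (Real.pi : ℂ) * Complex.I * (x : ℂ) * (ξ : ℂ))) * f x with hG
    set a := F ξ
    set b := (𝓕 f : Lp ℂ 2 (volume : Measure ℝ)) ξ
    have key : ‖a - b‖ ^ 2 ≤ 2 * (‖a - G‖ ^ 2 + ‖b - G‖ ^ 2) := by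
      have e1 : ‖a - b‖ ≤ ‖a - G‖ + ‖b - G‖ := by
        calc ‖a - b‖ = ‖(a - G) - (b - G)‖ := by congr 1; ring
          _ ≤ _ := norm_sub_le _ _
      have e2 : 0 ≤ ‖a - b‖ := norm_nonneg _
      nlinarith [sq_nonneg (‖a - G‖ - ‖b - G‖)]
    have conv : ∀ z : ℂ, ‖z‖ₑ ^ 2 = ENNReal.ofReal (‖z‖ ^ 2) := by
      intro z
      rw [← ofReal_norm_eq_enorm, ENNReal.ofReal_pow (norm_nonneg _)]
    rw [conv, conv, conv, ← ENNReal.ofReal_add (by positivity) (by positivity)]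
    have e2 : (2 : ℝ≥0∞) = ENNReal.ofReal 2 := by simp
    rw [e2, ← ENNReal.ofReal_mul (by norm_num)]
    exact ENNReal.ofReal_le_ofReal key
  have hz : ∫⁻ ξ : ℝ, ‖F ξ - (𝓕 f : Lp ℂ 2 (volume : Measure ℝ)) ξ‖ₑ ^ 2 = 0 := by
    have := ge_of_tendsto' hlim hle
    simpa using this
  have hm2 : AEMeasurable (fun ξ : ℝ =>
      ‖F ξ - (𝓕 f : Lp ℂ 2 (volume : Measure ℝ)) ξ‖ₑ ^ 2) volume :=
    ((hF.1.aemeasurable.sub (Lp.stronglyMeasurable _).measurable.aemeasurable).enorm).pow_const 2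
  rw [lintegral_eq_zero_iff' hm2] at hz
  filter_upwards [hz] with ξ hξ
  have h5 : ‖F ξ - (𝓕 f : Lp ℂ 2 (volume : Measure ℝ)) ξ‖ₑ = 0 := by
    have : ‖F ξ - (𝓕 f : Lp ℂ 2 (volume : Measure ℝ)) ξ‖ₑ ^ 2 = 0 := hξ
    exact pow_eq_zero_iff (by norm_num) |>.mp this
  rw [enorm_eq_zero] at h5
  exact sub_eq_zero.mp h5

end Pool.Agent.Helper152.WdTrunc
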