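import Pool.Agent.Helper152.WdMain
import Pool.Agent.Helper152.WdTrunc
import Pool.Agent.Helper152.WavTrans

set_option autoImplicit false
open MeasureTheory Filter Topology
open scoped ENNReal FourierTransform

namespace Pool.Agent.Helper152.WdTrans

open Pool.Agent.Helper152.Wav
open Pool.Agent.Helper152.Wd
open Pool.Agent.Helper152.WdMain (SGD goodD_congr SGD_pathConnected)
open Pool.Agent.Helper152.WavTrans (SW inner_eq mem_of_good good_of_mem)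
open Pool.Agent.Helper152.Lar (w ae_orbit)

/-- the affine system of f -/
noncomputable def aff (f : ℝ → ℂ) (j k : ℤ) (x : ℝ) : ℂ :=
  (((2:ℝ) ^ ((j:ℝ) / 2) : ℝ) : ℂ) * f ((2:ℝ) ^ j * x - k)

/-- orthonormality and completeness in integral form -/
def OC (f : ℝ → ℂ) : Prop :=
  (∀ j k j' k' : ℤ, ∫ x : ℝ, aff f j k x * starRingEnd ℂ (aff f j' k' x)
          = if j = j' ∧ k = k' then 1 else 0) ∧
  (∀ g : ℝ → ℂ, MeasureTheory.MemLp g 2 →
        (∀ j k : ℤ, ∫ x : ℝ, g x * starRingEnd ℂ (aff f j k x) = 0) → g =ᵐ[MeasureTheory.volume] 0)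

theorem oc_iff (f : Lp ℂ 2 (volume : Measure ℝ)) : OC (f : ℝ → ℂ) ↔ f ∈ SW := by
  constructor
  · rintro ⟨hA, hB⟩
    have hu : ∀ p : ℤ × ℤ, ∃ u : Lp ℂ 2 (volume : Measure ℝ), (⇑u : ℝ → ℂ) =ᵐ[volume]
        fun x : ℝ => ((((2:ℝ) ^ ((p.1:ℝ) / 2)) : ℝ) : ℂ) * f ((2:ℝ) ^ p.1 * x - (p.2:ℝ)) := by
      intro p
      obtain ⟨A, _, hA⟩ := WavFour.exists_op ((2:ℝ) ^ p.1) (-(p.2:ℝ)) (by positivity)
        (fun _ => ((((2:ℝ) ^ ((p.1:ℝ) / 2)) : ℝ) : ℂ)) continuous_const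
        ‖((((2:ℝ) ^ ((p.1:ℝ) / 2)) : ℝ) : ℂ)‖ (fun _ => le_rfl)
      exact ⟨A f, by simpa [sub_eq_add_neg] using hA f⟩
    choose u hu' using hu
    have hu'' : ∀ p : ℤ × ℤ, (⇑(u p) : ℝ → ℂ) =ᵐ[volume] aff f p.1 p.2 := hu'
    have hon : Orthonormal ℂ u := by
      rw [orthonormal_iff_ite]
      intro p q
      rw [inner_eq _ _ (hu'' p) (hu'' q), hA q.1 q.2 p.1 p.2]
      by_cases hpq : p = q
      · subst hpq; simp
      · have : ¬ (q.1 = p.1 ∧ q.2 = p.2) := fun h' => hpq (Prod.ext h'.1.symm h'.2.symm)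
        simp [hpq, this]
    have hco : (Submodule.span ℂ (Set.range u))ᗮ = ⊥ := by
      rw [Submodule.eq_bot_iff]
      intro g hgm
      have h1 : ∀ p, inner ℂ (u p) g = 0 := fun p =>
        (Submodule.mem_orthogonal _ _).1 hgm _ (Submodule.subset_span ⟨p, rfl⟩)
      have h3 := hB g (Lp.memLp _) (fun j k => by
        rw [← inner_eq (u (j, k)) g (hu'' (j, k)) (EventuallyEq.refl _ _)]
        exact h1 (j, k))
      apply Lp.ext
      exact h3.trans (Lp.coeFn_zero ℂ 2 volume).symm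
    refine ⟨HilbertBasis.mkOfOrthogonalEqBot hon hco, fun j k => ?_⟩
    rw [HilbertBasis.coe_mkOfOrthogonalEqBot]
    exact hu' (j, k)
  · rintro ⟨b, hb⟩
    have hb' : ∀ j k : ℤ, (⇑(b (j, k)) : ℝ → ℂ) =ᵐ[volume] aff f j k := hb
    refine ⟨fun j k j' k' => ?_, fun g hg h0 => ?_⟩
    · rw [← inner_eq (b (j', k')) (b (j, k)) (hb' j' k') (hb' j k)]
      have := orthonormal_iff_ite.1 b.orthonormal (j', k') (j, k)
      rw [this]
      by_cases hpq : j = j' ∧ k = k'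
      · obtain ⟨rfl, rfl⟩ := hpq; simp
      · have : ¬ ((j', k') = (j, k)) := fun h' => by
          rw [Prod.mk.injEq] at h'
          exact hpq ⟨h'.1.symm, h'.2.symm⟩
        simp [hpq, this]
    · obtain ⟨H, hH⟩ : ∃ H : Lp ℂ 2 (volume : Measure ℝ), H = hg.toLp g := ⟨_, rfl⟩
      have hHg : (H : ℝ → ℂ) =ᵐ[volume] g := hH ▸ hg.coeFn_toLp
      have h1 : ∀ p : ℤ × ℤ, inner ℂ (b p) H = 0 := by
        intro p
        rw [inner_eq (b p) H (hb' p.1 p.2) hHg]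
        exact h0 p.1 p.2
      have h2 : H = 0 := by
        have h3 := b.hasSum_repr H
        have h4 : ∀ p, b.repr H p = 0 := fun p => by rw [b.repr_apply_apply]; exact h1 p
        simp only [h4, zero_smul] at h3
        exact h3.unique hasSum_zero
      rw [h2] at hHg
      exact hHg.symm.trans (Lp.coeFn_zero ℂ 2 volume)

theorem main (D : ℝ → ℕ) (hDm : Measurable D) (hp : Function.Periodic D 1)
    (D2 : ∀ᵐ ξ : ℝ, D ξ + D (ξ + 1 / 2) = D (2 * ξ) + 1)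
    (D3 : ∀ᵐ ξ : ℝ, ((D ξ : ℕ∞) ≤ {k : ℤ | ∀ j : ℕ, 1 ≤ D ((ξ + k) / 2 ^ j)}.encard))
    (D4 : ∀ᵐ ξ : ℝ, ∀ᶠ j : ℕ in Filter.atTop, 1 ≤ D (ξ / 2 ^ j)) :
    IsPathConnected {f : MeasureTheory.Lp ℂ 2 (MeasureTheory.volume : MeasureTheory.Measure ℝ) |
      OC (f : ℝ → ℂ) ∧
      ∃ F : ℝ → ℂ, MeasureTheory.MemLp F 2 ∧
        Filter.Tendsto (fun n : ℕ => ∫⁻ ξ : ℝ,
            ‖F ξ - ∫ x in (-(n:ℝ))..(n:ℝ),
              Complex.exp (-(2 * (Real.pi : ℂ) * Complex.I * (x : ℂ) * (ξ : ℂ))) * f x‖ₑ ^ 2)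
          Filter.atTop (nhds 0) ∧
        ∀ᵐ ξ : ℝ, (∑' j : ℕ, ∑' k : ℤ, ‖F ((2:ℝ) ^ (j + 1) * (ξ + k))‖ₑ ^ 2)
          = ((D ξ : ℕ) : ENNReal)} := by
  have h := (SGD_pathConnected D hDm hp D2 D3 D4).image (f := fun g : Lp ℂ 2 (volume : Measure ℝ) =>
    (𝓕⁻ g : Lp ℂ 2 (volume : Measure ℝ)))
    (Lp.fourierTransformₗᵢ ℝ ℂ).symm.continuous
  have key : ∀ F : ℝ → ℂ, ∀ x : ℝ, (∑' j : ℕ, ∑' k : ℤ, ‖F ((2:ℝ) ^ (j + 1) * (x + k))‖ₑ ^ 2) =
      ∑' n : ℤ, w F (x + n) := by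
    intro F x
    rw [ENNReal.tsum_comm]
    rfl
  convert h using 1
  ext f
  constructor
  · rintro ⟨h1, F, h2, h3, h4⟩
    have h5 := WdTrunc.trunc_unique f F h2 h3
    refine ⟨𝓕 f, ?_, FourierTransform.fourierInv_fourier_eq f⟩
    apply goodD_congr (φ := F) h5
    refine ⟨WavPath.good_congr h5.symm (good_of_mem f ((oc_iff f).1 h1)), ?_⟩
    filter_upwards [h4] with x hx
    rw [← hx, key]
  · rintro ⟨g, hg, rfl⟩
    have e : (𝓕 (𝓕⁻ g : Lp ℂ 2 (volume : Measure ℝ)) : Lp ℂ 2 (volume : Measure ℝ)) = g :=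
      FourierTransform.fourier_fourierInv_eq g
    refine ⟨(oc_iff _).2 (mem_of_good _ (by rw [e]; exact hg.1)), g, Lp.memLp g, ?_, ?_⟩
    · have := WdTrunc.trunc_tendsto (𝓕⁻ g : Lp ℂ 2 (volume : Measure ℝ))
      rw [e] at this
      exact this
    · filter_upwards [hg.2] with x hx
      rw [key, hx]

end Pool.Agent.Helper152.WdTrans
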